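import Pool.Agent.ZZ.Defs2

/-! # Part A of the zigzag construction: the analysis wrapper (helper134) -/

set_option autoImplicit false
open Set Filter Topology MeasureTheory
open scoped NNReal

namespace Pool.Agent.ZZ

section
namespace PA

/-! ### Truncation -/

/-- smooth truncation: `0` near `0`, identity for `|s| ≥ 2`. -/
noncomputable def T0 (s : ℝ) : ℝ := s * Real.smoothTransition (s ^ 2 - 1)

lemma T0_contDiff : ContDiff ℝ 1 T0 := by
  unfold T0
  have h : ContDiff ℝ 1 Real.smoothTransition := Real.smoothTransition.contDiff (n := 1)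
  exact contDiff_id.mul (h.comp ((contDiff_id.pow 2).sub contDiff_const))

lemma T0_zero {s : ℝ} (hs : |s| ≤ 1) : T0 s = 0 := by
  unfold T0
  rw [Real.smoothTransition.zero_of_nonpos, mul_zero]
  have : s ^ 2 ≤ 1 := by rw [← sq_abs]; nlinarith [abs_nonneg s]
  linarith

lemma T0_id {s : ℝ} (hs : 3 / 2 ≤ |s|) : T0 s = s := by
  unfold T0
  rw [Real.smoothTransition.one_of_one_le, mul_one]
  have : 2 ≤ s ^ 2 := by rw [← sq_abs]; nlinarith [abs_nonneg s]
  linarith

lemma T0_sub_le (s : ℝ) : |T0 s - s| ≤ 2 := by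
  by_cases hs : 3 / 2 ≤ |s|
  · rw [T0_id hs]; simp
  · push Not at hs
    unfold T0
    have h1 := Real.smoothTransition.nonneg (s ^ 2 - 1)
    have h2 := Real.smoothTransition.le_one (s ^ 2 - 1)
    have : s * Real.smoothTransition (s ^ 2 - 1) - s
        = - (s * (1 - Real.smoothTransition (s ^ 2 - 1))) := by ring
    rw [this, abs_neg, abs_mul, abs_of_nonneg (by linarith : (0:ℝ) ≤ 1 - Real.smoothTransition (s ^ 2 - 1))]
    nlinarith [abs_nonneg s]

lemma T0_deriv_one {s : ℝ} (hs : 2 ≤ |s|) : deriv T0 s = 1 := by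
  have : T0 =ᶠ[𝓝 s] id := by
    have h : ∀ᶠ y in 𝓝 s, 3 / 2 < |y| :=
      (continuous_abs.continuousAt (x := s)).eventually (lt_mem_nhds (by linarith))
    filter_upwards [h] with y hy
    exact T0_id hy.le
  rw [this.deriv_eq]; simp

lemma T0_deriv_bound : ∃ C : ℝ, 0 ≤ C ∧ ∀ s, |deriv T0 s| ≤ C := by
  have hc : Continuous (deriv T0) := T0_contDiff.continuous_deriv le_rfl
  obtain ⟨C, hC⟩ := (isCompact_Icc (a := (-2:ℝ)) (b := 2)).exists_bound_of_continuousOn hc.continuousOn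
  refine ⟨max C 1, le_trans zero_le_one (le_max_right _ _), fun s => ?_⟩
  by_cases hs : 2 ≤ |s|
  · rw [T0_deriv_one hs]; simp
  · push Not at hs
    have := hC s (by rw [abs_lt] at hs; exact ⟨hs.1.le, hs.2.le⟩)
    rw [Real.norm_eq_abs] at this
    exact this.trans (le_max_left _ _)

/-- scaled truncation `ε T0(s/ε)` with `ε = 1/(n+1)`. -/
noncomputable def Tn (n : ℕ) (s : ℝ) : ℝ := (1 / ((n:ℝ) + 1)) * T0 (((n:ℝ) + 1) * s)

lemma Tn_contDiff (n : ℕ) : ContDiff ℝ 1 (Tn n) := by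
  unfold Tn
  exact contDiff_const.mul (T0_contDiff.comp (contDiff_const.mul contDiff_id))

lemma Tn_zero (n : ℕ) {s : ℝ} (hs : |s| ≤ 1 / ((n:ℝ) + 1)) : Tn n s = 0 := by
  unfold Tn
  have hn : (0:ℝ) < (n:ℝ) + 1 := by positivity
  rw [T0_zero, mul_zero]
  rw [abs_mul, abs_of_pos hn]
  rw [le_div_iff₀ hn] at hs
  linarith

lemma Tn_sub_le (n : ℕ) (s : ℝ) : |Tn n s - s| ≤ 2 / ((n:ℝ) + 1) := by
  unfold Tn
  have hn : (0:ℝ) < (n:ℝ) + 1 := by positivity
  have h := T0_sub_le (((n:ℝ) + 1) * s)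
  have : 1 / ((n:ℝ) + 1) * T0 (((n:ℝ) + 1) * s) - s
      = (1 / ((n:ℝ) + 1)) * (T0 (((n:ℝ) + 1) * s) - ((n:ℝ) + 1) * s) := by
    field_simp
  rw [this, abs_mul, abs_of_pos (by positivity : (0:ℝ) < 1 / ((n:ℝ) + 1))]
  calc 1 / ((n:ℝ) + 1) * |T0 (((n:ℝ) + 1) * s) - ((n:ℝ) + 1) * s| ≤ 1 / ((n:ℝ) + 1) * 2 := by
        gcongr
    _ = 2 / ((n:ℝ) + 1) := by ring

lemma Tn_deriv (n : ℕ) (s : ℝ) : deriv (Tn n) s = deriv T0 (((n:ℝ) + 1) * s) := by
  have hn : ((n:ℝ) + 1) ≠ 0 := by positivity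
  have hd : HasDerivAt T0 (deriv T0 (((n:ℝ) + 1) * s)) (((n:ℝ) + 1) * s) :=
    ((T0_contDiff.differentiable (by norm_num)) _).hasDerivAt
  have hl : HasDerivAt (fun y : ℝ => ((n:ℝ) + 1) * y) ((n:ℝ) + 1) s := by
    simpa using (hasDerivAt_id s).const_mul ((n:ℝ) + 1)
  have h := (hd.comp s hl).const_mul (1 / ((n:ℝ) + 1))
  have h2 : deriv (Tn n) s = 1 / ((n:ℝ) + 1) * (deriv T0 (((n:ℝ) + 1) * s) * ((n:ℝ) + 1)) := h.deriv
  rw [h2]; field_simp

lemma Tn_deriv_tendsto {s : ℝ} (hs : s ≠ 0) :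
    Tendsto (fun n : ℕ => deriv (Tn n) s) atTop (𝓝 1) := by
  apply tendsto_const_nhds.congr'
  obtain ⟨N, hN⟩ := exists_nat_gt (2 / |s|)
  filter_upwards [eventually_ge_atTop N] with n hn
  rw [Tn_deriv, T0_deriv_one]
  have hs' : 0 < |s| := abs_pos.mpr hs
  have hnN : (N:ℝ) ≤ (n:ℝ) := by exact_mod_cast hn
  rw [abs_mul, abs_of_pos (by positivity : (0:ℝ) < (n:ℝ) + 1)]
  rw [div_lt_iff₀ hs'] at hN
  nlinarith

lemma Tn_tendsto (s : ℝ) : Tendsto (fun n : ℕ => Tn n s) atTop (𝓝 s) := by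
  rw [tendsto_iff_norm_sub_tendsto_zero]
  have h0 : Tendsto (fun n : ℕ => 2 / ((n:ℝ) + 1)) atTop (𝓝 0) := by
    have := (tendsto_one_div_add_atTop_nhds_zero_nat (𝕜 := ℝ)).const_mul 2
    simpa [div_eq_mul_inv] using this
  refine squeeze_zero (fun n => norm_nonneg _) (fun n => ?_) h0
  rw [Real.norm_eq_abs]
  exact Tn_sub_le n s

/-! ### Locally Lipschitz functions with compact support -/

section gen

variable {E : Type*} [NormedAddCommGroup E] [NormedSpace ℝ E] [FiniteDimensional ℝ E]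

lemma lipschitz_of_loc {w : E → ℝ} (hloc : LocallyLipschitz w) (hc : HasCompactSupport w) :
    ∃ C : NNReal, LipschitzWith C w := by
  have : ProperSpace E := FiniteDimensional.proper ℝ E
  obtain ⟨R, hR⟩ := hc.isCompact.isBounded.subset_closedBall (0:E)
  have hR' : tsupport w ⊆ Metric.closedBall (0:E) R := hR
  obtain ⟨C, hC⟩ := (hloc.locallyLipschitzOn (s := Metric.closedBall (0:E) (R+1))).exists_lipschitzOnWith_of_compact
    (isCompact_closedBall (0:E) (R+1))
  obtain ⟨M, hM⟩ := hc.exists_bound_of_continuous hloc.continuous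
  have hM0 : 0 ≤ M := (norm_nonneg _).trans (hM 0)
  refine ⟨max C ⟨M, hM0⟩, ?_⟩
  have key : ∀ x y : E, x ∈ Metric.closedBall (0:E) R → dist (w x) (w y) ≤ (max C ⟨M, hM0⟩ : NNReal) * dist x y := by
    intro x y hx
    by_cases hy : y ∈ Metric.closedBall (0:E) (R+1)
    · have hx' : x ∈ Metric.closedBall (0:E) (R+1) := Metric.closedBall_subset_closedBall (by linarith) hx
      refine (hC.dist_le_mul x hx' y hy).trans ?_
      gcongr
      exact le_max_left _ _
    · have hy0 : w y = 0 := by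
        apply image_eq_zero_of_notMem_tsupport
        intro h
        exact hy (Metric.closedBall_subset_closedBall (by linarith) (hR' h))
      rw [hy0, dist_zero_right]
      have hd : 1 ≤ dist x y := by
        rw [Metric.mem_closedBall] at hx hy
        push Not at hy
        have := dist_triangle y x 0
        rw [dist_comm y x] at this
        linarith
      calc ‖w x‖ ≤ M := hM x
        _ = M * 1 := by ring
        _ ≤ (max C ⟨M, hM0⟩ : NNReal) * dist x y := by
            apply mul_le_mul _ hd zero_le_one (NNReal.coe_nonneg _)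
            have : (⟨M, hM0⟩ : NNReal) ≤ max C ⟨M, hM0⟩ := le_max_right _ _
            exact_mod_cast this
  apply LipschitzWith.of_dist_le_mul
  intro x y
  by_cases hx : x ∈ Metric.closedBall (0:E) R
  · exact key x y hx
  by_cases hy : y ∈ Metric.closedBall (0:E) R
  · rw [dist_comm (w x), dist_comm x]; exact key y x hy
  · have hx0 : w x = 0 := image_eq_zero_of_notMem_tsupport fun h => hx (hR' h)
    have hy0 : w y = 0 := image_eq_zero_of_notMem_tsupport fun h => hy (hR' h)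
    rw [hx0, hy0, dist_self]; positivity

variable [MeasurableSpace E] [BorelSpace E] (μ : Measure E) [μ.IsAddHaarMeasure]

/-- weighted version: the weight is invariant under translation in direction `v`. -/
lemma integral_fderiv_weight_zero {w : E → ℝ} (hloc : LocallyLipschitz w) (hc : HasCompactSupport w) (v : E)
    {W : E → ℝ} (hWm : Measurable W) {CW : ℝ} (hWb : ∀ x, ‖W x‖ ≤ CW)
    (hWv : ∀ x (t : ℝ), W (x + t • v) = W x) :
    ∫ x, fderiv ℝ w x v * W x ∂μ = 0 := by
  have hPS : ProperSpace E := FiniteDimensional.proper ℝ E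
  obtain ⟨C, hC⟩ := lipschitz_of_loc hloc hc
  obtain ⟨R, hR⟩ := hc.isCompact.isBounded.subset_closedBall (0:E)
  have hR' : tsupport w ⊆ Metric.closedBall (0:E) R := hR
  set S : Set E := Metric.closedBall (0:E) (R + ‖v‖ + 1) with hS
  have hSm : MeasurableSet S := Metric.isClosed_closedBall.measurableSet
  have hSfin : μ S < ⊤ := (isCompact_closedBall (0:E) (R + ‖v‖ + 1)).measure_lt_top
  have hgint : Integrable (S.indicator W) μ := by
    rw [integrable_indicator_iff hSm]
    refine IntegrableOn.of_bound hSfin hWm.aestronglyMeasurable CW (Eventually.of_forall hWb)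
  have hlim := hC.integral_inv_smul_sub_mul_tendsto_integral_lineDeriv_mul hgint v
  have hzero : ∀ᶠ t : ℝ in 𝓝[>] 0, ∫ x, (t⁻¹ • (w (x + t • v) - w x)) * S.indicator W x ∂μ = 0 := by
    have h01 : ∀ᶠ t : ℝ in 𝓝[>] 0, t ∈ Ioo (0:ℝ) 1 := Ioo_mem_nhdsGT zero_lt_one
    filter_upwards [h01] with t ht
    have e1 : ∀ x, (t⁻¹ • (w (x + t • v) - w x)) * S.indicator W x
        = t⁻¹ * (w (x + t • v) * W (x + t • v)) - t⁻¹ * (w x * W x) := by
      intro x
      by_cases hx : x ∈ S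
      · rw [indicator_of_mem hx, hWv]; simp only [smul_eq_mul]; ring
      · rw [indicator_of_notMem hx]
        have hx' : R + ‖v‖ + 1 < ‖x‖ := by
          simpa [hS, Metric.mem_closedBall, dist_zero_right] using hx
        have h1 : w x = 0 := by
          apply image_eq_zero_of_notMem_tsupport
          intro h
          have := hR' h
          rw [Metric.mem_closedBall, dist_zero_right] at this
          linarith [norm_nonneg v]
        have h2 : w (x + t • v) = 0 := by
          apply image_eq_zero_of_notMem_tsupport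
          intro h
          have h3 := hR' h
          rw [Metric.mem_closedBall, dist_zero_right] at h3
          have h4 : ‖x‖ ≤ ‖x + t • v‖ + ‖t • v‖ := by
            calc ‖x‖ = ‖(x + t • v) - t • v‖ := by simp
              _ ≤ _ := norm_sub_le _ _
          have h5 : ‖t • v‖ ≤ ‖v‖ := by
            rw [norm_smul, Real.norm_eq_abs, abs_of_pos ht.1]
            nlinarith [norm_nonneg v, ht.2.le]
          linarith
        simp [h1, h2]
    simp_rw [e1]
    have hwW : Integrable (fun x => w x * W x) μ := by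
      have := (hC.continuous.integrable_of_hasCompactSupport hc (μ := μ)).bdd_mul (c := CW) hWm.aestronglyMeasurable
        (Eventually.of_forall hWb)
      simpa [mul_comm] using this
    have hwW2 : Integrable (fun x => w (x + t • v) * W (x + t • v)) μ := hwW.comp_add_right (t • v)
    rw [integral_sub (hwW2.const_mul _) (hwW.const_mul _), integral_const_mul, integral_const_mul,
      integral_add_right_eq_self (fun x => w x * W x) (t • v), sub_self]
  have h0 : ∫ x, lineDeriv ℝ w x v * S.indicator W x ∂μ = 0 := by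
    have := (tendsto_const_nhds (x := (0:ℝ)) (f := 𝓝[>] (0:ℝ))).congr' (hzero.mono fun t ht => ht.symm)
    exact tendsto_nhds_unique hlim this
  rw [← h0]
  apply integral_congr_ae
  filter_upwards [hC.ae_differentiableAt (μ := μ)] with x hx
  rw [hx.lineDeriv_eq_fderiv]
  by_cases hxS : x ∈ S
  · rw [indicator_of_mem hxS]
  · rw [indicator_of_notMem hxS]
    have hx' : R + ‖v‖ + 1 < ‖x‖ := by
      simpa [hS, Metric.mem_closedBall, dist_zero_right] using hxS
    have hxs : x ∉ tsupport w := by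
      intro h
      have := hR' h
      rw [Metric.mem_closedBall, dist_zero_right] at this
      linarith [norm_nonneg v]
    have h2 : fderiv ℝ w x = 0 := by
      have := notMem_tsupport_iff_eventuallyEq.mp hxs
      rw [this.fderiv_eq]
      simp
    simp [h2]

/-- a.e. on the zero set, the derivative vanishes -/
lemma ae_fderiv_zero {u : E → ℝ} {s : Set E} (hs : MeasurableSet s) (hd : ∀ x ∈ s, DifferentiableAt ℝ u x)
    (h0 : ∀ x ∈ s, u x = 0) (v : E) : ∀ᵐ x ∂(μ.restrict s), fderiv ℝ u x v = 0 := by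
  by_cases hv : v = 0
  · subst hv; simp
  have hA : ApproximatesLinearOn (fun x => u x • v) (0 : E →L[ℝ] E) s 0 := by
    intro x hx y hy
    simp [h0 x hx, h0 y hy]
  have := hA.norm_fderiv_sub_le μ hs (fun x => (fderiv ℝ u x).smulRight v) (fun x hx => by
    exact ((hd x hx).hasFDerivAt.smul_const v).hasFDerivWithinAt)
  filter_upwards [this] with x hx
  simp only [sub_zero, nonpos_iff_eq_zero, nnnorm_eq_zero] at hx
  have h2 : fderiv ℝ u x v • v = 0 := by
    have := congrArg (fun L : E →L[ℝ] E => L v) hx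
    simpa using this
  rcases smul_eq_zero.mp h2 with h | h
  · exact h
  · exact absurd h hv

/-- a.e. differentiability of a function which is locally Lipschitz on an open set -/
lemma ae_diff_of_loc {F : Type*} [NormedAddCommGroup F] [NormedSpace ℝ F] [FiniteDimensional ℝ F]
    {U : Set E} {f : E → F} (hU : IsOpen U)
    (hLip : ∀ x ∈ U, ∃ C : NNReal, ∃ t ∈ 𝓝 x, LipschitzOnWith C f t) :
    ∀ᵐ x ∂(μ.restrict U), DifferentiableAt ℝ f x := by
  have : ProperSpace E := FiniteDimensional.proper ℝ E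
  choose! C t ht hL using hLip
  have hc : ∀ x ∈ U, U ∩ interior (t x) ∈ 𝓝[U] x := fun x hx =>
    mem_nhdsWithin_of_mem_nhds ((hU.inter isOpen_interior).mem_nhds ⟨hx, mem_interior_iff_mem_nhds.mpr (ht x hx)⟩)
  obtain ⟨c, hcU, hcc, hcov⟩ := TopologicalSpace.countable_cover_nhdsWithin hc
  have hcov' : U ⊆ ⋃ x ∈ c, (U ∩ interior (t x)) := hcov
  apply ae_restrict_of_ae_restrict_of_subset hcov'
  rw [ae_restrict_biUnion_iff _ hcc]
  intro x hx
  have ho : IsOpen (U ∩ interior (t x)) := hU.inter isOpen_interior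
  have h1 : LipschitzOnWith (C x) f (U ∩ interior (t x)) :=
    (hL x (hcU hx)).mono (inter_subset_right.trans interior_subset)
  have h2 := h1.ae_differentiableWithinAt (μ := μ) ho.measurableSet
  filter_upwards [h2, ae_restrict_mem ho.measurableSet] with y hy hy2
  exact hy.differentiableAt (ho.mem_nhds hy2)

/-- weighted scalar integration by parts across the closed set `K` on which `u = 0`. -/
theorem scalar_ibp {Ω K : Set E} {u : E → ℝ} (hΩ : IsOpen Ω) (hK : IsClosed K)
    (huc : ContinuousOn u Ω) (huK : ∀ x ∈ K, u x = 0)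
    (hLip : ∀ x ∈ Ω \ K, ∃ C : NNReal, ∃ t ∈ 𝓝 x, LipschitzOnWith C u t)
    (v : E) {W : E → ℝ} (hWm : Measurable W) {CW : ℝ} (hWb : ∀ x, ‖W x‖ ≤ CW)
    (hWv : ∀ x (t : ℝ), W (x + t • v) = W x)
    (hInt : IntegrableOn (fun x => fderiv ℝ u x v * W x) (Ω \ K) μ)
    {φ : E → ℝ} {Cφ : NNReal} (hCφ : LipschitzWith Cφ φ) (hφc : HasCompactSupport φ)
    (hφΩ : tsupport φ ⊆ Ω) :
    ∫ x in Ω, u x * fderiv ℝ φ x v * W x ∂μ = - ∫ x in Ω \ K, fderiv ℝ u x v * φ x * W x ∂μ := by
  have hUo : IsOpen (Ω \ K) := hΩ.sdiff hK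
  have hUm : MeasurableSet (Ω \ K) := hUo.measurableSet
  have hΩm : MeasurableSet Ω := hΩ.measurableSet
  have hCW : 0 ≤ CW := (norm_nonneg _).trans (hWb 0)
  have hφ0 : ∀ x, x ∉ Ω → φ =ᶠ[𝓝 x] fun _ => (0:ℝ) := by
    intro x hx
    have : x ∉ tsupport φ := fun h => hx (hφΩ h)
    exact notMem_tsupport_iff_eventuallyEq.mp this
  -- a.e. differentiability on Ω \ K
  have hdiff : ∀ᵐ x ∂(μ.restrict (Ω \ K)), DifferentiableAt ℝ u x := ae_diff_of_loc μ hUo hLip
  have hφdiff : ∀ᵐ x ∂μ, DifferentiableAt ℝ φ x := hCφ.ae_differentiableAt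
  set w : ℕ → E → ℝ := fun n x => Tn n (u x) * φ x with hw
  have hT0 : ∀ n, Tn n 0 = 0 := fun n => Tn_zero n (by simp; positivity)
  have hwK : ∀ n x, x ∈ Ω → x ∈ K → (w n =ᶠ[𝓝 x] fun _ => (0:ℝ)) := by
    intro n x hxΩ hxK
    have hcx : ContinuousAt u x := huc.continuousAt (hΩ.mem_nhds hxΩ)
    have h2 : ∀ᶠ y in 𝓝 x, |u y| < 1 / ((n:ℝ) + 1) := by
      have : Tendsto (fun y => |u y|) (𝓝 x) (𝓝 |u x|) := hcx.abs
      rw [huK x hxK, abs_zero] at this
      exact this.eventually (gt_mem_nhds (by positivity))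
    filter_upwards [h2] with y hy
    simp [hw, Tn_zero n hy.le]
  have hwO : ∀ n x, x ∉ Ω → (w n =ᶠ[𝓝 x] fun _ => (0:ℝ)) := by
    intro n x hx
    filter_upwards [hφ0 x hx] with y hy
    simp [hw, hy]
  have hwloc : ∀ n, LocallyLipschitz (w n) := by
    intro n x
    by_cases hxΩ : x ∈ Ω
    · by_cases hxK : x ∈ K
      · refine ⟨0, _, hwK n x hxΩ hxK, ?_⟩
        intro a ha b hb
        simp only [Set.mem_ofPred_eq] at ha hb
        simp [ha, hb]
      · obtain ⟨C, t, ht, hC⟩ := hLip x ⟨hxΩ, hxK⟩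
        have hG : ContDiff ℝ 1 (fun q : ℝ × ℝ => Tn n q.1 * q.2) :=
          ((Tn_contDiff n).comp contDiff_fst).mul contDiff_snd
        obtain ⟨C', t', ht', hC'⟩ := (hG.contDiffAt (x := (u x, φ x))).exists_lipschitzOnWith
        have hcx : ContinuousAt u x := huc.continuousAt (hΩ.mem_nhds hxΩ)
        have hpair : ContinuousAt (fun y => (u y, φ y)) x := hcx.prodMk hCφ.continuous.continuousAt
        refine ⟨C' * max C Cφ, t ∩ (fun y => (u y, φ y)) ⁻¹' t', inter_mem ht (hpair ht'), ?_⟩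
        have hL : LipschitzOnWith (max C Cφ) (fun y => (u y, φ y)) (t ∩ (fun y => (u y, φ y)) ⁻¹' t') :=
          (hC.mono inter_subset_left).prodMk (hCφ.lipschitzOnWith)
        exact hC'.comp hL (fun y hy => hy.2)
    · refine ⟨0, _, hwO n x hxΩ, ?_⟩
      intro a ha b hb
      simp only [Set.mem_ofPred_eq] at ha hb
      simp [ha, hb]
  have hwc : ∀ n, HasCompactSupport (w n) := fun n => hφc.mul_left
  have hzero : ∀ n, ∫ x, fderiv ℝ (w n) x v * W x ∂μ = 0 := fun n =>
    integral_fderiv_weight_zero μ (hwloc n) (hwc n) v hWm hWb hWv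
  -- bounds
  obtain ⟨M, hM0, hM⟩ := T0_deriv_bound
  obtain ⟨Mφ, hMφ⟩ := hφc.exists_bound_of_continuous hCφ.continuous
  obtain ⟨Mu, hMu⟩ := hφc.isCompact.exists_bound_of_continuousOn (huc.mono hφΩ)
  have hDφm : Measurable (fun x => fderiv ℝ φ x v) := measurable_fderiv_apply_const ℝ φ v
  have hφsupp0 : ∀ x, x ∉ tsupport φ → fderiv ℝ φ x = 0 := by
    intro x hxs
    have := notMem_tsupport_iff_eventuallyEq.mp hxs
    rw [this.fderiv_eq]
    simp
  have hDφb : ∀ x, ‖fderiv ℝ φ x v‖ ≤ Cφ * ‖v‖ := by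
    intro x
    exact (ContinuousLinearMap.le_opNorm _ _).trans
      (mul_le_mul_of_nonneg_right (norm_fderiv_le_of_lipschitz ℝ hCφ) (norm_nonneg _))
  have hDφint : Integrable (fun x => fderiv ℝ φ x v) μ := by
    have h1 : IntegrableOn (fun x => fderiv ℝ φ x v) (tsupport φ) μ :=
      IntegrableOn.of_bound hφc.isCompact.measure_lt_top hDφm.aestronglyMeasurable (Cφ * ‖v‖)
        (Eventually.of_forall hDφb)
    have h2 := (integrable_indicator_iff (isClosed_tsupport φ).measurableSet).mpr h1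
    refine h2.congr (Eventually.of_forall fun x => ?_)
    by_cases hx : x ∈ tsupport φ
    · simp [indicator_of_mem hx]
    · simp [indicator_of_notMem hx, hφsupp0 x hx]
  set A : ℕ → E → ℝ := fun n x => deriv (Tn n) (u x) * fderiv ℝ u x v * φ x * W x with hA
  set B : ℕ → E → ℝ := fun n x => Tn n (u x) * fderiv ℝ φ x v * W x with hB
  have hucU : ContinuousOn u (Ω \ K) := huc.mono Set.sdiff_subset
  have hTd : ∀ n, Continuous (deriv (Tn n)) := fun n => (Tn_contDiff n).continuous_deriv le_rfl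
  have hDum : Measurable (fun x => fderiv ℝ u x v) := measurable_fderiv_apply_const ℝ u v
  have hAm : ∀ n, AEStronglyMeasurable (A n) (μ.restrict (Ω \ K)) := by
    intro n
    have h1 : AEStronglyMeasurable (fun x => deriv (Tn n) (u x)) (μ.restrict (Ω \ K)) :=
      ((hTd n).comp_continuousOn hucU).aestronglyMeasurable hUm
    exact ((h1.mul hDum.aestronglyMeasurable).mul hCφ.continuous.aestronglyMeasurable).mul
      hWm.aestronglyMeasurable
  have hBm : ∀ n, AEStronglyMeasurable (B n) (μ.restrict Ω) := by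
    intro n
    have h1 : AEStronglyMeasurable (fun x => Tn n (u x)) (μ.restrict Ω) :=
      ((Tn_contDiff n).continuous.comp_continuousOn huc).aestronglyMeasurable hΩm
    exact (h1.mul hDφm.aestronglyMeasurable).mul hWm.aestronglyMeasurable
  have hAb : ∀ n x, ‖A n x‖ ≤ M * Mφ * ‖fderiv ℝ u x v * W x‖ := by
    intro n x
    simp only [hA, norm_mul, Tn_deriv]
    have h1 := hM (((n:ℝ) + 1) * u x)
    have h2 := hMφ x
    have h3 : 0 ≤ Mφ := (norm_nonneg _).trans h2
    rw [← Real.norm_eq_abs] at h1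
    calc ‖deriv T0 (((n:ℝ) + 1) * u x)‖ * ‖fderiv ℝ u x v‖ * ‖φ x‖ * ‖W x‖ ≤ M * ‖fderiv ℝ u x v‖ * Mφ * ‖W x‖ := by
          gcongr
      _ = _ := by ring
  have hBb : ∀ n x, x ∈ Ω → ‖B n x‖ ≤ ((Mu + 2) * CW) * ‖fderiv ℝ φ x v‖ := by
    intro n x hx
    by_cases hxs : x ∈ tsupport φ
    · simp only [hB, norm_mul]
      have h1 := Tn_sub_le n (u x)
      have h2 := hMu x hxs
      have h3 : 2 / ((n:ℝ) + 1) ≤ 2 := by
        rw [div_le_iff₀ (by positivity)]
        have : (0:ℝ) ≤ n := by positivity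
        linarith
      have h4 : ‖Tn n (u x)‖ ≤ Mu + 2 := by
        calc ‖Tn n (u x)‖ = ‖(Tn n (u x) - u x) + u x‖ := by ring_nf
          _ ≤ ‖Tn n (u x) - u x‖ + ‖u x‖ := norm_add_le _ _
          _ ≤ 2 + Mu := add_le_add (by rw [Real.norm_eq_abs]; linarith) h2
          _ = _ := by ring
      have h5 : 0 ≤ Mu + 2 := (norm_nonneg _).trans h4
      calc ‖Tn n (u x)‖ * ‖fderiv ℝ φ x v‖ * ‖W x‖ ≤ (Mu + 2) * ‖fderiv ℝ φ x v‖ * CW := by
            gcongr
            exact hWb x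
        _ = _ := by ring
    · simp [hB, hφsupp0 x hxs]
  have hAi : ∀ n, IntegrableOn (A n) (Ω \ K) μ := fun n =>
    Integrable.mono' (hInt.norm.const_mul (M * Mφ)) (hAm n) (Eventually.of_forall (hAb n))
  have hBi : ∀ n, IntegrableOn (B n) Ω μ := fun n =>
    Integrable.mono' (hDφint.integrableOn.norm.const_mul ((Mu + 2) * CW)) (hBm n)
      (by filter_upwards [ae_restrict_mem hΩm] with x hx using hBb n x hx)
  -- derivative formula
  have hform : ∀ n, (fun x => fderiv ℝ (w n) x v * W x) =ᵐ[μ]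
      fun x => (Ω \ K).indicator (A n) x + Ω.indicator (B n) x := by
    intro n
    have h1 := (ae_restrict_iff' hUm).mp hdiff
    filter_upwards [h1, hφdiff] with x hx hφx
    by_cases hxΩ : x ∈ Ω
    · by_cases hxK : x ∈ K
      · have : x ∉ Ω \ K := fun h => h.2 hxK
        rw [(hwK n x hxΩ hxK).fderiv_eq, indicator_of_notMem this, indicator_of_mem hxΩ]
        simp [hB, huK x hxK, hT0]
      · have hxU : x ∈ Ω \ K := ⟨hxΩ, hxK⟩
        rw [indicator_of_mem hxU, indicator_of_mem hxΩ]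
        have hdu := hx hxU
        have hT : HasDerivAt (Tn n) (deriv (Tn n) (u x)) (u x) :=
          (((Tn_contDiff n).differentiable (by norm_num)) _).hasDerivAt
        have h3 : HasFDerivAt (fun y => Tn n (u y)) (deriv (Tn n) (u x) • fderiv ℝ u x) x :=
          hT.comp_hasFDerivAt x hdu.hasFDerivAt
        have h4 : HasFDerivAt φ (fderiv ℝ φ x) x := hφx.hasFDerivAt
        have h5 := (h3.mul h4).fderiv
        have h6 : fderiv ℝ (w n) x = Tn n (u x) • fderiv ℝ φ x + φ x • deriv (Tn n) (u x) • fderiv ℝ u x := h5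
        rw [h6]
        simp [hA, hB]
        ring
    · have : x ∉ Ω \ K := fun h => hxΩ h.1
      rw [(hwO n x hxΩ).fderiv_eq, indicator_of_notMem this, indicator_of_notMem hxΩ]
      simp
  have hsum : ∀ n, ∫ x in Ω \ K, A n x ∂μ + ∫ x in Ω, B n x ∂μ = 0 := by
    intro n
    have h1 := hzero n
    rw [integral_congr_ae (hform n), integral_add ((integrable_indicator_iff hUm).mpr (hAi n))
      ((integrable_indicator_iff hΩm).mpr (hBi n)), integral_indicator hUm, integral_indicator hΩm] at h1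
    exact h1
  have hlimA : Tendsto (fun n => ∫ x in Ω \ K, A n x ∂μ) atTop
      (𝓝 (∫ x in Ω \ K, fderiv ℝ u x v * φ x * W x ∂μ)) := by
    apply tendsto_integral_of_dominated_convergence (fun x => M * Mφ * ‖fderiv ℝ u x v * W x‖) hAm
      (hInt.norm.const_mul (M * Mφ)) (fun n => Eventually.of_forall (hAb n))
    -- a.e. convergence
    set s : Set E := {x | x ∈ Ω \ K ∧ u x = 0} ∩ {x | DifferentiableAt ℝ u x} with hs
    have hsm : MeasurableSet s := by
      apply MeasurableSet.inter _ (measurableSet_of_differentiableAt ℝ u)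
      have : {x | x ∈ Ω \ K ∧ u x = 0} = (Ω \ K) ∩ u ⁻¹' {0} := rfl
      rw [this]
      have := hucU.isOpen_inter_preimage hUo (isOpen_compl_singleton (x := (0:ℝ)))
      have h2 : (Ω \ K) ∩ u ⁻¹' {0} = (Ω \ K) \ ((Ω \ K) ∩ u ⁻¹' {0}ᶜ) := by
        ext x; simp
      rw [h2]
      exact hUm.diff this.measurableSet
    have hz := ae_fderiv_zero μ hsm (u := u) (fun x hx => hx.2) (fun x hx => hx.1.2) v
    have hz' := (ae_restrict_iff' hsm).mp hz
    filter_upwards [hdiff, ae_restrict_of_ae hz', ae_restrict_mem hUm] with x hx hx2 hxU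
    by_cases hux : u x = 0
    · have : fderiv ℝ u x v = 0 := hx2 ⟨⟨hxU, hux⟩, hx⟩
      simp [hA, this]
    · have h1 : Tendsto (fun n : ℕ => deriv (Tn n) (u x)) atTop (𝓝 1) := Tn_deriv_tendsto hux
      have h2 := ((h1.mul_const (fderiv ℝ u x v)).mul_const (φ x)).mul_const (W x)
      simpa [hA] using h2
  have hlimB : Tendsto (fun n => ∫ x in Ω, B n x ∂μ) atTop
      (𝓝 (∫ x in Ω, u x * fderiv ℝ φ x v * W x ∂μ)) := by
    apply tendsto_integral_of_dominated_convergence (fun x => ((Mu + 2) * CW) * ‖fderiv ℝ φ x v‖) hBm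
      (hDφint.integrableOn.norm.const_mul ((Mu + 2) * CW))
    · intro n
      filter_upwards [ae_restrict_mem hΩm] with x hx using hBb n x hx
    · refine Eventually.of_forall fun x => ?_
      exact ((Tn_tendsto (u x)).mul_const _).mul_const _
  have hlim := hlimA.add hlimB
  simp only [hsum] at hlim
  have := tendsto_nhds_unique hlim tendsto_const_nhds
  linarith

end gen

end PA

end

section
namespace PA

section oneD

variable {ρ : ℝ → ℝ}

lemma rho_li (hm : Measurable ρ) (hp : ∀ x, 0 < ρ x) (h1 : ∀ x, ρ x ≤ 1) : LocallyIntegrable ρ volume := by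
  rw [locallyIntegrable_iff]
  intro k hk
  refine IntegrableOn.of_bound hk.measure_lt_top hm.aestronglyMeasurable 1 (Eventually.of_forall fun x => ?_)
  rw [Real.norm_eq_abs, abs_of_pos (hp x)]; exact h1 x

lemma rho_ii (hm : Measurable ρ) (hp : ∀ x, 0 < ρ x) (h1 : ∀ x, ρ x ≤ 1) (a b : ℝ) :
    IntervalIntegrable ρ volume a b :=
  intervalIntegrable_iff.mpr <|
    ((rho_li hm hp h1).integrableOn_isCompact isCompact_uIcc).mono_set uIoc_subset_uIcc

lemma XX_sub (hm : Measurable ρ) (hp : ∀ x, 0 < ρ x) (h1 : ∀ x, ρ x ≤ 1) (a b : ℝ) :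
    XX ρ b - XX ρ a = ∫ t in a..b, ρ t := by
  unfold XX
  exact intervalIntegral.integral_interval_sub_left (rho_ii hm hp h1 _ _) (rho_ii hm hp h1 _ _)

lemma XX_strictMono (hm : Measurable ρ) (hp : ∀ x, 0 < ρ x) (h1 : ∀ x, ρ x ≤ 1) : StrictMono (XX ρ) := by
  intro a b hab
  have := XX_sub hm hp h1 a b
  have h2 : 0 < ∫ t in a..b, ρ t :=
    intervalIntegral.intervalIntegral_pos_of_pos (rho_ii hm hp h1 a b) hp hab
  linarith

lemma XX_lip (hm : Measurable ρ) (hp : ∀ x, 0 < ρ x) (h1 : ∀ x, ρ x ≤ 1) : LipschitzWith 1 (XX ρ) := by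
  apply LipschitzWith.of_dist_le_mul
  intro a b
  rw [Real.dist_eq, XX_sub hm hp h1 b a, Real.dist_eq, NNReal.coe_one]
  have := intervalIntegral.norm_integral_le_of_norm_le_const (a := b) (b := a) (f := ρ) (C := 1)
    (fun x _ => by rw [Real.norm_eq_abs, abs_of_pos (hp x)]; exact h1 x)
  rwa [Real.norm_eq_abs] at this

lemma XX_surj (hm : Measurable ρ) (hp : ∀ x, 0 < ρ x) (h1 : ∀ x, ρ x ≤ 1) {R : ℝ}
    (hR : ∀ x, R ≤ |x| → ρ x = 1) : Function.Surjective (XX ρ) := by
  have hcont := (XX_lip hm hp h1).continuous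
  set R' := max R 0 with hR'
  have hR0 : 0 ≤ R' := le_max_right _ _
  have hRR : R ≤ R' := le_max_left _ _
  have htop : ∀ x, R' ≤ x → XX ρ x = XX ρ R' + (x - R') := by
    intro x hx
    have h := XX_sub hm hp h1 R' x
    have h2 : ∫ t in R'..x, ρ t = ∫ t in R'..x, (1:ℝ) := by
      apply intervalIntegral.integral_congr
      intro t ht
      rw [uIcc_of_le hx] at ht
      exact hR t (hRR.trans (ht.1.trans (le_abs_self t)))
    rw [h2] at h
    simp at h
    linarith
  have hbot : ∀ x, x ≤ -R' → XX ρ x = XX ρ (-R') + (x + R') := by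
    intro x hx
    have h := XX_sub hm hp h1 x (-R')
    have h2 : ∫ t in x..(-R'), ρ t = ∫ t in x..(-R'), (1:ℝ) := by
      apply intervalIntegral.integral_congr
      intro t ht
      rw [uIcc_of_le hx] at ht
      refine hR t (hRR.trans ?_)
      have := neg_le_abs t
      linarith [ht.2]
    rw [h2] at h
    simp at h
    linarith
  apply Continuous.surjective hcont
  · have : Tendsto (fun x => XX ρ R' + (x - R')) atTop atTop :=
      tendsto_atTop_add_const_left _ _ (tendsto_atTop_add_const_right _ _ tendsto_id)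
    refine this.congr' ?_
    filter_upwards [eventually_ge_atTop R'] with x hx using (htop x hx).symm
  · have : Tendsto (fun x => XX ρ (-R') + (x + R')) atBot atBot :=
      tendsto_atBot_add_const_left _ _ (tendsto_atBot_add_const_right _ _ tendsto_id)
    refine this.congr' ?_
    filter_upwards [eventually_le_atBot (-R')] with x hx using (hbot x hx).symm

/-- the squeeze homeomorphism of the line -/
noncomputable def XH (ρ : ℝ → ℝ) (hm : Measurable ρ) (hp : ∀ x, 0 < ρ x) (h1 : ∀ x, ρ x ≤ 1)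
    (hR : ∃ R : ℝ, ∀ x, R ≤ |x| → ρ x = 1) : ℝ ≃ₜ ℝ :=
  (StrictMono.orderIsoOfSurjective (XX ρ) (XX_strictMono hm hp h1)
    (by obtain ⟨R, hR⟩ := hR; exact XX_surj hm hp h1 hR)).toHomeomorph

lemma XH_apply (hm : Measurable ρ) (hp : ∀ x, 0 < ρ x) (h1 : ∀ x, ρ x ≤ 1)
    (hR : ∃ R : ℝ, ∀ x, R ≤ |x| → ρ x = 1) (x : ℝ) : XH ρ hm hp h1 hR x = XX ρ x := rfl

lemma XX_ae_deriv (hm : Measurable ρ) (hp : ∀ x, 0 < ρ x) (h1 : ∀ x, ρ x ≤ 1) :
    ∀ᵐ x, HasDerivAt (XX ρ) (ρ x) x := by
  filter_upwards [_root_.LocallyIntegrable.ae_hasDerivAt_integral (rho_li hm hp h1)] with x hx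
  exact hx 0

lemma XX_map (hm : Measurable ρ) (hp : ∀ x, 0 < ρ x) (h1 : ∀ x, ρ x ≤ 1)
    (hR : ∃ R : ℝ, ∀ x, R ≤ |x| → ρ x = 1) :
    (volume.withDensity (fun x => ENNReal.ofReal (ρ x))).map (XX ρ) = volume := by
  symm
  apply Real.measure_ext_Ioo_rat
  intro a b
  have hXm : Measurable (XX ρ) := (XX_lip hm hp h1).continuous.measurable
  rw [Measure.map_apply hXm measurableSet_Ioo, withDensity_apply _ (hXm measurableSet_Ioo)]
  rcases le_or_gt (b:ℝ) (a:ℝ) with hab | hab
  · rw [Ioo_eq_empty (not_lt.mpr hab)]; simp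
  · obtain ⟨R, hR⟩ := hR
    obtain ⟨a', ha'⟩ := XX_surj hm hp h1 hR (a:ℝ)
    obtain ⟨b', hb'⟩ := XX_surj hm hp h1 hR (b:ℝ)
    have hmono := XX_strictMono hm hp h1
    have hpre : XX ρ ⁻¹' Ioo (a:ℝ) b = Ioo a' b' := by
      ext x
      simp only [mem_preimage, mem_Ioo]
      rw [← ha', ← hb', hmono.lt_iff_lt, hmono.lt_iff_lt]
    have hab' : a' < b' := by rw [← hmono.lt_iff_lt, ha', hb']; exact hab
    rw [hpre, Real.volume_Ioo]
    have h2 := XX_sub hm hp h1 a' b'
    rw [ha', hb', intervalIntegral.integral_of_le hab'.le] at h2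
    rw [h2, restrict_Ioo_eq_restrict_Ioc, ofReal_integral_eq_lintegral_ofReal]
    · exact (rho_ii hm hp h1 a' b').1
    · exact Eventually.of_forall fun x => (hp x).le

end oneD

section three

set_option backward.isDefEq.respectTransparency false in
lemma lintegral_prod_pi {n : ℕ} (f : Fin n → ℝ → ENNReal) (hf : ∀ i, Measurable (f i)) :
    ∫⁻ x : Fin n → ℝ, ∏ i, f i (x i) = ∏ i, ∫⁻ x, f i x := by
  induction n with
  | zero => simp [volume_pi]
  | succ n ih =>
    calc
        _ = ∫⁻ x : ℝ × (Fin n → ℝ),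
            f 0 x.1 * ∏ i : Fin n, f (Fin.succ i) (x.2 i)
            ∂((volume : Measure ℝ).prod (volume : Measure (Fin n → ℝ))) := by
          rw [← ((volume_preserving_piFinSuccAbove (fun _ : Fin (n+1) => ℝ) 0).symm).lintegral_comp_emb
            (MeasurableEquiv.measurableEmbedding _)]
          apply lintegral_congr
          intro x
          rw [Fin.prod_univ_succ]
          simp [MeasurableEquiv.piFinSuccAbove_symm_apply, Fin.insertNthEquiv]
        _ = (∫⁻ x, f 0 x)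
            * ∏ i : Fin n, ∫⁻ (x : ℝ), f (Fin.succ i) x := by
          rw [← ih _ (fun i => hf _), ← lintegral_prod_mul (hf 0).aemeasurable]
          exact (Finset.measurable_prod _ fun i _ => (hf i.succ).comp (measurable_pi_apply i)).aemeasurable
        _ = ∏ i, ∫⁻ x, f i x := by rw [Fin.prod_univ_succ]

variable {ρ : Fin 3 → ℝ → ℝ}

/-- product squeeze -/
noncomputable def X3 (ρ : Fin 3 → ℝ → ℝ) (u : E) : E := fun i => XX (ρ i) (u i)

noncomputable def X3H (hρ : Dens ρ) : E ≃ₜ E :=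
  Homeomorph.piCongrRight (fun i => XH (ρ i) (hρ.1 i) (hρ.2.1 i) (hρ.2.2.1 i)
    (by obtain ⟨R, hR⟩ := hρ.2.2.2; exact ⟨R, hR i⟩))

lemma X3H_apply (hρ : Dens ρ) (u : E) : X3H hρ u = X3 ρ u := rfl

noncomputable def J (ρ : Fin 3 → ℝ → ℝ) (u : E) : ℝ := ∏ i, ρ i (u i)

lemma J_pos (hρ : Dens ρ) (u : E) : 0 < J ρ u := Finset.prod_pos fun i _ => hρ.2.1 i _

lemma J_le (hρ : Dens ρ) (u : E) : J ρ u ≤ 1 :=
  Finset.prod_le_one (fun i _ => (hρ.2.1 i _).le) fun i _ => hρ.2.2.1 i _

lemma J_meas (hρ : Dens ρ) : Measurable (J ρ) := by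
  unfold J
  exact Finset.measurable_prod _ fun i _ => (hρ.1 i).comp (measurable_pi_apply i)

lemma X3_lip (hρ : Dens ρ) : LipschitzWith 1 (X3 ρ) := by
  apply LipschitzWith.of_dist_le_mul
  intro a b
  rw [NNReal.coe_one, one_mul, dist_pi_le_iff dist_nonneg]
  intro i
  have := (XX_lip (hρ.1 i) (hρ.2.1 i) (hρ.2.2.1 i)).dist_le_mul (a i) (b i)
  rw [NNReal.coe_one, one_mul] at this
  exact this.trans (dist_le_pi_dist a b i)

lemma pi_withDensity (hρ : Dens ρ) :
    Measure.pi (fun i => (volume : Measure ℝ).withDensity (fun x => ENNReal.ofReal (ρ i x))) =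
      (volume : Measure E).withDensity (fun u => ENNReal.ofReal (J ρ u)) := by
  apply Measure.pi_eq
  intro s hs
  rw [withDensity_apply _ (MeasurableSet.univ_pi hs), ← lintegral_indicator (MeasurableSet.univ_pi hs)]
  have h1 : (fun u : E => (univ.pi s).indicator (fun u => ENNReal.ofReal (J ρ u)) u)
      = fun u : E => ∏ i, (s i).indicator (fun x => ENNReal.ofReal (ρ i x)) (u i) := by
    funext u
    by_cases hu : u ∈ univ.pi s
    · rw [indicator_of_mem hu]
      simp only [mem_univ_pi] at hu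
      rw [J, ENNReal.ofReal_prod_of_nonneg (fun i _ => (hρ.2.1 i _).le)]
      apply Finset.prod_congr rfl
      intro i _
      rw [indicator_of_mem (hu i)]
    · rw [indicator_of_notMem hu]
      simp only [mem_univ_pi, not_forall] at hu
      obtain ⟨i, hi⟩ := hu
      symm
      apply Finset.prod_eq_zero (Finset.mem_univ i)
      rw [indicator_of_notMem hi]
  rw [h1, lintegral_prod_pi _ (fun i => ((hρ.1 i).ennreal_ofReal).indicator (hs i))]
  apply Finset.prod_congr rfl
  intro i _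
  rw [lintegral_indicator (hs i), withDensity_apply _ (hs i)]

lemma X3_map (hρ : Dens ρ) :
    ((volume : Measure E).withDensity (fun u => ENNReal.ofReal (J ρ u))).map (X3 ρ) = volume := by
  rw [← pi_withDensity hρ]
  have hm : ∀ i, ((volume : Measure ℝ).withDensity (fun x => ENNReal.ofReal (ρ i x))).map (XX (ρ i)) = volume := by
    intro i
    exact XX_map (hρ.1 i) (hρ.2.1 i) (hρ.2.2.1 i) (by obtain ⟨R, hR⟩ := hρ.2.2.2; exact ⟨R, hR i⟩)
  have : ∀ i, SigmaFinite (((volume : Measure ℝ).withDensity (fun x => ENNReal.ofReal (ρ i x))).map (XX (ρ i))) := by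
    intro i; rw [hm i]; infer_instance
  have h := Measure.pi_map_pi (μ := fun i => (volume : Measure ℝ).withDensity (fun x => ENNReal.ofReal (ρ i x)))
    (f := fun i => XX (ρ i)) (fun i => (XX_lip (hρ.1 i) (hρ.2.1 i) (hρ.2.2.1 i)).continuous.measurable.aemeasurable)
  have h2 : X3 ρ = fun x i => XX (ρ i) (x i) := rfl
  rw [h2, h]
  simp_rw [hm]
  rfl

end three

end PA

end

section
namespace PA

variable {ρ : Fin 3 → ℝ → ℝ}

/-- the weighted measure -/
noncomputable def wdm (ρ : Fin 3 → ℝ → ℝ) : Measure E :=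
  (volume : Measure E).withDensity (fun u => ENNReal.ofReal (J ρ u))

lemma wdm_map (hρ : Dens ρ) : (wdm ρ).map (X3H hρ).toMeasurableEquiv = volume := X3_map hρ

lemma vol_image (hρ : Dens ρ) (A : Set E) : volume (X3H hρ '' A) = wdm ρ A := by
  rw [← wdm_map hρ, MeasurableEquiv.map_apply]
  congr 1
  exact preimage_image_eq A (X3H hρ).injective

lemma vol_ac (hρ : Dens ρ) : (volume : Measure E) ≪ wdm ρ := by
  apply withDensity_absolutelyContinuous' (J_meas hρ).ennreal_ofReal.aemeasurable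
  exact Eventually.of_forall fun u => by
    simp [J_pos hρ u]

lemma wdm_ac (ρ : Fin 3 → ℝ → ℝ) : wdm ρ ≪ (volume : Measure E) := withDensity_absolutelyContinuous _ _

lemma vol_image_pos (hρ : Dens ρ) {A : Set E} (hA : 0 < volume A) : 0 < volume (X3H hρ '' A) := by
  rw [vol_image]
  rw [pos_iff_ne_zero] at hA ⊢
  exact fun h => hA (vol_ac hρ h)

lemma int_image (hρ : Dens ρ) {A : Set E} (hA : MeasurableSet A) (F : E → ℝ) :
    ∫ x in X3H hρ '' A, F x = ∫ u in A, J ρ u * F (X3H hρ u) := by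
  have h1 : ∫ x in X3H hρ '' A, F x = ∫ x in X3H hρ '' A, F x ∂((wdm ρ).map (X3H hρ).toMeasurableEquiv) := by
    rw [wdm_map hρ]
  have hemb : MeasurableEmbedding (X3H hρ) := (X3H hρ).measurableEmbedding
  rw [h1]
  have h2 := hemb.setIntegral_map (μ := wdm ρ) F (X3H hρ '' A)
  have h3 : ∫ x in X3H hρ '' A, F x ∂((wdm ρ).map (X3H hρ).toMeasurableEquiv)
    = ∫ x in (X3H hρ) ⁻¹' (X3H hρ '' A), F (X3H hρ x) ∂(wdm ρ) := h2
  rw [h3, preimage_image_eq A (X3H hρ).injective, wdm]
  rw [setIntegral_withDensity_eq_setIntegral_toReal_smul (J_meas hρ).ennreal_ofReal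
    (Eventually.of_forall fun u => ENNReal.ofReal_lt_top) _ hA]
  apply setIntegral_congr_fun hA
  intro u _
  simp only [smul_eq_mul]
  rw [ENNReal.toReal_ofReal (J_pos hρ u).le]

lemma intOn_image (hρ : Dens ρ) {A : Set E} (hA : MeasurableSet A) (F : E → ℝ) :
    IntegrableOn F (X3H hρ '' A) ↔ IntegrableOn (fun u => J ρ u * F (X3H hρ u)) A := by
  have hemb : MeasurableEmbedding (X3H hρ) := (X3H hρ).measurableEmbedding
  have h1 : IntegrableOn F (X3H hρ '' A) ↔ IntegrableOn F (X3H hρ '' A) ((wdm ρ).map (X3H hρ)) := by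
    have : (wdm ρ).map (X3H hρ) = volume := X3_map hρ
    rw [this]
  rw [h1, hemb.integrableOn_map_iff, preimage_image_eq A (X3H hρ).injective, wdm, IntegrableOn,
    restrict_withDensity hA, integrable_withDensity_iff_integrable_smul' (J_meas hρ).ennreal_ofReal
    (Eventually.of_forall fun u => ENNReal.ofReal_lt_top), IntegrableOn]
  have : (fun x => (ENNReal.ofReal (J ρ x)).toReal • (F ∘ (X3H hρ)) x) = fun u => J ρ u * F (X3H hρ u) := by
    funext u
    simp only [smul_eq_mul, Function.comp]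
    rw [ENNReal.toReal_ofReal (J_pos hρ u).le]
  rw [this]

/-- a.e. differentiability of the squeeze in every coordinate -/
lemma ae_XX (hρ : Dens ρ) (i : Fin 3) : ∀ᵐ u : E, HasDerivAt (XX (ρ i)) (ρ i (u i)) (u i) := by
  have h := XX_ae_deriv (hρ.1 i) (hρ.2.1 i) (hρ.2.2.1 i)
  have hq := Measure.quasiMeasurePreserving_eval (μ := fun _ : Fin 3 => (volume : Measure ℝ)) i
  exact hq.ae h

lemma ae_XX_neg (hρ : Dens ρ) (i : Fin 3) : ∀ᵐ u : E, HasDerivAt (XX (ρ i)) (ρ i (-(u i))) (-(u i)) := by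
  have h := XX_ae_deriv (hρ.1 i) (hρ.2.1 i) (hρ.2.2.1 i)
  have h2 : ∀ᵐ x : ℝ, HasDerivAt (XX (ρ i)) (ρ i (-x)) (-x) :=
    (Measure.measurePreserving_neg (volume : Measure ℝ)).quasiMeasurePreserving.ae h
  have hq := Measure.quasiMeasurePreserving_eval (μ := fun _ : Fin 3 => (volume : Measure ℝ)) i
  exact hq.ae h2

/-- the weight in direction `j` -/
noncomputable def Wt (ρ : Fin 3 → ℝ → ℝ) (j : Fin 3) (u : E) : ℝ := ∏ k ∈ Finset.univ.erase j, ρ k (u k)

lemma Wt_mul (ρ : Fin 3 → ℝ → ℝ) (j : Fin 3) (u : E) : ρ j (u j) * Wt ρ j u = J ρ u := by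
  unfold Wt J
  exact Finset.mul_prod_erase Finset.univ (fun k => ρ k (u k)) (Finset.mem_univ j)

lemma Wt_meas (hρ : Dens ρ) (j : Fin 3) : Measurable (Wt ρ j) := by
  unfold Wt
  exact Finset.measurable_prod _ fun i _ => (hρ.1 i).comp (measurable_pi_apply i)

lemma Wt_pos (hρ : Dens ρ) (j : Fin 3) (u : E) : 0 < Wt ρ j u := Finset.prod_pos fun i _ => hρ.2.1 i _

lemma Wt_le (hρ : Dens ρ) (j : Fin 3) (u : E) : Wt ρ j u ≤ 1 :=
  Finset.prod_le_one (fun i _ => (hρ.2.1 i _).le) fun i _ => hρ.2.2.1 i _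

lemma Wt_norm (hρ : Dens ρ) (j : Fin 3) (u : E) : ‖Wt ρ j u‖ ≤ 1 := by
  rw [Real.norm_eq_abs, abs_of_pos (Wt_pos hρ j u)]; exact Wt_le hρ j u

lemma Wt_inv (ρ : Fin 3 → ℝ → ℝ) (j : Fin 3) (u : E) (t : ℝ) :
    Wt ρ j (u + t • Pi.single j 1) = Wt ρ j u := by
  unfold Wt
  apply Finset.prod_congr rfl
  intro k hk
  have : k ≠ j := (Finset.mem_erase.mp hk).1
  simp [Pi.single_apply, this]

/-- line derivative of `φ ∘ X` -/
lemma fderiv_comp_X (hρ : Dens ρ) (j : Fin 3) {φ : E → ℝ} (hφ : ContDiff ℝ 1 φ) (u : E)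
    (hu : HasDerivAt (XX (ρ j)) (ρ j (u j)) (u j))
    (hd : DifferentiableAt ℝ (fun u => φ (X3H hρ u)) u) :
    fderiv ℝ (fun u => φ (X3H hρ u)) u (Pi.single j 1) = fderiv ℝ φ (X3H hρ u) (Pi.single j 1) * ρ j (u j) := by
  rw [← hd.lineDeriv_eq_fderiv]
  have h0 : HasLineDerivAt ℝ (fun u => φ (X3H hρ u)) (fderiv ℝ φ (X3H hρ u) (Pi.single j 1) * ρ j (u j)) u (Pi.single j 1) := by
    unfold HasLineDerivAt
    have hcurve : HasDerivAt (fun t : ℝ => X3H hρ (u + t • (Pi.single j 1 : E))) (ρ j (u j) • (Pi.single j 1 : E)) 0 := by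
      rw [hasDerivAt_pi]
      intro k
      by_cases hk : k = j
      · subst hk
        have h1 : HasDerivAt (fun t : ℝ => u k + t) 1 0 := by
          simpa using (hasDerivAt_id (0:ℝ)).const_add (u k)
        have h2 : HasDerivAt (XX (ρ k)) (ρ k (u k)) (u k + 0) := by simpa using hu
        have h3 := h2.comp (0:ℝ) h1
        have h4 : (fun t : ℝ => X3H hρ (u + t • (Pi.single k 1 : E)) k) = (XX (ρ k)) ∘ fun t : ℝ => u k + t := by
          funext t
          simp [X3H_apply, X3]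
        rw [h4]
        simpa using h3
      · have h4 : (fun t : ℝ => X3H hρ (u + t • (Pi.single j 1 : E)) k) = fun _ => XX (ρ k) (u k) := by
          funext t
          simp [X3H_apply, X3, Pi.single_apply, hk]
        rw [h4]
        have h5 : (ρ j (u j) • (Pi.single j 1 : E)) k = 0 := by simp [Pi.single_apply, hk]
        rw [h5]
        exact hasDerivAt_const _ _
    have hφd : HasFDerivAt φ (fderiv ℝ φ (X3H hρ (u + (0:ℝ) • (Pi.single j 1 : E)))) (X3H hρ (u + (0:ℝ) • (Pi.single j 1 : E))) :=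
      ((hφ.differentiable (by norm_num)) _).hasFDerivAt
    have h6 := hφd.comp_hasDerivAt (0:ℝ) hcurve
    have h7 : (fderiv ℝ φ (X3H hρ (u + (0:ℝ) • (Pi.single j 1 : E)))) (ρ j (u j) • (Pi.single j 1 : E))
      = fderiv ℝ φ (X3H hρ u) (Pi.single j 1) * ρ j (u j) := by
      rw [map_smul, smul_eq_mul, mul_comm]; simp
    rw [h7] at h6
    exact h6
  exact h0.lineDeriv

/-- derivative of the `i`-th coordinate of `X` -/
lemma hasFDerivAt_XXi (i : Fin 3) (u : E) (hu : HasDerivAt (XX (ρ i)) (ρ i (u i)) (u i)) :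
    HasFDerivAt (fun u : E => XX (ρ i) (u i))
      (ρ i (u i) • (ContinuousLinearMap.proj (R := ℝ) (φ := fun _ : Fin 3 => ℝ) i)) u := by
  have h2 : HasFDerivAt (fun y : E => y i) (ContinuousLinearMap.proj (R := ℝ) (φ := fun _ : Fin 3 => ℝ) i) u :=
    (ContinuousLinearMap.proj (R := ℝ) (φ := fun _ : Fin 3 => ℝ) i).hasFDerivAt
  exact hu.comp_hasFDerivAt u h2

end PA

end

section
namespace PA

variable {ρ : Fin 3 → ℝ → ℝ}

/-- the weak derivative -/
noncomputable def gg (hρ : Dens ρ) (U : E → E) (K : Set E) (x : E) : Matrix (Fin 3) (Fin 3) ℝ :=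
  open Classical in
  fun i j => if (X3H hρ).symm x ∈ K then (1 : Matrix (Fin 3) (Fin 3) ℝ) i j
    else lineDeriv ℝ (fun u => XX (ρ i) (U u i)) ((X3H hρ).symm x) (Pi.single j 1) / ρ j ((X3H hρ).symm x j)

lemma gg_K (hρ : Dens ρ) (U : E → E) (K : Set E) (u : E) (hu : u ∈ K) : gg hρ U K (X3H hρ u) = 1 := by
  ext i j
  simp [gg, hu]

lemma gg_off (hρ : Dens ρ) (U : E → E) (K : Set E) (u : E) (hu : u ∉ K) (i j : Fin 3) :
    gg hρ U K (X3H hρ u) i j =
      lineDeriv ℝ (fun u => XX (ρ i) (U u i)) u (Pi.single j 1) / ρ j (u j) := by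
  simp [gg, hu]

lemma XXi_cont (hρ : Dens ρ) (i : Fin 3) : Continuous (XX (ρ i)) :=
  (XX_lip (hρ.1 i) (hρ.2.1 i) (hρ.2.2.1 i)).continuous

/-- integrability of the transported weak derivative off `K`. -/
lemma int_off (hρ : Dens ρ) (U : E → E) (hUc : Continuous U) {B K : Set E} (i j : Fin 3)
    (hen : ∫⁻ u in B \ K, en ρ U i j u < ⊤) :
    IntegrableOn (fun u => lineDeriv ℝ (fun u => XX (ρ i) (U u i)) u (Pi.single j 1) * Wt ρ j u) (B \ K) := by
  have hc : Continuous (fun u : E => XX (ρ i) (U u i)) :=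
    (XXi_cont hρ i).comp ((continuous_apply i).comp hUc)
  have hm : Measurable (fun u => lineDeriv ℝ (fun u => XX (ρ i) (U u i)) u (Pi.single j 1)) :=
    measurable_lineDeriv hc
  refine ⟨(hm.mul (Wt_meas hρ j)).aestronglyMeasurable, ?_⟩
  unfold HasFiniteIntegral
  refine lt_of_le_of_lt (le_of_eq ?_) hen
  apply lintegral_congr
  intro u
  rw [en, ← ofReal_norm, norm_mul, Real.norm_eq_abs, Real.norm_eq_abs, abs_of_pos (Wt_pos hρ j u)]
  rfl

theorem g_int (hρ : Dens ρ) (U : E → E) (hUc : Continuous U) {B K : Set E} (hBm : MeasurableSet B)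
    (hKm : MeasurableSet K) (hBfin : volume B < ⊤) (i j : Fin 3)
    (hen : ∫⁻ u in B \ K, en ρ U i j u < ⊤) :
    IntegrableOn (fun u => J ρ u * gg hρ U K (X3H hρ u) i j) B := by
  have h1 : IntegrableOn (fun u => J ρ u * gg hρ U K (X3H hρ u) i j) (B \ K) := by
    refine (int_off hρ U hUc i j hen).congr_fun ?_ (hBm.diff hKm)
    intro u hu
    simp only
    rw [gg_off hρ U K u hu.2, ← Wt_mul ρ j u]
    have := (hρ.2.1 j (u j)).ne'
    field_simp
  have h2 : IntegrableOn (fun u => J ρ u * gg hρ U K (X3H hρ u) i j) (B ∩ K) := by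
    have h3 : IntegrableOn (fun u : E => J ρ u * (1 : Matrix (Fin 3) (Fin 3) ℝ) i j) (B ∩ K) := by
      refine IntegrableOn.of_bound (lt_of_le_of_lt (measure_mono inter_subset_left) hBfin)
        ((J_meas hρ).mul_const _).aestronglyMeasurable 1 (Eventually.of_forall fun u => ?_)
      rw [norm_mul, Real.norm_eq_abs, abs_of_pos (J_pos hρ u)]
      have h4 : ‖(1 : Matrix (Fin 3) (Fin 3) ℝ) i j‖ ≤ 1 := by
        rw [Matrix.one_apply]; split_ifs <;> simp
      calc J ρ u * ‖(1 : Matrix (Fin 3) (Fin 3) ℝ) i j‖ ≤ 1 * 1 := by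
            apply mul_le_mul (J_le hρ u) h4 (norm_nonneg _) zero_le_one
        _ = 1 := one_mul 1
    exact h3.congr_fun (fun u hu => by simp only; rw [gg_K hρ U K u hu.2]) (hBm.inter hKm)
  have h3 := h2.union h1
  rwa [inter_union_sdiff] at h3

/-- the integration by parts formula -/
theorem g_ibp (hρ : Dens ρ) (U : E → E) (hUc : Continuous U) {B K : Set E} (hB : IsOpen B)
    (hKc : IsClosed K) (hKB : K ⊆ B) (hK1 : ∀ x ∈ K, U x = x) (hBfin : volume B < ⊤)
    (hUl : ∀ x ∉ K, ∃ t ∈ 𝓝 x, ∃ L : ℝ≥0, LipschitzOnWith L U t)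
    (hen : ∀ i j, ∫⁻ u in B \ K, en ρ U i j u < ⊤) (i j : Fin 3) (φ : E → ℝ)
    (hφ : ContDiff ℝ ((⊤ : ℕ∞) : WithTop ℕ∞) φ) (hφc : HasCompactSupport φ)
    (hφΩ : tsupport φ ⊆ X3H hρ '' B) :
    ∫ x in X3H hρ '' B, (X3H hρ (U ((X3H hρ).symm x))) i * (fderiv ℝ φ x) (Pi.single j (1 : ℝ)) =
      -∫ x in X3H hρ '' B, gg hρ U K x i j * φ x := by
  have hBm : MeasurableSet B := hB.measurableSet
  have hKm : MeasurableSet K := hKc.measurableSet
  have hBKo : IsOpen (B \ K) := hB.sdiff hKc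
  have hBKm : MeasurableSet (B \ K) := hBKo.measurableSet
  set v : E := Pi.single j 1 with hv
  have hφ1 : ContDiff ℝ 1 φ := hφ.of_le (by norm_cast)
  obtain ⟨Cφ, hCφ⟩ := (hφ1.lipschitzWith_of_hasCompactSupport hφc (by norm_num))
  set ψ : E → ℝ := fun u => φ (X3H hρ u) with hψ
  have hψL : LipschitzWith (Cφ * 1) ψ := hCφ.comp (X3_lip hρ)
  have hψc : HasCompactSupport ψ := hφc.comp_homeomorph (X3H hρ)
  have hψB : tsupport ψ ⊆ B := by
    have h1 : tsupport ψ = (X3H hρ) ⁻¹' (tsupport φ) := by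
      have := tsupport_comp_eq_preimage φ (X3H hρ)
      exact this
    rw [h1]
    intro u hu
    obtain ⟨w, hw, hwu⟩ := hφΩ hu
    rwa [(X3H hρ).injective hwu] at hw
  have hψd : ∀ᵐ u : E, DifferentiableAt ℝ ψ u := hψL.ae_differentiableAt
  -- functions
  set h : E → ℝ := fun u => XX (ρ i) (U u i) with hh
  set l : E → ℝ := fun u => XX (ρ i) (u i) with hl
  set q : E → ℝ := fun u => h u - l u with hq
  have hhc : Continuous h := (XXi_cont hρ i).comp ((continuous_apply i).comp hUc)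
  have hlc : Continuous l := (XXi_cont hρ i).comp (continuous_apply i)
  have hqc : Continuous q := hhc.sub hlc
  have hXi := XX_lip (hρ.1 i) (hρ.2.1 i) (hρ.2.2.1 i)
  have hlL : LipschitzWith 1 l := by
    have h1 := hXi.comp (LipschitzWith.eval (α := fun _ : Fin 3 => ℝ) i)
    rw [mul_one] at h1
    exact h1
  have hhL : ∀ x ∈ B \ K, ∃ C : NNReal, ∃ t ∈ 𝓝 x, LipschitzOnWith C h t := by
    intro x hx
    obtain ⟨t, ht, L, hL⟩ := hUl x hx.2
    refine ⟨L, t, ht, ?_⟩
    have h1 : LipschitzWith 1 (fun y : E => XX (ρ i) (y i)) := hlL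
    have h2 := h1.comp_lipschitzOnWith hL
    rw [one_mul] at h2
    exact h2
  have hqL : ∀ x ∈ B \ K, ∃ C : NNReal, ∃ t ∈ 𝓝 x, LipschitzOnWith C q t := by
    intro x hx
    obtain ⟨C, t, ht, hC⟩ := hhL x hx
    exact ⟨C + 1, t, ht, hC.sub hlL.lipschitzOnWith⟩
  have hq0 : ∀ x ∈ K, q x = 0 := by
    intro x hx
    simp only [hq, hh, hl, hK1 x hx, sub_self]
  have hhd : ∀ᵐ u ∂(volume.restrict (B \ K)), DifferentiableAt ℝ h u := ae_diff_of_loc volume hBKo hhL
  have hld : ∀ᵐ u : E, HasFDerivAt l (ρ i (u i) • (ContinuousLinearMap.proj (R := ℝ) (φ := fun _ : Fin 3 => ℝ) i)) u := by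
    filter_upwards [ae_XX hρ i] with u hu
    exact hasFDerivAt_XXi i u hu
  have hlv : ∀ᵐ u : E, fderiv ℝ l u v = (1 : Matrix (Fin 3) (Fin 3) ℝ) i j * ρ j (u j) := by
    filter_upwards [hld] with u hu
    rw [hu.fderiv, hv]
    simp only [_root_.smul_apply, ContinuousLinearMap.proj_apply, smul_eq_mul, Pi.single_apply, Matrix.one_apply]
    by_cases hij : i = j
    · subst hij; simp
    · simp [hij]
  have hqv : ∀ᵐ u ∂(volume.restrict (B \ K)), fderiv ℝ q u v =
      lineDeriv ℝ h u v - (1 : Matrix (Fin 3) (Fin 3) ℝ) i j * ρ j (u j) := by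
    filter_upwards [hhd, ae_restrict_of_ae hld, ae_restrict_of_ae hlv] with u h1 h2 h3
    have h4 : fderiv ℝ q u = fderiv ℝ h u - fderiv ℝ l u := (h1.hasFDerivAt.sub (h2.differentiableAt).hasFDerivAt).fderiv
    rw [h4, _root_.sub_apply, h3, h1.lineDeriv_eq_fderiv]
  have hWi : ∀ s : Set E, MeasurableSet s → volume s < ⊤ →
      IntegrableOn (fun u => ((1 : Matrix (Fin 3) (Fin 3) ℝ) i j * ρ j (u j)) * Wt ρ j u) s := by
    intro s hs hsf
    have h0 : (fun u : E => ((1 : Matrix (Fin 3) (Fin 3) ℝ) i j * ρ j (u j)) * Wt ρ j u)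
        = fun u => (1 : Matrix (Fin 3) (Fin 3) ℝ) i j * J ρ u := by
      funext u
      rw [mul_assoc, Wt_mul]
    rw [h0]
    apply Integrable.const_mul
    refine IntegrableOn.of_bound hsf (J_meas hρ).aestronglyMeasurable 1 (Eventually.of_forall fun u => ?_)
    rw [Real.norm_eq_abs, abs_of_pos (J_pos hρ u)]; exact J_le hρ u
  have hBKfin : volume (B \ K) < ⊤ := lt_of_le_of_lt (measure_mono Set.sdiff_subset) hBfin
  have hoff := int_off hρ U hUc i j (hen i j)
  have hqi : IntegrableOn (fun u => fderiv ℝ q u v * Wt ρ j u) (B \ K) := by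
    have h1 := hoff.sub (hWi (B \ K) hBKm hBKfin)
    refine Integrable.congr h1 ?_
    filter_upwards [hqv] with u hu
    simp only [Pi.sub_apply]
    rw [hu]; ring
  have key1 := scalar_ibp volume hB hKc hqc.continuousOn hq0 hqL v (Wt_meas hρ j) (Wt_norm hρ j)
    (fun x t => Wt_inv ρ j x t) hqi hψL hψc hψB
  have hli : IntegrableOn (fun u => fderiv ℝ l u v * Wt ρ j u) (B \ ∅) := by
    rw [Set.sdiff_empty]
    refine Integrable.congr (hWi B hBm hBfin) ?_
    filter_upwards [ae_restrict_of_ae hlv] with u hu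
    rw [hu]
  have key2 := scalar_ibp volume (K := ∅) hB isClosed_empty hlc.continuousOn
    (fun x hx => absurd hx (notMem_empty x))
    (fun x _ => ⟨1, univ, univ_mem, hlL.lipschitzOnWith⟩) v (Wt_meas hρ j) (Wt_norm hρ j)
    (fun x t => Wt_inv ρ j x t) hli hψL hψc hψB
  rw [Set.sdiff_empty] at key2
  -- transport the left side
  rw [int_image hρ hBm, int_image hρ hBm]
  have hLHS : ∫ u in B, J ρ u * ((X3H hρ (U ((X3H hρ).symm (X3H hρ u)))) i * (fderiv ℝ φ (X3H hρ u)) v)
      = (∫ u in B, q u * fderiv ℝ ψ u v * Wt ρ j u) + ∫ u in B, l u * fderiv ℝ ψ u v * Wt ρ j u := by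
    have hDb : ∀ u, ‖fderiv ℝ ψ u v‖ ≤ (Cφ * 1 : NNReal) * ‖v‖ := by
      intro x
      exact (ContinuousLinearMap.le_opNorm _ _).trans
        (mul_le_mul_of_nonneg_right (norm_fderiv_le_of_lipschitz ℝ hψL) (norm_nonneg _))
    have hDm : Measurable (fun u => fderiv ℝ ψ u v) := measurable_fderiv_apply_const ℝ ψ v
    have hint : ∀ F : E → ℝ, Continuous F → IntegrableOn (fun u => F u * fderiv ℝ ψ u v * Wt ρ j u) B := by
      intro F hF
      obtain ⟨MF, hMF⟩ := hψc.isCompact.exists_bound_of_continuousOn hF.continuousOn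
      have hm : Measurable (fun u => F u * fderiv ℝ ψ u v * Wt ρ j u) :=
        (hF.measurable.mul hDm).mul (Wt_meas hρ j)
      by_cases hne : (tsupport ψ).Nonempty
      · obtain ⟨x0, hx0⟩ := hne
        have hMF0 : 0 ≤ MF := (norm_nonneg _).trans (hMF x0 hx0)
        refine IntegrableOn.of_bound hBfin hm.aestronglyMeasurable (MF * ((Cφ * 1 : NNReal) * ‖v‖) * 1)
          (Eventually.of_forall fun u => ?_)
        by_cases hxs : u ∈ tsupport ψ
        · rw [norm_mul, norm_mul]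
          gcongr
          · exact hMF u hxs
          · exact hDb u
          · exact Wt_norm hρ j u
        · have h0 : fderiv ℝ ψ u = 0 := by
            have := notMem_tsupport_iff_eventuallyEq.mp hxs
            rw [this.fderiv_eq]
            simp
          rw [h0]
          simp
          positivity
      · have h0 : ∀ u, fderiv ℝ ψ u = 0 := by
          intro u
          have hxs : u ∉ tsupport ψ := fun h => hne ⟨u, h⟩
          have := notMem_tsupport_iff_eventuallyEq.mp hxs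
          rw [this.fderiv_eq]
          simp
        simp [h0]
    rw [← integral_add (hint q hqc) (hint l hlc)]
    apply integral_congr_ae
    filter_upwards [ae_restrict_of_ae hψd, ae_restrict_of_ae (ae_XX hρ j)] with u h1 h2
    have h3 : fderiv ℝ ψ u v = fderiv ℝ φ (X3H hρ u) v * ρ j (u j) := fderiv_comp_X hρ j hφ1 u h2 h1
    rw [h3, (X3H hρ).symm_apply_apply, ← Wt_mul ρ j u]
    have h4 : (X3H hρ (U u)) i = h u := rfl
    rw [h4]
    simp only [hq]
    ring
  rw [hLHS, key1, key2]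
  -- transport the right side
  obtain ⟨Mψ, hMψ⟩ := hψc.exists_bound_of_continuous hψL.continuous
  have hbd : ∀ (F : E → ℝ) (s : Set E), IntegrableOn F s → IntegrableOn (fun u => F u * ψ u) s := by
    intro F s hF
    have := Integrable.bdd_mul (c := Mψ) hF hψL.continuous.aestronglyMeasurable (Eventually.of_forall hMψ)
    refine this.congr (Eventually.of_forall fun u => ?_)
    simp only; ring
  have hg1 := g_int hρ U hUc hBm hKm hBfin i j (hen i j)
  have hg2 : IntegrableOn (fun u => J ρ u * (gg hρ U K (X3H hρ u) i j * φ (X3H hρ u))) B := by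
    refine (hbd _ _ hg1).congr_fun (fun u _ => ?_) hBm
    simp only [hψ]; ring
  have e1 := integral_inter_add_sdiff hKm hg2
  have hWψ : IntegrableOn (fun u => fderiv ℝ l u v * ψ u * Wt ρ j u) B := by
    have h1 := hbd _ _ (hWi B hBm hBfin)
    refine Integrable.congr h1 ?_
    filter_upwards [ae_restrict_of_ae hlv] with u hu
    rw [hu]; ring
  have e2 := integral_inter_add_sdiff hKm hWψ
  have e3 : ∫ u in B ∩ K, J ρ u * (gg hρ U K (X3H hρ u) i j * φ (X3H hρ u))
      = ∫ u in B ∩ K, fderiv ℝ l u v * ψ u * Wt ρ j u := by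
    apply integral_congr_ae
    filter_upwards [ae_restrict_of_ae hlv, ae_restrict_mem (hBm.inter hKm)] with u hu hu2
    rw [gg_K hρ U K u hu2.2, hu, ← Wt_mul ρ j u]
    simp only [hψ]; ring
  have e4 : ∫ u in B \ K, fderiv ℝ q u v * ψ u * Wt ρ j u
      = (∫ u in B \ K, J ρ u * (gg hρ U K (X3H hρ u) i j * φ (X3H hρ u)))
        - ∫ u in B \ K, fderiv ℝ l u v * ψ u * Wt ρ j u := by
    rw [← integral_sub (hg2.mono_set Set.sdiff_subset) (hWψ.mono_set Set.sdiff_subset)]
    apply integral_congr_ae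
    filter_upwards [hqv, ae_restrict_of_ae hlv, ae_restrict_mem hBKm] with u h1 h2 h3
    rw [h1, h2, gg_off hρ U K u h3.2, ← Wt_mul ρ j u]
    have := (hρ.2.1 j (u j)).ne'
    have hlh : lineDeriv ℝ (fun u => XX (ρ i) (U u i)) u (Pi.single j 1) = lineDeriv ℝ h u v := rfl
    simp only [hψ]
    rw [hlh]
    field_simp
  rw [← e1, ← e2, e3, e4]
  ring

end PA

open PA in
theorem partA
    (ρ : Fin 3 → ℝ → ℝ) (hρ : Dens ρ)
    (U : E → E) (hUc : Continuous U) (hUo : IsOpenMap U) (hUd : ∀ y x : E, ∀ᶠ z in 𝓝[≠] x, U z ≠ y)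
    (K : Set E) (hK : IsCompact K) (hK1 : ∀ x ∈ K, U x = x) (hKpos : 0 < volume K)
    (hUl : ∀ x ∉ K, ∃ t ∈ 𝓝 x, ∃ L : ℝ≥0, LipschitzOnWith L U t)
    (α β : Fin 3 → ℝ) (B : Set E) (hB : B = Set.pi univ (fun i => Ioo (α i) (β i))) (hKB : K ⊆ B)
    (V : Set E) (hV : IsOpen V) (hVne : V.Nonempty) (hVB : V ⊆ B) (hVK : Disjoint V K)
    (hVU : ∀ x ∈ V, U x = ![x 0, x 1, - x 2])
    (hen : ∀ i j, ∫⁻ u in B \ K, en ρ U i j u < ⊤) :
    ∃ (n : ℕ) (p : ℝ) (Ω : Set (Fin n → ℝ)) (f : (Fin n → ℝ) → (Fin n → ℝ))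
      (g : (Fin n → ℝ) → Matrix (Fin n) (Fin n) ℝ),
      3 ≤ n ∧
      ((((n / 2 : ℕ) : ℝ) < p ∧ p ≤ (n : ℝ) - 1) ∨ (n = 3 ∧ 1 ≤ p ∧ p ≤ 2)) ∧
      IsOpen Ω ∧ IsConnected Ω ∧
      ContinuousOn f Ω ∧
      (∀ U : Set (Fin n → ℝ), IsOpen U → U ⊆ Ω → IsOpen (f '' U)) ∧
      (∀ (y x : Fin n → ℝ), x ∈ Ω → ∀ᶠ z in 𝓝[≠] x, f z ≠ y) ∧
      MemLp f (ENNReal.ofReal p) (volume.restrict Ω) ∧
      (∀ i j : Fin n, MemLp (fun x => g x i j) (ENNReal.ofReal p) (volume.restrict Ω)) ∧
      (∀ (i j : Fin n) (φ : (Fin n → ℝ) → ℝ),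
        ContDiff ℝ ((⊤ : ℕ∞) : WithTop ℕ∞) φ → HasCompactSupport φ → tsupport φ ⊆ Ω →
        ∫ x in Ω, f x i * (fderiv ℝ φ x) (Pi.single j (1 : ℝ)) =
          -∫ x in Ω, g x i j * φ x) ∧
      0 < volume {x | x ∈ Ω ∧ 0 < (g x).det} ∧
      0 < volume {x | x ∈ Ω ∧ (g x).det < 0} := by
  have hBo : IsOpen B := by
    rw [hB]; exact isOpen_set_pi finite_univ fun i _ => isOpen_Ioo
  have hBm : MeasurableSet B := hBo.measurableSet
  have hBne : B.Nonempty := hVne.mono hVB
  have hBconn : IsConnected B := by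
    refine ⟨hBne, ?_⟩
    rw [hB]
    exact (convex_pi fun i _ => convex_Ioo (α i) (β i)).isPreconnected
  have hBcl : B ⊆ Set.pi univ (fun i => Icc (α i) (β i)) := by
    rw [hB]; exact Set.pi_mono fun i _ => Ioo_subset_Icc_self
  have hcomp : IsCompact (Set.pi univ (fun i => Icc (α i) (β i))) := isCompact_univ_pi fun i => isCompact_Icc
  have hBfin : volume B < ⊤ := lt_of_le_of_lt (measure_mono hBcl) hcomp.measure_lt_top
  set X := X3H hρ with hX
  set Ω : Set E := X '' B with hΩ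
  have hΩo : IsOpen Ω := X.isOpenMap B hBo
  have hΩm : MeasurableSet Ω := hΩo.measurableSet
  set f : E → E := fun x => X (U (X.symm x)) with hf
  have hfc : Continuous f := X.continuous.comp (hUc.comp X.symm.continuous)
  have hΩcl : Ω ⊆ X '' (Set.pi univ (fun i => Icc (α i) (β i))) := image_mono hBcl
  have hΩcomp : IsCompact (X '' (Set.pi univ (fun i => Icc (α i) (β i)))) := hcomp.image X.continuous
  have hΩfin : volume Ω < ⊤ := lt_of_le_of_lt (measure_mono hΩcl) hΩcomp.measure_lt_top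
  have hfinm : IsFiniteMeasure (volume.restrict Ω) := ⟨by rw [Measure.restrict_apply_univ]; exact hΩfin⟩
  refine ⟨3, 1, Ω, f, gg hρ U K, le_rfl, Or.inr ⟨rfl, le_rfl, by norm_num⟩, hΩo,
    hBconn.image X X.continuous.continuousOn, hfc.continuousOn, ?_, ?_, ?_, ?_, ?_, ?_, ?_⟩
  · intro W hW _
    have h1 : f '' W = X '' (U '' (X.symm '' W)) := by
      rw [image_image, image_image]
    rw [h1]
    exact X.isOpenMap _ (hUo _ (X.symm.isOpenMap _ hW))
  · intro y x _
    have h1 := hUd (X.symm y) (X.symm x)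
    have h2 : Tendsto X.symm (𝓝[≠] x) (𝓝[≠] (X.symm x)) := by
      apply tendsto_nhdsWithin_iff.mpr
      refine ⟨(X.symm.continuous.tendsto x).mono_left nhdsWithin_le_nhds, ?_⟩
      filter_upwards [self_mem_nhdsWithin] with z hz
      intro h
      exact hz (X.symm.injective h)
    filter_upwards [h2.eventually h1] with z hz h
    apply hz
    rw [← h]
    simp [hf]
  · obtain ⟨M, hM⟩ := hΩcomp.exists_bound_of_continuousOn hfc.continuousOn
    rw [ENNReal.ofReal_one]
    refine MemLp.of_bound hfc.aestronglyMeasurable M ?_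
    filter_upwards [ae_restrict_mem hΩm] with x hx using hM x (hΩcl hx)
  · intro i j
    rw [ENNReal.ofReal_one, memLp_one_iff_integrable]
    have h1 := g_int hρ U hUc hBm hK.measurableSet hBfin i j (hen i j)
    exact (intOn_image hρ hBm (fun x => gg hρ U K x i j)).mpr h1
  · intro i j φ hφ hφc hφΩ
    exact g_ibp hρ U hUc hBo hK.isClosed hKB hK1 hBfin hUl hen i j φ hφ hφc hφΩ
  · refine lt_of_lt_of_le (vol_image_pos hρ hKpos) (measure_mono ?_)
    rintro x ⟨u, hu, rfl⟩
    refine ⟨⟨u, hKB hu, rfl⟩, ?_⟩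
    rw [gg_K hρ U K u hu]; simp
  · -- negative determinant
    have hVpos : 0 < volume V := hV.measure_pos volume hVne
    set G : Set E := {u | HasDerivAt (XX (ρ 0)) (ρ 0 (u 0)) (u 0) ∧ HasDerivAt (XX (ρ 1)) (ρ 1 (u 1)) (u 1) ∧
      HasDerivAt (XX (ρ 2)) (ρ 2 (-(u 2))) (-(u 2))} with hG
    have hGae : ∀ᵐ u : E, u ∈ G := by
      filter_upwards [ae_XX hρ 0, ae_XX hρ 1, ae_XX_neg hρ 2] with u h0 h1 h2 using ⟨h0, h1, h2⟩
    have hVG : 0 < volume (V ∩ G) := by
      have : volume (V ∩ G) = volume V := by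
        apply measure_congr
        filter_upwards [hGae] with u hu
        apply propext
        constructor
        · intro h; exact h.1
        · intro h; exact ⟨h, hu⟩
      rw [this]; exact hVpos
    refine lt_of_lt_of_le (vol_image_pos hρ hVG) (measure_mono ?_)
    rintro x ⟨u, ⟨huV, huG⟩, rfl⟩
    refine ⟨⟨u, hVB huV, rfl⟩, ?_⟩
    have huK : u ∉ K := fun h => (Set.disjoint_left.mp hVK) huV h
    have hVev : ∀ᶠ y in 𝓝 u, y ∈ V := hV.mem_nhds huV
    -- the three components near `u`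
    have hd0 : HasFDerivAt (fun u : E => XX (ρ 0) (U u 0))
        (ρ 0 (u 0) • (ContinuousLinearMap.proj (R := ℝ) (φ := fun _ : Fin 3 => ℝ) 0)) u := by
      refine (hasFDerivAt_XXi 0 u huG.1).congr_of_eventuallyEq ?_
      filter_upwards [hVev] with y hy
      rw [hVU y hy]; simp
    have hd1 : HasFDerivAt (fun u : E => XX (ρ 1) (U u 1))
        (ρ 1 (u 1) • (ContinuousLinearMap.proj (R := ℝ) (φ := fun _ : Fin 3 => ℝ) 1)) u := by
      refine (hasFDerivAt_XXi 1 u huG.2.1).congr_of_eventuallyEq ?_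
      filter_upwards [hVev] with y hy
      rw [hVU y hy]; simp
    have hd2 : HasFDerivAt (fun u : E => XX (ρ 2) (U u 2))
        (ρ 2 (-(u 2)) • (-(ContinuousLinearMap.proj (R := ℝ) (φ := fun _ : Fin 3 => ℝ) 2))) u := by
      have h2 : HasFDerivAt (fun y : E => -(y 2)) (-(ContinuousLinearMap.proj (R := ℝ) (φ := fun _ : Fin 3 => ℝ) 2)) u :=
        ((ContinuousLinearMap.proj (R := ℝ) (φ := fun _ : Fin 3 => ℝ) 2).hasFDerivAt).neg
      have h3 := huG.2.2.comp_hasFDerivAt u h2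
      refine h3.congr_of_eventuallyEq ?_
      filter_upwards [hVev] with y hy
      rw [hVU y hy]; simp
    have hl0 : ∀ j : Fin 3, lineDeriv ℝ (fun u : E => XX (ρ 0) (U u 0)) u (Pi.single j 1) = if j = 0 then ρ 0 (u 0) else 0 := by
      intro j
      rw [hd0.differentiableAt.lineDeriv_eq_fderiv, hd0.fderiv]
      by_cases hj : j = 0
      · subst hj; simp
      · simp [Pi.single_apply, hj, Ne.symm hj]
    have hl1 : ∀ j : Fin 3, lineDeriv ℝ (fun u : E => XX (ρ 1) (U u 1)) u (Pi.single j 1) = if j = 1 then ρ 1 (u 1) else 0 := by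
      intro j
      rw [hd1.differentiableAt.lineDeriv_eq_fderiv, hd1.fderiv]
      by_cases hj : j = 1
      · subst hj; simp
      · simp [Pi.single_apply, hj, Ne.symm hj]
    have hl2 : ∀ j : Fin 3, lineDeriv ℝ (fun u : E => XX (ρ 2) (U u 2)) u (Pi.single j 1) = if j = 2 then -ρ 2 (-(u 2)) else 0 := by
      intro j
      rw [hd2.differentiableAt.lineDeriv_eq_fderiv, hd2.fderiv]
      by_cases hj : j = 2
      · subst hj; simp
      · simp [Pi.single_apply, hj, Ne.symm hj]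
    rw [Matrix.det_fin_three]
    simp only [gg_off hρ U K u huK, hl0, hl1, hl2]
    have p0 := hρ.2.1 0 (u 0)
    have p1 := hρ.2.1 1 (u 1)
    have p2 := hρ.2.1 2 (u 2)
    have p3 := hρ.2.1 2 (-(u 2))
    simp
    rw [div_self p0.ne', div_self p1.ne']
    have : 0 < ρ 2 (-(u 2)) / ρ 2 (u 2) := div_pos p3 p2
    have h5 : -ρ 2 (-(u 2)) / ρ 2 (u 2) = -(ρ 2 (-(u 2)) / ρ 2 (u 2)) := by ring
    linarith

end

end Pool.Agent.ZZ
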