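import Pool.Agent.ZZ.Defs

/-! # Shared definitions of skeletons 1-3 (helper634), split off by helper931 -/

set_option autoImplicit false
open Set Filter Topology MeasureTheory
open scoped NNReal

namespace Pool.Agent.ZZ

/-- amplitude functions allowed in `fold` -/
def Amp (amp : ℝ → ℝ) : Prop := LipschitzWith 1 amp ∧ ∀ t, 0 ≤ amp t ∧ amp t ≤ 1

/-- the reflections -/
def ng1 (x : E) : E := ![x 0, -x 1, x 2]
def ng2 (x : E) : E := ![x 0, x 1, -x 2]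

noncomputable def XX (ρ : ℝ → ℝ) (x : ℝ) : ℝ := ∫ t in (0 : ℝ)..x, ρ t

/-- densities: measurable, in `(0,1]`, equal to `1` far away -/
def Dens (ρ : Fin 3 → ℝ → ℝ) : Prop :=
  (∀ i, Measurable (ρ i)) ∧ (∀ i x, 0 < ρ i x) ∧ (∀ i x, ρ i x ≤ 1) ∧
  ∃ R : ℝ, ∀ i x, R ≤ |x| → ρ i x = 1

/-- energy density in direction `j` of component `i` of `X ∘ U`, transported to `u`-space -/
noncomputable def en (ρ : Fin 3 → ℝ → ℝ) (U : E → E) (i j : Fin 3) (u : E) : ENNReal :=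
  ENNReal.ofReal (|lineDeriv ℝ (fun u => XX (ρ i) (U u i)) u (Pi.single j 1)| *
    ∏ k ∈ Finset.univ.erase j, ρ k (u k))

/-- admissible child index -/
def Ad (N : ℕ) (k : ℕ) : Prop := 2 ≤ k ∧ k + 1 ≤ N

/-- union of the depth-`n` cells inside the standard cell of stage `s` -/
def Cset (ε : ℕ → ℝ) (N : ℕ → ℕ) : ℕ → ℕ → Set E
  | s, 0 => PB (N s)
  | s, n + 1 => {x | ∃ k, Ad (N s) k ∧ x ∈ CB (ε s) k ∧ Ak (ε s) (N (s + 1)) k x ∈ Cset ε N (s + 1) n}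

def KK (ε : ℕ → ℝ) (N : ℕ → ℕ) (s : ℕ) : Set E := ⋂ n, Cset ε N s n

/-- what the stage maps have to satisfy (topological part) -/
structure StageT (ε : ℕ → ℝ) (N : ℕ → ℕ) (G D : ℕ → E → E) : Prop where
  hN : ∀ s, 4 ≤ N s
  h0 : ∀ s, 0 < ε s
  h1 : ∀ s, ε s ≤ 1 / 4
  Gopen : ∀ s, IsOpenMap (G s)
  Gfin : ∀ s y, (G s ⁻¹' {y}).Finite
  Gsurj : ∀ s, Function.Surjective (G s)
  Glip : ∀ s, ∃ L : ℝ≥0, LipschitzWith L (G s)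
  Dlip : ∀ s, ∃ L : ℝ≥0, LipschitzWith L (D s)
  GP : ∀ s, G s ⁻¹' PB (N s) = PB (N s)
  DQ : ∀ s, ∃ Q : E ≃ₜ E, (∀ x ∉ PB (N s), Q x = x) ∧ ∀ x, D s x = Q (G s (Q.symm x))
  /-- `D = G` outside the interior of the cell -/
  DG : ∀ s x, x ∉ interior (PB (N s)) → D s x = G s x
  /-- `D` restricted to a child cell is the layered map of the child -/
  DC : ∀ s k x, Ad (N s) k → x ∈ CB (ε s) k →
    D s x = Aki (ε s) (N (s + 1)) k (G (s + 1) (Ak (ε s) (N (s + 1)) k x))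
  Dpre : ∀ s k, Ad (N s) k → D s ⁻¹' CB (ε s) k = CB (ε s) k

/-- real half-sizes (long, mid, short) of the stage-`s` cells; `σ s = 2 c/(N+3)` is the layer spacing -/
structure Sizes (ε : ℕ → ℝ) (N : ℕ → ℕ) (sz : ℕ → Fin 3 → ℝ) : Prop where
  pos : ∀ s i, 0 < sz s i
  long : ∀ s, sz (s + 1) 0 = cf (ε s) * sz s 1
  mid : ∀ s, sz (s + 1) 1 = (1 - ε s) * sz s 2
  short : ∀ s, sz (s + 1) 2 = fh (ε s) * (2 * sz s 0 / (N s + 3))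

/-- scale of the normalised coordinates of stage `s` -/
noncomputable def sca (N : ℕ → ℕ) (sz : ℕ → Fin 3 → ℝ) (s : ℕ) : Fin 3 → ℝ :=
  ![2 * sz s 0 / (N s + 3), sz s 1, sz s 2]

/-- `S`-sets: coordinates that are fat up to two levels down -/
def S0 (ε ε' : ℝ) (N : ℕ) : Set ℝ := {x | ∃ k : ℕ, Ad N k ∧ |x - k| ≤ (1 - ε') * fh ε}
def S1 (ε ε' : ℝ) (N' : ℕ) : Set ℝ :=
  {y | ∃ k : ℕ, Ad N' k ∧ |(y * ((N' + 3) / (2 * cf ε)) + (N' + 1) / 2) - k| ≤ fh ε'}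
def S2 (ε ε' : ℝ) : Set ℝ := {z | |z| ≤ (1 - ε) * cf ε'}

/-- `ρ` is at most `δ` inside the cell range off the `S`-sets -/
def Small (ε ε' : ℝ) (N N' : ℕ) (δ : ℝ) (ρ : Fin 3 → ℝ → ℝ) : Prop :=
  (∀ x : ℝ, -1 < x → x < N + 2 → x ∉ S0 ε ε' N → ρ 0 x ≤ δ) ∧
  (∀ y : ℝ, |y| < 1 → y ∉ S1 ε ε' N' → ρ 1 y ≤ δ) ∧
  (∀ z : ℝ, |z| < 1 → z ∉ S2 ε ε' → ρ 2 z ≤ δ)

/-- pointwise estimates for the refined stage map `D = DD ε ε' ε'' N N'`, a.e. in `PB N` off the children.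
`C` depends only on `ε,ε',ε''`, `L` on everything. -/
structure StageE (ε ε' : ℝ) (N N' : ℕ) (D : E → E) (C L : ℝ) : Prop where
  /-- global Lipschitz constant -/
  lip : ∀ x y, dist (D x) (D y) ≤ L * dist x y
  /-- short collar -/
  B3 : ∀ x ∈ PB N, 1 - ε < |x 2| → ∀ k : ℕ, Ad N k → |x 0 - k| ≤ (1 - ε') * fh ε → |x 1| ≤ cf ε →
    D x = ![2 * k - x 0, x 1, x 2]
  /-- walls between layers -/
  B1a : ∀ x ∈ PB N, 3 / 2 ≤ x 0 → x 0 ≤ N - 1 / 2 → (∀ k : ℕ, Ad N k → fh ε ≤ |x 0 - k|) →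
    ∀ k' : ℕ, Ad N' k' → |(Ak ε N' 0 x) 0 - k'| ≤ fh ε' → |x 2| ≤ (1 - ε) * cf ε' →
    D x = ![x 0, (2 * k' - (Ak ε N' 0 x) 0 - (N' + 1) / 2) / ((N' + 3) / (2 * cf ε)), x 2]
  /-- ends: `C`-Lipschitz in direction `0` on fat segments -/
  B1b : ∀ x ∈ PB N, (x 0 < 3 / 2 ∨ (N : ℝ) - 1 / 2 < x 0) → |x 1| < cf ε → |x 2| < 1 - ε →
    ∀ᶠ t in 𝓝 (0 : ℝ), dist (D (x + t • Pi.single 0 1)) (D x) ≤ C * |t|
  /-- mid collar -/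
  B2 : ∀ x ∈ PB N, 1 / 2 < x 0 → x 0 < N + 1 / 2 → cf ε < |x 1| → |x 2| < 1 - ε →
    cf ε ≤ |D x 1| ∧ |D x 1| ≤ 1 ∧ ∀ᶠ t in 𝓝 (0 : ℝ), dist (D (x + t • Pi.single 1 1)) (D x) ≤ C * |t|

end Pool.Agent.ZZ
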