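import Mathlib
import Pool.Agent.ZZ.Defs2
import Pool.Agent.Helper15.Jac.Limit

/-!
# Part B : recursion over nested boxes (helper321)
-/

set_option autoImplicit false
open Set Filter Topology MeasureTheory
open scoped NNReal

namespace Pool.Agent.ZZ.B

/-! ## frames -/

section frames

variable {ε : ℝ} {N' k : ℕ}

theorem fh_pos' (h1 : ε ≤ 1 / 4) : 0 < fh ε := by unfold fh; linarith
theorem fh_lt_half (h0 : 0 < ε) : fh ε < 1 / 2 := by unfold fh; linarith
theorem cf_pos' (h1 : ε ≤ 1 / 4) : 0 < cf ε := by unfold cf wd; linarith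
theorem cf_lt_one (h0 : 0 < ε) : cf ε < 1 := by unfold cf wd; linarith

theorem Aki_Ak (h1 : ε ≤ 1 / 4) (x : E) : Aki ε N' k (Ak ε N' k x) = x := by
  have hf := fh_pos' h1
  have hc := cf_pos' h1
  have hN : (0 : ℝ) < N' + 3 := by positivity
  have he : (1 - ε) ≠ 0 := by linarith
  ext i
  fin_cases i
  · simp [Aki, Ak]; field_simp; ring
  · simp [Aki, Ak]; field_simp
  · simp [Aki, Ak]; field_simp

theorem Ak_Aki (h1 : ε ≤ 1 / 4) (x : E) : Ak ε N' k (Aki ε N' k x) = x := by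
  have hf := fh_pos' h1
  have hc := cf_pos' h1
  have hN : (0 : ℝ) < N' + 3 := by positivity
  have he : (1 - ε) ≠ 0 := by linarith
  ext i
  fin_cases i
  · simp [Aki, Ak]; field_simp; ring
  · simp [Aki, Ak]; field_simp
  · simp [Aki, Ak]; field_simp

theorem continuous_Ak : Continuous (Ak ε N' k) := by
  unfold Ak
  refine continuous_pi fun i => ?_
  fin_cases i
  · simp; fun_prop
  · simp; fun_prop
  · simp; fun_prop

theorem continuous_Aki : Continuous (Aki ε N' k) := by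
  unfold Aki
  refine continuous_pi fun i => ?_
  fin_cases i
  · simp; fun_prop
  · simp; fun_prop
  · simp; fun_prop

/-- the child frame as a homeomorphism -/
noncomputable def AH (h1 : ε ≤ 1 / 4) (N' k : ℕ) : E ≃ₜ E where
  toFun := Ak ε N' k
  invFun := Aki ε N' k
  left_inv := Aki_Ak h1
  right_inv := Ak_Aki h1
  continuous_toFun := continuous_Ak
  continuous_invFun := continuous_Aki

theorem Ak_mem_PB (h1 : ε ≤ 1 / 4) (x : E) : Ak ε N' k x ∈ PB N' ↔ x ∈ CB ε k := by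
  have hf := fh_pos' h1
  have hc := cf_pos' h1
  have hN : (0 : ℝ) < N' + 3 := by positivity
  have he : 0 < 1 - ε := by linarith
  have hq : 0 < ((N' : ℝ) + 3) / (2 * cf ε) := by positivity
  have e1 : ((N' : ℝ) + 3) / (2 * cf ε) * cf ε = (N' + 3) / 2 := by field_simp
  simp only [PB, CB, Ak, mem_ofPred_eq, Matrix.cons_val_zero, Matrix.cons_val_one,
    Matrix.cons_val]
  rw [abs_div, abs_div, abs_of_pos he, abs_of_pos hf, div_le_one he, div_le_one hf]
  constructor
  · rintro ⟨a, b, c, d⟩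
    refine ⟨d, ?_, c⟩
    rw [abs_le]
    constructor
    · by_contra hcon
      push Not at hcon
      nlinarith
    · by_contra hcon
      push Not at hcon
      nlinarith
  · rintro ⟨a, b, c⟩
    rw [abs_le] at b
    refine ⟨?_, ?_, c, a⟩
    · nlinarith
    · nlinarith

end frames

/-! ## boxes -/

theorem isClosed_PB (N : ℕ) : IsClosed (PB N) := by
  have : PB N = {x : E | -1 ≤ x 0} ∩ {x : E | x 0 ≤ N + 2} ∩ {x : E | |x 1| ≤ 1} ∩
      {x : E | |x 2| ≤ 1} := by
    ext x; simp only [PB, mem_inter_iff]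
    constructor
    · rintro ⟨a, b, c, d⟩; exact ⟨⟨⟨a, b⟩, c⟩, d⟩
    · rintro ⟨⟨⟨a, b⟩, c⟩, d⟩; exact ⟨a, b, c, d⟩
  rw [this]
  refine (((isClosed_le ?_ ?_).inter (isClosed_le ?_ ?_)).inter (isClosed_le ?_ ?_)).inter
    (isClosed_le ?_ ?_) <;> fun_prop

theorem isClosed_CB (ε : ℝ) (k : ℕ) : IsClosed (CB ε k) := by
  have : CB ε k = {x : E | |x 0 - k| ≤ fh ε} ∩ {x : E | |x 1| ≤ cf ε} ∩
      {x : E | |x 2| ≤ 1 - ε} := by
    ext x; simp only [CB, mem_inter_iff]
    constructor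
    · rintro ⟨a, b, c⟩; exact ⟨⟨a, b⟩, c⟩
    · rintro ⟨⟨a, b⟩, c⟩; exact ⟨a, b, c⟩
  rw [this]
  refine ((isClosed_le ?_ ?_).inter (isClosed_le ?_ ?_)).inter (isClosed_le ?_ ?_) <;> fun_prop

theorem CB_sub_interior {ε : ℝ} {N k : ℕ} (h0 : 0 < ε) (hk : Ad N k) :
    CB ε k ⊆ interior (PB N) := by
  have hopen : IsOpen {x : E | -1 < x 0 ∧ x 0 < N + 2 ∧ |x 1| < 1 ∧ |x 2| < 1} := by
    have : {x : E | -1 < x 0 ∧ x 0 < N + 2 ∧ |x 1| < 1 ∧ |x 2| < 1} =
        {x : E | -1 < x 0} ∩ {x : E | x 0 < N + 2} ∩ {x : E | |x 1| < 1} ∩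
        {x : E | |x 2| < 1} := by
      ext x; simp only [mem_inter_iff]
      constructor
      · rintro ⟨a, b, c, d⟩; exact ⟨⟨⟨a, b⟩, c⟩, d⟩
      · rintro ⟨⟨⟨a, b⟩, c⟩, d⟩; exact ⟨a, b, c, d⟩
    rw [this]
    refine (((isOpen_lt ?_ ?_).inter (isOpen_lt ?_ ?_)).inter (isOpen_lt ?_ ?_)).inter
      (isOpen_lt ?_ ?_) <;> fun_prop
  have hsub : {x : E | -1 < x 0 ∧ x 0 < N + 2 ∧ |x 1| < 1 ∧ |x 2| < 1} ⊆ PB N := by
    rintro x ⟨a, b, c, d⟩; exact ⟨a.le, b.le, c.le, d.le⟩
  refine Subset.trans ?_ (interior_maximal hsub hopen)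
  rintro x ⟨a, b, c⟩
  have hf := fh_lt_half h0
  have hc := cf_lt_one h0
  rw [abs_le] at a
  have h2 : (2 : ℝ) ≤ k := by exact_mod_cast hk.1
  have h3 : (k : ℝ) + 1 ≤ N := by exact_mod_cast hk.2
  exact ⟨by linarith, by linarith, by linarith, by linarith⟩

theorem CB_unique {ε : ℝ} {j k : ℕ} (h0 : 0 < ε) {x : E} (hj : x ∈ CB ε j) (hk : x ∈ CB ε k) :
    j = k := by
  have hf := fh_lt_half h0
  have a := hj.1
  have b := hk.1
  rw [abs_le] at a b
  by_contra hne
  rcases lt_or_gt_of_ne hne with h | h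
  · have : (j : ℝ) + 1 ≤ k := by exact_mod_cast h
    linarith
  · have : (k : ℝ) + 1 ≤ j := by exact_mod_cast h
    linarith

theorem CB_dist {ε : ℝ} {k : ℕ} (h0 : 0 < ε) {x y : E} (hx : x ∈ CB ε k)
    (hy : y ∈ CB ε k) : dist x y ≤ 2 := by
  have hf := fh_lt_half h0
  have hc := cf_lt_one h0
  obtain ⟨a, b, c⟩ := hx
  obtain ⟨a', b', c'⟩ := hy
  rw [abs_le] at a b c a' b' c'
  rw [dist_pi_le_iff (by norm_num)]
  intro i
  fin_cases i
  · simp only [Fin.zero_eta, Real.dist_eq, abs_le]; constructor <;> linarith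
  · simp only [Fin.mk_one, Real.dist_eq, abs_le]; constructor <;> linarith
  · simp only [Fin.reduceFinMk, Real.dist_eq, abs_le]; constructor <;> linarith

/-- the cell with address `l` inside the stage-`s` cell -/
def cell (ε : ℕ → ℝ) (N : ℕ → ℕ) : List ℕ → ℕ → Set E
  | [], s => PB (N s)
  | k :: l, s => {x | Ad (N s) k ∧ x ∈ CB (ε s) k ∧ Ak (ε s) (N (s + 1)) k x ∈ cell ε N l (s + 1)}

section cells

variable {ε : ℕ → ℝ} {N : ℕ → ℕ}

theorem mem_Cset {n : ℕ} : ∀ {s : ℕ} {x : E}, x ∈ Cset ε N s n ↔ ∃ l : List ℕ, l.length = n ∧ x ∈ cell ε N l s := by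
  induction n with
  | zero =>
    intro s x
    constructor
    · intro h; exact ⟨[], rfl, h⟩
    · rintro ⟨l, hl, h⟩
      rw [List.length_eq_zero_iff] at hl
      subst hl; exact h
  | succ n ih =>
    intro s x
    constructor
    · rintro ⟨k, hk, hx, h⟩
      obtain ⟨l, hl, h'⟩ := ih.1 h
      exact ⟨k :: l, by simp [hl], hk, hx, h'⟩
    · rintro ⟨l, hl, h⟩
      cases l with
      | nil => simp at hl
      | cons k l =>
        obtain ⟨hk, hx, h'⟩ := h
        exact ⟨k, hk, hx, ih.2 ⟨l, by simpa using hl, h'⟩⟩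

theorem isClosed_Cset : ∀ (n s : ℕ), IsClosed (Cset ε N s n) := by
  intro n
  induction n with
  | zero => intro s; exact isClosed_PB _
  | succ n ih =>
    intro s
    have : Cset ε N s (n + 1) = ⋃ k ∈ {k : ℕ | Ad (N s) k},
        (CB (ε s) k ∩ (Ak (ε s) (N (s + 1)) k) ⁻¹' Cset ε N (s + 1) n) := by
      ext x
      simp only [Cset, mem_iUnion, mem_inter_iff, mem_preimage, exists_prop]
      rfl
    rw [this]
    have hfin : {k : ℕ | Ad (N s) k}.Finite :=
      (Set.finite_lt_nat (N s)).subset fun k hk => by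
        have : k + 1 ≤ N s := hk.2
        show k < N s
        omega
    exact hfin.isClosed_biUnion fun k _ => (isClosed_CB _ _).inter ((ih (s + 1)).preimage continuous_Ak)

theorem cell_sub_PB (h0 : ∀ s, 0 < ε s) : ∀ (l : List ℕ) (s : ℕ), cell ε N l s ⊆ PB (N s) := by
  intro l s
  cases l with
  | nil => exact Subset.rfl
  | cons k l =>
    rintro x ⟨hk, hx, -⟩
    exact interior_subset (CB_sub_interior (h0 s) hk hx)

theorem cell_unique (h0 : ∀ s, 0 < ε s) : ∀ (l l' : List ℕ) (s : ℕ) (x : E), l.length = l'.length →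
    x ∈ cell ε N l s → x ∈ cell ε N l' s → l = l' := by
  intro l
  induction l with
  | nil =>
    intro l' s x hl _ _
    exact (List.length_eq_zero_iff.1 hl.symm).symm
  | cons k l ih =>
    intro l' s x hl h h'
    cases l' with
    | nil => simp at hl
    | cons k' l' =>
      obtain ⟨-, hx, h2⟩ := h
      obtain ⟨-, hx', h2'⟩ := h'
      have := CB_unique (h0 s) hx hx'
      subst this
      rw [ih l' (s + 1) _ (by simpa using hl) h2 h2']

theorem cell_anti (h0 : ∀ s, 0 < ε s) (h1 : ∀ s, ε s ≤ 1 / 4) : ∀ (l : List ℕ) (k s : ℕ),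
    cell ε N (l ++ [k]) s ⊆ interior (cell ε N l s) := by
  intro l
  induction l with
  | nil =>
    intro k s x hx
    obtain ⟨hk, hx, -⟩ := hx
    exact CB_sub_interior (h0 s) hk hx
  | cons j l ih =>
    intro k s x hx
    obtain ⟨hj, hx, h2⟩ := hx
    have h3 := ih k (s + 1) h2
    rw [mem_interior_iff_mem_nhds] at h3 ⊢
    have h4 := continuous_Ak.continuousAt (x := x) h3
    refine mem_of_superset h4 fun y hy => ?_
    exact ⟨hj, (Ak_mem_PB (h1 s) y).1 (cell_sub_PB h0 _ _ hy), hy⟩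

/-- two frames contract by a factor `2/3` -/
theorem two_step (h0 : ∀ s, 0 < ε s) (h1 : ∀ s, ε s ≤ 1 / 4) (s k k' : ℕ) (x y : E) :
    dist x y ≤ dist (Ak (ε (s + 1)) (N (s + 2)) k' (Ak (ε s) (N (s + 1)) k x))
      (Ak (ε (s + 1)) (N (s + 2)) k' (Ak (ε s) (N (s + 1)) k y)) * (2 / 3) := by
  set d := dist (Ak (ε (s + 1)) (N (s + 2)) k' (Ak (ε s) (N (s + 1)) k x))
      (Ak (ε (s + 1)) (N (s + 2)) k' (Ak (ε s) (N (s + 1)) k y)) with hd
  have hd0 : 0 ≤ d := dist_nonneg
  have one : ∀ (t m j : ℕ) (u v : E), 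
      |u 0 - v 0| ≤ |Ak (ε t) m j u 2 - Ak (ε t) m j v 2| / 2 ∧
      |u 1 - v 1| ≤ |Ak (ε t) m j u 0 - Ak (ε t) m j v 0| * (2 / 3) ∧
      |u 2 - v 2| ≤ |Ak (ε t) m j u 1 - Ak (ε t) m j v 1| := by
    intro t m j u v
    have hf := fh_pos' (h1 t)
    have hf2 := fh_lt_half (h0 t)
    have hc := cf_pos' (h1 t)
    have hc2 := cf_lt_one (h0 t)
    have he : 0 < 1 - ε t := by linarith [h1 t]
    have hm : (0 : ℝ) ≤ m := by positivity
    have ht := h0 t
    refine ⟨?_, ?_, ?_⟩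
    · have : Ak (ε t) m j u 2 - Ak (ε t) m j v 2 = (u 0 - v 0) / fh (ε t) := by
        simp [Ak]; ring
      rw [this, abs_div, abs_of_pos hf, div_div, le_div_iff₀ (by positivity)]
      have := abs_nonneg (u 0 - v 0)
      nlinarith
    · have : Ak (ε t) m j u 0 - Ak (ε t) m j v 0 = (u 1 - v 1) * (((m : ℝ) + 3) / (2 * cf (ε t))) := by
        simp [Ak]; ring
      have hq : (3 : ℝ) / 2 ≤ ((m : ℝ) + 3) / (2 * cf (ε t)) := by
        rw [div_le_div_iff₀ (by norm_num) (by positivity)]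
        nlinarith
      rw [this, abs_mul, abs_of_pos (by positivity : 0 < ((m : ℝ) + 3) / (2 * cf (ε t)))]
      have := abs_nonneg (u 1 - v 1)
      nlinarith
    · have : Ak (ε t) m j u 1 - Ak (ε t) m j v 1 = (u 2 - v 2) / (1 - ε t) := by
        simp [Ak]; ring
      rw [this, abs_div, abs_of_pos he, le_div_iff₀ he]
      have := abs_nonneg (u 2 - v 2)
      nlinarith
  obtain ⟨a0, a1, a2⟩ := one s (N (s + 1)) k x y
  obtain ⟨b0, b1, b2⟩ := one (s + 1) (N (s + 2)) k' (Ak (ε s) (N (s + 1)) k x)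
    (Ak (ε s) (N (s + 1)) k y)
  have c : ∀ i, |Ak (ε (s + 1)) (N (s + 2)) k' (Ak (ε s) (N (s + 1)) k x) i -
      Ak (ε (s + 1)) (N (s + 2)) k' (Ak (ε s) (N (s + 1)) k y) i| ≤ d := fun i => by
    have := dist_le_pi_dist (Ak (ε (s + 1)) (N (s + 2)) k' (Ak (ε s) (N (s + 1)) k x))
      (Ak (ε (s + 1)) (N (s + 2)) k' (Ak (ε s) (N (s + 1)) k y)) i
    rwa [Real.dist_eq] at this
  have c0 := c 0
  have c1 := c 1
  have c2 := c 2
  rw [dist_pi_le_iff (by positivity)]
  intro i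
  fin_cases i
  · simp only [Fin.zero_eta, Real.dist_eq]; linarith
  · simp only [Fin.mk_one, Real.dist_eq]; linarith
  · simp only [Fin.reduceFinMk, Real.dist_eq]; linarith

theorem cell_small (h0 : ∀ s, 0 < ε s) (h1 : ∀ s, ε s ≤ 1 / 4) : ∀ (n : ℕ) (l : List ℕ) (s : ℕ),
    l.length = 2 * n + 1 → ∀ x ∈ cell ε N l s, ∀ y ∈ cell ε N l s, dist x y ≤ 2 * (2 / 3) ^ n := by
  intro n
  induction n with
  | zero =>
    intro l s hl x hx y hy
    cases l with
    | nil => simp at hl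
    | cons k l =>
      simpa using CB_dist (h0 s) hx.2.1 hy.2.1
  | succ n ih =>
    intro l s hl x hx y hy
    match l, hl, hx, hy with
    | k :: k' :: l, hl, hx, hy =>
      have hl' : l.length = 2 * n + 1 := by simp at hl; omega
      obtain ⟨-, -, hx1, hx2, hx3⟩ := hx
      obtain ⟨-, -, hy1, hy2, hy3⟩ := hy
      have h3 := ih l (s + 1 + 1) hl' _ hx3 _ hy3
      have h4 := two_step (N := N) h0 h1 s k k' x y
      have h5 : (2 : ℝ) * (2 / 3) ^ (n + 1) = 2 * (2 / 3) ^ n * (2 / 3) := by rw [pow_succ]; ring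
      rw [h5]
      exact h4.trans (by linarith)

end cells

/-! ## gluing homeomorphisms over the children -/

section glue

variable {ε : ℝ} {N N' : ℕ}

theorem homeo_mem_iff {P : E ≃ₜ E} {S : Set E} (hP : ∀ x ∉ S, P x = x) (x : E) : P x ∈ S ↔ x ∈ S := by
  constructor
  · intro h
    by_contra hx
    rw [hP x hx] at h
    exact hx h
  · intro h
    by_contra hx
    have h2 : P (P x) = P x := hP _ hx
    have h3 : P x = x := P.injective h2
    rw [h3] at hx
    exact hx h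

theorem homeo_symm_id {P : E ≃ₜ E} {S : Set E} (hP : ∀ x ∉ S, P x = x) : ∀ x ∉ S, P.symm x = x := by
  intro x hx
  rw [Homeomorph.symm_apply_eq]
  exact (hP x hx).symm

theorem glue_aux (h0 : 0 < ε) (h1 : ε ≤ 1 / 4) (P : E ≃ₜ E) (hP : ∀ x ∉ PB N', P x = x) (n : ℕ) :
    ∃ R : E ≃ₜ E, (∀ k x, k < n → Ad N k → x ∈ CB ε k → R x = Aki ε N' k (P (Ak ε N' k x))) ∧
      (∀ x, (∀ k, k < n → Ad N k → x ∉ CB ε k) → R x = x) := by
  induction n with
  | zero => exact ⟨Homeomorph.refl E, fun k x h => absurd h (by omega), fun x _ => rfl⟩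
  | succ n ih =>
    obtain ⟨R, hR1, hR2⟩ := ih
    by_cases hn : Ad N n
    · refine ⟨R.trans (((AH h1 N' n).trans P).trans (AH h1 N' n).symm), ?_, ?_⟩
      · intro k x hk hk' hx
        show Aki ε N' n (P (Ak ε N' n (R x))) = _
        rcases Nat.lt_succ_iff_lt_or_eq.1 hk with h | h
        · rw [hR1 k x h hk' hx]
          set w := Aki ε N' k (P (Ak ε N' k x)) with hw
          have hwk : w ∈ CB ε k := by
            rw [← Ak_mem_PB (N' := N') h1, hw, Ak_Aki h1, homeo_mem_iff hP, Ak_mem_PB h1]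
            exact hx
          have hwn : w ∉ CB ε n := fun h' => by
            have := CB_unique h0 hwk h'
            omega
          rw [hP _ (fun h' => hwn ((Ak_mem_PB h1 _).1 h')), Aki_Ak h1]
        · subst h
          rw [hR2 x (fun j hj _ hxj => by
            have := CB_unique h0 hx hxj
            omega)]
      · intro x hx
        show Aki ε N' n (P (Ak ε N' n (R x))) = _
        rw [hR2 x (fun k hk hk' => hx k (by omega) hk')]
        rw [hP _ (fun h' => hx n (by omega) hn ((Ak_mem_PB h1 _).1 h')), Aki_Ak h1]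
    · refine ⟨R, ?_, ?_⟩
      · intro k x hk hk' hx
        rcases Nat.lt_succ_iff_lt_or_eq.1 hk with h | h
        · exact hR1 k x h hk' hx
        · subst h; exact absurd hk' hn
      · intro x hx
        exact hR2 x (fun k hk hk' => hx k (by omega) hk')

theorem glue (h0 : 0 < ε) (h1 : ε ≤ 1 / 4) (P : E ≃ₜ E) (hP : ∀ x ∉ PB N', P x = x) :
    ∃ R : E ≃ₜ E, (∀ k x, Ad N k → x ∈ CB ε k → R x = Aki ε N' k (P (Ak ε N' k x))) ∧
      (∀ x, (∀ k, Ad N k → x ∉ CB ε k) → R x = x) := by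
  obtain ⟨R, h2, h3⟩ := glue_aux (N := N) h0 h1 P hP N
  refine ⟨R, fun k x hk hx => h2 k x ?_ hk hx, fun x hx => h3 x (fun k _ hk => hx k hk)⟩
  have := hk.2
  omega

end glue

/-! ## the truncated maps -/

open Classical in
noncomputable def TT (ε : ℕ → ℝ) (N : ℕ → ℕ) (G D : ℕ → E → E) : ℕ → ℕ → E → E
  | 0, s => G s
  | n + 1, s => fun x =>
    if h : ∃ k, Ad (N s) k ∧ x ∈ CB (ε s) k then
      Aki (ε s) (N (s + 1)) h.choose (TT ε N G D n (s + 1) (Ak (ε s) (N (s + 1)) h.choose x))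
    else D s x

section trunc

variable {ε : ℕ → ℝ} {N : ℕ → ℕ} {G D : ℕ → E → E}

theorem TT_child (h0 : ∀ s, 0 < ε s) {n s k : ℕ} {x : E} (hk : Ad (N s) k) (hx : x ∈ CB (ε s) k) :
    TT ε N G D (n + 1) s x =
      Aki (ε s) (N (s + 1)) k (TT ε N G D n (s + 1) (Ak (ε s) (N (s + 1)) k x)) := by
  have h : ∃ k, Ad (N s) k ∧ x ∈ CB (ε s) k := ⟨k, hk, hx⟩
  have h2 : h.choose = k := CB_unique (h0 s) h.choose_spec.2 hx
  simp only [TT]
  rw [dif_pos h, h2]

theorem TT_off {n s : ℕ} {x : E} (hx : ∀ k, Ad (N s) k → x ∉ CB (ε s) k) :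
    TT ε N G D (n + 1) s x = D s x := by
  have h : ¬ ∃ k, Ad (N s) k ∧ x ∈ CB (ε s) k := by
    rintro ⟨k, hk, hx'⟩
    exact hx k hk hx'
  simp only [TT]
  rw [dif_neg h]

theorem TT_conj (H : StageT ε N G D) : ∀ (n s : ℕ), ∃ P : E ≃ₜ E, (∀ x ∉ PB (N s), P x = x) ∧
    ∀ x, TT ε N G D n s x = P (G s (P.symm x)) := by
  intro n
  induction n with
  | zero => exact fun s => ⟨Homeomorph.refl E, fun x _ => rfl, fun x => rfl⟩
  | succ n ih =>
    intro s
    obtain ⟨P, hP, hT⟩ := ih (s + 1)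
    obtain ⟨R, hR1, hR2⟩ := glue (N := N s) (H.h0 s) (H.h1 s) P hP
    obtain ⟨Q, hQ, hD⟩ := H.DQ s
    have hRs2 : ∀ x, (∀ k, Ad (N s) k → x ∉ CB (ε s) k) → R.symm x = x := by
      intro x hx
      rw [Homeomorph.symm_apply_eq]
      exact (hR2 x hx).symm
    have hRs1 : ∀ k x, Ad (N s) k → x ∈ CB (ε s) k →
        R.symm x = Aki (ε s) (N (s + 1)) k (P.symm (Ak (ε s) (N (s + 1)) k x)) := by
      intro k x hk hx
      rw [Homeomorph.symm_apply_eq]
      have hm : Aki (ε s) (N (s + 1)) k (P.symm (Ak (ε s) (N (s + 1)) k x)) ∈ CB (ε s) k := by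
        rw [← Ak_mem_PB (N' := N (s + 1)) (H.h1 s), Ak_Aki (H.h1 s),
          homeo_mem_iff (homeo_symm_id hP), Ak_mem_PB (H.h1 s)]
        exact hx
      rw [hR1 k _ hk hm, Ak_Aki (H.h1 s), Homeomorph.apply_symm_apply, Aki_Ak (H.h1 s)]
    refine ⟨Q.trans R, ?_, ?_⟩
    · intro x hx
      show R (Q x) = x
      rw [hQ x hx]
      exact hR2 x (fun k hk hx' => hx (interior_subset (CB_sub_interior (H.h0 s) hk hx')))
    · intro x
      show _ = R (Q (G s (Q.symm (R.symm x))))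
      rw [← hD]
      by_cases hx : ∃ k, Ad (N s) k ∧ x ∈ CB (ε s) k
      · obtain ⟨k, hk, hx⟩ := hx
        rw [TT_child H.h0 hk hx, hRs1 k x hk hx]
        set w := P.symm (Ak (ε s) (N (s + 1)) k x) with hw
        have hwP : w ∈ PB (N (s + 1)) := by
          rw [hw, homeo_mem_iff (homeo_symm_id hP), Ak_mem_PB (H.h1 s)]
          exact hx
        have hwk : Aki (ε s) (N (s + 1)) k w ∈ CB (ε s) k := by
          rw [← Ak_mem_PB (N' := N (s + 1)) (H.h1 s), Ak_Aki (H.h1 s)]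
          exact hwP
        have hgw : G (s + 1) w ∈ PB (N (s + 1)) := by
          have : w ∈ G (s + 1) ⁻¹' PB (N (s + 1)) := by rw [H.GP]; exact hwP
          exact this
        have hgk : Aki (ε s) (N (s + 1)) k (G (s + 1) w) ∈ CB (ε s) k := by
          rw [← Ak_mem_PB (N' := N (s + 1)) (H.h1 s), Ak_Aki (H.h1 s)]
          exact hgw
        rw [H.DC s k _ hk hwk, Ak_Aki (H.h1 s), hR1 k _ hk hgk, Ak_Aki (H.h1 s), hT, hw]
      · push Not at hx
        rw [TT_off hx, hRs2 x hx]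
        refine (hR2 _ fun k hk hk' => ?_).symm
        have : x ∈ D s ⁻¹' CB (ε s) k := hk'
        rw [H.Dpre s k hk] at this
        exact hx k hk this

theorem TT_isOpenMap (H : StageT ε N G D) (n s : ℕ) : IsOpenMap (TT ε N G D n s) := by
  obtain ⟨P, hP, hT⟩ := TT_conj H n s
  have : TT ε N G D n s = P ∘ G s ∘ P.symm := funext hT
  rw [this]
  exact P.isOpenMap.comp ((H.Gopen s).comp P.symm.isOpenMap)

theorem TT_surj (H : StageT ε N G D) (n s : ℕ) : Function.Surjective (TT ε N G D n s) := by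
  obtain ⟨P, hP, hT⟩ := TT_conj H n s
  have : TT ε N G D n s = P ∘ G s ∘ P.symm := funext hT
  rw [this]
  exact P.surjective.comp ((H.Gsurj s).comp P.symm.surjective)

theorem TT_disc (H : StageT ε N G D) (n s : ℕ) (x y : E) : ∀ᶠ z in 𝓝[≠] x, TT ε N G D n s z ≠ y := by
  obtain ⟨P, hP, hT⟩ := TT_conj H n s
  have hfin : (TT ε N G D n s ⁻¹' {y}).Finite := by
    refine ((H.Gfin s (P.symm y)).image P).subset ?_
    intro z hz
    refine ⟨P.symm z, ?_, P.apply_symm_apply z⟩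
    have hz' : TT ε N G D n s z = y := hz
    rw [hT] at hz'
    show G s (P.symm z) = P.symm y
    rw [← hz', Homeomorph.symm_apply_apply]
  have h2 : (TT ε N G D n s ⁻¹' {y} \ {x}).Finite := hfin.subset sdiff_subset
  have h3 : (TT ε N G D n s ⁻¹' {y} \ {x})ᶜ ∈ 𝓝 x := h2.isClosed.isOpen_compl.mem_nhds (by simp)
  filter_upwards [nhdsWithin_le_nhds h3, self_mem_nhdsWithin] with z hz hzx hzy
  exact hz ⟨hzy, hzx⟩

theorem TT_mem_PB (H : StageT ε N G D) (n s : ℕ) (x : E) :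
    TT ε N G D n s x ∈ PB (N s) ↔ x ∈ PB (N s) := by
  obtain ⟨P, hP, hT⟩ := TT_conj H n s
  rw [hT, homeo_mem_iff hP]
  have h1 : G s (P.symm x) ∈ PB (N s) ↔ P.symm x ∈ PB (N s) := by
    constructor
    · intro h
      have : P.symm x ∈ G s ⁻¹' PB (N s) := h
      rwa [H.GP] at this
    · intro h
      have : P.symm x ∈ G s ⁻¹' PB (N s) := by rw [H.GP]; exact h
      exact this
  rw [h1, homeo_mem_iff (homeo_symm_id hP)]

theorem TT_mem_cell (H : StageT ε N G D) : ∀ (l : List ℕ) (m s : ℕ) (x : E), l.length ≤ m →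
    (TT ε N G D m s x ∈ cell ε N l s ↔ x ∈ cell ε N l s) := by
  intro l
  induction l with
  | nil => intro m s x _; exact TT_mem_PB H m s x
  | cons k l ih =>
    intro m s x hm
    cases m with
    | zero => simp at hm
    | succ m =>
      have hm' : l.length ≤ m := by simpa using hm
      by_cases hx : ∃ j, Ad (N s) j ∧ x ∈ CB (ε s) j
      · obtain ⟨j, hj, hx⟩ := hx
        rw [TT_child H.h0 hj hx]
        have hTj : Aki (ε s) (N (s + 1)) j (TT ε N G D m (s + 1) (Ak (ε s) (N (s + 1)) j x)) ∈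
            CB (ε s) j := by
          rw [← Ak_mem_PB (N' := N (s + 1)) (H.h1 s), Ak_Aki (H.h1 s), TT_mem_PB H,
            Ak_mem_PB (H.h1 s)]
          exact hx
        constructor
        · rintro ⟨hk, hk2, hk3⟩
          have := CB_unique (H.h0 s) hTj hk2
          subst this
          rw [Ak_Aki (H.h1 s), ih m (s + 1) _ hm'] at hk3
          exact ⟨hk, hx, hk3⟩
        · rintro ⟨hk, hk2, hk3⟩
          have := CB_unique (H.h0 s) hx hk2
          subst this
          refine ⟨hk, hTj, ?_⟩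
          rw [Ak_Aki (H.h1 s), ih m (s + 1) _ hm']
          exact hk3
      · push Not at hx
        rw [TT_off hx]
        constructor
        · rintro ⟨hk, hk2, -⟩
          have : x ∈ D s ⁻¹' CB (ε s) k := hk2
          rw [H.Dpre s k hk] at this
          exact absurd this (hx k hk)
        · rintro ⟨hk, hk2, -⟩
          exact absurd hk2 (hx k hk)

theorem TT_agree (H : StageT ε N G D) : ∀ (n s : ℕ) (x : E), x ∉ Cset ε N s n →
    TT ε N G D (n + 1) s x = TT ε N G D n s x := by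
  intro n
  induction n with
  | zero =>
    intro s x hx
    have hx' : x ∉ PB (N s) := hx
    rw [TT_off (fun k hk hxk => hx' (interior_subset (CB_sub_interior (H.h0 s) hk hxk)))]
    exact H.DG s x (fun h => hx' (interior_subset h))
  | succ n ih =>
    intro s x hx
    by_cases hc : ∃ j, Ad (N s) j ∧ x ∈ CB (ε s) j
    · obtain ⟨j, hj, hxj⟩ := hc
      rw [TT_child H.h0 hj hxj, TT_child H.h0 hj hxj, ih (s + 1)]
      intro h
      exact hx ⟨j, hj, hxj, h⟩
    · push Not at hc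
      rw [TT_off hc, TT_off hc]

theorem TT_bdry (H : StageT ε N G D) (n s : ℕ) (x : E) (hx : x ∉ interior (PB (N s))) :
    TT ε N G D n s x = G s x := by
  cases n with
  | zero => rfl
  | succ n =>
    rw [TT_off (fun k hk hxk => hx (CB_sub_interior (H.h0 s) hk hxk))]
    exact H.DG s x hx

theorem Ak_lip {ε : ℝ} (h1 : ε ≤ 1 / 4) (N' k : ℕ) : ∃ L : ℝ≥0, LipschitzWith L (Ak ε N' k) := by
  have hf := fh_pos' h1
  have hc := cf_pos' h1
  have he : 0 < 1 - ε := by linarith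
  set q : ℝ := ((N' : ℝ) + 3) / (2 * cf ε) with hq
  have hq0 : 0 < q := by positivity
  set M : ℝ := q + 1 / (1 - ε) + 1 / fh ε with hM
  have hM0 : 0 < M := by positivity
  have a1 : 0 < 1 / (1 - ε) := by positivity
  have a2 : 0 < 1 / fh ε := by positivity
  refine ⟨⟨M, hM0.le⟩, LipschitzWith.of_dist_le_mul fun x y => ?_⟩
  have hd : 0 ≤ dist x y := dist_nonneg
  have c : ∀ i, |x i - y i| ≤ dist x y := fun i => by
    have := dist_le_pi_dist x y i
    rwa [Real.dist_eq] at this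
  show _ ≤ M * dist x y
  rw [dist_pi_le_iff (by positivity)]
  intro i
  fin_cases i
  · simp only [Fin.zero_eta, Real.dist_eq]
    have : Ak ε N' k x 0 - Ak ε N' k y 0 = (x 1 - y 1) * q := by simp [Ak]; ring
    rw [this, abs_mul, abs_of_pos hq0, mul_comm]
    exact mul_le_mul (by linarith) (c 1) (abs_nonneg _) hM0.le
  · simp only [Fin.mk_one, Real.dist_eq]
    have : Ak ε N' k x 1 - Ak ε N' k y 1 = (x 2 - y 2) * (1 / (1 - ε)) := by simp [Ak]; ring
    rw [this, abs_mul, abs_of_pos a1, mul_comm]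
    exact mul_le_mul (by linarith) (c 2) (abs_nonneg _) hM0.le
  · simp only [Fin.reduceFinMk, Real.dist_eq]
    have : Ak ε N' k x 2 - Ak ε N' k y 2 = (x 0 - y 0) * (1 / fh ε) := by simp [Ak]; ring
    rw [this, abs_mul, abs_of_pos a2, mul_comm]
    exact mul_le_mul (by linarith) (c 0) (abs_nonneg _) hM0.le

theorem Aki_lip {ε : ℝ} (h1 : ε ≤ 1 / 4) (N' k : ℕ) : ∃ L : ℝ≥0, LipschitzWith L (Aki ε N' k) := by
  have hf := fh_pos' h1
  have hc := cf_pos' h1
  have he : 0 < 1 - ε := by linarith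
  set q : ℝ := 1 / (((N' : ℝ) + 3) / (2 * cf ε)) with hq
  have hq0 : 0 < q := by positivity
  set M : ℝ := q + (1 - ε) + fh ε with hM
  have hM0 : 0 < M := by positivity
  refine ⟨⟨M, hM0.le⟩, LipschitzWith.of_dist_le_mul fun x y => ?_⟩
  have hd : 0 ≤ dist x y := dist_nonneg
  have c : ∀ i, |x i - y i| ≤ dist x y := fun i => by
    have := dist_le_pi_dist x y i
    rwa [Real.dist_eq] at this
  show _ ≤ M * dist x y
  rw [dist_pi_le_iff (by positivity)]
  intro i
  fin_cases i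
  · simp only [Fin.zero_eta, Real.dist_eq]
    have : Aki ε N' k x 0 - Aki ε N' k y 0 = (x 2 - y 2) * fh ε := by simp [Aki]; ring
    rw [this, abs_mul, abs_of_pos hf, mul_comm]
    exact mul_le_mul (by linarith) (c 2) (abs_nonneg _) hM0.le
  · simp only [Fin.mk_one, Real.dist_eq]
    have : Aki ε N' k x 1 - Aki ε N' k y 1 = (x 0 - y 0) * q := by
      simp only [Aki, hq, Matrix.cons_val_one, Matrix.cons_val_zero]; ring
    rw [this, abs_mul, abs_of_pos hq0, mul_comm]
    exact mul_le_mul (by linarith) (c 0) (abs_nonneg _) hM0.le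
  · simp only [Fin.reduceFinMk, Real.dist_eq]
    have : Aki ε N' k x 2 - Aki ε N' k y 2 = (x 1 - y 1) * (1 - ε) := by simp [Aki]; ring
    rw [this, abs_mul, abs_of_pos he, mul_comm]
    exact mul_le_mul (by linarith) (c 1) (abs_nonneg _) hM0.le

theorem lip_sum {f : ℕ → E → E} (n : ℕ) (hf : ∀ k < n, ∃ L : ℝ≥0, LipschitzWith L (f k)) :
    ∃ L : ℝ≥0, LipschitzWith L (fun x => ∑ k ∈ Finset.range n, f k x) := by
  induction n with
  | zero => exact ⟨0, by simp⟩
  | succ n ih =>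
    obtain ⟨L1, h1⟩ := ih fun k hk => hf k (by omega)
    obtain ⟨L2, h2⟩ := hf n (by omega)
    refine ⟨L1 + L2, ?_⟩
    simp_rw [Finset.sum_range_succ]
    exact h1.add h2

theorem TT_lip (H : StageT ε N G D) : ∀ (n s : ℕ), ∃ L : ℝ≥0, LipschitzWith L (TT ε N G D n s) := by
  classical
  intro n
  induction n with
  | zero => exact fun s => H.Glip s
  | succ n ih =>
    intro s
    obtain ⟨L1, hL1⟩ := H.Dlip s
    obtain ⟨LT, hLT⟩ := ih (s + 1)
    obtain ⟨LG, hLG⟩ := H.Glip (s + 1)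
    set f : ℕ → E → E := fun k x => if Ad (N s) k then
      Aki (ε s) (N (s + 1)) k (TT ε N G D n (s + 1) (Ak (ε s) (N (s + 1)) k x)) -
      Aki (ε s) (N (s + 1)) k (G (s + 1) (Ak (ε s) (N (s + 1)) k x)) else 0 with hf
    have hfl : ∀ k < N s, ∃ L : ℝ≥0, LipschitzWith L (f k) := by
      intro k _
      by_cases hk : Ad (N s) k
      · obtain ⟨La, ha⟩ := Ak_lip (H.h1 s) (N (s + 1)) k
        obtain ⟨Lb, hb⟩ := Aki_lip (H.h1 s) (N (s + 1)) k
        refine ⟨Lb * (LT * La) + Lb * (LG * La), ?_⟩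
        simp only [hf, if_pos hk]
        exact (hb.comp (hLT.comp ha)).sub (hb.comp (hLG.comp ha))
      · refine ⟨0, ?_⟩
        simp only [hf, if_neg hk]
        exact LipschitzWith.const _
    obtain ⟨L2, hL2⟩ := lip_sum (N s) hfl
    refine ⟨L1 + L2, ?_⟩
    have hzero : ∀ k x, x ∉ CB (ε s) k → f k x = 0 := by
      intro k x hx
      by_cases hk : Ad (N s) k
      · simp only [hf, if_pos hk]
        rw [TT_bdry H n (s + 1) _ (fun h => hx ((Ak_mem_PB (H.h1 s) x).1 (interior_subset h))), sub_self]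
      · simp only [hf, if_neg hk]
    have heq : TT ε N G D (n + 1) s = fun x => D s x + ∑ k ∈ Finset.range (N s), f k x := by
      funext x
      by_cases hc : ∃ j, Ad (N s) j ∧ x ∈ CB (ε s) j
      · obtain ⟨j, hj, hxj⟩ := hc
        rw [TT_child H.h0 hj hxj, Finset.sum_eq_single j]
        · simp only [hf, if_pos hj]
          rw [H.DC s j x hj hxj]
          abel
        · intro k _ hk
          exact hzero k x (fun h => hk (CB_unique (H.h0 s) h hxj))
        · intro hj'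
          exfalso
          apply hj'
          rw [Finset.mem_range]
          have := hj.2
          omega
      · push Not at hc
        rw [TT_off hc, Finset.sum_eq_zero, add_zero]
        intro k _
        by_cases hk : Ad (N s) k
        · exact hzero k x (hc k hk)
        · simp only [hf, if_neg hk]
    rw [heq]
    exact hL1.add hL2

end trunc

/-! ## the tower and the limit -/

/-- the tower of the truncations of stage `s` -/
noncomputable def tower {ε : ℕ → ℝ} {N : ℕ → ℕ} {G D : ℕ → E → E} (H : StageT ε N G D) (s : ℕ) :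
    Pool.Agent.Helper15.Jac.Tower E where
  F n := TT ε N G D n s
  ι n := {l : List ℕ // l.length = n}
  Q n l := cell ε N l.1 s
  cont n := by
    obtain ⟨L, hL⟩ := TT_lip H n s
    exact hL.continuous
  openAt n x := (TT_isOpenMap H n s).nhds_le x
  disc n x y := TT_disc H n s x y
  closedU n := by
    have : (⋃ i : {l : List ℕ // l.length = n}, cell ε N i.1 s) = Cset ε N s n := by
      ext x
      rw [mem_Cset, mem_iUnion]
      constructor
      · rintro ⟨⟨l, hl⟩, h⟩; exact ⟨l, hl, h⟩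
      · rintro ⟨l, hl, h⟩; exact ⟨⟨l, hl⟩, h⟩
    rw [this]
    exact isClosed_Cset n s
  disj n i j hij := by
    rw [Set.disjoint_left]
    intro x hi hj
    exact hij (Subtype.ext (cell_unique H.h0 i.1 j.1 s x (by rw [i.2, j.2]) hi hj))
  anti n i := by
    obtain ⟨l, hl⟩ := i
    have hne : l ≠ [] := by rintro rfl; simp at hl
    refine ⟨⟨l.dropLast, by simp [hl]⟩, ?_⟩
    have h := cell_anti (N := N) H.h0 H.h1 l.dropLast (l.getLast hne) s
    rw [List.dropLast_append_getLast] at h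
    exact h
  agree n x hx := by
    refine TT_agree H n s x fun h => hx ?_
    obtain ⟨l, hl, h'⟩ := mem_Cset.1 h
    exact mem_iUnion.2 ⟨⟨l, hl⟩, h'⟩
  surj' n i := by
    intro y hy
    obtain ⟨x, hx⟩ := TT_surj H (n + 1) s y
    refine ⟨x, ?_, hx⟩
    rw [← TT_mem_cell H i.1 (n + 1) s x (by rw [i.2]; omega), hx]
    exact hy
  inv n i x := TT_mem_cell H i.1 n s x (by rw [i.2])
  inv' n i x := TT_mem_cell H i.1 (n + 1) s x (by rw [i.2]; omega)
  small r hr := by
    obtain ⟨n, hn⟩ := exists_pow_lt_of_lt_one (show (0 : ℝ) < r / 2 by positivity)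
      (show (2 / 3 : ℝ) < 1 by norm_num)
    refine ⟨2 * n + 1, fun i x hx y hy => ?_⟩
    have := cell_small (N := N) H.h0 H.h1 n i.1 s i.2 x hx y hy
    linarith

theorem tower_U {ε : ℕ → ℝ} {N : ℕ → ℕ} {G D : ℕ → E → E} (H : StageT ε N G D) (s n : ℕ) :
    (tower H s).U n = Cset ε N s n := by
  ext x
  rw [mem_Cset]
  show x ∈ (⋃ i : {l : List ℕ // l.length = n}, cell ε N i.1 s) ↔ _
  rw [mem_iUnion]
  constructor
  · rintro ⟨⟨l, hl⟩, h⟩; exact ⟨l, hl, h⟩
  · rintro ⟨l, hl, h⟩; exact ⟨⟨l, hl⟩, h⟩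

theorem tower_K {ε : ℕ → ℝ} {N : ℕ → ℕ} {G D : ℕ → E → E} (H : StageT ε N G D) (s : ℕ) :
    (tower H s).K = KK ε N s := by
  unfold Pool.Agent.Helper15.Jac.Tower.K KK
  simp_rw [tower_U]

theorem KK_child {ε : ℕ → ℝ} {N : ℕ → ℕ} (h0 : ∀ s, 0 < ε s) {s k : ℕ} {x : E}
    (hx : x ∈ CB (ε s) k) (h : x ∈ KK ε N s) : Ak (ε s) (N (s + 1)) k x ∈ KK ε N (s + 1) := by
  refine mem_iInter.2 fun n => ?_
  obtain ⟨j, hj, hxj, h'⟩ := mem_iInter.1 h (n + 1)
  have := CB_unique (h0 s) hx hxj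
  subst this
  exact h'

end Pool.Agent.ZZ.B

namespace Pool.Agent.ZZ

open Pool.Agent.ZZ.B in
theorem partB (ε : ℕ → ℝ) (N : ℕ → ℕ) (G D : ℕ → E → E) (h : StageT ε N G D) :
    ∃ U : ℕ → E → E, ∀ s,
      Continuous (U s) ∧ IsOpenMap (U s) ∧ (∀ y x : E, ∀ᶠ z in 𝓝[≠] x, U s z ≠ y) ∧
      (∀ x, (∀ k, Ad (N s) k → x ∉ CB (ε s) k) → U s x = D s x) ∧
      (∀ k x, Ad (N s) k → x ∈ CB (ε s) k →
        U s x = Aki (ε s) (N (s + 1)) k (U (s + 1) (Ak (ε s) (N (s + 1)) k x))) ∧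
      (∀ x ∈ KK ε N s, U s x = x) ∧
      (∀ x ∉ KK ε N s, ∃ t ∈ 𝓝 x, ∃ L : ℝ≥0, LipschitzOnWith L (U s) t) := by
  refine ⟨fun s => (tower h s).G, fun s => ⟨(tower h s).G_continuous, (tower h s).G_isOpenMap,
    fun y x => (tower h s).G_discrete x y, ?_, ?_, ?_, ?_⟩⟩
  · intro x hx
    have hx1 : x ∉ (tower h s).U 1 := by
      rw [tower_U]
      rintro ⟨k, hk, hxk, -⟩
      exact hx k hk hxk
    show (tower h s).G x = _
    rw [(tower h s).G_eq hx1]
    exact TT_off hx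
  · intro k x hk hxk
    show (tower h s).G x = Aki (ε s) (N (s + 1)) k ((tower h (s + 1)).G (Ak (ε s) (N (s + 1)) k x))
    by_cases hx : x ∈ KK ε N s
    · have h2 := KK_child h.h0 hxk hx
      rw [← tower_K h] at hx h2
      rw [(tower h s).G_K hx, (tower h (s + 1)).G_K h2, Aki_Ak (h.h1 s)]
    · have : ∃ n, x ∉ Cset ε N s n := by simpa [KK] using hx
      obtain ⟨n, hn⟩ := this
      have hn1 : x ∉ (tower h s).U (n + 1) := by
        intro h'
        have := (tower h s).U_anti (Nat.le_succ n) h'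
        rw [tower_U] at this
        exact hn this
      have hn2 : Ak (ε s) (N (s + 1)) k x ∉ (tower h (s + 1)).U n := by
        intro h'
        apply hn1
        rw [tower_U] at h' ⊢
        exact ⟨k, hk, hxk, h'⟩
      rw [(tower h s).G_eq hn1, (tower h (s + 1)).G_eq hn2]
      exact TT_child h.h0 hk hxk
  · intro x hx
    rw [← tower_K h] at hx
    exact (tower h s).G_K hx
  · intro x hx
    have : ∃ n, x ∉ Cset ε N s n := by simpa [KK] using hx
    obtain ⟨n, hn⟩ := this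
    obtain ⟨L, hL⟩ := TT_lip h n s
    refine ⟨(Cset ε N s n)ᶜ, (isClosed_Cset n s).isOpen_compl.mem_nhds hn, L, ?_⟩
    have heq : Set.EqOn (tower h s).G (TT ε N G D n s) (Cset ε N s n)ᶜ := by
      intro y hy
      refine (tower h s).G_eq (n := n) ?_
      rw [tower_U]
      exact hy
    intro y hy z hz
    show edist ((tower h s).G y) ((tower h s).G z) ≤ _
    rw [heq hy, heq hz]
    exact hL y z

end Pool.Agent.ZZ
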