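import Mathlib
import Pool.Agent.ZZ.Defs2

set_option autoImplicit false
open Set Filter Topology MeasureTheory
open scoped NNReal

namespace Pool.Agent.ZZ

theorem isClosed_PB (N : ℕ) : IsClosed (PB N) := by
  have h0 : Continuous fun x : E => x 0 := continuous_apply 0
  have h1 : Continuous fun x : E => |x 1| := (continuous_apply 1).abs
  have h2 : Continuous fun x : E => |x 2| := (continuous_apply 2).abs
  unfold PB
  exact (isClosed_le continuous_const h0).inter ((isClosed_le h0 continuous_const).inter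
    ((isClosed_le h1 continuous_const).inter (isClosed_le h2 continuous_const)))

theorem isClosed_CB (ε : ℝ) (k : ℕ) : IsClosed (CB ε k) := by
  have h0 : Continuous fun x : E => |x 0 - k| := ((continuous_apply 0).sub continuous_const).abs
  have h1 : Continuous fun x : E => |x 1| := (continuous_apply 1).abs
  have h2 : Continuous fun x : E => |x 2| := (continuous_apply 2).abs
  unfold CB
  exact (isClosed_le h0 continuous_const).inter
    ((isClosed_le h1 continuous_const).inter (isClosed_le h2 continuous_const))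

theorem continuous_Ak (ε : ℝ) (N' k : ℕ) : Continuous (Ak ε N' k) := by
  refine continuous_pi fun i => ?_
  fin_cases i
  · simp only [Ak]
    exact ((continuous_apply 1).mul continuous_const).add continuous_const
  · simp only [Ak]
    exact (continuous_apply 2).div_const _
  · simp only [Ak]
    exact ((continuous_apply 0).sub continuous_const).div_const _

theorem Cset_succ (ε : ℕ → ℝ) (N : ℕ → ℕ) (s n : ℕ) :
    Cset ε N s (n + 1) = ⋃ k ∈ Finset.Icc 2 (N s - 1),
      (CB (ε s) k ∩ Ak (ε s) (N (s + 1)) k ⁻¹' Cset ε N (s + 1) n) := by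
  ext x
  simp only [Cset, mem_ofPred_eq, mem_iUnion, Finset.mem_Icc, mem_inter_iff, mem_preimage,
    exists_prop, Ad]
  constructor
  · rintro ⟨k, ⟨h1, h2⟩, h3, h4⟩
    exact ⟨k, ⟨h1, by omega⟩, h3, h4⟩
  · rintro ⟨k, ⟨h1, h2⟩, h3, h4⟩
    exact ⟨k, ⟨h1, by omega⟩, h3, h4⟩

theorem isClosed_Cset (ε : ℕ → ℝ) (N : ℕ → ℕ) (n : ℕ) : ∀ s, IsClosed (Cset ε N s n) := by
  induction n with
  | zero => exact fun s => isClosed_PB _
  | succ n ih =>
    intro s
    rw [Cset_succ]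
    refine Set.Finite.isClosed_biUnion (Finset.finite_toSet _) fun k _ => ?_
    exact (isClosed_CB _ _).inter ((ih (s + 1)).preimage (continuous_Ak _ _ _))

theorem PB_isCompact (N : ℕ) : IsCompact (PB N) := by
  have h : PB N ⊆ Set.pi univ (fun _ : Fin 3 => Icc (-1 : ℝ) (N + 2)) := by
    intro x hx i _
    obtain ⟨h0, h0', h1, h2⟩ := hx
    have hN : (0 : ℝ) ≤ N := Nat.cast_nonneg N
    rw [abs_le] at h1 h2
    fin_cases i
    · exact ⟨h0, h0'⟩
    · exact ⟨h1.1, by simpa using by linarith [h1.2]⟩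
    · exact ⟨h2.1, by simpa using by linarith [h2.2]⟩
  exact (isCompact_univ_pi fun _ => isCompact_Icc).of_isClosed_subset (isClosed_PB N) h

--@ partB2
theorem KK_compact (ε : ℕ → ℝ) (N : ℕ → ℕ) (_hN : ∀ s, 4 ≤ N s) (_h0 : ∀ s, 0 < ε s)
    (_h1 : ∀ s, ε s ≤ 1 / 4) (s : ℕ) : IsCompact (KK ε N s) := by
  refine (PB_isCompact (N s)).of_isClosed_subset (isClosed_iInter fun n => isClosed_Cset ε N n s) ?_
  exact fun x hx => mem_iInter.1 hx 0

theorem KK_sub (ε : ℕ → ℝ) (N : ℕ → ℕ) (_hN : ∀ s, 4 ≤ N s) (h0 : ∀ s, 0 < ε s)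
    (_h1 : ∀ s, ε s ≤ 1 / 4) (s : ℕ) :
    KK ε N s ⊆ {x | -1 < x 0 ∧ x 0 < N s + 2 ∧ |x 1| < 1 ∧ |x 2| < 1} := by
  intro x hx
  have h := mem_iInter.1 hx 1
  obtain ⟨k, ⟨hk1, hk2⟩, hkC, -⟩ := h
  obtain ⟨ha, hb, hc⟩ := hkC
  have e0 := h0 s
  rw [abs_le] at ha
  have hk1' : (2 : ℝ) ≤ k := by exact_mod_cast hk1
  have hk2' : (k : ℝ) + 1 ≤ N s := by exact_mod_cast hk2
  simp only [fh, cf, wd] at ha hb
  refine ⟨by linarith [ha.1], by linarith [ha.2], by linarith, by linarith⟩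

theorem Ak_mem_PB {ε : ℝ} (h0 : 0 < ε) (h1 : ε ≤ 1 / 4) (N' k : ℕ) (x : E) :
    Ak ε N' k x ∈ PB N' ↔ x ∈ CB ε k := by
  have hN : (0 : ℝ) ≤ N' := Nat.cast_nonneg N'
  have hcf : 0 < cf ε := by simp only [cf, wd]; linarith
  have hfh : 0 < fh ε := by simp only [fh]; linarith
  have he : 0 < 1 - ε := by linarith
  have hA : 0 < ((N' : ℝ) + 3) / (2 * cf ε) := by positivity
  have key : ((N' : ℝ) + 3) / (2 * cf ε) * cf ε = (N' + 3) / 2 := by
    field_simp
  simp only [PB, CB, Ak, mem_ofPred_eq, Matrix.cons_val_zero, Matrix.cons_val_one,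
    Matrix.cons_val, abs_div, abs_of_pos he, abs_of_pos hfh]
  rw [div_le_one he, div_le_one hfh, abs_le (b := cf ε)]
  constructor
  · rintro ⟨a1, a2, a3, a4⟩
    refine ⟨a4, ⟨?_, ?_⟩, a3⟩
    · by_contra hlt
      push Not at hlt
      have := mul_lt_mul_of_pos_right hlt hA
      nlinarith
    · by_contra hlt
      push Not at hlt
      have := mul_lt_mul_of_pos_right hlt hA
      nlinarith
  · rintro ⟨a1, ⟨a2, a3⟩, a4⟩
    refine ⟨?_, ?_, a4, a1⟩
    · have := mul_le_mul_of_nonneg_right a2 hA.le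
      nlinarith
    · have := mul_le_mul_of_nonneg_right a3 hA.le
      nlinarith

theorem CB_subset_PB {ε : ℝ} (h0 : 0 < ε) {N k : ℕ} (hk : Ad N k) : CB ε k ⊆ PB N := by
  rintro x ⟨ha, hb, hc⟩
  obtain ⟨hk1, hk2⟩ := hk
  rw [abs_le] at ha
  have hk1' : (2 : ℝ) ≤ k := by exact_mod_cast hk1
  have hk2' : (k : ℝ) + 1 ≤ N := by exact_mod_cast hk2
  simp only [fh, cf, wd] at ha hb
  exact ⟨by linarith [ha.1], by linarith [ha.2], by linarith, by linarith⟩

theorem Cset_subset_PB (ε : ℕ → ℝ) (N : ℕ → ℕ) (h0 : ∀ s, 0 < ε s) (n s : ℕ) :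
    Cset ε N s n ⊆ PB (N s) := by
  cases n with
  | zero => exact Subset.rfl
  | succ n =>
    rintro x ⟨k, hk, hx, -⟩
    exact CB_subset_PB (h0 s) hk hx

theorem Cset_anti (ε : ℕ → ℝ) (N : ℕ → ℕ) (h0 : ∀ s, 0 < ε s) (n : ℕ) :
    ∀ s, Cset ε N s (n + 1) ⊆ Cset ε N s n := by
  induction n with
  | zero => exact fun s => Cset_subset_PB ε N h0 1 s
  | succ n ih =>
    rintro s x ⟨k, hk, hx, hx'⟩
    exact ⟨k, hk, hx, ih (s + 1) hx'⟩

theorem volume_Ak_preimage {ε : ℝ} (h0 : 0 < ε) (h1 : ε ≤ 1 / 4) (N' k : ℕ) (S : Set E) :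
    volume (Ak ε N' k ⁻¹' S) =
      ENNReal.ofReal (2 * cf ε * (1 - ε) * fh ε / (N' + 3)) * volume S := by
  have hN : (0 : ℝ) ≤ N' := Nat.cast_nonneg N'
  have hcf : 0 < cf ε := by simp only [cf, wd]; linarith
  have hfh : 0 < fh ε := by simp only [fh]; linarith
  have he : 0 < 1 - ε := by linarith
  set a : ℝ := ((N' : ℝ) + 3) / (2 * cf ε) with ha
  have hapos : 0 < a := by positivity
  set M : Matrix (Fin 3) (Fin 3) ℝ := !![0, a, 0; 0, 0, 1 / (1 - ε); 1 / fh ε, 0, 0] with hM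
  have hdet : M.det = a * (1 / (1 - ε)) * (1 / fh ε) := by
    rw [hM, Matrix.det_fin_three]
    simp
  have hdetpos : 0 < M.det := by rw [hdet]; positivity
  set b : E := ![((N' : ℝ) + 1) / 2, 0, - (k / fh ε)] with hb
  have hAk : Ak ε N' k = (fun y => y + b) ∘ (Matrix.toLin' M) := by
    funext x
    ext i
    fin_cases i
    · simp [Ak, hM, hb, Matrix.toLin'_apply, Matrix.mulVec, Matrix.vecHead, Matrix.vecTail, ha]
      ring
    · simp [Ak, hM, hb, Matrix.toLin'_apply, Matrix.mulVec, Matrix.vecHead, Matrix.vecTail]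
      ring
    · simp [Ak, hM, hb, Matrix.toLin'_apply, Matrix.mulVec, Matrix.vecHead, Matrix.vecTail]
      ring
  rw [hAk, preimage_comp]
  rw [Measure.addHaar_preimage_linearMap volume (f := Matrix.toLin' M)
    (by rw [LinearMap.det_toLin']; exact hdetpos.ne')]
  rw [measure_preimage_add_right, LinearMap.det_toLin', hdet]
  congr 2
  rw [abs_of_pos (by positivity), ha]
  field_simp


theorem CB_disjoint {ε : ℝ} (h0 : 0 < ε) {k l : ℕ} (hkl : k ≠ l) :
    Disjoint (CB ε k) (CB ε l) := by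
  rw [Set.disjoint_left]
  rintro x ⟨hk, -⟩ ⟨hl, -⟩
  rw [abs_le] at hk hl
  simp only [fh] at hk hl
  rcases Nat.lt_or_gt_of_ne hkl with h | h
  · have : (k : ℝ) + 1 ≤ l := by exact_mod_cast h
    linarith [hk.2, hl.1]
  · have : (l : ℝ) + 1 ≤ k := by exact_mod_cast h
    linarith [hl.2, hk.1]

theorem volume_Cset_succ (ε : ℕ → ℝ) (N : ℕ → ℕ) (h0 : ∀ s, 0 < ε s) (h1 : ∀ s, ε s ≤ 1 / 4)
    (s n : ℕ) :
    volume (Cset ε N s (n + 1)) = (Finset.Icc 2 (N s - 1)).card •
      (ENNReal.ofReal (2 * cf (ε s) * (1 - ε s) * fh (ε s) / (N (s + 1) + 3)) *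
        volume (Cset ε N (s + 1) n)) := by
  rw [Cset_succ, measure_biUnion_finset]
  · rw [Finset.sum_congr rfl (fun k _ => ?_), Finset.sum_const]
    rw [← volume_Ak_preimage (h0 s) (h1 s) (N (s + 1)) k]
    congr 1
    refine Set.inter_eq_right.2 fun x hx => ?_
    exact (Ak_mem_PB (h0 s) (h1 s) (N (s + 1)) k x).1 (Cset_subset_PB ε N h0 n (s + 1) hx)
  · intro k _ l _ hkl
    exact (CB_disjoint (h0 s) hkl).mono inter_subset_left inter_subset_left
  · intro k _
    exact ((isClosed_CB _ _).inter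
      ((isClosed_Cset ε N n (s + 1)).preimage (continuous_Ak _ _ _))).measurableSet

theorem PB_eq_pi (N : ℕ) : PB N =
    Set.Icc (![-1, -1, -1] : E) (![(N : ℝ) + 2, 1, 1] : E) := by
  ext x
  simp only [PB, mem_ofPred_eq, mem_Icc, Pi.le_def, Fin.forall_fin_succ, Matrix.cons_val_zero,
    abs_le]
  simp
  tauto

theorem volume_PB (N : ℕ) : volume (PB N) = ENNReal.ofReal (4 * (N + 3)) := by
  rw [PB_eq_pi, Real.volume_Icc_pi]
  rw [Fin.prod_univ_three]
  simp only [Matrix.cons_val_zero, Matrix.cons_val_one, Matrix.cons_val]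
  have hN : (0 : ℝ) ≤ N := Nat.cast_nonneg N
  rw [← ENNReal.ofReal_mul (by linarith), ← ENNReal.ofReal_mul (by nlinarith)]
  congr 1
  ring

theorem factor_bound {e : ℝ} (h0 : 0 < e) (h1 : e ≤ 1 / 4) {N : ℝ} (hN : 8 / e ≤ N) :
    Real.exp (-8 * e) * (4 * (N + 3)) ≤
      (N - 2) * (2 * cf e * (1 - e) * fh e * 4) := by
  have hN' : 8 ≤ N * e := by rwa [div_le_iff₀ h0] at hN
  have hNpos : 0 < N := by
    by_contra h
    push Not at h
    nlinarith
  -- exp (-2 e) ≤ 1 - e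
  have hexp : Real.exp (-2 * e) ≤ 1 - e := by
    have h2 : 1 / (1 - e) ≤ Real.exp (2 * e) := by
      have h3 : 1 / (1 - e) ≤ 2 * e + 1 := by
        rw [div_le_iff₀ (by linarith)]
        nlinarith
      exact h3.trans (Real.add_one_le_exp _)
    have h4 : Real.exp (-2 * e) = (Real.exp (2 * e))⁻¹ := by
      rw [← Real.exp_neg]
      congr 1
      ring
    rw [h4]
    rw [div_le_iff₀ (by linarith)] at h2
    rw [inv_le_iff_one_le_mul₀ (Real.exp_pos _)]
    linarith
  have hpos : 0 < Real.exp (-2 * e) := Real.exp_pos _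
  have h8 : Real.exp (-8 * e) = Real.exp (-2 * e) ^ 4 := by
    rw [← Real.exp_nat_mul]
    congr 1
    push_cast
    ring
  have h5 : Real.exp (-8 * e) ≤ (1 - e) ^ 4 := by
    rw [h8]
    exact pow_le_pow_left₀ hpos.le hexp 4
  have h6 : (1 - e) * (N + 3) ≤ N - 2 := by nlinarith
  have hcf : 1 - e ≤ cf e := by simp only [cf, wd]; linarith
  have he : 0 < 1 - e := by linarith
  have h7 : (1 - e) ^ 2 * (1 - e) * (1 - e) * (N + 3) ≤ cf e * (1 - e) * (1 - e) * (N - 2) := by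
    have hA : (1 - e) * ((1 - e) * (N + 3)) ≤ cf e * (N - 2) := by
      apply mul_le_mul hcf h6 (by positivity) (by linarith)
    have := mul_le_mul_of_nonneg_left hA (by positivity : 0 ≤ (1 - e) * (1 - e))
    nlinarith
  calc Real.exp (-8 * e) * (4 * (N + 3)) ≤ (1 - e) ^ 4 * (4 * (N + 3)) :=
        mul_le_mul_of_nonneg_right h5 (by positivity)
    _ = 4 * ((1 - e) ^ 2 * (1 - e) * (1 - e) * (N + 3)) := by ring
    _ ≤ 4 * (cf e * (1 - e) * (1 - e) * (N - 2)) := by linarith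
    _ = (N - 2) * (2 * cf e * (1 - e) * fh e * 4) := by simp only [fh]; ring

theorem volume_Cset_ge (ε : ℕ → ℝ) (N : ℕ → ℕ) (h0 : ∀ s, 0 < ε s) (h1 : ∀ s, ε s ≤ 1 / 4)
    (hN : ∀ s, 8 / ε s ≤ N s) (n : ℕ) : ∀ s,
    ENNReal.ofReal (Real.exp (-8 * ∑ i ∈ Finset.range n, ε (s + i)) * (4 * (N s + 3))) ≤
      volume (Cset ε N s n) := by
  induction n with
  | zero =>
    intro s
    simp only [Finset.range_zero, Finset.sum_empty, mul_zero, Real.exp_zero, one_mul]
    exact (volume_PB (N s)).ge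
  | succ n ih =>
    intro s
    have hN32 : (32 : ℝ) ≤ N s := by
      refine le_trans ?_ (hN s)
      rw [le_div_iff₀ (h0 s)]
      linarith [h1 s]
    have hN32' : 32 ≤ N s := by exact_mod_cast hN32
    have hNs1 : (0 : ℝ) ≤ N (s + 1) := Nat.cast_nonneg _
    have hcf : 0 < cf (ε s) := by simp only [cf, wd]; linarith [h1 s, h0 s]
    have hfh : 0 < fh (ε s) := by simp only [fh]; linarith [h1 s]
    have he : 0 < 1 - ε s := by linarith [h1 s]
    rw [volume_Cset_succ ε N h0 h1]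
    have hcard : (Finset.Icc 2 (N s - 1)).card = N s - 2 := by
      rw [Nat.card_Icc]; omega
    rw [hcard, nsmul_eq_mul]
    have hc1 : ((N s - 2 : ℕ) : ENNReal) = ENNReal.ofReal ((N s : ℝ) - 2) := by
      rw [← ENNReal.ofReal_natCast, Nat.cast_sub (by omega)]
      norm_num
    rw [hc1]
    calc ENNReal.ofReal (Real.exp (-8 * ∑ i ∈ Finset.range (n + 1), ε (s + i)) * (4 * (N s + 3)))
        ≤ ENNReal.ofReal (((N s : ℝ) - 2) *
            ((2 * cf (ε s) * (1 - ε s) * fh (ε s) / (N (s + 1) + 3)) *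
              (Real.exp (-8 * ∑ i ∈ Finset.range n, ε (s + 1 + i)) * (4 * (N (s + 1) + 3))))) := by
          apply ENNReal.ofReal_le_ofReal
          have hsum : ∑ i ∈ Finset.range (n + 1), ε (s + i) =
              ε s + ∑ i ∈ Finset.range n, ε (s + 1 + i) := by
            rw [Finset.sum_range_succ']
            simp only [add_zero]
            rw [add_comm]
            congr 1
            refine Finset.sum_congr rfl fun i _ => ?_
            congr 1
            ring
          rw [hsum, mul_add, Real.exp_add]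
          have := mul_le_mul_of_nonneg_left (factor_bound (h0 s) (h1 s) (hN s))
            (Real.exp_pos (-8 * ∑ i ∈ Finset.range n, ε (s + 1 + i))).le
          have e1 : ((N s : ℝ) - 2) *
            ((2 * cf (ε s) * (1 - ε s) * fh (ε s) / (N (s + 1) + 3)) *
              (Real.exp (-8 * ∑ i ∈ Finset.range n, ε (s + 1 + i)) * (4 * (N (s + 1) + 3)))) =
              Real.exp (-8 * ∑ i ∈ Finset.range n, ε (s + 1 + i)) *
                (((N s : ℝ) - 2) * (2 * cf (ε s) * (1 - ε s) * fh (ε s) * 4)) := by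
            field_simp
          rw [e1]
          linarith
      _ = ENNReal.ofReal ((N s : ℝ) - 2) *
            (ENNReal.ofReal (2 * cf (ε s) * (1 - ε s) * fh (ε s) / (N (s + 1) + 3)) *
              ENNReal.ofReal (Real.exp (-8 * ∑ i ∈ Finset.range n, ε (s + 1 + i)) *
                (4 * (N (s + 1) + 3)))) := by
          rw [ENNReal.ofReal_mul (by linarith), ENNReal.ofReal_mul (by positivity)]
      _ ≤ _ := by
          gcongr
          exact ih (s + 1)

/-- fatness: `vol (cell_n) = vol (PB) * ∏ ((N-2)/(N+3)) (1-ε)^2 (1-ε/2)` -/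
theorem KK_pos (ε : ℕ → ℝ) (N : ℕ → ℕ) (h0 : ∀ s, 0 < ε s) (h1 : ∀ s, ε s ≤ 1 / 4)
    (hε : Summable ε) (hN : ∀ s, 8 / ε s ≤ N s) : 0 < volume (KK ε N 0) := by
  have hanti : Antitone (Cset ε N 0) :=
    antitone_nat_of_succ_le fun n => Cset_anti ε N h0 n 0
  have hfin : ∃ i, volume (Cset ε N 0 i) ≠ ⊤ :=
    ⟨0, (PB_isCompact (N 0)).measure_lt_top.ne⟩
  unfold KK
  rw [hanti.measure_iInter (fun n => (isClosed_Cset ε N n 0).measurableSet.nullMeasurableSet) hfin]
  refine lt_of_lt_of_le ?_ (le_iInf fun n => ?_) (b := ENNReal.ofReal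
    (Real.exp (-8 * ∑' i, ε i) * (4 * (N 0 + 3))))
  · rw [ENNReal.ofReal_pos]
    have : (0 : ℝ) ≤ N 0 := Nat.cast_nonneg _
    positivity
  · refine le_trans (ENNReal.ofReal_le_ofReal ?_) (volume_Cset_ge ε N h0 h1 hN n 0)
    have hN0 : (0 : ℝ) ≤ N 0 := Nat.cast_nonneg _
    refine mul_le_mul_of_nonneg_right (Real.exp_le_exp.2 ?_) (by positivity)
    have : ∑ i ∈ Finset.range n, ε (0 + i) ≤ ∑' i, ε i := by
      simp only [zero_add]
      exact hε.sum_le_tsum _ fun i _ => (h0 i).le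
    linarith

end Pool.Agent.ZZ
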