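import Pool.Agent.ZZ.Defs2

set_option autoImplicit false
open Set Filter Topology MeasureTheory
open scoped NNReal

namespace Pool.Agent.ZZ

/-- bound for a line derivative from an estimate along the line -/
theorem lineDeriv_abs_le {f : E → ℝ} {x v : E} {K : ℝ} (hK : 0 ≤ K)
    (h : ∀ᶠ t in 𝓝 (0 : ℝ), |f (x + t • v) - f x| ≤ K * |t|) : |lineDeriv ℝ f x v| ≤ K := by
  unfold lineDeriv
  have := norm_deriv_le_of_lip' (f := fun t : ℝ => f (x + t • v)) (x₀ := (0 : ℝ)) hK (by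
    filter_upwards [h] with t ht
    simpa using ht)
  simpa using this

/-- `XX ρ` is locally Lipschitz with constant the essential supremum of `ρ` on the segment -/
theorem XX_sub_le {ρ : ℝ → ℝ} (hm : Measurable ρ) (hp : ∀ x, 0 < ρ x) (h1 : ∀ x, ρ x ≤ 1)
    {a b δ : ℝ} (hδ : ∀ᵐ t, t ∈ uIoc a b → ρ t ≤ δ) : |XX ρ b - XX ρ a| ≤ δ * |b - a| := by
  have hi : ∀ c d : ℝ, IntervalIntegrable ρ volume c d := by
    intro c d
    apply IntervalIntegrable.mono_fun (g := ρ) (f := fun _ => (1 : ℝ)) intervalIntegrable_const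
    · exact hm.aestronglyMeasurable
    · exact Eventually.of_forall fun t => by
        simp only [Real.norm_eq_abs, abs_one]
        rw [abs_of_pos (hp t)]; exact h1 t
  have : XX ρ b - XX ρ a = ∫ t in a..b, ρ t := by
    unfold XX
    rw [intervalIntegral.integral_interval_sub_left (hi _ _) (hi _ _)]
  rw [this]
  have := intervalIntegral.norm_integral_le_of_norm_le_const_ae (a := a) (b := b) (f := ρ) (C := δ)
    (by
      filter_upwards [hδ] with t ht ht2
      rw [Real.norm_eq_abs, abs_of_pos (hp t)]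
      exact ht ht2)
  simpa using this

theorem XX_lip {ρ : ℝ → ℝ} (hm : Measurable ρ) (hp : ∀ x, 0 < ρ x) (h1 : ∀ x, ρ x ≤ 1)
    (a b : ℝ) : |XX ρ b - XX ρ a| ≤ |b - a| := by
  have := XX_sub_le hm hp h1 (a := a) (b := b) (δ := 1) (Eventually.of_forall fun t _ => h1 t)
  simpa using this

theorem ae_notMem_coord {T : Set ℝ} (hT : T.Countable) (i : Fin 3) : ∀ᵐ x : E, x i ∉ T := by
  have : {x : E | ¬ x i ∉ T} = ⋃ c ∈ T, {x : E | x i = c} := by
    ext x; simp
  rw [ae_iff, this, measure_biUnion_null_iff hT]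
  intro c _
  rw [volume_pi]
  exact Measure.pi_hyperplane (fun _ : Fin 3 => (volume : Measure ℝ)) i c

theorem cf_pos {ε : ℝ} (h0 : 0 < ε) (h1 : ε ≤ 1 / 4) : 0 < cf ε ∧ cf ε < 1 := by
  unfold cf wd; constructor <;> linarith

theorem fh_pos {ε : ℝ} (h0 : 0 < ε) (h1 : ε ≤ 1 / 4) : 0 < fh ε ∧ fh ε < 1 / 2 := by
  unfold fh; constructor <;> linarith

theorem S1_lt {ε ε' : ℝ} (h0 : 0 < ε) (h1 : ε ≤ 1 / 4) (h0' : 0 < ε') (h1' : ε' ≤ 1 / 4) {N' : ℕ}
    (hN' : 4 ≤ N') {y : ℝ} (hy : y ∈ S1 ε ε' N') : |y| < cf ε := by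
  obtain ⟨k, ⟨hk2, hk1⟩, hk⟩ := hy
  have hc := (cf_pos h0 h1).1
  have hf := (fh_pos h0' h1').2
  have hN4 : (4 : ℝ) ≤ N' := by exact_mod_cast hN'
  have hk2' : (2 : ℝ) ≤ k := by exact_mod_cast hk2
  have hk1' : (k : ℝ) + 1 ≤ N' := by exact_mod_cast hk1
  have hA : 0 < ((N' : ℝ) + 3) / (2 * cf ε) := by positivity
  have h2 : |y * (((N' : ℝ) + 3) / (2 * cf ε))| ≤ (N' - 2) / 2 := by
    rw [abs_le] at hk ⊢
    constructor <;> linarith [hk.1, hk.2]
  rw [abs_mul, abs_of_pos hA] at h2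
  have h3 : cf ε * (((N' : ℝ) + 3) / (2 * cf ε)) = (N' + 3) / 2 := by
    field_simp
  by_contra hcon
  push Not at hcon
  have : cf ε * (((N' : ℝ) + 3) / (2 * cf ε)) ≤ |y| * (((N' : ℝ) + 3) / (2 * cf ε)) :=
    mul_le_mul_of_nonneg_right hcon hA.le
  linarith

theorem single_apply_add (x : E) (t : ℝ) (j k : Fin 3) :
    (x + t • (Pi.single j (1 : ℝ) : E)) k = x k + if k = j then t else 0 := by
  by_cases h : k = j
  · subst h; simp
  · simp [h]


/-- product of densities off one coordinate is at most the value at any other coordinate -/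
theorem prod_le {ρ : Fin 3 → ℝ → ℝ} (hρ : Dens ρ) (j : Fin 3) (u : E) :
    0 ≤ ∏ k ∈ Finset.univ.erase j, ρ k (u k) ∧ ∏ k ∈ Finset.univ.erase j, ρ k (u k) ≤ 1 := by
  constructor
  · exact Finset.prod_nonneg fun k _ => (hρ.2.1 k _).le
  · exact Finset.prod_le_one (fun k _ => (hρ.2.1 k _).le) (fun k _ => hρ.2.2.1 k _)

theorem prod_le' {ρ : Fin 3 → ℝ → ℝ} (hρ : Dens ρ) {j k : Fin 3} (hk : k ≠ j) (u : E) :
    ∏ k ∈ Finset.univ.erase j, ρ k (u k) ≤ ρ k (u k) := by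
  have hmem : k ∈ Finset.univ.erase j := Finset.mem_erase.2 ⟨hk, Finset.mem_univ _⟩
  rw [← Finset.mul_prod_erase _ _ hmem]
  calc ρ k (u k) * ∏ l ∈ (Finset.univ.erase j).erase k, ρ l (u l) ≤ ρ k (u k) * 1 :=
        mul_le_mul_of_nonneg_left
          (Finset.prod_le_one (fun k _ => (hρ.2.1 k _).le) (fun k _ => hρ.2.2.1 k _)) (hρ.2.1 k _).le
    _ = ρ k (u k) := mul_one _

theorem en_le_of {ρ : Fin 3 → ℝ → ℝ} {D : E → E} {i j : Fin 3} {u : E} {a b c : ℝ}
    (ha : 0 ≤ a) (hρ : Dens ρ)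
    (h1 : |lineDeriv ℝ (fun u => XX (ρ i) (D u i)) u (Pi.single j 1)| ≤ a)
    (h2 : ∏ k ∈ Finset.univ.erase j, ρ k (u k) ≤ b) (h3 : a * b ≤ c) :
    en ρ D i j u ≤ ENNReal.ofReal c := by
  unfold en
  apply ENNReal.ofReal_le_ofReal
  calc _ ≤ a * b := mul_le_mul h1 h2 (prod_le hρ j u).1 ha
    _ ≤ c := h3

theorem deriv_le_L {ε ε' : ℝ} {N N' : ℕ} {D : E → E} {C L : ℝ} (hL : 1 ≤ L)
    (h : StageE ε ε' N N' D C L) {ρ : Fin 3 → ℝ → ℝ} (hρ : Dens ρ) (i j : Fin 3) (u : E) :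
    |lineDeriv ℝ (fun u => XX (ρ i) (D u i)) u (Pi.single j 1)| ≤ L := by
  apply lineDeriv_abs_le (by linarith)
  refine Eventually.of_forall fun t => ?_
  calc _ ≤ |D (u + t • (Pi.single j (1 : ℝ) : E)) i - D u i| := XX_lip (hρ.1 i) (hρ.2.1 i) (hρ.2.2.1 i) _ _
    _ ≤ dist (D (u + t • (Pi.single j (1 : ℝ) : E))) (D u) := by
        rw [← Real.dist_eq]; exact dist_le_pi_dist _ _ i
    _ ≤ L * dist (u + t • (Pi.single j (1 : ℝ) : E)) u := h.lip _ _
    _ = L * |t| := by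
        congr 1
        rw [dist_eq_norm]
        simp [norm_smul, Pi.norm_single]


theorem ev_small {η : ℝ} (hη : 0 < η) : ∀ᶠ t in 𝓝 (0 : ℝ), |t| < η := by
  filter_upwards [Metric.ball_mem_nhds (0 : ℝ) hη] with t ht
  simpa using ht

theorem between {a t s : ℝ} (hs : s ∈ uIoc a (a + t)) : |s - a| ≤ |t| := by
  rw [mem_uIoc] at hs
  rcases hs with ⟨h1, h2⟩ | ⟨h1, h2⟩
  · rw [abs_of_pos (by linarith : 0 < s - a)]
    exact le_trans (by linarith) (le_abs_self t)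
  · rw [abs_of_nonpos (by linarith : s - a ≤ 0)]
    exact le_trans (by linarith) (neg_le_abs t)

section cases
variable {ε ε' : ℝ} {N N' : ℕ} {D : E → E} {C L δ : ℝ} {ρ : Fin 3 → ℝ → ℝ}

theorem case_two (h0 : 0 < ε) (h1 : ε ≤ 1 / 4) (h0' : 0 < ε') (h1' : ε' ≤ 1 / 4)
    (h : StageE ε ε' N N' D C L) (hδ : 0 < δ) (hρ : Dens ρ) (hs : Small ε ε' N N' δ ρ)
    (i : Fin 3) {u : E} (hu : u ∈ PB N) (h2 : |u 2| < 1) (h2' : 1 - ε < |u 2|)
    {k : ℕ} (hk : Ad N k) (hk0 : |u 0 - k| ≤ (1 - ε') * fh ε) (hu1 : |u 1| ≤ cf ε) :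
    |lineDeriv ℝ (fun u => XX (ρ i) (D u i)) u (Pi.single 2 1)| ≤ δ := by
  apply lineDeriv_abs_le hδ.le
  have hη : 0 < min (|u 2| - (1 - ε)) (1 - |u 2|) := lt_min (by linarith) (by linarith)
  filter_upwards [ev_small hη] with t ht
  have ht1 := lt_of_lt_of_le ht (min_le_left _ _)
  have ht2 := lt_of_lt_of_le ht (min_le_right _ _)
  have key : ∀ s : ℝ, |s - u 2| ≤ |t| → 1 - ε < |s| ∧ |s| < 1 := by
    intro s hs
    have a1 : |u 2| ≤ |s| + |s - u 2| := by
      have := abs_sub_abs_le_abs_sub (u 2) s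
      rw [abs_sub_comm] at this; linarith
    have a2 : |s| ≤ |u 2| + |s - u 2| := by
      have := abs_sub_abs_le_abs_sub s (u 2)
      linarith
    constructor <;> linarith
  have hD : ∀ r : ℝ, |r| ≤ |t| → D (u + r • (Pi.single 2 (1 : ℝ) : E)) = ![2 * k - u 0, u 1, u 2 + r] := by
    intro r hr
    have hk2 := key (u 2 + r) (by simpa using hr)
    have e0 := single_apply_add u r 2 0
    have e1 := single_apply_add u r 2 1
    have e2 := single_apply_add u r 2 2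
    simp only [Fin.reduceEq, if_false, if_true, add_zero, reduceIte] at e0 e1 e2
    have hm : (u + r • (Pi.single 2 (1 : ℝ) : E)) ∈ PB N := by
      refine ⟨?_, ?_, ?_, ?_⟩
      · rw [e0]; exact hu.1
      · rw [e0]; exact hu.2.1
      · rw [e1]; exact hu.2.2.1
      · rw [e2]; exact hk2.2.le
    have := h.B3 _ hm (by rw [e2]; exact hk2.1) k hk (by rw [e0]; exact hk0) (by rw [e1]; exact hu1)
    rw [this, e0, e1, e2]
  have hDt := hD t le_rfl
  have hD0 := hD 0 (by simp)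
  simp only [zero_smul, add_zero] at hD0
  show |XX (ρ i) (D (u + t • (Pi.single 2 (1 : ℝ) : E)) i) - XX (ρ i) (D u i)| ≤ δ * |t|
  rw [hDt, hD0]
  have hnn : 0 ≤ δ * |t| := by positivity
  fin_cases i
  · simpa using hnn
  · simpa using hnn
  · show |XX (ρ 2) (u 2 + t) - XX (ρ 2) (u 2)| ≤ δ * |t|
    have := XX_sub_le (hρ.1 2) (hρ.2.1 2) (hρ.2.2.1 2) (a := u 2) (b := u 2 + t) (δ := δ)
      (Eventually.of_forall fun s hs' => by
        have hk2 := key s (between hs')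
        apply hs.2.2 s hk2.2
        intro hcon
        have hc := (cf_pos h0' h1').2
        have : (1 - ε) * cf ε' ≤ 1 - ε := by nlinarith
        exact absurd (le_trans hcon this) (not_le.2 hk2.1))
    simpa using this


theorem comp_le (hρ : Dens ρ) (i : Fin 3) (x y : E) :
    |XX (ρ i) (D x i) - XX (ρ i) (D y i)| ≤ dist (D x) (D y) :=
  (XX_lip (hρ.1 i) (hρ.2.1 i) (hρ.2.2.1 i) _ _).trans (by
    rw [← Real.dist_eq]; exact dist_le_pi_dist _ _ i)

/-- mid collar, `i ≠ 1` -/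
theorem case_one_ne (hC : 1 ≤ C)
    (h : StageE ε ε' N N' D C L) (hρ : Dens ρ)
    (i : Fin 3) {u : E} (hu : u ∈ PB N) (h00 : 1 / 2 < u 0) (h01 : u 0 < N + 1 / 2)
    (hu1 : cf ε < |u 1|) (hu2 : |u 2| < 1 - ε) :
    |lineDeriv ℝ (fun u => XX (ρ i) (D u i)) u (Pi.single 1 1)| ≤ C := by
  apply lineDeriv_abs_le (by linarith)
  filter_upwards [(h.B2 u hu h00 h01 hu1 hu2).2.2] with t ht
  exact (comp_le hρ i _ _).trans ht

/-- mid collar, `i = 1` -/
theorem case_one_eq (h0 : 0 < ε) (h1 : ε ≤ 1 / 4) (h0' : 0 < ε') (h1' : ε' ≤ 1 / 4) (hN' : 4 ≤ N')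
    (hL : 1 ≤ L)
    (h : StageE ε ε' N N' D C L) (hδ : 0 < δ) (hρ : Dens ρ) (hs : Small ε ε' N N' δ ρ)
    {u : E} (hu : u ∈ PB N) (h00 : 1 / 2 < u 0) (h01 : u 0 < N + 1 / 2)
    (hu1 : cf ε < |u 1|) (hu1' : |u 1| < 1) (hu2 : |u 2| < 1 - ε) :
    |lineDeriv ℝ (fun u => XX (ρ 1) (D u 1)) u (Pi.single 1 1)| ≤ δ * L := by
  have hc := cf_pos h0 h1
  apply lineDeriv_abs_le (by positivity)
  have hη : 0 < min (min (|u 1| - cf ε) (1 - |u 1|)) (cf ε / L) :=
    lt_min (lt_min (by linarith) (by linarith)) (div_pos hc.1 (by linarith))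
  filter_upwards [ev_small hη] with t ht
  have ht1 := lt_of_lt_of_le ht ((min_le_left _ _).trans (min_le_left _ _))
  have ht2 := lt_of_lt_of_le ht ((min_le_left _ _).trans (min_le_right _ _))
  have ht3 := lt_of_lt_of_le ht (min_le_right _ _)
  rw [lt_div_iff₀ (by linarith)] at ht3
  have e0 := single_apply_add u t 1 0
  have e1 := single_apply_add u t 1 1
  have e2 := single_apply_add u t 1 2
  simp only [Fin.reduceEq, if_false, if_true, add_zero] at e0 e1 e2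
  have b1 : cf ε < |u 1 + t| := by
    have := abs_sub_abs_le_abs_sub (u 1) (u 1 + t)
    have h5 : |u 1 - (u 1 + t)| = |t| := by rw [← abs_neg]; congr 1; ring
    linarith
  have b2 : |u 1 + t| < 1 := by
    have := abs_add_le (u 1) t
    linarith
  have hm : (u + t • (Pi.single 1 (1 : ℝ) : E)) ∈ PB N := by
    refine ⟨?_, ?_, ?_, ?_⟩
    · rw [e0]; exact hu.1
    · rw [e0]; exact hu.2.1
    · rw [e1]; exact b2.le
    · rw [e2]; exact hu.2.2.2
  obtain ⟨p1, p2, -⟩ := h.B2 u hu h00 h01 hu1 hu2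
  obtain ⟨q1, q2, -⟩ := h.B2 _ hm (by rw [e0]; exact h00) (by rw [e0]; exact h01)
    (by rw [e1]; exact b1) (by rw [e2]; exact hu2)
  have hd : |D (u + t • (Pi.single 1 (1 : ℝ) : E)) 1 - D u 1| ≤ L * |t| := by
    calc _ ≤ dist (D (u + t • (Pi.single 1 (1 : ℝ) : E))) (D u) := by
          rw [← Real.dist_eq]; exact dist_le_pi_dist _ _ 1
      _ ≤ L * dist (u + t • (Pi.single 1 (1 : ℝ) : E)) u := h.lip _ _
      _ = L * |t| := by
          congr 1
          rw [dist_eq_norm]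
          simp [norm_smul, Pi.norm_single]
  set a := D u 1 with ha
  set b := D (u + t • (Pi.single 1 (1 : ℝ) : E)) 1 with hb
  have hab : |b - a| < cf ε := by linarith
  have hx := XX_sub_le (hρ.1 1) (hρ.2.1 1) (hρ.2.2.1 1) (a := a) (b := b) (δ := δ) (by
    have hae : ∀ᵐ s : ℝ, s ∉ ({1, -1} : Set ℝ) := by
      rw [ae_iff]
      have : {s : ℝ | ¬ s ∉ ({1, -1} : Set ℝ)} = {1, -1} := by
        ext s; simp only [Set.mem_ofPred_eq, not_not]
      rw [this]
      exact (Set.toFinite ({1, -1} : Set ℝ)).measure_zero _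
    filter_upwards [hae] with s hs1 hs2
    have hs3 : s ≠ 1 := fun hh => hs1 (by simp [hh])
    have hs4 : s ≠ -1 := fun hh => hs1 (by simp [hh])
    have hs5 : cf ε ≤ |s| ∧ |s| ≤ 1 := by
      rw [mem_uIoc] at hs2
      rw [abs_lt] at hab
      rcases le_abs.1 p1 with p1' | p1'
      · rcases le_abs.1 q1 with q1' | q1'
        · have hs0 : cf ε ≤ s := by rcases hs2 with ⟨r1, r2⟩ | ⟨r1, r2⟩ <;> linarith
          have : s ≤ 1 := by
            have p3 := (abs_le.1 p2).2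
            have q3 := (abs_le.1 q2).2
            rcases hs2 with ⟨r1, r2⟩ | ⟨r1, r2⟩ <;> linarith
          rw [abs_of_nonneg (by linarith [hc.1])]
          exact ⟨hs0, this⟩
        · exfalso; linarith [hab.1, hc.1]
      · rcases le_abs.1 q1 with q1' | q1'
        · exfalso; linarith [hab.2, hc.1]
        · have hs0 : s ≤ -cf ε := by rcases hs2 with ⟨r1, r2⟩ | ⟨r1, r2⟩ <;> linarith
          have : -1 ≤ s := by
            have p3 := (abs_le.1 p2).1
            have q3 := (abs_le.1 q2).1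
            rcases hs2 with ⟨r1, r2⟩ | ⟨r1, r2⟩ <;> linarith
          rw [abs_of_nonpos (by linarith [hc.1])]
          exact ⟨by linarith, by linarith⟩
    apply hs.2.1 s
    · refine lt_of_le_of_ne hs5.2 ?_
      intro hh
      rcases eq_or_eq_neg_of_abs_eq hh with h6 | h6
      · exact hs3 h6
      · exact hs4 h6
    · intro hcon
      exact absurd (S1_lt h0 h1 h0' h1' hN' hcon) (not_lt.2 hs5.1))
  calc |XX (ρ 1) b - XX (ρ 1) a| ≤ δ * |b - a| := hx
    _ ≤ δ * (L * |t|) := mul_le_mul_of_nonneg_left hd hδ.le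
    _ = δ * L * |t| := by ring

/-- ends -/
theorem case_zero_end (hC : 1 ≤ C)
    (h : StageE ε ε' N N' D C L) (hρ : Dens ρ)
    (i : Fin 3) {u : E} (hu : u ∈ PB N) (h00 : u 0 < 3 / 2 ∨ (N : ℝ) - 1 / 2 < u 0)
    (hu1 : |u 1| < cf ε) (hu2 : |u 2| < 1 - ε) :
    |lineDeriv ℝ (fun u => XX (ρ i) (D u i)) u (Pi.single 0 1)| ≤ C := by
  apply lineDeriv_abs_le (by linarith)
  filter_upwards [h.B1b u hu h00 hu1 hu2] with t ht
  exact (comp_le hρ i _ _).trans ht

/-- walls between layers -/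
theorem case_zero_mid (h0 : 0 < ε) (h1 : ε ≤ 1 / 4) (h0' : 0 < ε') (h1' : ε' ≤ 1 / 4)
    (h : StageE ε ε' N N' D C L) (hδ : 0 < δ) (hρ : Dens ρ) (hs : Small ε ε' N N' δ ρ)
    (i : Fin 3) {u : E} (hu : u ∈ PB N) (h00 : 3 / 2 < u 0) (h01 : u 0 < N - 1 / 2)
    (hgap : ∀ k : ℕ, Ad N k → fh ε < |u 0 - k|) (hu1 : u 1 ∈ S1 ε ε' N') (hu2 : u 2 ∈ S2 ε ε') :
    |lineDeriv ℝ (fun u => XX (ρ i) (D u i)) u (Pi.single 0 1)| ≤ δ := by
  obtain ⟨k', hk', hk1⟩ := hu1
  have hf := fh_pos h0 h1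
  apply lineDeriv_abs_le hδ.le
  have hg : ∃ η > 0, ∀ k : ℕ, Ad N k → fh ε + η ≤ |u 0 - k| := by
    have hfin : ({k : ℕ | Ad N k}).Finite := (Set.finite_Iic N).subset (fun k hk => by
      have := hk.2; simp only [Set.mem_Iic]; omega)
    rcases ({k : ℕ | Ad N k}).eq_empty_or_nonempty with he | hne
    · exact ⟨1, one_pos, fun k hk => by
        exfalso
        have : k ∈ ({k : ℕ | Ad N k}) := hk
        rw [he] at this; exact this⟩
    · obtain ⟨k0, hk0, hmin⟩ := hfin.exists_minimalFor (fun k : ℕ => |u 0 - k|) _ hne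
      refine ⟨|u 0 - k0| - fh ε, by linarith [hgap k0 hk0], fun k hk => ?_⟩
      rcases le_total (|u 0 - k0|) (|u 0 - k|) with h5 | h5
      · linarith
      · have := hmin hk h5
        linarith
  obtain ⟨η, hη, hgη⟩ := hg
  have hη' : 0 < min η (min (u 0 - 3 / 2) (N - 1 / 2 - u 0)) :=
    lt_min hη (lt_min (by linarith) (by linarith))
  filter_upwards [ev_small hη'] with t ht
  have ht1 := lt_of_lt_of_le ht (min_le_left _ _)
  have ht2 := lt_of_lt_of_le ht ((min_le_right _ _).trans (min_le_left _ _))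
  have ht3 := lt_of_lt_of_le ht ((min_le_right _ _).trans (min_le_right _ _))
  have key : ∀ s : ℝ, |s - u 0| ≤ |t| → 3 / 2 < s ∧ s < N - 1 / 2 ∧ ∀ k : ℕ, Ad N k → fh ε ≤ |s - k| := by
    intro s hs
    have h5 := abs_le.1 hs
    refine ⟨by linarith [h5.1], by linarith [h5.2], fun k hk => ?_⟩
    have h6 := hgη k hk
    have h7 : |u 0 - k| ≤ |s - u 0| + |s - k| := by
      have := abs_sub_le (u 0) s k
      rw [abs_sub_comm (u 0) s] at this; exact this
    linarith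
  obtain ⟨v, hv⟩ : ∃ v : ℝ, ∀ r : ℝ, |r| ≤ |t| →
      D (u + r • (Pi.single 0 (1 : ℝ) : E)) = ![u 0 + r, v, u 2] := by
    refine ⟨(2 * k' - (u 1 * ((N' + 3) / (2 * cf ε)) + (N' + 1) / 2) - (N' + 1) / 2) /
      ((N' + 3) / (2 * cf ε)), ?_⟩
    intro r hr
    have hk2 := key (u 0 + r) (by simpa using hr)
    have e0 := single_apply_add u r 0 0
    have e1 := single_apply_add u r 0 1
    have e2 := single_apply_add u r 0 2
    simp only [Fin.reduceEq, if_false, if_true, add_zero] at e0 e1 e2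
    have hm : (u + r • (Pi.single 0 (1 : ℝ) : E)) ∈ PB N := by
      refine ⟨?_, ?_, ?_, ?_⟩
      · rw [e0]; linarith [hk2.1]
      · rw [e0]; linarith [hk2.2.1]
      · rw [e1]; exact hu.2.2.1
      · rw [e2]; exact hu.2.2.2
    have hA : (Ak ε N' 0 (u + r • (Pi.single 0 (1 : ℝ) : E))) 0 =
        u 1 * ((N' + 3) / (2 * cf ε)) + (N' + 1) / 2 := by
      unfold Ak
      simp only [Matrix.cons_val_zero]
      rw [e1]
    have := h.B1a _ hm (by rw [e0]; exact hk2.1.le) (by rw [e0]; exact hk2.2.1.le)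
      (by rw [e0]; exact hk2.2.2) k' hk' (by rw [hA]; exact hk1) (by rw [e2]; exact hu2)
    rw [this, hA, e0, e2]
  have hDt := hv t le_rfl
  have hD0 := hv 0 (by simp)
  simp only [zero_smul, add_zero] at hD0
  show |XX (ρ i) (D (u + t • (Pi.single 0 (1 : ℝ) : E)) i) - XX (ρ i) (D u i)| ≤ δ * |t|
  rw [hDt, hD0]
  have hnn : 0 ≤ δ * |t| := by positivity
  fin_cases i
  · show |XX (ρ 0) (u 0 + t) - XX (ρ 0) (u 0)| ≤ δ * |t|
    have := XX_sub_le (hρ.1 0) (hρ.2.1 0) (hρ.2.2.1 0) (a := u 0) (b := u 0 + t) (δ := δ)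
      (Eventually.of_forall fun s hs' => by
        have hk2 := key s (between hs')
        apply hs.1 s (by linarith [hk2.1]) (by linarith [hk2.2.1])
        rintro ⟨k, hk, hk3⟩
        have := hk2.2.2 k hk
        nlinarith [hf.1])
    simpa using this
  · simpa using hnn
  · simpa using hnn

end cases


/-- the ends of the cell -/
def Ends (N : ℕ) : Set E := {u | u ∈ PB N ∧ (u 0 < 3 / 2 ∨ (N : ℝ) - 1 / 2 < u 0)}

/-- pointwise bound -/
theorem en_bound (ε ε' : ℝ) (h0 : 0 < ε) (h1 : ε ≤ 1 / 4) (h0' : 0 < ε') (h1' : ε' ≤ 1 / 4)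
    (N N' : ℕ) (hN' : 4 ≤ N') (D : E → E) (C L : ℝ) (hC : 1 ≤ C) (hL : 1 ≤ L)
    (h : StageE ε ε' N N' D C L)
    (δ : ℝ) (hδ : 0 < δ) (ρ : Fin 3 → ℝ → ℝ) (hρ : Dens ρ) (hs : Small ε ε' N N' δ ρ)
    (i j : Fin 3) {u : E} (hu : u ∈ PB N) (hch : u ∉ {x | ∃ k, Ad N k ∧ x ∈ CB ε k})
    (g0 : -1 < u 0) (g0' : u 0 < N + 2) (g1 : |u 1| < 1) (g2 : |u 2| < 1)
    (g3 : u 0 ≠ 3 / 2) (g4 : u 0 ≠ N - 1 / 2) :
    en ρ D i j u ≤ ENNReal.ofReal (δ * L + (if j = 1 ∧ i ≠ 1 then C else 0)) +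
      (if j = 0 then (Ends N).indicator (fun _ => ENNReal.ofReal C) u else 0) := by
  have hc := cf_pos h0 h1
  have hc' := cf_pos h0' h1'
  have hf := fh_pos h0 h1
  have hS2 : ∀ z : ℝ, z ∈ S2 ε ε' → |z| < 1 - ε := by
    intro z hz
    have hz' : |z| ≤ (1 - ε) * cf ε' := hz
    nlinarith [hc'.2]
  have hch' : ∀ k, Ad N k → u ∉ CB ε k := fun k hk hcon => hch ⟨k, hk, hcon⟩
  have hnn : 0 ≤ (if j = 1 ∧ i ≠ 1 then C else 0 : ℝ) := by split_ifs <;> linarith
  have hδL : δ ≤ δ * L := by nlinarith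
  -- generic bound by `δ * L`
  have gen : (∏ k ∈ Finset.univ.erase j, ρ k (u k)) ≤ δ →
      en ρ D i j u ≤ ENNReal.ofReal (δ * L + (if j = 1 ∧ i ≠ 1 then C else 0)) +
      (if j = 0 then (Ends N).indicator (fun _ => ENNReal.ofReal C) u else 0) := by
    intro hp
    refine le_trans (en_le_of (by linarith : (0:ℝ) ≤ L) hρ (deriv_le_L hL h hρ i j u) hp ?_) le_self_add
    rw [mul_comm]; linarith
  have gen2 : ∀ a : ℝ, 0 ≤ a → a ≤ δ * L + (if j = 1 ∧ i ≠ 1 then C else 0) →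
      |lineDeriv ℝ (fun u => XX (ρ i) (D u i)) u (Pi.single j 1)| ≤ a →
      en ρ D i j u ≤ ENNReal.ofReal (δ * L + (if j = 1 ∧ i ≠ 1 then C else 0)) +
      (if j = 0 then (Ends N).indicator (fun _ => ENNReal.ofReal C) u else 0) := by
    intro a ha ha2 hd
    refine le_trans (en_le_of ha hρ hd (prod_le hρ j u).2 ?_) le_self_add
    linarith
  have r0 : (0 : Fin 3) ≠ j → u 0 ∉ S0 ε ε' N → (∏ k ∈ Finset.univ.erase j, ρ k (u k)) ≤ δ :=
    fun hj hh => (prod_le' hρ hj u).trans (hs.1 _ g0 g0' hh)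
  have r1 : (1 : Fin 3) ≠ j → u 1 ∉ S1 ε ε' N' → (∏ k ∈ Finset.univ.erase j, ρ k (u k)) ≤ δ :=
    fun hj hh => (prod_le' hρ hj u).trans (hs.2.1 _ g1 hh)
  have r2 : (2 : Fin 3) ≠ j → u 2 ∉ S2 ε ε' → (∏ k ∈ Finset.univ.erase j, ρ k (u k)) ≤ δ :=
    fun hj hh => (prod_le' hρ hj u).trans (hs.2.2 _ g2 hh)
  have hf2 : (1 - ε') * fh ε ≤ fh ε := by nlinarith [hf.1]
  fin_cases j
  · -- j = 0
    by_cases m1 : u 1 ∈ S1 ε ε' N'
    swap
    · exact gen (r1 (by decide) m1)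
    by_cases m2 : u 2 ∈ S2 ε ε'
    swap
    · exact gen (r2 (by decide) m2)
    have a1 := S1_lt h0 h1 h0' h1' hN' m1
    have a2 := hS2 _ m2
    have hgap : ∀ k : ℕ, Ad N k → fh ε < |u 0 - k| := by
      intro k hk
      by_contra hcon
      exact hch' k hk ⟨not_lt.1 hcon, a1.le, a2.le⟩
    by_cases he : u 0 < 3 / 2 ∨ (N : ℝ) - 1 / 2 < u 0
    · have hE : u ∈ Ends N := ⟨hu, he⟩
      have hd := case_zero_end hC h hρ i hu he a1 a2
      refine le_trans (en_le_of (by linarith : (0:ℝ) ≤ C) hρ hd (prod_le hρ 0 u).2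
        (mul_one C).le) ?_
      simp only [Fin.zero_eta, if_true, Set.indicator_of_mem hE]
      exact le_add_self
    · push Not at he
      have hd := case_zero_mid h0 h1 h0' h1' h hδ hρ hs i hu (lt_of_le_of_ne he.1 (Ne.symm g3))
        (lt_of_le_of_ne he.2 g4) hgap m1 m2
      exact gen2 δ hδ.le (by linarith) hd
  · -- j = 1
    by_cases m0 : u 0 ∈ S0 ε ε' N
    swap
    · exact gen (r0 (by decide) m0)
    by_cases m2 : u 2 ∈ S2 ε ε'
    swap
    · exact gen (r2 (by decide) m2)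
    have a2 := hS2 _ m2
    obtain ⟨k, hk, hk0⟩ := m0
    have a1 : cf ε < |u 1| := by
      by_contra hcon
      exact hch' k hk ⟨hk0.trans hf2, not_lt.1 hcon, a2.le⟩
    have hk2' : (2 : ℝ) ≤ k := by exact_mod_cast hk.1
    have hk1' : (k : ℝ) + 1 ≤ N := by exact_mod_cast hk.2
    have hk00 := abs_le.1 (hk0.trans hf2)
    have b1 : 1 / 2 < u 0 := by linarith [hk00.1, hf.2]
    have b2 : u 0 < N + 1 / 2 := by linarith [hk00.2, hf.2]
    by_cases hi : i = 1
    · subst hi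
      have hd := case_one_eq h0 h1 h0' h1' hN' hL h hδ hρ hs hu b1 b2 a1 g1 a2
      exact gen2 (δ * L) (by positivity) (by linarith) hd
    · have hd := case_one_ne hC h hρ i hu b1 b2 a1 a2
      refine gen2 C (by linarith) ?_ hd
      have : (if ((⟨1, by decide⟩ : Fin 3) = 1 ∧ i ≠ 1) then C else 0) = C := by
        rw [if_pos]; exact ⟨rfl, hi⟩
      have hp : 0 < δ * L := by positivity
      linarith [this]
  · -- j = 2
    by_cases m0 : u 0 ∈ S0 ε ε' N
    swap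
    · exact gen (r0 (by decide) m0)
    by_cases m1 : u 1 ∈ S1 ε ε' N'
    swap
    · exact gen (r1 (by decide) m1)
    have a1 := S1_lt h0 h1 h0' h1' hN' m1
    obtain ⟨k, hk, hk0⟩ := m0
    have a2 : 1 - ε < |u 2| := by
      by_contra hcon
      exact hch' k hk ⟨hk0.trans hf2, a1.le, not_lt.1 hcon⟩
    have hd := case_two h0 h1 h0' h1' h hδ hρ hs i hu g2 a2 hk hk0 a1.le
    exact gen2 δ hδ.le (by linarith) hd


theorem PB_eq (N : ℕ) : PB N = Set.Icc (![-1, -1, -1] : E) ![N + 2, 1, 1] := by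
  ext x
  simp only [PB, Set.mem_Icc, Pi.le_def, Fin.forall_fin_succ, abs_le]
  simp
  tauto

theorem PB_meas (N : ℕ) : MeasurableSet (PB N) := by
  rw [PB_eq]; exact measurableSet_Icc

theorem PB_vol (N : ℕ) : volume (PB N) = ENNReal.ofReal (4 * (N + 3)) := by
  rw [PB_eq, Real.volume_Icc_pi, Fin.prod_univ_three, ← ENNReal.ofReal_mul (by simp; positivity),
    ← ENNReal.ofReal_mul (by simp; positivity)]
  congr 1
  simp
  ring

theorem CB_meas (ε : ℝ) (k : ℕ) : MeasurableSet (CB ε k) := by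
  have : CB ε k = {x : E | |x 0 - k| ≤ fh ε} ∩ ({x : E | |x 1| ≤ cf ε} ∩ {x : E | |x 2| ≤ 1 - ε}) := by
    ext x; rfl
  rw [this]
  exact (measurableSet_le (by fun_prop) measurable_const).inter
    ((measurableSet_le (by fun_prop) measurable_const).inter
      (measurableSet_le (by fun_prop) measurable_const))

theorem ch_meas (ε : ℝ) (N : ℕ) : MeasurableSet {x : E | ∃ k, Ad N k ∧ x ∈ CB ε k} := by
  have : {x : E | ∃ k, Ad N k ∧ x ∈ CB ε k} = ⋃ k ∈ {k : ℕ | Ad N k}, CB ε k := by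
    ext x; simp
  rw [this]
  exact MeasurableSet.biUnion (Set.to_countable _) fun k _ => CB_meas ε k

theorem Ends_vol (N : ℕ) : volume (Ends N) ≤ ENNReal.ofReal 20 := by
  have hsub : Ends N ⊆ Set.Icc (![-1, -1, -1] : E) ![3 / 2, 1, 1] ∪
      Set.Icc (![N - 1 / 2, -1, -1] : E) ![N + 2, 1, 1] := by
    rintro x ⟨⟨p1, p2, p3, p4⟩, hx⟩
    rw [abs_le] at p3 p4
    rcases hx with hx | hx
    · left
      rw [Set.mem_Icc, Pi.le_def, Pi.le_def]
      constructor <;> intro i <;> fin_cases i <;> simp <;> linarith [p3.1, p3.2, p4.1, p4.2]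
    · right
      rw [Set.mem_Icc, Pi.le_def, Pi.le_def]
      constructor <;> intro i <;> fin_cases i <;> simp <;> linarith [p3.1, p3.2, p4.1, p4.2]
  refine (measure_mono hsub).trans ((measure_union_le _ _).trans ?_)
  rw [Real.volume_Icc_pi, Real.volume_Icc_pi, Fin.prod_univ_three, Fin.prod_univ_three]
  simp only [Matrix.cons_val_zero, Matrix.cons_val_one, Matrix.cons_val]
  have e1 : (3 / 2 - -1 : ℝ) = 5 / 2 := by norm_num
  have e2 : ((N : ℝ) + 2 - (N - 1 / 2) : ℝ) = 5 / 2 := by ring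
  have e3 : (1 - -1 : ℝ) = 2 := by norm_num
  rw [e1, e2, e3, ← ENNReal.ofReal_mul (by norm_num), ← ENNReal.ofReal_mul (by norm_num),
    ← ENNReal.ofReal_add (by norm_num) (by norm_num)]
  norm_num

/-- energy of one stage, in normalised coordinates -/
theorem stage_energy (ε ε' : ℝ) (h0 : 0 < ε) (h1 : ε ≤ 1 / 4) (h0' : 0 < ε') (h1' : ε' ≤ 1 / 4)
    (N N' : ℕ) (hN : 4 ≤ N) (hN' : 4 ≤ N') (D : E → E) (C L : ℝ) (hC : 1 ≤ C) (hL : 1 ≤ L)
    (h : StageE ε ε' N N' D C L) (hDP : ∀ x ∈ PB N, D x ∈ PB N)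
    (δ : ℝ) (hδ : 0 < δ) (hδ1 : δ ≤ 1) (ρ : Fin 3 → ℝ → ℝ) (hρ : Dens ρ) (hs : Small ε ε' N N' δ ρ)
    (i j : Fin 3) :
    ∫⁻ u in PB N \ {x | ∃ k, Ad N k ∧ x ∈ CB ε k}, en ρ D i j u ≤
      ENNReal.ofReal (4 * (N + 3) * (δ * L + (if j = 1 ∧ i ≠ 1 then C else 0)
        + (if j = 0 then 5 * C / (N + 3) else 0))) := by
  set a : ℝ := δ * L + (if j = 1 ∧ i ≠ 1 then C else 0) with ha
  have ha0 : 0 ≤ a := by
    have : 0 ≤ (if j = 1 ∧ i ≠ 1 then C else 0 : ℝ) := by split_ifs <;> linarith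
    have : 0 < δ * L := by positivity
    linarith
  have hmeas : MeasurableSet (PB N \ {x : E | ∃ k, Ad N k ∧ x ∈ CB ε k}) :=
    (PB_meas N).diff (ch_meas ε N)
  have hEm : MeasurableSet (Ends N) := by
    have : Ends N = PB N ∩ ({u : E | u 0 < 3 / 2} ∪ {u : E | (N : ℝ) - 1 / 2 < u 0}) := by
      ext u; simp [Ends]; tauto
    rw [this]
    exact (PB_meas N).inter ((measurableSet_lt (by fun_prop) measurable_const).union
      (measurableSet_lt measurable_const (by fun_prop)))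
  have hT0 : ({-1, (N : ℝ) + 2, 3 / 2, (N : ℝ) - 1 / 2} : Set ℝ).Countable :=
    (Set.toFinite _).countable
  have hT1 : ({-1, 1} : Set ℝ).Countable := (Set.toFinite _).countable
  calc ∫⁻ u in PB N \ {x | ∃ k, Ad N k ∧ x ∈ CB ε k}, en ρ D i j u
      ≤ ∫⁻ u in PB N \ {x | ∃ k, Ad N k ∧ x ∈ CB ε k}, (ENNReal.ofReal a +
        (if j = 0 then (Ends N).indicator (fun _ => ENNReal.ofReal C) u else 0)) := by
        apply setLIntegral_mono_ae' hmeas
        filter_upwards [ae_notMem_coord hT0 0, ae_notMem_coord hT1 1, ae_notMem_coord hT1 2]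
          with u q0 q1 q2 hu
        simp only [Set.mem_insert_iff, Set.mem_singleton_iff, not_or] at q0 q1 q2
        have hu1 := hu.1
        have w1 : |u 1| ≠ 1 := by
          intro hh
          rcases eq_or_eq_neg_of_abs_eq hh with h6 | h6
          · exact q1.2 h6
          · exact q1.1 h6
        have w2 : |u 2| ≠ 1 := by
          intro hh
          rcases eq_or_eq_neg_of_abs_eq hh with h6 | h6
          · exact q2.2 h6
          · exact q2.1 h6
        exact en_bound ε ε' h0 h1 h0' h1' N N' hN' D C L hC hL h δ hδ ρ hρ hs i j hu.1 hu.2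
          (lt_of_le_of_ne hu1.1 (Ne.symm q0.1)) (lt_of_le_of_ne hu1.2.1 q0.2.1)
          (lt_of_le_of_ne hu1.2.2.1 w1) (lt_of_le_of_ne hu1.2.2.2 w2) q0.2.2.1 q0.2.2.2
    _ ≤ ∫⁻ u in PB N, (ENNReal.ofReal a +
        (if j = 0 then (Ends N).indicator (fun _ => ENNReal.ofReal C) u else 0)) :=
        lintegral_mono_set Set.sdiff_subset
    _ = ENNReal.ofReal a * volume (PB N) +
        ∫⁻ u in PB N, (if j = 0 then (Ends N).indicator (fun _ => ENNReal.ofReal C) u else 0) := by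
        rw [lintegral_add_left measurable_const, lintegral_const, Measure.restrict_apply_univ]
    _ ≤ ENNReal.ofReal a * ENNReal.ofReal (4 * (N + 3)) +
        ENNReal.ofReal (4 * (N + 3) * (if j = 0 then 5 * C / (N + 3) else 0)) := by
        rw [PB_vol]
        gcongr
        split_ifs with hj
        · calc ∫⁻ u in PB N, (Ends N).indicator (fun _ => ENNReal.ofReal C) u
              ≤ ∫⁻ u, (Ends N).indicator (fun _ => ENNReal.ofReal C) u := setLIntegral_le_lintegral _ _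
            _ = ENNReal.ofReal C * volume (Ends N) := lintegral_indicator_const hEm _
            _ ≤ ENNReal.ofReal C * ENNReal.ofReal 20 := by gcongr; exact Ends_vol N
            _ = ENNReal.ofReal (4 * (N + 3) * (5 * C / (N + 3))) := by
                rw [← ENNReal.ofReal_mul (by linarith)]
                congr 1
                have : (N : ℝ) + 3 ≠ 0 := by positivity
                field_simp
                ring
        · simp
    _ = ENNReal.ofReal (4 * (N + 3) * (a + (if j = 0 then 5 * C / (N + 3) else 0))) := by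
        rw [← ENNReal.ofReal_mul ha0, ← ENNReal.ofReal_add (by positivity)]
        · congr 1; ring
        · have : 0 ≤ (if j = 0 then 5 * C / (N + 3) else 0 : ℝ) := by split_ifs <;> positivity
          positivity

end Pool.Agent.ZZ
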