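import Pool.Agent.ZZ.Defs2
import Pool.Agent.ZZ.StageE

/-! # Part E of the zigzag construction: densities, energy recursion, summation (helper116) -/

set_option autoImplicit false
set_option linter.all false
open Set Filter Topology MeasureTheory
open scoped NNReal

namespace Pool.Agent.ZZ.PE

def inP (N : ℕ → ℕ) (s : ℕ) : Fin 3 → ℝ → Prop :=
  ![fun x => -1 < x ∧ x < N s + 2, fun x => |x| < 1, fun x => |x| < 1]

def inC (ε : ℕ → ℝ) (N : ℕ → ℕ) (s : ℕ) : Fin 3 → ℝ → Prop :=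
  ![fun x => 2 ≤ round x ∧ round x + 1 ≤ (N s : ℤ) ∧ |x - round x| < fh (ε s),
    fun x => |x| < cf (ε s), fun x => |x| < 1 - ε s]

noncomputable def nx (ε : ℕ → ℝ) (N : ℕ → ℕ) (s : ℕ) : Fin 3 → ℝ → ℝ :=
  ![fun x => (x - round x) / fh (ε s),
    fun x => x * ((N (s + 1) + 3) / (2 * cf (ε s))) + (N (s + 1) + 1) / 2,
    fun x => x / (1 - ε s)]

open Classical in
noncomputable def rhA (ε : ℕ → ℝ) (N : ℕ → ℕ) (δ : ℕ → ℝ) : ℕ → ℕ → Fin 3 → ℝ → ℝ
  | 0, _, _, _ => 1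
  | n + 1, s, i, x =>
    if inC ε N s i x then rhA ε N δ n (s + 1) (i + 2) (nx ε N s i x)
    else if inP N s i x then δ s else 1

open Classical in
noncomputable def rh (ε : ℕ → ℝ) (N : ℕ → ℕ) (δ : ℕ → ℝ) (s : ℕ) (i : Fin 3) (x : ℝ) : ℝ :=
  if h : ∃ n, rhA ε N δ n s i x ≠ 1 then rhA ε N δ (Nat.find h) s i x else 1

/-- slopes of `Aki` -/
noncomputable def ell (ε : ℝ) (N' : ℕ) : Fin 3 → ℝ := ![fh ε, 2 * cf ε / (N' + 3), 1 - ε]

/-- the term of one stage -/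
noncomputable def stg (N : ℕ) (δ L C : ℝ) (i j : Fin 3) : ℝ :=
  δ * L + (if j = 1 ∧ i ≠ 1 then C else 0) + (if j = 0 then 5 * C / (N + 3) else 0)

/-! ### j1 -/

open Classical in
theorem rhA_succp_j1 (ε : ℕ → ℝ) (N : ℕ → ℕ) (δ : ℕ → ℝ) (n s : ℕ) (i : Fin 3) (x : ℝ) :
    rhA ε N δ (n + 1) s i x =
      if inC ε N s i x then rhA ε N δ n (s + 1) (i + 2) (nx ε N s i x)
      else if inP N s i x then δ s else 1 := rfl

theorem rhA_zerop_j1 (ε : ℕ → ℝ) (N : ℕ → ℕ) (δ : ℕ → ℝ) (s : ℕ) (i : Fin 3) (x : ℝ) :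
    rhA ε N δ 0 s i x = 1 := rfl

theorem rhA_bd (ε : ℕ → ℝ) (N : ℕ → ℕ) (δ : ℕ → ℝ) (hδ0 : ∀ s, 0 < δ s) (hδ1 : ∀ s, δ s ≤ 1)
    (n : ℕ) : ∀ s i x, 0 < rhA ε N δ n s i x ∧ rhA ε N δ n s i x ≤ 1 := by
  induction n with
  | zero =>
    intro s i x
    rw [rhA_zerop_j1]
    exact ⟨one_pos, le_refl _⟩
  | succ n ih =>
    intro s i x
    rw [rhA_succp_j1]
    split_ifs
    · exact ih _ _ _
    · exact ⟨hδ0 s, hδ1 s⟩
    · exact ⟨one_pos, le_refl _⟩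

theorem rhA_stab (ε : ℕ → ℝ) (N : ℕ → ℕ) (δ : ℕ → ℝ) (n : ℕ) :
    ∀ s i x, rhA ε N δ n s i x ≠ 1 → rhA ε N δ (n + 1) s i x = rhA ε N δ n s i x := by
  induction n with
  | zero =>
    intro s i x h
    exact absurd (rhA_zerop_j1 ε N δ s i x) h
  | succ n ih =>
    intro s i x h
    rw [rhA_succp_j1 ε N δ (n + 1) s i x, rhA_succp_j1 ε N δ n s i x]
    rw [rhA_succp_j1 ε N δ n s i x] at h
    by_cases h1 : inC ε N s i x
    · rw [if_pos h1] at h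
      rw [if_pos h1, if_pos h1]
      exact ih _ _ _ h
    · rw [if_neg h1, if_neg h1]

theorem rhA_ev (ε : ℕ → ℝ) (N : ℕ → ℕ) (δ : ℕ → ℝ) (s : ℕ) (i : Fin 3) (x : ℝ) :
    ∃ n0, ∀ n ≥ n0, rhA ε N δ n s i x = rh ε N δ s i x := by
  classical
  by_cases h : ∃ n, rhA ε N δ n s i x ≠ 1
  · have e : rh ε N δ s i x = rhA ε N δ (Nat.find h) s i x := by
      unfold rh
      rw [dif_pos h]
    refine ⟨Nat.find h, fun n hn => ?_⟩
    rw [e]
    have h1 := Nat.find_spec h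
    induction n, hn using Nat.le_induction with
    | base => rfl
    | succ m hm ih =>
      rw [rhA_stab ε N δ m s i x (by rw [ih]; exact h1), ih]
  · have e : rh ε N δ s i x = 1 := by
      unfold rh
      rw [dif_neg h]
    refine ⟨0, fun n _ => ?_⟩
    rw [e]
    by_contra hc
    exact h ⟨n, hc⟩

theorem rh_bd (ε : ℕ → ℝ) (N : ℕ → ℕ) (δ : ℕ → ℝ) (hδ0 : ∀ s, 0 < δ s) (hδ1 : ∀ s, δ s ≤ 1)
    (s : ℕ) (i : Fin 3) (x : ℝ) : 0 < rh ε N δ s i x ∧ rh ε N δ s i x ≤ 1 := by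
  obtain ⟨n0, h⟩ := rhA_ev ε N δ s i x
  rw [← h n0 (le_refl _)]
  exact rhA_bd ε N δ hδ0 hδ1 n0 s i x

theorem rh_inC (ε : ℕ → ℝ) (N : ℕ → ℕ) (δ : ℕ → ℝ) (s : ℕ) (i : Fin 3) (x : ℝ)
    (h : inC ε N s i x) : rh ε N δ s i x = rh ε N δ (s + 1) (i + 2) (nx ε N s i x) := by
  obtain ⟨n0, h0⟩ := rhA_ev ε N δ s i x
  obtain ⟨n1, h1⟩ := rhA_ev ε N δ (s + 1) (i + 2) (nx ε N s i x)
  rw [← h0 (max n0 n1 + 1) (by omega), ← h1 (max n0 n1) (by omega), rhA_succp_j1, if_pos h]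

theorem rh_gap (ε : ℕ → ℝ) (N : ℕ → ℕ) (δ : ℕ → ℝ) (s : ℕ) (i : Fin 3) (x : ℝ)
    (h : ¬ inC ε N s i x) (h' : inP N s i x) : rh ε N δ s i x = δ s := by
  obtain ⟨n0, h0⟩ := rhA_ev ε N δ s i x
  rw [← h0 (n0 + 1) (by omega), rhA_succp_j1, if_neg h, if_pos h']

theorem rh_out (ε : ℕ → ℝ) (N : ℕ → ℕ) (δ : ℕ → ℝ) (s : ℕ) (i : Fin 3) (x : ℝ)
    (h : ¬ inC ε N s i x) (h' : ¬ inP N s i x) : rh ε N δ s i x = 1 := by
  obtain ⟨n0, h0⟩ := rhA_ev ε N δ s i x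
  rw [← h0 (n0 + 1) (by omega), rhA_succp_j1, if_neg h, if_neg h']

/-! ### j2 -/

theorem rm_round_j2 : Measurable (fun x : ℝ => round x) := by
  have e : (fun x : ℝ => round x) = fun x : ℝ => ⌊x + 1 / 2⌋ := by
    funext x
    exact round_eq x
  rw [e]
  exact (measurable_id.add_const _).floor

theorem rm_roundR_j2 : Measurable (fun x : ℝ => ((round x : ℤ) : ℝ)) :=
  (measurable_from_top (f := fun z : ℤ => (z : ℝ))).comp rm_round_j2

theorem rm_inC_j2 (ε : ℕ → ℝ) (N : ℕ → ℕ) (s : ℕ) (i : Fin 3) :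
    MeasurableSet {x | inC ε N s i x} := by
  have habs : Measurable (fun x : ℝ => |x|) := measurable_id.abs
  fin_cases i
  · show MeasurableSet {x : ℝ | 2 ≤ round x ∧ round x + 1 ≤ (N s : ℤ) ∧ |x - round x| < fh (ε s)}
    have h1 : MeasurableSet {x : ℝ | 2 ≤ round x} :=
      rm_round_j2 (MeasurableSet.of_discrete (s := {z : ℤ | 2 ≤ z}))
    have h2 : MeasurableSet {x : ℝ | round x + 1 ≤ (N s : ℤ)} :=
      rm_round_j2 (MeasurableSet.of_discrete (s := {z : ℤ | z + 1 ≤ (N s : ℤ)}))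
    have h3 : MeasurableSet {x : ℝ | |x - round x| < fh (ε s)} :=
      measurableSet_lt (measurable_id.sub rm_roundR_j2).abs measurable_const
    exact h1.inter (h2.inter h3)
  · show MeasurableSet {x : ℝ | |x| < cf (ε s)}
    exact measurableSet_lt habs measurable_const
  · show MeasurableSet {x : ℝ | |x| < 1 - ε s}
    exact measurableSet_lt habs measurable_const

theorem rm_inP_j2 (N : ℕ → ℕ) (s : ℕ) (i : Fin 3) :
    MeasurableSet {x | inP N s i x} := by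
  have habs : Measurable (fun x : ℝ => |x|) := measurable_id.abs
  fin_cases i
  · show MeasurableSet {x : ℝ | -1 < x ∧ x < N s + 2}
    exact (measurableSet_lt measurable_const measurable_id).inter
      (measurableSet_lt measurable_id measurable_const)
  · show MeasurableSet {x : ℝ | |x| < 1}
    exact measurableSet_lt habs measurable_const
  · show MeasurableSet {x : ℝ | |x| < 1}
    exact measurableSet_lt habs measurable_const

theorem rm_nx_j2 (ε : ℕ → ℝ) (N : ℕ → ℕ) (s : ℕ) (i : Fin 3) : Measurable (nx ε N s i) := by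
  fin_cases i
  · show Measurable (fun x : ℝ => (x - round x) / fh (ε s))
    exact (measurable_id.sub rm_roundR_j2).div_const _
  · show Measurable (fun x : ℝ => x * ((N (s + 1) + 3) / (2 * cf (ε s))) + (N (s + 1) + 1) / 2)
    exact (measurable_id.mul_const _).add_const _
  · show Measurable (fun x : ℝ => x / (1 - ε s))
    exact measurable_id.div_const _

theorem rhA_meas (ε : ℕ → ℝ) (N : ℕ → ℕ) (δ : ℕ → ℝ) (n : ℕ) :
    ∀ s i, Measurable (rhA ε N δ n s i) := by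
  induction n with
  | zero =>
    intro s i
    have e : rhA ε N δ 0 s i = fun _ => 1 := by
      funext x
      simp [rhA]
    rw [e]
    exact measurable_const
  | succ n ih =>
    intro s i
    have e : rhA ε N δ (n + 1) s i = fun x =>
        @ite ℝ (inC ε N s i x) (Classical.propDecidable _)
          (rhA ε N δ n (s + 1) (i + 2) (nx ε N s i x))
          (@ite ℝ (inP N s i x) (Classical.propDecidable _) (δ s) 1) := by
      funext x
      rw [rhA]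
    rw [e]
    exact Measurable.ite (rm_inC_j2 ε N s i) ((ih (s + 1) (i + 2)).comp (rm_nx_j2 ε N s i))
      (Measurable.ite (rm_inP_j2 N s i) measurable_const measurable_const)

theorem rh_meas (ε : ℕ → ℝ) (N : ℕ → ℕ) (δ : ℕ → ℝ) (s : ℕ) (i : Fin 3) :
    Measurable (rh ε N δ s i) := by
  apply measurable_of_tendsto_metrizable (fun n => rhA_meas ε N δ n s i)
  rw [tendsto_pi_nhds]
  intro x
  obtain ⟨n0, hn0⟩ := rhA_ev ε N δ s i x
  exact tendsto_atTop_of_eventually_const hn0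

/-! ### j3 -/

theorem inC0_28250_j3 (ε : ℕ → ℝ) (N : ℕ → ℕ) (s : ℕ) (x : ℝ) : inC ε N s 0 x ↔
    2 ≤ round x ∧ round x + 1 ≤ (N s : ℤ) ∧ |x - round x| < fh (ε s) := Iff.rfl
theorem inC1_28250_j3 (ε : ℕ → ℝ) (N : ℕ → ℕ) (s : ℕ) (x : ℝ) : inC ε N s 1 x ↔
    |x| < cf (ε s) := Iff.rfl
theorem inC2_28250_j3 (ε : ℕ → ℝ) (N : ℕ → ℕ) (s : ℕ) (x : ℝ) : inC ε N s 2 x ↔
    |x| < 1 - ε s := Iff.rfl
theorem inP0_28250_j3 (N : ℕ → ℕ) (s : ℕ) (x : ℝ) : inP N s 0 x ↔ -1 < x ∧ x < N s + 2 := Iff.rfl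
theorem inP1_28250_j3 (N : ℕ → ℕ) (s : ℕ) (x : ℝ) : inP N s 1 x ↔ |x| < 1 := Iff.rfl
theorem inP2_28250_j3 (N : ℕ → ℕ) (s : ℕ) (x : ℝ) : inP N s 2 x ↔ |x| < 1 := Iff.rfl

theorem par_28250_j3 (e : ℝ) (h0 : 0 < e) (h1 : e ≤ 1 / 4) :
    0 < fh e ∧ fh e ≤ 1 / 2 ∧ 0 < cf e ∧ cf e ≤ 1 ∧ 0 < 1 - e := by
  unfold fh cf wd
  refine ⟨?_, ?_, ?_, ?_, ?_⟩ <;> linarith

theorem kex_28250_j3 (m : ℤ) (N : ℕ) (h1 : 2 ≤ m) (h2 : m + 1 ≤ (N : ℤ)) :
    ∃ k : ℕ, Ad N k ∧ ((k : ℝ) = (m : ℝ)) := by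
  obtain ⟨k, rfl⟩ : ∃ k : ℕ, m = k := ⟨m.toNat, (Int.toNat_of_nonneg (by omega)).symm⟩
  refine ⟨k, ⟨by omega, by omega⟩, ?_⟩
  simp

theorem rh_dens (ε : ℕ → ℝ) (h0 : ∀ s, 0 < ε s) (h1 : ∀ s, ε s ≤ 1 / 4) (N : ℕ → ℕ) (δ : ℕ → ℝ)
    (hδ0 : ∀ s, 0 < δ s) (hδ1 : ∀ s, δ s ≤ 1) (s : ℕ) : Dens (rh ε N δ s) := by
  obtain ⟨p1, p2, p3, p4, p5⟩ := par_28250_j3 (ε s) (h0 s) (h1 s)
  have hN : (0 : ℝ) ≤ N s := Nat.cast_nonneg _
  refine ⟨fun i => rh_meas ε N δ s i, fun i x => (rh_bd ε N δ hδ0 hδ1 s i x).1,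
    fun i x => (rh_bd ε N δ hδ0 hδ1 s i x).2, (N s : ℝ) + 3, ?_⟩
  intro i x hx
  have hcase : i = 0 ∨ i = 1 ∨ i = 2 := by
    fin_cases i
    · exact Or.inl rfl
    · exact Or.inr (Or.inl rfl)
    · exact Or.inr (Or.inr rfl)
  rcases hcase with rfl | rfl | rfl
  · apply rh_out
    · rw [inC0_28250_j3]
      rintro ⟨a1, a2, a3⟩
      have b1 : (2 : ℝ) ≤ (round x : ℝ) := by exact_mod_cast a1
      have b2 : (round x : ℝ) + 1 ≤ N s := by exact_mod_cast a2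
      rw [abs_lt] at a3
      have : |x| < N s + 3 := by
        rw [abs_lt]
        constructor <;> linarith
      linarith
    · rw [inP0_28250_j3]
      rintro ⟨a1, a2⟩
      have : |x| < N s + 3 := by
        rw [abs_lt]
        constructor <;> linarith
      linarith
  · apply rh_out
    · rw [inC1_28250_j3]
      intro a
      linarith
    · rw [inP1_28250_j3]
      intro a
      linarith
  · apply rh_out
    · rw [inC2_28250_j3]
      intro a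
      have := h0 s
      linarith
    · rw [inP2_28250_j3]
      intro a
      linarith

theorem rh_small (ε : ℕ → ℝ) (h0 : ∀ s, 0 < ε s) (h1 : ∀ s, ε s ≤ 1 / 4) (N : ℕ → ℕ) (δ : ℕ → ℝ)
    (hδ0 : ∀ s, 0 < δ s) (hδ1 : ∀ s, δ s ≤ 1) (hδ2 : ∀ s, δ (s + 1) ≤ δ s) (s : ℕ) :
    Small (ε s) (ε (s + 1)) (N s) (N (s + 1)) (δ s) (rh ε N δ s) := by
  obtain ⟨p1, p2, p3, p4, p5⟩ := par_28250_j3 (ε s) (h0 s) (h1 s)
  refine ⟨?_, ?_, ?_⟩
  · intro x hx1 hx2 hS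
    by_cases hC : inC ε N s 0 x
    · rw [rh_inC ε N δ s 0 x hC]
      obtain ⟨a1, a2, a3⟩ := (inC0_28250_j3 ε N s x).1 hC
      have e2 : (0 : Fin 3) + 2 = 2 := rfl
      have e3 : nx ε N s 0 x = (x - round x) / fh (ε s) := rfl
      rw [e2, e3, rh_gap]
      · exact hδ2 s
      · rw [inC2_28250_j3, abs_div, abs_of_pos p1, div_lt_iff₀ p1]
        intro h
        apply hS
        obtain ⟨k, hk1, hk2⟩ := kex_28250_j3 (round x) (N s) a1 a2
        refine ⟨k, hk1, ?_⟩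
        rw [hk2]
        exact h.le
      · rw [inP2_28250_j3, abs_div, abs_of_pos p1, div_lt_one p1]
        exact a3
    · rw [rh_gap ε N δ s 0 x hC ((inP0_28250_j3 N s x).2 ⟨hx1, hx2⟩)]
  · intro y hy hS
    by_cases hC : inC ε N s 1 y
    · rw [rh_inC ε N δ s 1 y hC]
      have a1 := (inC1_28250_j3 ε N s y).1 hC
      have e2 : (1 : Fin 3) + 2 = 0 := rfl
      have e3 : nx ε N s 1 y =
        y * ((N (s + 1) + 3) / (2 * cf (ε s))) + (N (s + 1) + 1) / 2 := rfl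
      rw [e2, e3, rh_gap]
      · exact hδ2 s
      · rw [inC0_28250_j3]
        rintro ⟨b1, b2, b3⟩
        apply hS
        obtain ⟨k, hk1, hk2⟩ := kex_28250_j3 _ _ b1 b2
        refine ⟨k, hk1, ?_⟩
        rw [hk2]
        exact b3.le
      · rw [inP0_28250_j3]
        have hN : (0 : ℝ) ≤ N (s + 1) := Nat.cast_nonneg _
        have e4 : y * ((N (s + 1) + 3) / (2 * cf (ε s))) = (y / cf (ε s)) * ((N (s + 1) + 3) / 2) := by
          rw [div_mul_div_comm, mul_div_assoc', mul_comm (2 : ℝ)]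
        have e5 : |y / cf (ε s)| < 1 := by
          rw [abs_div, abs_of_pos p3, div_lt_one p3]
          exact a1
        rw [abs_lt] at e5
        rw [e4]
        generalize y / cf (ε s) = w at e5
        constructor <;> nlinarith
    · rw [rh_gap ε N δ s 1 y hC ((inP1_28250_j3 N s y).2 hy)]
  · intro z hz hS
    by_cases hC : inC ε N s 2 z
    · rw [rh_inC ε N δ s 2 z hC]
      have a1 := (inC2_28250_j3 ε N s z).1 hC
      have e2 : (2 : Fin 3) + 2 = 1 := rfl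
      have e3 : nx ε N s 2 z = z / (1 - ε s) := rfl
      rw [e2, e3, rh_gap]
      · exact hδ2 s
      · rw [inC1_28250_j3, abs_div, abs_of_pos p5, div_lt_iff₀ p5]
        intro h
        apply hS
        show |z| ≤ (1 - ε s) * cf (ε (s + 1))
        rw [mul_comm]
        exact h.le
      · rw [inP1_28250_j3, abs_div, abs_of_pos p5, div_lt_one p5]
        exact a1
    · rw [rh_gap ε N δ s 2 z hC ((inP2_28250_j3 N s z).2 hz)]

/-! ### j5 -/

theorem fh_posp_j5 (ε : ℝ) (h0 : 0 < ε) (h1 : ε ≤ 1 / 4) : 0 < fh ε := by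
  unfold fh; linarith

theorem cf_posp_j5 (ε : ℝ) (h0 : 0 < ε) (h1 : ε ≤ 1 / 4) : 0 < cf ε := by
  unfold cf wd; linarith

theorem N3_posp_j5 (N' : ℕ) : (0 : ℝ) < (N' : ℝ) + 3 := by positivity

theorem ell_pos (ε : ℝ) (h0 : 0 < ε) (h1 : ε ≤ 1 / 4) (N' : ℕ) (i : Fin 3) : 0 < ell ε N' i := by
  have h2 := fh_posp_j5 ε h0 h1
  have h3 := cf_posp_j5 ε h0 h1
  have h4 := N3_posp_j5 N'
  fin_cases i
  · exact h2
  · show 0 < 2 * cf ε / (N' + 3)
    positivity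
  · show 0 < 1 - ε
    linarith

theorem Aki_apply (ε : ℝ) (h0 : 0 < ε) (h1 : ε ≤ 1 / 4) (N' k : ℕ) (x : E) (i : Fin 3) :
    Aki ε N' k x i = ell ε N' i * x (i + 2) + Aki ε N' k 0 i := by
  have h2 := fh_posp_j5 ε h0 h1
  have h3 := cf_posp_j5 ε h0 h1
  have h4 := N3_posp_j5 N'
  fin_cases i
  · show fh ε * x 2 + k = fh ε * x 2 + (fh ε * 0 + k)
    ring
  · show (x 0 - (N' + 1) / 2) / ((N' + 3) / (2 * cf ε)) =
      2 * cf ε / (N' + 3) * x 0 + (0 - (N' + 1) / 2) / ((N' + 3) / (2 * cf ε))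
    field_simp
    ring
  · show (1 - ε) * x 1 = (1 - ε) * x 1 + (1 - ε) * 0
    ring

theorem Aki_Ak (ε : ℝ) (h0 : 0 < ε) (h1 : ε ≤ 1 / 4) (N' k : ℕ) (x : E) :
    Aki ε N' k (Ak ε N' k x) = x := by
  have h2 := fh_posp_j5 ε h0 h1
  have h3 := cf_posp_j5 ε h0 h1
  have h4 := N3_posp_j5 N'
  have h5 : (1 - ε) ≠ 0 := by linarith
  funext i
  fin_cases i
  · show fh ε * ((x 0 - k) / fh ε) + k = x 0
    field_simp
    ring
  · show (x 1 * ((N' + 3) / (2 * cf ε)) + (N' + 1) / 2 - (N' + 1) / 2) /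
      ((N' + 3) / (2 * cf ε)) = x 1
    rw [add_sub_cancel_right]
    exact mul_div_cancel_right₀ _ (by positivity)
  · show (1 - ε) * (x 2 / (1 - ε)) = x 2
    field_simp

theorem Ak_Aki (ε : ℝ) (h0 : 0 < ε) (h1 : ε ≤ 1 / 4) (N' k : ℕ) (x : E) :
    Ak ε N' k (Aki ε N' k x) = x := by
  have h2 := fh_posp_j5 ε h0 h1
  have h3 := cf_posp_j5 ε h0 h1
  have h4 := N3_posp_j5 N'
  have h5 : (1 - ε) ≠ 0 := by linarith
  funext i
  fin_cases i
  · show (x 0 - (N' + 1) / 2) / ((N' + 3) / (2 * cf ε)) * ((N' + 3) / (2 * cf ε)) +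
      (N' + 1) / 2 = x 0
    rw [div_mul_cancel₀ _ (by positivity)]
    ring
  · show (1 - ε) * x 1 / (1 - ε) = x 1
    field_simp
  · show (fh ε * x 2 + k - k) / fh ε = x 2
    rw [add_sub_cancel_right]
    field_simp

theorem Ak_mem_PB (ε : ℝ) (h0 : 0 < ε) (h1 : ε ≤ 1 / 4) (N' k : ℕ) (x : E) :
    Ak ε N' k x ∈ PB N' ↔ x ∈ CB ε k := by
  have h2 := fh_posp_j5 ε h0 h1
  have h3 := cf_posp_j5 ε h0 h1
  have h4 := N3_posp_j5 N'
  have h5 : 0 < (1 - ε) := by linarith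
  have e1 : |x 2 / (1 - ε)| ≤ 1 ↔ |x 2| ≤ 1 - ε := by
    rw [abs_div, abs_of_pos h5, div_le_one h5]
  have e2 : |(x 0 - k) / fh ε| ≤ 1 ↔ |x 0 - k| ≤ fh ε := by
    rw [abs_div, abs_of_pos h2, div_le_one h2]
  have ha : x 1 * (((N' : ℝ) + 3) / (2 * cf ε)) = (x 1 / cf ε) * ((N' + 3) / 2) := by
    field_simp
  have e3 : (-1 ≤ x 1 * ((N' + 3) / (2 * cf ε)) + (N' + 1) / 2 ∧
      x 1 * ((N' + 3) / (2 * cf ε)) + (N' + 1) / 2 ≤ N' + 2) ↔ |x 1| ≤ cf ε := by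
    have e4 : |x 1| ≤ cf ε ↔ |x 1 / cf ε| ≤ 1 := by
      rw [abs_div, abs_of_pos h3, div_le_one h3]
    rw [e4, abs_le, ha]
    constructor
    · rintro ⟨h6, h7⟩
      constructor <;> nlinarith
    · rintro ⟨h6, h7⟩
      constructor <;> nlinarith
  show (-1 ≤ x 1 * ((N' + 3) / (2 * cf ε)) + (N' + 1) / 2 ∧
      x 1 * ((N' + 3) / (2 * cf ε)) + (N' + 1) / 2 ≤ N' + 2 ∧
      |x 2 / (1 - ε)| ≤ 1 ∧ |(x 0 - k) / fh ε| ≤ 1) ↔
      (|x 0 - k| ≤ fh ε ∧ |x 1| ≤ cf ε ∧ |x 2| ≤ 1 - ε)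
  rw [e1, e2, ← e3]
  tauto

theorem CB_sub_PB (ε : ℝ) (h0 : 0 < ε) (h1 : ε ≤ 1 / 4) (N k : ℕ) (hk : Ad N k) :
    CB ε k ⊆ PB N := by
  rintro x ⟨h6, h7, h8⟩
  obtain ⟨hk1, hk2⟩ := hk
  have hk1' : (2 : ℝ) ≤ k := by exact_mod_cast hk1
  have hk2' : (k : ℝ) + 1 ≤ N := by exact_mod_cast hk2
  rw [abs_le] at h6
  have h9 : fh ε ≤ 1 := by unfold fh; linarith
  have h10 : cf ε ≤ 1 := by unfold cf wd; linarith
  refine ⟨by linarith, by linarith, by linarith, by linarith⟩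

/-- distinct layers are disjoint -/
theorem CB_disj (ε : ℝ) (h0 : 0 < ε) (h1 : ε ≤ 1 / 4) (k k' : ℕ) (x : E) (hx : x ∈ CB ε k)
    (hx' : x ∈ CB ε k') : k = k' := by
  have h6 := hx.1
  have h7 := hx'.1
  rw [abs_le] at h6 h7
  have h9 : fh ε < 1 / 2 := by unfold fh; linarith
  have h10 : (k : ℝ) < k' + 1 := by linarith
  have h11 : (k' : ℝ) < k + 1 := by linarith
  have h12 : k < k' + 1 := by exact_mod_cast h10
  have h13 : k' < k + 1 := by exact_mod_cast h11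
  omega

/-! ### j6 -/

theorem isClosed_PB_aux_j6 (N : ℕ) : PB N = Set.Icc (![-1, -1, -1] : E) ![(N : ℝ) + 2, 1, 1] := by
  ext x
  simp only [PB, Set.mem_ofPred_eq, Set.mem_Icc, Pi.le_def, Fin.forall_fin_succ, abs_le]
  simp
  tauto

theorem isClosed_PB (N : ℕ) : IsClosed (PB N) := by
  rw [isClosed_PB_aux_j6]
  exact isClosed_Icc

theorem isClosed_CBs (ε : ℝ) (N : ℕ) : IsClosed {x : E | ∃ k, Ad N k ∧ x ∈ CB ε k} := by
  have h1 : {x : E | ∃ k, Ad N k ∧ x ∈ CB ε k} = ⋃ k ∈ {k | Ad N k}, CB ε k := by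
    ext x
    simp
  rw [h1]
  refine Set.Finite.isClosed_biUnion ?_ ?_
  · refine (Set.finite_Iic N).subset ?_
    intro k hk
    have := hk.2
    simp only [Set.mem_Iic]
    omega
  · intro k _
    have h0 : IsClosed {x : E | |x 0 - (k : ℝ)| ≤ fh ε} := isClosed_le (by fun_prop) continuous_const
    have h1 : IsClosed {x : E | |x 1| ≤ cf ε} := isClosed_le (by fun_prop) continuous_const
    have h2 : IsClosed {x : E | |x 2| ≤ 1 - ε} := isClosed_le (by fun_prop) continuous_const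
    exact h0.inter (h1.inter h2)

theorem interior_PB (N : ℕ) :
    interior (PB N) = {x : E | -1 < x 0 ∧ x 0 < N + 2 ∧ |x 1| < 1 ∧ |x 2| < 1} := by
  rw [isClosed_PB_aux_j6, ← Set.pi_univ_Icc, interior_pi_set Set.finite_univ]
  ext x
  simp only [interior_Icc, Set.mem_pi, Set.mem_univ, forall_true_left, Set.mem_Ioo,
    Fin.forall_fin_succ, Set.mem_ofPred_eq, abs_lt]
  simp
  tauto

theorem PB_diff_interior_null (N : ℕ) : volume (PB N \ interior (PB N)) = 0 := by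
  rw [← (isClosed_PB N).frontier_eq]
  refine Convex.addHaar_frontier _ ?_
  rw [isClosed_PB_aux_j6]
  exact convex_Icc _ _

/-! ### j7 -/

theorem w255_CB_j7 (e : ℝ) (k : ℕ) : IsClosed (CB e k) := by
  have e1 : CB e k = {x : E | |x 0 - k| ≤ fh e} ∩ ({x : E | |x 1| ≤ cf e} ∩ {x : E | |x 2| ≤ 1 - e}) := rfl
  rw [e1]
  refine IsClosed.inter ?_ (IsClosed.inter ?_ ?_)
  · exact isClosed_le (by fun_prop) continuous_const
  · exact isClosed_le (by fun_prop) continuous_const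
  · exact isClosed_le (by fun_prop) continuous_const

theorem w255_Ak_j7 (e : ℝ) (N' k : ℕ) : Continuous (Ak e N' k) := by
  refine continuous_pi fun i => ?_
  fin_cases i
  · show Continuous fun x : E => x 1 * (((N' : ℝ) + 3) / (2 * cf e)) + (N' + 1) / 2
    fun_prop
  · show Continuous fun x : E => x 2 / (1 - e)
    fun_prop
  · show Continuous fun x : E => (x 0 - k) / fh e
    fun_prop

theorem Cset_closed (ε : ℕ → ℝ) (h0 : ∀ s, 0 < ε s) (h1 : ∀ s, ε s ≤ 1 / 4) (N : ℕ → ℕ) (n : ℕ) :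
    ∀ s, IsClosed (Cset ε N s n) := by
  induction n with
  | zero => intro s; exact isClosed_PB _
  | succ n ih =>
    intro s
    have e : Cset ε N s (n + 1) = ⋃ k ∈ {k | Ad (N s) k},
        (CB (ε s) k ∩ (Ak (ε s) (N (s + 1)) k) ⁻¹' Cset ε N (s + 1) n) := by
      ext x
      simp only [mem_iUnion, mem_inter_iff, mem_preimage, mem_setOf_eq, exists_prop]
      rfl
    rw [e]
    have hfin : {k | Ad (N s) k}.Finite := by
      refine (finite_Iic (N s)).subset ?_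
      rintro k ⟨_, hk⟩
      show k ≤ N s
      omega
    exact hfin.isClosed_biUnion fun k _ =>
      (w255_CB_j7 _ _).inter ((ih (s + 1)).preimage (w255_Ak_j7 _ _ _))

theorem Cset_sub_PB (ε : ℕ → ℝ) (h0 : ∀ s, 0 < ε s) (h1 : ∀ s, ε s ≤ 1 / 4) (N : ℕ → ℕ) (n : ℕ) :
    ∀ s, Cset ε N s n ⊆ PB (N s) := by
  intro s
  cases n with
  | zero => exact subset_rfl
  | succ n =>
    rintro x ⟨k, hk, hx, _⟩
    exact CB_sub_PB (ε s) (h0 s) (h1 s) (N s) k hk hx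

theorem Cset_sub (ε : ℕ → ℝ) (h0 : ∀ s, 0 < ε s) (h1 : ∀ s, ε s ≤ 1 / 4) (N : ℕ → ℕ) (n : ℕ) :
    ∀ s, Cset ε N s (n + 1) ⊆ Cset ε N s n := by
  induction n with
  | zero => intro s; exact Cset_sub_PB ε h0 h1 N 1 s
  | succ n ih =>
    intro s
    rintro x ⟨k, hk, hx, hx'⟩
    exact ⟨k, hk, hx, ih (s + 1) hx'⟩

theorem PB_diff_KK (ε : ℕ → ℝ) (h0 : ∀ s, 0 < ε s) (h1 : ∀ s, ε s ≤ 1 / 4) (N : ℕ → ℕ) (s : ℕ) :
    PB (N s) \ KK ε N s ⊆ ⋃ n, (Cset ε N s n \ Cset ε N s (n + 1)) := by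
  classical
  rintro x ⟨hx, hx'⟩
  have hex : ∃ n, x ∉ Cset ε N s n := by
    by_contra hcon
    push Not at hcon
    exact hx' (mem_iInter.2 hcon)
  have hne : Nat.find hex ≠ 0 := by
    intro h
    have h2 := Nat.find_spec hex
    rw [h] at h2
    exact h2 hx
  obtain ⟨n, hn⟩ := Nat.exists_eq_succ_of_ne_zero hne
  have h3 := Nat.find_spec hex
  have h4 : ¬ x ∉ Cset ε N s n := Nat.find_min hex (by rw [hn]; exact Nat.lt_succ_self n)
  rw [hn] at h3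
  exact mem_iUnion.2 ⟨n, not_not.1 h4, h3⟩

/-! ### j8 -/

private theorem j28249_pos_j8 (ε : ℝ) (h0 : 0 < ε) (h1 : ε ≤ 1 / 4) :
    0 < fh ε ∧ 0 < cf ε ∧ 0 < 1 - ε := by
  unfold fh cf wd
  refine ⟨by linarith, by linarith, by linarith⟩

private theorem j28249_l_j8 (ε : ℝ) (h0 : 0 < ε) (h1 : ε ≤ 1 / 4) (N' k : ℕ) (x : E) :
    Ak ε N' k (Aki ε N' k x) = x := by
  obtain ⟨p1, p2, p3⟩ := j28249_pos_j8 ε h0 h1
  have p4 : (0 : ℝ) < N' + 3 := by positivity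
  funext i
  fin_cases i
  · show (x 0 - (N' + 1) / 2) / ((N' + 3) / (2 * cf ε)) * ((N' + 3) / (2 * cf ε)) + (N' + 1) / 2 = x 0
    rw [div_mul_cancel₀ _ (by positivity)]
    ring
  · show (1 - ε) * x 1 / (1 - ε) = x 1
    rw [mul_div_cancel_left₀ _ p3.ne']
  · show (fh ε * x 2 + k - k) / fh ε = x 2
    rw [add_sub_cancel_right, mul_div_cancel_left₀ _ p1.ne']

private theorem j28249_r_j8 (ε : ℝ) (h0 : 0 < ε) (h1 : ε ≤ 1 / 4) (N' k : ℕ) (x : E) :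
    Aki ε N' k (Ak ε N' k x) = x := by
  obtain ⟨p1, p2, p3⟩ := j28249_pos_j8 ε h0 h1
  have p4 : (0 : ℝ) < N' + 3 := by positivity
  funext i
  fin_cases i
  · show fh ε * ((x 0 - k) / fh ε) + k = x 0
    rw [mul_div_cancel₀ _ p1.ne']
    ring
  · show (x 1 * ((N' + 3) / (2 * cf ε)) + (N' + 1) / 2 - (N' + 1) / 2) / ((N' + 3) / (2 * cf ε)) = x 1
    rw [add_sub_cancel_right, mul_div_cancel_right₀ _ (by positivity)]
  · show (1 - ε) * (x 2 / (1 - ε)) = x 2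
    rw [mul_div_cancel₀ _ p3.ne']

private noncomputable def j28249_M_j8 (ε : ℝ) (N' : ℕ) : Matrix (Fin 3) (Fin 3) ℝ :=
  !![0, 0, fh ε; ((N' + 3) / (2 * cf ε))⁻¹, 0, 0; 0, 1 - ε, 0]

private noncomputable def j28249_L_j8 (ε : ℝ) (N' : ℕ) : E →L[ℝ] E :=
  LinearMap.toContinuousLinearMap (Matrix.toLin' (j28249_M_j8 ε N'))

private theorem j28249_aff_j8 (ε : ℝ) (N' k : ℕ) (u : E) :
    Aki ε N' k u = j28249_L_j8 ε N' u +
      ![(k : ℝ), -((N' + 1) / 2) / ((N' + 3) / (2 * cf ε)), 0] := by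
  funext i
  have hL : ∀ i, j28249_L_j8 ε N' u i = ∑ j, j28249_M_j8 ε N' i j * u j := fun i => rfl
  rw [Pi.add_apply, hL, Fin.sum_univ_three]
  fin_cases i
  · show fh ε * u 2 + k = 0 * u 0 + 0 * u 1 + fh ε * u 2 + k
    ring
  · show (u 0 - (N' + 1) / 2) / ((N' + 3) / (2 * cf ε)) =
      ((N' + 3) / (2 * cf ε))⁻¹ * u 0 + 0 * u 1 + 0 * u 2 + -((N' + 1) / 2) / ((N' + 3) / (2 * cf ε))
    rw [sub_div, div_eq_mul_inv (u 0)]
    ring
  · show (1 - ε) * u 1 = 0 * u 0 + (1 - ε) * u 1 + 0 * u 2 + 0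
    ring

private theorem j28249_det_j8 (ε : ℝ) (N' : ℕ) :
    (j28249_L_j8 ε N').det = fh ε * ((N' + 3) / (2 * cf ε))⁻¹ * (1 - ε) := by
  have h1 : (j28249_L_j8 ε N').det = LinearMap.det (Matrix.toLin' (j28249_M_j8 ε N')) := rfl
  rw [h1, LinearMap.det_toLin', Matrix.det_fin_three]
  simp [j28249_M_j8]

/-- change of variables, child coordinates -/
theorem lint_Ak (ε : ℝ) (h0 : 0 < ε) (h1 : ε ≤ 1 / 4) (N' k : ℕ) (T : Set E) (hT : MeasurableSet T)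
    (F : E → ENNReal) :
    ∫⁻ u in (Ak ε N' k) ⁻¹' T, F u =
      ENNReal.ofReal (ell ε N' 0 * ell ε N' 1 * ell ε N' 2) * ∫⁻ u in T, F (Aki ε N' k u) := by
  obtain ⟨p1, p2, p3⟩ := j28249_pos_j8 ε h0 h1
  have p4 : (0 : ℝ) < N' + 3 := by positivity
  have himg : (Ak ε N' k) ⁻¹' T = Aki ε N' k '' T := by
    ext x
    constructor
    · intro hx
      exact ⟨Ak ε N' k x, hx, j28249_r_j8 ε h0 h1 N' k x⟩
    · rintro ⟨y, hy, rfl⟩
      show Ak ε N' k (Aki ε N' k y) ∈ T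
      rw [j28249_l_j8 ε h0 h1 N' k y]
      exact hy
  have hfun : Aki ε N' k = fun u => j28249_L_j8 ε N' u +
      ![(k : ℝ), -((N' + 1) / 2) / ((N' + 3) / (2 * cf ε)), 0] := by
    funext u
    exact j28249_aff_j8 ε N' k u
  have hder : ∀ x ∈ T, HasFDerivWithinAt (Aki ε N' k) (j28249_L_j8 ε N') T x := by
    intro x _
    rw [hfun]
    exact ((j28249_L_j8 ε N').hasFDerivAt.add_const _).hasFDerivWithinAt
  have hinj : Set.InjOn (Aki ε N' k) T := by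
    intro x _ y _ hxy
    rw [← j28249_l_j8 ε h0 h1 N' k x, hxy, j28249_l_j8 ε h0 h1 N' k y]
  rw [himg, lintegral_image_eq_lintegral_abs_det_fderiv_mul volume hT hder hinj F,
    lintegral_const_mul' _ _ ENNReal.ofReal_ne_top]
  congr 2
  rw [j28249_det_j8, abs_of_pos (by positivity)]
  show fh ε * ((N' + 3) / (2 * cf ε))⁻¹ * (1 - ε) = fh ε * (2 * cf ε / (N' + 3)) * (1 - ε)
  rw [inv_div]

/-! ### j9 -/

theorem fh_bd_j9 (ε : ℝ) (h0 : 0 < ε) (h1 : ε ≤ 1 / 4) : 0 < fh ε ∧ fh ε < 1 / 2 := by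
  unfold fh
  constructor <;> linarith

theorem cf_bd_j9 (ε : ℝ) (h0 : 0 < ε) (h1 : ε ≤ 1 / 4) : 0 < cf ε := by
  unfold cf wd
  linarith

theorem child1_j9 (ε : ℕ → ℝ) (h0 : ∀ s, 0 < ε s) (h1 : ∀ s, ε s ≤ 1 / 4) (N : ℕ → ℕ)
    (s k : ℕ) (hk : Ad (N s) k) (i : Fin 3) (t : ℝ) (ht : inP N (s + 1) (i + 2) t) :
    inC ε N s i (ell (ε s) (N (s + 1)) i * t + Aki (ε s) (N (s + 1)) k 0 i) ∧
      nx ε N s i (ell (ε s) (N (s + 1)) i * t + Aki (ε s) (N (s + 1)) k 0 i) = t := by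
  have hi : i = 0 ∨ i = 1 ∨ i = 2 := by
    fin_cases i <;> simp
  obtain ⟨f1, f2⟩ := fh_bd_j9 (ε s) (h0 s) (h1 s)
  have c1 := cf_bd_j9 (ε s) (h0 s) (h1 s)
  have e0 := h0 s
  have e1 := h1 s
  rcases hi with rfl | rfl | rfl
  · have ht' : |t| < 1 := ht
    have hx : ell (ε s) (N (s + 1)) 0 * t + Aki (ε s) (N (s + 1)) k 0 0 = fh (ε s) * t + k := by
      simp [ell, Aki]
    rw [hx]
    have hft : |fh (ε s) * t| < fh (ε s) := by
      rw [abs_mul, abs_of_pos f1]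
      nlinarith
    have hft' := abs_lt.1 hft
    have hr : round (fh (ε s) * t + (k : ℝ)) = (k : ℤ) := by
      rw [round_eq, Int.floor_eq_iff]
      constructor
      · push_cast; linarith [hft'.1]
      · push_cast; linarith [hft'.2]
    constructor
    · show 2 ≤ round (fh (ε s) * t + (k : ℝ)) ∧ round (fh (ε s) * t + (k : ℝ)) + 1 ≤ (N s : ℤ) ∧
        |(fh (ε s) * t + (k : ℝ)) - round (fh (ε s) * t + (k : ℝ))| < fh (ε s)
      rw [hr]
      obtain ⟨k1, k2⟩ := hk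
      refine ⟨by exact_mod_cast k1, by exact_mod_cast k2, ?_⟩
      push_cast
      rw [add_sub_cancel_right]
      exact hft
    · show (fh (ε s) * t + (k : ℝ) - round (fh (ε s) * t + (k : ℝ))) / fh (ε s) = t
      rw [hr]
      push_cast
      rw [add_sub_cancel_right]
      field_simp
  · have ht' : -1 < t ∧ t < N (s + 1) + 2 := ht
    have hN : (0 : ℝ) < (N (s + 1) : ℝ) + 3 := by positivity
    have hx : ell (ε s) (N (s + 1)) 1 * t + Aki (ε s) (N (s + 1)) k 0 1 =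
        (t - ((N (s + 1) : ℝ) + 1) / 2) * (2 * cf (ε s) / ((N (s + 1) : ℝ) + 3)) := by
      simp only [ell, Aki, Matrix.cons_val_one, Matrix.cons_val_zero, Pi.zero_apply]
      field_simp
      ring
    rw [hx]
    constructor
    · show |(t - ((N (s + 1) : ℝ) + 1) / 2) * (2 * cf (ε s) / ((N (s + 1) : ℝ) + 3))| < cf (ε s)
      have h2 : |t - ((N (s + 1) : ℝ) + 1) / 2| < ((N (s + 1) : ℝ) + 3) / 2 := by
        rw [abs_lt]
        constructor
        · linarith [ht'.1]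
        · linarith [ht'.2]
      have h3 : 0 < 2 * cf (ε s) / ((N (s + 1) : ℝ) + 3) := by positivity
      rw [abs_mul, abs_of_pos h3]
      calc |t - ((N (s + 1) : ℝ) + 1) / 2| * (2 * cf (ε s) / ((N (s + 1) : ℝ) + 3))
          < ((N (s + 1) : ℝ) + 3) / 2 * (2 * cf (ε s) / ((N (s + 1) : ℝ) + 3)) :=
            mul_lt_mul_of_pos_right h2 h3
        _ = cf (ε s) := by field_simp
    · show (t - ((N (s + 1) : ℝ) + 1) / 2) * (2 * cf (ε s) / ((N (s + 1) : ℝ) + 3)) *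
        ((N (s + 1) + 3) / (2 * cf (ε s))) + (N (s + 1) + 1) / 2 = t
      field_simp
      ring
  · have ht' : |t| < 1 := ht
    have hx : ell (ε s) (N (s + 1)) 2 * t + Aki (ε s) (N (s + 1)) k 0 2 = (1 - ε s) * t := by
      simp [ell, Aki]
    rw [hx]
    have h4 : 0 < 1 - ε s := by linarith
    constructor
    · show |(1 - ε s) * t| < 1 - ε s
      rw [abs_mul, abs_of_pos h4]
      nlinarith
    · show (1 - ε s) * t / (1 - ε s) = t
      field_simp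

/-- lower end of the range -/
theorem inP_of_j9 (N : ℕ → ℕ) (s : ℕ) (j : Fin 3) (y : E) (hy : y ∈ PB (N s)) (t : ℝ)
    (h : (t < 0 → y j < t) ∧ (0 < t → t < y j)) : inP N s j t := by
  have hj : j = 0 ∨ j = 1 ∨ j = 2 := by
    fin_cases j <;> simp
  obtain ⟨h1, h2, h3, h4⟩ := hy
  have hN : (0 : ℝ) ≤ (N s : ℝ) := by positivity
  rw [abs_le] at h3 h4
  rcases lt_trichotomy t 0 with ht | ht | ht
  · have h5 := h.1 ht
    rcases hj with rfl | rfl | rfl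
    · show -1 < t ∧ t < N s + 2
      constructor <;> linarith
    · show |t| < 1
      rw [abs_lt]; constructor <;> linarith [h3.1]
    · show |t| < 1
      rw [abs_lt]; constructor <;> linarith [h4.1]
  · subst ht
    rcases hj with rfl | rfl | rfl
    · show -1 < (0:ℝ) ∧ (0:ℝ) < N s + 2
      constructor <;> linarith
    · show |(0:ℝ)| < 1
      simp
    · show |(0:ℝ)| < 1
      simp
  · have h5 := h.2 ht
    rcases hj with rfl | rfl | rfl
    · show -1 < t ∧ t < N s + 2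
      constructor <;> linarith
    · show |t| < 1
      rw [abs_lt]; constructor <;> linarith [h3.2]
    · show |t| < 1
      rw [abs_lt]; constructor <;> linarith [h4.2]

theorem int_coord_j9 (S : Set E) (j : Fin 3) (a b : ℝ) (hS : ∀ x ∈ S, x j ∈ Icc a b) (y : E)
    (hy : y ∈ interior S) : y j ∈ Ioo a b := by
  have h1 : S ⊆ (fun x : E => x j) ⁻¹' Icc a b := fun x hx => hS x hx
  have h2 := interior_mono h1 hy
  have h3 : IsOpenMap (fun x : E => x j) := isOpenMap_eval j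
  rw [← h3.preimage_interior_eq_interior_preimage (continuous_apply j), interior_Icc] at h2
  exact h2

/-- densities on a child -/
theorem rh_child (ε : ℕ → ℝ) (h0 : ∀ s, 0 < ε s) (h1 : ∀ s, ε s ≤ 1 / 4) (N : ℕ → ℕ)
    (δ : ℕ → ℝ) (s k : ℕ) (hk : Ad (N s) k)
    (y : E) (hy : y ∈ interior (PB (N (s + 1)))) (i : Fin 3) :
    rh ε N δ s i (Aki (ε s) (N (s + 1)) k y i) = rh ε N δ (s + 1) (i + 2) (y (i + 2)) := by
  have hin : inP N (s + 1) (i + 2) (y (i + 2)) := by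
    have a0 := int_coord_j9 _ 0 (-1) ((N (s + 1) : ℝ) + 2) (fun x hx => ⟨hx.1, hx.2.1⟩) y hy
    have a1 := int_coord_j9 _ 1 (-1) 1 (fun x hx => abs_le.1 hx.2.2.1) y hy
    have a2 := int_coord_j9 _ 2 (-1) 1 (fun x hx => abs_le.1 hx.2.2.2) y hy
    have hi : i = 0 ∨ i = 1 ∨ i = 2 := by
      fin_cases i <;> simp
    rcases hi with rfl | rfl | rfl
    · show |y 2| < 1
      exact abs_lt.2 a2
    · show -1 < y 0 ∧ y 0 < N (s + 1) + 2
      exact a0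
    · show |y 1| < 1
      exact abs_lt.2 a1
  rw [Aki_apply (ε s) (h0 s) (h1 s)]
  obtain ⟨g1, g2⟩ := child1_j9 ε h0 h1 N s k hk i (y (i + 2)) hin
  rw [rh_inC ε N δ s i _ g1, g2]

theorem rh_ii_j9 (ε : ℕ → ℝ) (N : ℕ → ℕ) (δ : ℕ → ℝ) (hδ0 : ∀ s, 0 < δ s) (hδ1 : ∀ s, δ s ≤ 1)
    (s : ℕ) (i : Fin 3) (a b : ℝ) : IntervalIntegrable (rh ε N δ s i) volume a b := by
  rw [intervalIntegrable_iff]
  refine Measure.integrableOn_of_bounded (M := 1) ?_ (rh_meas ε N δ s i).aestronglyMeasurable ?_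
  · rw [uIoc]
    exact measure_Ioc_lt_top.ne
  · refine Filter.Eventually.of_forall fun x => ?_
    have h := rh_bd ε N δ hδ0 hδ1 s i x
    rw [Real.norm_eq_abs, abs_of_pos h.1]
    exact h.2

/-- primitives of the densities on a child -/
theorem XX_child (ε : ℕ → ℝ) (h0 : ∀ s, 0 < ε s) (h1 : ∀ s, ε s ≤ 1 / 4) (N : ℕ → ℕ)
    (δ : ℕ → ℝ) (hδ0 : ∀ s, 0 < δ s) (hδ1 : ∀ s, δ s ≤ 1) (s k : ℕ) (hk : Ad (N s) k)
    (y : E) (hy : y ∈ PB (N (s + 1))) (i : Fin 3) :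
    XX (rh ε N δ s i) (Aki (ε s) (N (s + 1)) k y i) =
      ell (ε s) (N (s + 1)) i * XX (rh ε N δ (s + 1) (i + 2)) (y (i + 2)) +
        XX (rh ε N δ s i) (Aki (ε s) (N (s + 1)) k 0 i) := by
  rw [Aki_apply (ε s) (h0 s) (h1 s) (N (s + 1)) k y i]
  set x0 := Aki (ε s) (N (s + 1)) k 0 i with hx0
  set c := ell (ε s) (N (s + 1)) i with hc
  set Y := y (i + 2) with hY
  unfold XX
  have hii := fun a b => rh_ii_j9 ε N δ hδ0 hδ1 s i a b
  have h2 : ∫ t in (0:ℝ)..(c * Y + x0), rh ε N δ s i t =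
      (∫ t in (0:ℝ)..x0, rh ε N δ s i t) + ∫ t in x0..(c * Y + x0), rh ε N δ s i t :=
    (intervalIntegral.integral_add_adjacent_intervals (hii _ _) (hii _ _)).symm
  have h3 : ∫ t in x0..(c * Y + x0), rh ε N δ s i t =
      c * ∫ t in (0:ℝ)..Y, rh ε N δ s i (c * t + x0) := by
    rw [intervalIntegral.mul_integral_comp_mul_add (f := rh ε N δ s i) c x0, mul_zero, zero_add]
  have h4 : ∫ t in (0:ℝ)..Y, rh ε N δ s i (c * t + x0) =
      ∫ t in (0:ℝ)..Y, rh ε N δ (s + 1) (i + 2) t := by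
    apply intervalIntegral.integral_congr_ae
    have hae : ∀ᵐ t : ℝ, t ≠ Y := by
      rw [ae_iff]
      simp
    filter_upwards [hae] with t ht hmem
    have hin : inP N (s + 1) (i + 2) t := by
      apply inP_of_j9 N (s + 1) (i + 2) y hy t
      rw [uIoc, mem_Ioc] at hmem
      constructor
      · intro hneg
        have h5 := hmem.1
        rcases le_total 0 Y with h6 | h6
        · rw [min_eq_left h6] at h5; linarith
        · rw [min_eq_right h6] at h5; exact h5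
      · intro hpos
        have h5 := hmem.2
        rcases le_total 0 Y with h6 | h6
        · rw [max_eq_right h6] at h5; exact lt_of_le_of_ne h5 ht
        · rw [max_eq_left h6] at h5; linarith
    obtain ⟨g1, g2⟩ := child1_j9 ε h0 h1 N s k hk i t hin
    rw [rh_inC ε N δ s i _ g1, g2]
  rw [h2, h3, h4, add_comm]

/-! ### j12 -/

/-- `U` maps `PB \ Cset n` into `PB` -/
theorem U_maps (ε : ℕ → ℝ) (h0 : ∀ s, 0 < ε s) (h1 : ∀ s, ε s ≤ 1 / 4) (N : ℕ → ℕ)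
    (D : ℕ → E → E) (hD : ∀ s, ∀ x ∈ PB (N s), D s x ∈ PB (N s))
    (U : ℕ → E → E)
    (hU1 : ∀ s x, (∀ k, Ad (N s) k → x ∉ CB (ε s) k) → U s x = D s x)
    (hU2 : ∀ s k x, Ad (N s) k → x ∈ CB (ε s) k →
            U s x = Aki (ε s) (N (s + 1)) k (U (s + 1) (Ak (ε s) (N (s + 1)) k x))) (n : ℕ) :
    ∀ s, ∀ x ∈ PB (N s), x ∉ Cset ε N s n → U s x ∈ PB (N s) := by
  induction n with
  | zero =>
    intro s x hx hx'
    exact absurd hx hx'
  | succ n ih =>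
    intro s x hx hx'
    by_cases hc : ∃ k, Ad (N s) k ∧ x ∈ CB (ε s) k
    · obtain ⟨k, hk, hxk⟩ := hc
      rw [hU2 s k x hk hxk]
      have h2 : Ak (ε s) (N (s + 1)) k x ∈ PB (N (s + 1)) := (Ak_mem_PB _ (h0 s) (h1 s) _ _ _).2 hxk
      have h3 : Ak (ε s) (N (s + 1)) k x ∉ Cset ε N (s + 1) n := fun h => hx' ⟨k, hk, hxk, h⟩
      have h4 := ih (s + 1) _ h2 h3
      apply CB_sub_PB (ε s) (h0 s) (h1 s) (N s) k hk
      rw [← Ak_mem_PB (ε s) (h0 s) (h1 s) (N (s + 1)) k, Ak_Aki (ε s) (h0 s) (h1 s)]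
      exact h4
    · push Not at hc
      rw [hU1 s x hc]
      exact hD s x hx

/-! ### j11 -/

theorem prod_erase_shift (g : Fin 3 → ℝ) (j : Fin 3) :
    ∏ k ∈ Finset.univ.erase j, g (k + 2) = ∏ k ∈ Finset.univ.erase (j + 2), g k := by
  have h : Finset.univ.erase (j + 2) =
      (Finset.univ.erase j).map (Equiv.addRight (2 : Fin 3)).toEmbedding := by
    revert j; decide
  rw [h, Finset.prod_map]
  rfl

theorem Aki_line_j11 (ε : ℝ) (h0 : 0 < ε) (h1 : ε ≤ 1 / 4) (N' k : ℕ) (y : E) (j : Fin 3) (t : ℝ) :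
    Aki ε N' k y + t • (Pi.single j 1 : E) =
      Aki ε N' k (y + ((ell ε N' j)⁻¹ * t) • (Pi.single (j + 2) 1 : E)) := by
  have hl := (ell_pos ε h0 h1 N' j).ne'
  funext m
  rw [Aki_apply ε h0 h1 N' k (y + _) m]
  simp only [Pi.add_apply, Pi.smul_apply, smul_eq_mul]
  rw [Aki_apply ε h0 h1 N' k y m]
  by_cases hm : m = j
  · subst hm
    rw [Pi.single_eq_same, Pi.single_eq_same]
    field_simp
    ring
  · have hm2 : m + 2 ≠ j + 2 := fun h => hm (add_right_cancel h)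
    rw [Pi.single_eq_of_ne hm, Pi.single_eq_of_ne hm2]
    ring

theorem U_child_line_j11 (ε : ℕ → ℝ) (h0 : ∀ s, 0 < ε s) (h1 : ∀ s, ε s ≤ 1 / 4) (N : ℕ → ℕ)
    (δ : ℕ → ℝ) (hδ0 : ∀ s, 0 < δ s) (hδ1 : ∀ s, δ s ≤ 1)
    (D : ℕ → E → E) (hD : ∀ s, ∀ x ∈ PB (N s), D s x ∈ PB (N s))
    (U : ℕ → E → E)
    (hU1 : ∀ s x, (∀ k, Ad (N s) k → x ∉ CB (ε s) k) → U s x = D s x)
    (hU2 : ∀ s k x, Ad (N s) k → x ∈ CB (ε s) k →
            U s x = Aki (ε s) (N (s + 1)) k (U (s + 1) (Ak (ε s) (N (s + 1)) k x)))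
    (s k n : ℕ) (hk : Ad (N s) k) (z : E) (hz : z ∈ PB (N (s + 1)))
    (hz' : z ∉ Cset ε N (s + 1) n) (i : Fin 3) :
    XX (rh ε N δ s i) (U s (Aki (ε s) (N (s + 1)) k z) i) =
      ell (ε s) (N (s + 1)) i * XX (rh ε N δ (s + 1) (i + 2)) (U (s + 1) z (i + 2)) +
        XX (rh ε N δ s i) (Aki (ε s) (N (s + 1)) k 0 i) := by
  have hA : Aki (ε s) (N (s + 1)) k z ∈ CB (ε s) k := by
    rw [← Ak_mem_PB (ε s) (h0 s) (h1 s) (N (s + 1)) k, Ak_Aki (ε s) (h0 s) (h1 s)]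
    exact hz
  rw [hU2 s k _ hk hA, Ak_Aki (ε s) (h0 s) (h1 s)]
  exact XX_child ε h0 h1 N δ hδ0 hδ1 s k hk _
    (U_maps ε h0 h1 N D hD U hU1 hU2 n (s + 1) z hz hz') i

/-- the energy density on a child -/
theorem en_child (ε : ℕ → ℝ) (h0 : ∀ s, 0 < ε s) (h1 : ∀ s, ε s ≤ 1 / 4) (N : ℕ → ℕ)
    (δ : ℕ → ℝ) (hδ0 : ∀ s, 0 < δ s) (hδ1 : ∀ s, δ s ≤ 1)
    (D : ℕ → E → E) (hD : ∀ s, ∀ x ∈ PB (N s), D s x ∈ PB (N s))
    (U : ℕ → E → E)
    (hU1 : ∀ s x, (∀ k, Ad (N s) k → x ∉ CB (ε s) k) → U s x = D s x)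
    (hU2 : ∀ s k x, Ad (N s) k → x ∈ CB (ε s) k →
            U s x = Aki (ε s) (N (s + 1)) k (U (s + 1) (Ak (ε s) (N (s + 1)) k x)))
    (s k n : ℕ) (hk : Ad (N s) k) (y : E) (hy : y ∈ interior (PB (N (s + 1))))
    (hy' : y ∉ Cset ε N (s + 1) n) (i j : Fin 3) :
    en (rh ε N δ s) (U s) i j (Aki (ε s) (N (s + 1)) k y) =
      ENNReal.ofReal (ell (ε s) (N (s + 1)) i / ell (ε s) (N (s + 1)) j) *
        en (rh ε N δ (s + 1)) (U (s + 1)) (i + 2) (j + 2) y := by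
  set l := ell (ε s) (N (s + 1)) with hl
  have hli : 0 < l i := ell_pos (ε s) (h0 s) (h1 s) _ i
  have hlj : 0 < l j := ell_pos (ε s) (h0 s) (h1 s) _ j
  have hlid : lineDeriv ℝ (fun u => XX (rh ε N δ s i) (U s u i)) (Aki (ε s) (N (s + 1)) k y)
      (Pi.single j 1) = l i * ((l j)⁻¹ * lineDeriv ℝ (fun u => XX (rh ε N δ (s + 1) (i + 2))
        (U (s + 1) u (i + 2))) y (Pi.single (j + 2) 1)) := by
    unfold lineDeriv
    set G : ℝ → ℝ := fun t => XX (rh ε N δ (s + 1) (i + 2))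
      (U (s + 1) (y + t • (Pi.single (j + 2) 1 : E)) (i + 2)) with hG
    have hev : (fun t : ℝ => XX (rh ε N δ s i)
        (U s (Aki (ε s) (N (s + 1)) k y + t • (Pi.single j 1 : E)) i)) =ᶠ[𝓝 0]
        fun t => l i * G ((l j)⁻¹ * t) + XX (rh ε N δ s i) (Aki (ε s) (N (s + 1)) k 0 i) := by
      have hcont : Continuous (fun t : ℝ => y + ((l j)⁻¹ * t) • (Pi.single (j + 2) 1 : E)) := by
        fun_prop
      have h00 : y + ((l j)⁻¹ * 0) • (Pi.single (j + 2) 1 : E) = y := by simp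
      have hev1 : ∀ᶠ t : ℝ in 𝓝 0, y + ((l j)⁻¹ * t) • (Pi.single (j + 2) 1 : E) ∈
          interior (PB (N (s + 1))) := by
        apply hcont.continuousAt.eventually_mem
        rw [h00]
        exact isOpen_interior.mem_nhds hy
      have hev2 : ∀ᶠ t : ℝ in 𝓝 0, y + ((l j)⁻¹ * t) • (Pi.single (j + 2) 1 : E) ∈
          (Cset ε N (s + 1) n)ᶜ := by
        apply hcont.continuousAt.eventually_mem
        rw [h00]
        exact (Cset_closed ε h0 h1 N n (s + 1)).isOpen_compl.mem_nhds hy'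
      filter_upwards [hev1, hev2] with t ht1 ht2
      rw [Aki_line_j11 (ε s) (h0 s) (h1 s) (N (s + 1)) k y j t]
      exact U_child_line_j11 ε h0 h1 N δ hδ0 hδ1 D hD U hU1 hU2 s k n hk _ (interior_subset ht1) ht2 i
    rw [hev.deriv_eq, deriv_add_const, deriv_const_mul_field, deriv_comp_mul_left, mul_zero,
      smul_eq_mul]
  have hprod : ∏ m ∈ Finset.univ.erase j, rh ε N δ s m (Aki (ε s) (N (s + 1)) k y m) =
      ∏ m ∈ Finset.univ.erase (j + 2), rh ε N δ (s + 1) m (y m) := by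
    rw [← prod_erase_shift (fun m => rh ε N δ (s + 1) m (y m)) j]
    refine Finset.prod_congr rfl fun m _ => ?_
    exact rh_child ε h0 h1 N δ s k hk y hy m
  unfold en
  rw [hlid, hprod, ← ENNReal.ofReal_mul (by positivity)]
  congr 1
  rw [abs_mul, abs_mul, abs_of_pos hli, abs_of_pos (inv_pos.2 hlj)]
  ring

/-! ### j13 -/

theorem lint_biUnion_le_h298_j13 {ι : Type} (S : Finset ι) (A : ι → Set E) (F : E → ENNReal) :
    ∫⁻ u in ⋃ k ∈ S, A k, F u ≤ ∑ k ∈ S, ∫⁻ u in A k, F u := by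
  classical
  induction S using Finset.induction_on with
  | empty => simp
  | insert a S ha ih =>
    rw [Finset.set_biUnion_insert, Finset.sum_insert ha]
    exact (lintegral_union_le _ _ _).trans (by gcongr)

/-- energy recursion -/
theorem en_rec (ε : ℕ → ℝ) (h0 : ∀ s, 0 < ε s) (h1 : ∀ s, ε s ≤ 1 / 4) (N : ℕ → ℕ)
    (δ : ℕ → ℝ) (hδ0 : ∀ s, 0 < δ s) (hδ1 : ∀ s, δ s ≤ 1)
    (D : ℕ → E → E) (hD : ∀ s, ∀ x ∈ PB (N s), D s x ∈ PB (N s))
    (U : ℕ → E → E)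
    (hU1 : ∀ s x, (∀ k, Ad (N s) k → x ∉ CB (ε s) k) → U s x = D s x)
    (hU2 : ∀ s k x, Ad (N s) k → x ∈ CB (ε s) k →
            U s x = Aki (ε s) (N (s + 1)) k (U (s + 1) (Ak (ε s) (N (s + 1)) k x)))
    (s n : ℕ) (i j : Fin 3) :
    ∫⁻ u in Cset ε N s (n + 1) \ Cset ε N s (n + 2), en (rh ε N δ s) (U s) i j u ≤
      ENNReal.ofReal (N s * (ell (ε s) (N (s + 1)) i / ell (ε s) (N (s + 1)) j) *
        (ell (ε s) (N (s + 1)) 0 * ell (ε s) (N (s + 1)) 1 * ell (ε s) (N (s + 1)) 2)) *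
      ∫⁻ u in Cset ε N (s + 1) n \ Cset ε N (s + 1) (n + 1),
        en (rh ε N δ (s + 1)) (U (s + 1)) (i + 2) (j + 2) u := by
  classical
  set T : Set E := Cset ε N (s + 1) n \ Cset ε N (s + 1) (n + 1) with hTdef
  have hT : MeasurableSet T :=
    (Cset_closed ε h0 h1 N n (s + 1)).measurableSet.diff
      (Cset_closed ε h0 h1 N (n + 1) (s + 1)).measurableSet
  set S : Finset ℕ := (Finset.range (N s)).filter (fun k => Ad (N s) k) with hS
  have hsub : Cset ε N s (n + 1) \ Cset ε N s (n + 2) ⊆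
      ⋃ k ∈ S, (Ak (ε s) (N (s + 1)) k) ⁻¹' T := by
    rintro x ⟨⟨k, hk, hx, hxk⟩, hx2⟩
    have hkS : k ∈ S := by
      rw [hS, Finset.mem_filter, Finset.mem_range]
      exact ⟨by have := hk.2; omega, hk⟩
    refine mem_biUnion (show k ∈ (S : Set ℕ) from hkS) ?_
    refine ⟨hxk, fun h => hx2 ⟨k, hk, hx, h⟩⟩
  have hrat : 0 ≤ ell (ε s) (N (s + 1)) i / ell (ε s) (N (s + 1)) j :=
    (div_pos (ell_pos _ (h0 s) (h1 s) _ i) (ell_pos _ (h0 s) (h1 s) _ j)).le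
  have hterm : ∀ k ∈ S, ∫⁻ u in (Ak (ε s) (N (s + 1)) k) ⁻¹' T, en (rh ε N δ s) (U s) i j u =
      ENNReal.ofReal (ell (ε s) (N (s + 1)) 0 * ell (ε s) (N (s + 1)) 1 * ell (ε s) (N (s + 1)) 2) *
      (ENNReal.ofReal (ell (ε s) (N (s + 1)) i / ell (ε s) (N (s + 1)) j) *
        ∫⁻ u in T, en (rh ε N δ (s + 1)) (U (s + 1)) (i + 2) (j + 2) u) := by
    intro k hk
    have hkA : Ad (N s) k := (Finset.mem_filter.mp hk).2
    rw [lint_Ak (ε s) (h0 s) (h1 s) (N (s + 1)) k T hT]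
    congr 1
    rw [← lintegral_const_mul' _ _ ENNReal.ofReal_ne_top]
    apply lintegral_congr_ae
    rw [Filter.EventuallyEq, ae_restrict_iff' hT]
    have hnull := PB_diff_interior_null (N (s + 1))
    have hae : ∀ᵐ u : E, u ∉ PB (N (s + 1)) \ interior (PB (N (s + 1))) :=
      measure_eq_zero_iff_ae_notMem.mp hnull
    filter_upwards [hae] with u hu huT
    have huP : u ∈ PB (N (s + 1)) := Cset_sub_PB ε h0 h1 N n (s + 1) huT.1
    have hui : u ∈ interior (PB (N (s + 1))) := by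
      by_contra h
      exact hu ⟨huP, h⟩
    exact en_child ε h0 h1 N δ hδ0 hδ1 D hD U hU1 hU2 s k (n + 1) hkA u hui huT.2 i j
  have hcard : (S.card : ENNReal) ≤ ENNReal.ofReal (N s : ℝ) := by
    rw [ENNReal.ofReal_natCast]
    have : S.card ≤ N s := by
      calc S.card ≤ (Finset.range (N s)).card := Finset.card_filter_le _ _
        _ = N s := Finset.card_range _
    exact_mod_cast this
  calc ∫⁻ u in Cset ε N s (n + 1) \ Cset ε N s (n + 2), en (rh ε N δ s) (U s) i j u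
      ≤ ∫⁻ u in ⋃ k ∈ S, (Ak (ε s) (N (s + 1)) k) ⁻¹' T, en (rh ε N δ s) (U s) i j u :=
        lintegral_mono_set hsub
    _ ≤ ∑ k ∈ S, ∫⁻ u in (Ak (ε s) (N (s + 1)) k) ⁻¹' T, en (rh ε N δ s) (U s) i j u :=
        lint_biUnion_le_h298_j13 S _ _
    _ = ∑ k ∈ S, ENNReal.ofReal (ell (ε s) (N (s + 1)) 0 * ell (ε s) (N (s + 1)) 1 *
          ell (ε s) (N (s + 1)) 2) *
        (ENNReal.ofReal (ell (ε s) (N (s + 1)) i / ell (ε s) (N (s + 1)) j) *
        ∫⁻ u in T, en (rh ε N δ (s + 1)) (U (s + 1)) (i + 2) (j + 2) u) :=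
        Finset.sum_congr rfl hterm
    _ = (S.card : ENNReal) * (ENNReal.ofReal (ell (ε s) (N (s + 1)) 0 * ell (ε s) (N (s + 1)) 1 *
          ell (ε s) (N (s + 1)) 2) *
        (ENNReal.ofReal (ell (ε s) (N (s + 1)) i / ell (ε s) (N (s + 1)) j) *
        ∫⁻ u in T, en (rh ε N δ (s + 1)) (U (s + 1)) (i + 2) (j + 2) u)) := by
        rw [Finset.sum_const, nsmul_eq_mul]
    _ ≤ ENNReal.ofReal (N s : ℝ) * (ENNReal.ofReal (ell (ε s) (N (s + 1)) 0 *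
          ell (ε s) (N (s + 1)) 1 * ell (ε s) (N (s + 1)) 2) *
        (ENNReal.ofReal (ell (ε s) (N (s + 1)) i / ell (ε s) (N (s + 1)) j) *
        ∫⁻ u in T, en (rh ε N δ (s + 1)) (U (s + 1)) (i + 2) (j + 2) u)) := by
        gcongr
    _ = _ := by
        rw [ENNReal.ofReal_mul (mul_nonneg (Nat.cast_nonneg _) hrat),
          ENNReal.ofReal_mul (Nat.cast_nonneg _)]
        ring

/-! ### j14 -/

/-- energy of the first shell -/
theorem en_base (ε : ℕ → ℝ) (h0 : ∀ s, 0 < ε s) (h1 : ∀ s, ε s ≤ 1 / 4) (N : ℕ → ℕ)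
    (δ : ℕ → ℝ)
    (D : ℕ → E → E)
    (U : ℕ → E → E)
    (hU1 : ∀ s x, (∀ k, Ad (N s) k → x ∉ CB (ε s) k) → U s x = D s x)
    (s : ℕ) (i j : Fin 3) (B : ENNReal)
    (hst : ∫⁻ u in PB (N s) \ {x | ∃ k, Ad (N s) k ∧ x ∈ CB (ε s) k},
      en (rh ε N δ s) (D s) i j u ≤ B) :
    ∫⁻ u in Cset ε N s 0 \ Cset ε N s 1, en (rh ε N δ s) (U s) i j u ≤ B := by
  have hset : Cset ε N s 0 \ Cset ε N s 1 =
      PB (N s) \ {x | ∃ k, Ad (N s) k ∧ x ∈ CB (ε s) k} := by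
    ext x
    simp only [Cset, Set.mem_diff, Set.mem_setOf_eq]
    constructor
    · rintro ⟨h2, h3⟩
      refine ⟨h2, ?_⟩
      rintro ⟨k, hk, hx⟩
      exact h3 ⟨k, hk, hx, (Ak_mem_PB (ε s) (h0 s) (h1 s) (N (s + 1)) k x).2 hx⟩
    · rintro ⟨h2, h3⟩
      refine ⟨h2, ?_⟩
      rintro ⟨k, hk, hx, -⟩
      exact h3 ⟨k, hk, hx⟩
  rw [hset]
  have hmP : MeasurableSet (PB (N s)) := by
    have e0 : Measurable (fun x : E => x 0) := measurable_pi_apply 0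
    have e1 : Measurable (fun x : E => |x 1|) := (measurable_pi_apply 1).abs
    have e2 : Measurable (fun x : E => |x 2|) := (measurable_pi_apply 2).abs
    exact (measurableSet_le measurable_const e0).inter
      ((measurableSet_le e0 measurable_const).inter
      ((measurableSet_le e1 measurable_const).inter (measurableSet_le e2 measurable_const)))
  have hmA : MeasurableSet (PB (N s) \ {x : E | ∃ k, Ad (N s) k ∧ x ∈ CB (ε s) k}) :=
    hmP.diff (isClosed_CBs (ε s) (N s)).measurableSet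
  refine le_trans (le_of_eq ?_) hst
  apply setLIntegral_congr_fun hmA
  intro u hu
  have hopen : {x : E | ∃ k, Ad (N s) k ∧ x ∈ CB (ε s) k}ᶜ ∈ 𝓝 u :=
    (isClosed_CBs (ε s) (N s)).isOpen_compl.mem_nhds hu.2
  have hev : (fun u => XX (rh ε N δ s i) (U s u i)) =ᶠ[𝓝 u]
      (fun u => XX (rh ε N δ s i) (D s u i)) := by
    filter_upwards [hopen] with x hx
    rw [hU1 s x (fun k hk hx2 => hx ⟨k, hk, hx2⟩)]
  simp only [en]
  rw [hev.lineDeriv_eq]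

/-! ### j15 -/

/-- number of layers -/
noncomputable def cnN_j15 (ε C : ℕ → ℝ) (s : ℕ) (p : ℝ × ℝ × ℝ) : ℕ :=
  ⌈8 / ε s + 4 + 2 ^ s * C s + 2 * p.1 * 2 ^ s * C s / p.2.1 +
    2 * p.1 * 2 ^ (s + 2) * (C (s + 1) + C (s + 2)) / p.2.2⌉₊

/-- the state -/
noncomputable def cst_j15 (ε C : ℕ → ℝ) : ℕ → ℝ × ℝ × ℝ
  | 0 => (C 0, 1, 1 / (2 * (C 0 + C 1)))
  | s + 1 => (cf (ε s) * (cst_j15 ε C s).2.1, (1 - ε s) * (cst_j15 ε C s).2.2,
      fh (ε s) * (2 * (cst_j15 ε C s).1 / (cnN_j15 ε C s (cst_j15 ε C s) + 3)))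

/-- invariant -/
def cInv_j15 (C : ℕ → ℝ) (s : ℕ) (p : ℝ × ℝ × ℝ) : Prop :=
  0 < p.1 ∧ 0 < p.2.1 ∧ 0 < p.2.2 ∧ C s * p.2.2 / p.2.1 ≤ (1 / 2) ^ s ∧
    C (s + 1) * p.2.2 / p.2.1 ≤ (1 / 2) ^ (s + 1) ∧ C s * p.2.1 / p.1 ≤ (1 / 2) ^ s

theorem cnN_bounds_j15 (ε : ℕ → ℝ) (h0 : ∀ s, 0 < ε s) (C : ℕ → ℝ) (hC : ∀ s, 1 ≤ C s) (s : ℕ)
    (p : ℝ × ℝ × ℝ) (hp : cInv_j15 C s p) :
    8 / ε s ≤ cnN_j15 ε C s p ∧ (4 : ℝ) ≤ cnN_j15 ε C s p ∧ 2 ^ s * C s ≤ (cnN_j15 ε C s p : ℝ) ∧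
      2 * p.1 * 2 ^ s * C s / p.2.1 ≤ (cnN_j15 ε C s p : ℝ) ∧
      2 * p.1 * 2 ^ (s + 2) * C (s + 1) / p.2.2 ≤ (cnN_j15 ε C s p : ℝ) ∧
      2 * p.1 * 2 ^ (s + 2) * C (s + 2) / p.2.2 ≤ (cnN_j15 ε C s p : ℝ) := by
  obtain ⟨hA, hB, hS, -, -, -⟩ := hp
  have hle : 8 / ε s + 4 + 2 ^ s * C s + 2 * p.1 * 2 ^ s * C s / p.2.1 +
    2 * p.1 * 2 ^ (s + 2) * (C (s + 1) + C (s + 2)) / p.2.2 ≤ (cnN_j15 ε C s p : ℝ) := Nat.le_ceil _
  have hCs : 0 < C s := lt_of_lt_of_le one_pos (hC s)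
  have hCs1 : 0 < C (s + 1) := lt_of_lt_of_le one_pos (hC _)
  have hCs2 : 0 < C (s + 2) := lt_of_lt_of_le one_pos (hC _)
  have e1 : 0 < 8 / ε s := div_pos (by norm_num) (h0 s)
  have e2 : 0 < 2 ^ s * C s := by positivity
  have e3 : 0 < 2 * p.1 * 2 ^ s * C s / p.2.1 := by positivity
  have e4 : 0 < 2 * p.1 * 2 ^ (s + 2) * C (s + 1) / p.2.2 := by positivity
  have e5 : 0 < 2 * p.1 * 2 ^ (s + 2) * C (s + 2) / p.2.2 := by positivity
  have e6 : 2 * p.1 * 2 ^ (s + 2) * (C (s + 1) + C (s + 2)) / p.2.2 =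
    2 * p.1 * 2 ^ (s + 2) * C (s + 1) / p.2.2 + 2 * p.1 * 2 ^ (s + 2) * C (s + 2) / p.2.2 := by
    ring
  rw [e6] at hle
  refine ⟨by linarith, by linarith, by linarith, by linarith, by linarith, by linarith⟩

theorem cInv_all_j15 (ε : ℕ → ℝ) (h0 : ∀ s, 0 < ε s) (h1 : ∀ s, ε s ≤ 1 / 4)
    (C : ℕ → ℝ) (hC : ∀ s, 1 ≤ C s) (s : ℕ) : cInv_j15 C s (cst_j15 ε C s) := by
  induction s with
  | zero =>
    have hC0 : 0 < C 0 := lt_of_lt_of_le one_pos (hC 0)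
    have hC1 : 0 < C 1 := lt_of_lt_of_le one_pos (hC 1)
    refine ⟨hC0, one_pos, by simp only [cst_j15]; positivity, ?_, ?_, ?_⟩
    · simp only [cst_j15, pow_zero, div_one]
      rw [mul_one_div, div_le_one (by positivity)]
      linarith
    · simp only [cst_j15, zero_add, pow_one, div_one]
      rw [mul_one_div, div_le_iff₀ (by positivity)]
      linarith
    · simp only [cst_j15, pow_zero, mul_one]
      rw [div_self hC0.ne']
  | succ s ih =>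
    obtain ⟨b1, b2, b3, b4, b5, b6⟩ := cnN_bounds_j15 ε h0 C hC s _ ih
    obtain ⟨hA, hB, hS, i1, i2, i3⟩ := ih
    set A := (cst_j15 ε C s).1 with hAd
    set B := (cst_j15 ε C s).2.1 with hBd
    set S := (cst_j15 ε C s).2.2 with hSd
    set N : ℝ := (cnN_j15 ε C s (cst_j15 ε C s) : ℝ) with hN
    have hε0 := h0 s
    have hε1 := h1 s
    have hCs1 : 0 < C (s + 1) := lt_of_lt_of_le one_pos (hC _)
    have hCs2 : 0 < C (s + 2) := lt_of_lt_of_le one_pos (hC _)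
    have hcf : cf (ε s) = 1 - ε s / 2 := by unfold cf wd; ring
    have hcf0 : 0 < cf (ε s) := by rw [hcf]; linarith
    have hcf1 : 1 - ε s ≤ cf (ε s) := by rw [hcf]; linarith
    have hfh : fh (ε s) = (1 - ε s) / 2 := rfl
    have hfh0 : 0 < fh (ε s) := by rw [hfh]; linarith
    have hε2 : 0 < 1 - ε s := by linarith
    have hN3 : 0 < N + 3 := by linarith
    have hst : cst_j15 ε C (s + 1) = (cf (ε s) * B, (1 - ε s) * S, fh (ε s) * (2 * A / (N + 3))) := rfl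
    rw [hst]
    have hp3 : (0 : ℝ) < 2 ^ (s + 2) := by positivity
    have hhalf : ((1 : ℝ) / 2) ^ (s + 1) * 2 ^ (s + 2) = 2 := by
      rw [div_pow, one_pow, pow_succ (2 : ℝ) (s + 1)]
      have : (2 : ℝ) ^ (s + 1) ≠ 0 := by positivity
      field_simp
    have hhalf2 : ((1 : ℝ) / 2) ^ (s + 2) * 2 ^ (s + 2) = 1 := by
      rw [← mul_pow]; norm_num
    refine ⟨by positivity, by positivity, by positivity, ?_, ?_, ?_⟩
    · -- C (s+1) * S' / B'
      show C (s + 1) * (fh (ε s) * (2 * A / (N + 3))) / ((1 - ε s) * S) ≤ (1 / 2) ^ (s + 1)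
      have e : C (s + 1) * (fh (ε s) * (2 * A / (N + 3))) / ((1 - ε s) * S) =
          C (s + 1) * A / (S * (N + 3)) := by
        rw [hfh]; field_simp
      rw [e, div_le_iff₀ (by positivity)]
      rw [div_le_iff₀ hS] at b5
      have hpos : (0 : ℝ) < (1 / 2) ^ (s + 1) := by positivity
      have h2 : 2 * A * 2 ^ (s + 2) * C (s + 1) * (1 / 2) ^ (s + 1) ≤ N * S * (1 / 2) ^ (s + 1) :=
        mul_le_mul_of_nonneg_right b5 hpos.le
      have h3 : 2 * A * 2 ^ (s + 2) * C (s + 1) * (1 / 2) ^ (s + 1) = 4 * (C (s + 1) * A) := by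
        calc 2 * A * 2 ^ (s + 2) * C (s + 1) * (1 / 2) ^ (s + 1)
            = 2 * A * C (s + 1) * ((1 / 2) ^ (s + 1) * 2 ^ (s + 2)) := by ring
          _ = _ := by rw [hhalf]; ring
      have h4 : 0 < C (s + 1) * A := by positivity
      have h5 : 0 < (1 / 2 : ℝ) ^ (s + 1) * S := by positivity
      nlinarith
    · show C (s + 1 + 1) * (fh (ε s) * (2 * A / (N + 3))) / ((1 - ε s) * S) ≤
        (1 / 2) ^ (s + 1 + 1)
      have e : C (s + 1 + 1) * (fh (ε s) * (2 * A / (N + 3))) / ((1 - ε s) * S) =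
          C (s + 2) * A / (S * (N + 3)) := by
        rw [hfh]; field_simp
      rw [e, div_le_iff₀ (by positivity)]
      rw [div_le_iff₀ hS] at b6
      have hpos : (0 : ℝ) < (1 / 2) ^ (s + 2) := by positivity
      have h2 : 2 * A * 2 ^ (s + 2) * C (s + 2) * (1 / 2) ^ (s + 2) ≤ N * S * (1 / 2) ^ (s + 2) :=
        mul_le_mul_of_nonneg_right b6 hpos.le
      have h3 : 2 * A * 2 ^ (s + 2) * C (s + 2) * (1 / 2) ^ (s + 2) = 2 * (C (s + 2) * A) := by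
        calc 2 * A * 2 ^ (s + 2) * C (s + 2) * (1 / 2) ^ (s + 2)
            = 2 * A * C (s + 2) * ((1 / 2) ^ (s + 2) * 2 ^ (s + 2)) := by ring
          _ = _ := by rw [hhalf2]; ring
      have h4 : 0 < C (s + 2) * A := by positivity
      have h5 : 0 < (1 / 2 : ℝ) ^ (s + 2) * S := by positivity
      show C (s + 2) * A ≤ (1 / 2) ^ (s + 2) * (S * (N + 3))
      nlinarith
    · show C (s + 1) * ((1 - ε s) * S) / (cf (ε s) * B) ≤ (1 / 2) ^ (s + 1)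
      refine le_trans ?_ i2
      rw [div_le_div_iff₀ (by positivity) hB]
      have h4 : 0 < C (s + 1) * S * B := by positivity
      nlinarith [mul_le_mul_of_nonneg_left hcf1 h4.le]


theorem choice_N (ε : ℕ → ℝ) (h0 : ∀ s, 0 < ε s) (h1 : ∀ s, ε s ≤ 1 / 4)
    (C : ℕ → ℝ) (hC : ∀ s, 1 ≤ C s) :
    ∃ (N : ℕ → ℕ) (c : ℕ → Fin 3 → ℝ), (∀ s, 8 / ε s ≤ N s) ∧ (∀ s, 4 ≤ N s) ∧
      (∀ s i, 0 < c s i) ∧ (∀ s i, c (s + 1) (i + 2) = c s i * ell (ε s) (N (s + 1)) i) ∧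
      ∀ s i j, c s i / c s j * ((if j = 1 ∧ i ≠ 1 then C s else 0) +
        (if j = 0 then 5 * C s / (N s + 3) else 0)) ≤ 5 * (1 / 2) ^ s := by
  have hinv := cInv_all_j15 ε h0 h1 C hC
  have hb := fun s => cnN_bounds_j15 ε h0 C hC s _ (hinv s)
  refine ⟨fun s => cnN_j15 ε C s (cst_j15 ε C s), fun s => ![2 * (cst_j15 ε C s).1 /
    ((cnN_j15 ε C s (cst_j15 ε C s) : ℝ) + 3), (cst_j15 ε C s).2.1, (cst_j15 ε C s).2.2], fun s => (hb s).1,
    fun s => by have := (hb s).2.1; exact_mod_cast this, ?_, ?_, ?_⟩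
  · intro s i
    obtain ⟨hA, hB, hS, -, -, -⟩ := hinv s
    fin_cases i
    · show 0 < 2 * (cst_j15 ε C s).1 / ((cnN_j15 ε C s (cst_j15 ε C s) : ℝ) + 3)
      positivity
    · exact hB
    · exact hS
  · intro s i
    fin_cases i
    · show fh (ε s) * (2 * (cst_j15 ε C s).1 / (cnN_j15 ε C s (cst_j15 ε C s) + 3)) =
        2 * (cst_j15 ε C s).1 / ((cnN_j15 ε C s (cst_j15 ε C s) : ℝ) + 3) * fh (ε s)
      ring
    · show 2 * (cf (ε s) * (cst_j15 ε C s).2.1) / ((cnN_j15 ε C (s + 1) (cst_j15 ε C (s + 1)) : ℝ) + 3) =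
        (cst_j15 ε C s).2.1 * (2 * cf (ε s) / ((cnN_j15 ε C (s + 1) (cst_j15 ε C (s + 1)) : ℝ) + 3))
      ring
    · show (1 - ε s) * (cst_j15 ε C s).2.2 = (cst_j15 ε C s).2.2 * (1 - ε s)
      ring
  · intro s i j
    obtain ⟨hA, hB, hS, i1, i2, i3⟩ := hinv s
    obtain ⟨b1, b2, b3, b4, b5, b6⟩ := hb s
    set A := (cst_j15 ε C s).1 with hAd
    set B := (cst_j15 ε C s).2.1 with hBd
    set S := (cst_j15 ε C s).2.2 with hSd
    set N : ℝ := (cnN_j15 ε C s (cst_j15 ε C s) : ℝ) with hN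
    have hCs : 0 < C s := lt_of_lt_of_le one_pos (hC s)
    have hC1 := hC s
    have hN3 : 0 < N + 3 := by linarith
    have hpos : (0 : ℝ) < (1 / 2) ^ s := by positivity
    have hle1 : ((1 : ℝ) / 2) ^ s ≤ 1 := pow_le_one₀ (by norm_num) (by norm_num)
    have hhalf : ((1 : ℝ) / 2) ^ s * 2 ^ s = 1 := by
      rw [← mul_pow]; norm_num
    have k01 : 2 * A / (N + 3) / B * C s ≤ (1 / 2) ^ s := by
      rw [div_le_iff₀ hB] at b4
      have e : 2 * A / (N + 3) / B * C s = 2 * A * C s / (B * (N + 3)) := by field_simp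
      rw [e, div_le_iff₀ (by positivity)]
      have h2 := mul_le_mul_of_nonneg_right b4 hpos.le
      have h3 : 2 * A * 2 ^ s * C s * (1 / 2) ^ s = 2 * A * C s := by
        calc 2 * A * 2 ^ s * C s * (1 / 2) ^ s = 2 * A * C s * ((1 / 2) ^ s * 2 ^ s) := by ring
          _ = _ := by rw [hhalf]; ring
      have h5 : 0 < (1 / 2 : ℝ) ^ s * B := by positivity
      nlinarith
    have k00 : 5 * C s / (N + 3) ≤ 5 * (1 / 2) ^ s := by
      rw [div_le_iff₀ hN3]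
      have h2 := mul_le_mul_of_nonneg_right b3 hpos.le
      have h3 : 2 ^ s * C s * (1 / 2) ^ s = C s := by
        calc 2 ^ s * C s * (1 / 2) ^ s = C s * ((1 / 2) ^ s * 2 ^ s) := by ring
          _ = _ := by rw [hhalf]; ring
      nlinarith
    have k10 : B / (2 * A / (N + 3)) * (5 * C s / (N + 3)) ≤ 5 * (1 / 2) ^ s := by
      have e : B / (2 * A / (N + 3)) * (5 * C s / (N + 3)) = 5 / 2 * (C s * B / A) := by
        field_simp
      rw [e]; linarith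
    have k20 : S / (2 * A / (N + 3)) * (5 * C s / (N + 3)) ≤ 5 * (1 / 2) ^ s := by
      have e : S / (2 * A / (N + 3)) * (5 * C s / (N + 3)) = 5 / 2 * (S / B * (C s * B / A)) := by
        field_simp
      rw [e]
      have h2 : S / B ≤ C s * S / B := by
        apply div_le_div_of_nonneg_right _ hB.le
        nlinarith
      have h3 : S / B ≤ 1 := by linarith
      have h4 : 0 < C s * B / A := by positivity
      have h5 : S / B * (C s * B / A) ≤ 1 * (C s * B / A) := mul_le_mul_of_nonneg_right h3 h4.le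
      linarith
    have k21 : S / B * C s ≤ (1 / 2) ^ s := by
      have e : S / B * C s = C s * S / B := by ring
      rw [e]; exact i1
    have kp : (0 : ℝ) ≤ 5 * (1 / 2) ^ s := by positivity
    fin_cases i <;> fin_cases j
    · show 2 * A / (N + 3) / (2 * A / (N + 3)) * ((if ((0 : Fin 3) = 1 ∧ (0 : Fin 3) ≠ 1) then C s else 0) +
        (if ((0 : Fin 3) = 0) then 5 * C s / (N + 3) else 0)) ≤ 5 * (1 / 2) ^ s
      rw [div_self (by positivity), if_neg (by decide), if_pos rfl]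
      linarith
    · show 2 * A / (N + 3) / B * ((if ((1 : Fin 3) = 1 ∧ (0 : Fin 3) ≠ 1) then C s else 0) +
        (if ((1 : Fin 3) = 0) then 5 * C s / (N + 3) else 0)) ≤ 5 * (1 / 2) ^ s
      rw [if_pos (by decide), if_neg (by decide), add_zero]
      linarith
    · show 2 * A / (N + 3) / S * ((if ((2 : Fin 3) = 1 ∧ (0 : Fin 3) ≠ 1) then C s else 0) +
        (if ((2 : Fin 3) = 0) then 5 * C s / (N + 3) else 0)) ≤ 5 * (1 / 2) ^ s
      rw [if_neg (by decide), if_neg (by decide), add_zero, mul_zero]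
      exact kp
    · show B / (2 * A / (N + 3)) * ((if ((0 : Fin 3) = 1 ∧ (1 : Fin 3) ≠ 1) then C s else 0) +
        (if ((0 : Fin 3) = 0) then 5 * C s / (N + 3) else 0)) ≤ 5 * (1 / 2) ^ s
      rw [if_neg (by decide), if_pos rfl, zero_add]
      exact k10
    · show B / B * ((if ((1 : Fin 3) = 1 ∧ (1 : Fin 3) ≠ 1) then C s else 0) +
        (if ((1 : Fin 3) = 0) then 5 * C s / (N + 3) else 0)) ≤ 5 * (1 / 2) ^ s
      rw [if_neg (by decide), if_neg (by decide), add_zero, mul_zero]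
      exact kp
    · show B / S * ((if ((2 : Fin 3) = 1 ∧ (1 : Fin 3) ≠ 1) then C s else 0) +
        (if ((2 : Fin 3) = 0) then 5 * C s / (N + 3) else 0)) ≤ 5 * (1 / 2) ^ s
      rw [if_neg (by decide), if_neg (by decide), add_zero, mul_zero]
      exact kp
    · show S / (2 * A / (N + 3)) * ((if ((0 : Fin 3) = 1 ∧ (2 : Fin 3) ≠ 1) then C s else 0) +
        (if ((0 : Fin 3) = 0) then 5 * C s / (N + 3) else 0)) ≤ 5 * (1 / 2) ^ s
      rw [if_neg (by decide), if_pos rfl, zero_add]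
      exact k20
    · show S / B * ((if ((1 : Fin 3) = 1 ∧ (2 : Fin 3) ≠ 1) then C s else 0) +
        (if ((1 : Fin 3) = 0) then 5 * C s / (N + 3) else 0)) ≤ 5 * (1 / 2) ^ s
      rw [if_pos (by decide), if_neg (by decide), add_zero]
      linarith
    · show S / S * ((if ((2 : Fin 3) = 1 ∧ (2 : Fin 3) ≠ 1) then C s else 0) +
        (if ((2 : Fin 3) = 0) then 5 * C s / (N + 3) else 0)) ≤ 5 * (1 / 2) ^ s
      rw [if_neg (by decide), if_neg (by decide), add_zero, mul_zero]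
      exact kp

/-! ### j16 -/

theorem choice_delta (M : ℕ → ℝ) (hM : ∀ s, 0 < M s) :
    ∃ δ : ℕ → ℝ, (∀ s, 0 < δ s) ∧ (∀ s, δ s ≤ 1) ∧ (∀ s, δ (s + 1) ≤ δ s) ∧
      ∀ s, δ s * M s ≤ (1 / 2) ^ s := by
  have hS : ∀ s, 0 ≤ ∑ t ∈ Finset.range (s + 1), M t := fun s =>
    Finset.sum_nonneg fun t _ => (hM t).le
  have hpos : ∀ s, 0 < 1 + ∑ t ∈ Finset.range (s + 1), M t := fun s => by linarith [hS s]
  refine ⟨fun s => (1 / 2) ^ s / (1 + ∑ t ∈ Finset.range (s + 1), M t), fun s => ?_, fun s => ?_,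
    fun s => ?_, fun s => ?_⟩
  · have := hpos s
    positivity
  · show (1 / 2 : ℝ) ^ s / (1 + ∑ t ∈ Finset.range (s + 1), M t) ≤ 1
    rw [div_le_one (hpos s)]
    have h1 : (1 / 2 : ℝ) ^ s ≤ 1 := pow_le_one₀ (by norm_num) (by norm_num)
    linarith [hS s]
  · show (1 / 2 : ℝ) ^ (s + 1) / (1 + ∑ t ∈ Finset.range (s + 1 + 1), M t) ≤
      (1 / 2 : ℝ) ^ s / (1 + ∑ t ∈ Finset.range (s + 1), M t)
    apply div_le_div₀ (by positivity) _ (hpos s)
    · rw [Finset.sum_range_succ _ (s + 1)]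
      linarith [(hM (s + 1)).le]
    · rw [pow_succ]
      have : (0:ℝ) < (1 / 2) ^ s := by positivity
      linarith
  · show (1 / 2 : ℝ) ^ s / (1 + ∑ t ∈ Finset.range (s + 1), M t) * M s ≤ (1 / 2) ^ s
    have h2 : M s ≤ 1 + ∑ t ∈ Finset.range (s + 1), M t := by
      rw [Finset.sum_range_succ]
      have : 0 ≤ ∑ t ∈ Finset.range s, M t := Finset.sum_nonneg fun t _ => (hM t).le
      linarith
    rw [div_mul_eq_mul_div, div_le_iff₀ (hpos s)]
    exact mul_le_mul_of_nonneg_left h2 (by positivity)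

/-! ### j17 -/

theorem shell_bound_prod_j17 (ε : ℝ) (h0 : 0 < ε) (h1 : ε ≤ 1 / 4) (N' : ℕ) :
    ell ε N' 0 * ell ε N' 1 * ell ε N' 2 * (N' + 3) ≤ 1 := by
  show fh ε * (2 * cf ε / (N' + 3)) * (1 - ε) * (N' + 3) ≤ 1
  have hN : ((N' : ℝ) + 3) ≠ 0 := by positivity
  have h2 : fh ε * (2 * cf ε / (N' + 3)) * (1 - ε) * (N' + 3) = (1 - ε) * (1 - ε / 2) * (1 - ε) := by
    unfold fh cf wd
    field_simp
    ring
  rw [h2]
  have h3 : (1 - ε) * (1 - ε / 2) ≤ 1 := by nlinarith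
  have h4 : 0 ≤ (1 - ε) * (1 - ε / 2) := by
    apply mul_nonneg <;> linarith
  calc (1 - ε) * (1 - ε / 2) * (1 - ε) ≤ 1 * 1 :=
        mul_le_mul h3 (by linarith) (by linarith) zero_le_one
    _ = 1 := one_mul 1

theorem shell_bound (ε : ℕ → ℝ) (h0 : ∀ s, 0 < ε s) (h1 : ∀ s, ε s ≤ 1 / 4) (N : ℕ → ℕ)
    (c : ℕ → Fin 3 → ℝ) (hc : ∀ s i, 0 < c s i)
    (hc' : ∀ s i, c (s + 1) (i + 2) = c s i * ell (ε s) (N (s + 1)) i)
    (T : ℕ → Fin 3 → Fin 3 → ℝ) (b : ℕ → ℝ) (hb0 : ∀ s, 0 ≤ b s)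
    (hT : ∀ s i j, c s i / c s j * T s i j ≤ b s)
    (G : ℕ → ℕ → Fin 3 → Fin 3 → ENNReal)
    (hG0 : ∀ s i j, G 0 s i j ≤ ENNReal.ofReal (4 * (N s + 3) * T s i j))
    (hG1 : ∀ n s i j, G (n + 1) s i j ≤
      ENNReal.ofReal (N s * (ell (ε s) (N (s + 1)) i / ell (ε s) (N (s + 1)) j) *
        (ell (ε s) (N (s + 1)) 0 * ell (ε s) (N (s + 1)) 1 * ell (ε s) (N (s + 1)) 2)) *
      G n (s + 1) (i + 2) (j + 2)) (n : ℕ) :
    ∀ s i j, G n s i j ≤ ENNReal.ofReal (4 * (N s + 3) * (c s j / c s i) * b (s + n)) := by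
  induction n with
  | zero =>
    intro s i j
    refine (hG0 s i j).trans (ENNReal.ofReal_le_ofReal ?_)
    have hci := hc s i
    have hcj := hc s j
    have h2 : T s i j = (c s j / c s i) * (c s i / c s j * T s i j) := by
      field_simp
    have h3 : T s i j ≤ (c s j / c s i) * b s := by
      rw [h2]
      exact mul_le_mul_of_nonneg_left (hT s i j) (by positivity)
    rw [add_zero, mul_assoc (4 * ((N s : ℝ) + 3))]
    exact mul_le_mul_of_nonneg_left h3 (by positivity)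
  | succ n ih =>
    intro s i j
    refine (hG1 n s i j).trans ?_
    refine (mul_le_mul_right (ih (s + 1) (i + 2) (j + 2)) _).trans ?_
    have hli := ell_pos (ε s) (h0 s) (h1 s) (N (s + 1)) i
    have hlj := ell_pos (ε s) (h0 s) (h1 s) (N (s + 1)) j
    have hl0 := ell_pos (ε s) (h0 s) (h1 s) (N (s + 1)) 0
    have hl1 := ell_pos (ε s) (h0 s) (h1 s) (N (s + 1)) 1
    have hl2 := ell_pos (ε s) (h0 s) (h1 s) (N (s + 1)) 2
    have hP := shell_bound_prod_j17 (ε s) (h0 s) (h1 s) (N (s + 1))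
    have hci := hc s i
    have hcj := hc s j
    rw [← ENNReal.ofReal_mul (by positivity), hc' s i, hc' s j]
    apply ENNReal.ofReal_le_ofReal
    have hb := hb0 (s + (n + 1))
    have e1 : s + 1 + n = s + (n + 1) := by omega
    rw [e1]
    obtain ⟨li, hlie⟩ : ∃ x, x = ell (ε s) (N (s + 1)) i := ⟨_, rfl⟩
    obtain ⟨lj, hlje⟩ : ∃ x, x = ell (ε s) (N (s + 1)) j := ⟨_, rfl⟩
    obtain ⟨P, hPe⟩ : ∃ x, x = ell (ε s) (N (s + 1)) 0 * ell (ε s) (N (s + 1)) 1 *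
      ell (ε s) (N (s + 1)) 2 := ⟨_, rfl⟩
    rw [← hPe] at hP ⊢
    rw [← hlie] at hli ⊢
    rw [← hlje] at hlj ⊢
    have e2 : (N s : ℝ) * (li / lj) * P * (4 * ((N (s + 1) : ℕ) + 3 : ℝ) *
        (c s j * lj / (c s i * li)) * b (s + (n + 1))) =
        (4 * (N s : ℝ) * (c s j / c s i) * b (s + (n + 1))) * (P * ((N (s + 1) : ℕ) + 3 : ℝ)) := by
      field_simp
    rw [e2]
    have h4 : 0 ≤ 4 * (N s : ℝ) * (c s j / c s i) * b (s + (n + 1)) := by positivity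
    have h5 : 4 * (N s : ℝ) * (c s j / c s i) * b (s + (n + 1)) ≤
        4 * ((N s : ℝ) + 3) * (c s j / c s i) * b (s + (n + 1)) := by
      have h6 : 0 ≤ (c s j / c s i) * b (s + (n + 1)) := by positivity
      nlinarith
    refine le_trans ?_ h5
    calc (4 * (N s : ℝ) * (c s j / c s i) * b (s + (n + 1))) * (P * ((N (s + 1) : ℕ) + 3 : ℝ))
        ≤ (4 * (N s : ℝ) * (c s j / c s i) * b (s + (n + 1))) * 1 :=
          mul_le_mul_of_nonneg_left hP h4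
      _ = _ := mul_one _

/-- the conclusion of `stage_energy` -/
def StageEnergy : Prop :=
  ∀ (ε ε' : ℝ) (_ : 0 < ε) (_ : ε ≤ 1 / 4) (_ : 0 < ε') (_ : ε' ≤ 1 / 4)
    (N N' : ℕ) (_ : 4 ≤ N) (_ : 4 ≤ N') (D : E → E) (C L : ℝ) (_ : 1 ≤ C) (_ : 1 ≤ L)
    (_ : StageE ε ε' N N' D C L) (_ : ∀ x ∈ PB N, D x ∈ PB N)
    (δ : ℝ) (_ : 0 < δ) (_ : δ ≤ 1) (ρ : Fin 3 → ℝ → ℝ) (_ : Dens ρ) (_ : Small ε ε' N N' δ ρ)
    (i j : Fin 3),
    ∫⁻ u in PB N \ {x | ∃ k, Ad N k ∧ x ∈ CB ε k}, en ρ D i j u ≤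
      ENNReal.ofReal (4 * (N + 3) * (δ * L + (if j = 1 ∧ i ≠ 1 then C else 0)
        + (if j = 0 then 5 * C / (N + 3) else 0)))

theorem partE_aux (hse : StageEnergy) (ε : ℕ → ℝ) (h0 : ∀ s, 0 < ε s) (h1 : ∀ s, ε s ≤ 1 / 4)
    (C : ℕ → ℝ) (hC : ∀ s, 1 ≤ C s) :
    ∃ N : ℕ → ℕ, (∀ s, 8 / ε s ≤ N s) ∧ (∀ s, 4 ≤ N s) ∧
      ∀ (D : ℕ → E → E) (L : ℕ → ℝ), (∀ s, 1 ≤ L s) →
        (∀ s, StageE (ε s) (ε (s + 1)) (N s) (N (s + 1)) (D s) (C s) (L s)) →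
        (∀ s, ∀ x ∈ PB (N s), D s x ∈ PB (N s)) →
        ∀ U : ℕ → E → E,
          (∀ s x, (∀ k, Ad (N s) k → x ∉ CB (ε s) k) → U s x = D s x) →
          (∀ s k x, Ad (N s) k → x ∈ CB (ε s) k →
            U s x = Aki (ε s) (N (s + 1)) k (U (s + 1) (Ak (ε s) (N (s + 1)) k x))) →
          ∃ ρ : Fin 3 → ℝ → ℝ, Dens ρ ∧
            ∀ i j, ∫⁻ u in PB (N 0) \ KK ε N 0, en ρ (U 0) i j u < ⊤ := by
  obtain ⟨N, c, hN8, hN4, hc, hc', hch⟩ := choice_N ε h0 h1 C hC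
  refine ⟨N, hN8, hN4, ?_⟩
  intro D L hL hSE hDP U hU1 hU2
  have hS : ∀ s, 0 < ∑ i : Fin 3, ∑ j : Fin 3, c s i / c s j := fun s =>
    Finset.sum_pos (fun i _ => Finset.sum_pos (fun j _ => div_pos (hc s i) (hc s j))
      Finset.univ_nonempty) Finset.univ_nonempty
  have hle : ∀ s i j, c s i / c s j ≤ ∑ i : Fin 3, ∑ j : Fin 3, c s i / c s j := by
    intro s i j
    calc c s i / c s j ≤ ∑ j : Fin 3, c s i / c s j :=
          Finset.single_le_sum (f := fun j => c s i / c s j)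
            (fun j _ => (div_pos (hc s i) (hc s j)).le) (Finset.mem_univ j)
      _ ≤ _ := Finset.single_le_sum (f := fun i => ∑ j : Fin 3, c s i / c s j)
            (fun i _ => Finset.sum_nonneg fun j _ => (div_pos (hc s i) (hc s j)).le)
            (Finset.mem_univ i)
  obtain ⟨δ, hδ0, hδ1, hδ2, hδM⟩ := choice_delta
    (fun s => L s * ∑ i : Fin 3, ∑ j : Fin 3, c s i / c s j)
    (fun s => mul_pos (lt_of_lt_of_le one_pos (hL s)) (hS s))
  refine ⟨rh ε N δ 0, rh_dens ε h0 h1 N δ hδ0 hδ1 0, ?_⟩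
  intro i j
  have key := shell_bound ε h0 h1 N c hc hc' (fun s i j => stg (N s) (δ s) (L s) (C s) i j)
    (fun s => 6 * (1 / 2) ^ s) (fun s => by positivity)
    (by
      intro s i j
      have e : c s i / c s j * stg (N s) (δ s) (L s) (C s) i j =
          c s i / c s j * (δ s * L s) + c s i / c s j * ((if j = 1 ∧ i ≠ 1 then C s else 0) +
            (if j = 0 then 5 * C s / (N s + 3) else 0)) := by
        unfold stg; ring
      rw [e]
      have h2 : c s i / c s j * (δ s * L s) ≤ (1 / 2) ^ s := by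
        refine le_trans ?_ (hδM s)
        have h3 : c s i / c s j * (δ s * L s) ≤
            (∑ i : Fin 3, ∑ j : Fin 3, c s i / c s j) * (δ s * L s) :=
          mul_le_mul_of_nonneg_right (hle s i j)
            (mul_nonneg (hδ0 s).le (le_trans zero_le_one (hL s)))
        refine h3.trans (le_of_eq ?_)
        ring
      have h4 := hch s i j
      linarith)
    (fun n s i j => ∫⁻ u in Cset ε N s n \ Cset ε N s (n + 1), en (rh ε N δ s) (U s) i j u)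
    (by
      intro s i j
      refine en_base ε h0 h1 N δ D U hU1 s i j _ ?_
      exact hse (ε s) (ε (s + 1)) (h0 s) (h1 s) (h0 _) (h1 _) (N s) (N (s + 1)) (hN4 s) (hN4 _)
        (D s) (C s) (L s) (hC s) (hL s) (hSE s) (hDP s) (δ s) (hδ0 s) (hδ1 s) (rh ε N δ s)
        (rh_dens ε h0 h1 N δ hδ0 hδ1 s) (rh_small ε h0 h1 N δ hδ0 hδ1 hδ2 s) i j)
    (by
      intro n s i j
      exact en_rec ε h0 h1 N δ hδ0 hδ1 D hDP U hU1 hU2 s n i j)
  calc ∫⁻ u in PB (N 0) \ KK ε N 0, en (rh ε N δ 0) (U 0) i j u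
      ≤ ∫⁻ u in ⋃ n, (Cset ε N 0 n \ Cset ε N 0 (n + 1)), en (rh ε N δ 0) (U 0) i j u :=
        lintegral_mono_set (PB_diff_KK ε h0 h1 N 0)
    _ ≤ ∑' n, ∫⁻ u in Cset ε N 0 n \ Cset ε N 0 (n + 1), en (rh ε N δ 0) (U 0) i j u :=
        lintegral_iUnion_le _ _
    _ ≤ ∑' n : ℕ, ENNReal.ofReal (4 * (N 0 + 3) * (c 0 j / c 0 i) * (6 * (1 / 2) ^ (0 + n))) :=
        ENNReal.tsum_le_tsum fun n => key n 0 i j
    _ < ⊤ := by
        rw [← ENNReal.ofReal_tsum_of_nonneg]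
        · exact ENNReal.ofReal_lt_top
        · intro n
          have := div_pos (hc 0 j) (hc 0 i)
          positivity
        · simp only [zero_add]
          exact ((summable_geometric_of_lt_one (by norm_num) (by norm_num)).mul_left 6).mul_left _

theorem stageEnergy : StageEnergy := by
  intro ε ε' h0 h1 h0' h1' N N' hN hN' D C L hC hL h hDP δ hδ hδ1 ρ hρ hs i j
  exact stage_energy ε ε' h0 h1 h0' h1' N N' hN hN' D C L hC hL h hDP δ hδ hδ1 ρ hρ hs i j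

end Pool.Agent.ZZ.PE

namespace Pool.Agent.ZZ

/-- Choice of the layer numbers and of the densities; energy summation.
`U` satisfies the recursion of partB. -/
theorem partE (ε : ℕ → ℝ) (h0 : ∀ s, 0 < ε s) (h1 : ∀ s, ε s ≤ 1 / 4) (hsum : Summable ε)
    (C : ℕ → ℝ) (hC : ∀ s, 1 ≤ C s) :
    ∃ N : ℕ → ℕ, (∀ s, 8 / ε s ≤ N s) ∧ (∀ s, 4 ≤ N s) ∧
      ∀ (D : ℕ → E → E) (L : ℕ → ℝ), (∀ s, 1 ≤ L s) →
        (∀ s, StageE (ε s) (ε (s + 1)) (N s) (N (s + 1)) (D s) (C s) (L s)) →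
        (∀ s, ∀ x ∈ PB (N s), D s x ∈ PB (N s)) →
        ∀ U : ℕ → E → E, (∀ s, Continuous (U s)) →
          (∀ s, ∀ x ∉ KK ε N s, ∃ t ∈ 𝓝 x, ∃ L : ℝ≥0, LipschitzOnWith L (U s) t) →
          (∀ s x, (∀ k, Ad (N s) k → x ∉ CB (ε s) k) → U s x = D s x) →
          (∀ s k x, Ad (N s) k → x ∈ CB (ε s) k →
            U s x = Aki (ε s) (N (s + 1)) k (U (s + 1) (Ak (ε s) (N (s + 1)) k x))) →
          ∃ ρ : Fin 3 → ℝ → ℝ, Dens ρ ∧
            ∀ i j, ∫⁻ u in PB (N 0) \ KK ε N 0, en ρ (U 0) i j u < ⊤ := by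
  obtain ⟨N, h2, h3, h4⟩ := PE.partE_aux PE.stageEnergy ε h0 h1 C hC
  exact ⟨N, h2, h3, fun D L hL hS hDP U _ _ hU1 hU2 => h4 D L hL hS hDP U hU1 hU2⟩

end Pool.Agent.ZZ
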