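import Pool.Agent.ZZ.Defs2

/-! job 26880, proof by helper714 -/

set_option autoImplicit false
open Set Filter Topology MeasureTheory
open scoped NNReal

namespace Pool.Agent.ZZ

namespace J26880
theorem ccj_qq1 {y z : ℝ} (hy : 0 ≤ y) (h : z ≤ 3 * y / 4) : qq y z = y := by
  unfold qq
  rw [min_eq_left (show y ≤ 7 * y - 8 * z by linarith)]
  exact max_eq_left ((min_le_left _ _).trans (by linarith))

theorem ccj_qq2 {y z : ℝ} (h1 : 3 * y / 4 ≤ z) (h2 : z ≤ y) : qq y z = 7 * y - 8 * z := by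
  unfold qq
  rw [min_eq_right (show 7 * y - 8 * z ≤ y by linarith)]
  exact max_eq_left ((min_le_left _ _).trans (by linarith))

theorem ccj_qq3 {y z : ℝ} (h1 : 3 * z / 4 ≤ y) (h2 : y ≤ z) : qq y z = -z := by
  unfold qq
  rw [max_eq_left (show z / 2 - 2 * y ≤ -z by linarith), min_eq_right (show -z ≤ -y by linarith)]
  exact max_eq_right ((min_le_right _ _).trans (by linarith))

theorem ccj_qq4 {y z : ℝ} (hy : 0 ≤ y) (h1 : z / 2 ≤ y) (h2 : y ≤ 3 * z / 4) :
    qq y z = z / 2 - 2 * y := by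
  unfold qq
  rw [max_eq_right (show -z ≤ z / 2 - 2 * y by linarith),
    min_eq_right (show z / 2 - 2 * y ≤ -y by linarith)]
  exact max_eq_right ((min_le_right _ _).trans (by linarith))

theorem ccj_qq5 {y z : ℝ} (hy : 0 ≤ y) (h : y ≤ z / 2) : qq y z = -y := by
  unfold qq
  rw [max_eq_right (show -z ≤ z / 2 - 2 * y by linarith),
    min_eq_left (show -y ≤ z / 2 - 2 * y by linarith)]
  exact max_eq_right ((min_le_right _ _).trans (by linarith))

theorem ccj_qq_bound {y z : ℝ} (hy : 0 ≤ y) (hz : 0 ≤ z) : |qq y z| ≤ 2 * y := by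
  rw [abs_le]
  rcases le_total z (3 * y / 4) with h | h
  · rw [ccj_qq1 hy h]
    constructor <;> linarith
  · rcases le_total z y with h2 | h2
    · rw [ccj_qq2 h h2]
      constructor <;> linarith
    · rcases le_total (3 * z / 4) y with h3 | h3
      · rw [ccj_qq3 h3 h2]
        constructor <;> linarith
      · rcases le_total (z / 2) y with h4 | h4
        · rw [ccj_qq4 hy h4 h3]
          constructor <;> linarith
        · rw [ccj_qq5 hy h4]
          constructor <;> linarith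

theorem ccj_qq_zero {z : ℝ} (hz : 0 ≤ z) : qq 0 z = 0 := by
  rw [ccj_qq5 le_rfl (by linarith), neg_zero]

theorem ccj_pos {y : ℝ} (z : ℝ) (hy : 0 ≤ y) : cc y z = qq y |z| := if_pos hy

theorem ccj_neg {y : ℝ} (z : ℝ) (hy : y ≤ 0) : cc y z = - qq (-y) |z| := by
  rcases hy.lt_or_eq with h | h
  · exact if_neg (not_le.mpr h)
  · subst h
    rw [ccj_pos z le_rfl, neg_zero, ccj_qq_zero (abs_nonneg z), neg_zero]

theorem ccj_max {a b : ℝ} (ha : 0 ≤ a) (hb : 0 ≤ b) (hab : b ≤ a) :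
    max |qq a b| |qq b a| = a := by
  rcases le_total b (3 * a / 4) with h | h
  · rw [ccj_qq1 ha h, abs_of_nonneg ha]
    apply max_eq_left
    rw [abs_le]
    rcases le_total (a / 2) b with h4 | h4
    · rw [ccj_qq4 hb h4 h]
      constructor <;> linarith
    · rw [ccj_qq5 hb h4]
      constructor <;> linarith
  · rw [ccj_qq3 h hab, abs_neg, abs_of_nonneg ha, ccj_qq2 h hab]
    apply max_eq_right
    rw [abs_le]
    constructor <;> linarith

theorem ccj_abs (y z : ℝ) : abs (cc y z) = abs (qq (abs y) (abs z)) := by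
  rcases le_total 0 y with h | h
  · rw [ccj_pos z h, abs_of_nonneg h]
  · rw [ccj_neg z h, abs_neg, abs_of_nonpos h]

theorem ccj_qq_lip {y z y' z' M : ℝ} (hy : |y - y'| ≤ M) (hz : |z - z'| ≤ M) :
    |qq y z - qq y' z'| ≤ 15 * M := by
  have hM : 0 ≤ M := (abs_nonneg _).trans hy
  rw [abs_le] at hy hz
  unfold qq
  have h1 : |y - y'| ≤ 15 * M := by rw [abs_le]; constructor <;> linarith
  have h2 : |(7 * y - 8 * z) - (7 * y' - 8 * z')| ≤ 15 * M := by
    rw [abs_le]; constructor <;> linarith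
  have h3 : |(-y) - (-y')| ≤ 15 * M := by rw [abs_le]; constructor <;> linarith
  have h4 : |(-z) - (-z')| ≤ 15 * M := by rw [abs_le]; constructor <;> linarith
  have h5 : |(z / 2 - 2 * y) - (z' / 2 - 2 * y')| ≤ 15 * M := by
    rw [abs_le]; constructor <;> linarith
  refine (abs_max_sub_max_le_max _ _ _ _).trans (max_le ?_ ?_)
  · exact (abs_min_sub_min_le_max _ _ _ _).trans (max_le h1 h2)
  · refine (abs_min_sub_min_le_max _ _ _ _).trans (max_le h3 ?_)
    exact (abs_max_sub_max_le_max _ _ _ _).trans (max_le h4 h5)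

theorem ccj_cc_lip {y z y' z' M : ℝ} (hy : |y - y'| ≤ M) (hz : |z - z'| ≤ M) :
    |cc y z - cc y' z'| ≤ 15 * M := by
  have hM : 0 ≤ M := (abs_nonneg _).trans hy
  have hz' : abs (abs z - abs z') ≤ M := (abs_abs_sub_abs_le_abs_sub z z').trans hz
  have key : ∀ a b a' b' : ℝ, 0 ≤ a → a' ≤ 0 → |a - a'| ≤ M → |cc a b - cc a' b'| ≤ 15 * M := by
    intro a b a' b' h h' haa
    rw [ccj_pos b h, ccj_neg b' h', sub_neg_eq_add]
    refine (abs_add_le _ _).trans ?_
    have h1 := ccj_qq_bound h (abs_nonneg b)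
    have h2 := ccj_qq_bound (show 0 ≤ -a' by linarith) (abs_nonneg b')
    rw [abs_le] at haa
    linarith
  rcases le_total 0 y with h | h <;> rcases le_total 0 y' with h' | h'
  · rw [ccj_pos z h, ccj_pos z' h']
    exact ccj_qq_lip hy hz'
  · exact key y z y' z' h h' hy
  · rw [abs_sub_comm]
    exact key y' z' y z h' h (by rwa [abs_sub_comm])
  · rw [ccj_neg z h, ccj_neg z' h', neg_sub_neg]
    rw [abs_sub_comm]
    exact ccj_qq_lip (by rwa [neg_sub_neg, abs_sub_comm]) hz'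

theorem ccj_side {y z : ℝ} (h : |z| ≤ 3 * |y| / 4) : cc y z = y := by
  rcases le_total 0 y with h0 | h0
  · rw [abs_of_nonneg h0] at h
    rw [ccj_pos z h0, ccj_qq1 h0 h]
  · rw [abs_of_nonpos h0] at h
    rw [ccj_neg z h0, ccj_qq1 (by linarith) h, neg_neg]

theorem ccj_top {y z : ℝ} (h : |y| ≤ |z| / 2) : cc y z = -y := by
  rcases le_total 0 y with h0 | h0
  · rw [abs_of_nonneg h0] at h
    rw [ccj_pos z h0, ccj_qq5 h0 h]
  · rw [abs_of_nonpos h0] at h
    rw [ccj_neg z h0, ccj_qq5 (by linarith) h, neg_neg]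

theorem cc_smul (r y z : ℝ) (hr : 0 ≤ r) : cc (r * y) (r * z) = r * cc y z := by
  have hq : ∀ y z : ℝ, qq (r * y) (r * z) = r * qq y z := by
    intro y z
    unfold qq
    rw [mul_max_of_nonneg _ _ hr, mul_min_of_nonneg _ _ hr, mul_min_of_nonneg _ _ hr,
      mul_max_of_nonneg _ _ hr]
    congr 2
    · ring
    · ring
    · congr 1
      · ring
      · ring
  have habs : |r * z| = r * |z| := by rw [abs_mul, abs_of_nonneg hr]
  rcases le_total 0 y with h | h
  · rw [ccj_pos _ (mul_nonneg hr h), ccj_pos _ h, habs, hq]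
  · rw [ccj_neg _ (mul_nonpos_of_nonneg_of_nonpos hr h), ccj_neg _ h, habs, ← mul_neg, hq, mul_neg]
theorem cc_neg_left (y z : ℝ) : cc (-y) z = - cc y z := by
  rcases le_total 0 y with h | h
  · rw [ccj_neg z (show -y ≤ 0 by linarith), ccj_pos z h, neg_neg]
  · rw [ccj_pos z (show 0 ≤ -y by linarith), ccj_neg z h, neg_neg]
theorem cc_neg_right (y z : ℝ) : cc y (-z) = cc y z := by
  unfold cc
  rw [abs_neg]
theorem CC_lip : LipschitzWith 16 CC := by
  apply LipschitzWith.of_dist_le_mul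
  intro x x'
  have hx : ∀ i, |x i - x' i| ≤ dist x x' := fun i => by
    rw [← Real.dist_eq]
    exact dist_le_pi_dist x x' i
  have h0 : 0 ≤ dist x x' := dist_nonneg
  rw [dist_pi_le_iff (by positivity)]
  intro i
  have h16 : ((16 : ℝ≥0) : ℝ) = 16 := rfl
  rw [Real.dist_eq, h16]
  fin_cases i
  · show |x 0 - x' 0| ≤ 16 * dist x x'
    linarith [hx 0]
  · show |cc (x 1) (x 2) - cc (x' 1) (x' 2)| ≤ 16 * dist x x'
    linarith [ccj_cc_lip (hx 1) (hx 2)]
  · show |cc (x 2) (x 1) - cc (x' 2) (x' 1)| ≤ 16 * dist x x'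
    linarith [ccj_cc_lip (hx 2) (hx 1)]
theorem CC_side (x : E) (h : |x 2| ≤ |x 1| / 2) : CC x = ![x 0, x 1, -x 2] := by
  unfold CC
  rw [ccj_side (y := x 1) (z := x 2) (by linarith [abs_nonneg (x 1)]), ccj_top h]
theorem CC_top (x : E) (h : |x 1| ≤ |x 2| / 2) : CC x = ![x 0, -x 1, x 2] := by
  unfold CC
  rw [ccj_side (y := x 2) (z := x 1) (by linarith [abs_nonneg (x 2)]), ccj_top h]
theorem CC_max (x : E) : max |CC x 1| |CC x 2| = max |x 1| |x 2| := by
  show max |cc (x 1) (x 2)| |cc (x 2) (x 1)| = max |x 1| |x 2|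
  rw [ccj_abs, ccj_abs]
  rcases le_total |x 2| |x 1| with h | h
  · rw [ccj_max (abs_nonneg _) (abs_nonneg _) h, max_eq_left h]
  · rw [max_comm, ccj_max (abs_nonneg _) (abs_nonneg _) h, max_eq_right h]


end J26880

alias cc_smul := J26880.cc_smul
alias cc_neg_left := J26880.cc_neg_left
alias cc_neg_right := J26880.cc_neg_right
alias CC_lip := J26880.CC_lip
alias CC_side := J26880.CC_side
alias CC_top := J26880.CC_top
alias CC_max := J26880.CC_max

end Pool.Agent.ZZ
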