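import Pool.Agent.ZZ.Defs2
import Pool.Agent.ZZ.T03

/-! job 26881, proof by helper264 -/

set_option autoImplicit false
open Set Filter Topology MeasureTheory
open scoped NNReal

namespace Pool.Agent.ZZ

namespace J26881
theorem CC_max' (x : E) : max |CC x 1| |CC x 2| = max |x 1| |x 2| := CC_max x

theorem CC_open_q1 {y z : ℝ} (hy : 0 ≤ y) (h : z ≤ 3 * y / 4) : qq y z = y := by
  unfold qq
  rw [min_eq_left (by linarith), max_eq_left]
  exact (min_le_left _ _).trans (by linarith)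

theorem CC_open_q2 {y z : ℝ} (h1 : 3 * y / 4 ≤ z) (h2 : z ≤ y) : qq y z = 7 * y - 8 * z := by
  unfold qq
  rw [min_eq_right (by linarith : 7 * y - 8 * z ≤ y), max_eq_left]
  exact (min_le_left _ _).trans (by linarith)

theorem CC_open_q3 {y z : ℝ} (h1 : y ≤ z) (h2 : z ≤ 4 * y / 3) : qq y z = -z := by
  unfold qq
  rw [min_eq_right (by linarith : 7 * y - 8 * z ≤ y),
    max_eq_left (by linarith : z / 2 - 2 * y ≤ -z), min_eq_right (by linarith : -z ≤ -y),
    max_eq_right (by linarith : 7 * y - 8 * z ≤ -z)]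

theorem CC_open_q4 {y z : ℝ} (hy : 0 ≤ y) (h1 : 4 * y / 3 ≤ z) (h2 : z ≤ 2 * y) :
    qq y z = z / 2 - 2 * y := by
  unfold qq
  rw [min_eq_right (by linarith : 7 * y - 8 * z ≤ y),
    max_eq_right (by linarith : -z ≤ z / 2 - 2 * y),
    min_eq_right (by linarith : z / 2 - 2 * y ≤ -y),
    max_eq_right (by linarith : 7 * y - 8 * z ≤ z / 2 - 2 * y)]

theorem CC_open_q5 {y z : ℝ} (hy : 0 ≤ y) (h1 : 2 * y ≤ z) : qq y z = -y := by
  unfold qq
  rw [min_eq_right (by linarith : 7 * y - 8 * z ≤ y),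
    max_eq_right (by linarith : -z ≤ z / 2 - 2 * y),
    min_eq_left (by linarith : -y ≤ z / 2 - 2 * y),
    max_eq_right (by linarith : 7 * y - 8 * z ≤ -y)]

/-- the inverse branch -/
noncomputable def CC_open_G (a b : ℝ) : ℝ :=
  max (max a (-b)) (max ((-7 * a - b) / 8) (min (-a) (b / 4 - a / 2)))

theorem CC_open_g1 {a b : ℝ} (h1 : b ≤ 0) (h2 : -b ≤ a) : CC_open_G a b = a := by
  unfold CC_open_G
  rw [max_eq_left h2, max_eq_left]
  exact max_le (by linarith) ((min_le_left _ _).trans (by linarith))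

theorem CC_open_g2 {a b : ℝ} (h1 : a ≤ -b) (h2 : -a ≤ -b) : CC_open_G a b = -b := by
  unfold CC_open_G
  rw [max_eq_right h1, max_eq_left]
  exact max_le (by linarith) ((min_le_left _ _).trans (by linarith))

theorem CC_open_g3 {a b : ℝ} (h1 : b ≤ -a) (h2 : -b ≤ -a) :
    CC_open_G a b = (-7 * a - b) / 8 := by
  unfold CC_open_G
  rw [min_eq_right (by linarith : b / 4 - a / 2 ≤ -a),
    max_eq_left (by linarith : b / 4 - a / 2 ≤ (-7 * a - b) / 8), max_eq_right]
  exact max_le (by linarith) (by linarith)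

theorem CC_open_g4 {a b : ℝ} (h0 : 0 ≤ b) (h1 : b / 2 ≤ -a) (h2 : -a ≤ b) :
    CC_open_G a b = b / 4 - a / 2 := by
  unfold CC_open_G
  rw [min_eq_right (by linarith : b / 4 - a / 2 ≤ -a),
    max_eq_right (by linarith : (-7 * a - b) / 8 ≤ b / 4 - a / 2), max_eq_right]
  exact max_le (by linarith) (by linarith)

theorem CC_open_g5 {a b : ℝ} (h0 : 0 ≤ b) (h1 : 0 ≤ -a) (h2 : -a ≤ b / 2) :
    CC_open_G a b = -a := by
  unfold CC_open_G
  rw [min_eq_left (by linarith : -a ≤ b / 4 - a / 2),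
    max_eq_right (by linarith : (-7 * a - b) / 8 ≤ -a), max_eq_right]
  exact max_le (by linarith) (by linarith)

theorem CC_open_FG1 {a b : ℝ} (hb : b ≤ 0) (hab : b ≤ a) :
    0 ≤ CC_open_G a b ∧ 0 ≤ CC_open_G b a ∧ qq (CC_open_G a b) (CC_open_G b a) = a ∧
      qq (CC_open_G b a) (CC_open_G a b) = b := by
  rcases le_total a (-b) with h1 | h1
  · rw [CC_open_g2 h1 (by linarith), CC_open_g3 h1 (by linarith)]
    refine ⟨by linarith, by linarith, ?_, ?_⟩
    · rw [CC_open_q2 (by linarith) (by linarith)]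
      ring
    · rw [CC_open_q3 (by linarith) (by linarith)]
      ring
  · rcases le_total (a / 2) (-b) with h2 | h2
    · rw [CC_open_g1 hb h1, CC_open_g4 (by linarith) h2 h1]
      refine ⟨by linarith, by linarith, ?_, ?_⟩
      · rw [CC_open_q1 (by linarith) (by linarith)]
      · rw [CC_open_q4 (by linarith) (by linarith) (by linarith)]
        ring
    · rw [CC_open_g1 hb h1, CC_open_g5 (by linarith) (by linarith) h2]
      refine ⟨by linarith, by linarith, ?_, ?_⟩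
      · rw [CC_open_q1 (by linarith) (by linarith)]
      · rw [CC_open_q5 (by linarith) (by linarith)]
        ring

theorem CC_open_FG {a b : ℝ} (h : a ≤ 0 ∨ b ≤ 0) :
    0 ≤ CC_open_G a b ∧ 0 ≤ CC_open_G b a ∧ qq (CC_open_G a b) (CC_open_G b a) = a ∧
      qq (CC_open_G b a) (CC_open_G a b) = b := by
  rcases le_total b a with hab | hab
  · exact CC_open_FG1 (by rcases h with h | h <;> linarith) hab
  · obtain ⟨h1, h2, h3, h4⟩ := CC_open_FG1 (a := b) (b := a)
      (by rcases h with h | h <;> linarith) hab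
    exact ⟨h2, h1, h4, h3⟩

theorem CC_open_GF1 {y z : ℝ} (hy : 0 ≤ y) (hz : 0 ≤ z) (hyz : z ≤ y) :
    CC_open_G (qq y z) (qq z y) = y ∧ CC_open_G (qq z y) (qq y z) = z ∧
      (0 < y → 0 < z → qq z y < 0) := by
  rcases le_total z (y / 2) with h1 | h1
  · rw [CC_open_q1 hy (by linarith), CC_open_q5 hz (by linarith)]
    refine ⟨CC_open_g1 (by linarith) (by linarith), ?_, fun _ _ => by linarith⟩
    rw [CC_open_g5 (by linarith) (by linarith) (by linarith)]
    ring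
  · rcases le_total z (3 * y / 4) with h2 | h2
    · rw [CC_open_q1 hy h2, CC_open_q4 hz (by linarith) (by linarith)]
      refine ⟨CC_open_g1 (by linarith) (by linarith), ?_, fun _ _ => by linarith⟩
      rw [CC_open_g4 (by linarith) (by linarith) (by linarith)]
      ring
    · rw [CC_open_q2 h2 hyz, CC_open_q3 hyz (by linarith)]
      refine ⟨?_, ?_, fun _ _ => by linarith⟩
      · rw [CC_open_g2 (by linarith) (by linarith)]
        ring
      · rw [CC_open_g3 (by linarith) (by linarith)]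
        ring

theorem CC_open_GF {y z : ℝ} (hy : 0 ≤ y) (hz : 0 ≤ z) :
    CC_open_G (qq y z) (qq z y) = y ∧ CC_open_G (qq z y) (qq y z) = z ∧
      (0 < y → 0 < z → qq y z < 0 ∨ qq z y < 0) := by
  rcases le_total z y with h | h
  · obtain ⟨h1, h2, h3⟩ := CC_open_GF1 hy hz h
    exact ⟨h1, h2, fun hy hz => Or.inr (h3 hy hz)⟩
  · obtain ⟨h1, h2, h3⟩ := CC_open_GF1 hz hy h
    exact ⟨h2, h1, fun hy hz => Or.inl (h3 hz hy)⟩

theorem CC_open_cc {s t : ℝ} (hs : s = 1 ∨ s = -1) (ht : t = 1 ∨ t = -1) {y z : ℝ}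
    (hy : 0 ≤ y) (hz : 0 ≤ z) : cc (s * y) (t * z) = s * qq y z := by
  have h1 : |t * z| = z := by
    rw [abs_mul, abs_of_nonneg hz]
    rcases ht with rfl | rfl
    · rw [abs_one, one_mul]
    · rw [abs_neg, abs_one, one_mul]
  unfold cc
  rw [h1]
  rcases hs with rfl | rfl
  · rw [one_mul, one_mul, if_pos hy]
  · rcases hy.eq_or_lt with h0 | h0
    · rw [← h0, mul_zero, if_pos le_rfl, CC_open_q5 le_rfl (by linarith)]
      ring
    · rw [if_neg (by linarith)]
      have : -(-1 * y) = y := by ring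
      rw [this]
      ring

theorem CC_open_ss {s : ℝ} (hs : s = 1 ∨ s = -1) (y : ℝ) : s * (s * y) = y := by
  rcases hs with rfl | rfl <;> ring

/-- the four inverse branches -/
noncomputable def CC_open_GG (s t : ℝ) (w : E) : E :=
  ![w 0, s * CC_open_G (s * w 1) (t * w 2), t * CC_open_G (t * w 2) (s * w 1)]

theorem CC_open_FG' {s t : ℝ} (hs : s = 1 ∨ s = -1) (ht : t = 1 ∨ t = -1) (w : E)
    (h : s * w 1 ≤ 0 ∨ t * w 2 ≤ 0) : CC (CC_open_GG s t w) = w := by
  obtain ⟨h1, h2, h3, h4⟩ := CC_open_FG h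
  funext i
  fin_cases i
  · rfl
  · show cc (s * CC_open_G (s * w 1) (t * w 2)) (t * CC_open_G (t * w 2) (s * w 1)) = w 1
    rw [CC_open_cc hs ht h1 h2, h3, CC_open_ss hs]
  · show cc (t * CC_open_G (t * w 2) (s * w 1)) (s * CC_open_G (s * w 1) (t * w 2)) = w 2
    rw [CC_open_cc ht hs h2 h1, h4, CC_open_ss ht]

theorem CC_open_val {s t : ℝ} (hs : s = 1 ∨ s = -1) (ht : t = 1 ∨ t = -1) (x : E)
    (h1 : 0 ≤ s * x 1) (h2 : 0 ≤ t * x 2) :
    s * CC x 1 = qq (s * x 1) (t * x 2) ∧ t * CC x 2 = qq (t * x 2) (s * x 1) := by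
  have e1 : CC x 1 = s * qq (s * x 1) (t * x 2) := by
    rw [← CC_open_cc hs ht h1 h2, CC_open_ss hs, CC_open_ss ht]
    rfl
  have e2 : CC x 2 = t * qq (t * x 2) (s * x 1) := by
    rw [← CC_open_cc ht hs h2 h1, CC_open_ss hs, CC_open_ss ht]
    rfl
  rw [e1, e2, CC_open_ss hs, CC_open_ss ht]
  exact ⟨rfl, rfl⟩

theorem CC_open_GF' {s t : ℝ} (hs : s = 1 ∨ s = -1) (ht : t = 1 ∨ t = -1) (x : E)
    (h1 : 0 ≤ s * x 1) (h2 : 0 ≤ t * x 2) : CC_open_GG s t (CC x) = x := by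
  obtain ⟨e1, e2⟩ := CC_open_val hs ht x h1 h2
  obtain ⟨g1, g2, _⟩ := CC_open_GF h1 h2
  funext i
  fin_cases i
  · rfl
  · show s * CC_open_G (s * CC x 1) (t * CC x 2) = x 1
    rw [e1, e2, g1, CC_open_ss hs]
  · show t * CC_open_G (t * CC x 2) (s * CC x 1) = x 2
    rw [e1, e2, g2, CC_open_ss ht]

theorem CC_open_cont (s t : ℝ) : Continuous (CC_open_GG s t) := by
  unfold CC_open_GG CC_open_G
  apply continuous_pi
  intro i
  fin_cases i
  · exact continuous_apply 0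
  · show Continuous fun w : E => s * max (max (s * w 1) (-(t * w 2)))
      (max ((-7 * (s * w 1) - (t * w 2)) / 8) (min (-(s * w 1)) ((t * w 2) / 4 - (s * w 1) / 2)))
    fun_prop
  · show Continuous fun w : E => t * max (max (t * w 2) (-(s * w 1)))
      (max ((-7 * (t * w 2) - (s * w 1)) / 8) (min (-(t * w 2)) ((s * w 1) / 4 - (t * w 2) / 2)))
    fun_prop

theorem CC_open_sgn (x : ℝ) : ∃ s : ℝ, (s = 1 ∨ s = -1) ∧ 0 ≤ s * x := by
  rcases le_total 0 x with h | h
  · exact ⟨1, Or.inl rfl, by linarith⟩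
  · exact ⟨-1, Or.inr rfl, by linarith⟩

theorem CC_open_sgn' (x : ℝ) : ∃ s : ℝ, (s = 1 ∨ s = -1) ∧ s * x ≤ 0 := by
  rcases le_total 0 x with h | h
  · exact ⟨-1, Or.inr rfl, by linarith⟩
  · exact ⟨1, Or.inl rfl, by linarith⟩

theorem CC_surj : Function.Surjective CC := by
  intro w
  obtain ⟨s, hs, hw⟩ := CC_open_sgn' (w 1)
  exact ⟨CC_open_GG s 1 w, CC_open_FG' hs (Or.inl rfl) w (Or.inl hw)⟩
theorem CC_fin (y : E) : (CC ⁻¹' {y}).Finite := by
  have h : CC ⁻¹' {y} ⊆ ({CC_open_GG 1 1 y, CC_open_GG 1 (-1) y, CC_open_GG (-1) 1 y,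
      CC_open_GG (-1) (-1) y} : Set E) := by
    intro x hx
    have hx' : CC x = y := hx
    obtain ⟨s, hs, h1⟩ := CC_open_sgn (x 1)
    obtain ⟨t, ht, h2⟩ := CC_open_sgn (x 2)
    have h3 := CC_open_GF' hs ht x h1 h2
    rw [hx'] at h3
    rw [← h3]
    rcases hs with rfl | rfl <;> rcases ht with rfl | rfl <;> simp
  exact Set.Finite.subset (by simp) h
theorem CC_open : IsOpenMap CC := by
  rw [isOpenMap_iff_nhds_le]
  intro x S hS
  have hS' : CC ⁻¹' S ∈ 𝓝 x := hS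
  have hev : ∀ s t : ℝ, (s = 1 ∨ s = -1) → (t = 1 ∨ t = -1) → 0 ≤ s * x 1 → 0 ≤ t * x 2 →
      ∀ᶠ w in 𝓝 (CC x), (s * w 1 ≤ 0 ∨ t * w 2 ≤ 0) → w ∈ S := by
    intro s t hs ht h1 h2
    have h3 : Tendsto (CC_open_GG s t) (𝓝 (CC x)) (𝓝 x) := by
      have h4 := (CC_open_cont s t).tendsto (CC x)
      rw [CC_open_GF' hs ht x h1 h2] at h4
      exact h4
    filter_upwards [h3 hS'] with w hw hw2
    have h5 : CC (CC_open_GG s t w) ∈ S := hw
    rw [CC_open_FG' hs ht w hw2] at h5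
    exact h5
  obtain ⟨s₀, hs₀, h1⟩ := CC_open_sgn (x 1)
  obtain ⟨t₀, ht₀, h2⟩ := CC_open_sgn (x 2)
  by_cases hx1 : x 1 = 0
  · filter_upwards [hev 1 t₀ (Or.inl rfl) ht₀ (by rw [hx1]; simp) h2,
      hev (-1) t₀ (Or.inr rfl) ht₀ (by rw [hx1]; simp) h2] with w hw1 hw2
    rcases le_total (w 1) 0 with h | h
    · exact hw1 (Or.inl (by linarith))
    · exact hw2 (Or.inl (by linarith))
  · by_cases hx2 : x 2 = 0
    · filter_upwards [hev s₀ 1 hs₀ (Or.inl rfl) h1 (by rw [hx2]; simp),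
        hev s₀ (-1) hs₀ (Or.inr rfl) h1 (by rw [hx2]; simp)] with w hw1 hw2
      rcases le_total (w 2) 0 with h | h
      · exact hw1 (Or.inr (by linarith))
      · exact hw2 (Or.inr (by linarith))
    · have hs0 : s₀ ≠ 0 := by rcases hs₀ with rfl | rfl <;> norm_num
      have ht0 : t₀ ≠ 0 := by rcases ht₀ with rfl | rfl <;> norm_num
      have h1' : 0 < s₀ * x 1 := lt_of_le_of_ne h1 (mul_ne_zero hs0 hx1).symm
      have h2' : 0 < t₀ * x 2 := lt_of_le_of_ne h2 (mul_ne_zero ht0 hx2).symm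
      obtain ⟨_, _, h3⟩ := CC_open_GF h1 h2
      obtain ⟨e1, e2⟩ := CC_open_val hs₀ ht₀ x h1 h2
      have hc1 : Continuous fun w : E => s₀ * w 1 := by fun_prop
      have hc2 : Continuous fun w : E => t₀ * w 2 := by fun_prop
      rcases h3 h1' h2' with h4 | h4
      · rw [← e1] at h4
        filter_upwards [hev s₀ t₀ hs₀ ht₀ h1 h2, hc1.continuousAt.eventually_lt
          continuousAt_const h4] with w hw1 hw2
        exact hw1 (Or.inl hw2.le)
      · rw [← e2] at h4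
        filter_upwards [hev s₀ t₀ hs₀ ht₀ h1 h2, hc2.continuousAt.eventually_lt
          continuousAt_const h4] with w hw1 hw2
        exact hw1 (Or.inr hw2.le)


end J26881

alias CC_surj := J26881.CC_surj
alias CC_fin := J26881.CC_fin
alias CC_open := J26881.CC_open

end Pool.Agent.ZZ
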