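import Pool.Agent.ZZ.Defs2

/-! job 26878, proof by helper989 -/

set_option autoImplicit false
open Set Filter Topology MeasureTheory
open scoped NNReal

namespace Pool.Agent.ZZ

namespace J26878
theorem fibE_lip (i : Fin 3) (φ : E → ℝ) (L : ℝ≥0) (hL : LipschitzWith L φ) :
    LipschitzWith (max 1 L) (fun x : E => Function.update x i (φ x)) := by
  refine LipschitzWith.of_dist_le_mul fun x x1 => ?_
  have hd : 0 ≤ dist x x1 := dist_nonneg
  rw [dist_pi_le_iff (by positivity)]
  intro k
  by_cases hk : k = i
  · subst hk
    rw [Function.update_self, Function.update_self]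
    refine (hL.dist_le_mul x x1).trans (mul_le_mul_of_nonneg_right ?_ hd)
    exact_mod_cast le_max_right _ _
  · rw [Function.update_of_ne hk, Function.update_of_ne hk]
    refine (dist_le_pi_dist x x1 k).trans ?_
    have h1 : (1:ℝ) ≤ ((max 1 L : ℝ≥0) : ℝ) := by exact_mod_cast le_max_left _ _
    nlinarith

theorem fibE_anti (i : Fin 3) (φ : E → ℝ) (m L : ℝ≥0) (hm : 0 < m) (hL : LipschitzWith L φ)
    (hmono : ∀ (x : E) (s t : ℝ), s ≤ t →
      m * (t - s) ≤ φ (Function.update x i t) - φ (Function.update x i s)) (x x1 : E) :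
    dist x x1 ≤ ((max 1 ((1 + L) / m) : ℝ≥0) : ℝ) *
      dist (Function.update x i (φ x)) (Function.update x1 i (φ x1)) := by
  set D := dist (Function.update x i (φ x)) (Function.update x1 i (φ x1)) with hD
  have hD0 : 0 ≤ D := dist_nonneg
  have hoth : ∀ k, k ≠ i → dist (x k) (x1 k) ≤ D := by
    intro k hk
    have h := dist_le_pi_dist (Function.update x i (φ x)) (Function.update x1 i (φ x1)) k
    rwa [Function.update_of_ne hk, Function.update_of_ne hk] at h
  have hφ : |φ x - φ x1| ≤ D := by
    have h := dist_le_pi_dist (Function.update x i (φ x)) (Function.update x1 i (φ x1)) i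
    rwa [Function.update_self, Function.update_self, Real.dist_eq] at h
  have h1 : dist (Function.update x1 i (x i)) x ≤ D := by
    rw [dist_pi_le_iff hD0]
    intro k
    by_cases hk : k = i
    · subst hk
      rw [Function.update_self, dist_self]; exact hD0
    · rw [Function.update_of_ne hk, dist_comm]
      exact hoth k hk
  have h2 : |φ (Function.update x1 i (x i)) - φ x| ≤ L * D := by
    have h := hL.dist_le_mul (Function.update x1 i (x i)) x
    rw [Real.dist_eq] at h
    exact h.trans (mul_le_mul_of_nonneg_left h1 L.2)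
  have hself : Function.update x1 i (x1 i) = x1 := Function.update_eq_self i x1
  have h3 : m * |x i - x1 i| ≤ |φ (Function.update x1 i (x i)) - φ x1| := by
    rcases le_total (x1 i) (x i) with h | h
    · have h4 := hmono x1 (x1 i) (x i) h
      rw [hself] at h4
      rw [abs_of_nonneg (sub_nonneg.2 h)]
      exact h4.trans (le_abs_self _)
    · have h4 := hmono x1 (x i) (x1 i) h
      rw [hself] at h4
      rw [abs_of_nonpos (sub_nonpos.2 h), neg_sub, abs_sub_comm]
      exact h4.trans (le_abs_self _)
  have h5 : m * |x i - x1 i| ≤ (1 + L) * D := by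
    have h6 : φ (Function.update x1 i (x i)) - φ x1
        = (φ (Function.update x1 i (x i)) - φ x) + (φ x - φ x1) := by ring
    rw [h6] at h3
    have h7 := abs_add_le (φ (Function.update x1 i (x i)) - φ x) (φ x - φ x1)
    linarith
  have hm' : (0:ℝ) < m := by exact_mod_cast hm
  have h8 : |x i - x1 i| ≤ (1 + L) / m * D := by
    rw [div_mul_eq_mul_div, le_div_iff₀ hm', mul_comm]
    exact h5
  have hK1 : (1:ℝ) ≤ ((max 1 ((1 + L) / m) : ℝ≥0) : ℝ) := by exact_mod_cast le_max_left _ _
  have hK2 : (1 + (L:ℝ)) / m ≤ ((max 1 ((1 + L) / m) : ℝ≥0) : ℝ) := by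
    have : ((1 + L) / m : ℝ≥0) ≤ max 1 ((1 + L) / m) := le_max_right _ _
    exact_mod_cast this
  rw [dist_pi_le_iff (by positivity)]
  intro k
  by_cases hk : k = i
  · subst hk
    rw [Real.dist_eq]
    exact h8.trans (mul_le_mul_of_nonneg_right hK2 hD0)
  · refine (hoth k hk).trans ?_
    nlinarith

theorem fibE_bij (i : Fin 3) (φ : E → ℝ) (m L : ℝ≥0) (hm : 0 < m) (hL : LipschitzWith L φ)
    (hmono : ∀ (x : E) (s t : ℝ), s ≤ t →
      m * (t - s) ≤ φ (Function.update x i t) - φ (Function.update x i s)) :
    Function.Bijective (fun x : E => Function.update x i (φ x)) := by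
  have hm' : (0:ℝ) < m := by exact_mod_cast hm
  constructor
  · intro x x1 h
    have h1 := fibE_anti i φ m L hm hL hmono x x1
    simp only at h
    rw [h, dist_self, mul_zero] at h1
    exact dist_le_zero.1 h1
  · intro y
    have hc : Continuous (fun t : ℝ => φ (Function.update y i t)) :=
      hL.continuous.comp (continuous_const.update i continuous_id)
    have htop : Tendsto (fun t : ℝ => φ (Function.update y i t)) atTop atTop := by
      have h1 : Tendsto (fun t : ℝ => m * t + φ (Function.update y i 0)) atTop atTop :=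
        tendsto_atTop_add_const_right _ _ (Tendsto.const_mul_atTop hm' tendsto_id)
      refine tendsto_atTop_mono' _ ?_ h1
      filter_upwards [eventually_ge_atTop 0] with t ht
      have := hmono y 0 t ht
      linarith
    have hbot : Tendsto (fun t : ℝ => φ (Function.update y i t)) atBot atBot := by
      have h1 : Tendsto (fun t : ℝ => m * t + φ (Function.update y i 0)) atBot atBot :=
        tendsto_atBot_add_const_right _ _ (Tendsto.const_mul_atBot hm' tendsto_id)
      refine tendsto_atBot_mono' _ ?_ h1
      filter_upwards [eventually_le_atBot 0] with t ht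
      have := hmono y t 0 ht
      linarith
    obtain ⟨t, ht⟩ := hc.surjective htop hbot (y i)
    refine ⟨Function.update y i t, ?_⟩
    simp only at ht ⊢
    rw [ht, Function.update_idem, Function.update_eq_self]

theorem fibE_spec (i : Fin 3) (φ : E → ℝ) (m L : ℝ≥0) (hm : 0 < m) (hL : LipschitzWith L φ)
    (hmono : ∀ (x : E) (s t : ℝ), s ≤ t →
      m * (t - s) ≤ φ (Function.update x i t) - φ (Function.update x i s)) :
    (∀ x, fibE i φ x = Function.update x i (φ x)) ∧
    LipschitzWith (max 1 L) (fibE i φ) ∧
    LipschitzWith (max 1 ((1 + L) / m)) (fibE i φ).symm := by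
  classical
  have hbij := fibE_bij i φ m L hm hL hmono
  set e := Equiv.ofBijective _ hbij with he
  have hei : LipschitzWith (max 1 ((1 + L) / m)) e.symm := by
    refine LipschitzWith.of_dist_le_mul fun y y1 => ?_
    have h1 := fibE_anti i φ m L hm hL hmono (e.symm y) (e.symm y1)
    have h2 : ∀ z, Function.update (e.symm z) i (φ (e.symm z)) = z := fun z => e.apply_symm_apply z
    rw [h2, h2] at h1
    exact h1
  have hex : ∃ F : E ≃ₜ E, ∀ x, F x = Function.update x i (φ x) :=
    ⟨{ e with
        continuous_toFun := (fibE_lip i φ L hL).continuous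
        continuous_invFun := hei.continuous }, fun x => rfl⟩
  have h1 : ∀ x, fibE i φ x = Function.update x i (φ x) := by
    intro x
    unfold fibE
    rw [dif_pos hex]
    exact hex.choose_spec x
  refine ⟨h1, ?_, ?_⟩
  · have h2 : (fibE i φ : E → E) = fun x : E => Function.update x i (φ x) := funext h1
    rw [h2]
    exact fibE_lip i φ L hL
  · refine LipschitzWith.of_dist_le_mul fun y y1 => ?_
    have h2 := fibE_anti i φ m L hm hL hmono ((fibE i φ).symm y) ((fibE i φ).symm y1)
    rw [← h1, ← h1, Homeomorph.apply_symm_apply, Homeomorph.apply_symm_apply] at h2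
    exact h2


end J26878

alias fibE_spec := J26878.fibE_spec

end Pool.Agent.ZZ
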