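import Pool.Agent.ZZ.Defs2

/-! job 26879, proof by helper243 -/

set_option autoImplicit false
open Set Filter Topology MeasureTheory
open scoped NNReal

namespace Pool.Agent.ZZ

namespace J26879
private theorem j26879_half (g : ℝ → ℝ) (h0 : g (1 / 2) = 0) (h1 : g (-1 / 2) = 0) (x : ℝ)
    (j k : ℤ) (hj : |x - j| ≤ 1 / 2) (hk : |x - k| ≤ 1 / 2) (hne : j ≠ k) : g (x - j) = 0 := by
  obtain ⟨a1, a2⟩ := abs_le.mp hj
  obtain ⟨b1, b2⟩ := abs_le.mp hk
  rcases lt_or_gt_of_ne hne with h | h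
  · have h2 : (j : ℝ) + 1 ≤ k := by exact_mod_cast h
    have h3 : x - j = 1 / 2 := by linarith
    rw [h3, h0]
  · have h2 : (k : ℝ) + 1 ≤ j := by exact_mod_cast h
    have h3 : x - j = -1 / 2 := by linarith
    rw [h3, h1]

private noncomputable def j26879_d (c : ℤ → ℝ) (a b j : ℤ) : ℝ := if a ≤ j ∧ j ≤ b then c j else 0

private theorem j26879_key (c : ℤ → ℝ) (F : ℝ → ℝ) (a b : ℤ) (g : ℝ → ℝ) (h0 : g (1 / 2) = 0)
    (h1 : g (-1 / 2) = 0)
    (hF : ∀ x, F x = if (a : ℝ) - 1 / 2 ≤ x ∧ x ≤ b + 1 / 2 then c (round x) * g (x - round x)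
      else 0) (j : ℤ) (x : ℝ) (hx : |x - j| ≤ 1 / 2) :
    F x = j26879_d c a b j * g (x - j) := by
  have hr : |x - (round x : ℤ)| ≤ 1 / 2 := abs_sub_round x
  rw [hF x]
  by_cases hk : round x = j
  · rw [hk]
    obtain ⟨a1, a2⟩ := abs_le.mp hx
    by_cases hin : a ≤ j ∧ j ≤ b
    · have h2 : (a : ℝ) ≤ j := by exact_mod_cast hin.1
      have h3 : (j : ℝ) ≤ b := by exact_mod_cast hin.2
      rw [if_pos ⟨by linarith, by linarith⟩, j26879_d, if_pos hin]
    · rw [j26879_d, if_neg hin, zero_mul]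
      by_cases hi : (a : ℝ) - 1 / 2 ≤ x ∧ x ≤ b + 1 / 2
      · rw [if_pos hi]
        have hg : g (x - j) = 0 := by
          rcases not_and_or.mp hin with h | h
          · have h2 : (j : ℝ) + 1 ≤ a := by exact_mod_cast (not_le.mp h)
            have h3 : x - j = 1 / 2 := by linarith [hi.1]
            rw [h3, h0]
          · have h2 : (b : ℝ) + 1 ≤ j := by exact_mod_cast (not_le.mp h)
            have h3 : x - j = -1 / 2 := by linarith [hi.2]
            rw [h3, h1]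
        rw [hg, mul_zero]
      · rw [if_neg hi]
  · rw [j26879_half g h0 h1 x j (round x) hx hr (Ne.symm hk),
      j26879_half g h0 h1 x (round x) j hr hx hk, mul_zero, mul_zero, ite_self]

private theorem j26879_two (x y : ℝ) (hxy : x ≤ y) :
    (∃ j : ℤ, |x - j| ≤ 1 / 2 ∧ |y - j| ≤ 1 / 2) ∨
      ∃ j k : ℤ, (j : ℝ) + 1 ≤ k ∧ |x - j| ≤ 1 / 2 ∧ |y - k| ≤ 1 / 2 := by
  have hx : |x - (round x : ℤ)| ≤ 1 / 2 := abs_sub_round x
  have hy : |y - (round y : ℤ)| ≤ 1 / 2 := abs_sub_round y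
  rcases lt_trichotomy (round x) (round y) with h | h | h
  · exact Or.inr ⟨round x, round y, by exact_mod_cast h, hx, hy⟩
  · exact Or.inl ⟨round x, hx, by rw [h]; exact hy⟩
  · have h2 : ((round y : ℤ) : ℝ) + 1 ≤ (round x : ℤ) := by exact_mod_cast h
    obtain ⟨a1, a2⟩ := abs_le.mp hx
    obtain ⟨b1, b2⟩ := abs_le.mp hy
    exact Or.inl ⟨round x, hx, abs_le.mpr ⟨by linarith, by linarith⟩⟩

private theorem j26879_lip (c : ℤ → ℝ) (hc : ∀ j, |c j| ≤ 1) (F : ℝ → ℝ) (a b : ℤ) (g : ℝ → ℝ)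
    (K : ℝ≥0) (hg : ∀ x y, |x| ≤ 1 / 2 → |y| ≤ 1 / 2 → |g x - g y| ≤ K * |x - y|)
    (h0 : g (1 / 2) = 0) (h1 : g (-1 / 2) = 0)
    (hF : ∀ x, F x = if (a : ℝ) - 1 / 2 ≤ x ∧ x ≤ b + 1 / 2 then c (round x) * g (x - round x)
      else 0) : LipschitzWith K F := by
  have hd : ∀ j, |j26879_d c a b j| ≤ 1 := by
    intro j
    unfold j26879_d
    split_ifs
    · exact hc j
    · rw [abs_zero]; exact zero_le_one
  have hmain : ∀ x y : ℝ, x ≤ y → |F x - F y| ≤ K * (y - x) := by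
    intro x y hxy
    rcases j26879_two x y hxy with ⟨j, hx, hy⟩ | ⟨j, k, hjk, hx, hy⟩
    · rw [j26879_key c F a b g h0 h1 hF j x hx, j26879_key c F a b g h0 h1 hF j y hy, ← mul_sub,
        abs_mul]
      have h2 := hg (x - j) (y - j) hx hy
      have h3 : |x - j - (y - j)| = y - x := by
        rw [abs_of_nonpos (by linarith)]; ring
      rw [h3] at h2
      calc |j26879_d c a b j| * |g (x - j) - g (y - j)| ≤ 1 * |g (x - j) - g (y - j)| :=
            mul_le_mul_of_nonneg_right (hd j) (abs_nonneg _)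
        _ ≤ K * (y - x) := by rw [one_mul]; exact h2
    · rw [j26879_key c F a b g h0 h1 hF j x hx, j26879_key c F a b g h0 h1 hF k y hy]
      obtain ⟨a1, a2⟩ := abs_le.mp hx
      obtain ⟨b1, b2⟩ := abs_le.mp hy
      have h2 := hg (x - j) (1 / 2) hx (by rw [abs_of_pos (by norm_num)])
      have h3 := hg (y - k) (-1 / 2) hy (by rw [abs_of_neg (by norm_num)]; norm_num)
      rw [h0, sub_zero, abs_of_nonpos (a := x - j - 1 / 2) (by linarith)] at h2
      rw [h1, sub_zero, abs_of_nonneg (a := y - k - -1 / 2) (by linarith)] at h3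
      have h4 : |j26879_d c a b j * g (x - j)| ≤ |g (x - j)| := by
        rw [abs_mul]
        calc _ ≤ 1 * |g (x - j)| := mul_le_mul_of_nonneg_right (hd j) (abs_nonneg _)
          _ = _ := one_mul _
      have h5 : |j26879_d c a b k * g (y - k)| ≤ |g (y - k)| := by
        rw [abs_mul]
        calc _ ≤ 1 * |g (y - k)| := mul_le_mul_of_nonneg_right (hd k) (abs_nonneg _)
          _ = _ := one_mul _
      have hK : (0 : ℝ) ≤ K := K.coe_nonneg
      have h6 := abs_sub (j26879_d c a b j * g (x - j)) (j26879_d c a b k * g (y - k))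
      have h7 : (K : ℝ) * -(x - j - 1 / 2) + K * (y - k - -1 / 2) ≤ K * (y - x) := by
        rw [← mul_add]
        exact mul_le_mul_of_nonneg_left (by linarith) hK
      linarith
  refine LipschitzWith.of_dist_le_mul fun x y => ?_
  rw [Real.dist_eq, Real.dist_eq]
  rcases le_total x y with h | h
  · rw [abs_of_nonpos (a := x - y) (by linarith)]
    have := hmain x y h
    rwa [neg_sub]
  · rw [abs_of_nonneg (a := x - y) (by linarith), abs_sub_comm]
    exact hmain y x h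

private theorem j26879_F1 (a b : ℤ) (g : ℝ → ℝ) (x : ℝ) :
    pz a b g x = if (a : ℝ) - 1 / 2 ≤ x ∧ x ≤ b + 1 / 2 then
      (fun _ : ℤ => (1 : ℝ)) (round x) * g (x - round x) else 0 := by
  unfold pz
  simp only [one_mul]

private theorem j26879_F2 (a b : ℤ) (g : ℝ → ℝ) (x : ℝ) :
    pzs a b g x = if (a : ℝ) - 1 / 2 ≤ x ∧ x ≤ b + 1 / 2 then
      sg (round x) * g (x - round x) else 0 := rfl

private theorem j26879_sg (j : ℤ) : sg j = 1 ∨ sg j = -1 := by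
  unfold sg
  split_ifs
  · exact Or.inl rfl
  · exact Or.inr rfl
theorem lip_pz (a b : ℤ) (g : ℝ → ℝ) (K : ℝ≥0)
    (hg : ∀ x y, |x| ≤ 1 / 2 → |y| ≤ 1 / 2 → |g x - g y| ≤ K * |x - y|)
    (h0 : g (1 / 2) = 0) (h1 : g (-1 / 2) = 0) : LipschitzWith K (pz a b g) := by
  exact j26879_lip (fun _ => 1) (fun _ => by rw [abs_one]) (pz a b g) a b g K hg h0 h1
    (j26879_F1 a b g)

theorem lip_pzs (a b : ℤ) (g : ℝ → ℝ) (K : ℝ≥0)
    (hg : ∀ x y, |x| ≤ 1 / 2 → |y| ≤ 1 / 2 → |g x - g y| ≤ K * |x - y|)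
    (h0 : g (1 / 2) = 0) (h1 : g (-1 / 2) = 0) : LipschitzWith K (pzs a b g) := by
  refine j26879_lip sg (fun j => ?_) (pzs a b g) a b g K hg h0 h1 (j26879_F2 a b g)
  rcases j26879_sg j with h | h
  · rw [h, abs_one]
  · rw [h, abs_neg, abs_one]

theorem pz_eq (a b : ℤ) (g : ℝ → ℝ) (h0 : g (1 / 2) = 0) (h1 : g (-1 / 2) = 0) (j : ℤ)
    (ha : a ≤ j) (hb : j ≤ b) (x : ℝ) (hx : |x - j| ≤ 1 / 2) : pz a b g x = g (x - j) := by
  rw [j26879_key (fun _ => 1) (pz a b g) a b g h0 h1 (j26879_F1 a b g) j x hx, j26879_d,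
    if_pos ⟨ha, hb⟩, one_mul]

theorem pzs_eq (a b : ℤ) (g : ℝ → ℝ) (h0 : g (1 / 2) = 0) (h1 : g (-1 / 2) = 0) (j : ℤ)
    (ha : a ≤ j) (hb : j ≤ b) (x : ℝ) (hx : |x - j| ≤ 1 / 2) : pzs a b g x = sg j * g (x - j) := by
  rw [j26879_key sg (pzs a b g) a b g h0 h1 (j26879_F2 a b g) j x hx, j26879_d,
    if_pos ⟨ha, hb⟩]

theorem pz_out (a b : ℤ) (g : ℝ → ℝ) (h0 : g (1 / 2) = 0) (h1 : g (-1 / 2) = 0) (x : ℝ)
    (hx : x ≤ a - 1 / 2 ∨ (b : ℝ) + 1 / 2 ≤ x) : pz a b g x = 0 ∧ pzs a b g x = 0 := by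
  obtain ⟨j, hj, hd⟩ : ∃ j : ℤ, |x - j| ≤ 1 / 2 ∧ ¬ (a ≤ j ∧ j ≤ b) := by
    have hr : |x - (round x : ℤ)| ≤ 1 / 2 := abs_sub_round x
    by_cases h : a ≤ round x ∧ round x ≤ b
    · obtain ⟨a1, a2⟩ := abs_le.mp hr
      have h2 : (a : ℝ) ≤ (round x : ℤ) := by exact_mod_cast h.1
      have h3 : ((round x : ℤ) : ℝ) ≤ b := by exact_mod_cast h.2
      rcases hx with hx | hx
      · refine ⟨a - 1, ?_, fun hc => by omega⟩
        push_cast
        exact abs_le.mpr ⟨by linarith, by linarith⟩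
      · refine ⟨b + 1, ?_, fun hc => by omega⟩
        push_cast
        exact abs_le.mpr ⟨by linarith, by linarith⟩
    · exact ⟨round x, hr, h⟩
  constructor
  · rw [j26879_key (fun _ => 1) (pz a b g) a b g h0 h1 (j26879_F1 a b g) j x hj, j26879_d,
      if_neg hd, zero_mul]
  · rw [j26879_key sg (pzs a b g) a b g h0 h1 (j26879_F2 a b g) j x hj, j26879_d,
      if_neg hd, zero_mul]

theorem mono_pz (a b : ℤ) (g1 g2 : ℝ → ℝ) (m : ℝ) (hm : m ≤ 1)
    (h10 : g1 (1 / 2) = 0) (h11 : g1 (-1 / 2) = 0) (h20 : g2 (1 / 2) = 0) (h21 : g2 (-1 / 2) = 0)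
    (h : ∀ s : ℝ, (s = 1 ∨ s = -1) → ∀ x y, -1 / 2 ≤ x → x ≤ y → y ≤ 1 / 2 →
      m * (y - x) ≤ (y + s * g1 y + g2 y) - (x + s * g1 x + g2 x)) (x y : ℝ) (hxy : x ≤ y) :
    m * (y - x) ≤ (y + pzs a b g1 y + pz a b g2 y) - (x + pzs a b g1 x + pz a b g2 x) := by
  obtain ⟨P, hP⟩ : ∃ P : ℝ → ℝ, P = fun x => x + pzs a b g1 x + pz a b g2 x := ⟨_, rfl⟩
  have hPe : ∀ (j : ℤ) (x : ℝ), |x - j| ≤ 1 / 2 →
      P x = x + j26879_d sg a b j * g1 (x - j) + j26879_d (fun _ => 1) a b j * g2 (x - j) := by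
    intro j x hx
    rw [hP]
    show x + pzs a b g1 x + pz a b g2 x = _
    rw [j26879_key sg (pzs a b g1) a b g1 h10 h11 (j26879_F2 a b g1) j x hx,
      j26879_key (fun _ => 1) (pz a b g2) a b g2 h20 h21 (j26879_F1 a b g2) j x hx]
  have hbr : ∀ (j : ℤ) (x y : ℝ), |x - j| ≤ 1 / 2 → |y - j| ≤ 1 / 2 → x ≤ y →
      m * (y - x) ≤ P y - P x := by
    intro j x y hx hy hxy
    rw [hPe j x hx, hPe j y hy]
    obtain ⟨a1, a2⟩ := abs_le.mp hx
    obtain ⟨b1, b2⟩ := abs_le.mp hy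
    unfold j26879_d
    by_cases hin : a ≤ j ∧ j ≤ b
    · rw [if_pos hin, if_pos hin]
      have h3 := h (sg j) (j26879_sg j) (x - j) (y - j) (by linarith) (by linarith) (by linarith)
      have h4 : m * (y - j - (x - j)) = m * (y - x) := by ring
      linarith
    · rw [if_neg hin, if_neg hin]
      have : m * (y - x) ≤ 1 * (y - x) := mul_le_mul_of_nonneg_right hm (by linarith)
      linarith
  have hup : ∀ j : ℤ, P (j + 1 / 2) = j + 1 / 2 := by
    intro j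
    have h2 : (j : ℝ) + 1 / 2 - j = 1 / 2 := by ring
    rw [hPe j _ (by rw [h2, abs_of_pos (by norm_num)]), h2, h10, h20]
    ring
  have hdn : ∀ j : ℤ, P (j - 1 / 2) = j - 1 / 2 := by
    intro j
    have h2 : (j : ℝ) - 1 / 2 - j = -1 / 2 := by ring
    rw [hPe j _ (by rw [h2, abs_of_neg (by norm_num)]; norm_num), h2, h11, h21]
    ring
  have hgoal : m * (y - x) ≤ P y - P x := by
    rcases j26879_two x y hxy with ⟨j, hx, hy⟩ | ⟨j, k, hjk, hx, hy⟩
    · exact hbr j x y hx hy hxy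
    · obtain ⟨a1, a2⟩ := abs_le.mp hx
      obtain ⟨b1, b2⟩ := abs_le.mp hy
      have h2 : (j : ℝ) + 1 / 2 - j = 1 / 2 := by ring
      have h3 : (k : ℝ) - 1 / 2 - k = -1 / 2 := by ring
      have e1 := hbr j x (j + 1 / 2) hx (by rw [h2, abs_of_pos (by norm_num)]) (by linarith)
      have e2 := hbr k (k - 1 / 2) y (by rw [h3, abs_of_neg (by norm_num)]; norm_num) hy
        (by linarith)
      rw [hup] at e1
      rw [hdn] at e2
      have e3 : m * ((k - 1 / 2) - ((j : ℝ) + 1 / 2)) ≤ 1 * ((k - 1 / 2) - ((j : ℝ) + 1 / 2)) :=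
        mul_le_mul_of_nonneg_right hm (by linarith)
      have e4 : m * (y - x) = m * ((j : ℝ) + 1 / 2 - x) + m * (y - (k - 1 / 2)) +
        m * ((k - 1 / 2) - ((j : ℝ) + 1 / 2)) := by ring
      linarith
  rw [hP] at hgoal
  exact hgoal


end J26879

alias lip_pz := J26879.lip_pz
alias lip_pzs := J26879.lip_pzs
alias pz_eq := J26879.pz_eq
alias pzs_eq := J26879.pzs_eq
alias pz_out := J26879.pz_out
alias mono_pz := J26879.mono_pz

end Pool.Agent.ZZ
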