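import Pool.Agent.ZZ.Defs2
import Pool.Agent.ZZ.T01
import Pool.Agent.ZZ.T02

/-! job 27318, proof by helper779 -/

set_option autoImplicit false
open Set Filter Topology MeasureTheory
open scoped NNReal

namespace Pool.Agent.ZZ

namespace J27318
theorem zx_maxl (c a b : ℝ) : |max c a - max c b| ≤ |a - b| := by
  rw [max_comm c a, max_comm c b]
  exact abs_max_sub_max_le_abs a b c

theorem zx_clR_lip (a x y : ℝ) : |clR a x - clR a y| ≤ |x - y| := by
  unfold clR
  calc |max (-a) (min a x) - max (-a) (min a y)| ≤ |min a x - min a y| :=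
        zx_maxl _ _ _
    _ ≤ |x - y| := by
        rcases min_cases a x with ⟨h1, h2⟩ | ⟨h1, h2⟩ <;> rcases min_cases a y with ⟨h3, h4⟩ | ⟨h3, h4⟩ <;>
          rw [h1, h3] <;> rcases abs_cases (x - y) with ⟨h5, h6⟩ | ⟨h5, h6⟩ <;>
          rw [h5, abs_le] <;> constructor <;> linarith

theorem zx_bmp_lip (a x y : ℝ) : |bmp a x - bmp a y| ≤ 3 * |x - y| := by
  unfold bmp
  have h1 := zx_clR_lip a x y
  have h2 := zx_clR_lip (2 * a) x y
  rw [abs_le] at h1 h2 ⊢
  constructor <;> linarith [h1.1, h1.2, h2.1, h2.2]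

theorem zx_bmp_abs (a x : ℝ) (ha : 0 ≤ a) : |bmp a x| ≤ a := by
  unfold bmp clR
  rcases le_total x a with h1 | h1
  · rw [min_eq_right h1, min_eq_right (by linarith : x ≤ 2 * a)]
    rcases le_total (-a) x with h2 | h2
    · rw [max_eq_right h2, max_eq_right (by linarith : -(2 * a) ≤ x), abs_le]
      constructor <;> linarith
    · rw [max_eq_left h2]
      rcases le_total (-(2 * a)) x with h3 | h3
      · rw [max_eq_right h3, abs_le]
        constructor <;> linarith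
      · rw [max_eq_left h3, abs_le]
        constructor <;> linarith
  · rw [min_eq_left h1, max_eq_right (by linarith : -a ≤ a)]
    rcases le_total x (2 * a) with h2 | h2
    · rw [min_eq_right h2, max_eq_right (by linarith : -(2 * a) ≤ x), abs_le]
      constructor <;> linarith
    · rw [min_eq_left h2, max_eq_right (by linarith : -(2 * a) ≤ 2 * a), abs_le]
      constructor <;> linarith

theorem zx_sg_abs (j : ℤ) : |sg j| = 1 := by
  unfold sg
  split_ifs <;> simp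

theorem zx_pzs_abs (a b : ℤ) (g : ℝ → ℝ) (c : ℝ) (hc : 0 ≤ c) (hg : ∀ x, |x| ≤ 1 / 2 → |g x| ≤ c)
    (x : ℝ) : |pzs a b g x| ≤ c := by
  unfold pzs
  split_ifs
  · rw [abs_mul, zx_sg_abs, one_mul]
    exact hg _ (abs_sub_round x)
  · simpa using hc

theorem zx_mul3 (A A' S S' B B' a s b dA dS dB d : ℝ) (h1 : |A - A'| ≤ dA * d)
    (h2 : |S - S'| ≤ dS * d) (h3 : |B - B'| ≤ dB * d) (hA : |A'| ≤ a) (hS : |S| ≤ s) (hS' : |S'| ≤ s)
    (hB : |B| ≤ b) (hd : 0 ≤ d) (hdA : 0 ≤ dA) (hdS : 0 ≤ dS) (hdB : 0 ≤ dB) :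
    |A * S * B - A' * S' * B'| ≤ (dA * s * b + a * dS * b + a * s * dB) * d := by
  have ha : 0 ≤ a := (abs_nonneg _).trans hA
  have hs : 0 ≤ s := (abs_nonneg _).trans hS
  have hb : 0 ≤ b := (abs_nonneg _).trans hB
  have e : A * S * B - A' * S' * B' = (A - A') * S * B + A' * (S - S') * B + A' * S' * (B - B') := by
    ring
  rw [e]
  have q1 : |(A - A') * S * B| ≤ (dA * d) * s * b := by
    rw [abs_mul, abs_mul]; gcongr
  have q2 : |A' * (S - S') * B| ≤ a * (dS * d) * b := by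
    rw [abs_mul, abs_mul]; gcongr
  have q3 : |A' * S' * (B - B')| ≤ a * s * (dB * d) := by
    rw [abs_mul, abs_mul]; gcongr
  calc |(A - A') * S * B + A' * (S - S') * B + A' * S' * (B - B')|
      ≤ |(A - A') * S * B + A' * (S - S') * B| + |A' * S' * (B - B')| := abs_add_le _ _
    _ ≤ |(A - A') * S * B| + |A' * (S - S') * B| + |A' * S' * (B - B')| := by
        gcongr; exact abs_add_le _ _
    _ ≤ (dA * d) * s * b + a * (dS * d) * b + a * s * (dB * d) := by gcongr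
    _ = _ := by ring

theorem zx_coord (x y : E) (i : Fin 3) : |x i - y i| ≤ dist x y := by
  rw [← Real.dist_eq]; exact dist_le_pi_dist x y i

theorem zx_amp_lip {amp : ℝ → ℝ} (h : Amp amp) (s t : ℝ) : |amp s - amp t| ≤ |s - t| := by
  have := h.1.dist_le_mul s t
  rw [Real.dist_eq, Real.dist_eq] at this
  simpa using this

theorem zx_amp_abs {amp : ℝ → ℝ} (h : Amp amp) (s : ℝ) : |amp s| ≤ 1 := by
  rw [abs_of_nonneg (h.2 s).1]; exact (h.2 s).2

theorem zx_bs0 (ε : ℝ) : bs ε (1 / 2) = 0 ∧ bs ε (-1 / 2) = 0 := by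
  unfold bs
  constructor
  · rw [abs_of_nonneg (by norm_num : (0 : ℝ) ≤ 1 / 2)]; simp
  · rw [show (-1 / 2 : ℝ) = -(1 / 2) by ring, abs_neg, abs_of_nonneg (by norm_num : (0 : ℝ) ≤ 1 / 2)]
    simp

theorem zx_min1 (a b : ℝ) : |min 1 a - min 1 b| ≤ |a - b| := by
  rcases min_cases 1 a with ⟨h1, h2⟩ | ⟨h1, h2⟩ <;> rcases min_cases 1 b with ⟨h3, h4⟩ | ⟨h3, h4⟩ <;>
    rw [h1, h3] <;> rcases abs_cases (a - b) with ⟨h5, h6⟩ | ⟨h5, h6⟩ <;>
    rw [h5, abs_le] <;> constructor <;> linarith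

theorem zx_bs_lip (ε : ℝ) (h0 : 0 < ε) (x y : ℝ) : |bs ε x - bs ε y| ≤ 1 / (4 * wd ε) * |x - y| := by
  unfold bs
  have hw : 0 < 4 * wd ε := by unfold wd; positivity
  refine (zx_min1 _ _).trans ?_
  have key : |1 / 2 - |x| - (1 / 2 - |y|)| ≤ |x - y| := by
    have := abs_abs_sub_abs_le_abs_sub x y
    rw [show 1 / 2 - |x| - (1 / 2 - |y|) = -(|x| - |y|) by ring, abs_neg]
    exact this
  rw [← sub_div, abs_div, abs_of_pos hw, div_mul_eq_mul_div, one_mul]
  exact div_le_div_of_nonneg_right key hw.le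

theorem zx_bs_abs (ε : ℝ) (h0 : 0 < ε) (x : ℝ) (hx : |x| ≤ 1 / 2) : |bs ε x| ≤ 1 := by
  unfold bs
  have hw : 0 < 4 * wd ε := by unfold wd; positivity
  have h1 : 0 ≤ (1 / 2 - |x|) / (4 * wd ε) := div_nonneg (by linarith) hw.le
  rw [abs_le]
  constructor
  · have : (0 : ℝ) ≤ min 1 ((1 / 2 - |x|) / (4 * wd ε)) := le_min zero_le_one h1
    linarith
  · exact min_le_left _ _

theorem zx_wd (ε : ℝ) (h0 : 0 < ε) (h1 : ε ≤ 1 / 4) : 0 < wd ε ∧ wd ε ≤ 1 / 256 := by
  unfold wd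
  constructor <;> linarith

theorem phH_spec (ε : ℝ) (h0 : 0 < ε) (h1 : ε ≤ 1 / 4) : ∃ K : ℝ≥0, ∀ (N : ℕ) (amp : ℝ → ℝ), Amp amp →
    (∀ x, fibE 0 (phH ε N amp) x = Function.update x 0 (phH ε N amp x)) ∧
    LipschitzWith K (fibE 0 (phH ε N amp)) ∧ LipschitzWith K (fibE 0 (phH ε N amp)).symm := by
  obtain ⟨hw0, hw1⟩ := zx_wd ε h0 h1
  have hsl : 1 ≤ sl ε := by unfold sl am; linarith
  have hslpos : 0 < sl ε := by linarith
  refine ⟨max (max 1 6) (max 1 ((1 + 6) / (1 / 2))), fun N amp hamp => ?_⟩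
  have hS : ∀ x y, |pzs 1 N (bs ε) x - pzs 1 N (bs ε) y| ≤ 1 / (4 * wd ε) * |x - y| := by
    intro x y
    have hK : (0 : ℝ) ≤ 1 / (4 * wd ε) := by positivity
    have := (lip_pzs 1 N (bs ε) ⟨1 / (4 * wd ε), hK⟩ (fun x y _ _ => zx_bs_lip ε h0 x y)
      (zx_bs0 ε).1 (zx_bs0 ε).2).dist_le_mul x y
    rw [Real.dist_eq, Real.dist_eq] at this
    exact this
  have hSa : ∀ x, |pzs 1 N (bs ε) x| ≤ 1 := zx_pzs_abs 1 N (bs ε) 1 zero_le_one (zx_bs_abs ε h0)
  have hBa : ∀ x, |bmp (2 * wd ε) x| ≤ 2 * wd ε := fun x => zx_bmp_abs _ x (by linarith)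
  have hlip : LipschitzWith 6 (phH ε N amp) := by
    apply LipschitzWith.of_dist_le_mul
    intro x y
    rw [Real.dist_eq]
    have hd : 0 ≤ dist x y := dist_nonneg
    have key := zx_mul3 (amp (x 2)) (amp (y 2)) (pzs 1 N (bs ε) (x 0)) (pzs 1 N (bs ε) (y 0))
      (bmp (2 * wd ε) (x 1)) (bmp (2 * wd ε) (y 1)) 1 1 (2 * wd ε) 1 (1 / (4 * wd ε)) 3 (dist x y)
      (by rw [one_mul]; exact (zx_amp_lip hamp _ _).trans (zx_coord x y 2))
      ((hS _ _).trans (by gcongr; exact zx_coord x y 0))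
      ((zx_bmp_lip _ _ _).trans (by gcongr; exact zx_coord x y 1))
      (zx_amp_abs hamp _) (hSa _) (hSa _) (hBa _) hd zero_le_one (by positivity) (by norm_num)
    have e1 : (1 * 1 * (2 * wd ε) + 1 * (1 / (4 * wd ε)) * (2 * wd ε) + 1 * 1 * 3 : ℝ)
        = 2 * wd ε + 7 / 2 := by
      field_simp
      ring
    rw [e1] at key
    have e2 : phH ε N amp x - phH ε N amp y = (x 0 - y 0) -
        (amp (x 2) * pzs 1 N (bs ε) (x 0) * bmp (2 * wd ε) (x 1) -
          amp (y 2) * pzs 1 N (bs ε) (y 0) * bmp (2 * wd ε) (y 1)) / sl ε := by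
      unfold phH; ring
    rw [e2]
    have e3 : |(amp (x 2) * pzs 1 N (bs ε) (x 0) * bmp (2 * wd ε) (x 1) -
          amp (y 2) * pzs 1 N (bs ε) (y 0) * bmp (2 * wd ε) (y 1)) / sl ε| ≤
          (2 * wd ε + 7 / 2) * dist x y := by
      rw [abs_div, abs_of_pos hslpos]
      exact (div_le_self (abs_nonneg _) hsl).trans key
    have e4 := zx_coord x y 0
    have e5 : (2 * wd ε + 7 / 2) * dist x y ≤ 5 * dist x y := by
      gcongr; linarith
    have e6 : ((6 : ℝ≥0) : ℝ) = 6 := rfl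
    rw [e6]
    have := abs_sub (x 0 - y 0) ((amp (x 2) * pzs 1 N (bs ε) (x 0) * bmp (2 * wd ε) (x 1) -
          amp (y 2) * pzs 1 N (bs ε) (y 0) * bmp (2 * wd ε) (y 1)) / sl ε)
    linarith
  have hmono : ∀ (x : E) (s t : ℝ), s ≤ t →
      ((1 / 2 : ℝ≥0) : ℝ) * (t - s) ≤ phH ε N amp (Function.update x 0 t) -
        phH ε N amp (Function.update x 0 s) := by
    intro x s t hst
    have u0 : ∀ r, Function.update x 0 r 0 = r := fun r => Function.update_self 0 r x
    have u1 : ∀ r, Function.update x 0 r 1 = x 1 := fun r => Function.update_of_ne (by decide) r x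
    have u2 : ∀ r, Function.update x 0 r 2 = x 2 := fun r => Function.update_of_ne (by decide) r x
    unfold phH
    simp only [u0, u1, u2]
    have hb := hS t s
    rw [abs_of_nonneg (by linarith : (0 : ℝ) ≤ t - s)] at hb
    have h3 : |amp (x 2) * (pzs 1 N (bs ε) t - pzs 1 N (bs ε) s) * bmp (2 * wd ε) (x 1) / sl ε|
        ≤ 1 / 2 * (t - s) := by
      rw [abs_div, abs_of_pos hslpos]
      refine (div_le_self (abs_nonneg _) hsl).trans ?_
      rw [abs_mul, abs_mul]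
      calc |amp (x 2)| * |pzs 1 N (bs ε) t - pzs 1 N (bs ε) s| * |bmp (2 * wd ε) (x 1)|
          ≤ 1 * (1 / (4 * wd ε) * (t - s)) * (2 * wd ε) := by
            have := zx_amp_abs hamp (x 2)
            have := hBa (x 1)
            have : 0 ≤ 1 / (4 * wd ε) * (t - s) := by
              have : (0 : ℝ) ≤ t - s := by linarith
              positivity
            gcongr
        _ = 1 / 2 * (t - s) := by field_simp; ring
    have h4 := (abs_le.mp h3).2
    have e6 : ((1 / 2 : ℝ≥0) : ℝ) = 1 / 2 := by norm_num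
    rw [e6]
    have e7 : t - amp (x 2) * pzs 1 N (bs ε) t * bmp (2 * wd ε) (x 1) / sl ε -
        (s - amp (x 2) * pzs 1 N (bs ε) s * bmp (2 * wd ε) (x 1) / sl ε) =
        (t - s) - amp (x 2) * (pzs 1 N (bs ε) t - pzs 1 N (bs ε) s) * bmp (2 * wd ε) (x 1) / sl ε := by
      ring
    rw [e7]
    linarith
  obtain ⟨r1, r2, r3⟩ := fibE_spec 0 (phH ε N amp) (1 / 2) 6 (by norm_num) hlip hmono
  exact ⟨r1, r2.weaken (le_max_left _ _), r3.weaken (le_max_right _ _)⟩

theorem zx_tent0 : tent (1 / 2) = 0 ∧ tent (-1 / 2) = 0 := by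
  unfold tent
  constructor
  · rw [abs_of_nonneg (by norm_num : (0 : ℝ) ≤ 1 / 2)]; norm_num
  · rw [show (-1 / 2 : ℝ) = -(1 / 2) by ring, abs_neg, abs_of_nonneg (by norm_num : (0 : ℝ) ≤ 1 / 2)]
    norm_num

theorem zx_tent_lip (x y : ℝ) : |tent x - tent y| ≤ 2 * |x - y| := by
  unfold tent
  have := abs_abs_sub_abs_le_abs_sub x y
  rw [show 1 - 2 * |x| - (1 - 2 * |y|) = -(2 * (|x| - |y|)) by ring, abs_neg, abs_mul,
    abs_of_pos (by norm_num : (0 : ℝ) < 2)]
  gcongr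

theorem zx_tent_abs (x : ℝ) (hx : |x| ≤ 1 / 2) : |tent x| ≤ 1 := by
  unfold tent
  have := abs_nonneg x
  rw [abs_le]
  constructor <;> linarith

theorem zx_kap_abs (ε y : ℝ) : |kap ε y| ≤ 1 := by
  unfold kap
  rw [abs_of_nonneg (le_max_left _ _)]
  exact max_le zero_le_one (min_le_left _ _)

theorem zx_kap_lip (ε : ℝ) (hw : 0 < 1 - 4 * wd ε) (x y : ℝ) :
    |kap ε x - kap ε y| ≤ 1 / (1 - 4 * wd ε) * |x - y| := by
  unfold kap
  refine (zx_maxl _ _ _).trans ?_
  refine (zx_min1 _ _).trans ?_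
  have key : |1 - |x| - (1 - |y|)| ≤ |x - y| := by
    have := abs_abs_sub_abs_le_abs_sub x y
    rw [show 1 - |x| - (1 - |y|) = -(|x| - |y|) by ring, abs_neg]
    exact this
  rw [← sub_div, abs_div, abs_of_pos hw, div_mul_eq_mul_div, one_mul]
  exact div_le_div_of_nonneg_right key hw.le

theorem phV_spec (ε : ℝ) (h0 : 0 < ε) (h1 : ε ≤ 1 / 4) : ∃ K : ℝ≥0, ∀ (N : ℕ) (amp : ℝ → ℝ), Amp amp →
    (∀ x, fibE 1 (phV ε N amp) x = Function.update x 1 (phV ε N amp x)) ∧
    LipschitzWith K (fibE 1 (phV ε N amp)) ∧ LipschitzWith K (fibE 1 (phV ε N amp)).symm := by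
  obtain ⟨hw0, hw1⟩ := zx_wd ε h0 h1
  have ham : 0 < am ε ∧ am ε ≤ 1 := by unfold am; constructor <;> linarith
  have hw2 : 0 < 1 - 4 * wd ε := by linarith
  have hm0 : (0 : ℝ) ≤ 4 * wd ε := by linarith
  refine ⟨max (max 1 6) (max 1 ((1 + 6) / ⟨4 * wd ε, hm0⟩)), fun N amp hamp => ?_⟩
  have hT : ∀ x y, |hh ε N x - hh ε N y| ≤ 2 * |x - y| := by
    intro x y
    have := (lip_pzs 0 N tent 2 (fun x y _ _ => by
      have := zx_tent_lip x y
      exact_mod_cast this) zx_tent0.1 zx_tent0.2).dist_le_mul (x - 1 / 2) (y - 1 / 2)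
    rw [Real.dist_eq, Real.dist_eq] at this
    rw [show x - 1 / 2 - (y - 1 / 2) = x - y by ring] at this
    have e6 : ((2 : ℝ≥0) : ℝ) = 2 := rfl
    rw [e6] at this
    unfold hh
    rw [← mul_sub, abs_mul, abs_of_pos ham.1]
    calc am ε * |pzs 0 N tent (x - 1 / 2) - pzs 0 N tent (y - 1 / 2)| ≤ 1 * (2 * |x - y|) := by
          gcongr; exact ham.2
      _ = 2 * |x - y| := one_mul _
  have hTa : ∀ x, |hh ε N x| ≤ am ε := by
    intro x
    unfold hh
    rw [abs_mul, abs_of_pos ham.1]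
    have := zx_pzs_abs 0 N tent 1 zero_le_one zx_tent_abs (x - 1 / 2)
    calc am ε * |pzs 0 N tent (x - 1 / 2)| ≤ am ε * 1 := by gcongr; exact ham.1.le
      _ = am ε := mul_one _
  have hlip : LipschitzWith 6 (phV ε N amp) := by
    apply LipschitzWith.of_dist_le_mul
    intro x y
    rw [Real.dist_eq]
    have hd : 0 ≤ dist x y := dist_nonneg
    have hk2 : 1 / (1 - 4 * wd ε) ≤ 2 := by
      rw [div_le_iff₀ hw2]; linarith
    have key := zx_mul3 (amp (x 2)) (amp (y 2)) (hh ε N (x 0)) (hh ε N (y 0))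
      (kap ε (x 1)) (kap ε (y 1)) 1 1 1 1 2 2 (dist x y)
      (by rw [one_mul]; exact (zx_amp_lip hamp _ _).trans (zx_coord x y 2))
      ((hT _ _).trans (by gcongr; exact zx_coord x y 0))
      ((zx_kap_lip ε hw2 _ _).trans (by gcongr; exact zx_coord x y 1))
      (zx_amp_abs hamp _) ((hTa _).trans ham.2) ((hTa _).trans ham.2) (zx_kap_abs _ _) hd zero_le_one
      (by positivity) (by norm_num)
    have e2 : phV ε N amp x - phV ε N amp y = (x 1 - y 1) +
        (amp (x 2) * hh ε N (x 0) * kap ε (x 1) - amp (y 2) * hh ε N (y 0) * kap ε (y 1)) := by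
      unfold phV; ring
    rw [e2]
    have e4 := zx_coord x y 1
    have e6 : ((6 : ℝ≥0) : ℝ) = 6 := rfl
    rw [e6]
    have := abs_add_le (x 1 - y 1)
      (amp (x 2) * hh ε N (x 0) * kap ε (x 1) - amp (y 2) * hh ε N (y 0) * kap ε (y 1))
    linarith
  have hmono : ∀ (x : E) (s t : ℝ), s ≤ t →
      (((⟨4 * wd ε, hm0⟩ : ℝ≥0)) : ℝ) * (t - s) ≤ phV ε N amp (Function.update x 1 t) -
        phV ε N amp (Function.update x 1 s) := by
    intro x s t hst
    have u0 : ∀ r, Function.update x 1 r 0 = x 0 := fun r => Function.update_of_ne (by decide) r x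
    have u1 : ∀ r, Function.update x 1 r 1 = r := fun r => Function.update_self 1 r x
    have u2 : ∀ r, Function.update x 1 r 2 = x 2 := fun r => Function.update_of_ne (by decide) r x
    unfold phV
    simp only [u0, u1, u2]
    have hb := zx_kap_lip ε hw2 t s
    rw [abs_of_nonneg (by linarith : (0 : ℝ) ≤ t - s)] at hb
    have h3 : |amp (x 2) * hh ε N (x 0) * (kap ε t - kap ε s)| ≤ am ε * (1 / (1 - 4 * wd ε) * (t - s)) := by
      rw [abs_mul, abs_mul]
      calc |amp (x 2)| * |hh ε N (x 0)| * |kap ε t - kap ε s|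
          ≤ 1 * am ε * (1 / (1 - 4 * wd ε) * (t - s)) := by
            have q1 := zx_amp_abs hamp (x 2)
            have q2 := hTa (x 0)
            have q3 := ham.1
            gcongr
        _ = am ε * (1 / (1 - 4 * wd ε) * (t - s)) := by ring
    have h4 := (abs_le.mp h3).1
    have h5 : am ε * (1 / (1 - 4 * wd ε) * (t - s)) ≤ (1 - 4 * wd ε) * (t - s) := by
      have h6 : am ε * (1 / (1 - 4 * wd ε)) ≤ 1 - 4 * wd ε := by
        rw [mul_one_div, div_le_iff₀ hw2]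
        unfold am
        nlinarith
      calc am ε * (1 / (1 - 4 * wd ε) * (t - s)) = am ε * (1 / (1 - 4 * wd ε)) * (t - s) := by ring
        _ ≤ (1 - 4 * wd ε) * (t - s) := by
          have : (0 : ℝ) ≤ t - s := by linarith
          gcongr
    change 4 * wd ε * (t - s) ≤ _
    nlinarith [h4, h5]
  obtain ⟨r1, r2, r3⟩ := fibE_spec 1 (phV ε N amp) ⟨4 * wd ε, hm0⟩ 6
    (by rw [← NNReal.coe_pos]; change 0 < 4 * wd ε; linarith) hlip hmono
  exact ⟨r1, r2.weaken (le_max_left _ _), r3.weaken (le_max_right _ _)⟩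

end J27318

alias phH_spec := J27318.phH_spec
alias phV_spec := J27318.phV_spec

end Pool.Agent.ZZ
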