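import Pool.Agent.ZZ.Defs2
import Pool.Agent.ZZ.T01
import Pool.Agent.ZZ.T02

/-! job 27327, proof by helper915 -/

set_option autoImplicit false
open Set Filter Topology MeasureTheory
open scoped NNReal

namespace Pool.Agent.ZZ

namespace J27327
theorem jk_max_lip (c a b : ℝ) : |max c a - max c b| ≤ |a - b| := by
  rcases le_total a b with h | h
  · rw [abs_of_nonpos (by linarith [max_le_max (le_refl c) h]), abs_of_nonpos (by linarith)]
    have : max c b ≤ max c a + (b - a) := by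
      apply max_le
      · linarith [le_max_left c a]
      · linarith [le_max_right c a]
    linarith
  · rw [abs_of_nonneg (by linarith [max_le_max (le_refl c) h]), abs_of_nonneg (by linarith)]
    have : max c a ≤ max c b + (a - b) := by
      apply max_le
      · linarith [le_max_left c b]
      · linarith [le_max_right c b]
    linarith

theorem jk_min_lip (c a b : ℝ) : |min c a - min c b| ≤ |a - b| := by
  rcases le_total a b with h | h
  · rw [abs_of_nonpos (by linarith [min_le_min (le_refl c) h]), abs_of_nonpos (by linarith)]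
    have : min c b - (b - a) ≤ min c a := by
      apply le_min
      · linarith [min_le_left c b]
      · linarith [min_le_right c b]
    linarith
  · rw [abs_of_nonneg (by linarith [min_le_min (le_refl c) h]), abs_of_nonneg (by linarith)]
    have : min c a - (a - b) ≤ min c b := by
      apply le_min
      · linarith [min_le_left c a]
      · linarith [min_le_right c a]
    linarith

theorem jk_clR_mono (a x y : ℝ) (h : x ≤ y) : clR a x ≤ clR a y ∧ clR a y - clR a x ≤ y - x := by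
  unfold clR
  refine ⟨max_le_max le_rfl (min_le_min le_rfl h), ?_⟩
  rcases le_total a y with h1 | h1 <;> rcases le_total a x with h2 | h2
  · rw [min_eq_left h1, min_eq_left h2]; linarith
  · rw [min_eq_left h1, min_eq_right h2]
    have := le_max_right (-a) x
    rcases le_total (-a) a with h3 | h3
    · rw [max_eq_right h3]; linarith
    · rw [max_eq_left h3]
      have := le_max_left (-a) x
      linarith
  · have : a = y := le_antisymm (le_trans h2 h) h1
    rw [min_eq_right h1, min_eq_left h2, this]; linarith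
  · rw [min_eq_right h1, min_eq_right h2]
    rcases le_total (-a) y with h3 | h3
    · rw [max_eq_right h3]
      have := le_max_right (-a) x
      linarith
    · rw [max_eq_left h3]
      have := le_max_left (-a) x
      linarith

theorem jk_clR_lip (a x y : ℝ) : |clR a x - clR a y| ≤ |x - y| := by
  rcases le_total x y with h | h
  · obtain ⟨h1, h2⟩ := jk_clR_mono a x y h
    rw [abs_of_nonpos (by linarith), abs_of_nonpos (by linarith)]
    linarith
  · obtain ⟨h1, h2⟩ := jk_clR_mono a y x h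
    rw [abs_of_nonneg (by linarith), abs_of_nonneg (by linarith)]
    linarith

theorem jk_clR_abs (a x : ℝ) (ha : 0 ≤ a) : |clR a x| ≤ a := by
  unfold clR
  rw [abs_le]
  exact ⟨le_max_left _ _, max_le (by linarith) (min_le_left _ _)⟩

theorem jk_clR_eq (a x : ℝ) (hx : |x| ≤ a) : clR a x = x := by
  unfold clR
  obtain ⟨h1, h2⟩ := abs_le.1 hx
  rw [min_eq_right h2, max_eq_right h1]

theorem jk_clR_ge (a x : ℝ) (ha : 0 ≤ a) (hx : a ≤ x) : clR a x = a := by
  unfold clR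
  rw [min_eq_left hx, max_eq_right (by linarith)]

theorem jk_clR_le (a x : ℝ) (ha : 0 ≤ a) (hx : x ≤ -a) : clR a x = -a := by
  unfold clR
  rw [min_eq_right (by linarith), max_eq_left hx]

theorem jk_bW (ε : ℝ) (h0 : 0 < ε) (h1 : ε ≤ 1 / 4) (ξ : ℝ) :
    bW ε ξ = 1 - 2 / ε * |ξ - clR (fh ε) ξ| := by
  have hf : 0 < fh ε := by unfold fh; linarith
  have hrw : (1 / 2 - |ξ|) / (ε / 2) = (1 - 2 * |ξ|) / ε := by
    field_simp
  have hff : 2 * fh ε = 1 - ε := by unfold fh; ring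
  unfold bW
  rw [hrw]
  by_cases hc : |ξ| ≤ fh ε
  · rw [jk_clR_eq _ _ hc, sub_self, abs_zero, mul_zero, sub_zero]
    apply min_eq_left
    rw [le_div_iff₀ h0]
    linarith
  · push Not at hc
    have habs : |ξ - clR (fh ε) ξ| = |ξ| - fh ε := by
      rcases le_total 0 ξ with h | h
      · rw [abs_of_nonneg h] at hc ⊢
        rw [jk_clR_ge _ _ hf.le hc.le, abs_of_nonneg (by linarith)]
      · rw [abs_of_nonpos h] at hc ⊢
        rw [jk_clR_le _ _ hf.le (by linarith), abs_of_nonpos (by linarith)]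
        ring
    rw [habs, min_eq_right (by rw [div_le_iff₀ h0]; linarith)]
    field_simp
    linarith

theorem jk_exc_lip (a x y : ℝ) : |(x - clR a x) - (y - clR a y)| ≤ |x - y| := by
  rcases le_total x y with h | h
  · obtain ⟨h1, h2⟩ := jk_clR_mono a x y h
    rw [abs_of_nonpos (by linarith), abs_of_nonpos (by linarith)]
    linarith
  · obtain ⟨h1, h2⟩ := jk_clR_mono a y x h
    rw [abs_of_nonneg (by linarith), abs_of_nonneg (by linarith)]
    linarith

theorem jk_bW_lip (ε : ℝ) (h0 : 0 < ε) (h1 : ε ≤ 1 / 4) (x y : ℝ) :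
    |bW ε x - bW ε y| ≤ 2 / ε * |x - y| := by
  rw [jk_bW ε h0 h1, jk_bW ε h0 h1]
  have h2 : (1 - 2 / ε * |x - clR (fh ε) x|) - (1 - 2 / ε * |y - clR (fh ε) y|) =
      2 / ε * (|y - clR (fh ε) y| - |x - clR (fh ε) x|) := by ring
  have h3 : (0:ℝ) ≤ 2 / ε := by positivity
  rw [h2, abs_mul, abs_of_nonneg h3]
  apply mul_le_mul_of_nonneg_left _ h3
  refine le_trans (abs_abs_sub_abs_le_abs_sub _ _) ?_
  refine le_trans (jk_exc_lip _ _ _) ?_
  rw [abs_sub_comm]

theorem jk_bW_bd (ε : ℝ) (h0 : 0 < ε) (ξ : ℝ) (hξ : |ξ| ≤ 1 / 2) : |bW ε ξ| ≤ 1 := by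
  unfold bW
  have h1 : 0 ≤ (1 / 2 - |ξ|) / (ε / 2) := div_nonneg (by linarith) (by linarith)
  rw [abs_of_nonneg (le_min zero_le_one h1)]
  exact min_le_left _ _

theorem jk_bW_end (ε : ℝ) (h0 : 0 < ε) : bW ε (1 / 2) = 0 ∧ bW ε (-1 / 2) = 0 := by
  unfold bW
  constructor
  · rw [abs_of_nonneg (by norm_num)]; simp
  · rw [abs_of_nonpos (by norm_num)]; norm_num

theorem jk_bO_lip (ε x y : ℝ) : |bO ε x - bO ε y| ≤
    (|(1 - wd ε / sl ε / fh ε) / ε| + |(1 - ε) * ((1 - wd ε / sl ε / fh ε) / ε)|) * |x - y| := by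
  unfold bO
  set A := (1 - wd ε / sl ε / fh ε) / ε
  have h2 : (A * clR (fh ε) x - (1 - ε) * A * clR (1 / 2) x) -
      (A * clR (fh ε) y - (1 - ε) * A * clR (1 / 2) y) =
      A * (clR (fh ε) x - clR (fh ε) y) - ((1 - ε) * A) * (clR (1 / 2) x - clR (1 / 2) y) := by ring
  rw [h2, add_mul]
  refine le_trans (abs_sub _ _) (add_le_add ?_ ?_)
  · rw [abs_mul]
    exact mul_le_mul_of_nonneg_left (jk_clR_lip _ _ _) (abs_nonneg _)
  · rw [abs_mul]
    exact mul_le_mul_of_nonneg_left (jk_clR_lip _ _ _) (abs_nonneg _)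

theorem jk_bO_end (ε : ℝ) (h0 : 0 < ε) (h1 : ε ≤ 1 / 4) : bO ε (1 / 2) = 0 ∧ bO ε (-1 / 2) = 0 := by
  have hf : 0 ≤ fh ε := by unfold fh; linarith
  have hf2 : fh ε ≤ 1 / 2 := by unfold fh; linarith
  unfold bO
  constructor
  · rw [jk_clR_ge (fh ε) (1 / 2) hf hf2, jk_clR_ge (1 / 2) (1 / 2) (by norm_num) le_rfl]
    have : fh ε = (1 - ε) * (1 / 2) := by unfold fh; ring
    rw [this]; ring
  · rw [jk_clR_le (fh ε) (-1 / 2) hf (by linarith), jk_clR_le (1 / 2) (-1 / 2) (by norm_num) (by norm_num)]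
    have : fh ε = (1 - ε) * (1 / 2) := by unfold fh; ring
    rw [this]; ring

theorem jk_pz_bd (a b : ℤ) (g : ℝ → ℝ) (B : ℝ) (hB : 0 ≤ B) (hg : ∀ ξ, |ξ| ≤ 1 / 2 → |g ξ| ≤ B) (x : ℝ) :
    |pz a b g x| ≤ B ∧ |pzs a b g x| ≤ B := by
  unfold pz pzs
  have h1 := hg (x - round x) (abs_sub_round x)
  have h2 : |sg (round x)| = 1 := by
    unfold sg
    split_ifs <;> simp
  constructor
  · split_ifs
    · exact h1
    · simpa using hB
  · split_ifs
    · rw [abs_mul, h2, one_mul]; exact h1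
    · simpa using hB

theorem jk_pz_mul (a b : ℤ) (g : ℝ → ℝ) (c x : ℝ) :
    pz a b (fun ξ => c * g ξ) x = c * pz a b g x ∧ pzs a b (fun ξ => c * g ξ) x = c * pzs a b g x := by
  unfold pz pzs
  constructor
  · split_ifs <;> simp
  · split_ifs
    · ring
    · simp

theorem jk_par (ε : ℝ) (h0 : 0 < ε) (h1 : ε ≤ 1 / 4) : 0 < wd ε ∧ 0 < am ε ∧ am ε ≤ 1 ∧
    0 < am ε - 2 * wd ε ∧ 0 < sl ε ∧ 0 < fh ε ∧ wd ε ≤ 1 := by
  unfold sl am wd fh
  refine ⟨by linarith, by linarith, by linarith, by linarith, by linarith, by linarith, by linarith⟩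

theorem jk_R (ε : ℝ) (h0 : 0 < ε) (h1 : ε ≤ 1 / 4) (μ : ℝ) (hμ : |μ| ≤ (am ε - 2 * wd ε) / sl ε)
    (x y : ℝ) (hx : -1 / 2 ≤ x) (hxy : x ≤ y) (hy : y ≤ 1 / 2) :
    wd ε * (y - x) ≤ (y + μ * bW ε y - bO ε y) - (x + μ * bW ε x - bO ε x) := by
  obtain ⟨hw, ham, ham1, ham2, hsl, hf, hw1⟩ := jk_par ε h0 h1
  have hff : 2 * fh ε = 1 - ε := by unfold fh; ring
  have hx' : clR (1 / 2) x = x := jk_clR_eq _ _ (abs_le.2 ⟨by linarith, by linarith⟩)
  have hy' : clR (1 / 2) y = y := jk_clR_eq _ _ (abs_le.2 ⟨by linarith, by linarith⟩)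
  obtain ⟨hc1, hc2⟩ := jk_clR_mono (fh ε) x y hxy
  have hO : ∀ z, clR (1 / 2) z = z → bO ε z = (1 - wd ε / sl ε / fh ε) * clR (fh ε) z -
      ((1 - ε) * ((1 - wd ε / sl ε / fh ε) / ε)) * (z - clR (fh ε) z) := by
    intro z hz
    unfold bO
    rw [hz]
    field_simp
    ring
  rw [jk_bW ε h0 h1, jk_bW ε h0 h1, hO x hx', hO y hy']
  set cx := clR (fh ε) x
  set cy := clR (fh ε) y
  set q := wd ε / sl ε / fh ε with hq
  have hqf : 2 * fh ε * q = 2 * (wd ε / sl ε) := by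
    rw [hq]
    field_simp
  have hA : 1 + (1 - ε) * ((1 - q) / ε) = (2 / ε) * (1 / 2 - wd ε / sl ε) := by
    have : (1 - ε) * q = 2 * (wd ε / sl ε) := by rw [← hff]; exact hqf
    field_simp
    field_simp at this
    nlinarith
  have hq1 : wd ε ≤ q := by
    rw [hq, div_div, le_div_iff₀ (by positivity)]
    have h2 : sl ε * fh ε ≤ 1 := by
      unfold sl
      nlinarith
    nlinarith
  have hslope : wd ε ≤ (2 / ε) * (1 / 2 - wd ε / sl ε - (am ε - 2 * wd ε) / sl ε) := by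
    have h2 : 1 / 2 - wd ε / sl ε - (am ε - 2 * wd ε) / sl ε = wd ε / sl ε := by
      unfold sl
      field_simp
      ring
    rw [h2]
    have h3 : sl ε ≤ 2 := by unfold sl; linarith
    have h4 : wd ε / 2 ≤ wd ε / sl ε := div_le_div_of_nonneg_left hw.le hsl h3
    have h5 : (1:ℝ) ≤ 1 / ε := by rw [le_div_iff₀ h0]; linarith
    have h6 : (2 / ε) * (wd ε / sl ε) ≥ (2 / ε) * (wd ε / 2) :=
      mul_le_mul_of_nonneg_left h4 (by positivity)
    have h7 : (2 / ε) * (wd ε / 2) = (1 / ε) * wd ε := by ring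
    nlinarith
  have habs : abs (|y - cy| - |x - cx|) ≤ (y - cy) - (x - cx) := by
    refine le_trans (abs_abs_sub_abs_le_abs_sub _ _) ?_
    rw [abs_of_nonneg (by linarith)]
  have hde : 0 ≤ (y - cy) - (x - cx) := by linarith
  have hdc : 0 ≤ cy - cx := by linarith
  have hkey : -(μ * (2 / ε * (|y - cy| - |x - cx|))) ≥
      -((am ε - 2 * wd ε) / sl ε * (2 / ε * ((y - cy) - (x - cx)))) := by
    have h2 : |μ * (2 / ε * (|y - cy| - |x - cx|))| ≤
        (am ε - 2 * wd ε) / sl ε * (2 / ε * ((y - cy) - (x - cx))) := by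
      rw [abs_mul, abs_mul, abs_of_nonneg (by positivity : (0:ℝ) ≤ 2 / ε)]
      exact mul_le_mul hμ (mul_le_mul_of_nonneg_left habs (by positivity)) (by positivity)
        (by positivity)
    linarith [(abs_le.1 h2).2]
  have heq : (y + μ * (1 - 2 / ε * |y - cy|) - ((1 - q) * cy - (1 - ε) * ((1 - q) / ε) * (y - cy))) -
      (x + μ * (1 - 2 / ε * |x - cx|) - ((1 - q) * cx - (1 - ε) * ((1 - q) / ε) * (x - cx))) =
      q * (cy - cx) + (1 + (1 - ε) * ((1 - q) / ε)) * ((y - cy) - (x - cx)) -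
        μ * (2 / ε * (|y - cy| - |x - cx|)) := by
    ring
  rw [heq, hA]
  have e1 : wd ε * (cy - cx) ≤ q * (cy - cx) := mul_le_mul_of_nonneg_right hq1 hdc
  have e2 := mul_le_mul_of_nonneg_right hslope hde
  have e3 : (2 / ε) * (1 / 2 - wd ε / sl ε - (am ε - 2 * wd ε) / sl ε) * ((y - cy) - (x - cx)) =
      (2 / ε) * (1 / 2 - wd ε / sl ε) * ((y - cy) - (x - cx)) -
      (am ε - 2 * wd ε) / sl ε * (2 / ε * ((y - cy) - (x - cx))) := by ring
  have e4 : wd ε * (y - x) = wd ε * (cy - cx) + wd ε * ((y - cy) - (x - cx)) := by ring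
  rw [e3] at e2
  linarith

theorem jk_mu (ε : ℝ) (h0 : 0 < ε) (y z : ℝ) : (0 ≤ mu ε y ∧ mu ε y ≤ 1) ∧
    |mu ε y - mu ε z| ≤ 1 / (10 * wd ε) * |y - z| := by
  have hw : 0 < wd ε := by unfold wd; linarith
  unfold mu
  refine ⟨⟨le_max_left _ _, max_le zero_le_one (min_le_left _ _)⟩, ?_⟩
  have h1 : ∀ a b : ℝ, |max 0 (min 1 a) - max 0 (min 1 b)| ≤ |a - b| := by
    intro a b
    refine le_trans (jk_max_lip 0 _ _) ?_
    exact jk_min_lip 1 _ _
  refine le_trans (h1 _ _) ?_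
  rw [← sub_div, abs_div, abs_of_pos (by positivity : (0:ℝ) < 10 * wd ε), one_div,
    inv_mul_eq_div]
  apply div_le_div_of_nonneg_right _ (by positivity)
  have h2 : (1 - |y|) - (1 - |z|) = |z| - |y| := by ring
  rw [h2]
  refine le_trans (abs_abs_sub_abs_le_abs_sub _ _) ?_
  rw [abs_sub_comm]

theorem phK_spec (ε : ℝ) (h0 : 0 < ε) (h1 : ε ≤ 1 / 4) : ∃ K : ℝ≥0, ∀ (N : ℕ) (amp : ℝ → ℝ), Amp amp →
    (∀ x, fibE 0 (phK ε N amp) x = Function.update x 0 (phK ε N amp x)) ∧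
    LipschitzWith K (fibE 0 (phK ε N amp)) ∧ LipschitzWith K (fibE 0 (phK ε N amp)).symm := by
  obtain ⟨hw, ham, ham1, ham2, hsl, hf, hw1⟩ := jk_par ε h0 h1
  set L1 : ℝ := 2 / ε with hL1
  set L2 : ℝ := |(1 - wd ε / sl ε / fh ε) / ε| + |(1 - ε) * ((1 - wd ε / sl ε / fh ε) / ε)| with hL2
  set M : ℝ := (am ε - 2 * wd ε) / sl ε with hM
  set D : ℝ := 1 / (10 * wd ε) with hD
  have hL1n : 0 ≤ L1 := by positivity
  have hL2n : 0 ≤ L2 := by positivity
  have hMn : 0 ≤ M := by positivity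
  have hDn : 0 ≤ D := by positivity
  set LL : ℝ := 1 + (M * L1 + 1 / sl ε + L2) + (D + 1) * (M + L2) with hLL
  have hLLn : 0 ≤ LL := by positivity
  obtain ⟨w1, w2⟩ := jk_bW_end ε h0
  obtain ⟨o1, o2⟩ := jk_bO_end ε h0 h1
  refine ⟨max (max 1 (LL.toNNReal)) (max 1 ((1 + LL.toNNReal) / (wd ε).toNNReal)), ?_⟩
  intro N amp hamp
  obtain ⟨hamp1, hamp2⟩ := hamp
  have hP := lip_pzs 1 N (bW ε) L1.toNNReal (fun x y _ _ => by
    rw [Real.coe_toNNReal _ hL1n]; exact jk_bW_lip ε h0 h1 x y) w1 w2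
  have hQ := lip_pz 1 N (bO ε) L2.toNNReal (fun x y _ _ => by
    rw [Real.coe_toNNReal _ hL2n]; exact jk_bO_lip ε x y) o1 o2
  have hPb : ∀ t, |pzs 1 N (bW ε) t| ≤ 1 := fun t =>
    (jk_pz_bd 1 N (bW ε) 1 zero_le_one (fun ξ hξ => jk_bW_bd ε h0 ξ hξ) t).2
  have hQb : ∀ t, |pz 1 N (bO ε) t| ≤ L2 := fun t =>
    (jk_pz_bd 1 N (bO ε) L2 hL2n (fun ξ hξ => by
      have h2 := jk_bO_lip ε ξ (1 / 2)
      rw [o1, sub_zero] at h2
      refine le_trans h2 ?_
      have h3 : |ξ - 1 / 2| ≤ 1 := by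
        obtain ⟨a1, a2⟩ := abs_le.1 hξ
        rw [abs_le]; constructor <;> linarith
      calc L2 * |ξ - 1 / 2| ≤ L2 * 1 := mul_le_mul_of_nonneg_left h3 hL2n
        _ = L2 := mul_one _) t).1
  have hm : ∀ t, |clR (am ε - 2 * wd ε) t / sl ε| ≤ M := by
    intro t
    rw [abs_div, abs_of_pos hsl]
    exact div_le_div_of_nonneg_right (jk_clR_abs _ _ ham2.le) hsl.le
  have hlip : LipschitzWith LL.toNNReal (phK ε N amp) := by
    apply LipschitzWith.of_dist_le_mul
    intro x y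
    rw [Real.coe_toNNReal _ hLLn, Real.dist_eq]
    set d := dist x y with hd
    have hdn : 0 ≤ d := dist_nonneg
    have c0 : ∀ i, |x i - y i| ≤ d := by
      intro i
      rw [← Real.dist_eq]
      exact dist_le_pi_dist x y i
    have c1 : |pzs 1 N (bW ε) (x 0) - pzs 1 N (bW ε) (y 0)| ≤ L1 * d := by
      have := hP.dist_le_mul (x 0) (y 0)
      rw [Real.coe_toNNReal _ hL1n, Real.dist_eq, Real.dist_eq] at this
      exact le_trans this (mul_le_mul_of_nonneg_left (c0 0) hL1n)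
    have c2 : |pz 1 N (bO ε) (x 0) - pz 1 N (bO ε) (y 0)| ≤ L2 * d := by
      have := hQ.dist_le_mul (x 0) (y 0)
      rw [Real.coe_toNNReal _ hL2n, Real.dist_eq, Real.dist_eq] at this
      exact le_trans this (mul_le_mul_of_nonneg_left (c0 0) hL2n)
    have c3 : |clR (am ε - 2 * wd ε) (x 1) / sl ε - clR (am ε - 2 * wd ε) (y 1) / sl ε| ≤
        1 / sl ε * d := by
      rw [← sub_div, abs_div, abs_of_pos hsl, one_div, inv_mul_eq_div]
      exact div_le_div_of_nonneg_right (le_trans (jk_clR_lip _ _ _) (c0 1)) hsl.le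
    have c4 : |amp (x 2) - amp (y 2)| ≤ d := by
      have := hamp1.dist_le_mul (x 2) (y 2)
      rw [Real.dist_eq, Real.dist_eq, NNReal.coe_one, one_mul] at this
      exact le_trans this (c0 2)
    have c5 : |mu ε (x 1) - mu ε (y 1)| ≤ D * d :=
      le_trans (jk_mu ε h0 (x 1) (y 1)).2 (mul_le_mul_of_nonneg_left (c0 1) hDn)
    obtain ⟨⟨m1, m2⟩, _⟩ := jk_mu ε h0 (x 1) (y 1)
    obtain ⟨⟨m3, m4⟩, _⟩ := jk_mu ε h0 (y 1) (x 1)
    obtain ⟨p1, p2⟩ := hamp2 (x 2)
    obtain ⟨p3, p4⟩ := hamp2 (y 2)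
    have b1 := hm (x 1)
    have b2 := hm (y 1)
    have b3 := hPb (x 0)
    have b4 := hPb (y 0)
    have b5 := hQb (x 0)
    have b6 := hQb (y 0)
    unfold phK
    set P := pzs 1 N (bW ε) (x 0)
    set P' := pzs 1 N (bW ε) (y 0)
    set Q := pz 1 N (bO ε) (x 0)
    set Q' := pz 1 N (bO ε) (y 0)
    set m := clR (am ε - 2 * wd ε) (x 1) / sl ε
    set m' := clR (am ε - 2 * wd ε) (y 1) / sl ε
    set A := amp (x 2)
    set A' := amp (y 2)
    set u := mu ε (x 1)
    set u' := mu ε (y 1)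
    have g1 : |(m * P - Q) - (m' * P' - Q')| ≤ (M * L1 + 1 / sl ε + L2) * d := by
      have e : (m * P - Q) - (m' * P' - Q') = m * (P - P') + (m - m') * P' - (Q - Q') := by ring
      rw [e]
      refine le_trans (abs_sub _ _) ?_
      refine le_trans (add_le_add (abs_add_le _ _) le_rfl) ?_
      rw [abs_mul, abs_mul]
      have f1 : |m| * |P - P'| ≤ M * (L1 * d) := mul_le_mul b1 c1 (abs_nonneg _) hMn
      have f2 : |m - m'| * |P'| ≤ (1 / sl ε * d) * 1 :=
        mul_le_mul c3 b4 (abs_nonneg _) (by positivity)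
      linarith
    have g2 : |m' * P' - Q'| ≤ M + L2 := by
      refine le_trans (abs_sub _ _) (add_le_add ?_ b6)
      rw [abs_mul]
      calc |m'| * |P'| ≤ M * 1 := mul_le_mul b2 b4 (abs_nonneg _) hMn
        _ = M := mul_one _
    have g3 : |A * u - A' * u'| ≤ (D + 1) * d := by
      have e : A * u - A' * u' = A * (u - u') + (A - A') * u' := by ring
      rw [e]
      refine le_trans (abs_add_le _ _) ?_
      rw [abs_mul, abs_mul, abs_of_nonneg p1, abs_of_nonneg m3]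
      have f1 : A * |u - u'| ≤ 1 * (D * d) := mul_le_mul p2 c5 (abs_nonneg _) zero_le_one
      have f2 : |A - A'| * u' ≤ d * 1 := mul_le_mul c4 m4 m3 hdn
      linarith
    have g4 : |A * u| ≤ 1 := by
      rw [abs_mul, abs_of_nonneg p1, abs_of_nonneg m1]
      calc A * u ≤ 1 * 1 := mul_le_mul p2 m2 m1 zero_le_one
        _ = 1 := one_mul _
    have e : (x 0 + A * u * (m * P - Q)) - (y 0 + A' * u' * (m' * P' - Q')) =
        (x 0 - y 0) + (A * u) * ((m * P - Q) - (m' * P' - Q')) +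
          (A * u - A' * u') * (m' * P' - Q') := by ring
    rw [e]
    refine le_trans (abs_add_le _ _) ?_
    refine le_trans (add_le_add (abs_add_le _ _) le_rfl) ?_
    rw [abs_mul (A * u), abs_mul (A * u - A' * u')]
    have f1 : |A * u| * |(m * P - Q) - (m' * P' - Q')| ≤ 1 * ((M * L1 + 1 / sl ε + L2) * d) :=
      mul_le_mul g4 g1 (abs_nonneg _) zero_le_one
    have f2 : |A * u - A' * u'| * |m' * P' - Q'| ≤ ((D + 1) * d) * (M + L2) :=
      mul_le_mul g3 g2 (abs_nonneg _) (by positivity)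
    have f3 := c0 0
    calc _ ≤ d + 1 * ((M * L1 + 1 / sl ε + L2) * d) + ((D + 1) * d) * (M + L2) :=
          add_le_add (add_le_add f3 f1) f2
      _ = LL * d := by rw [hLL]; ring
  have hmono : ∀ (x : E) (s t : ℝ), s ≤ t → ((wd ε).toNNReal : ℝ) * (t - s) ≤
      phK ε N amp (Function.update x 0 t) - phK ε N amp (Function.update x 0 s) := by
    intro x s t hst
    rw [Real.coe_toNNReal _ hw.le]
    obtain ⟨⟨m1, m2⟩, _⟩ := jk_mu ε h0 (x 1) (x 1)
    obtain ⟨p1, p2⟩ := hamp2 (x 2)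
    set a : ℝ := amp (x 2) * mu ε (x 1) with ha
    have ha0 : 0 ≤ a := mul_nonneg p1 m1
    have ha1 : a ≤ 1 := by
      calc a ≤ 1 * 1 := mul_le_mul p2 m2 m1 zero_le_one
        _ = 1 := one_mul _
    set m : ℝ := clR (am ε - 2 * wd ε) (x 1) / sl ε with hmdef
    have hmb : |m| ≤ M := hm (x 1)
    have hval : ∀ r : ℝ, phK ε N amp (Function.update x 0 r) =
        r + pzs 1 N (fun ξ => (a * m) * bW ε ξ) r + pz 1 N (fun ξ => (-a) * bO ε ξ) r := by
      intro r
      rw [(jk_pz_mul 1 N (bW ε) (a * m) r).2, (jk_pz_mul 1 N (bO ε) (-a) r).1]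
      unfold phK
      have e1 : Function.update x 0 r 1 = x 1 := Function.update_of_ne (by decide) _ _
      have e2 : Function.update x 0 r 2 = x 2 := Function.update_of_ne (by decide) _ _
      rw [e1, e2, Function.update_self, ha, hmdef]
      ring
    rw [hval s, hval t]
    refine mono_pz 1 N (fun ξ => (a * m) * bW ε ξ) (fun ξ => (-a) * bO ε ξ) (wd ε) hw1
      (by simp only [w1, mul_zero]) (by simp only [w2, mul_zero]) (by simp only [o1, mul_zero])
      (by simp only [o2, mul_zero]) ?_ s t hst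
    intro σ hσ y z hy hyz hz
    have hσm : |σ * m| ≤ M := by
      rcases hσ with rfl | rfl
      · simpa using hmb
      · simpa using hmb
    have hR := jk_R ε h0 h1 (σ * m) hσm y z hy hyz hz
    have hle : wd ε * (z - y) ≤ z - y := by
      have : 0 ≤ z - y := by linarith
      nlinarith
    have e : (z + σ * (a * m * bW ε z) + -a * bO ε z) - (y + σ * (a * m * bW ε y) + -a * bO ε y) =
        (1 - a) * (z - y) + a * ((z + σ * m * bW ε z - bO ε z) - (y + σ * m * bW ε y - bO ε y)) := by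
      ring
    rw [e]
    have f1 : (1 - a) * (wd ε * (z - y)) ≤ (1 - a) * (z - y) :=
      mul_le_mul_of_nonneg_left hle (by linarith)
    have f2 := mul_le_mul_of_nonneg_left hR ha0
    linarith
  obtain ⟨r1, r2, r3⟩ := fibE_spec 0 (phK ε N amp) (wd ε).toNNReal LL.toNNReal
    (Real.toNNReal_pos.2 hw) hlip hmono
  exact ⟨r1, r2.weaken (le_max_left _ _), r3.weaken (le_max_right _ _)⟩

end J27327

alias phK_spec := J27327.phK_spec

end Pool.Agent.ZZ
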