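import Pool.Agent.ZZ.Defs2
import Pool.Agent.ZZ.T05
import Pool.Agent.ZZ.T06

/-! job 27341, proof by helper895 -/

set_option autoImplicit false
open Set Filter Topology MeasureTheory
open scoped NNReal

namespace Pool.Agent.ZZ

namespace J27341
theorem fold_lip (ε : ℝ) (h0 : 0 < ε) (h1 : ε ≤ 1 / 4) : ∃ K : ℝ≥0, ∀ (N : ℕ) (amp : ℝ → ℝ), Amp amp →
    LipschitzWith K (fold ε N amp) ∧ LipschitzWith K (fold ε N amp).symm := by
  obtain ⟨K1, H1⟩ := phH_spec ε h0 h1
  obtain ⟨K2, H2⟩ := phV_spec ε h0 h1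
  obtain ⟨K3, H3⟩ := phK_spec ε h0 h1
  refine ⟨K1 * K2 * K3, fun N amp ha => ⟨?_, ?_⟩⟩
  · have h := (H3 N amp ha).2.2.comp ((H2 N amp ha).2.1.comp (H1 N amp ha).2.1)
    refine LipschitzWith.weaken (f := fold ε N amp) h (le_of_eq ?_)
    ring
  · have h := (H1 N amp ha).2.2.comp ((H2 N amp ha).2.2.comp (H3 N amp ha).2.1)
    refine LipschitzWith.weaken (f := (fold ε N amp).symm) h (le_of_eq ?_)
    ring

/-! ## facts about the zigzag function -/
theorem tent_half : tent (1 / 2) = 0 ∧ tent (-1 / 2) = 0 := by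
  unfold tent
  constructor
  · rw [abs_of_nonneg (by norm_num : (0:ℝ) ≤ 1 / 2)]; norm_num
  · rw [abs_of_nonpos (by norm_num : (-1 / 2 : ℝ) ≤ 0)]; norm_num
theorem sg_sub_one (j : ℤ) : sg (j - 1) = - sg j := by
  unfold sg
  by_cases h : Even j
  · rw [if_pos h, if_neg (by rw [Int.even_sub_one]; exact not_not.mpr h)]
  · rw [if_neg h, if_pos (by rw [Int.even_sub_one]; exact h), neg_neg]
theorem hh_branch (ε : ℝ) (N k : ℕ) (hk1 : 1 ≤ k) (hk : k ≤ N) (x : ℝ) (hx : |x - k| ≤ 1 / 2) :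
    hh ε N x = sg k * sl ε * (x - k) := by
  obtain ⟨t0, t1⟩ := tent_half
  obtain ⟨hx1, hx2⟩ := abs_le.mp hx
  unfold hh sl
  rcases le_total (k : ℝ) x with h | h
  · have ha : |x - 1 / 2 - ((k : ℤ) : ℝ)| ≤ 1 / 2 := by
      rw [Int.cast_natCast, abs_le]
      constructor <;> linarith
    rw [pzs_eq 0 N tent t0 t1 (k : ℤ) (by omega) (by omega) (x - 1 / 2) ha]
    have e : tent (x - 1 / 2 - ((k : ℤ) : ℝ)) = 2 * (x - k) := by
      unfold tent
      rw [Int.cast_natCast, abs_of_nonpos (by linarith)]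
      ring
    rw [e]
    ring
  · have hc : (((k : ℤ) - 1 : ℤ) : ℝ) = (k : ℝ) - 1 := by push_cast; ring
    have ha : |x - 1 / 2 - (((k : ℤ) - 1 : ℤ) : ℝ)| ≤ 1 / 2 := by
      rw [hc, abs_le]
      constructor <;> linarith
    rw [pzs_eq 0 N tent t0 t1 ((k : ℤ) - 1) (by omega) (by omega) (x - 1 / 2) ha]
    have e : tent (x - 1 / 2 - (((k : ℤ) - 1 : ℤ) : ℝ)) = - (2 * (x - k)) := by
      unfold tent
      rw [hc, abs_of_nonneg (by linarith)]
      ring
    rw [e, sg_sub_one]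
    ring
theorem hh_abs (ε : ℝ) (h0 : 0 < ε) (h1 : ε ≤ 1 / 4) (N : ℕ) (x : ℝ) : |hh ε N x| ≤ am ε := by
  have ham : 0 ≤ am ε := by
    unfold am wd
    linarith
  have hp : |pzs 0 N tent (x - 1 / 2)| ≤ 1 := by
    unfold pzs
    split_ifs with h
    · have h2 := abs_sub_round (x - 1 / 2)
      have h3 : |sg (round (x - 1 / 2))| = 1 := by
        unfold sg
        split_ifs
        · exact abs_one
        · rw [abs_neg, abs_one]
      rw [abs_mul, h3, one_mul]
      unfold tent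
      have h4 := abs_nonneg (x - 1 / 2 - (round (x - 1 / 2) : ℝ))
      rw [abs_le]
      constructor <;> linarith
    · rw [abs_zero]; exact zero_le_one
  unfold hh
  rw [abs_mul, abs_of_nonneg ham]
  calc am ε * |pzs 0 N tent (x - 1 / 2)| ≤ am ε * 1 := mul_le_mul_of_nonneg_left hp ham
    _ = am ε := mul_one _
theorem hh_out (ε : ℝ) (N : ℕ) (x : ℝ) (hx : x ≤ 0 ∨ (N : ℝ) + 1 ≤ x) : hh ε N x = 0 := by
  obtain ⟨t0, t1⟩ := tent_half
  unfold hh
  rw [(pz_out 0 N tent t0 t1 (x - 1 / 2) ?_).2, mul_zero]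
  rcases hx with h | h
  · left
    push_cast
    linarith
  · right
    rw [Int.cast_natCast]
    linarith

/-! ## facts about the fold -/
theorem fold_two (ε : ℝ) (h0 : 0 < ε) (h1 : ε ≤ 1 / 4) (N : ℕ) (amp : ℝ → ℝ) (ha : Amp amp) (x : E) :
    fold ε N amp x 2 = x 2 ∧ (fold ε N amp).symm x 2 = x 2 := by
  obtain ⟨K1, H1⟩ := phH_spec ε h0 h1
  obtain ⟨K2, H2⟩ := phV_spec ε h0 h1
  obtain ⟨K3, H3⟩ := phK_spec ε h0 h1
  have n02 : (2 : Fin 3) ≠ 0 := by decide
  have n12 : (2 : Fin 3) ≠ 1 := by decide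
  have a1 : ∀ y : E, fibE 0 (phH ε N amp) y 2 = y 2 := by
    intro y
    rw [(H1 N amp ha).1 y, Function.update_of_ne n02]
  have a2 : ∀ y : E, fibE 1 (phV ε N amp) y 2 = y 2 := by
    intro y
    rw [(H2 N amp ha).1 y, Function.update_of_ne n12]
  have a3 : ∀ y : E, fibE 0 (phK ε N amp) y 2 = y 2 := by
    intro y
    rw [(H3 N amp ha).1 y, Function.update_of_ne n02]
  have b1 : ∀ y : E, (fibE 0 (phH ε N amp)).symm y 2 = y 2 := by
    intro y
    have h := a1 ((fibE 0 (phH ε N amp)).symm y)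
    rw [Homeomorph.apply_symm_apply] at h
    exact h.symm
  have b2 : ∀ y : E, (fibE 1 (phV ε N amp)).symm y 2 = y 2 := by
    intro y
    have h := a2 ((fibE 1 (phV ε N amp)).symm y)
    rw [Homeomorph.apply_symm_apply] at h
    exact h.symm
  have b3 : ∀ y : E, (fibE 0 (phK ε N amp)).symm y 2 = y 2 := by
    intro y
    have h := a3 ((fibE 0 (phK ε N amp)).symm y)
    rw [Homeomorph.apply_symm_apply] at h
    exact h.symm
  constructor
  · show (fibE 0 (phK ε N amp)).symm (fibE 1 (phV ε N amp) (fibE 0 (phH ε N amp) x)) 2 = x 2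
    rw [b3, a2, a1]
  · show (fibE 0 (phH ε N amp)).symm ((fibE 1 (phV ε N amp)).symm (fibE 0 (phK ε N amp) x)) 2 = x 2
    rw [b1, b2, a3]

end J27341

alias fold_lip := J27341.fold_lip
alias hh_branch := J27341.hh_branch
alias hh_abs := J27341.hh_abs
alias hh_out := J27341.hh_out
alias fold_two := J27341.fold_two

end Pool.Agent.ZZ
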