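import Pool.Agent.ZZ.Defs2
import Pool.Agent.ZZ.T07

/-! job 27354, proof by helper444 -/

set_option autoImplicit false
open Set Filter Topology MeasureTheory
open scoped NNReal

namespace Pool.Agent.ZZ

namespace J27354

theorem fo_bs (ε : ℝ) : bs ε (1 / 2) = 0 ∧ bs ε (-1 / 2) = 0 := by
  unfold bs
  have h1 : |(1 / 2 : ℝ)| = 1 / 2 := abs_of_pos (by norm_num)
  have h2 : |(-1 / 2 : ℝ)| = 1 / 2 := by
    rw [show (-1 / 2 : ℝ) = -(1 / 2) by ring, abs_neg, h1]
  rw [h1, h2]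
  simp

theorem fo_bW (ε : ℝ) : bW ε (1 / 2) = 0 ∧ bW ε (-1 / 2) = 0 := by
  unfold bW
  have h1 : |(1 / 2 : ℝ)| = 1 / 2 := abs_of_pos (by norm_num)
  have h2 : |(-1 / 2 : ℝ)| = 1 / 2 := by
    rw [show (-1 / 2 : ℝ) = -(1 / 2) by ring, abs_neg, h1]
  rw [h1, h2]
  simp

theorem fo_clR_pos (a x : ℝ) (ha : 0 ≤ a) (h : a ≤ x) : clR a x = a := by
  unfold clR
  rw [min_eq_left h, max_eq_right (by linarith)]

theorem fo_clR_neg (a x : ℝ) (ha : 0 ≤ a) (h : x ≤ -a) : clR a x = -a := by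
  unfold clR
  rw [min_eq_right (by linarith), max_eq_left h]

theorem fo_bO (ε : ℝ) (h0 : 0 < ε) (h1 : ε ≤ 1 / 4) : bO ε (1 / 2) = 0 ∧ bO ε (-1 / 2) = 0 := by
  unfold bO
  have hf : fh ε = (1 - ε) / 2 := rfl
  have hf0 : 0 ≤ fh ε := by rw [hf]; linarith
  have hf1 : fh ε ≤ 1 / 2 := by rw [hf]; linarith
  constructor
  · rw [fo_clR_pos _ _ hf0 hf1, fo_clR_pos _ _ (by norm_num) le_rfl]
    have : ∀ c : ℝ, c * fh ε - ((1 - ε) * c) * (1 / 2) = 0 := by
      intro c; rw [hf]; ring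
    exact this _
  · rw [fo_clR_neg _ _ hf0 (by linarith), fo_clR_neg _ _ (by norm_num) (by norm_num)]
    have : ∀ c : ℝ, c * (-fh ε) - ((1 - ε) * c) * (-(1 / 2)) = 0 := by
      intro c; rw [hf]; ring
    exact this _

theorem fo_bmp (a x : ℝ) (ha : 0 ≤ a) (h : 2 * a ≤ |x|) : bmp a x = 0 := by
  unfold bmp
  rcases le_total 0 x with hx | hx
  · rw [abs_of_nonneg hx] at h
    rw [fo_clR_pos a x ha (by linarith), fo_clR_pos (2 * a) x (by linarith) h]
    ring
  · rw [abs_of_nonpos hx] at h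
    rw [fo_clR_neg a x ha (by linarith), fo_clR_neg (2 * a) x (by linarith) (by linarith)]
    ring

theorem fo_all (ε : ℝ) (h0 : 0 < ε) (h1 : ε ≤ 1 / 4) (N : ℕ) (amp : ℝ → ℝ) (x : E)
    (hx : x 0 ≤ 0 ∨ (N : ℝ) + 1 ≤ x 0 ∨ 1 ≤ |x 1| ∨ amp (x 2) = 0) :
    phH ε N amp x = x 0 ∧ phV ε N amp x = x 1 ∧ phK ε N amp x = x 0 := by
  have hwd : wd ε = ε / 64 := rfl
  have hout : (x 0 ≤ 0 ∨ (N : ℝ) + 1 ≤ x 0) →
      phH ε N amp x = x 0 ∧ phV ε N amp x = x 1 ∧ phK ε N amp x = x 0 := by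
    intro h
    have hc : x 0 ≤ ((1 : ℤ) : ℝ) - 1 / 2 ∨ (((N : ℤ) : ℝ)) + 1 / 2 ≤ x 0 := by
      push_cast
      rcases h with h | h
      · left; linarith
      · right; linarith
    have p1 := (pz_out 1 N (bs ε) (fo_bs ε).1 (fo_bs ε).2 (x 0) hc).2
    have p2 := (pz_out 1 N (bW ε) (fo_bW ε).1 (fo_bW ε).2 (x 0) hc).2
    have p3 := (pz_out 1 N (bO ε) (fo_bO ε h0 h1).1 (fo_bO ε h0 h1).2 (x 0) hc).1
    have p4 := hh_out ε N (x 0) h
    refine ⟨?_, ?_, ?_⟩
    · unfold phH; rw [p1]; ring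
    · unfold phV; rw [p4]; ring
    · unfold phK; rw [p2, p3]; ring
  rcases hx with h | h | h | h
  · exact hout (Or.inl h)
  · exact hout (Or.inr h)
  · have p1 : bmp (2 * wd ε) (x 1) = 0 :=
      fo_bmp _ _ (by rw [hwd]; linarith) (by rw [hwd]; linarith)
    have p2 : kap ε (x 1) = 0 := by
      unfold kap
      have : (1 - |x 1|) / (1 - 4 * wd ε) ≤ 0 :=
        div_nonpos_of_nonpos_of_nonneg (by linarith) (by rw [hwd]; linarith)
      rw [min_eq_right (by linarith), max_eq_left this]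
    have p3 : mu ε (x 1) = 0 := by
      unfold mu
      have : (1 - |x 1|) / (10 * wd ε) ≤ 0 :=
        div_nonpos_of_nonpos_of_nonneg (by linarith) (by rw [hwd]; linarith)
      rw [min_eq_right (by linarith), max_eq_left this]
    refine ⟨?_, ?_, ?_⟩
    · unfold phH; rw [p1]; ring
    · unfold phV; rw [p2]; ring
    · unfold phK; rw [p3]; ring
  · refine ⟨?_, ?_, ?_⟩
    · unfold phH; rw [h]; ring
    · unfold phV; rw [h]; ring
    · unfold phK; rw [h]; ring

theorem fold_out (ε : ℝ) (h0 : 0 < ε) (h1 : ε ≤ 1 / 4) (N : ℕ) (amp : ℝ → ℝ) (ha : Amp amp) (x : E)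
    (hx : x 0 ≤ 0 ∨ (N : ℝ) + 1 ≤ x 0 ∨ 1 ≤ |x 1| ∨ amp (x 2) = 0) :
    fold ε N amp x = x ∧ (fold ε N amp).symm x = x := by
  obtain ⟨_, hHs⟩ := phH_spec ε h0 h1
  obtain ⟨_, hVs⟩ := phV_spec ε h0 h1
  obtain ⟨_, hKs⟩ := phK_spec ε h0 h1
  have hH := (hHs N amp ha).1 x
  have hV := (hVs N amp ha).1 x
  have hK := (hKs N amp ha).1 x
  obtain ⟨e1, e2, e3⟩ := fo_all ε h0 h1 N amp x hx
  rw [e1, Function.update_eq_self] at hH
  rw [e2, Function.update_eq_self] at hV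
  rw [e3, Function.update_eq_self] at hK
  have hH' : (fibE 0 (phH ε N amp)).symm x = x := by
    rw [Homeomorph.symm_apply_eq]; exact hH.symm
  have hV' : (fibE 1 (phV ε N amp)).symm x = x := by
    rw [Homeomorph.symm_apply_eq]; exact hV.symm
  have hK' : (fibE 0 (phK ε N amp)).symm x = x := by
    rw [Homeomorph.symm_apply_eq]; exact hK.symm
  constructor
  · show (fibE 0 (phK ε N amp)).symm ((fibE 1 (phV ε N amp)) ((fibE 0 (phH ε N amp)) x)) = x
    rw [hH, hV, hK']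
  · show (fibE 0 (phH ε N amp)).symm ((fibE 1 (phV ε N amp)).symm
      ((fibE 0 (phK ε N amp)) x)) = x
    rw [hK, hV', hH']

/-- relation preserved by the factors -/
def FR (amp amp' : ℝ → ℝ) (x y : E) : Prop := x 0 = y 0 ∧ x 1 = y 1 ∧ amp (x 2) = amp' (y 2)

theorem FR_update (amp amp' : ℝ → ℝ) (x y : E) (h : FR amp amp' x y) (i : Fin 3) (hi : i ≠ 2)
    (a : ℝ) : FR amp amp' (Function.update x i a) (Function.update y i a) := by
  obtain ⟨h1, h2, h3⟩ := h
  have hi2 : (2 : Fin 3) ≠ i := hi.symm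
  refine ⟨?_, ?_, ?_⟩
  · by_cases h : (0 : Fin 3) = i
    · subst h; simp
    · rw [Function.update_of_ne h, Function.update_of_ne h, h1]
  · by_cases h : (1 : Fin 3) = i
    · subst h; simp
    · rw [Function.update_of_ne h, Function.update_of_ne h, h2]
  · rw [Function.update_of_ne hi2, Function.update_of_ne hi2, h3]

theorem FR_fac (amp amp' : ℝ → ℝ) (F F' : E ≃ₜ E) (φ φ' : E → ℝ) (i : Fin 3) (hi : i ≠ 2)
    (hF : ∀ x, F x = Function.update x i (φ x)) (hF' : ∀ x, F' x = Function.update x i (φ' x))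
    (hφ : ∀ x y, FR amp amp' x y → φ x = φ' y) (x y : E) (h : FR amp amp' x y) :
    FR amp amp' (F x) (F' y) ∧ FR amp amp' (F.symm x) (F'.symm y) := by
  constructor
  · rw [hF, hF', hφ x y h]
    exact FR_update amp amp' x y h i hi _
  · obtain ⟨v, hv⟩ : ∃ v, v = F'.symm y := ⟨_, rfl⟩
    have hv' : F' v = y := by rw [hv, Homeomorph.apply_symm_apply]
    rw [hF'] at hv'
    have h1 : Function.update y i (v i) = v := by
      rw [← hv', Function.update_idem, Function.update_eq_self]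
    have hR : FR amp amp' (Function.update x i (v i)) v := by
      have := FR_update amp amp' x y h i hi (v i)
      rwa [h1] at this
    have hyi : y i = φ' v := by rw [← hv', Function.update_self]
    have hxi : x i = y i := by
      obtain ⟨h2, h3, _⟩ := h
      fin_cases i
      · exact h2
      · exact h3
      · exact absurd rfl hi
    have hFu : F (Function.update x i (v i)) = x := by
      rw [hF, hφ _ _ hR, ← hyi, ← hxi, Function.update_idem, Function.update_eq_self]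
    have hs : F.symm x = Function.update x i (v i) := by
      rw [Homeomorph.symm_apply_eq]; exact hFu.symm
    rw [hs, ← hv]
    exact hR

/-- only the value of `amp` at `x 2` matters -/
theorem fold_congr (ε : ℝ) (h0 : 0 < ε) (h1 : ε ≤ 1 / 4) (N : ℕ) (amp amp' : ℝ → ℝ) (ha : Amp amp)
    (ha' : Amp amp') (x y : E) (h : amp (x 2) = amp' (y 2)) (e0 : x 0 = y 0) (e1 : x 1 = y 1) :
    fold ε N amp x 0 = fold ε N amp' y 0 ∧ fold ε N amp x 1 = fold ε N amp' y 1 ∧
    (fold ε N amp).symm x 0 = (fold ε N amp').symm y 0 ∧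
    (fold ε N amp).symm x 1 = (fold ε N amp').symm y 1 := by
  obtain ⟨_, hHs⟩ := phH_spec ε h0 h1
  obtain ⟨_, hVs⟩ := phV_spec ε h0 h1
  obtain ⟨_, hKs⟩ := phK_spec ε h0 h1
  have hH := FR_fac amp amp' _ _ _ _ 0 (by decide) (hHs N amp ha).1 (hHs N amp' ha').1
    (fun x y h => by
      obtain ⟨a1, a2, a3⟩ := h
      unfold phH
      rw [a1, a2, a3])
  have hV := FR_fac amp amp' _ _ _ _ 1 (by decide) (hVs N amp ha).1 (hVs N amp' ha').1
    (fun x y h => by
      obtain ⟨a1, a2, a3⟩ := h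
      unfold phV
      rw [a1, a2, a3])
  have hK := FR_fac amp amp' _ _ _ _ 0 (by decide) (hKs N amp ha).1 (hKs N amp' ha').1
    (fun x y h => by
      obtain ⟨a1, a2, a3⟩ := h
      unfold phK
      rw [a1, a2, a3])
  have hR : FR amp amp' x y := ⟨e0, e1, h⟩
  have r1 := (hK _ _ ((hV _ _ ((hH _ _ hR).1)).1)).2
  have r2 := (hH _ _ ((hV _ _ ((hK _ _ hR).1)).2)).2
  exact ⟨r1.1, r1.2.1, r2.1, r2.2.1⟩
/- the fold is affine on the rods and maps them onto the layers -/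

end J27354

alias fold_out := J27354.fold_out
alias fold_congr := J27354.fold_congr

end Pool.Agent.ZZ
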