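import Pool.Agent.ZZ.Defs2
import Pool.Agent.ZZ.T08

/-! job 27364, proof by helper372 -/

set_option autoImplicit false
open Set Filter Topology MeasureTheory
open scoped NNReal

namespace Pool.Agent.ZZ

namespace J27364
/-! the fold is affine on the rods and maps them onto the layers -/
theorem fr_sg_sq (j : ℤ) : sg j * sg j = 1 := by
  unfold sg
  split_ifs <;> norm_num

theorem fr_sg_abs (j : ℤ) : |sg j| = 1 := by
  unfold sg
  split_ifs <;> simp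

theorem fr_clR (a x : ℝ) (h : |x| ≤ a) : clR a x = x := by
  unfold clR
  have := abs_le.mp h
  rw [min_eq_right this.2, max_eq_right this.1]

theorem fr_wd (ε : ℝ) (h0 : 0 < ε) (h1 : ε ≤ 1 / 4) : 0 < wd ε ∧ wd ε ≤ 1 / 256 ∧ ε = 64 * wd ε := by
  unfold wd
  refine ⟨by positivity, by linarith, by ring⟩

theorem fr_sl (ε : ℝ) (h0 : 0 < ε) (h1 : ε ≤ 1 / 4) : 1 ≤ sl ε ∧ sl ε = 2 - 16 * wd ε := by
  have hw := fr_wd ε h0 h1
  unfold sl am
  exact ⟨by linarith [hw.2.1], by ring⟩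

/-- the first two factors of the fold on the doubled rods -/
theorem fr_HV (ε : ℝ) (h0 : 0 < ε) (h1 : ε ≤ 1 / 4) (N : ℕ) (amp : ℝ → ℝ) (ha : Amp amp) (x : E)
    (h2 : amp (x 2) = 1) (k : ℕ) (hk1 : 1 ≤ k) (hk : k ≤ N)
    (hx : |x 0 - k| ≤ 1 / 2 - 4 * wd ε) (hy : |x 1| ≤ 2 * wd ε) :
    fibE 1 (phV ε N amp) (fibE 0 (phH ε N amp) x) =
      ![x 0 - sg k * x 1 / sl ε, sg k * sl ε * (x 0 - k), x 2] := by
  obtain ⟨hw0, hw1, hw2⟩ := fr_wd ε h0 h1
  obtain ⟨hs1, hs2⟩ := fr_sl ε h0 h1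
  obtain ⟨KH, hH⟩ := phH_spec ε h0 h1
  obtain ⟨KV, hV⟩ := phV_spec ε h0 h1
  have hH1 := (hH N amp ha).1 x
  have hb0 : bs ε (1 / 2) = 0 := by unfold bs; norm_num
  have hb1 : bs ε (-1 / 2) = 0 := by
    unfold bs
    have : |(-1 / 2 : ℝ)| = 1 / 2 := by rw [abs_of_neg (by norm_num)]; norm_num
    rw [this]; norm_num
  have hx' : |x 0 - ((k : ℤ) : ℝ)| ≤ 1 / 2 := by
    push_cast
    linarith
  have hpz := pzs_eq 1 (N : ℤ) (bs ε) hb0 hb1 (k : ℤ) (by exact_mod_cast hk1)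
    (by exact_mod_cast hk) (x 0) hx'
  have hbs : bs ε (x 0 - ((k : ℤ) : ℝ)) = 1 := by
    unfold bs
    rw [min_eq_left]
    rw [le_div_iff₀ (by positivity)]
    push_cast
    linarith
  rw [hbs, mul_one] at hpz
  have hbmp : bmp (2 * wd ε) (x 1) = x 1 := by
    unfold bmp
    rw [fr_clR _ _ hy, fr_clR _ _ (by linarith)]
    ring
  have hphH : phH ε N amp x = x 0 - sg k * x 1 / sl ε := by
    unfold phH
    rw [h2, hbmp]
    have : pzs 1 (N : ℤ) (bs ε) (x 0) = sg (k : ℤ) := hpz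
    rw [this, one_mul]
  rw [hphH] at hH1
  have hp1 : fibE 0 (phH ε N amp) x = ![x 0 - sg k * x 1 / sl ε, x 1, x 2] := by
    rw [hH1]
    funext i
    fin_cases i <;> simp
  rw [hp1]
  have hV1 := (hV N amp ha).1 ![x 0 - sg k * x 1 / sl ε, x 1, x 2]
  have ht : |x 0 - sg k * x 1 / sl ε - k| ≤ 1 / 2 := by
    have e1 : x 0 - sg k * x 1 / sl ε - k = (x 0 - k) - sg k * x 1 / sl ε := by ring
    have e2 : |sg k * x 1 / sl ε| ≤ 2 * wd ε := by
      rw [abs_div, abs_mul, fr_sg_abs, one_mul, abs_of_pos (by linarith : (0 : ℝ) < sl ε)]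
      rw [div_le_iff₀ (by linarith)]
      nlinarith [abs_nonneg (x 1)]
    rw [e1]
    have := abs_sub (x 0 - k) (sg k * x 1 / sl ε)
    linarith
  have hhh := hh_branch ε N k hk1 hk (x 0 - sg k * x 1 / sl ε) ht
  have hkap : kap ε (x 1) = 1 := by
    unfold kap
    have : 1 ≤ (1 - |x 1|) / (1 - 4 * wd ε) := by
      rw [le_div_iff₀ (by linarith)]
      linarith
    rw [min_eq_left this, max_eq_right zero_le_one]
  have hphV : phV ε N amp ![x 0 - sg k * x 1 / sl ε, x 1, x 2] = sg k * sl ε * (x 0 - k) := by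
    unfold phV
    have e0 : (![x 0 - sg k * x 1 / sl ε, x 1, x 2] : E) 0 = x 0 - sg k * x 1 / sl ε := rfl
    have e1 : (![x 0 - sg k * x 1 / sl ε, x 1, x 2] : E) 1 = x 1 := rfl
    have e2 : (![x 0 - sg k * x 1 / sl ε, x 1, x 2] : E) 2 = x 2 := rfl
    rw [e0, e1, e2, h2, hhh, hkap]
    have hs0 : sl ε ≠ 0 := by linarith
    have hsq := fr_sg_sq (k : ℤ)
    have e3 : sg k * sl ε * (x 0 - sg k * x 1 / sl ε - k) =
        sg k * sl ε * (x 0 - k) - (sg k * sg k) * x 1 * (sl ε / sl ε) := by ring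
    rw [e3, hsq, div_self hs0]
    ring
  rw [hphV] at hV1
  rw [hV1]
  funext i
  fin_cases i <;> simp

theorem fold_rod (ε : ℝ) (h0 : 0 < ε) (h1 : ε ≤ 1 / 4) (N : ℕ) (amp : ℝ → ℝ) (ha : Amp amp) (x : E)
    (h2 : amp (x 2) = 1) (k : ℕ) (hk1 : 1 ≤ k) (hk : k ≤ N)
    (hx : |x 0 - k| ≤ 1 / 2 - 4 * wd ε) (hy : |x 1| ≤ wd ε) :
    fold ε N amp x = ![k - sg k * (fh ε / wd ε) * x 1, sg k * sl ε * (x 0 - k), x 2] := by
  obtain ⟨hw0, hw1, hw2⟩ := fr_wd ε h0 h1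
  obtain ⟨hs1, hs2⟩ := fr_sl ε h0 h1
  obtain ⟨KK, hK⟩ := phK_spec ε h0 h1
  have hHV := fr_HV ε h0 h1 N amp ha x h2 k hk1 hk hx (by linarith)
  show (fibE 0 (phK ε N amp)).symm (fibE 1 (phV ε N amp) (fibE 0 (phH ε N amp) x)) = _
  rw [hHV, Homeomorph.symm_apply_eq]
  have hK1 := (hK N amp ha).1 ![k - sg k * (fh ε / wd ε) * x 1, sg k * sl ε * (x 0 - k), x 2]
  have hf0 : 0 < fh ε := by unfold fh; linarith
  have hf1 : fh ε < 1 / 2 := by unfold fh; linarith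
  have hf2 : 1 / 2 - fh ε = ε / 2 := by unfold fh; ring
  obtain ⟨ξ, hξ⟩ : ∃ ξ : ℝ, ξ = -(sg k * (fh ε / wd ε) * x 1) := ⟨_, rfl⟩
  have hξa : |ξ| ≤ fh ε := by
    rw [hξ, abs_neg, abs_mul, abs_mul, fr_sg_abs, one_mul, abs_of_pos (div_pos hf0 hw0)]
    have : fh ε / wd ε * |x 1| ≤ fh ε / wd ε * wd ε :=
      mul_le_mul_of_nonneg_left hy (div_pos hf0 hw0).le
    have e : fh ε / wd ε * wd ε = fh ε := div_mul_cancel₀ _ hw0.ne'
    linarith
  have hq0 : ((k : ℝ) - sg k * (fh ε / wd ε) * x 1) = k + ξ := by rw [hξ]; ring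
  have habs : |(-1 / 2 : ℝ)| = 1 / 2 := by rw [abs_of_neg (by norm_num)]; norm_num
  have habs' : |(1 / 2 : ℝ)| = 1 / 2 := abs_of_pos (by norm_num)
  have hbW0 : bW ε (1 / 2) = 0 := by unfold bW; rw [habs']; norm_num
  have hbW1 : bW ε (-1 / 2) = 0 := by unfold bW; rw [habs]; norm_num
  have hclf : clR (fh ε) (1 / 2) = fh ε := by
    unfold clR
    rw [min_eq_left hf1.le, max_eq_right (by linarith)]
  have hclf' : clR (fh ε) (-1 / 2) = -fh ε := by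
    unfold clR
    rw [min_eq_right (by linarith), max_eq_left (by linarith)]
  have hfh : fh ε = (1 - ε) / 2 := rfl
  have hbO0 : bO ε (1 / 2) = 0 := by
    unfold bO
    rw [hclf, fr_clR (1 / 2) (1 / 2) (le_of_eq habs')]
    generalize (1 - wd ε / sl ε / fh ε) / ε = c
    rw [hfh]; ring
  have hbO1 : bO ε (-1 / 2) = 0 := by
    unfold bO
    rw [hclf', fr_clR (1 / 2) (-1 / 2) (le_of_eq habs)]
    generalize (1 - wd ε / sl ε / fh ε) / ε = c
    rw [hfh]; ring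
  have hqa : |((k : ℝ) + ξ) - ((k : ℤ) : ℝ)| ≤ 1 / 2 := by
    push_cast
    have : (k : ℝ) + ξ - k = ξ := by ring
    rw [this]
    linarith
  have hqk : ((k : ℝ) + ξ) - ((k : ℤ) : ℝ) = ξ := by push_cast; ring
  have hW := pzs_eq 1 (N : ℤ) (bW ε) hbW0 hbW1 (k : ℤ) (by exact_mod_cast hk1)
    (by exact_mod_cast hk) ((k : ℝ) + ξ) hqa
  have hO := pz_eq 1 (N : ℤ) (bO ε) hbO0 hbO1 (k : ℤ) (by exact_mod_cast hk1)
    (by exact_mod_cast hk) ((k : ℝ) + ξ) hqa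
  rw [hqk] at hW hO
  have hbW : bW ε ξ = 1 := by
    unfold bW
    rw [min_eq_left]
    rw [le_div_iff₀ (by positivity)]
    linarith
  have hbO : bO ε ξ = (1 - wd ε / sl ε / fh ε) * ξ := by
    unfold bO
    rw [fr_clR _ _ hξa, fr_clR (1 / 2) ξ (by linarith)]
    field_simp
    ring
  rw [hbW, mul_one] at hW
  rw [hbO] at hO
  have hYa : |sg k * sl ε * (x 0 - k)| ≤ sl ε * (1 / 2 - 4 * wd ε) := by
    rw [abs_mul, abs_mul, fr_sg_abs, one_mul, abs_of_pos (by linarith : (0 : ℝ) < sl ε)]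
    exact mul_le_mul_of_nonneg_left hx (by linarith)
  have hYb : sl ε * (1 / 2 - 4 * wd ε) ≤ 1 - 10 * wd ε := by
    rw [hs2]
    nlinarith
  have ham : am ε = 1 - 8 * wd ε := rfl
  have hmu : mu ε (sg k * sl ε * (x 0 - k)) = 1 := by
    unfold mu
    have : 1 ≤ (1 - |sg k * sl ε * (x 0 - k)|) / (10 * wd ε) := by
      rw [le_div_iff₀ (by positivity)]
      linarith
    rw [min_eq_left this, max_eq_right zero_le_one]
  have hclY : clR (am ε - 2 * wd ε) (sg k * sl ε * (x 0 - k)) = sg k * sl ε * (x 0 - k) := by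
    apply fr_clR
    rw [ham]
    linarith
  have hphK : phK ε N amp ![k - sg k * (fh ε / wd ε) * x 1, sg k * sl ε * (x 0 - k), x 2] =
      x 0 - sg k * x 1 / sl ε := by
    unfold phK
    have e0 : (![(k : ℝ) - sg k * (fh ε / wd ε) * x 1, sg k * sl ε * (x 0 - k), x 2] : E) 0 =
      k + ξ := hq0
    have e1 : (![(k : ℝ) - sg k * (fh ε / wd ε) * x 1, sg k * sl ε * (x 0 - k), x 2] : E) 1 =
      sg k * sl ε * (x 0 - k) := rfl
    have e2 : (![(k : ℝ) - sg k * (fh ε / wd ε) * x 1, sg k * sl ε * (x 0 - k), x 2] : E) 2 =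
      x 2 := rfl
    rw [e0, e1, e2, h2, hmu, hclY, hW, hO]
    have hs0 : sl ε ≠ 0 := by linarith
    have hsq := fr_sg_sq (k : ℤ)
    have e3 : sg k * sl ε * (x 0 - k) / sl ε * sg (k : ℤ) = (sg k * sg k) * (x 0 - k) := by
      field_simp
    have e4 : wd ε / sl ε / fh ε * ξ = -(sg k * x 1 / sl ε) := by
      rw [hξ]
      field_simp
    rw [e3, hsq]
    have e5 : (1 - wd ε / sl ε / fh ε) * ξ = ξ + sg k * x 1 / sl ε := by
      rw [sub_mul, e4]; ring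
    rw [e5]
    ring
  rw [hphK] at hK1
  rw [hK1]
  funext i
  fin_cases i <;> simp
theorem fold_rod2 (ε : ℝ) (h0 : 0 < ε) (h1 : ε ≤ 1 / 4) (N : ℕ) (amp : ℝ → ℝ) (ha : Amp amp) (x : E)
    (h2 : amp (x 2) = 1) (k : ℕ) (hk1 : 1 ≤ k) (hk : k ≤ N)
    (hx : |x 0 - k| ≤ 1 / 2 - 4 * wd ε) (hy : |x 1| ≤ 2 * wd ε) :
    fold ε N amp x 1 = sg k * sl ε * (x 0 - k) := by
  obtain ⟨KK, hK⟩ := phK_spec ε h0 h1
  have hHV := fr_HV ε h0 h1 N amp ha x h2 k hk1 hk hx hy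
  have hfold : fibE 0 (phK ε N amp) (fold ε N amp x) =
      fibE 1 (phV ε N amp) (fibE 0 (phH ε N amp) x) :=
    (fibE 0 (phK ε N amp)).apply_symm_apply _
  rw [hHV, (hK N amp ha).1] at hfold
  have := congrFun hfold 1
  simpa using this

end J27364

alias fold_rod := J27364.fold_rod
alias fold_rod2 := J27364.fold_rod2

end Pool.Agent.ZZ
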