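import Pool.Agent.ZZ.Defs2
import Pool.Agent.ZZ.T09

/-! job 27370, proof by helper8 -/

set_option autoImplicit false
open Set Filter Topology MeasureTheory
open scoped NNReal

namespace Pool.Agent.ZZ

namespace J27370
/-- on the doubled rods the new mid coordinate only depends on `x 0` -/
theorem zz10_bs (ε : ℝ) : bs ε (1 / 2) = 0 ∧ bs ε (-1 / 2) = 0 := by
  have h1 : |(1 / 2 : ℝ)| = 1 / 2 := abs_of_pos (by norm_num)
  have h2 : |(-1 / 2 : ℝ)| = 1 / 2 := by rw [neg_div, abs_neg, h1]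
  unfold bs
  rw [h1, h2, sub_self, zero_div]
  constructor <;> exact min_eq_right (by norm_num)

theorem zz10_bW (ε : ℝ) : bW ε (1 / 2) = 0 ∧ bW ε (-1 / 2) = 0 := by
  have h1 : |(1 / 2 : ℝ)| = 1 / 2 := abs_of_pos (by norm_num)
  have h2 : |(-1 / 2 : ℝ)| = 1 / 2 := by rw [neg_div, abs_neg, h1]
  unfold bW
  rw [h1, h2, sub_self, zero_div]
  constructor <;> exact min_eq_right (by norm_num)

theorem zz10_bO (ε : ℝ) (h0 : 0 < ε) (h1 : ε ≤ 1 / 4) : bO ε (1 / 2) = 0 ∧ bO ε (-1 / 2) = 0 := by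
  have hf : fh ε = (1 - ε) / 2 := rfl
  have hf0 : 0 ≤ fh ε := by rw [hf]; linarith
  have hf1 : fh ε ≤ 1 / 2 := by rw [hf]; linarith
  have e1 : clR (fh ε) (1 / 2) = fh ε := by
    unfold clR
    rw [min_eq_left hf1, max_eq_right (by linarith)]
  have e2 : clR (fh ε) (-1 / 2) = -fh ε := by
    unfold clR
    rw [min_eq_right (by linarith), max_eq_left (by linarith)]
  have e3 : clR (1 / 2) (1 / 2 : ℝ) = 1 / 2 := by
    unfold clR
    rw [min_self, max_eq_right (by norm_num)]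
  have e4 : clR (1 / 2) (-1 / 2 : ℝ) = -1 / 2 := by
    unfold clR
    rw [min_eq_right (by norm_num), max_eq_right (by norm_num)]
  unfold bO
  rw [e1, e2, e3, e4]
  constructor
  · rw [hf]; ring
  · rw [hf]; ring

theorem zz10_am (ε : ℝ) (h0 : 0 < ε) (h1 : ε ≤ 1 / 4) : 1 / 2 < am ε ∧ 0 < wd ε ∧
    wd ε ≤ 1 / 256 := by
  have hw : wd ε = ε / 64 := rfl
  have ha : am ε = 1 - 8 * wd ε := rfl
  refine ⟨?_, ?_, ?_⟩
  · rw [ha, hw]; linarith
  · rw [hw]; linarith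
  · rw [hw]; linarith

theorem zz10_hh_lip (ε : ℝ) (h0 : 0 < ε) (h1 : ε ≤ 1 / 4) (N : ℕ) (s t : ℝ) :
    |hh ε N s - hh ε N t| ≤ sl ε * |s - t| := by
  have ha := (zz10_am ε h0 h1).1
  have hl := lip_pzs 0 N tent 2 (fun x y _ _ => by
    unfold tent
    have h2 : (1 - 2 * |x|) - (1 - 2 * |y|) = -(2 * (|x| - |y|)) := by ring
    rw [h2, abs_neg, abs_mul, abs_of_pos (by norm_num : (0 : ℝ) < 2)]
    push_cast
    exact mul_le_mul_of_nonneg_left (abs_abs_sub_abs_le x y) (by norm_num))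
    (by unfold tent; rw [abs_of_pos (by norm_num : (0 : ℝ) < 1 / 2)]; norm_num)
    (by unfold tent; rw [neg_div, abs_neg, abs_of_pos (by norm_num : (0 : ℝ) < 1 / 2)]; norm_num)
  have h2 := hl.dist_le_mul (s - 1 / 2) (t - 1 / 2)
  rw [Real.dist_eq, Real.dist_eq] at h2
  have h3 : s - 1 / 2 - (t - 1 / 2) = s - t := by ring
  rw [h3] at h2
  unfold hh sl
  rw [← mul_sub, abs_mul, abs_of_pos (by linarith : 0 < am ε)]
  push_cast at h2
  calc am ε * |pzs 0 N tent (s - 1 / 2) - pzs 0 N tent (t - 1 / 2)| ≤ am ε * (2 * |s - t|) :=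
        mul_le_mul_of_nonneg_left h2 (by linarith)
    _ = 2 * am ε * |s - t| := by ring

theorem zz10_pzs_le (ε : ℝ) (h0 : 0 < ε) (N : ℕ) (s : ℝ) : |pzs 1 N (bs ε) s| ≤ 1 := by
  have hw : 0 < wd ε := by
    have hw : wd ε = ε / 64 := rfl
    rw [hw]; linarith
  unfold pzs
  split_ifs with h
  · rw [abs_mul]
    have h1 : |sg (round s)| = 1 := by
      unfold sg
      split_ifs
      · exact abs_one
      · rw [abs_neg, abs_one]
    rw [h1, one_mul]
    have h2 := abs_sub_round s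
    have h3 : 0 ≤ (1 / 2 - |s - round s|) / (4 * wd ε) := div_nonneg (by linarith) (by positivity)
    unfold bs
    rw [abs_of_nonneg (le_min zero_le_one h3)]
    exact min_le_left _ _
  · rw [abs_zero]; exact zero_le_one

theorem zz10_bmp (a y : ℝ) (ha : |y| ≤ a) : bmp a y = y := by
  obtain ⟨h1, h2⟩ := abs_le.1 ha
  have h0 : 0 ≤ a := (abs_nonneg y).trans ha
  unfold bmp clR
  rw [min_eq_right h2, min_eq_right (by linarith), max_eq_right h1, max_eq_right (by linarith)]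
  ring

theorem fold_near (ε : ℝ) (h0 : 0 < ε) (h1 : ε ≤ 1 / 4) (N : ℕ) (x : E)
    (hy : |x 1| ≤ 2 * wd ε) : |fold ε N 1 x 1 - hh ε N (x 0)| ≤ 4 * wd ε := by
  obtain ⟨ha, hw, hw2⟩ := zz10_am ε h0 h1
  have hamp : Amp (1 : ℝ → ℝ) := by
    refine ⟨(LipschitzWith.const (1 : ℝ)).weaken zero_le_one, fun t => ⟨?_, ?_⟩⟩
    · show (0 : ℝ) ≤ 1
      norm_num
    · show (1 : ℝ) ≤ 1
      norm_num
  obtain ⟨_, hH⟩ := phH_spec ε h0 h1
  obtain ⟨_, hV⟩ := phV_spec ε h0 h1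
  obtain ⟨_, hK⟩ := phK_spec ε h0 h1
  have hH := (hH N 1 hamp).1
  have hV := (hV N 1 hamp).1
  have hK := (hK N 1 hamp).1
  have e1 : fold ε N 1 x = (fibE 0 (phK ε N 1)).symm
      ((fibE 1 (phV ε N 1)) ((fibE 0 (phH ε N 1)) x)) := rfl
  have e2 : ∀ w : E, (fibE 0 (phK ε N 1)).symm w 1 = w 1 := by
    intro w
    have h2 := hK ((fibE 0 (phK ε N 1)).symm w)
    rw [Homeomorph.apply_symm_apply] at h2
    have h3 := congrFun h2 1
    rw [Function.update_of_ne (by decide : (1 : Fin 3) ≠ 0)] at h3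
    exact h3.symm
  have hsl : 0 < sl ε := by
    have : sl ε = 2 * am ε := rfl
    rw [this]; linarith
  have hkap : kap ε (x 1) = 1 := by
    unfold kap
    have h2 : 1 ≤ (1 - |x 1|) / (1 - 4 * wd ε) := by
      rw [le_div_iff₀ (by linarith)]
      linarith
    rw [min_eq_left h2, max_eq_right zero_le_one]
  have e3 : fold ε N 1 x 1 = x 1 + hh ε N (phH ε N 1 x) := by
    rw [e1, e2, hV, hH, Function.update_self]
    unfold phV
    rw [Function.update_self, Function.update_of_ne (by decide : (1 : Fin 3) ≠ 0), hkap,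
      mul_one]
    show x 1 + 1 * hh ε N (phH ε N 1 x) = _
    rw [one_mul]
  have e4 : |phH ε N 1 x - x 0| ≤ 2 * wd ε / sl ε := by
    unfold phH
    rw [zz10_bmp _ _ hy]
    show |x 0 - 1 * pzs 1 N (bs ε) (x 0) * x 1 / sl ε - x 0| ≤ _
    rw [sub_sub_cancel_left, abs_neg, one_mul, abs_div, abs_mul, abs_of_pos hsl]
    refine div_le_div_of_nonneg_right ?_ hsl.le
    calc |pzs 1 N (bs ε) (x 0)| * |x 1| ≤ 1 * (2 * wd ε) :=
          mul_le_mul (zz10_pzs_le ε h0 N _) hy (abs_nonneg _) zero_le_one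
      _ = 2 * wd ε := one_mul _
  have e5 := zz10_hh_lip ε h0 h1 N (phH ε N 1 x) (x 0)
  have e6 : sl ε * |phH ε N 1 x - x 0| ≤ 2 * wd ε := by
    calc sl ε * |phH ε N 1 x - x 0| ≤ sl ε * (2 * wd ε / sl ε) :=
          mul_le_mul_of_nonneg_left e4 hsl.le
      _ = 2 * wd ε := by field_simp
  rw [e3]
  have e7 : x 1 + hh ε N (phH ε N 1 x) - hh ε N (x 0) =
      x 1 + (hh ε N (phH ε N 1 x) - hh ε N (x 0)) := by ring
  rw [e7]
  refine (abs_add_le _ _).trans ?_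
  linarith
theorem zz10_mono (φ : ℝ → ℝ) (hc : Continuous φ) (hi : Function.Injective φ) (a b : ℝ)
    (hab : a < b) (ha : φ a = a) (hb : φ b = b) (t : ℝ) :
    (a ≤ φ t ∧ φ t ≤ b) ↔ (a ≤ t ∧ t ≤ b) := by
  rcases hc.strictMono_of_inj hi with h | h
  · have h1 : φ t ≤ b ↔ t ≤ b := by
      conv_lhs => rw [← hb]
      exact h.le_iff_le
    have h2 : a ≤ φ t ↔ a ≤ t := by
      conv_lhs => rw [← ha]
      exact h.le_iff_le
    rw [h1, h2]
  · have h1 := h hab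
    rw [ha, hb] at h1
    exact absurd hab (not_lt.2 h1.le)

theorem zz10_fib (φ : E → ℝ) (F : E ≃ₜ E) (hF : ∀ x, F x = Function.update x 0 (φ x)) (a b : ℝ)
    (hab : a < b) (ha : ∀ x : E, x 0 = a → φ x = a) (hb : ∀ x : E, x 0 = b → φ x = b) (x : E) :
    (a ≤ F x 0 ∧ F x 0 ≤ b) ↔ (a ≤ x 0 ∧ x 0 ≤ b) := by
  have hφ : ∀ x, F x 0 = φ x := by
    intro x
    rw [hF, Function.update_self]
  have hφc : Continuous φ := by
    have h1 : φ = fun x => F x 0 := funext fun x => (hφ x).symm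
    rw [h1]
    exact (continuous_apply 0).comp F.continuous
  have hu : Continuous fun t : ℝ => Function.update x (0 : Fin 3) t :=
    continuous_const.update 0 continuous_id
  have h1 := zz10_mono (fun t => φ (Function.update x 0 t)) (hφc.comp hu) (by
    intro s t hst
    have h2 : F (Function.update x 0 s) = F (Function.update x 0 t) := by
      rw [hF, hF]
      have h3 : φ (Function.update x 0 s) = φ (Function.update x 0 t) := hst
      rw [h3, Function.update_idem, Function.update_idem]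
    have h4 := congrFun (F.injective h2) 0
    rw [Function.update_self, Function.update_self] at h4
    exact h4) a b hab (ha _ (Function.update_self _ _ _)) (hb _ (Function.update_self _ _ _)) (x 0)
  rw [Function.update_eq_self] at h1
  rw [hφ]
  exact h1

theorem zz10_fixH (ε : ℝ) (N : ℕ) (amp : ℝ → ℝ) (x : E) (k : ℕ)
    (hk1 : 1 ≤ k) (hk : k ≤ N) (hx : x 0 = k - 1 / 2 ∨ x 0 = k + 1 / 2) :
    phH ε N amp x = x 0 := by
  have h1 : pzs 1 N (bs ε) (x 0) = 0 := by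
    have h2 : |x 0 - (k : ℤ)| ≤ 1 / 2 := by
      rw [Int.cast_natCast]
      rcases hx with h | h <;> rw [h, abs_le] <;> constructor <;> linarith
    rw [pzs_eq 1 N (bs ε) (zz10_bs ε).1 (zz10_bs ε).2 k (by exact_mod_cast hk1)
      (by exact_mod_cast hk) (x 0) h2, Int.cast_natCast]
    rcases hx with h | h
    · have h3 : x 0 - k = -1 / 2 := by rw [h]; ring
      rw [h3, (zz10_bs ε).2, mul_zero]
    · have h3 : x 0 - k = 1 / 2 := by rw [h]; ring
      rw [h3, (zz10_bs ε).1, mul_zero]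
  unfold phH
  rw [h1, mul_zero, zero_mul, zero_div, sub_zero]

theorem zz10_fixK (ε : ℝ) (h0 : 0 < ε) (h1 : ε ≤ 1 / 4) (N : ℕ) (amp : ℝ → ℝ) (x : E) (k : ℕ)
    (hk1 : 1 ≤ k) (hk : k ≤ N) (hx : x 0 = k - 1 / 2 ∨ x 0 = k + 1 / 2) :
    phK ε N amp x = x 0 := by
  have h2 : |x 0 - (k : ℤ)| ≤ 1 / 2 := by
    rw [Int.cast_natCast]
    rcases hx with h | h <;> rw [h, abs_le] <;> constructor <;> linarith
  have hO := zz10_bO ε h0 h1
  have h3 : pzs 1 N (bW ε) (x 0) = 0 := by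
    rw [pzs_eq 1 N (bW ε) (zz10_bW ε).1 (zz10_bW ε).2 k (by exact_mod_cast hk1)
      (by exact_mod_cast hk) (x 0) h2, Int.cast_natCast]
    rcases hx with h | h
    · have h3 : x 0 - k = -1 / 2 := by rw [h]; ring
      rw [h3, (zz10_bW ε).2, mul_zero]
    · have h3 : x 0 - k = 1 / 2 := by rw [h]; ring
      rw [h3, (zz10_bW ε).1, mul_zero]
  have h4 : pz 1 N (bO ε) (x 0) = 0 := by
    rw [pz_eq 1 N (bO ε) hO.1 hO.2 k (by exact_mod_cast hk1)
      (by exact_mod_cast hk) (x 0) h2, Int.cast_natCast]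
    rcases hx with h | h
    · have h3 : x 0 - k = -1 / 2 := by rw [h]; ring
      rw [h3, hO.2]
    · have h3 : x 0 - k = 1 / 2 := by rw [h]; ring
      rw [h3, hO.1]
  unfold phK
  rw [h3, h4, mul_zero, sub_zero, mul_zero, add_zero]

theorem fold_branch (ε : ℝ) (h0 : 0 < ε) (h1 : ε ≤ 1 / 4) (N : ℕ) (amp : ℝ → ℝ) (ha : Amp amp) (x : E)
    (k : ℕ) (hk1 : 1 ≤ k) (hk : k ≤ N) :
    |fold ε N amp x 0 - k| ≤ 1 / 2 ↔ |x 0 - k| ≤ 1 / 2 := by
  obtain ⟨_, hH⟩ := phH_spec ε h0 h1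
  obtain ⟨_, hV⟩ := phV_spec ε h0 h1
  obtain ⟨_, hK⟩ := phK_spec ε h0 h1
  have hH := (hH N amp ha).1
  have hV := (hV N amp ha).1
  have hK := (hK N amp ha).1
  have e1 : fold ε N amp x = (fibE 0 (phK ε N amp)).symm
      ((fibE 1 (phV ε N amp)) ((fibE 0 (phH ε N amp)) x)) := rfl
  have hab : ∀ t : ℝ, |t - k| ≤ 1 / 2 ↔ ((k : ℝ) - 1 / 2 ≤ t ∧ t ≤ k + 1 / 2) := by
    intro t
    rw [abs_le]
    constructor
    · rintro ⟨h2, h3⟩; constructor <;> linarith
    · rintro ⟨h2, h3⟩; constructor <;> linarith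
  have hlt : (k : ℝ) - 1 / 2 < k + 1 / 2 := by linarith
  have fH := fun y => zz10_fib (phH ε N amp) (fibE 0 (phH ε N amp)) hH _ _ hlt
    (fun x hx => (zz10_fixH ε N amp x k hk1 hk (Or.inl hx)).trans hx)
    (fun x hx => (zz10_fixH ε N amp x k hk1 hk (Or.inr hx)).trans hx) y
  have fK := fun y => zz10_fib (phK ε N amp) (fibE 0 (phK ε N amp)) hK _ _ hlt
    (fun x hx => (zz10_fixK ε h0 h1 N amp x k hk1 hk (Or.inl hx)).trans hx)
    (fun x hx => (zz10_fixK ε h0 h1 N amp x k hk1 hk (Or.inr hx)).trans hx) y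
  rw [hab, hab, ← fH x, e1]
  have h2 := fK ((fibE 0 (phK ε N amp)).symm
      ((fibE 1 (phV ε N amp)) ((fibE 0 (phH ε N amp)) x)))
  rw [Homeomorph.apply_symm_apply] at h2
  rw [← h2]
  have h3 : (fibE 1 (phV ε N amp)) ((fibE 0 (phH ε N amp)) x) 0 = (fibE 0 (phH ε N amp)) x 0 := by
    rw [hV, Function.update_of_ne (by decide : (0 : Fin 3) ≠ 1)]
  rw [h3]

theorem fold_side (ε : ℝ) (h0 : 0 < ε) (h1 : ε ≤ 1 / 4) (N : ℕ) (amp : ℝ → ℝ) (ha : Amp amp) (x : E) :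
    ((x 0 ≤ 1 / 2 ∨ (N : ℝ) + 1 / 2 ≤ x 0) → fold ε N amp x 0 = x 0) ∧
    ((x 0 ≤ 1 / 2 ∨ (N : ℝ) + 1 / 2 ≤ x 0) → (fold ε N amp).symm x 0 = x 0) := by
  obtain ⟨_, hH⟩ := phH_spec ε h0 h1
  obtain ⟨_, hV⟩ := phV_spec ε h0 h1
  obtain ⟨_, hK⟩ := phK_spec ε h0 h1
  have hH := (hH N amp ha).1
  have hV := (hV N amp ha).1
  have hK := (hK N amp ha).1
  have hO := zz10_bO ε h0 h1
  have hside : ∀ t : ℝ, (t ≤ 1 / 2 ∨ (N : ℝ) + 1 / 2 ≤ t) →
      (t ≤ ((1 : ℤ) : ℝ) - 1 / 2 ∨ (((N : ℤ)) : ℝ) + 1 / 2 ≤ t) := by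
    intro t ht
    rw [Int.cast_one, Int.cast_natCast]
    rcases ht with h | h
    · left; linarith
    · right; exact h
  have fH : ∀ y : E, (y 0 ≤ 1 / 2 ∨ (N : ℝ) + 1 / 2 ≤ y 0) → fibE 0 (phH ε N amp) y = y := by
    intro y hy
    have h2 := (pz_out 1 N (bs ε) (zz10_bs ε).1 (zz10_bs ε).2 (y 0) (hside _ hy)).2
    have h3 : phH ε N amp y = y 0 := by
      unfold phH
      rw [h2, mul_zero, zero_mul, zero_div, sub_zero]
    rw [hH, h3, Function.update_eq_self]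
  have fK : ∀ y : E, (y 0 ≤ 1 / 2 ∨ (N : ℝ) + 1 / 2 ≤ y 0) → fibE 0 (phK ε N amp) y = y := by
    intro y hy
    have h2 := (pz_out 1 N (bW ε) (zz10_bW ε).1 (zz10_bW ε).2 (y 0) (hside _ hy)).2
    have h4 := (pz_out 1 N (bO ε) hO.1 hO.2 (y 0) (hside _ hy)).1
    have h3 : phK ε N amp y = y 0 := by
      unfold phK
      rw [h2, h4, mul_zero, sub_zero, mul_zero, add_zero]
    rw [hK, h3, Function.update_eq_self]
  have fV : ∀ y : E, fibE 1 (phV ε N amp) y 0 = y 0 := by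
    intro y
    rw [hV, Function.update_of_ne (by decide : (0 : Fin 3) ≠ 1)]
  have fVs : ∀ y : E, (fibE 1 (phV ε N amp)).symm y 0 = y 0 := by
    intro y
    have h2 := fV ((fibE 1 (phV ε N amp)).symm y)
    rw [Homeomorph.apply_symm_apply] at h2
    exact h2.symm
  constructor
  · intro hx
    have e1 : fold ε N amp x = (fibE 0 (phK ε N amp)).symm
      ((fibE 1 (phV ε N amp)) ((fibE 0 (phH ε N amp)) x)) := rfl
    have h2 : (fibE 0 (phK ε N amp)).symm (fibE 1 (phV ε N amp) x) =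
        fibE 1 (phV ε N amp) x := by
      rw [Homeomorph.symm_apply_eq]
      exact (fK _ (by rw [fV]; exact hx)).symm
    rw [e1, fH x hx, h2, fV]
  · intro hx
    have e1 : (fold ε N amp).symm x = (fibE 0 (phH ε N amp)).symm
      ((fibE 1 (phV ε N amp)).symm ((fibE 0 (phK ε N amp)) x)) := rfl
    have h2 : (fibE 0 (phH ε N amp)).symm ((fibE 1 (phV ε N amp)).symm x) =
        (fibE 1 (phV ε N amp)).symm x := by
      rw [Homeomorph.symm_apply_eq]
      exact (fH _ (by rw [fVs]; exact hx)).symm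
    rw [e1, fK x hx, h2, fVs]

/-! ## facts about the cross-section maps -/

end J27370

alias fold_near := J27370.fold_near
alias fold_branch := J27370.fold_branch
alias fold_side := J27370.fold_side

end Pool.Agent.ZZ
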