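import Pool.Agent.ZZ.Defs2
import Pool.Agent.ZZ.T01
import Pool.Agent.ZZ.T02

/-! job 27384, proof by helper125 -/

set_option autoImplicit false
open Set Filter Topology MeasureTheory
open scoped NNReal

namespace Pool.Agent.ZZ

namespace J27384
/-- on the doubled rods the new mid coordinate only depends on `x 0` -/
theorem clR_in_27384 (a x : ℝ) (h : |x| ≤ a) : clR a x = x := by
  obtain ⟨h1, h2⟩ := abs_le.1 h
  rw [clR, min_eq_right h2, max_eq_right h1]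
theorem clR_ge_27384 (a x : ℝ) (ha : 0 ≤ a) (h : a ≤ x) : clR a x = a := by
  rw [clR, min_eq_left h, max_eq_right (by linarith)]
theorem clR_le_27384 (a x : ℝ) (ha : 0 ≤ a) (h : x ≤ -a) : clR a x = -a := by
  rw [clR, min_eq_right (by linarith), max_eq_left h]
theorem clR_neg_27384 (a x : ℝ) (ha : 0 ≤ a) : clR a (-x) = - clR a x := by
  rcases le_total |x| a with h | h
  · rw [clR_in_27384 a x h, clR_in_27384 a (-x) (by rwa [abs_neg])]
  · rcases le_total 0 x with h0 | h0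
    · rw [abs_of_nonneg h0] at h
      rw [clR_ge_27384 a x ha h, clR_le_27384 a (-x) ha (by linarith)]
    · rw [abs_of_nonpos h0] at h
      rw [clR_ge_27384 a (-x) ha h, clR_le_27384 a x ha (by linarith), neg_neg]
theorem clR_mono_27384 (a x y : ℝ) (h : x ≤ y) : clR a x ≤ clR a y :=
  max_le_max le_rfl (min_le_min le_rfl h)
theorem clR_lip_27384 (a x y : ℝ) (h : x ≤ y) : clR a y - clR a x ≤ y - x := by
  rw [sub_le_iff_le_add]
  unfold clR
  apply max_le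
  · have := le_max_left (-a) (min a x)
    linarith
  · have h1 := le_max_right (-a) (min a x)
    rcases le_total a x with h2 | h2
    · have h3 : min a y ≤ a := min_le_left _ _
      rw [min_eq_left h2] at h1 ⊢
      linarith
    · have h3 : min a y ≤ y := min_le_right _ _
      rw [min_eq_right h2] at h1 ⊢
      linarith
/-- NOTE: the hypothesis `0 ≤ e` is necessary -/
theorem Zf_neg (ε e z : ℝ) (he : 0 ≤ e) : Zf ε e (-z) = - Zf ε e z := by
  unfold Zf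
  rw [clR_neg_27384 e z he, clR_neg_27384 1 z zero_le_one]
  ring
theorem ZfA_27384 (ε e : ℝ) (h0 : 0 < ε) (h1 : ε ≤ 1 / 4) (he : 0 < e) (he' : e ≤ 1 / 2) :
    0 ≤ (1 - ε) / e - ε / (1 - e) ∧ 0 < ε / (1 - e) := by
  have h2 : (0 : ℝ) < 1 - e := by linarith
  refine ⟨?_, div_pos h0 h2⟩
  rw [sub_nonneg, div_le_div_iff₀ h2 he]
  nlinarith
theorem Zf_mono (ε e : ℝ) (h0 : 0 < ε) (h1 : ε ≤ 1 / 4) (he : 0 < e) (he' : e ≤ 1 / 2) :
    StrictMono (Zf ε e) := by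
  intro x y hxy
  obtain ⟨hA, hB⟩ := ZfA_27384 ε e h0 h1 he he'
  have m1 := clR_mono_27384 e x y hxy.le
  have m2 := clR_mono_27384 1 x y hxy.le
  have m3 := clR_lip_27384 1 x y hxy.le
  unfold Zf
  obtain ⟨A, hAe⟩ : ∃ A, A = (1 - ε) / e - ε / (1 - e) := ⟨_, rfl⟩
  obtain ⟨B, hBe⟩ : ∃ B, B = ε / (1 - e) := ⟨_, rfl⟩
  rw [← hAe] at hA ⊢
  rw [← hBe] at hB ⊢
  have k1 : A * clR e x ≤ A * clR e y := mul_le_mul_of_nonneg_left m1 hA
  have k2 : B * clR 1 x ≤ B * clR 1 y := mul_le_mul_of_nonneg_left m2 hB.le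
  have k3 : 2 * ε * (x - clR 1 x) ≤ 2 * ε * (y - clR 1 y) :=
    mul_le_mul_of_nonneg_left (by linarith) (by linarith)
  rcases lt_or_ge (clR 1 x) (clR 1 y) with h | h
  · have k4 : B * clR 1 x < B * clR 1 y := mul_lt_mul_of_pos_left h hB
    linarith
  · have k4 : 2 * ε * (x - clR 1 x) < 2 * ε * (y - clR 1 y) :=
      mul_lt_mul_of_pos_left (by linarith) (by linarith)
    linarith
theorem Zf_inner (ε e z : ℝ) (h0 : 0 < ε) (h1 : ε ≤ 1 / 4) (he : 0 < e) (he' : e ≤ 1 / 2) (hz : |z| ≤ e) :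
    Zf ε e z = (1 - ε) / e * z := by
  unfold Zf
  rw [clR_in_27384 e z hz, clR_in_27384 1 z (by linarith)]
  ring
theorem Zf_ge_27384 (ε e z : ℝ) (he : 0 < e) (he' : e ≤ 1 / 2)
    (hz : 1 ≤ z) : Zf ε e z = 1 + 2 * ε * (z - 1) := by
  unfold Zf
  rw [clR_ge_27384 e z he.le (by linarith), clR_ge_27384 1 z zero_le_one hz]
  have h2 : (1 : ℝ) - e ≠ 0 := by
    have : (0 : ℝ) < 1 - e := by linarith
    exact this.ne'
  field_simp
  ring
theorem Zf_le (ε e z : ℝ) (h0 : 0 < ε) (h1 : ε ≤ 1 / 4) (he : 0 < e) (he' : e ≤ 1 / 2) :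
    (|Zf ε e z| ≤ 1 - ε ↔ |z| ≤ e) ∧ (|Zf ε e z| ≤ 1 ↔ |z| ≤ 1) := by
  have hm := Zf_mono ε e h0 h1 he he'
  have e1 : Zf ε e e = 1 - ε := by
    rw [Zf_inner ε e e h0 h1 he he' (by rw [abs_of_pos he])]
    field_simp
  have e2 : Zf ε e (-e) = -(1 - ε) := by rw [Zf_neg ε e e he.le, e1]
  have e3 : Zf ε e 1 = 1 := by
    rw [Zf_ge_27384 ε e 1 he he' le_rfl]
    ring
  have e4 : Zf ε e (-1) = -1 := by rw [Zf_neg ε e 1 he.le, e3]
  constructor
  · rw [abs_le, abs_le, ← e2, ← e1, hm.le_iff_le, hm.le_iff_le]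
  · rw [abs_le, abs_le]
    conv_lhs => rw [← e4, ← e3]
    rw [e3, hm.le_iff_le]
    constructor
    · rintro ⟨k1, k2⟩
      refine ⟨k1, ?_⟩
      rw [← e3] at k2
      exact hm.le_iff_le.1 k2
    · rintro ⟨k1, k2⟩
      refine ⟨k1, ?_⟩
      rw [← e3]
      exact hm.le_iff_le.2 k2
theorem Zf_outer (ε e z : ℝ) (h0 : 0 < ε) (h1 : ε ≤ 1 / 4) (he : 0 < e) (he' : e ≤ 1 / 2) (hz : 1 ≤ |z|) :
    Zf ε e z = Zf ε (1 / 2) z := by
  rcases le_abs.1 hz with h | h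
  · rw [Zf_ge_27384 ε e z he he' h, Zf_ge_27384 ε (1 / 2) z (by norm_num) le_rfl h]
  · have k : z = -(-z) := (neg_neg z).symm
    rw [k, Zf_neg ε e (-z) he.le, Zf_neg ε (1 / 2) (-z) (by norm_num),
      Zf_ge_27384 ε e (-z) he he' h, Zf_ge_27384 ε (1 / 2) (-z) (by norm_num) le_rfl h]
theorem wd_27384 (ε : ℝ) (h0 : 0 < ε) (h1 : ε ≤ 1 / 4) : 0 < wd ε ∧ wd ε ≤ 1 / 256 := by
  unfold wd
  constructor <;> linarith
theorem lam_27384 (N : ℕ) (t : ℝ) : 0 ≤ lam N t ∧ lam N t ≤ 1 := by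
  unfold lam
  exact ⟨le_max_left _ _, max_le zero_le_one (min_le_left _ _)⟩
theorem nu_27384 (ε z : ℝ) : 0 ≤ nu ε z ∧ nu ε z ≤ 1 := by
  unfold nu
  exact ⟨le_max_left _ _, max_le zero_le_one (min_le_left _ _)⟩
theorem ef_mem (ε : ℝ) (h0 : 0 < ε) (h1 : ε ≤ 1 / 4) (N : ℕ) (t y : ℝ) :
    wd ε ≤ ef ε N t y ∧ ef ε N t y ≤ 1 / 2 := by
  obtain ⟨l0, l1⟩ := lam_27384 N t
  obtain ⟨w0, w1⟩ := wd_27384 ε h0 h1
  unfold ef
  have m1 : 2 * wd ε ≤ max (2 * wd ε) (min 1 |y|) := le_max_left _ _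
  have m2 : max (2 * wd ε) (min 1 |y|) ≤ 1 := max_le (by linarith) (min_le_left _ _)
  generalize max (2 * wd ε) (min 1 |y|) = m at m1 m2 ⊢
  generalize lam N t = l at l0 l1 ⊢
  generalize wd ε = w at w0 w1 m1 ⊢
  constructor <;> nlinarith
theorem bmp_neg_27384 (a x : ℝ) : bmp a (-x) = - bmp a x := by
  unfold bmp
  rcases le_total 0 a with ha | ha
  · rw [clR_neg_27384 a x ha, clR_neg_27384 (2 * a) x (by linarith)]
    ring
  · have h1 : ∀ b : ℝ, b ≤ 0 → ∀ y : ℝ, clR b y = -b := by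
      intro b hb y
      unfold clR
      apply max_eq_left
      have := min_le_left b y
      linarith
    rw [h1 a ha, h1 a ha, h1 (2 * a) (by linarith), h1 (2 * a) (by linarith)]
    ring
theorem phS_neg (ε ε' : ℝ) (N : ℕ) (x : E) : phS ε ε' N (ng1 x) = - phS ε ε' N x ∧
    phS ε ε' N (ng2 x) = phS ε ε' N x := by
  have a0 : ng1 x 0 = x 0 := rfl
  have a1 : ng1 x 1 = - x 1 := rfl
  have a2 : ng1 x 2 = x 2 := rfl
  have b0 : ng2 x 0 = x 0 := rfl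
  have b1 : ng2 x 1 = x 1 := rfl
  have b2 : ng2 x 2 = - x 2 := rfl
  constructor
  · unfold phS
    rw [a0, a1, a2, bmp_neg_27384]
    ring
  · unfold phS
    rw [b0, b1, b2]
    unfold nu
    rw [abs_neg]
theorem phS_out (ε ε' : ℝ) (h0 : 0 < ε) (h1 : ε ≤ 1 / 4) (N : ℕ) (x : E) (hx : wd ε ≤ |x 1|) : phS ε ε' N x = x 1 := by
  obtain ⟨w0, w1⟩ := wd_27384 ε h0 h1
  have hb : bmp (wd ε / 2) (x 1) = 0 := by
    unfold bmp
    rcases le_abs.1 hx with h | h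
    · rw [clR_ge_27384 _ _ (by linarith) (by linarith), clR_ge_27384 _ _ (by linarith) (by linarith)]
      ring
    · rw [clR_le_27384 _ _ (by linarith) (by linarith), clR_le_27384 _ _ (by linarith) (by linarith)]
      ring
  unfold phS
  rw [hb]
  ring
theorem bmp_pos_27384 (a y : ℝ) (ha : 0 < a) (hy : 0 ≤ y) (hy2 : y ≤ 2 * a) :
    0 ≤ bmp a y ∧ bmp a y ≤ 2 * a - y := by
  unfold bmp
  rw [clR_in_27384 (2 * a) y (by rwa [abs_of_nonneg hy])]
  rcases le_total y a with h | h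
  · rw [clR_in_27384 a y (by rwa [abs_of_nonneg hy])]
    constructor <;> linarith
  · rw [clR_ge_27384 a y ha.le h]
    constructor <;> linarith
theorem phS_in (ε ε' : ℝ) (h0 : 0 < ε) (h1 : ε ≤ 1 / 4) (h0' : 0 < ε') (h1' : ε' ≤ 1 / 4) (N : ℕ)
    (x : E) (hx : |x 1| ≤ wd ε) : |phS ε ε' N x| ≤ wd ε ∧ |x 1| ≤ |phS ε ε' N x| := by
  obtain ⟨w0, w1⟩ := wd_27384 ε h0 h1
  obtain ⟨l0, l1⟩ := lam_27384 N (x 0)
  obtain ⟨n0, n1⟩ := nu_27384 ε (x 2)
  obtain ⟨c, hc⟩ : ∃ c, c = lam N (x 0) * nu ε (x 2) * (1 - 2 * ε') := ⟨_, rfl⟩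
  have hc0 : 0 ≤ c := by
    rw [hc]
    exact mul_nonneg (mul_nonneg l0 n0) (by linarith)
  have hc1 : c ≤ 1 := by
    rw [hc]
    have h2 : lam N (x 0) * nu ε (x 2) ≤ 1 := mul_le_one₀ l1 n0 n1
    exact mul_le_one₀ h2 (by linarith) (by linarith)
  have hp : phS ε ε' N x = x 1 + c * bmp (wd ε / 2) (x 1) := by
    rw [hc]
    unfold phS
    ring
  rw [hp]
  rcases le_total 0 (x 1) with h | h
  · rw [abs_of_nonneg h] at hx
    obtain ⟨b0, b1⟩ := bmp_pos_27384 (wd ε / 2) (x 1) (by linarith) h (by linarith)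
    have k1 : 0 ≤ c * bmp (wd ε / 2) (x 1) := mul_nonneg hc0 b0
    have k2 : c * bmp (wd ε / 2) (x 1) ≤ bmp (wd ε / 2) (x 1) := mul_le_of_le_one_left b0 hc1
    rw [abs_of_nonneg h, abs_of_nonneg (by linarith)]
    constructor <;> linarith
  · rw [abs_of_nonpos h] at hx
    obtain ⟨b0, b1⟩ := bmp_pos_27384 (wd ε / 2) (-x 1) (by linarith) (by linarith) (by linarith)
    have k1 : 0 ≤ c * bmp (wd ε / 2) (-x 1) := mul_nonneg hc0 b0
    have k2 : c * bmp (wd ε / 2) (-x 1) ≤ bmp (wd ε / 2) (-x 1) := mul_le_of_le_one_left b0 hc1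
    rw [bmp_neg_27384] at k1 k2 b0 b1
    have k3 : c * -bmp (wd ε / 2) (x 1) = -(c * bmp (wd ε / 2) (x 1)) := by ring
    rw [k3] at k1 k2
    rw [abs_of_nonpos h, abs_of_nonpos (by linarith)]
    constructor <;> linarith
theorem phS_full (ε ε' : ℝ) (h0 : 0 < ε) (h1 : ε ≤ 1 / 4) (h0' : 0 < ε') (h1' : ε' ≤ 1 / 4) (N : ℕ)
    (x : E) (ht : 0 ≤ x 0) (ht' : x 0 ≤ N + 1) (hz : |x 2| ≤ 2 * wd ε) (hy : |x 1| ≤ wd ε) :
    phS ε ε' N x = wd ε * Zf ε' (1 / 2) (x 1 / wd ε) := by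
  obtain ⟨w0, w1⟩ := wd_27384 ε h0 h1
  have hl : lam N (x 0) = 1 := by
    unfold lam
    rw [min_eq_left (le_min (by linarith) (by linarith)), max_eq_right zero_le_one]
  have hn : nu ε (x 2) = 1 := by
    unfold nu
    have h2 : (1 : ℝ) ≤ (1 - |x 2|) / (1 - 2 * wd ε) := by
      rw [le_div_iff₀ (by linarith)]
      linarith
    rw [min_eq_left h2, max_eq_right zero_le_one]
  have hyw : |x 1 / wd ε| ≤ 1 := by
    rw [abs_div, abs_of_pos w0, div_le_one w0]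
    exact hy
  have hcl : wd ε * clR (1 / 2) (x 1 / wd ε) = clR (wd ε / 2) (x 1) := by
    rcases le_total |x 1| (wd ε / 2) with h | h
    · rw [clR_in_27384 (wd ε / 2) (x 1) h, clR_in_27384]
      · field_simp
      · rw [abs_div, abs_of_pos w0, div_le_iff₀ w0]
        linarith
    · rcases le_abs.1 h with h2 | h2
      · rw [clR_ge_27384 (wd ε / 2) (x 1) (by linarith) h2, clR_ge_27384 _ _ (by norm_num)]
        · ring
        · rw [le_div_iff₀ w0]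
          linarith
      · rw [clR_le_27384 (wd ε / 2) (x 1) (by linarith) (by linarith), clR_le_27384 _ _ (by norm_num)]
        · ring
        · rw [div_le_iff₀ w0]
          linarith
  have hZ : Zf ε' (1 / 2) (x 1 / wd ε) =
      (2 - 4 * ε') * clR (1 / 2) (x 1 / wd ε) + 2 * ε' * (x 1 / wd ε) := by
    unfold Zf
    rw [clR_in_27384 1 (x 1 / wd ε) hyw]
    ring
  have hw : wd ε * (2 * ε' * (x 1 / wd ε)) = 2 * ε' * x 1 := by
    field_simp
  rw [hZ, mul_add, hw]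
  have h3 : wd ε * ((2 - 4 * ε') * clR (1 / 2) (x 1 / wd ε)) =
      (2 - 4 * ε') * (wd ε * clR (1 / 2) (x 1 / wd ε)) := by ring
  rw [h3, hcl]
  unfold phS
  rw [hl, hn]
  unfold bmp
  have h4 : 2 * (wd ε / 2) = wd ε := by ring
  rw [h4, clR_in_27384 (wd ε) (x 1) hy]
  ring


end J27384

alias Zf_neg := J27384.Zf_neg
alias Zf_mono := J27384.Zf_mono
alias Zf_inner := J27384.Zf_inner
alias Zf_le := J27384.Zf_le
alias Zf_outer := J27384.Zf_outer
alias ef_mem := J27384.ef_mem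
alias phS_neg := J27384.phS_neg
alias phS_out := J27384.phS_out
alias phS_in := J27384.phS_in
alias phS_full := J27384.phS_full

end Pool.Agent.ZZ
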