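import Pool.Agent.ZZ.Defs2
import Pool.Agent.ZZ.T10
import Pool.Agent.ZZ.T12

/-! job 27377, proof by helper661 -/

set_option autoImplicit false
open Set Filter Topology MeasureTheory
open scoped NNReal

namespace Pool.Agent.ZZ

namespace J27377
/-- on the doubled rods the new mid coordinate only depends on `x 0` -/
private theorem j27377_clR_mono (a x y : ℝ) (h : x ≤ y) : clR a x ≤ clR a y :=
  max_le_max le_rfl (min_le_min le_rfl h)

private theorem j27377_clR_le (a x y : ℝ) (h : x ≤ y) : clR a y - clR a x ≤ y - x := by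
  unfold clR
  simp only [max_def, min_def]
  split_ifs <;> linarith

private theorem j27377_clR_lip (a x y : ℝ) : |clR a x - clR a y| ≤ |x - y| := by
  rcases le_total x y with h | h
  · rw [abs_sub_comm, abs_sub_comm x y, abs_of_nonneg (sub_nonneg.2 (j27377_clR_mono a x y h)),
      abs_of_nonneg (sub_nonneg.2 h)]
    exact j27377_clR_le a x y h
  · rw [abs_of_nonneg (sub_nonneg.2 (j27377_clR_mono a y x h)), abs_of_nonneg (sub_nonneg.2 h)]
    exact j27377_clR_le a y x h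

private theorem j27377_clR_abs (a x : ℝ) (ha : 0 ≤ a) : |clR a x| ≤ a := by
  unfold clR
  rw [abs_le]
  exact ⟨le_max_left _ _, max_le (by linarith) (min_le_left _ _)⟩

private theorem j27377_clR_par (a b x : ℝ) : |clR a x - clR b x| ≤ |a - b| := by
  unfold clR
  refine (abs_max_sub_max_le_max _ _ _ _).trans (max_le ?_ ?_)
  · rw [neg_sub_neg, abs_sub_comm]
  · refine (abs_min_sub_min_le_max _ _ _ _).trans (max_le le_rfl ?_)
    rw [sub_self, abs_zero]
    exact abs_nonneg _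

private theorem j27377_bmp_mono (a x y : ℝ) (h : x ≤ y) : -(y - x) ≤ bmp a y - bmp a x := by
  have h1 := j27377_clR_mono a x y h
  have h2 := j27377_clR_le (2 * a) x y h
  unfold bmp
  linarith

private theorem j27377_bmp_lip (a x y : ℝ) : |bmp a x - bmp a y| ≤ 3 * |x - y| := by
  have h1 := j27377_clR_lip a x y
  have h2 := j27377_clR_lip (2 * a) x y
  rw [abs_le] at h1 h2 ⊢
  unfold bmp
  constructor <;> linarith

private theorem j27377_bmp_abs (a x : ℝ) (ha : 0 ≤ a) : |bmp a x| ≤ 4 * a := by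
  have h1 := j27377_clR_abs a x ha
  have h2 := j27377_clR_abs (2 * a) x (by linarith)
  rw [abs_le] at h1 h2 ⊢
  unfold bmp
  constructor <;> linarith

private theorem j27377_cl01 (x y : ℝ) : |max 0 (min 1 x) - max 0 (min 1 y)| ≤ |x - y| := by
  refine (abs_max_sub_max_le_max _ _ _ _).trans (max_le ?_ ?_)
  · rw [sub_self, abs_zero]
    exact abs_nonneg _
  · refine (abs_min_sub_min_le_max _ _ _ _).trans (max_le ?_ le_rfl)
    rw [sub_self, abs_zero]
    exact abs_nonneg _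

private theorem j27377_m01 (x : ℝ) : 0 ≤ max 0 (min 1 x) ∧ max 0 (min 1 x) ≤ 1 :=
  ⟨le_max_left _ _, max_le zero_le_one (min_le_left _ _)⟩

private theorem j27377_lam_lip (N : ℕ) (x y : ℝ) : |lam N x - lam N y| ≤ |x - y| := by
  unfold lam
  refine (j27377_cl01 _ _).trans ?_
  refine (abs_min_sub_min_le_max _ _ _ _).trans (max_le ?_ ?_)
  · rw [add_sub_add_right_eq_sub]
  · rw [sub_sub_sub_cancel_left, abs_sub_comm]

private theorem j27377_lam01 (N : ℕ) (x : ℝ) : 0 ≤ lam N x ∧ lam N x ≤ 1 := j27377_m01 _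

private theorem j27377_nu_lip (ε : ℝ) (h0 : 0 < ε) (h1 : ε ≤ 1 / 4) (x y : ℝ) :
    |nu ε x - nu ε y| ≤ 2 * |x - y| := by
  unfold nu
  refine (j27377_cl01 _ _).trans ?_
  have hw : 1 / 2 ≤ 1 - 2 * wd ε := by
    unfold wd
    linarith
  have hw0 : 0 < 1 - 2 * wd ε := by linarith
  rw [← sub_div, abs_div, abs_of_pos hw0, div_le_iff₀ hw0, sub_sub_sub_cancel_left]
  have h2 : |(|y| - |x|)| ≤ |x - y| := by
    rw [abs_sub_comm x y]
    exact abs_abs_sub_abs_le y x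
  have h3 : 0 ≤ |x - y| := abs_nonneg _
  nlinarith

private theorem j27377_nu01 (ε x : ℝ) : 0 ≤ nu ε x ∧ nu ε x ≤ 1 := j27377_m01 _

private theorem j27377_dist (x y : E) (i : Fin 3) : |x i - y i| ≤ dist x y := by
  rw [← Real.dist_eq]
  exact dist_le_pi_dist x y i

private theorem j27377_phS_lip (ε ε' : ℝ) (h0 : 0 < ε) (h1 : ε ≤ 1 / 4) (h0' : 0 < ε')
    (h1' : ε' ≤ 1 / 4) (N : ℕ) : LipschitzWith 7 (phS ε ε' N) := by
  apply LipschitzWith.of_dist_le_mul
  intro x y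
  rw [Real.dist_eq]
  have hD : 0 ≤ dist x y := dist_nonneg
  have d0 := j27377_dist x y 0
  have d1 := j27377_dist x y 1
  have d2 := j27377_dist x y 2
  have l1 := j27377_lam_lip N (x 0) (y 0)
  have l2 := j27377_nu_lip ε h0 h1 (x 2) (y 2)
  have l3 := j27377_bmp_lip (wd ε / 2) (x 1) (y 1)
  have hw : 0 ≤ wd ε / 2 ∧ 4 * (wd ε / 2) ≤ 1 := by
    unfold wd
    constructor <;> linarith
  have b1 := (j27377_bmp_abs (wd ε / 2) (x 1) hw.1).trans hw.2
  obtain ⟨u1, u2⟩ := j27377_lam01 N (y 0)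
  obtain ⟨u3, u4⟩ := j27377_nu01 ε (x 2)
  obtain ⟨u5, u6⟩ := j27377_nu01 ε (y 2)
  unfold phS
  generalize lam N (x 0) = lx at *
  generalize lam N (y 0) = ly at *
  generalize nu ε (x 2) = nx at *
  generalize nu ε (y 2) = ny at *
  generalize bmp (wd ε / 2) (x 1) = bx at *
  generalize bmp (wd ε / 2) (y 1) = b' at *
  have e1 : |(lx - ly) * nx * bx| ≤ dist x y := by
    rw [abs_mul, abs_mul, abs_of_nonneg u3]
    calc |lx - ly| * nx * |bx| ≤ dist x y * 1 * 1 := by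
          apply mul_le_mul (mul_le_mul (l1.trans d0) u4 u3 hD) b1 (abs_nonneg _) (by linarith)
      _ = dist x y := by ring
  have e2 : |ly * (nx - ny) * bx| ≤ 2 * dist x y := by
    rw [abs_mul, abs_mul, abs_of_nonneg u1]
    calc ly * |nx - ny| * |bx| ≤ 1 * (2 * dist x y) * 1 := by
          apply mul_le_mul (mul_le_mul u2 (by linarith) (abs_nonneg _) zero_le_one) b1
            (abs_nonneg _) (by linarith)
      _ = 2 * dist x y := by ring
  have e3 : |ly * ny * (bx - b')| ≤ 3 * dist x y := by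
    rw [abs_mul, abs_mul, abs_of_nonneg u1, abs_of_nonneg u5]
    calc ly * ny * |bx - b'| ≤ 1 * 1 * (3 * dist x y) := by
          apply mul_le_mul (mul_le_mul u2 u6 u5 zero_le_one) (by linarith)
            (abs_nonneg _) (by norm_num)
      _ = 3 * dist x y := by ring
  have e4 : |lx * nx * bx - ly * ny * b'| ≤ 6 * dist x y := by
    have : lx * nx * bx - ly * ny * b' =
      (lx - ly) * nx * bx + ly * (nx - ny) * bx + ly * ny * (bx - b') := by ring
    rw [this]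
    refine (abs_add_three _ _ _).trans ?_
    linarith
  have e5 : (x 1 + lx * nx * ((1 - 2 * ε') * bx)) - (y 1 + ly * ny * ((1 - 2 * ε') * b')) =
      (x 1 - y 1) + (1 - 2 * ε') * (lx * nx * bx - ly * ny * b') := by ring
  rw [e5]
  refine (abs_add_le _ _).trans ?_
  rw [abs_mul, abs_of_nonneg (by linarith : (0 : ℝ) ≤ 1 - 2 * ε')]
  have e6 : (1 - 2 * ε') * |lx * nx * bx - ly * ny * b'| ≤ 1 * (6 * dist x y) :=
    mul_le_mul (by linarith) e4 (abs_nonneg _) zero_le_one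
  have e7 : ((7 : ℝ≥0) : ℝ) = 7 := by norm_num
  rw [e7]
  linarith

private theorem j27377_phS_mono (ε ε' : ℝ) (h0' : 0 < ε')
    (h1' : ε' ≤ 1 / 4) (N : ℕ) (x : E) (s t : ℝ) (hst : s ≤ t) :
    2 * ε' * (t - s) ≤ phS ε ε' N (Function.update x 1 t) - phS ε ε' N (Function.update x 1 s) := by
  unfold phS
  have a1 : ∀ r : ℝ, (Function.update x (1 : Fin 3) r : E) 0 = x 0 := fun r =>
    Function.update_of_ne (by decide) _ _
  have a2 : ∀ r : ℝ, (Function.update x (1 : Fin 3) r : E) 2 = x 2 := fun r =>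
    Function.update_of_ne (by decide) _ _
  have a3 : ∀ r : ℝ, (Function.update x (1 : Fin 3) r : E) 1 = r := fun r =>
    Function.update_self _ _ _
  rw [a1, a1, a2, a2, a3, a3]
  obtain ⟨u1, u2⟩ := j27377_lam01 N (x 0)
  obtain ⟨u3, u4⟩ := j27377_nu01 ε (x 2)
  have hb := j27377_bmp_mono (wd ε / 2) s t hst
  have hc0 : 0 ≤ lam N (x 0) * nu ε (x 2) * (1 - 2 * ε') :=
    mul_nonneg (mul_nonneg u1 u3) (by linarith)
  have hc1 : lam N (x 0) * nu ε (x 2) * (1 - 2 * ε') ≤ 1 - 2 * ε' := by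
    have : lam N (x 0) * nu ε (x 2) ≤ 1 * 1 := mul_le_mul u2 u4 u3 zero_le_one
    nlinarith
  have e1 := mul_le_mul_of_nonneg_left hb hc0
  have e2 := mul_le_mul_of_nonneg_right hc1 (sub_nonneg.2 hst)
  nlinarith

private theorem j27377_Zf_mono (ε e : ℝ) (h0 : 0 < ε) (h1 : ε ≤ 1 / 4) (he0 : 0 < e)
    (he1 : e ≤ 1 / 2) (s t : ℝ) (hst : s ≤ t) : ε * (t - s) ≤ Zf ε e t - Zf ε e s := by
  unfold Zf
  have c1 := j27377_clR_mono e s t hst
  have c2 := j27377_clR_mono 1 s t hst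
  have c3 := j27377_clR_le 1 s t hst
  have hB0 : ε ≤ ε / (1 - e) := by
    rw [le_div_iff₀ (by linarith)]
    nlinarith
  have hB1 : ε / (1 - e) ≤ 1 := by
    rw [div_le_iff₀ (by linarith)]
    linarith
  have hA1 : 1 ≤ (1 - ε) / e := by
    rw [le_div_iff₀ he0]
    linarith
  have e1 : 0 ≤ ((1 - ε) / e - ε / (1 - e)) * (clR e t - clR e s) :=
    mul_nonneg (by linarith) (by linarith)
  have e2 : ε * (clR 1 t - clR 1 s) ≤ ε / (1 - e) * (clR 1 t - clR 1 s) :=
    mul_le_mul_of_nonneg_right hB0 (by linarith)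
  have e3 : 0 ≤ ε * ((t - s) - (clR 1 t - clR 1 s)) := mul_nonneg h0.le (by linarith)
  nlinarith

private theorem j27377_mulsub (a a' b b' P Q R : ℝ) (h1 : |a - a'| ≤ P) (h2 : |b| ≤ 1)
    (h3 : |a'| ≤ Q) (h4 : |b - b'| ≤ R) : |a * b - a' * b'| ≤ P + Q * R := by
  have : a * b - a' * b' = (a - a') * b + a' * (b - b') := by ring
  rw [this]
  refine (abs_add_le _ _).trans ?_
  rw [abs_mul, abs_mul]
  have hP : 0 ≤ P := (abs_nonneg _).trans h1
  have hQ : 0 ≤ Q := (abs_nonneg _).trans h3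
  have e1 : |a - a'| * |b| ≤ P * 1 := mul_le_mul h1 h2 (abs_nonneg _) hP
  have e2 : |a'| * |b - b'| ≤ Q * R := mul_le_mul h3 h4 (abs_nonneg _) hQ
  linarith

private theorem j27377_inv (w e e' : ℝ) (hw : 0 < w) (he : w ≤ e) (he' : w ≤ e') :
    |1 / e - 1 / e'| ≤ (1 / w ^ 2) * |e - e'| := by
  have h1 : 0 < e := hw.trans_le he
  have h2 : 0 < e' := hw.trans_le he'
  have : 1 / e - 1 / e' = (e' - e) / (e * e') := by field_simp
  rw [this, abs_div, abs_of_pos (mul_pos h1 h2), abs_sub_comm, div_eq_mul_one_div, mul_comm]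
  apply mul_le_mul_of_nonneg_right _ (abs_nonneg _)
  apply one_div_le_one_div_of_le (pow_pos hw 2)
  rw [sq]
  exact mul_le_mul he he' hw.le h1.le

private theorem j27377_Zf_lip (ε w e e' z z' : ℝ) (h0 : 0 < ε) (h1 : ε ≤ 1 / 4) (hw : 0 < w)
    (he : w ≤ e) (he1 : e ≤ 1 / 2) (he' : w ≤ e') (he1' : e' ≤ 1 / 2) :
    |Zf ε e z - Zf ε e' z'| ≤ (1 / w ^ 2 + 1 / w + 9) * |e - e'| + (1 / w + 3) * |z - z'| := by
  have hE : 0 ≤ |e - e'| := abs_nonneg _
  have hZ : 0 ≤ |z - z'| := abs_nonneg _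
  have i1 := j27377_inv w e e' hw he he'
  have i2 : |1 / (1 - e) - 1 / (1 - e')| ≤ 4 * |e - e'| := by
    have := j27377_inv (1 / 2) (1 - e) (1 - e') (by norm_num) (by linarith) (by linarith)
    rw [sub_sub_sub_cancel_left, abs_sub_comm e' e] at this
    norm_num at this ⊢
    linarith
  have hB : |ε / (1 - e) - ε / (1 - e')| ≤ 4 * |e - e'| := by
    have : ε / (1 - e) - ε / (1 - e') = ε * (1 / (1 - e) - 1 / (1 - e')) := by ring
    rw [this, abs_mul, abs_of_pos h0]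
    calc ε * |1 / (1 - e) - 1 / (1 - e')| ≤ 1 * (4 * |e - e'|) :=
          mul_le_mul (by linarith) i2 (abs_nonneg _) zero_le_one
      _ = 4 * |e - e'| := one_mul _
  have hA0 : |(1 - ε) / e - (1 - ε) / e'| ≤ (1 / w ^ 2) * |e - e'| := by
    have : (1 - ε) / e - (1 - ε) / e' = (1 - ε) * (1 / e - 1 / e') := by ring
    rw [this, abs_mul, abs_of_pos (by linarith : (0 : ℝ) < 1 - ε)]
    calc (1 - ε) * |1 / e - 1 / e'| ≤ 1 * ((1 / w ^ 2) * |e - e'|) :=
          mul_le_mul (by linarith) i1 (abs_nonneg _) zero_le_one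
      _ = (1 / w ^ 2) * |e - e'| := one_mul _
  have hA : |((1 - ε) / e - ε / (1 - e)) - ((1 - ε) / e' - ε / (1 - e'))| ≤
      (1 / w ^ 2 + 4) * |e - e'| := by
    have : ((1 - ε) / e - ε / (1 - e)) - ((1 - ε) / e' - ε / (1 - e')) =
      ((1 - ε) / e - (1 - ε) / e') - (ε / (1 - e) - ε / (1 - e')) := by ring
    rw [this]
    refine (abs_sub _ _).trans ?_
    linarith
  have hB1 : 0 ≤ ε / (1 - e') ∧ ε / (1 - e') ≤ 1 := by
    constructor
    · exact div_nonneg h0.le (by linarith)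
    · rw [div_le_iff₀ (by linarith)]
      linarith
  have he0' : 0 < e' := hw.trans_le he'
  have hA1 : 0 ≤ (1 - ε) / e' ∧ (1 - ε) / e' ≤ 1 / w := by
    constructor
    · exact div_nonneg (by linarith) he0'.le
    · exact div_le_div₀ zero_le_one (by linarith) hw he'
  have hw1 : 0 < 1 / w := one_div_pos.2 hw
  have hA2 : |(1 - ε) / e' - ε / (1 - e')| ≤ 1 / w + 1 := by
    rw [abs_le]
    constructor <;> linarith [hB1.1, hB1.2, hA1.1, hA1.2]
  have c1 : |clR e z| ≤ 1 := (j27377_clR_abs e z (hw.le.trans he)).trans (by linarith)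
  have c2 : |clR 1 z| ≤ 1 := j27377_clR_abs 1 z zero_le_one
  have c3 : |clR e z - clR e' z'| ≤ |e - e'| + |z - z'| := by
    have : clR e z - clR e' z' = (clR e z - clR e' z) + (clR e' z - clR e' z') := by ring
    rw [this]
    exact (abs_add_le _ _).trans (add_le_add (j27377_clR_par _ _ _) (j27377_clR_lip _ _ _))
  have c4 := j27377_clR_lip 1 z z'
  have t1 := j27377_mulsub _ _ _ _ _ _ _ hA c1 hA2 c3
  have t2 := j27377_mulsub _ _ _ _ _ 1 _ hB c2 (by rw [abs_of_nonneg hB1.1]; exact hB1.2) c4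
  have t3 : |2 * ε * ((z - z') - (clR 1 z - clR 1 z'))| ≤ |z - z'| := by
    rw [abs_mul, abs_of_nonneg (by linarith : (0 : ℝ) ≤ 2 * ε)]
    have : |(z - z') - (clR 1 z - clR 1 z')| ≤ 2 * |z - z'| := by
      refine (abs_sub _ _).trans ?_
      linarith
    calc 2 * ε * |(z - z') - (clR 1 z - clR 1 z')| ≤ 1 / 2 * (2 * |z - z'|) :=
          mul_le_mul (by linarith) this (abs_nonneg _) (by norm_num)
      _ = |z - z'| := by ring
  have key : Zf ε e z - Zf ε e' z' =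
      (((1 - ε) / e - ε / (1 - e)) * clR e z - ((1 - ε) / e' - ε / (1 - e')) * clR e' z') +
      (ε / (1 - e) * clR 1 z - ε / (1 - e') * clR 1 z') +
      2 * ε * ((z - z') - (clR 1 z - clR 1 z')) := by
    unfold Zf
    ring
  rw [key]
  refine (abs_add_three _ _ _).trans ?_
  nlinarith

private theorem j27377_ef (ε : ℝ) (h0 : 0 < ε) (h1 : ε ≤ 1 / 4) (N : ℕ) (t y : ℝ) :
    wd ε ≤ ef ε N t y ∧ ef ε N t y ≤ 1 / 2 := by
  unfold ef
  obtain ⟨u1, u2⟩ := j27377_lam01 N t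
  have hw : 0 < wd ε ∧ 2 * wd ε ≤ 1 := by
    unfold wd
    constructor <;> linarith
  have m1 : 2 * wd ε ≤ max (2 * wd ε) (min 1 |y|) := le_max_left _ _
  have m2 : max (2 * wd ε) (min 1 |y|) ≤ 1 := max_le hw.2 (min_le_left _ _)
  constructor
  · nlinarith
  · nlinarith

private theorem j27377_ef_lip (ε : ℝ) (h0 : 0 < ε) (h1 : ε ≤ 1 / 4) (N : ℕ) (t y t' y' : ℝ) :
    |ef ε N t y - ef ε N t' y'| ≤ |t - t'| + |y - y'| := by
  unfold ef
  have l1 := j27377_lam_lip N t t'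
  obtain ⟨u1, u2⟩ := j27377_lam01 N t'
  have hw : 0 < wd ε ∧ 2 * wd ε ≤ 1 := by
    unfold wd
    constructor <;> linarith
  have m1 : 2 * wd ε ≤ max (2 * wd ε) (min 1 |y|) := le_max_left _ _
  have m2 : max (2 * wd ε) (min 1 |y|) ≤ 1 := max_le hw.2 (min_le_left _ _)
  have m3 : |max (2 * wd ε) (min 1 |y|) - max (2 * wd ε) (min 1 |y'|)| ≤ |y - y'| := by
    refine (abs_max_sub_max_le_max _ _ _ _).trans (max_le ?_ ?_)
    · rw [sub_self, abs_zero]
      exact abs_nonneg _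
    · refine (abs_min_sub_min_le_max _ _ _ _).trans (max_le ?_ (abs_abs_sub_abs_le _ _))
      rw [sub_self, abs_zero]
      exact abs_nonneg _
  have hY : 0 ≤ |y - y'| := abs_nonneg _
  have hT : 0 ≤ |t - t'| := abs_nonneg _
  have k1 := j27377_mulsub (lam N t) (lam N t') (max (2 * wd ε) (min 1 |y|))
    (max (2 * wd ε) (min 1 |y'|)) |t - t'| 1 |y - y'| l1
    (by rw [abs_of_nonneg (by linarith)]; exact m2) (by rw [abs_of_nonneg u1]; exact u2) m3
  have key : ((1 - lam N t) / 2 + lam N t * max (2 * wd ε) (min 1 |y|) / 2) -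
      ((1 - lam N t') / 2 + lam N t' * max (2 * wd ε) (min 1 |y'|) / 2) =
      (-(lam N t - lam N t') + (lam N t * max (2 * wd ε) (min 1 |y|) -
        lam N t' * max (2 * wd ε) (min 1 |y'|))) / 2 := by ring
  rw [key, abs_div, abs_two]
  have := abs_add_le (-(lam N t - lam N t')) (lam N t * max (2 * wd ε) (min 1 |y|) -
        lam N t' * max (2 * wd ε) (min 1 |y'|))
  rw [abs_neg] at this
  linarith

private theorem j27377_wd (ε : ℝ) (h0 : 0 < ε) : 0 < wd ε := by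
  unfold wd
  linarith

/-- the Lipschitz constant of `phZ` -/
private noncomputable def j27377_K (ε : ℝ) : ℝ≥0 :=
  Real.toNNReal (2 * (1 / wd ε ^ 2 + 1 / wd ε + 9) + (1 / wd ε + 3))

private theorem j27377_phZ_lip (ε : ℝ) (h0 : 0 < ε) (h1 : ε ≤ 1 / 4) (N : ℕ) :
    LipschitzWith (j27377_K ε) (phZ ε N) := by
  have hw := j27377_wd ε h0
  have hw1 : 0 < 1 / wd ε := one_div_pos.2 hw
  have hw2 : 0 < 1 / wd ε ^ 2 := one_div_pos.2 (pow_pos hw 2)
  apply LipschitzWith.of_dist_le_mul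
  intro x y
  rw [Real.dist_eq]
  have hK : ((j27377_K ε : ℝ≥0) : ℝ) = 2 * (1 / wd ε ^ 2 + 1 / wd ε + 9) + (1 / wd ε + 3) := by
    unfold j27377_K
    exact Real.coe_toNNReal _ (by linarith)
  rw [hK]
  obtain ⟨a1, a2⟩ := j27377_ef ε h0 h1 N (x 0) (x 1)
  obtain ⟨a3, a4⟩ := j27377_ef ε h0 h1 N (y 0) (y 1)
  have k1 := j27377_Zf_lip ε (wd ε) _ _ (x 2) (y 2) h0 h1 hw a1 a2 a3 a4
  have k2 := j27377_ef_lip ε h0 h1 N (x 0) (x 1) (y 0) (y 1)
  have d0 := j27377_dist x y 0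
  have d1 := j27377_dist x y 1
  have d2 := j27377_dist x y 2
  unfold phZ
  refine k1.trans ?_
  have k3 : |ef ε N (x 0) (x 1) - ef ε N (y 0) (y 1)| ≤ 2 * dist x y := by linarith
  have k4 : (1 / wd ε ^ 2 + 1 / wd ε + 9) * |ef ε N (x 0) (x 1) - ef ε N (y 0) (y 1)| ≤
      (1 / wd ε ^ 2 + 1 / wd ε + 9) * (2 * dist x y) :=
    mul_le_mul_of_nonneg_left k3 (by linarith)
  have k5 : (1 / wd ε + 3) * |x 2 - y 2| ≤ (1 / wd ε + 3) * dist x y :=
    mul_le_mul_of_nonneg_left d2 (by linarith)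
  nlinarith

private theorem j27377_phZ_mono (ε : ℝ) (h0 : 0 < ε) (h1 : ε ≤ 1 / 4) (N : ℕ) (x : E) (s t : ℝ)
    (hst : s ≤ t) :
    ε * (t - s) ≤ phZ ε N (Function.update x 2 t) - phZ ε N (Function.update x 2 s) := by
  unfold phZ
  have a1 : ∀ r : ℝ, (Function.update x (2 : Fin 3) r : E) 0 = x 0 := fun r =>
    Function.update_of_ne (by decide) _ _
  have a2 : ∀ r : ℝ, (Function.update x (2 : Fin 3) r : E) 1 = x 1 := fun r =>
    Function.update_of_ne (by decide) _ _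
  have a3 : ∀ r : ℝ, (Function.update x (2 : Fin 3) r : E) 2 = r := fun r =>
    Function.update_self _ _ _
  rw [a1, a1, a2, a2, a3, a3]
  obtain ⟨b1, b2⟩ := j27377_ef ε h0 h1 N (x 0) (x 1)
  exact j27377_Zf_mono ε _ h0 h1 ((j27377_wd ε h0).trans_le b1) b2 s t hst

private theorem j27377_phB_lip (ε : ℝ) (h0 : 0 < ε) (h1 : ε ≤ 1 / 4) :
    LipschitzWith (j27377_K ε) (phB ε) := by
  have hw := j27377_wd ε h0
  have hw1 : 0 < 1 / wd ε := one_div_pos.2 hw
  have hw2 : 0 < 1 / wd ε ^ 2 := one_div_pos.2 (pow_pos hw 2)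
  apply LipschitzWith.of_dist_le_mul
  intro x y
  rw [Real.dist_eq]
  have hK : ((j27377_K ε : ℝ≥0) : ℝ) = 2 * (1 / wd ε ^ 2 + 1 / wd ε + 9) + (1 / wd ε + 3) := by
    unfold j27377_K
    exact Real.coe_toNNReal _ (by linarith)
  rw [hK]
  have hwl : wd ε ≤ 1 / 2 := by
    unfold wd
    linarith
  have k1 := j27377_Zf_lip ε (wd ε) (1 / 2) (1 / 2) (x 2) (y 2) h0 h1 hw hwl le_rfl hwl le_rfl
  have d2 := j27377_dist x y 2
  have hD : 0 ≤ dist x y := dist_nonneg
  unfold phB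
  refine k1.trans ?_
  rw [sub_self, abs_zero, mul_zero, zero_add]
  have k5 : (1 / wd ε + 3) * |x 2 - y 2| ≤ (1 / wd ε + 3) * dist x y :=
    mul_le_mul_of_nonneg_left d2 (by linarith)
  have k6 : 0 ≤ (1 / wd ε ^ 2 + 1 / wd ε + 9) * dist x y := mul_nonneg (by linarith) hD
  nlinarith

private theorem j27377_phB_mono (ε : ℝ) (h0 : 0 < ε) (h1 : ε ≤ 1 / 4) (x : E) (s t : ℝ)
    (hst : s ≤ t) :
    ε * (t - s) ≤ phB ε (Function.update x 2 t) - phB ε (Function.update x 2 s) := by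
  unfold phB
  have a3 : ∀ r : ℝ, (Function.update x (2 : Fin 3) r : E) 2 = r := fun r =>
    Function.update_self _ _ _
  rw [a3, a3]
  exact j27377_Zf_mono ε _ h0 h1 (by norm_num) le_rfl s t hst

private theorem j27377_specS (ε ε' : ℝ) (h0 : 0 < ε) (h1 : ε ≤ 1 / 4) (h0' : 0 < ε')
    (h1' : ε' ≤ 1 / 4) (N : ℕ) :
    (∀ x, fibE 1 (phS ε ε' N) x = Function.update x 1 (phS ε ε' N x)) ∧
    LipschitzWith (max 1 7) (fibE 1 (phS ε ε' N)) ∧
    LipschitzWith (max 1 ((1 + 7) / Real.toNNReal (2 * ε'))) (fibE 1 (phS ε ε' N)).symm := by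
  apply fibE_spec 1 (phS ε ε' N) (Real.toNNReal (2 * ε')) 7
  · exact Real.toNNReal_pos.2 (by linarith)
  · exact j27377_phS_lip ε ε' h0 h1 h0' h1' N
  · intro x s t hst
    rw [Real.coe_toNNReal _ (by linarith)]
    exact j27377_phS_mono ε ε' h0' h1' N x s t hst

private theorem j27377_specZ (ε : ℝ) (h0 : 0 < ε) (h1 : ε ≤ 1 / 4) (N : ℕ) :
    (∀ x, fibE 2 (phZ ε N) x = Function.update x 2 (phZ ε N x)) ∧
    LipschitzWith (max 1 (j27377_K ε)) (fibE 2 (phZ ε N)) ∧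
    LipschitzWith (max 1 ((1 + j27377_K ε) / Real.toNNReal ε)) (fibE 2 (phZ ε N)).symm := by
  apply fibE_spec 2 (phZ ε N) (Real.toNNReal ε) (j27377_K ε)
  · exact Real.toNNReal_pos.2 h0
  · exact j27377_phZ_lip ε h0 h1 N
  · intro x s t hst
    rw [Real.coe_toNNReal _ h0.le]
    exact j27377_phZ_mono ε h0 h1 N x s t hst

private theorem j27377_specB (ε : ℝ) (h0 : 0 < ε) (h1 : ε ≤ 1 / 4) :
    (∀ x, fibE 2 (phB ε) x = Function.update x 2 (phB ε x)) ∧
    LipschitzWith (max 1 (j27377_K ε)) (fibE 2 (phB ε)) ∧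
    LipschitzWith (max 1 ((1 + j27377_K ε) / Real.toNNReal ε)) (fibE 2 (phB ε)).symm := by
  apply fibE_spec 2 (phB ε) (Real.toNNReal ε) (j27377_K ε)
  · exact Real.toNNReal_pos.2 h0
  · exact j27377_phB_lip ε h0 h1
  · intro x s t hst
    rw [Real.coe_toNNReal _ h0.le]
    exact j27377_phB_mono ε h0 h1 x s t hst

theorem MM_lip (ε ε' : ℝ) (h0 : 0 < ε) (h1 : ε ≤ 1 / 4) (h0' : 0 < ε') (h1' : ε' ≤ 1 / 4) :
    ∃ K : ℝ≥0, ∀ N : ℕ, LipschitzWith K (MM ε ε' N) ∧ LipschitzWith K (MM ε ε' N).symm := by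
  refine ⟨max (max 1 (j27377_K ε) * max 1 7) (max 1 ((1 + 7) / Real.toNNReal (2 * ε')) *
    max 1 ((1 + j27377_K ε) / Real.toNNReal ε)), fun N => ?_⟩
  obtain ⟨-, s1, s2⟩ := j27377_specS ε ε' h0 h1 h0' h1' N
  obtain ⟨-, z1, z2⟩ := j27377_specZ ε h0 h1 N
  exact ⟨(z1.comp s1).weaken (le_max_left _ _), (s2.comp z2).weaken (le_max_right _ _)⟩

theorem MM_apply (ε ε' : ℝ) (h0 : 0 < ε) (h1 : ε ≤ 1 / 4) (h0' : 0 < ε') (h1' : ε' ≤ 1 / 4) (N : ℕ)
    (x : E) : MM ε ε' N x = ![x 0, phS ε ε' N x, Zf ε (ef ε N (x 0) (phS ε ε' N x)) (x 2)] := by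
  have e1 := (j27377_specS ε ε' h0 h1 h0' h1' N).1 x
  have e2 := (j27377_specZ ε h0 h1 N).1 (fibE 1 (phS ε ε' N) x)
  have e3 : MM ε ε' N x = fibE 2 (phZ ε N) (fibE 1 (phS ε ε' N) x) := rfl
  rw [e3, e2, e1]
  have a0 : (Function.update x (1 : Fin 3) (phS ε ε' N x) : E) 0 = x 0 :=
    Function.update_of_ne (by decide) _ _
  have a2 : (Function.update x (1 : Fin 3) (phS ε ε' N x) : E) 2 = x 2 :=
    Function.update_of_ne (by decide) _ _
  have a1 : (Function.update x (1 : Fin 3) (phS ε ε' N x) : E) 1 = phS ε ε' N x :=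
    Function.update_self _ _ _
  funext i
  fin_cases i
  · change (Function.update (Function.update x (1 : Fin 3) (phS ε ε' N x)) (2 : Fin 3) _ : E) 0 =
      x 0
    rw [Function.update_of_ne (by decide), a0]
  · change (Function.update (Function.update x (1 : Fin 3) (phS ε ε' N x)) (2 : Fin 3) _ : E) 1 =
      phS ε ε' N x
    rw [Function.update_of_ne (by decide), a1]
  · change (Function.update (Function.update x (1 : Fin 3) (phS ε ε' N x)) (2 : Fin 3) _ : E) 2 =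
      Zf ε (ef ε N (x 0) (phS ε ε' N x)) (x 2)
    rw [Function.update_self]
    unfold phZ
    rw [a0, a1, a2]

theorem M0_lip (ε : ℝ) (h0 : 0 < ε) (h1 : ε ≤ 1 / 4) :
    ∃ K : ℝ≥0, LipschitzWith K (M0 ε) ∧ LipschitzWith K (M0 ε).symm := by
  obtain ⟨-, b1, b2⟩ := j27377_specB ε h0 h1
  exact ⟨max (max 1 (j27377_K ε)) (max 1 ((1 + j27377_K ε) / Real.toNNReal ε)),
    b1.weaken (le_max_left _ _), b2.weaken (le_max_right _ _)⟩

theorem M0_apply (ε : ℝ) (h0 : 0 < ε) (h1 : ε ≤ 1 / 4) (x : E) :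
    M0 ε x = ![x 0, x 1, Zf ε (1 / 2) (x 2)] := by
  have e1 := (j27377_specB ε h0 h1).1 x
  have e3 : M0 ε x = fibE 2 (phB ε) x := rfl
  rw [e3, e1]
  funext i
  fin_cases i
  · change (Function.update x (2 : Fin 3) _ : E) 0 = x 0
    rw [Function.update_of_ne (by decide)]
  · change (Function.update x (2 : Fin 3) _ : E) 1 = x 1
    rw [Function.update_of_ne (by decide)]
  · change (Function.update x (2 : Fin 3) _ : E) 2 = Zf ε (1 / 2) (x 2)
    rw [Function.update_self]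
    rfl


end J27377

alias MM_lip := J27377.MM_lip
alias MM_apply := J27377.MM_apply
alias M0_lip := J27377.M0_lip
alias M0_apply := J27377.M0_apply

end Pool.Agent.ZZ
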