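import Pool.Agent.ZZ.Defs3
import Pool.Agent.ZZ.T11
import Pool.Agent.ZZ.T12
import Pool.Agent.ZZ.T10
import Pool.Agent.ZZ.T04

/-! job 27657, proof by helper122 -/

set_option autoImplicit false
open Set Filter Topology MeasureTheory
open scoped NNReal

namespace Pool.Agent.ZZ

namespace J27657
theorem GG_eq (ε ε' : ℝ) (N : ℕ) (x : E) : GG ε ε' N x = Ph ε ε' N (CC ((Ph ε ε' N).symm x)) := by
  rfl

theorem Ph_facts_amp1 : Amp (1 : ℝ → ℝ) := by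
  refine ⟨?_, fun t => ?_⟩
  · exact (LipschitzWith.const (1 : ℝ)).weaken zero_le
  · simp only [Pi.one_apply]
    constructor <;> norm_num

theorem Ph_facts_MM_ng2 (ε ε' : ℝ) (h0 : 0 < ε) (h1 : ε ≤ 1 / 4) (h0' : 0 < ε') (h1' : ε' ≤ 1 / 4)
    (N : ℕ) (v : E) : MM ε ε' N (ng2 v) = ng2 (MM ε ε' N v) := by
  rw [MM_apply ε ε' h0 h1 h0' h1' N (ng2 v), MM_apply ε ε' h0 h1 h0' h1' N v,
    (phS_neg ε ε' N v).2]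
  have e0 : ng2 v 0 = v 0 := rfl
  have e2 : ng2 v 2 = - v 2 := rfl
  rw [e0, e2, Zf_neg _ _ _ (le_trans (by unfold wd; linarith) (ef_mem ε h0 h1 N _ _).1)]
  rfl

theorem Ph_facts_fold_ng2 (ε : ℝ) (h0 : 0 < ε) (h1 : ε ≤ 1 / 4) (N : ℕ) (w : E) :
    fold ε N 1 (ng2 w) = ng2 (fold ε N 1 w) := by
  obtain ⟨c0, c1, -, -⟩ := fold_congr ε h0 h1 N 1 1 Ph_facts_amp1 Ph_facts_amp1 (ng2 w) w rfl rfl rfl
  have c2 := (fold_two ε h0 h1 N 1 Ph_facts_amp1 (ng2 w)).1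
  have c3 := (fold_two ε h0 h1 N 1 Ph_facts_amp1 w).1
  funext i
  fin_cases i
  · exact c0
  · exact c1
  · show fold ε N 1 (ng2 w) 2 = - (fold ε N 1 w 2)
    rw [c2, c3]
    rfl
theorem Ph_ng2 (ε ε' : ℝ) (h0 : 0 < ε) (h1 : ε ≤ 1 / 4) (h0' : 0 < ε') (h1' : ε' ≤ 1 / 4) (N : ℕ) (v : E) :
    Ph ε ε' N (ng2 v) = ng2 (Ph ε ε' N v) := by
  show fold ε N 1 (MM ε ε' N (ng2 v)) = ng2 (fold ε N 1 (MM ε ε' N v))
  rw [Ph_facts_MM_ng2 ε ε' h0 h1 h0' h1', Ph_facts_fold_ng2 ε h0 h1]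
theorem MM_ng1 (ε ε' : ℝ) (h0 : 0 < ε) (h1 : ε ≤ 1 / 4) (h0' : 0 < ε') (h1' : ε' ≤ 1 / 4) (N : ℕ) (v : E) :
    MM ε ε' N (ng1 v) = ng1 (MM ε ε' N v) := by
  rw [MM_apply ε ε' h0 h1 h0' h1' N (ng1 v), MM_apply ε ε' h0 h1 h0' h1' N v,
    (phS_neg ε ε' N v).1]
  have e0 : ng1 v 0 = v 0 := rfl
  have e2 : ng1 v 2 = v 2 := rfl
  have e3 : ef ε N (v 0) (-phS ε ε' N v) = ef ε N (v 0) (phS ε ε' N v) := by
    simp only [ef, abs_neg]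
  rw [e0, e2, e3]
  rfl

theorem Ph_facts_fold_PB (ε : ℝ) (h0 : 0 < ε) (h1 : ε ≤ 1 / 4) (N : ℕ) (w : E) :
    fold ε N 1 w ∈ PB N ↔ w ∈ PB N := by
  by_cases hw : w 0 ≤ 0 ∨ (N : ℝ) + 1 ≤ w 0 ∨ 1 ≤ |w 1|
  · have hw' : w 0 ≤ 0 ∨ (N : ℝ) + 1 ≤ w 0 ∨ 1 ≤ |w 1| ∨ (1 : ℝ → ℝ) (w 2) = 0 := by tauto
    rw [(fold_out ε h0 h1 N 1 Ph_facts_amp1 w hw').1]
  · have hy : ¬ (fold ε N 1 w 0 ≤ 0 ∨ (N : ℝ) + 1 ≤ fold ε N 1 w 0 ∨ 1 ≤ |fold ε N 1 w 1|) := by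
      intro hy
      have hy' : fold ε N 1 w 0 ≤ 0 ∨ (N : ℝ) + 1 ≤ fold ε N 1 w 0 ∨ 1 ≤ |fold ε N 1 w 1| ∨
          (1 : ℝ → ℝ) (fold ε N 1 w 2) = 0 := by tauto
      have h2 := (fold_out ε h0 h1 N 1 Ph_facts_amp1 _ hy').2
      rw [Homeomorph.symm_apply_apply] at h2
      rw [← h2] at hy
      exact hw hy
    have h2 := (fold_two ε h0 h1 N 1 Ph_facts_amp1 w).1
    push Not at hw hy
    simp only [PB, Set.mem_setOf_eq]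
    rw [h2]
    constructor
    · rintro ⟨_, _, _, h⟩
      exact ⟨by linarith [hw.1], by linarith [hw.2.1], hw.2.2.le, h⟩
    · rintro ⟨_, _, _, h⟩
      exact ⟨by linarith [hy.1], by linarith [hy.2.1], hy.2.2.le, h⟩

theorem Ph_facts_MM_PB (ε ε' : ℝ) (h0 : 0 < ε) (h1 : ε ≤ 1 / 4) (h0' : 0 < ε') (h1' : ε' ≤ 1 / 4)
    (N : ℕ) (v : E) : MM ε ε' N v ∈ PB N ↔ v ∈ PB N := by
  have hwd : wd ε ≤ 1 := by
    unfold wd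
    linarith
  have hwd0 : 0 < wd ε := by
    unfold wd
    linarith
  have e0 : MM ε ε' N v 0 = v 0 := by
    rw [MM_apply ε ε' h0 h1 h0' h1' N v]
    rfl
  have e1 : MM ε ε' N v 1 = phS ε ε' N v := by
    rw [MM_apply ε ε' h0 h1 h0' h1' N v]
    rfl
  have e2 : MM ε ε' N v 2 = Zf ε (ef ε N (v 0) (phS ε ε' N v)) (v 2) := by
    rw [MM_apply ε ε' h0 h1 h0' h1' N v]
    rfl
  have h3 : |phS ε ε' N v| ≤ 1 ↔ |v 1| ≤ 1 := by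
    rcases le_total (wd ε) |v 1| with h | h
    · rw [phS_out ε ε' h0 h1 N v h]
    · have h4 := (phS_in ε ε' h0 h1 h0' h1' N v h).1
      constructor
      · intro _
        linarith
      · intro _
        linarith
  obtain ⟨m1, m2⟩ := ef_mem ε h0 h1 N (v 0) (phS ε ε' N v)
  have h4 := (Zf_le ε (ef ε N (v 0) (phS ε ε' N v)) (v 2) h0 h1 (lt_of_lt_of_le hwd0 m1) m2).2
  simp only [PB, Set.mem_setOf_eq]
  rw [e0, e1, e2, h3, h4]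
theorem Ph_PB (ε ε' : ℝ) (h0 : 0 < ε) (h1 : ε ≤ 1 / 4) (h0' : 0 < ε') (h1' : ε' ≤ 1 / 4) (N : ℕ) (v : E) :
    Ph ε ε' N v ∈ PB N ↔ v ∈ PB N := by
  show fold ε N 1 (MM ε ε' N v) ∈ PB N ↔ v ∈ PB N
  rw [Ph_facts_fold_PB ε h0 h1, Ph_facts_MM_PB ε ε' h0 h1 h0' h1']

end J27657

alias GG_eq := J27657.GG_eq
alias Ph_ng2 := J27657.Ph_ng2
alias MM_ng1 := J27657.MM_ng1
alias Ph_PB := J27657.Ph_PB

end Pool.Agent.ZZ
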