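import Pool.Agent.ZZ.Defs3
import Pool.Agent.ZZ.T13

/-! job 27665, proof by helper788 -/

set_option autoImplicit false
open Set Filter Topology MeasureTheory
open scoped NNReal

namespace Pool.Agent.ZZ

namespace J27665
theorem Ph_aux_sg_sq (j : ℤ) : sg j * sg j = 1 := by
  unfold sg
  split_ifs <;> norm_num

theorem Ph_aux_sg_abs (j : ℤ) : |sg j| = 1 := by
  unfold sg
  split_ifs <;> norm_num

theorem Ph_rod_aux (ε ε' : ℝ) (h0 : 0 < ε) (h1 : ε ≤ 1 / 4) (h0' : 0 < ε') (h1' : ε' ≤ 1 / 4) (N : ℕ)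
    (k : ℕ) (hk1 : 1 ≤ k) (hk : k ≤ N) (v : E)
    (hv0 : |v 0 - k| ≤ 1 / 2 - 4 * wd ε) (hv1 : |v 1| ≤ wd ε) (hv2 : |v 2| ≤ wd ε) :
    Ph ε ε' N v = ![k - sg k * fh ε * Zf ε' (1 / 2) (v 1 / wd ε), sg k * sl ε * (v 0 - k),
      (1 - ε) / wd ε * v 2] := by
  have hw : 0 < wd ε := by unfold wd; positivity
  have hw1 : wd ε ≤ 1 / 2 := by unfold wd; linarith
  have hk1' : (1 : ℝ) ≤ k := by exact_mod_cast hk1
  have hk' : (k : ℝ) ≤ N := by exact_mod_cast hk
  have hv0' := abs_le.mp hv0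
  have hv00 : 0 ≤ v 0 := by linarith [hv0'.1]
  have hv01 : v 0 ≤ N + 1 := by linarith [hv0'.2]
  have hlam : lam N (v 0) = 1 := by
    unfold lam
    have e1 : (1 : ℝ) ≤ min (v 0 + 1) (N + 2 - v 0) := le_min (by linarith) (by linarith)
    rw [min_eq_left e1]
    exact max_eq_right (by norm_num)
  have hS : phS ε ε' N v = wd ε * Zf ε' (1 / 2) (v 1 / wd ε) :=
    phS_full ε ε' h0 h1 h0' h1' N v hv00 hv01 (by linarith) hv1
  have hSw : |phS ε ε' N v| ≤ wd ε := (phS_in ε ε' h0 h1 h0' h1' N v hv1).1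
  have hef : ef ε N (v 0) (phS ε ε' N v) = wd ε := by
    unfold ef
    rw [hlam]
    have e2 : min 1 |phS ε ε' N v| ≤ 2 * wd ε := (min_le_right _ _).trans (by linarith)
    rw [max_eq_left e2]
    ring
  have hZ : Zf ε (wd ε) (v 2) = (1 - ε) / wd ε * v 2 := Zf_inner ε (wd ε) (v 2) h0 h1 hw hw1 hv2
  have hMM : MM ε ε' N v = ![v 0, phS ε ε' N v, (1 - ε) / wd ε * v 2] := by
    rw [MM_apply ε ε' h0 h1 h0' h1' N v, hef, hZ]
  have hAmp : Amp (1 : ℝ → ℝ) := by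
    refine ⟨?_, fun t => by simp⟩
    exact (LipschitzWith.const (1 : ℝ)).weaken (by simp)
  have hPh : Ph ε ε' N v = fold ε N 1 (MM ε ε' N v) := rfl
  rw [hPh, hMM]
  rw [fold_rod ε h0 h1 N 1 hAmp ![v 0, phS ε ε' N v, (1 - ε) / wd ε * v 2] (by simp) k hk1 hk
    (by simpa using hv0) (by simpa using hSw)]
  funext i
  fin_cases i
  · simp only [Fin.zero_eta, Matrix.cons_val_zero, Matrix.cons_val_one, Matrix.cons_val]
    rw [hS]
    field_simp
  · simp
  · simp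

/-- the part of the model space that is mapped onto the child box `CB ε k` -/
theorem Ph_CB (ε ε' : ℝ) (h0 : 0 < ε) (h1 : ε ≤ 1 / 4) (h0' : 0 < ε') (h1' : ε' ≤ 1 / 4) (N : ℕ)
    (k : ℕ) (hk1 : 1 ≤ k) (hk : k ≤ N) (v : E) :
    Ph ε ε' N v ∈ CB ε k ↔ (|v 0 - k| ≤ cf ε / sl ε ∧ |v 1| ≤ wd ε ∧ |v 2| ≤ wd ε) := by
  have hw : 0 < wd ε := by unfold wd; positivity
  have hw4 : wd ε ≤ 1 / 256 := by unfold wd; linarith
  have hsl : 0 < sl ε := by unfold sl am; linarith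
  have hcf : 0 < cf ε := by unfold cf; linarith
  have hfh : 0 < fh ε := by unfold fh; linarith
  have hcs : cf ε / sl ε ≤ 1 / 2 - 4 * wd ε := by
    rw [div_le_iff₀ hsl]
    unfold cf sl am
    nlinarith [sq_nonneg (wd ε)]
  have hε1 : 0 < 1 - ε := by linarith
  have hsg2 := Ph_aux_sg_sq (k : ℤ)
  have hsga := Ph_aux_sg_abs (k : ℤ)
  constructor
  · intro hx
    obtain ⟨hx0, hx1, hx2⟩ := hx
    set x := Ph ε ε' N v with hxdef
    obtain ⟨z, hz⟩ : ∃ z : ℝ, Zf ε' (1 / 2) z = sg k * (k - x 0) / fh ε := by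
      refine ⟨(M0 ε').symm ![0, 0, sg k * (k - x 0) / fh ε] 2, ?_⟩
      have e1 := M0_apply ε' h0' h1' ((M0 ε').symm ![0, 0, sg k * (k - x 0) / fh ε])
      rw [Homeomorph.apply_symm_apply] at e1
      have e2 := congrFun e1 2
      simpa using e2.symm
    have hz1 : |z| ≤ 1 := by
      rw [← (Zf_le ε' (1 / 2) z h0' h1' (by norm_num) le_rfl).2, hz, abs_div, abs_mul, hsga,
        one_mul, abs_of_pos hfh, div_le_one hfh, abs_sub_comm]
      exact hx0
    have b0 : |sg (k : ℤ) * x 1 / sl ε| ≤ cf ε / sl ε := by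
      rw [abs_div, abs_mul, hsga, one_mul, abs_of_pos hsl]
      exact div_le_div_of_nonneg_right hx1 hsl.le
    have b1 : |wd ε * z| ≤ wd ε := by
      rw [abs_mul, abs_of_pos hw]
      nlinarith
    have b2 : |wd ε * x 2 / (1 - ε)| ≤ wd ε := by
      rw [abs_div, abs_mul, abs_of_pos hw, abs_of_pos hε1, div_le_iff₀ hε1]
      nlinarith
    have key : Ph ε ε' N ![k + sg k * x 1 / sl ε, wd ε * z, wd ε * x 2 / (1 - ε)] = x := by
      rw [Ph_rod_aux ε ε' h0 h1 h0' h1' N k hk1 hk _ (by simpa using b0.trans hcs)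
        (by simpa using b1) (by simpa using b2)]
      funext i
      fin_cases i
      · simp only [Fin.zero_eta, Matrix.cons_val_zero, Matrix.cons_val_one, Matrix.cons_val]
        have e3 : wd ε * z / wd ε = z := by field_simp
        rw [e3, hz]
        have e4 : sg (k : ℤ) * fh ε * (sg k * (k - x 0) / fh ε) = (sg k * sg k) * (k - x 0) := by
          field_simp
        rw [e4, hsg2]
        ring
      · simp only [Fin.mk_one, Matrix.cons_val_zero, Matrix.cons_val_one, Matrix.cons_val]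
        have e5 : sg (k : ℤ) * sl ε * (k + sg k * x 1 / sl ε - k) = (sg k * sg k) * x 1 := by
          field_simp
          ring
        rw [e5, hsg2, one_mul]
      · simp only [Fin.reduceFinMk, Matrix.cons_val]
        field_simp
    have hinj := (Ph ε ε' N).injective (key.trans hxdef)
    rw [← hinj]
    refine ⟨by simpa using b0, by simpa using b1, by simpa using b2⟩
  · rintro ⟨g0, g1, g2⟩
    rw [Ph_rod_aux ε ε' h0 h1 h0' h1' N k hk1 hk v (g0.trans hcs) g1 g2]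
    refine ⟨?_, ?_, ?_⟩
    · simp only [Matrix.cons_val_zero]
      have e1 : (k : ℝ) - sg k * fh ε * Zf ε' (1 / 2) (v 1 / wd ε) - k
          = -(sg k * fh ε * Zf ε' (1 / 2) (v 1 / wd ε)) := by ring
      rw [e1, abs_neg, abs_mul, abs_mul, hsga, one_mul, abs_of_pos hfh]
      have e2 : |Zf ε' (1 / 2) (v 1 / wd ε)| ≤ 1 := by
        rw [(Zf_le ε' (1 / 2) (v 1 / wd ε) h0' h1' (by norm_num) le_rfl).2, abs_div, abs_of_pos hw,
          div_le_one hw]
        exact g1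
      nlinarith
    · simp only [Matrix.cons_val_one, Matrix.cons_val_zero]
      rw [abs_mul, abs_mul, hsga, one_mul, abs_of_pos hsl]
      have := (le_div_iff₀ hsl).mp g0
      linarith
    · simp only [Matrix.cons_val]
      rw [abs_mul, abs_div, abs_of_pos hε1, abs_of_pos hw, div_mul_eq_mul_div, div_le_iff₀ hw]
      nlinarith

/-- formula of `Ph` on that part -/
theorem Ph_rod (ε ε' : ℝ) (h0 : 0 < ε) (h1 : ε ≤ 1 / 4) (h0' : 0 < ε') (h1' : ε' ≤ 1 / 4) (N : ℕ)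
    (k : ℕ) (hk1 : 1 ≤ k) (hk : k ≤ N) (v : E)
    (hv0 : |v 0 - k| ≤ 1 / 2 - 4 * wd ε) (hv1 : |v 1| ≤ wd ε) (hv2 : |v 2| ≤ wd ε) :
    Ph ε ε' N v = ![k - sg k * fh ε * Zf ε' (1 / 2) (v 1 / wd ε), sg k * sl ε * (v 0 - k),
      (1 - ε) / wd ε * v 2] :=
  Ph_rod_aux ε ε' h0 h1 h0' h1' N k hk1 hk v hv0 hv1 hv2



end J27665

alias Ph_CB := J27665.Ph_CB
alias Ph_rod := J27665.Ph_rod

end Pool.Agent.ZZ
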