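import Pool.Agent.ZZ.Defs3
import Pool.Agent.ZZ.T14

/-! job 27672, proof by helper481 -/

set_option autoImplicit false
open Set Filter Topology MeasureTheory
open scoped NNReal

namespace Pool.Agent.ZZ

namespace J27672
private theorem GG_one_amp : Amp (1 : ℝ → ℝ) :=
  ⟨LipschitzWith.of_dist_le_mul fun x y => by simp, fun t => ⟨by simp, by simp⟩⟩

private theorem GG_CC_zero (x : E) : CC x 0 = x 0 := rfl

private theorem GG_CC_le (x : E) (r : ℝ) : (|CC x 1| ≤ r ∧ |CC x 2| ≤ r) ↔ (|x 1| ≤ r ∧ |x 2| ≤ r) := by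
  rw [← max_le_iff, ← max_le_iff, CC_max]

private theorem GG_CC_PB (N : ℕ) (x : E) : CC x ∈ PB N ↔ x ∈ PB N := by
  have h := GG_CC_le x 1
  have h0 := GG_CC_zero x
  constructor
  · rintro ⟨h1, h2, h3⟩
    rw [h0] at h1 h2
    exact ⟨h1, h2, h.1 h3⟩
  · rintro ⟨h1, h2, h3⟩
    refine ⟨?_, ?_, h.2 h3⟩
    · rw [h0]; exact h1
    · rw [h0]; exact h2

private theorem GG_fun (ε ε' : ℝ) (N : ℕ) : GG ε ε' N = (Ph ε ε' N) ∘ CC ∘ (Ph ε ε' N).symm := by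
  funext x
  exact GG_eq ε ε' N x

theorem GG_lip (ε ε' : ℝ) (h0 : 0 < ε) (h1 : ε ≤ 1 / 4) (h0' : 0 < ε') (h1' : ε' ≤ 1 / 4) :
    ∃ K : ℝ≥0, ∀ N : ℕ, LipschitzWith K (GG ε ε' N) := by
  obtain ⟨K1, hK1⟩ := MM_lip ε ε' h0 h1 h0' h1'
  obtain ⟨K2, hK2⟩ := fold_lip ε h0 h1
  refine ⟨(K2 * K1) * (16 * (K1 * K2)), fun N => ?_⟩
  have h2 : LipschitzWith (K2 * K1) (Ph ε ε' N) := ((hK2 N 1 GG_one_amp).1).comp ((hK1 N).1)
  have h3 : LipschitzWith (K1 * K2) (Ph ε ε' N).symm := ((hK1 N).2).comp ((hK2 N 1 GG_one_amp).2)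
  rw [GG_fun]
  exact h2.comp (CC_lip.comp h3)

theorem GG_open (ε ε' : ℝ) (N : ℕ) : IsOpenMap (GG ε ε' N) := by
  rw [GG_fun]
  exact (Ph ε ε' N).isOpenMap.comp (CC_open.comp (Ph ε ε' N).symm.isOpenMap)

theorem GG_fin (ε ε' : ℝ) (N : ℕ) (y : E) : (GG ε ε' N ⁻¹' {y}).Finite := by
  refine ((CC_fin ((Ph ε ε' N).symm y)).image (Ph ε ε' N)).subset ?_
  intro x hx
  have hx' : GG ε ε' N x = y := hx
  rw [GG_eq] at hx'
  refine ⟨(Ph ε ε' N).symm x, ?_, (Ph ε ε' N).apply_symm_apply x⟩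
  show CC ((Ph ε ε' N).symm x) = (Ph ε ε' N).symm y
  rw [← hx', (Ph ε ε' N).symm_apply_apply]

theorem GG_surj (ε ε' : ℝ) (N : ℕ) : Function.Surjective (GG ε ε' N) := by
  rw [GG_fun]
  exact (Ph ε ε' N).surjective.comp (CC_surj.comp (Ph ε ε' N).symm.surjective)

theorem GG_PB (ε ε' : ℝ) (h0 : 0 < ε) (h1 : ε ≤ 1 / 4) (h0' : 0 < ε') (h1' : ε' ≤ 1 / 4) (N : ℕ) :
    GG ε ε' N ⁻¹' PB N = PB N ∧ GG ε ε' N ⁻¹' interior (PB N) = interior (PB N) := by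
  have hP : GG ε ε' N ⁻¹' PB N = PB N := by
    ext x
    show GG ε ε' N x ∈ PB N ↔ x ∈ PB N
    rw [GG_eq, Ph_PB ε ε' h0 h1 h0' h1', GG_CC_PB, ← Ph_PB ε ε' h0 h1 h0' h1', (Ph ε ε' N).apply_symm_apply]
  refine ⟨hP, ?_⟩
  have hc : Continuous (GG ε ε' N) := by
    obtain ⟨K, hK⟩ := GG_lip ε ε' h0 h1 h0' h1'
    exact (hK N).continuous
  rw [(GG_open ε ε' N).preimage_interior_eq_interior_preimage hc, hP]

theorem GG_CB (ε ε' : ℝ) (h0 : 0 < ε) (h1 : ε ≤ 1 / 4) (h0' : 0 < ε') (h1' : ε' ≤ 1 / 4) (N k : ℕ)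
    (hk1 : 1 ≤ k) (hk : k ≤ N) : GG ε ε' N ⁻¹' CB ε k = CB ε k := by
  ext x
  show GG ε ε' N x ∈ CB ε k ↔ x ∈ CB ε k
  rw [GG_eq, Ph_CB ε ε' h0 h1 h0' h1' N k hk1 hk, GG_CC_le, GG_CC_zero,
    ← Ph_CB ε ε' h0 h1 h0' h1' N k hk1 hk, (Ph ε ε' N).apply_symm_apply]


end J27672

alias GG_lip := J27672.GG_lip
alias GG_open := J27672.GG_open
alias GG_fin := J27672.GG_fin
alias GG_surj := J27672.GG_surj
alias GG_PB := J27672.GG_PB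
alias GG_CB := J27672.GG_CB

end Pool.Agent.ZZ
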