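import Pool.Agent.ZZ.Defs3
import Pool.Agent.ZZ.T15

/-! job 27678, proof by helper422 -/

set_option autoImplicit false
open Set Filter Topology MeasureTheory
open scoped NNReal

namespace Pool.Agent.ZZ

namespace J27678

theorem w678_sg (k : ℤ) : sg k = 1 ∨ sg k = -1 := by
  unfold sg
  split_ifs
  · exact Or.inl rfl
  · exact Or.inr rfl

theorem w678_Zf (ε e s z : ℝ) (he : 0 ≤ e) (hs : s = 1 ∨ s = -1) : Zf ε e (-s * z) = -s * Zf ε e z := by
  rcases hs with rfl | rfl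
  · rw [neg_one_mul, Zf_neg _ _ _ he, neg_one_mul]
  · rw [neg_neg, one_mul, one_mul]

theorem w678_ccl (s y z : ℝ) (hs : s = 1 ∨ s = -1) : cc (-s * y) z = -s * cc y z := by
  rcases hs with rfl | rfl
  · rw [neg_one_mul, cc_neg_left, neg_one_mul]
  · rw [neg_neg, one_mul, one_mul]

theorem w678_ccr (s y z : ℝ) (hs : s = 1 ∨ s = -1) : cc y (-s * z) = cc y z := by
  rcases hs with rfl | rfl
  · rw [neg_one_mul, cc_neg_right]
  · rw [neg_neg, one_mul]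

theorem GG_child (ε ε' : ℝ) (h0 : 0 < ε) (h1 : ε ≤ 1 / 4) (h0' : 0 < ε') (h1' : ε' ≤ 1 / 4) (N N' k : ℕ)
    (hk1 : 1 ≤ k) (hk : k ≤ N) (x : E) (hx : x ∈ CB ε k) :
    GG ε ε' N x = Aki ε N' k (BB ε' (Ak ε N' k x)) := by
  have hw : 0 < wd ε := by unfold wd; linarith
  have hw' : wd ε ≤ 1 / 256 := by unfold wd; linarith
  have hfh : 0 < fh ε := by unfold fh; linarith
  have hcf : 0 < cf ε := by unfold cf; linarith
  have hsl : 0 < sl ε := by unfold sl am; linarith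
  obtain ⟨v, rfl⟩ : ∃ v, Ph ε ε' N v = x := ⟨(Ph ε ε' N).symm x, (Ph ε ε' N).apply_symm_apply x⟩
  obtain ⟨hv0, hv1, hv2⟩ := (Ph_CB ε ε' h0 h1 h0' h1' N k hk1 hk v).1 hx
  have hq : cf ε / sl ε ≤ 1 / 2 - 4 * wd ε := by
    rw [div_le_iff₀ hsl]
    unfold cf sl am
    nlinarith
  have hv0' : |v 0 - k| ≤ 1 / 2 - 4 * wd ε := hv0.trans hq
  have hP := Ph_rod ε ε' h0 h1 h0' h1' N k hk1 hk v hv0' hv1 hv2
  have hmax := CC_max v
  have hm : max |v 1| |v 2| ≤ wd ε := max_le hv1 hv2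
  rw [← hmax] at hm
  have hc1 : |CC v 1| ≤ wd ε := (le_max_left _ _).trans hm
  have hc2 : |CC v 2| ≤ wd ε := (le_max_right _ _).trans hm
  have e0 : CC v 0 = v 0 := rfl
  have e1 : CC v 1 = cc (v 1) (v 2) := rfl
  have e2 : CC v 2 = cc (v 2) (v 1) := rfl
  have hP' := Ph_rod ε ε' h0 h1 h0' h1' N k hk1 hk (CC v) (by rw [e0]; exact hv0') hc1 hc2
  rw [GG_eq, (Ph ε ε' N).symm_apply_apply, hP', e0, e1, e2]
  have hs := w678_sg (k : ℤ)
  have hA : Ak ε N' k (Ph ε ε' N v) = M0 ε' ![(sg k * sl ε * (v 0 - k)) *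
      ((N' + 3) / (2 * cf ε)) + (N' + 1) / 2, v 2 / wd ε, -sg k * (v 1 / wd ε)] := by
    rw [M0_apply ε' h0' h1', hP]
    unfold Ak
    funext i
    fin_cases i
    · simp
    · simp only [Matrix.cons_val]
      have h1e : (1 - ε) ≠ 0 := by linarith
      have hw0 := hw.ne'
      show (1 - ε) / wd ε * v 2 / (1 - ε) = v 2 / wd ε
      field_simp
    · show (k - sg k * fh ε * Zf ε' (1 / 2) (v 1 / wd ε) - k) / fh ε =
        Zf ε' (1 / 2) (-sg k * (v 1 / wd ε))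
      rw [w678_Zf _ _ _ _ (by norm_num) hs]
      have hf0 := hfh.ne'
      field_simp
      ring
  have hB : BB ε' (Ak ε N' k (Ph ε ε' N v)) = ![(sg k * sl ε * (v 0 - k)) *
      ((N' + 3) / (2 * cf ε)) + (N' + 1) / 2, cc (v 2) (v 1) / wd ε,
      -sg k * Zf ε' (1 / 2) (cc (v 1) (v 2) / wd ε)] := by
    unfold BB
    rw [hA, (M0 ε').symm_apply_apply, M0_apply ε' h0' h1']
    have hinv : 0 ≤ (wd ε)⁻¹ := by positivity
    have g1 : cc (v 2 / wd ε) (-sg k * (v 1 / wd ε)) = cc (v 2) (v 1) / wd ε := by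
      rw [w678_ccr _ _ _ hs, div_eq_inv_mul, div_eq_inv_mul, cc_smul _ _ _ hinv, div_eq_inv_mul]
    have g2 : cc (-sg k * (v 1 / wd ε)) (v 2 / wd ε) = -sg k * (cc (v 1) (v 2) / wd ε) := by
      rw [w678_ccl _ _ _ hs, div_eq_inv_mul, div_eq_inv_mul, cc_smul _ _ _ hinv, div_eq_inv_mul]
    funext i
    fin_cases i
    · rfl
    · exact g1
    · show Zf ε' (1 / 2) (cc (-sg k * (v 1 / wd ε)) (v 2 / wd ε)) = _
      rw [g2, w678_Zf _ _ _ _ (by norm_num) hs]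
      rfl
  rw [hB]
  unfold Aki
  funext i
  fin_cases i
  · show (k : ℝ) - sg k * fh ε * Zf ε' (1 / 2) (cc (v 1) (v 2) / wd ε) =
      fh ε * (-sg k * Zf ε' (1 / 2) (cc (v 1) (v 2) / wd ε)) + k
    ring
  · show sg k * sl ε * (v 0 - k) = ((sg k * sl ε * (v 0 - k)) *
      ((N' + 3) / (2 * cf ε)) + (N' + 1) / 2 - (N' + 1) / 2) / ((N' + 3) / (2 * cf ε))
    have ha : ((N' : ℝ) + 3) / (2 * cf ε) ≠ 0 := by positivity
    rw [add_sub_cancel_right, mul_div_assoc, div_self ha, mul_one]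
  · show (1 - ε) / wd ε * cc (v 2) (v 1) = (1 - ε) * (cc (v 2) (v 1) / wd ε)
    ring


end J27678

alias GG_child := J27678.GG_child

end Pool.Agent.ZZ
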