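import Pool.Agent.ZZ.Defs3
import Pool.Agent.ZZ.T15

/-! job 27684, proof by helper424 -/

set_option autoImplicit false
open Set Filter Topology MeasureTheory
open scoped NNReal

namespace Pool.Agent.ZZ

namespace J27684
theorem GG_wall (ε ε' : ℝ) (h0 : 0 < ε) (h1 : ε ≤ 1 / 4) (h0' : 0 < ε') (h1' : ε' ≤ 1 / 4) (N : ℕ)
    (x : E) (ha : 1 / 2 ≤ x 0) (hb : x 0 ≤ N + 1 / 2) (hk : ∀ k : ℕ, 1 ≤ k → k ≤ N → fh ε ≤ |x 0 - k|)
    (hy : |x 1| ≤ cf ε) (hz : |x 2| ≤ (1 - ε) / 2) : GG ε ε' N x = ![x 0, x 1, - x 2] := by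
  have hw0 : 0 < wd ε := by unfold wd; positivity
  have hw1 : wd ε ≤ 1 / 256 := by unfold wd; linarith
  have hA : Amp (1 : ℝ → ℝ) := ⟨LipschitzWith.const' 1, fun t => by simp⟩
  obtain ⟨v, hv⟩ : ∃ v : E, v = (Ph ε ε' N).symm x := ⟨_, rfl⟩
  obtain ⟨u, hu⟩ : ∃ u : E, u = MM ε ε' N v := ⟨_, rfl⟩
  have hPv : Ph ε ε' N v = x := by rw [hv]; exact (Ph ε ε' N).apply_symm_apply x
  have hfu : fold ε N 1 u = x := by rw [hu]; exact hPv
  have hx2 : x 2 = u 2 := by rw [← hfu]; exact (fold_two ε h0 h1 N 1 hA u).1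
  have hMM := MM_apply ε ε' h0 h1 h0' h1' N v
  rw [← hu] at hMM
  have hu0 : u 0 = v 0 := by rw [hMM]; rfl
  have hu1 : u 1 = phS ε ε' N v := by rw [hMM]; rfl
  have hu2 : u 2 = Zf ε (ef ε N (v 0) (phS ε ε' N v)) (v 2) := by rw [hMM]; rfl
  have key : wd ε ≤ |u 1| ∧ 0 ≤ u 0 ∧ u 0 ≤ N + 1 := by
    rcases Nat.eq_zero_or_pos N with hN | hN
    · subst hN
      have hx0 : x 0 = 1 / 2 := by
        push_cast at hb; linarith
      have hus : u = (fold ε 0 1).symm x := by
        rw [← hfu]; exact ((fold ε 0 1).symm_apply_apply u).symm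
      have hu0' : u 0 = 1 / 2 := by
        rw [hus, (fold_side ε h0 h1 0 1 hA x).2 (Or.inl hx0.le), hx0]
      have t1 : tent (1 / 2) = 0 := by
        unfold tent; rw [abs_of_pos (by norm_num)]; norm_num
      have t2 : tent (-1 / 2) = 0 := by
        unfold tent; rw [abs_of_neg (by norm_num)]; norm_num
      have hh0 : hh ε 0 (u 0) = am ε := by
        have := pzs_eq 0 ((0 : ℕ) : ℤ) tent t1 t2 0 le_rfl (by simp) (1 / 2 - 1 / 2) (by norm_num)
        rw [hu0', hh, this]
        norm_num [sg, tent]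
      refine ⟨?_, by rw [hu0']; norm_num, by rw [hu0']; norm_num⟩
      by_contra hc
      push Not at hc
      have hn := fold_near ε h0 h1 0 u (by linarith)
      rw [hfu, hh0] at hn
      have h3 := abs_le.1 hn
      have h4 := abs_le.1 hy
      unfold am at h3
      unfold cf at h4
      linarith [h3.1, h4.2]
    · obtain ⟨k, hk1, hkN, hxk⟩ : ∃ k : ℕ, 1 ≤ k ∧ k ≤ N ∧ |x 0 - k| ≤ 1 / 2 := by
        by_cases hc : ⌊x 0 + 1 / 2⌋₊ ≤ N
        · refine ⟨⌊x 0 + 1 / 2⌋₊, ?_, hc, ?_⟩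
          · exact Nat.le_floor (by push_cast; linarith)
          · have h1 := Nat.floor_le (show 0 ≤ x 0 + 1 / 2 by linarith)
            have h2 := Nat.lt_floor_add_one (x 0 + 1 / 2)
            rw [abs_le]; constructor <;> linarith
        · refine ⟨N, hN, le_rfl, ?_⟩
          have h3 : N + 1 ≤ ⌊x 0 + 1 / 2⌋₊ := by omega
          have h4 : ((N + 1 : ℕ) : ℝ) ≤ x 0 + 1 / 2 :=
            (Nat.cast_le.2 h3).trans (Nat.floor_le (by linarith))
          push_cast at h4
          rw [abs_le]; constructor <;> linarith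
      have huk : |u 0 - k| ≤ 1 / 2 := by
        rw [← fold_branch ε h0 h1 N 1 hA u k hk1 hkN, hfu]; exact hxk
      have hk1' : (1 : ℝ) ≤ k := by exact_mod_cast hk1
      have hkN' : (k : ℝ) ≤ N := by exact_mod_cast hkN
      have hsg : |sg (k : ℤ)| = 1 := by
        unfold sg; split_ifs <;> simp
      refine ⟨?_, by linarith [(abs_le.1 huk).1], by linarith [(abs_le.1 huk).2]⟩
      by_contra hc
      push Not at hc
      by_cases hcase : |u 0 - k| ≤ 1 / 2 - 4 * wd ε
      · have hr := fold_rod ε h0 h1 N 1 hA u (by simp) k hk1 hkN hcase hc.le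
        rw [hfu] at hr
        have hr0 : x 0 = k - sg k * (fh ε / wd ε) * u 1 := by rw [hr]; rfl
        have h5 := hk k hk1 hkN
        have hfh : 0 < fh ε := by unfold fh; linarith
        have h6 : |x 0 - k| = fh ε / wd ε * |u 1| := by
          rw [hr0, show (k : ℝ) - sg k * (fh ε / wd ε) * u 1 - k = -(sg k * (fh ε / wd ε * u 1)) by ring,
            abs_neg, abs_mul, hsg, one_mul, abs_mul, abs_of_pos (div_pos hfh hw0)]
        rw [h6] at h5
        have h7 : fh ε / wd ε * |u 1| < fh ε / wd ε * wd ε :=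
          mul_lt_mul_of_pos_left hc (div_pos hfh hw0)
        rw [div_mul_cancel₀ _ hw0.ne'] at h7
        linarith
      · push Not at hcase
        have hb1 := hh_branch ε N k hk1 hkN (u 0) huk
        have hsl : 0 < sl ε := by unfold sl am; linarith
        have h8 : |hh ε N (u 0)| = sl ε * |u 0 - k| := by
          rw [hb1, abs_mul, abs_mul, hsg, one_mul, abs_of_pos hsl]
        have h9 : sl ε * (1 / 2 - 4 * wd ε) < |hh ε N (u 0)| := by
          rw [h8]; exact mul_lt_mul_of_pos_left hcase hsl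
        have hn := fold_near ε h0 h1 N u (by linarith)
        rw [hfu] at hn
        have h10 : |hh ε N (u 0)| ≤ |x 1| + 4 * wd ε := by
          have := abs_sub_abs_le_abs_sub (hh ε N (u 0)) (x 1)
          rw [abs_sub_comm] at this
          linarith
        unfold sl am at h9
        unfold cf at hy
        nlinarith [sq_nonneg (wd ε)]
  obtain ⟨kw, k0, k1⟩ := key
  -- `v 1 = u 1`
  have hv1 : v 1 = u 1 := by
    obtain ⟨v', hv'⟩ : ∃ v' : E, v' = ![v 0, u 1, v 2] := ⟨_, rfl⟩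
    have e0 : v' 0 = v 0 := by rw [hv']; rfl
    have e1 : v' 1 = u 1 := by rw [hv']; rfl
    have e2 : v' 2 = v 2 := by rw [hv']; rfl
    have hp : phS ε ε' N v' = u 1 := by
      rw [phS_out ε ε' h0 h1 N v' (by rw [e1]; exact kw), e1]
    have hM' := MM_apply ε ε' h0 h1 h0' h1' N v'
    have : MM ε ε' N v' = MM ε ε' N v := by
      rw [hM', ← hu, hMM, hp, e0, e2, hu1]
    have := (MM ε ε' N).injective this
    rw [← this, e1]
  have hlam : lam N (v 0) = 1 := by
    rw [← hu0]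
    unfold lam
    rw [min_eq_left, max_eq_right]
    · norm_num
    · exact le_min (by linarith) (by linarith)
  obtain ⟨e, he⟩ : ∃ e, e = ef ε N (v 0) (phS ε ε' N v) := ⟨_, rfl⟩
  have hemem := ef_mem ε h0 h1 N (v 0) (phS ε ε' N v)
  rw [← he] at hemem hu2
  have he0 : 0 < e := lt_of_lt_of_le hw0 hemem.1
  have hee : e = max (2 * wd ε) (min 1 |v 1|) / 2 := by
    rw [he, ← hu1, ← hv1]
    unfold ef
    rw [hlam]; ring
  have hev : e ≤ |v 1| := by
    rw [hee]
    rw [← hv1] at kw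
    have : max (2 * wd ε) (min 1 |v 1|) ≤ 2 * |v 1| :=
      max_le (by linarith) ((min_le_right _ _).trans (by linarith))
    linarith
  have hzx : |Zf ε e (v 2)| ≤ (1 - ε) / 2 := by rw [← hu2, ← hx2]; exact hz
  have hv2 : |v 2| ≤ e := by
    rw [← (Zf_le ε e (v 2) h0 h1 he0 hemem.2).1]
    linarith
  have hin := Zf_inner ε e (v 2) h0 h1 he0 hemem.2 hv2
  have hv2' : |v 2| ≤ e / 2 := by
    have hpos : 0 < (1 - ε) / e := div_pos (by linarith) he0
    rw [hin, abs_mul, abs_of_pos hpos] at hzx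
    have : (1 - ε) / e * |v 2| ≤ (1 - ε) / e * (e / 2) := by
      rw [show (1 - ε) / e * (e / 2) = (1 - ε) / 2 by field_simp]
      exact hzx
    exact le_of_mul_le_mul_left this hpos
  have hCC : CC v = ng2 v := CC_side v (by linarith)
  rw [GG_eq, ← hv, hCC, Ph_ng2 ε ε' h0 h1 h0' h1', hPv]
  rfl

end J27684

alias GG_wall := J27684.GG_wall

end Pool.Agent.ZZ
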