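import Pool.Agent.ZZ.Defs3
import Pool.Agent.ZZ.T15

/-! job 27693, proof by helper81 -/

set_option autoImplicit false
open Set Filter Topology MeasureTheory
open scoped NNReal

namespace Pool.Agent.ZZ

namespace J27693
theorem GG_short_sg (j : ℤ) : sg j * sg j = 1 := by
  unfold sg
  split_ifs <;> norm_num

theorem GG_short_amp : Amp 1 := by
  refine ⟨?_, fun t => ?_⟩
  · exact LipschitzWith.const' (1 : ℝ)
  · simp

theorem GG_short_ef (ε : ℝ) (N : ℕ) (t y : ℝ) (h0 : 0 < ε) (h1 : ε ≤ 1 / 4) (ht : 1 / 2 ≤ t)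
    (ht' : t ≤ N + 1 / 2) (hy : |y| ≤ wd ε) : ef ε N t y = wd ε := by
  have hw : 0 < wd ε := by unfold wd; linarith
  have hw1 : wd ε ≤ 1 / 256 := by unfold wd; linarith
  have hlam : lam N t = 1 := by
    unfold lam
    rw [min_eq_left (le_min (by linarith) (by linarith)), max_eq_right (by norm_num)]
  unfold ef
  rw [hlam, min_eq_right (by linarith), max_eq_left (by linarith)]
  ring

theorem GG_short (ε ε' : ℝ) (h0 : 0 < ε) (h1 : ε ≤ 1 / 4) (h0' : 0 < ε') (h1' : ε' ≤ 1 / 4) (N k : ℕ)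
    (hk1 : 1 ≤ k) (hk : k ≤ N) (x : E) (hx : |x 0 - k| ≤ (1 - ε') * fh ε)
    (hy : |x 1| ≤ cf ε) (hz : 1 - ε ≤ |x 2|) : GG ε ε' N x = ![2 * k - x 0, x 1, x 2] := by
  have hw : 0 < wd ε := by unfold wd; linarith
  have hw1 : wd ε ≤ 1 / 256 := by unfold wd; linarith
  have hf : 0 < fh ε := by unfold fh; linarith
  have hsl : 0 < sl ε := by unfold sl am; linarith
  have hsg := GG_short_sg (k : ℤ)
  have hsga : |sg (k : ℤ)| = 1 := by
    unfold sg
    split_ifs <;> norm_num
  have hkr1 : (1 : ℝ) ≤ k := by exact_mod_cast hk1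
  have hkr : (k : ℝ) ≤ N := by exact_mod_cast hk
  set w := wd ε with hwdef
  set f := fh ε with hfdef
  set l := sl ε with hldef
  have hcf : |x 1| / l ≤ 1 / 2 - 4 * w := by
    rw [div_le_iff₀ hsl]
    have h3 : cf ε ≤ (1 / 2 - 4 * w) * l := by
      rw [hldef]
      unfold cf sl am
      nlinarith [sq_nonneg w]
    linarith
  let u : E := ![k + sg k * (x 1 / l), -(sg k * (w / f) * (x 0 - k)), x 2]
  have hu0 : u 0 = k + sg k * (x 1 / l) := rfl
  have hu1 : u 1 = -(sg k * (w / f) * (x 0 - k)) := rfl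
  have hu2 : u 2 = x 2 := rfl
  have hu0' : |u 0 - k| ≤ 1 / 2 - 4 * w := by
    rw [hu0, add_sub_cancel_left, abs_mul, hsga, one_mul, abs_div, abs_of_pos hsl]
    exact hcf
  have hu1' : |u 1| ≤ (1 - ε') * w := by
    rw [hu1, abs_neg, abs_mul, abs_mul, hsga, one_mul, abs_of_pos (div_pos hw hf)]
    calc w / f * |x 0 - k| ≤ w / f * ((1 - ε') * f) :=
          mul_le_mul_of_nonneg_left hx (div_pos hw hf).le
      _ = (1 - ε') * w := by field_simp
  have hu1'' : |u 1| ≤ w := by nlinarith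
  have hfold : fold ε N 1 u = x := by
    rw [fold_rod ε h0 h1 N 1 GG_short_amp u rfl k hk1 hk hu0' hu1'']
    funext i
    fin_cases i
    · show (k : ℝ) - sg k * (f / w) * u 1 = x 0
      rw [hu1]
      have : (k : ℝ) - sg k * (f / w) * -(sg k * (w / f) * (x 0 - k)) =
          k + (sg k * sg k) * ((f / w) * (w / f)) * (x 0 - k) := by ring
      rw [this, hsg]
      field_simp
      ring
    · show sg k * l * (u 0 - k) = x 1
      rw [hu0]
      have : sg k * l * (k + sg k * (x 1 / l) - k) = (sg k * sg k) * (l * (x 1 / l)) := by ring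
      rw [this, hsg]
      field_simp
    · show u 2 = x 2
      rfl
  have hsymm : (fold ε N 1).symm x = u := by
    rw [← hfold, Homeomorph.symm_apply_apply]
  set v := (MM ε ε' N).symm u with hv
  have hMv : MM ε ε' N v = u := by rw [hv, Homeomorph.apply_symm_apply]
  have hMa := MM_apply ε ε' h0 h1 h0' h1' N v
  rw [hMv] at hMa
  have hv0 : v 0 = u 0 := (congrFun hMa 0).symm
  have hv1 : phS ε ε' N v = u 1 := (congrFun hMa 1).symm
  have hv2 : Zf ε (ef ε N (v 0) (phS ε ε' N v)) (v 2) = x 2 := (congrFun hMa 2).symm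
  have hab := abs_le.mp hu0'
  have he : ef ε N (v 0) (phS ε ε' N v) = w := by
    rw [hv0, hv1]
    exact GG_short_ef ε N _ _ h0 h1 (by linarith) (by linarith) hu1''
  rw [he] at hv2
  have hwhalf : w ≤ 1 / 2 := by linarith
  have hv2w : w ≤ |v 2| := by
    by_contra hlt
    push Not at hlt
    have h3 := Zf_inner ε w (v 2) h0 h1 hw hwhalf hlt.le
    rw [hv2] at h3
    rw [h3, abs_mul, abs_of_pos (div_pos (by linarith) hw)] at hz
    have h4 : (1 - ε) / w * |v 2| < (1 - ε) / w * w :=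
      mul_lt_mul_of_pos_left hlt (div_pos (by linarith) hw)
    rw [div_mul_cancel₀ _ hw.ne'] at h4
    linarith
  have hv1w : |v 1| ≤ w := by
    by_contra hlt
    push Not at hlt
    have h3 := phS_out ε ε' h0 h1 N v hlt.le
    rw [hv1] at h3
    rw [← h3] at hlt
    linarith
  have hhalf : |v 1| ≤ |v 2| / 2 := by
    by_cases hc : |v 2| ≤ 2 * w
    · have h3 := phS_full ε ε' h0 h1 h0' h1' N v (by rw [hv0]; linarith) (by rw [hv0]; linarith) hc hv1w
      rw [hv1] at h3
      have h4 : |Zf ε' (1 / 2) (v 1 / w)| ≤ 1 - ε' := by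
        have h5 : |u 1| = w * |Zf ε' (1 / 2) (v 1 / w)| := by
          rw [h3, abs_mul, abs_of_pos hw]
        rw [h5] at hu1'
        have h6 : w * |Zf ε' (1 / 2) (v 1 / w)| ≤ w * (1 - ε') := by linarith
        exact le_of_mul_le_mul_left h6 hw
      rw [(Zf_le ε' (1 / 2) (v 1 / w) h0' h1' (by norm_num) le_rfl).1, abs_div, abs_of_pos hw,
        div_le_iff₀ hw] at h4
      linarith
    · push Not at hc
      have h3 := (phS_in ε ε' h0 h1 h0' h1' N v hv1w).2
      rw [hv1] at h3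
      linarith
  have hCC : CC v = ng1 v := CC_top v hhalf
  have hGG : GG ε ε' N x = fold ε N 1 (MM ε ε' N (CC ((MM ε ε' N).symm ((fold ε N 1).symm x)))) := rfl
  rw [hGG, hsymm, ← hv, hCC, MM_ng1 ε ε' h0 h1 h0' h1', hMv]
  rw [fold_rod ε h0 h1 N 1 GG_short_amp (ng1 u) rfl k hk1 hk hu0' (by
    show |-u 1| ≤ w
    rw [abs_neg]; exact hu1'')]
  funext i
  fin_cases i
  · show (k : ℝ) - sg k * (f / w) * -u 1 = 2 * k - x 0
    rw [hu1]
    have : (k : ℝ) - sg k * (f / w) * - -(sg k * (w / f) * (x 0 - k)) =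
        k - (sg k * sg k) * ((f / w) * (w / f)) * (x 0 - k) := by ring
    rw [this, hsg]
    field_simp
    ring
  · show sg k * l * (u 0 - k) = x 1
    rw [hu0]
    have : sg k * l * (k + sg k * (x 1 / l) - k) = (sg k * sg k) * (l * (x 1 / l)) := by ring
    rw [this, hsg]
    field_simp
  · show u 2 = x 2
    rfl


end J27693

alias GG_short := J27693.GG_short

end Pool.Agent.ZZ
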