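import Pool.Agent.ZZ.Defs3
import Pool.Agent.ZZ.T15

/-! job 27703, proof by helper298 -/

set_option autoImplicit false
open Set Filter Topology MeasureTheory
open scoped NNReal

namespace Pool.Agent.ZZ

namespace J27703
/-! helper lemmas for GG_fat, GG_mid (helper298) -/
theorem Amp_one_h298 : Amp (1 : ℝ → ℝ) := by
  refine ⟨?_, fun t => ⟨by simp, by simp⟩⟩
  intro a b
  simp

theorem lam_one_h298 (N : ℕ) (t : ℝ) (ha : 0 ≤ t) (hb : t ≤ N + 1) : lam N t = 1 := by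
  unfold lam
  have h1 : (1 : ℝ) ≤ min (t + 1) (N + 2 - t) := le_min (by linarith) (by linarith)
  rw [min_eq_left h1]
  norm_num

theorem branch_h298 (N : ℕ) (hN : 1 ≤ N) (t : ℝ) (ha : 1 / 2 ≤ t) (hb : t ≤ N + 1 / 2) :
    ∃ k : ℕ, 1 ≤ k ∧ k ≤ N ∧ |t - k| ≤ 1 / 2 := by
  refine ⟨max 1 ⌈t - 1 / 2⌉₊, le_max_left _ _, max_le hN (Nat.ceil_le.mpr (by linarith)), ?_⟩
  by_cases h : 1 ≤ ⌈t - 1 / 2⌉₊
  · rw [max_eq_right h]
    have h1 : t - 1 / 2 ≤ (⌈t - 1 / 2⌉₊ : ℝ) := Nat.le_ceil _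
    have h2 : (⌈t - 1 / 2⌉₊ : ℝ) < t - 1 / 2 + 1 := Nat.ceil_lt_add_one (by linarith)
    rw [abs_le]
    constructor <;> linarith
  · have h0 : ⌈t - 1 / 2⌉₊ = 0 := by omega
    have h1 : t - 1 / 2 ≤ 0 := Nat.ceil_eq_zero.mp h0
    rw [h0]
    have h2 : t = 1 / 2 := by linarith
    rw [h2]
    norm_num

theorem GG_core_h298 (ε ε' : ℝ) (h0 : 0 < ε) (h1 : ε ≤ 1 / 4) (h0' : 0 < ε') (h1' : ε' ≤ 1 / 4)
    (N : ℕ) (x : E) (ha : 1 / 2 ≤ x 0) (hb : x 0 ≤ N + 1 / 2) (hz : |x 2| ≤ 1 - ε) :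
    GG ε ε' N x = ng2 x ∨ ∃ u u' : E, u 0 = u' 0 ∧ 1 / 2 ≤ u 0 ∧ u 0 ≤ N + 1 / 2 ∧
      |u 1| ≤ 2 * wd ε ∧ |u' 1| ≤ 2 * wd ε ∧ fold ε N 1 u = x ∧ fold ε N 1 u' = GG ε ε' N x := by
  have hw : 0 < wd ε := by unfold wd; linarith
  set u : E := (fold ε N 1).symm x with hu
  have hfu : fold ε N 1 u = x := (fold ε N 1).apply_symm_apply x
  set v : E := (MM ε ε' N).symm u with hv
  have hMv : MM ε ε' N v = u := (MM ε ε' N).apply_symm_apply u
  have hPh : (Ph ε ε' N).symm x = v := rfl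
  have hu2 : u 2 = x 2 := (fold_two ε h0 h1 N 1 Amp_one_h298 x).2
  have hua : 1 / 2 ≤ u 0 := by
    by_contra hlt
    have h3 := (fold_side ε h0 h1 N 1 Amp_one_h298 u).1 (Or.inl (by linarith))
    rw [hfu] at h3
    linarith
  have hub : u 0 ≤ N + 1 / 2 := by
    by_contra hlt
    have h3 := (fold_side ε h0 h1 N 1 Amp_one_h298 u).1 (Or.inr (by linarith))
    rw [hfu] at h3
    linarith
  have hMv' := MM_apply ε ε' h0 h1 h0' h1' N v
  rw [hMv] at hMv'
  have e0 : u 0 = v 0 := by rw [hMv']; rfl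
  have e1 : u 1 = phS ε ε' N v := by
    have := congrFun hMv' 1
    simpa using this
  have e2 : u 2 = Zf ε (ef ε N (v 0) (phS ε ε' N v)) (v 2) := by
    have := congrFun hMv' 2
    simpa using this
  rw [← e1, ← e0] at e2
  have hem := ef_mem ε h0 h1 N (u 0) (u 1)
  have hlam : lam N (u 0) = 1 := lam_one_h298 N (u 0) (by linarith) (by linarith)
  have hef : ef ε N (u 0) (u 1) = max (2 * wd ε) (min 1 |u 1|) / 2 := by
    unfold ef
    rw [hlam]
    ring
  have hv2 : |v 2| ≤ ef ε N (u 0) (u 1) := by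
    have h3 := (Zf_le ε (ef ε N (u 0) (u 1)) (v 2) h0 h1 (lt_of_lt_of_le hw hem.1) hem.2).1
    rw [← h3, ← e2, hu2]
    exact hz
  rw [hef] at hv2
  by_cases hc : 2 * wd ε ≤ |u 1|
  · left
    have hv1 : wd ε ≤ |v 1| := by
      by_contra hlt
      have h3 := (phS_in ε ε' h0 h1 h0' h1' N v (by linarith)).1
      rw [← e1] at h3
      linarith
    have h4 := phS_out ε ε' h0 h1 N v hv1
    rw [← e1] at h4
    have h5 : |v 2| ≤ |v 1| / 2 := by
      rw [← h4]
      have h6 : max (2 * wd ε) (min 1 |u 1|) ≤ |u 1| := max_le hc (min_le_right _ _)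
      linarith
    have h7 : CC v = ng2 v := CC_side v h5
    rw [GG_eq, hPh, h7, Ph_ng2 ε ε' h0 h1 h0' h1' N v]
    have h8 : Ph ε ε' N v = x := by
      rw [← hPh]
      exact (Ph ε ε' N).apply_symm_apply x
    rw [h8]
  · right
    have hc' : |u 1| < 2 * wd ε := not_le.mp hc
    have hmx : max (2 * wd ε) (min 1 |u 1|) = 2 * wd ε :=
      max_eq_left ((min_le_right _ _).trans hc'.le)
    rw [hmx] at hv2
    have hv1 : |v 1| ≤ 2 * wd ε := by
      by_cases h3 : wd ε ≤ |v 1|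
      · have h4 := phS_out ε ε' h0 h1 N v h3
        rw [← e1] at h4
        rw [← h4]
        exact hc'.le
      · linarith
    have hmax := CC_max v
    have hv1' : |CC v 1| ≤ 2 * wd ε := by
      calc |CC v 1| ≤ max |CC v 1| |CC v 2| := le_max_left _ _
        _ = max |v 1| |v 2| := hmax
        _ ≤ 2 * wd ε := max_le hv1 (by linarith)
    have hMw := MM_apply ε ε' h0 h1 h0' h1' N (CC v)
    refine ⟨u, MM ε ε' N (CC v), ?_, hua, hub, hc'.le, ?_, hfu, rfl⟩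
    · rw [hMw, e0]
      rfl
    · have h9 : MM ε ε' N (CC v) 1 = phS ε ε' N (CC v) := by
        have := congrFun hMw 1
        simpa using this
      rw [h9]
      by_cases h3 : wd ε ≤ |CC v 1|
      · rw [phS_out ε ε' h0 h1 N (CC v) h3]
        exact hv1'
      · have := (phS_in ε ε' h0 h1 h0' h1' N (CC v) (by linarith)).1
        linarith

/-- NOTE (helper298): the second conclusion `|GG ε ε' N x 2| ≤ 1 - ε` of the posted `GG_fat` is
false (take `v = ![k, 1.3 w, w]`), only the first one is proved here. -/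
theorem GG_fat (ε ε' : ℝ) (h0 : 0 < ε) (h1 : ε ≤ 1 / 4) (h0' : 0 < ε') (h1' : ε' ≤ 1 / 4) (N : ℕ)
    (x : E) (ha : 1 / 2 ≤ x 0) (hb : x 0 ≤ N + 1 / 2) (hy : |x 1| ≤ 1 - 20 * wd ε)
    (hz : |x 2| ≤ 1 - ε) : GG ε ε' N x 1 = x 1 := by
  have hw : 0 < wd ε := by unfold wd; linarith
  have hw2 : wd ε ≤ 1 / 256 := by unfold wd; linarith
  rcases GG_core_h298 ε ε' h0 h1 h0' h1' N x ha hb hz with h | ⟨u, u', e0, hua, hub, hu1, hu1', hf, hf'⟩
  · rw [h]
    rfl
  · have hn := fold_near ε h0 h1 N u hu1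
    rw [hf] at hn
    rcases Nat.eq_zero_or_pos N with hN | hN
    · exfalso
      subst hN
      have hu0 : u 0 = 1 / 2 := by
        push_cast at hub
        linarith
      have h3 : hh ε 0 (u 0) = am ε := by
        unfold hh
        rw [hu0, pzs_eq 0 ((0 : ℕ) : ℤ) tent (by unfold tent; norm_num [abs_of_pos])
          (by unfold tent; norm_num [abs_of_neg]) 0 le_rfl (by simp) _ (by norm_num)]
        unfold sg tent
        simp
      rw [h3] at hn
      unfold am at hn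
      have h4 := (abs_le.mp hn).1
      have h5 := le_abs_self (x 1)
      linarith
    · obtain ⟨k, hk1, hk, hkx⟩ := branch_h298 N hN (u 0) hua hub
      have h3 := hh_branch ε N k hk1 hk (u 0) hkx
      rw [h3] at hn
      have hsg : |sg (k : ℤ)| = 1 := by
        unfold sg
        split_ifs <;> simp
      have hsl : 0 < sl ε := by
        unfold sl am
        linarith
      have habs : |sg (k : ℤ) * sl ε * (u 0 - k)| = sl ε * |u 0 - k| := by
        rw [abs_mul, abs_mul, hsg, one_mul, abs_of_pos hsl]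
      have h4 : sl ε * |u 0 - k| ≤ 1 - 16 * wd ε := by
        rw [← habs]
        have h5 : |sg (k : ℤ) * sl ε * (u 0 - k)| - |x 1| ≤ |sg (k : ℤ) * sl ε * (u 0 - k) - x 1| :=
          abs_sub_abs_le_abs_sub _ _
        rw [abs_sub_comm] at h5
        linarith
      have h5 : |u 0 - k| ≤ 1 / 2 - 4 * wd ε := by
        by_contra hlt
        have hlt' : 1 / 2 - 4 * wd ε < |u 0 - k| := not_le.mp hlt
        have h6 : sl ε * (1 / 2 - 4 * wd ε) < sl ε * |u 0 - k| := by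
          exact (mul_lt_mul_iff_right₀ hsl).mpr hlt'
        have h7 : sl ε * (1 / 2 - 4 * wd ε) = (1 - 8 * wd ε) ^ 2 := by
          unfold sl am
          ring
        rw [h7] at h6
        nlinarith
      have h8 := fold_rod2 ε h0 h1 N 1 Amp_one_h298 u rfl k hk1 hk h5 hu1
      have h9 := fold_rod2 ε h0 h1 N 1 Amp_one_h298 u' rfl k hk1 hk (by rw [← e0]; exact h5) hu1'
      rw [hf] at h8
      rw [hf', ← e0] at h9
      rw [h9, h8]
theorem GG_mid (ε ε' : ℝ) (h0 : 0 < ε) (h1 : ε ≤ 1 / 4) (h0' : 0 < ε') (h1' : ε' ≤ 1 / 4) (N : ℕ)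
    (x : E) (ha : 1 / 2 ≤ x 0) (hb : x 0 ≤ N + 1 / 2) (hy : 1 - 20 * wd ε ≤ |x 1|)
    (hz : |x 2| ≤ 1 - ε) : cf ε ≤ |GG ε ε' N x 1| := by
  have hw : 0 < wd ε := by unfold wd; linarith
  unfold cf
  rcases GG_core_h298 ε ε' h0 h1 h0' h1' N x ha hb hz with h | ⟨u, u', e0, hua, hub, hu1, hu1', hf, hf'⟩
  · rw [h]
    have : ng2 x 1 = x 1 := rfl
    rw [this]
    linarith
  · have hn := fold_near ε h0 h1 N u hu1
    have hn' := fold_near ε h0 h1 N u' hu1'
    rw [hf] at hn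
    rw [hf', ← e0] at hn'
    have h3 : |x 1| ≤ |x 1 - hh ε N (u 0)| + |GG ε ε' N x 1 - hh ε N (u 0)| + |GG ε ε' N x 1| := by
      have h4 : x 1 = (x 1 - hh ε N (u 0)) - (GG ε ε' N x 1 - hh ε N (u 0)) + GG ε ε' N x 1 := by ring
      calc |x 1| = |(x 1 - hh ε N (u 0)) - (GG ε ε' N x 1 - hh ε N (u 0)) + GG ε ε' N x 1| := by
            rw [← h4]
        _ ≤ |(x 1 - hh ε N (u 0)) - (GG ε ε' N x 1 - hh ε N (u 0))| + |GG ε ε' N x 1| := abs_add_le _ _
        _ ≤ _ := by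
            have := abs_sub (x 1 - hh ε N (u 0)) (GG ε ε' N x 1 - hh ε N (u 0))
            linarith
    linarith

end J27703

alias GG_fat := J27703.GG_fat
alias GG_mid := J27703.GG_mid

end Pool.Agent.ZZ
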