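import Pool.Agent.ZZ.Defs3
import Pool.Agent.ZZ.T15

/-! job 27835, proof by helper247 -/

set_option autoImplicit false
open Set Filter Topology MeasureTheory
open scoped NNReal

namespace Pool.Agent.ZZ

namespace J27835
theorem zz20_amp : Amp (1 : ℝ → ℝ) :=
  ⟨LipschitzWith.const' 1, fun t => ⟨zero_le_one, le_rfl⟩⟩

theorem zz20_Ph (ε ε' : ℝ) (N : ℕ) (v : E) : Ph ε ε' N v = fold ε N 1 (MM ε ε' N v) := rfl

theorem zz20_MM0 (ε ε' : ℝ) (h0 : 0 < ε) (h1 : ε ≤ 1 / 4) (h0' : 0 < ε') (h1' : ε' ≤ 1 / 4) (N : ℕ)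
    (v : E) : MM ε ε' N v 0 = v 0 := by
  rw [MM_apply ε ε' h0 h1 h0' h1' N v]
  rfl

theorem zz20_CC0 (v : E) : CC v 0 = v 0 := rfl

theorem zz20_branch (ε : ℝ) (h0 : 0 < ε) (h1 : ε ≤ 1 / 4) (N : ℕ) (u : E)
    (ha : 1 / 2 ≤ fold ε N 1 u 0) (hb : fold ε N 1 u 0 ≤ N + 1 / 2) :
    0 ≤ u 0 ∧ u 0 ≤ N + 1 := by
  have hN0 : (0 : ℝ) ≤ N := Nat.cast_nonneg N
  rcases le_or_gt (fold ε N 1 u 0) (1 / 2) with h | h
  · have h2 := (fold_side ε h0 h1 N 1 zz20_amp (fold ε N 1 u)).2 (Or.inl h)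
    rw [Homeomorph.symm_apply_apply] at h2
    constructor <;> linarith
  · set k : ℕ := ⌈fold ε N 1 u 0 - 1 / 2⌉₊ with hk
    have hk1 : 1 ≤ k := by
      rw [hk, Nat.one_le_ceil_iff]
      linarith
    have hkN : k ≤ N := by
      rw [hk, Nat.ceil_le]
      linarith
    have hk2 : fold ε N 1 u 0 - 1 / 2 ≤ k := Nat.le_ceil _
    have hk3 : (k : ℝ) < fold ε N 1 u 0 - 1 / 2 + 1 := Nat.ceil_lt_add_one (by linarith)
    have h3 : |fold ε N 1 u 0 - k| ≤ 1 / 2 := by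
      rw [abs_le]
      constructor <;> linarith
    rw [fold_branch ε h0 h1 N 1 zz20_amp u k hk1 hkN, abs_le] at h3
    have h4 : (1 : ℝ) ≤ k := by exact_mod_cast hk1
    have h5 : (k : ℝ) ≤ N := by exact_mod_cast hkN
    constructor <;> linarith [h3.1, h3.2]

theorem GG_side (ε ε' : ℝ) (h0 : 0 < ε) (h1 : ε ≤ 1 / 4) (h0' : 0 < ε') (h1' : ε' ≤ 1 / 4) (N : ℕ)
    (x : E) : (x 0 ≤ 1 / 2 ∨ (N : ℝ) + 1 / 2 ≤ x 0 → GG ε ε' N x 0 = x 0) ∧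
      (∀ k : ℕ, 1 ≤ k → k ≤ N → |x 0 - k| ≤ 1 / 2 → |GG ε ε' N x 0 - k| ≤ 1 / 2) := by
  obtain ⟨v, rfl⟩ : ∃ v, x = Ph ε ε' N v := ⟨(Ph ε ε' N).symm x, by simp⟩
  rw [GG_eq, Homeomorph.symm_apply_apply, zz20_Ph, zz20_Ph]
  have hM0 := zz20_MM0 ε ε' h0 h1 h0' h1' N v
  have hM1 : MM ε ε' N (CC v) 0 = v 0 := zz20_MM0 ε ε' h0 h1 h0' h1' N (CC v)
  constructor
  · intro hx
    have h2 := (fold_side ε h0 h1 N 1 zz20_amp (fold ε N 1 (MM ε ε' N v))).2 hx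
    rw [Homeomorph.symm_apply_apply, hM0] at h2
    rw [← h2] at hx ⊢
    rw [(fold_side ε h0 h1 N 1 zz20_amp (MM ε ε' N (CC v))).1 (by rw [hM1]; exact hx), hM1]
  · intro k hk1 hk hx
    rw [fold_branch ε h0 h1 N 1 zz20_amp _ k hk1 hk, hM0] at hx
    rw [fold_branch ε h0 h1 N 1 zz20_amp _ k hk1 hk, hM1]
    exact hx

/-- pure reflection near the mid faces: gives the negative Jacobian -/
theorem GG_refl (ε ε' : ℝ) (h0 : 0 < ε) (h1 : ε ≤ 1 / 4) (h0' : 0 < ε') (h1' : ε' ≤ 1 / 4) (N : ℕ)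
    (x : E) (ha : 1 / 2 ≤ x 0) (hb : x 0 ≤ N + 1 / 2) (hy : 1 - 3 * wd ε ≤ |x 1|)
    (hz : |x 2| ≤ 1 - ε) : GG ε ε' N x = ![x 0, x 1, - x 2] := by
  obtain ⟨v, rfl⟩ : ∃ v, x = Ph ε ε' N v := ⟨(Ph ε ε' N).symm x, by simp⟩
  rw [GG_eq, Homeomorph.symm_apply_apply]
  have hw : 0 < wd ε := by unfold wd; positivity
  have hx0 : Ph ε ε' N v = fold ε N 1 (MM ε ε' N v) := rfl
  have hM := MM_apply ε ε' h0 h1 h0' h1' N v
  have hM0 : MM ε ε' N v 0 = v 0 := zz20_MM0 ε ε' h0 h1 h0' h1' N v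
  have hM1 : MM ε ε' N v 1 = phS ε ε' N v := by rw [hM]; rfl
  have hM2 : MM ε ε' N v 2 = Zf ε (ef ε N (v 0) (phS ε ε' N v)) (v 2) := by rw [hM]; rfl
  -- `|u 1| ≥ 2 w`
  have hu1 : 2 * wd ε ≤ |MM ε ε' N v 1| := by
    by_contra hcon
    push Not at hcon
    have h2 := fold_near ε h0 h1 N (MM ε ε' N v) hcon.le
    have h3 := hh_abs ε h0 h1 N (MM ε ε' N v 0)
    rw [← hx0] at h2
    have h4 : |Ph ε ε' N v 1| ≤ |Ph ε ε' N v 1 - hh ε N (MM ε ε' N v 0)| +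
        |hh ε N (MM ε ε' N v 0)| := by
      have := abs_add_le (Ph ε ε' N v 1 - hh ε N (MM ε ε' N v 0)) (hh ε N (MM ε ε' N v 0))
      simpa using this
    have h5 : am ε = 1 - 8 * wd ε := rfl
    linarith
  rw [hM1] at hu1
  have hv1 : wd ε ≤ |v 1| := by
    by_contra hcon
    push Not at hcon
    have h2 := (phS_in ε ε' h0 h1 h0' h1' N v hcon.le).1
    linarith
  have hph : phS ε ε' N v = v 1 := phS_out ε ε' h0 h1 N v hv1
  rw [hph] at hu1 hM2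
  -- `lam = 1`
  have hr := zz20_branch ε h0 h1 N (MM ε ε' N v) (by rw [← hx0]; exact ha) (by rw [← hx0]; exact hb)
  rw [hM0] at hr
  have hlam : lam N (v 0) = 1 := by
    unfold lam
    have h3 : (1 : ℝ) ≤ min (v 0 + 1) (N + 2 - v 0) := le_min (by linarith [hr.1]) (by linarith [hr.2])
    rw [min_eq_left h3]
    norm_num
  have hef : ef ε N (v 0) (v 1) ≤ |v 1| / 2 := by
    unfold ef
    rw [hlam]
    have h3 : max (2 * wd ε) (min 1 |v 1|) ≤ |v 1| := max_le hu1 (min_le_right _ _)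
    linarith
  have hem := ef_mem ε h0 h1 N (v 0) (v 1)
  have hx2 : Ph ε ε' N v 2 = Zf ε (ef ε N (v 0) (v 1)) (v 2) := by
    rw [hx0, (fold_two ε h0 h1 N 1 zz20_amp (MM ε ε' N v)).1, hM2]
  rw [hx2, (Zf_le ε (ef ε N (v 0) (v 1)) (v 2) h0 h1 (by linarith [hem.1]) hem.2).1] at hz
  have hCC : CC v = ng2 v := CC_side v (hz.trans hef)
  rw [hCC, Ph_ng2 ε ε' h0 h1 h0' h1']
  rfl


/-! ## frames -/

end J27835

alias GG_side := J27835.GG_side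
alias GG_refl := J27835.GG_refl

end Pool.Agent.ZZ
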