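import Pool.Agent.ZZ.Defs3
import Pool.Agent.ZZ.T10

/-! job 27839, proof by helper991 -/

set_option autoImplicit false
open Set Filter Topology MeasureTheory
open scoped NNReal

namespace Pool.Agent.ZZ

namespace J27839
theorem frpos_27839 (ε : ℝ) (h0 : 0 < ε) (h1 : ε ≤ 1 / 4) : 0 < cf ε ∧ 0 < fh ε ∧ 0 < 1 - ε := by
  unfold cf fh wd
  refine ⟨?_, ?_, ?_⟩ <;> linarith

theorem fr_fri (ε : ℝ) (h0 : 0 < ε) (h1 : ε ≤ 1 / 4) (N' : ℕ) (x : E) :
    fr ε N' (fri ε N' x) = x ∧ fri ε N' (fr ε N' x) = x := by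
  obtain ⟨hc, hf, he⟩ := frpos_27839 ε h0 h1
  have hN : (0 : ℝ) < (N' : ℝ) + 3 := by positivity
  have hq : ((N' : ℝ) + 3) / (2 * cf ε) ≠ 0 := by positivity
  constructor
  · funext i
    fin_cases i
    · show ((x 0 - (N' + 1) / 2) / ((N' + 3) / (2 * cf ε))) * ((N' + 3) / (2 * cf ε)) +
        (N' + 1) / 2 = x 0
      rw [div_mul_cancel₀ _ hq]
      ring
    · show (1 - ε) * x 1 / (1 - ε) = x 1
      rw [mul_div_cancel_left₀ _ he.ne']
    · rfl
  · funext i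
    fin_cases i
    · rfl
    · show (x 1 * ((N' + 3) / (2 * cf ε)) + (N' + 1) / 2 - (N' + 1) / 2) /
        ((N' + 3) / (2 * cf ε)) = x 1
      rw [add_sub_cancel_right, mul_div_cancel_right₀ _ hq]
    · show (1 - ε) * (x 2 / (1 - ε)) = x 2
      rw [mul_div_cancel₀ _ he.ne']
theorem Ak_Aki (ε : ℝ) (h0 : 0 < ε) (h1 : ε ≤ 1 / 4) (N' k : ℕ) (x : E) :
    Ak ε N' k (Aki ε N' k x) = x ∧ Aki ε N' k (Ak ε N' k x) = x := by
  obtain ⟨hc, hf, he⟩ := frpos_27839 ε h0 h1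
  have hN : (0 : ℝ) < (N' : ℝ) + 3 := by positivity
  have hq : ((N' : ℝ) + 3) / (2 * cf ε) ≠ 0 := by positivity
  constructor
  · funext i
    fin_cases i
    · show ((x 0 - (N' + 1) / 2) / ((N' + 3) / (2 * cf ε))) * ((N' + 3) / (2 * cf ε)) +
        (N' + 1) / 2 = x 0
      rw [div_mul_cancel₀ _ hq]
      ring
    · show (1 - ε) * x 1 / (1 - ε) = x 1
      rw [mul_div_cancel_left₀ _ he.ne']
    · show (fh ε * x 2 + k - k) / fh ε = x 2
      rw [add_sub_cancel_right, mul_div_cancel_left₀ _ hf.ne']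
  · funext i
    fin_cases i
    · show fh ε * ((x 0 - k) / fh ε) + k = x 0
      rw [mul_div_cancel₀ _ hf.ne']
      ring
    · show (x 1 * ((N' + 3) / (2 * cf ε)) + (N' + 1) / 2 - (N' + 1) / 2) /
        ((N' + 3) / (2 * cf ε)) = x 1
      rw [add_sub_cancel_right, mul_div_cancel_right₀ _ hq]
    · show (1 - ε) * (x 2 / (1 - ε)) = x 2
      rw [mul_div_cancel₀ _ he.ne']
theorem Ak_mem (ε : ℝ) (h0 : 0 < ε) (h1 : ε ≤ 1 / 4) (N' k : ℕ) (x : E) :
    Ak ε N' k x ∈ PB N' ↔ x ∈ CB ε k := by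
  obtain ⟨hc, hf, he⟩ := frpos_27839 ε h0 h1
  have hN : (0 : ℝ) < (N' : ℝ) + 3 := by positivity
  set q : ℝ := ((N' : ℝ) + 3) / (2 * cf ε) with hq
  have hq0 : 0 < q := by positivity
  have hqc : cf ε * q = ((N' : ℝ) + 3) / 2 := by
    rw [hq]
    field_simp
  show (-1 ≤ x 1 * q + (N' + 1) / 2 ∧ x 1 * q + (N' + 1) / 2 ≤ N' + 2 ∧ |x 2 / (1 - ε)| ≤ 1 ∧
    |(x 0 - k) / fh ε| ≤ 1) ↔ (|x 0 - k| ≤ fh ε ∧ |x 1| ≤ cf ε ∧ |x 2| ≤ 1 - ε)
  have e1 : |x 2 / (1 - ε)| ≤ 1 ↔ |x 2| ≤ 1 - ε := by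
    rw [abs_div, abs_of_pos he, div_le_one he]
  have e2 : |(x 0 - k) / fh ε| ≤ 1 ↔ |x 0 - k| ≤ fh ε := by
    rw [abs_div, abs_of_pos hf, div_le_one hf]
  have e3 : (-1 ≤ x 1 * q + (N' + 1) / 2 ∧ x 1 * q + (N' + 1) / 2 ≤ N' + 2) ↔
      |x 1| ≤ cf ε := by
    rw [abs_le]
    constructor
    · rintro ⟨ha, hb⟩
      constructor
      · apply le_of_mul_le_mul_right _ hq0
        rw [neg_mul, hqc]
        linarith
      · apply le_of_mul_le_mul_right _ hq0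
        rw [hqc]
        linarith
    · rintro ⟨ha, hb⟩
      have ha' := mul_le_mul_of_nonneg_right ha hq0.le
      have hb' := mul_le_mul_of_nonneg_right hb hq0.le
      rw [neg_mul, hqc] at ha'
      rw [hqc] at hb'
      constructor <;> linarith
  rw [e1, e2, ← e3]
  tauto
theorem Lam_amp (N : ℕ) : Amp (Lam N) := by
  refine ⟨?_, fun t => ⟨le_max_left _ _, ?_⟩⟩
  · have l1 : LipschitzWith 1 (fun t : ℝ => t - 1 / 2) := by
      apply LipschitzWith.of_dist_le_mul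
      intro x y
      rw [NNReal.coe_one, one_mul, Real.dist_eq, Real.dist_eq]
      apply le_of_eq
      congr 1
      ring
    have l2 : LipschitzWith 1 (fun t : ℝ => (N : ℝ) + 1 / 2 - t) := by
      apply LipschitzWith.of_dist_le_mul
      intro x y
      rw [NNReal.coe_one, one_mul, Real.dist_eq, Real.dist_eq, abs_sub_comm x y]
      apply le_of_eq
      congr 1
      ring
    have l3 := (l1.min l2).const_min 1
    have l4 := l3.const_max 0
    rw [max_self] at l4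
    exact l4
  · exact max_le zero_le_one (min_le_left _ _)
theorem one_amp : Amp 1 := by
  refine ⟨?_, fun t => ⟨zero_le_one, le_refl _⟩⟩
  exact (LipschitzWith.const (1 : ℝ)).weaken zero_le_one

/-! ## the homeomorphism Q -/

end J27839

alias fr_fri := J27839.fr_fri
alias Ak_Aki := J27839.Ak_Aki
alias Ak_mem := J27839.Ak_mem
alias Lam_amp := J27839.Lam_amp
alias one_amp := J27839.one_amp

end Pool.Agent.ZZ
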