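import Pool.Agent.ZZ.Defs3
import Pool.Agent.ZZ.T21
import Pool.Agent.ZZ.T11
import Pool.Agent.ZZ.T12

/-! job 27843, proof by helper54 -/

set_option autoImplicit false
open Set Filter Topology MeasureTheory
open scoped NNReal

namespace Pool.Agent.ZZ

namespace J27843

/-- open box -/
def OB (N : ℕ) : Set E := {x | -1 < x 0 ∧ x 0 < N + 2 ∧ |x 1| < 1 ∧ |x 2| < 1}

theorem OB_sub (N : ℕ) (x : E) (h : x ∈ OB N) : x ∈ PB N := by
  obtain ⟨a, b, c, d⟩ := h
  exact ⟨a.le, b.le, c.le, d.le⟩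

/-- the linear part of `Aki` -/
noncomputable def Lf (ε : ℝ) (N' : ℕ) : E →ₗ[ℝ] E where
  toFun v := ![fh ε * v 2, v 0 / ((N' + 3) / (2 * cf ε)), (1 - ε) * v 1]
  map_add' x y := by
    ext i; fin_cases i <;> simp <;> ring
  map_smul' c x := by
    ext i; fin_cases i <;> simp <;> ring

theorem Lf_apply (ε : ℝ) (N' : ℕ) (v : E) :
    Lf ε N' v = ![fh ε * v 2, v 0 / ((N' + 3) / (2 * cf ε)), (1 - ε) * v 1] := rfl

theorem Aki_Lf (ε : ℝ) (N' k : ℕ) (y y' : E) :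
    Aki ε N' k y' + Lf ε N' (y - y') = Aki ε N' k y := by
  rw [Lf_apply]
  ext i; fin_cases i <;> simp [Aki] <;> ring

/-- the linear part of `Ak` -/
noncomputable def Af (ε : ℝ) (N' : ℕ) : E →ₗ[ℝ] E where
  toFun v := ![v 1 * ((N' + 3) / (2 * cf ε)), v 2 / (1 - ε), v 0 / fh ε]
  map_add' x y := by
    ext i; fin_cases i <;> simp <;> ring
  map_smul' c x := by
    ext i; fin_cases i <;> simp <;> ring

theorem Af_apply (ε : ℝ) (N' : ℕ) (v : E) :
    Af ε N' v = ![v 1 * ((N' + 3) / (2 * cf ε)), v 2 / (1 - ε), v 0 / fh ε] := rfl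

theorem Ak_Af (ε : ℝ) (N' k : ℕ) (x : E) :
    Ak ε N' k x = Af ε N' x + ![((N' : ℝ) + 1) / 2, 0, - (k / fh ε)] := by
  rw [Af_apply]
  ext i; fin_cases i <;> simp [Ak] <;> ring

theorem lin_lip (A : E →ₗ[ℝ] E) : ∃ K : ℝ≥0, LipschitzWith K A :=
  ⟨_, (LinearMap.toContinuousLinearMap A).lipschitz⟩

theorem Ak_lip (ε : ℝ) (N' k : ℕ) : ∃ K : ℝ≥0, LipschitzWith K (Ak ε N' k) := by
  obtain ⟨K, hK⟩ := lin_lip (Af ε N')
  refine ⟨K, ?_⟩
  intro x y
  rw [Ak_Af, Ak_Af, edist_add_right]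
  exact hK x y

theorem sum_lip (s : Finset ℕ) (g : ℕ → E → E) (h : ∀ k, ∃ K : ℝ≥0, LipschitzWith K (g k)) :
    ∃ K : ℝ≥0, LipschitzWith K (fun x => ∑ k ∈ s, g k x) := by
  classical
  induction s using Finset.induction_on with
  | empty => exact ⟨0, by simpa using LipschitzWith.const (0 : E)⟩
  | insert a s ha ih =>
    obtain ⟨K1, h1⟩ := ih
    obtain ⟨K2, h2⟩ := h a
    refine ⟨K2 + K1, ?_⟩
    have : (fun x => ∑ k ∈ insert a s, g k x) = fun x => g a x + ∑ k ∈ s, g k x := by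
      funext x; rw [Finset.sum_insert ha]
    rw [this]
    exact h2.add h1

/-- index set of the admissible children -/
noncomputable def As (N : ℕ) : Finset ℕ := by
  classical exact (Finset.range (N + 1)).filter (Ad N)

theorem mem_As (N k : ℕ) : k ∈ As N ↔ Ad N k := by
  classical
  unfold As
  rw [Finset.mem_filter, Finset.mem_range]
  constructor
  · exact fun h => h.2
  · intro h
    exact ⟨by have := h.2; omega, h⟩

/-- the glued map -/
noncomputable def GF (ε : ℝ) (N N' : ℕ) (T : E → E) (x : E) : E :=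
  x + Lf ε N' (∑ k ∈ As N, (T (Ak ε N' k x) - Ak ε N' k x))

theorem GF_lip (ε : ℝ) (N N' : ℕ) (T : E → E) (K : ℝ≥0) (hT : LipschitzWith K T) :
    ∃ K' : ℝ≥0, LipschitzWith K' (GF ε N N' T) := by
  obtain ⟨K1, h1⟩ := sum_lip (As N) (fun k x => T (Ak ε N' k x) - Ak ε N' k x) (by
    intro k
    obtain ⟨K0, h0⟩ := Ak_lip ε N' k
    exact ⟨K * K0 + K0, (hT.comp h0).sub h0⟩)
  obtain ⟨K2, h2⟩ := lin_lip (Lf ε N')
  exact ⟨1 + K2 * K1, LipschitzWith.id.add (h2.comp h1)⟩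

theorem GF_CB (ε : ℝ) (h0 : 0 < ε) (h1 : ε ≤ 1 / 4) (N N' : ℕ) (T : E → E)
    (hid : ∀ x, x ∉ OB N' → T x = x) (k : ℕ) (x : E) (hk : Ad N k) (hx : x ∈ CB ε k) :
    GF ε N N' T x = Aki ε N' k (T (Ak ε N' k x)) := by
  unfold GF
  rw [Finset.sum_eq_single k]
  · have e1 := Aki_Lf ε N' k (T (Ak ε N' k x)) (Ak ε N' k x)
    rw [(Ak_Aki ε h0 h1 N' k x).2] at e1
    exact e1
  · intro k' hk' hne
    have hO : Ak ε N' k' x ∉ OB N' := by
      intro hO
      have hc : x ∈ CB ε k' := (Ak_mem ε h0 h1 N' k' x).mp (OB_sub _ _ hO)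
      have a1 := abs_le.mp hx.1
      have a2 := abs_le.mp hc.1
      have hf : fh ε < 1 / 2 := by unfold fh; linarith
      apply hne
      have b1 : (k' : ℝ) < k + 1 := by linarith [a1.1, a1.2, a2.1, a2.2]
      have b2 : (k : ℝ) < k' + 1 := by linarith [a1.1, a1.2, a2.1, a2.2]
      have c1 : k' < k + 1 := by exact_mod_cast b1
      have c2 : k < k' + 1 := by exact_mod_cast b2
      omega
    rw [hid _ hO, sub_self]
  · intro h
    exact absurd ((mem_As N k).mpr hk) h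

theorem GF_out (ε : ℝ) (N N' : ℕ) (T : E → E)
    (hid : ∀ x, x ∉ OB N' → T x = x) (x : E) (hx : ∀ k, Ad N k → Ak ε N' k x ∉ OB N') :
    GF ε N N' T x = x := by
  unfold GF
  rw [Finset.sum_eq_zero]
  · simp
  · intro k hk
    rw [hid _ (hx k ((mem_As N k).mp hk)), sub_self]

theorem OB_int (ε : ℝ) (h0 : 0 < ε) (h1 : ε ≤ 1 / 4) (N' k : ℕ) (x : E)
    (h : Ak ε N' k x ∈ OB N') : x ∈ interior (CB ε k) := by
  rw [mem_interior]
  refine ⟨(Ak ε N' k) ⁻¹' (OB N'), ?_, ?_, h⟩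
  · intro y hy
    exact (Ak_mem ε h0 h1 N' k y).mp (OB_sub _ _ hy)
  · have ho : IsOpen (OB N') := by
      unfold OB
      have c0 : Continuous (fun x : E => x 0) := continuous_apply 0
      have c1 : Continuous (fun x : E => |x 1|) := (continuous_apply 1).abs
      have c2 : Continuous (fun x : E => |x 2|) := (continuous_apply 2).abs
      exact (isOpen_lt continuous_const c0).inter ((isOpen_lt c0 continuous_const).inter
        ((isOpen_lt c1 continuous_const).inter (isOpen_lt c2 continuous_const)))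
    obtain ⟨K, hK⟩ := Ak_lip ε N' k
    exact ho.preimage hK.continuous

theorem T_PB (N' : ℕ) (T : E ≃ₜ E) (hid : ∀ x, x ∉ OB N' → T x = x) (x : E) (hx : x ∈ PB N') :
    T x ∈ PB N' := by
  by_cases h : T x ∈ OB N'
  · exact OB_sub _ _ h
  · have h2 := hid _ h
    have h3 : T x = x := T.injective h2
    rw [h3]; exact hx

theorem GF_inv (ε : ℝ) (h0 : 0 < ε) (h1 : ε ≤ 1 / 4) (N N' : ℕ) (T : E ≃ₜ E)
    (hid : ∀ x, x ∉ OB N' → T x = x) (hid' : ∀ x, x ∉ OB N' → T.symm x = x) (x : E) :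
    GF ε N N' T.symm (GF ε N N' T x) = x := by
  by_cases h : ∃ k, Ad N k ∧ x ∈ CB ε k
  · obtain ⟨k, hk, hx⟩ := h
    rw [GF_CB ε h0 h1 N N' T hid k x hk hx]
    have hP : T (Ak ε N' k x) ∈ PB N' := T_PB N' T hid _ ((Ak_mem ε h0 h1 N' k x).mpr hx)
    have hP' : Aki ε N' k (T (Ak ε N' k x)) ∈ CB ε k := by
      rw [← Ak_mem ε h0 h1 N' k, (Ak_Aki ε h0 h1 N' k _).1]
      exact hP
    rw [GF_CB ε h0 h1 N N' T.symm hid' k _ hk hP', (Ak_Aki ε h0 h1 N' k _).1,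
      T.symm_apply_apply, (Ak_Aki ε h0 h1 N' k x).2]
  · have hx : ∀ k, Ad N k → Ak ε N' k x ∉ OB N' := by
      intro k hk hO
      exact h ⟨k, hk, (Ak_mem ε h0 h1 N' k x).mp (OB_sub _ _ hO)⟩
    rw [GF_out ε N N' T hid x hx, GF_out ε N N' T.symm hid' x hx]

theorem glueT (ε : ℝ) (h0 : 0 < ε) (h1 : ε ≤ 1 / 4) (N N' : ℕ) (T : E ≃ₜ E) (K : ℝ≥0)
    (hT : LipschitzWith K T) (hTs : LipschitzWith K T.symm)
    (hid : ∀ x, x ∉ OB N' → T x = x) :
    ∃ G : E ≃ₜ E, (∃ K' : ℝ≥0, LipschitzWith K' G ∧ LipschitzWith K' G.symm) ∧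
      (∀ k x, Ad N k → x ∈ CB ε k → G x = Aki ε N' k (T (Ak ε N' k x)) ∧
        G.symm x = Aki ε N' k (T.symm (Ak ε N' k x))) ∧
      (∀ x, (∀ k, Ad N k → x ∈ CB ε k → x ∉ interior (CB ε k)) → G x = x ∧ G.symm x = x) := by
  have hid' : ∀ x, x ∉ OB N' → T.symm x = x := by
    intro x hx
    rw [Homeomorph.symm_apply_eq, hid x hx]
  obtain ⟨K1, hK1⟩ := GF_lip ε N N' T K hT
  obtain ⟨K2, hK2⟩ := GF_lip ε N N' T.symm K hTs
  let G : E ≃ₜ E :=
    { toFun := GF ε N N' T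
      invFun := GF ε N N' T.symm
      left_inv := GF_inv ε h0 h1 N N' T hid hid'
      right_inv := GF_inv ε h0 h1 N N' T.symm hid' hid
      continuous_toFun := hK1.continuous
      continuous_invFun := hK2.continuous }
  refine ⟨G, ⟨max K1 K2, hK1.weaken (le_max_left _ _), hK2.weaken (le_max_right _ _)⟩, ?_, ?_⟩
  · intro k x hk hx
    exact ⟨GF_CB ε h0 h1 N N' T hid k x hk hx, GF_CB ε h0 h1 N N' T.symm hid' k x hk hx⟩
  · intro x hx
    have hx' : ∀ k, Ad N k → Ak ε N' k x ∉ OB N' := by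
      intro k hk hO
      exact hx k hk ((Ak_mem ε h0 h1 N' k x).mp (OB_sub _ _ hO)) (OB_int ε h0 h1 N' k x hO)
    exact ⟨GF_out ε N N' T hid x hx', GF_out ε N N' T.symm hid' x hx'⟩

theorem T_id (ε ε' : ℝ) (h0 : 0 < ε) (h1 : ε ≤ 1 / 4) (h0' : 0 < ε') (h1' : ε' ≤ 1 / 4) (N : ℕ)
    (x : E) (hx : x ∉ OB N) : MM ε ε' N ((M0 ε).symm x) = x := by
  obtain ⟨y, rfl⟩ := (M0 ε).surjective x
  rw [Homeomorph.symm_apply_apply, MM_apply ε ε' h0 h1 h0' h1' N y]
  rw [M0_apply ε h0 h1 y] at hx ⊢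
  have hwd : 0 < wd ε := by unfold wd; linarith
  have hwd1 : wd ε ≤ 1 / 256 := by unfold wd; linarith
  by_cases ha : y 0 ≤ -1 ∨ (N : ℝ) + 2 ≤ y 0
  · have hl : lam N (y 0) = 0 := by
      unfold lam
      apply max_eq_left
      apply min_le_of_right_le
      rcases ha with ha | ha
      · apply min_le_of_left_le; linarith
      · apply min_le_of_right_le; linarith
    have hS : phS ε ε' N y = y 1 := by unfold phS; rw [hl]; ring
    have he : ef ε N (y 0) (y 1) = 1 / 2 := by unfold ef; rw [hl]; ring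
    rw [hS, he]
  · by_cases hb : 1 ≤ |y 1|
    · have hS : phS ε ε' N y = y 1 := phS_out ε ε' h0 h1 N y (by linarith)
      have he : ef ε N (y 0) (y 1) = 1 / 2 := by
        unfold ef
        rw [min_eq_left hb, max_eq_right (by linarith)]
        ring
      rw [hS, he]
    · have hc : 1 ≤ |y 2| := by
        by_contra hc
        push Not at ha hb hc
        apply hx
        have hmo := Zf_mono ε (1 / 2) h0 h1 (by norm_num) le_rfl
        have hc' := abs_lt.mp hc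
        have z1 : |Zf ε (1 / 2) 1| ≤ 1 :=
          (Zf_le ε (1 / 2) 1 h0 h1 (by norm_num) le_rfl).2.mpr (by simp)
        have z2 : |Zf ε (1 / 2) (-1)| ≤ 1 :=
          (Zf_le ε (1 / 2) (-1) h0 h1 (by norm_num) le_rfl).2.mpr (by simp)
        have z3 := hmo hc'.1
        have z4 := hmo hc'.2
        have z1' := abs_le.mp z1
        have z2' := abs_le.mp z2
        refine ⟨?_, ?_, ?_, ?_⟩
        · simpa using ha.1
        · simpa using ha.2
        · simpa using hb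
        · have : |Zf ε (1 / 2) (y 2)| < 1 := by
            rw [abs_lt]; constructor
            · linarith [z2'.1]
            · linarith [z1'.2]
          simpa using this
      have hn : nu ε (y 2) = 0 := by
        unfold nu
        apply max_eq_left
        apply min_le_of_right_le
        apply div_nonpos_of_nonpos_of_nonneg
        · linarith
        · linarith
      have hS : phS ε ε' N y = y 1 := by unfold phS; rw [hn]; ring
      have he := ef_mem ε h0 h1 N (y 0) (y 1)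
      rw [hS, Zf_outer ε (ef ε N (y 0) (y 1)) (y 2) h0 h1 (by linarith [he.1]) he.2 hc]

theorem RR_spec (ε ε' ε'' : ℝ) (h0 : 0 < ε) (h1 : ε ≤ 1 / 4) (h0' : 0 < ε') (h1' : ε' ≤ 1 / 4)
    (h0'' : 0 < ε'') (h1'' : ε'' ≤ 1 / 4) (N N' : ℕ) :
    (∀ x, mkH (RRf ε ε' ε'' N N') x = RRf ε ε' ε'' N N' x) ∧
    (∃ K : ℝ≥0, LipschitzWith K (mkH (RRf ε ε' ε'' N N')) ∧ LipschitzWith K (mkH (RRf ε ε' ε'' N N')).symm) ∧
    (∀ k x, Ad N k → x ∈ CB ε k → mkH (RRf ε ε' ε'' N N') x =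
        Aki ε N' k (MM ε' ε'' N' ((M0 ε').symm (Ak ε N' k x))) ∧
      (mkH (RRf ε ε' ε'' N N')).symm x =
        Aki ε N' k (M0 ε' ((MM ε' ε'' N').symm (Ak ε N' k x)))) ∧
    (∀ x, (∀ k, Ad N k → x ∈ CB ε k → x ∉ interior (CB ε k)) →
      mkH (RRf ε ε' ε'' N N') x = x ∧ (mkH (RRf ε ε' ε'' N N')).symm x = x) := by
  obtain ⟨K1, hK1, hK1'⟩ := M0_lip ε' h0' h1'
  obtain ⟨K2, hK2'⟩ := MM_lip ε' ε'' h0' h1' h0'' h1''
  obtain ⟨hK2, hK2s⟩ := hK2' N'
  let T : E ≃ₜ E := (M0 ε').symm.trans (MM ε' ε'' N')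
  have hT1 : LipschitzWith (K2 * K1) T := hK2.comp hK1'
  have hT2 : LipschitzWith (K1 * K2) T.symm := hK1.comp hK2s
  obtain ⟨G, hG1, hG2, hG3⟩ := glueT ε h0 h1 N N' T (K2 * K1) hT1 (by rw [mul_comm]; exact hT2)
    (fun x hx => T_id ε' ε'' h0' h1' h0'' h1'' N' x hx)
  have hRR : ∀ x, G x = RRf ε ε' ε'' N N' x := by
    intro x
    unfold RRf
    split_ifs with h
    · have hs := h.choose_spec
      exact (hG2 h.choose x ⟨hs.1, hs.2.1⟩ hs.2.2).1
    · apply (hG3 x ?_).1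
      intro k hk hx
      exact absurd ⟨k, hk.1, hk.2, hx⟩ h
  have hex : ∃ G : E ≃ₜ E, ∀ x, G x = RRf ε ε' ε'' N N' x := ⟨G, hRR⟩
  have hmk : mkH (RRf ε ε' ε'' N N') = G := by
    have e1 : mkH (RRf ε ε' ε'' N N') = hex.choose := by
      unfold mkH
      rw [dif_pos hex]
    rw [e1]
    ext1 x
    rw [hex.choose_spec x, hRR x]
  rw [hmk]
  exact ⟨hRR, hG1, hG2, hG3⟩

end J27843

alias RR_spec := J27843.RR_spec

end Pool.Agent.ZZ
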