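import Pool.Agent.ZZ.Defs3
import Pool.Agent.ZZ.T21
import Pool.Agent.ZZ.T11

/-! job 27848, proof by helper219 -/

set_option autoImplicit false
open Set Filter Topology MeasureTheory
open scoped NNReal

namespace Pool.Agent.ZZ

namespace J27848
theorem ffs_fr_lip (ε : ℝ) (N' : ℕ) : ∃ K : ℝ≥0, LipschitzWith K (fr ε N') := by
  set c : ℝ := ((N' : ℝ) + 3) / (2 * cf ε) with hc
  have hK : 0 ≤ |c| + |1 / (1 - ε)| + 1 := by positivity
  refine ⟨⟨|c| + |1 / (1 - ε)| + 1, hK⟩, LipschitzWith.of_dist_le_mul fun x y => ?_⟩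
  have hd : 0 ≤ dist x y := dist_nonneg
  have hi : ∀ i, |x i - y i| ≤ dist x y := fun i => by
    rw [← Real.dist_eq]
    exact dist_le_pi_dist x y i
  have h1 : 0 ≤ |c| := abs_nonneg _
  have h2 : 0 ≤ |1 / (1 - ε)| := abs_nonneg _
  show dist (fr ε N' x) (fr ε N' y) ≤ (|c| + |1 / (1 - ε)| + 1) * dist x y
  rw [dist_pi_le_iff (mul_nonneg hK hd)]
  intro i
  rw [Real.dist_eq]
  fin_cases i
  · show |(x 1 * c + (N' + 1) / 2) - (y 1 * c + (N' + 1) / 2)| ≤ _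
    have h3 : (x 1 * c + ((N' : ℝ) + 1) / 2) - (y 1 * c + (N' + 1) / 2) = c * (x 1 - y 1) := by ring
    rw [h3, abs_mul]
    have h4 := mul_le_mul_of_nonneg_left (hi 1) h1
    nlinarith [mul_nonneg h2 hd]
  · show |x 2 / (1 - ε) - y 2 / (1 - ε)| ≤ _
    have h3 : x 2 / (1 - ε) - y 2 / (1 - ε) = (1 / (1 - ε)) * (x 2 - y 2) := by ring
    rw [h3, abs_mul]
    have h4 := mul_le_mul_of_nonneg_left (hi 2) h2
    nlinarith [mul_nonneg h1 hd]
  · show |x 0 - y 0| ≤ _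
    have h4 := hi 0
    nlinarith [mul_nonneg h1 hd, mul_nonneg h2 hd]

theorem ffs_fri_lip (ε : ℝ) (N' : ℕ) : ∃ K : ℝ≥0, LipschitzWith K (fri ε N') := by
  set c : ℝ := ((N' : ℝ) + 3) / (2 * cf ε) with hc
  have hK : 0 ≤ |1 / c| + |1 - ε| + 1 := by positivity
  refine ⟨⟨|1 / c| + |1 - ε| + 1, hK⟩, LipschitzWith.of_dist_le_mul fun x y => ?_⟩
  have hd : 0 ≤ dist x y := dist_nonneg
  have hi : ∀ i, |x i - y i| ≤ dist x y := fun i => by
    rw [← Real.dist_eq]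
    exact dist_le_pi_dist x y i
  have h1 : 0 ≤ |1 / c| := abs_nonneg _
  have h2 : 0 ≤ |1 - ε| := abs_nonneg _
  show dist (fri ε N' x) (fri ε N' y) ≤ (|1 / c| + |1 - ε| + 1) * dist x y
  rw [dist_pi_le_iff (mul_nonneg hK hd)]
  intro i
  rw [Real.dist_eq]
  fin_cases i
  · show |x 2 - y 2| ≤ _
    have h4 := hi 2
    nlinarith [mul_nonneg h1 hd, mul_nonneg h2 hd]
  · show |(x 0 - (N' + 1) / 2) / c - (y 0 - (N' + 1) / 2) / c| ≤ _
    have h3 : (x 0 - ((N' : ℝ) + 1) / 2) / c - (y 0 - (N' + 1) / 2) / c = (1 / c) * (x 0 - y 0) := by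
      ring
    rw [h3, abs_mul]
    have h4 := mul_le_mul_of_nonneg_left (hi 0) h1
    nlinarith [mul_nonneg h2 hd]
  · show |(1 - ε) * x 1 - (1 - ε) * y 1| ≤ _
    have h3 : (1 - ε) * x 1 - (1 - ε) * y 1 = (1 - ε) * (x 1 - y 1) := by ring
    rw [h3, abs_mul]
    have h4 := mul_le_mul_of_nonneg_left (hi 1) h2
    nlinarith [mul_nonneg h1 hd]

theorem FF_spec (ε ε' : ℝ) (h0 : 0 < ε) (h1 : ε ≤ 1 / 4) (h0' : 0 < ε') (h1' : ε' ≤ 1 / 4) (N N' : ℕ) :
    (∀ x, mkH (fun x => fri ε N' (fold ε' N' (Lam N) (fr ε N' x))) x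
      = fri ε N' (fold ε' N' (Lam N) (fr ε N' x))) ∧
    (∀ x, (mkH (fun x => fri ε N' (fold ε' N' (Lam N) (fr ε N' x)))).symm x
      = fri ε N' ((fold ε' N' (Lam N)).symm (fr ε N' x))) ∧
    (∃ K : ℝ≥0, LipschitzWith K (mkH (fun x => fri ε N' (fold ε' N' (Lam N) (fr ε N' x)))) ∧
      LipschitzWith K (mkH (fun x => fri ε N' (fold ε' N' (Lam N) (fr ε N' x)))).symm) := by
  obtain ⟨K1, hK1⟩ := ffs_fr_lip ε N'
  obtain ⟨K2, hK2⟩ := ffs_fri_lip ε N'
  obtain ⟨K3, hK3⟩ := fold_lip ε' h0' h1'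
  obtain ⟨hf1, hf2⟩ := hK3 N' (Lam N) (Lam_amp N)
  have hex : ∃ G : E ≃ₜ E, ∀ x, G x = fri ε N' (fold ε' N' (Lam N) (fr ε N' x)) := by
    refine ⟨{ toFun := fun x => fri ε N' (fold ε' N' (Lam N) (fr ε N' x))
              invFun := fun x => fri ε N' ((fold ε' N' (Lam N)).symm (fr ε N' x))
              left_inv := ?_
              right_inv := ?_
              continuous_toFun := ?_
              continuous_invFun := ?_ }, fun x => rfl⟩
    · intro x
      show fri ε N' ((fold ε' N' (Lam N)).symm (fr ε N' (fri ε N' (fold ε' N' (Lam N)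
        (fr ε N' x))))) = x
      rw [(fr_fri ε h0 h1 N' _).1, Homeomorph.symm_apply_apply, (fr_fri ε h0 h1 N' _).2]
    · intro x
      show fri ε N' (fold ε' N' (Lam N) (fr ε N' (fri ε N' ((fold ε' N' (Lam N)).symm
        (fr ε N' x))))) = x
      rw [(fr_fri ε h0 h1 N' _).1, Homeomorph.apply_symm_apply, (fr_fri ε h0 h1 N' _).2]
    · exact hK2.continuous.comp ((fold ε' N' (Lam N)).continuous.comp hK1.continuous)
    · exact hK2.continuous.comp ((fold ε' N' (Lam N)).symm.continuous.comp hK1.continuous)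
  have hA : ∀ x, mkH (fun x => fri ε N' (fold ε' N' (Lam N) (fr ε N' x))) x
      = fri ε N' (fold ε' N' (Lam N) (fr ε N' x)) := by
    intro x
    unfold mkH
    rw [dif_pos hex]
    exact hex.choose_spec x
  have hB : ∀ x, (mkH (fun x => fri ε N' (fold ε' N' (Lam N) (fr ε N' x)))).symm x
      = fri ε N' ((fold ε' N' (Lam N)).symm (fr ε N' x)) := by
    intro x
    rw [Homeomorph.symm_apply_eq, hA, (fr_fri ε h0 h1 N' _).1, Homeomorph.apply_symm_apply,
      (fr_fri ε h0 h1 N' _).2]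
  refine ⟨hA, hB, K2 * (K3 * K1), ?_, ?_⟩
  · have h := hK2.comp (hf1.comp hK1)
    have he : (mkH (fun x => fri ε N' (fold ε' N' (Lam N) (fr ε N' x))) : E → E) =
        fri ε N' ∘ (fold ε' N' (Lam N)) ∘ fr ε N' := funext hA
    rw [he]
    exact h
  · have h := hK2.comp (hf2.comp hK1)
    have he : ((mkH (fun x => fri ε N' (fold ε' N' (Lam N) (fr ε N' x)))).symm : E → E) =
        fri ε N' ∘ (fold ε' N' (Lam N)).symm ∘ fr ε N' := funext hB
    rw [he]
    exact h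

end J27848

alias FF_spec := J27848.FF_spec

end Pool.Agent.ZZ
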