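import Pool.Agent.ZZ.Defs3
import Pool.Agent.ZZ.T22
import Pool.Agent.ZZ.T23
import Pool.Agent.ZZ.T14

/-! job 27852, proof by helper450 -/

set_option autoImplicit false
open Set Filter Topology MeasureTheory
open scoped NNReal

namespace Pool.Agent.ZZ

namespace J27852
theorem q_int_aux (i : Fin 3) (c R : ℝ) (S : Set E) (hS : ∀ y ∈ S, |y i - c| ≤ R) (x : E)
    (hx : x ∈ interior S) : |x i - c| < R := by
  rw [mem_interior_iff_mem_nhds, Metric.mem_nhds_iff] at hx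
  obtain ⟨r, hr, hb⟩ := hx
  have key : ∀ t : ℝ, |t| < r → |x i + t - c| ≤ R := by
    intro t ht
    have hm : Function.update x i (x i + t) ∈ Metric.ball x r := by
      rw [Metric.mem_ball, dist_pi_lt_iff hr]
      intro j
      by_cases hj : j = i
      · subst hj
        simp [Real.dist_eq, ht]
      · simp [Function.update_of_ne hj, hr]
    have := hS _ (hb hm)
    simpa using this
  have h1 := key (r / 2) (by rw [abs_of_pos (by linarith)]; linarith)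
  have h2 := key (-(r / 2)) (by rw [abs_neg, abs_of_pos (by linarith)]; linarith)
  rw [abs_le] at h1 h2
  rw [abs_lt]
  constructor <;> linarith [h1.1, h1.2, h2.1, h2.2]

theorem q_int_CB (ε : ℝ) (k : ℕ) (x : E) (hx : x ∈ interior (CB ε k)) :
    |x 0 - k| < fh ε ∧ |x 1| < cf ε ∧ |x 2| < 1 - ε := by
  refine ⟨q_int_aux 0 k (fh ε) _ (fun y hy => hy.1) x hx, ?_, ?_⟩
  · have := q_int_aux 1 0 (cf ε) _ (fun y hy => by simpa using hy.2.1) x hx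
    simpa using this
  · have := q_int_aux 2 0 (1 - ε) _ (fun y hy => by simpa using hy.2.2) x hx
    simpa using this

theorem q_wd (ε : ℝ) (h0 : 0 < ε) (h1 : ε ≤ 1 / 4) : 0 < wd ε ∧ wd ε ≤ 1 ∧ 0 < cf ε ∧ 0 < fh ε ∧ fh ε < 1 / 2 := by
  unfold wd cf fh wd
  refine ⟨by linarith, by linarith, by linarith, by linarith, by linarith⟩

theorem q_M0_PB (ε : ℝ) (h0 : 0 < ε) (h1 : ε ≤ 1 / 4) (N : ℕ) (v : E) : M0 ε v ∈ PB N ↔ v ∈ PB N := by
  rw [M0_apply ε h0 h1]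
  have := (Zf_le ε (1 / 2) (v 2) h0 h1 (by norm_num) le_rfl).2
  simp only [PB, mem_setOf_eq, Matrix.cons_val_zero, Matrix.cons_val_one, Matrix.cons_val]
  rw [this]

theorem q_MM_PB (ε ε' : ℝ) (h0 : 0 < ε) (h1 : ε ≤ 1 / 4) (h0' : 0 < ε') (h1' : ε' ≤ 1 / 4) (N : ℕ) (v : E) :
    MM ε ε' N v ∈ PB N ↔ v ∈ PB N := by
  rw [MM_apply ε ε' h0 h1 h0' h1']
  obtain ⟨hw, hw1, -, -, -⟩ := q_wd ε h0 h1
  have hef := ef_mem ε h0 h1 N (v 0) (phS ε ε' N v)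
  have := (Zf_le ε (ef ε N (v 0) (phS ε ε' N v)) (v 2) h0 h1 (by linarith [hef.1]) hef.2).2
  simp only [PB, mem_setOf_eq, Matrix.cons_val_zero, Matrix.cons_val_one, Matrix.cons_val]
  rw [this]
  have hS : |phS ε ε' N v| ≤ 1 ↔ |v 1| ≤ 1 := by
    rcases le_total (wd ε) |v 1| with h | h
    · rw [phS_out ε ε' h0 h1 N v h]
    · have := (phS_in ε ε' h0 h1 h0' h1' N v h).1
      constructor
      · intro _; linarith
      · intro _; linarith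
  rw [hS]

theorem q_Lam_one (N k : ℕ) (hk : Ad N k) (t : ℝ) (ht : |t - k| ≤ 1 / 2) : Lam N t = 1 := by
  obtain ⟨hk1, hk2⟩ := hk
  have h1 : (2 : ℝ) ≤ k := by exact_mod_cast hk1
  have h2 : (k : ℝ) + 1 ≤ N := by exact_mod_cast hk2
  rw [abs_le] at ht
  unfold Lam
  have : (1 : ℝ) ≤ min (t - 1 / 2) (N + 1 / 2 - t) := le_min (by linarith [ht.1]) (by linarith [ht.2])
  rw [min_eq_left this]
  norm_num

theorem q_Lam_zero (N : ℕ) (t : ℝ) (ht : t ≤ 1 / 2 ∨ (N : ℝ) + 1 / 2 ≤ t) : Lam N t = 0 := by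
  unfold Lam
  have : min (t - 1 / 2) (N + 1 / 2 - t) ≤ (0 : ℝ) := by
    rcases ht with h | h
    · exact (min_le_left _ _).trans (by linarith)
    · exact (min_le_right _ _).trans (by linarith)
  have h2 : min (1 : ℝ) (min (t - 1 / 2) (N + 1 / 2 - t)) ≤ 0 := (min_le_right _ _).trans this
  exact max_eq_left h2

/-- fold in the parent frame versus in the child frame -/
theorem q_conj (ε ε' : ℝ) (h0 : 0 < ε) (h1 : ε ≤ 1 / 4) (h0' : 0 < ε') (h1' : ε' ≤ 1 / 4) (N N' k : ℕ)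
    (hk : Ad N k) (w : E) (hw : |w 2| ≤ 1) :
    fri ε N' (fold ε' N' (Lam N) (fr ε N' (Aki ε N' k w))) = Aki ε N' k (fold ε' N' 1 w) ∧
    fri ε N' ((fold ε' N' (Lam N)).symm (fr ε N' (Aki ε N' k w))) = Aki ε N' k ((fold ε' N' 1).symm w) := by
  obtain ⟨-, -, -, hf, hf2⟩ := q_wd ε h0 h1
  have hA := (Ak_Aki ε h0 h1 N' k w).1
  have e0 : (fr ε N' (Aki ε N' k w)) 0 = w 0 := congrFun hA 0
  have e1 : (fr ε N' (Aki ε N' k w)) 1 = w 1 := congrFun hA 1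
  have e2 : (fr ε N' (Aki ε N' k w)) 2 = fh ε * w 2 + k := rfl
  have hL : Lam N ((fr ε N' (Aki ε N' k w)) 2) = (1 : ℝ → ℝ) (w 2) := by
    rw [e2, q_Lam_one N k hk]
    · rfl
    · rw [add_sub_cancel_right, abs_mul, abs_of_pos hf]
      nlinarith [abs_nonneg (w 2)]
  obtain ⟨c1, c2, c3, c4⟩ := fold_congr ε' h0' h1' N' (Lam N) 1 (Lam_amp N) one_amp
    (fr ε N' (Aki ε N' k w)) w hL e0 e1
  have t1 := fold_two ε' h0' h1' N' (Lam N) (Lam_amp N) (fr ε N' (Aki ε N' k w))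
  have t2 := fold_two ε' h0' h1' N' 1 one_amp w
  constructor
  · funext i
    fin_cases i
    · show (fold ε' N' (Lam N) (fr ε N' (Aki ε N' k w))) 2 = fh ε * (fold ε' N' 1 w) 2 + k
      rw [t1.1, t2.1, e2]
    · show ((fold ε' N' (Lam N) (fr ε N' (Aki ε N' k w))) 0 - (N' + 1) / 2) / ((N' + 3) / (2 * cf ε)) =
        ((fold ε' N' 1 w) 0 - (N' + 1) / 2) / ((N' + 3) / (2 * cf ε))
      rw [c1]
    · show (1 - ε) * (fold ε' N' (Lam N) (fr ε N' (Aki ε N' k w))) 1 = (1 - ε) * (fold ε' N' 1 w) 1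
      rw [c2]
  · funext i
    fin_cases i
    · show ((fold ε' N' (Lam N)).symm (fr ε N' (Aki ε N' k w))) 2 = fh ε * ((fold ε' N' 1).symm w) 2 + k
      rw [t1.2, t2.2, e2]
    · show (((fold ε' N' (Lam N)).symm (fr ε N' (Aki ε N' k w))) 0 - (N' + 1) / 2) / ((N' + 3) / (2 * cf ε)) =
        (((fold ε' N' 1).symm w) 0 - (N' + 1) / 2) / ((N' + 3) / (2 * cf ε))
      rw [c3]
    · show (1 - ε) * ((fold ε' N' (Lam N)).symm (fr ε N' (Aki ε N' k w))) 1 = (1 - ε) * ((fold ε' N' 1).symm w) 1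
      rw [c4]

theorem QQ_lip (ε ε' ε'' : ℝ) (h0 : 0 < ε) (h1 : ε ≤ 1 / 4) (h0' : 0 < ε') (h1' : ε' ≤ 1 / 4)
    (h0'' : 0 < ε'') (h1'' : ε'' ≤ 1 / 4) (N N' : ℕ) : ∃ K : ℝ≥0,
    LipschitzWith K (QQ ε ε' ε'' N N') ∧ LipschitzWith K (QQ ε ε' ε'' N N').symm := by
  obtain ⟨K1, a1, a2⟩ := (RR_spec ε ε' ε'' h0 h1 h0' h1' h0'' h1'' N N').2.1
  obtain ⟨K2, b1, b2⟩ := (FF_spec ε ε' h0 h1 h0' h1' N N').2.2
  refine ⟨K1 * K2, ?_, ?_⟩
  · have := b1.comp a1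
    rw [mul_comm] at this
    exact this
  · exact a2.comp b2
/-- `QQ` is the identity off the slab -/
theorem QQ_out (ε ε' ε'' : ℝ) (h0 : 0 < ε) (h1 : ε ≤ 1 / 4) (h0' : 0 < ε') (h1' : ε' ≤ 1 / 4)
    (h0'' : 0 < ε'') (h1'' : ε'' ≤ 1 / 4) (N N' : ℕ) (x : E)
    (hx : x 0 ≤ 1 / 2 ∨ (N : ℝ) + 1 / 2 ≤ x 0 ∨ cf ε ≤ |x 1| ∨ 1 - ε ≤ |x 2|) :
    QQ ε ε' ε'' N N' x = x ∧ (QQ ε ε' ε'' N N').symm x = x := by
  obtain ⟨-, -, hc, hf, hf2⟩ := q_wd ε h0 h1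
  have hni : ∀ k, Ad N k → x ∈ CB ε k → x ∉ interior (CB ε k) := by
    intro k hk _ hint
    obtain ⟨i1, i2, i3⟩ := q_int_CB ε k x hint
    obtain ⟨hk1, hk2⟩ := hk
    have g1 : (2 : ℝ) ≤ k := by exact_mod_cast hk1
    have g2 : (k : ℝ) + 1 ≤ N := by exact_mod_cast hk2
    rw [abs_lt] at i1
    rcases hx with h | h | h | h
    · linarith [i1.1]
    · linarith [i1.2]
    · linarith
    · linarith
  have hRR := (RR_spec ε ε' ε'' h0 h1 h0' h1' h0'' h1'' N N').2.2.2 x hni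
  obtain ⟨f1, f2, -⟩ := FF_spec ε ε' h0 h1 h0' h1' N N'
  have hcond : (fr ε N' x) 0 ≤ 0 ∨ (N' : ℝ) + 1 ≤ (fr ε N' x) 0 ∨ 1 ≤ |(fr ε N' x) 1| ∨
      Lam N ((fr ε N' x) 2) = 0 := by
    rcases hx with h | h | h | h
    · right; right; right
      exact q_Lam_zero N _ (Or.inl h)
    · right; right; right
      exact q_Lam_zero N _ (Or.inr h)
    · have hN' : (0 : ℝ) ≤ N' := Nat.cast_nonneg _
      have e : (fr ε N' x) 0 = x 1 * ((N' + 3) / (2 * cf ε)) + (N' + 1) / 2 := rfl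
      have hs : cf ε * ((N' + 3) / (2 * cf ε)) = ((N' : ℝ) + 3) / 2 := by
        field_simp
      have hpos : (0 : ℝ) < (N' + 3) / (2 * cf ε) := by positivity
      rcases le_abs.1 h with h' | h'
      · right; left
        rw [e]
        nlinarith [mul_le_mul_of_nonneg_right h' hpos.le]
      · left
        rw [e]
        nlinarith [mul_le_mul_of_nonneg_right h' hpos.le]
    · right; right; left
      have e : (fr ε N' x) 1 = x 2 / (1 - ε) := rfl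
      have hp : (0 : ℝ) < 1 - ε := by linarith
      rw [e, abs_div, abs_of_pos hp, le_div_iff₀ hp]
      linarith
  have hF := fold_out ε' h0' h1' N' (Lam N) (Lam_amp N) (fr ε N' x) hcond
  have hfri := (fr_fri ε h0 h1 N' x).2
  constructor
  · show mkH (fun x => fri ε N' (fold ε' N' (Lam N) (fr ε N' x))) (mkH (RRf ε ε' ε'' N N') x) = x
    rw [hRR.1, f1, hF.1, hfri]
  · show (mkH (RRf ε ε' ε'' N N')).symm
      ((mkH (fun x => fri ε N' (fold ε' N' (Lam N) (fr ε N' x)))).symm x) = x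
    rw [f2, hF.2, hfri, hRR.2]
/-- off the (open) child columns only the extended fold acts -/
theorem QQ_gap (ε ε' ε'' : ℝ) (h0 : 0 < ε) (h1 : ε ≤ 1 / 4) (h0' : 0 < ε') (h1' : ε' ≤ 1 / 4)
    (h0'' : 0 < ε'') (h1'' : ε'' ≤ 1 / 4) (N N' : ℕ) (x : E)
    (hx : ∀ k, Ad N k → fh ε ≤ |x 0 - k|) :
    QQ ε ε' ε'' N N' x = fri ε N' (fold ε' N' (Lam N) (fr ε N' x)) ∧
    (QQ ε ε' ε'' N N').symm x = fri ε N' ((fold ε' N' (Lam N)).symm (fr ε N' x)) := by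
  have hni : ∀ y : E, y 0 = x 0 → ∀ k, Ad N k → y ∈ CB ε k → y ∉ interior (CB ε k) := by
    intro y hy k hk _ hint
    obtain ⟨i1, i2, i3⟩ := q_int_CB ε k y hint
    rw [hy] at i1
    linarith [hx k hk]
  obtain ⟨f1, f2, -⟩ := FF_spec ε ε' h0 h1 h0' h1' N N'
  constructor
  · have hRR := (RR_spec ε ε' ε'' h0 h1 h0' h1' h0'' h1'' N N').2.2.2 x (hni x rfl)
    show mkH (fun x => fri ε N' (fold ε' N' (Lam N) (fr ε N' x))) (mkH (RRf ε ε' ε'' N N') x) = _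
    rw [hRR.1, f1]
  · have e : (fri ε N' ((fold ε' N' (Lam N)).symm (fr ε N' x))) 0 = x 0 :=
      (fold_two ε' h0' h1' N' (Lam N) (Lam_amp N) (fr ε N' x)).2
    have hRR := (RR_spec ε ε' ε'' h0 h1 h0' h1' h0'' h1'' N N').2.2.2 _ (hni _ e)
    show (mkH (RRf ε ε' ε'' N N')).symm
      ((mkH (fun x => fri ε N' (fold ε' N' (Lam N) (fr ε N' x)))).symm x) = _
    rw [f2]
    exact hRR.2
/-- on a child `QQ` is the copy of `Ph' ∘ M0'⁻¹` -/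
theorem QQ_child (ε ε' ε'' : ℝ) (h0 : 0 < ε) (h1 : ε ≤ 1 / 4) (h0' : 0 < ε') (h1' : ε' ≤ 1 / 4)
    (h0'' : 0 < ε'') (h1'' : ε'' ≤ 1 / 4) (N N' : ℕ) (k : ℕ) (hk : Ad N k) (x : E) (hx : x ∈ CB ε k) :
    QQ ε ε' ε'' N N' x = Aki ε N' k (Ph ε' ε'' N' ((M0 ε').symm (Ak ε N' k x))) ∧
    (QQ ε ε' ε'' N N').symm x = Aki ε N' k (M0 ε' ((Ph ε' ε'' N').symm (Ak ε N' k x))) ∧
    QQ ε ε' ε'' N N' x ∈ CB ε k ∧ (QQ ε ε' ε'' N N').symm x ∈ CB ε k := by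
  obtain ⟨f1, f2, -⟩ := FF_spec ε ε' h0 h1 h0' h1' N N'
  obtain ⟨-, -, r3, -⟩ := RR_spec ε ε' ε'' h0 h1 h0' h1' h0'' h1'' N N'
  have hAx : Ak ε N' k x ∈ PB N' := (Ak_mem ε h0 h1 N' k x).2 hx
  have hz : (M0 ε').symm (Ak ε N' k x) ∈ PB N' := by
    rw [← q_M0_PB ε' h0' h1', Homeomorph.apply_symm_apply]
    exact hAx
  have hPhz : Ph ε' ε'' N' ((M0 ε').symm (Ak ε N' k x)) ∈ PB N' :=
    (Ph_PB ε' ε'' h0' h1' h0'' h1'' N' _).2 hz
  have hMz : MM ε' ε'' N' ((M0 ε').symm (Ak ε N' k x)) ∈ PB N' :=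
    (q_MM_PB ε' ε'' h0' h1' h0'' h1'' N' _).2 hz
  -- backwards
  have hv : (Ph ε' ε'' N').symm (Ak ε N' k x) ∈ PB N' := by
    rw [← Ph_PB ε' ε'' h0' h1' h0'' h1'', Homeomorph.apply_symm_apply]
    exact hAx
  have hMv : (fold ε' N' 1).symm (Ak ε N' k x) ∈ PB N' := by
    have := (q_MM_PB ε' ε'' h0' h1' h0'' h1'' N' _).2 hv
    have e : MM ε' ε'' N' ((Ph ε' ε'' N').symm (Ak ε N' k x)) = (fold ε' N' 1).symm (Ak ε N' k x) := by
      show MM ε' ε'' N' ((MM ε' ε'' N').symm ((fold ε' N' 1).symm (Ak ε N' k x))) = _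
      rw [Homeomorph.apply_symm_apply]
    rwa [e] at this
  have hM0v : M0 ε' ((Ph ε' ε'' N').symm (Ak ε N' k x)) ∈ PB N' := (q_M0_PB ε' h0' h1' N' _).2 hv
  have E1 : QQ ε ε' ε'' N N' x = Aki ε N' k (Ph ε' ε'' N' ((M0 ε').symm (Ak ε N' k x))) := by
    show mkH (fun x => fri ε N' (fold ε' N' (Lam N) (fr ε N' x))) (mkH (RRf ε ε' ε'' N N') x) = _
    rw [(r3 k x hk hx).1, f1, (q_conj ε ε' h0 h1 h0' h1' N N' k hk _ hMz.2.2.2).1]
    rfl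
  have E2 : (QQ ε ε' ε'' N N').symm x = Aki ε N' k (M0 ε' ((Ph ε' ε'' N').symm (Ak ε N' k x))) := by
    show (mkH (RRf ε ε' ε'' N N')).symm
      ((mkH (fun x => fri ε N' (fold ε' N' (Lam N) (fr ε N' x)))).symm x) = _
    rw [f2]
    have hxx : x = Aki ε N' k (Ak ε N' k x) := ((Ak_Aki ε h0 h1 N' k x).2).symm
    have e := (q_conj ε ε' h0 h1 h0' h1' N N' k hk (Ak ε N' k x) hAx.2.2.2).2
    rw [← hxx] at e
    rw [e]
    have hmem : Aki ε N' k ((fold ε' N' 1).symm (Ak ε N' k x)) ∈ CB ε k := by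
      rw [← Ak_mem ε h0 h1 N' k, (Ak_Aki ε h0 h1 N' k _).1]
      exact hMv
    rw [(r3 k _ hk hmem).2, (Ak_Aki ε h0 h1 N' k _).1]
    rfl
  refine ⟨E1, E2, ?_, ?_⟩
  · rw [E1, ← Ak_mem ε h0 h1 N' k, (Ak_Aki ε h0 h1 N' k _).1]
    exact hPhz
  · rw [E2, ← Ak_mem ε h0 h1 N' k, (Ak_Aki ε h0 h1 N' k _).1]
    exact hM0v

/-! ## the refined map -/

end J27852

alias QQ_lip := J27852.QQ_lip
alias QQ_out := J27852.QQ_out
alias QQ_gap := J27852.QQ_gap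
alias QQ_child := J27852.QQ_child

end Pool.Agent.ZZ
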