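import Pool.Agent.ZZ.Defs3
import Pool.Agent.ZZ.T24
import Pool.Agent.ZZ.T16
import Pool.Agent.ZZ.T17
import Pool.Agent.ZZ.T18
import Pool.Agent.ZZ.T19
import Pool.Agent.ZZ.T20

/-! job 27920, proof by helper341 -/

set_option autoImplicit false
open Set Filter Topology MeasureTheory
open scoped NNReal

namespace Pool.Agent.ZZ

namespace J27920
theorem DD_child (ε ε' ε'' : ℝ) (h0 : 0 < ε) (h1 : ε ≤ 1 / 4) (h0' : 0 < ε') (h1' : ε' ≤ 1 / 4)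
    (h0'' : 0 < ε'') (h1'' : ε'' ≤ 1 / 4) (N N' : ℕ) (k : ℕ) (hk : Ad N k) (x : E) (hx : x ∈ CB ε k) :
    DD ε ε' ε'' N N' x = Aki ε N' k (GG ε' ε'' N' (Ak ε N' k x)) := by
  obtain ⟨-, h2, -, h4⟩ := QQ_child ε ε' ε'' h0 h1 h0' h1' h0'' h1'' N N' k hk x hx
  have hk1 : 1 ≤ k := by have := hk.1; omega
  have hkN : k ≤ N := by have := hk.2; omega
  have hG : GG ε ε' N ((QQ ε ε' ε'' N N').symm x) ∈ CB ε k := by
    have h5 := GG_CB ε ε' h0 h1 h0' h1' N k hk1 hkN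
    have h6 : (QQ ε ε' ε'' N N').symm x ∈ GG ε ε' N ⁻¹' CB ε k := by rw [h5]; exact h4
    exact h6
  have hGy := GG_child ε ε' h0 h1 h0' h1' N N' k hk1 hkN _ h4
  unfold DD
  rw [(QQ_child ε ε' ε'' h0 h1 h0' h1' h0'' h1'' N N' k hk _ hG).1, hGy,
    (Ak_Aki ε h0 h1 N' k _).1, h2, (Ak_Aki ε h0 h1 N' k _).1, GG_eq]
  unfold BB
  simp only [Homeomorph.symm_apply_apply]
theorem DD_out (ε ε' ε'' : ℝ) (h0 : 0 < ε) (h1 : ε ≤ 1 / 4) (h0' : 0 < ε') (h1' : ε' ≤ 1 / 4)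
    (h0'' : 0 < ε'') (h1'' : ε'' ≤ 1 / 4) (N N' : ℕ) (x : E) (hx : x ∉ interior (PB N)) :
    DD ε ε' ε'' N N' x = GG ε ε' N x := by
  have key : ∀ y : E, y ∉ interior (PB N) → QQ ε ε' ε'' N N' y = y ∧ (QQ ε ε' ε'' N N').symm y = y := by
    intro y hy
    apply QQ_out ε ε' ε'' h0 h1 h0' h1' h0'' h1''
    by_contra hcon
    push Not at hcon
    obtain ⟨c1, c2, c3, c4⟩ := hcon
    apply hy
    have hw : 0 < wd ε := by unfold wd; linarith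
    have hop : IsOpen {z : E | -1 < z 0 ∧ z 0 < N + 2 ∧ |z 1| < 1 ∧ |z 2| < 1} := by
      apply IsOpen.inter
      · exact isOpen_lt continuous_const (continuous_apply 0)
      apply IsOpen.inter
      · exact isOpen_lt (continuous_apply 0) continuous_const
      apply IsOpen.inter
      · exact isOpen_lt (continuous_abs.comp (continuous_apply 1)) continuous_const
      · exact isOpen_lt (continuous_abs.comp (continuous_apply 2)) continuous_const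
    have hsub : {z : E | -1 < z 0 ∧ z 0 < N + 2 ∧ |z 1| < 1 ∧ |z 2| < 1} ⊆ PB N := by
      intro z hz
      exact ⟨hz.1.le, hz.2.1.le, hz.2.2.1.le, hz.2.2.2.le⟩
    apply (hop.subset_interior_iff.2 hsub)
    refine ⟨by linarith, by linarith, ?_, by linarith⟩
    have : cf ε < 1 := by unfold cf; linarith
    linarith
  have hG : GG ε ε' N x ∉ interior (PB N) := by
    intro h
    apply hx
    rw [← (GG_PB ε ε' h0 h1 h0' h1' N).2]
    exact h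
  unfold DD
  rw [(key x hx).2, (key _ hG).1]
theorem DD_CB (ε ε' ε'' : ℝ) (h0 : 0 < ε) (h1 : ε ≤ 1 / 4) (h0' : 0 < ε') (h1' : ε' ≤ 1 / 4)
    (h0'' : 0 < ε'') (h1'' : ε'' ≤ 1 / 4) (N N' : ℕ) (k : ℕ) (hk : Ad N k) :
    DD ε ε' ε'' N N' ⁻¹' CB ε k = CB ε k := by
  have hk1 : 1 ≤ k := by have := hk.1; omega
  have hkN : k ≤ N := by have := hk.2; omega
  have h5 := GG_CB ε ε' h0 h1 h0' h1' N k hk1 hkN
  have hQ : ∀ y : E, QQ ε ε' ε'' N N' y ∈ CB ε k ↔ y ∈ CB ε k := by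
    intro y
    constructor
    · intro h
      have := (QQ_child ε ε' ε'' h0 h1 h0' h1' h0'' h1'' N N' k hk _ h).2.2.2
      rwa [Homeomorph.symm_apply_apply] at this
    · intro h
      exact (QQ_child ε ε' ε'' h0 h1 h0' h1' h0'' h1'' N N' k hk _ h).2.2.1
  have hG : ∀ y : E, GG ε ε' N y ∈ CB ε k ↔ y ∈ CB ε k := by
    intro y
    have : y ∈ GG ε ε' N ⁻¹' CB ε k ↔ y ∈ CB ε k := by rw [h5]
    exact this
  ext x
  show QQ ε ε' ε'' N N' (GG ε ε' N ((QQ ε ε' ε'' N N').symm x)) ∈ CB ε k ↔ _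
  rw [hQ, hG, ← hQ, Homeomorph.apply_symm_apply]
theorem DD_PB (ε ε' ε'' : ℝ) (h0 : 0 < ε) (h1 : ε ≤ 1 / 4) (h0' : 0 < ε') (h1' : ε' ≤ 1 / 4)
    (h0'' : 0 < ε'') (h1'' : ε'' ≤ 1 / 4) (N N' : ℕ) (x : E) (hx : x ∈ PB N) :
    DD ε ε' ε'' N N' x ∈ PB N := by
  have hw : 0 < wd ε := by unfold wd; linarith
  have hcf : cf ε < 1 := by unfold cf; linarith
  have hout : ∀ y : E, y ∉ PB N → QQ ε ε' ε'' N N' y = y ∧ (QQ ε ε' ε'' N N').symm y = y := by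
    intro y hy
    apply QQ_out ε ε' ε'' h0 h1 h0' h1' h0'' h1''
    by_contra hcon
    push Not at hcon
    obtain ⟨c1, c2, c3, c4⟩ := hcon
    apply hy
    exact ⟨by linarith, by linarith, by linarith, by linarith⟩
  have hQ : ∀ y : E, y ∈ PB N → QQ ε ε' ε'' N N' y ∈ PB N := by
    intro y hy
    by_contra hcon
    have h3 := (hout _ hcon).2
    rw [Homeomorph.symm_apply_apply] at h3
    rw [← h3] at hcon
    exact hcon hy
  have hQ' : ∀ y : E, y ∈ PB N → (QQ ε ε' ε'' N N').symm y ∈ PB N := by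
    intro y hy
    by_contra hcon
    have h3 := (hout _ hcon).1
    rw [Homeomorph.apply_symm_apply] at h3
    rw [← h3] at hcon
    exact hcon hy
  have hG : ∀ y : E, y ∈ PB N → GG ε ε' N y ∈ PB N := by
    intro y hy
    have h5 := (GG_PB ε ε' h0 h1 h0' h1' N).1
    have h6 : y ∈ GG ε ε' N ⁻¹' PB N := by rw [h5]; exact hy
    exact h6
  exact hQ _ (hG _ (hQ' _ hx))
theorem DD_lip (ε ε' ε'' : ℝ) (h0 : 0 < ε) (h1 : ε ≤ 1 / 4) (h0' : 0 < ε') (h1' : ε' ≤ 1 / 4)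
    (h0'' : 0 < ε'') (h1'' : ε'' ≤ 1 / 4) (N N' : ℕ) : ∃ K : ℝ≥0, LipschitzWith K (DD ε ε' ε'' N N') := by
  obtain ⟨K1, ha, hb⟩ := QQ_lip ε ε' ε'' h0 h1 h0' h1' h0'' h1'' N N'
  obtain ⟨K2, hG⟩ := GG_lip ε ε' h0 h1 h0' h1'
  exact ⟨K1 * (K2 * K1), ha.comp ((hG N).comp hb)⟩
/-- open set on which `DD` is a reflection -/
theorem DD_refl (ε ε' ε'' : ℝ) (h0 : 0 < ε) (h1 : ε ≤ 1 / 4) (h0' : 0 < ε') (h1' : ε' ≤ 1 / 4)
    (h0'' : 0 < ε'') (h1'' : ε'' ≤ 1 / 4) (N N' : ℕ) (hN : 1 ≤ N) (x : E) (ha : 1 / 2 ≤ x 0) (hb : x 0 ≤ 3 / 2)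
    (hy : 1 - 3 * wd ε ≤ |x 1|) (hz : |x 2| ≤ 1 - ε) : DD ε ε' ε'' N N' x = ![x 0, x 1, - x 2] := by
  have hw : 0 < wd ε := by unfold wd; linarith
  have hcf : cf ε ≤ |x 1| := by
    have : cf ε ≤ 1 - 3 * wd ε := by unfold cf; linarith
    linarith
  have e1 := (QQ_out ε ε' ε'' h0 h1 h0' h1' h0'' h1'' N N' x (Or.inr (Or.inr (Or.inl hcf)))).2
  have hN' : (1 : ℝ) ≤ N := by exact_mod_cast hN
  have e2 := GG_refl ε ε' h0 h1 h0' h1' N x ha (by linarith) hy hz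
  have e3 := (QQ_out ε ε' ε'' h0 h1 h0' h1' h0'' h1'' N N' ![x 0, x 1, - x 2]
    (Or.inr (Or.inr (Or.inl (by simpa using hcf))))).1
  unfold DD
  rw [e1, e2, e3]

end J27920

alias DD_child := J27920.DD_child
alias DD_out := J27920.DD_out
alias DD_CB := J27920.DD_CB
alias DD_PB := J27920.DD_PB
alias DD_lip := J27920.DD_lip
alias DD_refl := J27920.DD_refl

end Pool.Agent.ZZ
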