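import Pool.Agent.ZZ.T29
import Pool.Agent.ZZ.T25
import Pool.Agent.ZZ.PartA
import Pool.Agent.ZZ.PartB
import Pool.Agent.ZZ.PartB2
import Pool.Agent.ZZ.PartE

set_option autoImplicit false
open Set Filter Topology MeasureTheory
open scoped NNReal

namespace Pool.Agent.ZZ

theorem final :
    ∃ (n : ℕ) (p : ℝ) (Ω : Set (Fin n → ℝ)) (f : (Fin n → ℝ) → (Fin n → ℝ))
      (g : (Fin n → ℝ) → Matrix (Fin n) (Fin n) ℝ),
      3 ≤ n ∧
      ((((n / 2 : ℕ) : ℝ) < p ∧ p ≤ (n : ℝ) - 1) ∨ (n = 3 ∧ 1 ≤ p ∧ p ≤ 2)) ∧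
      IsOpen Ω ∧ IsConnected Ω ∧
      ContinuousOn f Ω ∧
      (∀ U : Set (Fin n → ℝ), IsOpen U → U ⊆ Ω → IsOpen (f '' U)) ∧
      (∀ (y x : Fin n → ℝ), x ∈ Ω → ∀ᶠ z in 𝓝[≠] x, f z ≠ y) ∧
      MemLp f (ENNReal.ofReal p) (volume.restrict Ω) ∧
      (∀ i j : Fin n, MemLp (fun x => g x i j) (ENNReal.ofReal p) (volume.restrict Ω)) ∧
      (∀ (i j : Fin n) (φ : (Fin n → ℝ) → ℝ),
        ContDiff ℝ ((⊤ : ℕ∞) : WithTop ℕ∞) φ → HasCompactSupport φ → tsupport φ ⊆ Ω →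
        ∫ x in Ω, f x i * (fderiv ℝ φ x) (Pi.single j (1 : ℝ)) =
          -∫ x in Ω, g x i j * φ x) ∧
      0 < volume {x | x ∈ Ω ∧ 0 < (g x).det} ∧
      0 < volume {x | x ∈ Ω ∧ (g x).det < 0} := by
  obtain ⟨ε, h0, h1, hsum⟩ : ∃ ε : ℕ → ℝ, (∀ s, 0 < ε s) ∧ (∀ s, ε s ≤ 1 / 4) ∧ Summable ε := by
    refine ⟨fun s => 1 / 4 * (1 / 2) ^ s, fun s => by positivity, fun s => ?_,
      summable_geometric_two.mul_left (1 / 4)⟩
    have : ((1 : ℝ) / 2) ^ s ≤ 1 := pow_le_one₀ (by norm_num) (by norm_num)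
    show (1 : ℝ) / 4 * (1 / 2) ^ s ≤ 1 / 4
    linarith
  choose C hC1 hC using fun s : ℕ =>
    DD_StageE (ε s) (ε (s + 1)) (ε (s + 2)) (h0 s) (h1 s) (h0 _) (h1 _) (h0 _) (h1 _)
  obtain ⟨N, hN8, hN4, hE⟩ := partE ε h0 h1 hsum C hC1
  choose L hL1 hL using fun s : ℕ => hC s (N s) (N (s + 1)) (hN4 s) (hN4 (s + 1))
  have hT := DD_StageT ε N h0 h1 hN4
  obtain ⟨U, hU⟩ := partB ε N _ _ hT
  obtain ⟨ρ, hρ, hen⟩ := hE (fun s => DD (ε s) (ε (s + 1)) (ε (s + 2)) (N s) (N (s + 1))) L hL1 hL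
    (fun s x hx => DD_PB (ε s) (ε (s + 1)) (ε (s + 2)) (h0 s) (h1 s) (h0 _) (h1 _) (h0 _) (h1 _)
      (N s) (N (s + 1)) x hx) U (fun s => (hU s).1) (fun s => (hU s).2.2.2.2.2.2)
      (fun s => (hU s).2.2.2.1) (fun s => (hU s).2.2.2.2.1)
  obtain ⟨hUc, hUo, hUd, hUD, hUC, hUK, hUl⟩ := hU 0
  set α : Fin 3 → ℝ := ![-1, -1, -1] with hα
  set β : Fin 3 → ℝ := ![(N 0 : ℝ) + 2, 1, 1] with hβ
  have hKsub := KK_sub ε N hN4 h0 h1 0
  have hKB : KK ε N 0 ⊆ Set.pi univ (fun i => Ioo (α i) (β i)) := by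
    intro x hx i _
    obtain ⟨a, b, c, d⟩ := hKsub hx
    have c' := abs_lt.1 c
    have d' := abs_lt.1 d
    fin_cases i
    · exact ⟨a, b⟩
    · exact ⟨c'.1, c'.2⟩
    · exact ⟨d'.1, d'.2⟩
  have hw : 0 < wd (ε 0) := by
    have := h0 0
    unfold wd; linarith
  have hw2 : wd (ε 0) ≤ 1 / 256 := by
    have := h1 0
    unfold wd; linarith
  have hcf : cf (ε 0) = 1 - 32 * wd (ε 0) := rfl
  have hN0 : (4 : ℝ) ≤ N 0 := by exact_mod_cast hN4 0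
  set V : Set E := {x | 1 / 2 < x 0 ∧ x 0 < 3 / 2 ∧ 1 - 3 * wd (ε 0) < x 1 ∧ x 1 < 1 ∧
    |x 2| < 1 / 2} with hVdef
  have hVopen : IsOpen V := by
    simp only [hVdef, Set.ofPred_and]
    refine (isOpen_lt continuous_const (continuous_apply 0)).inter
      ((isOpen_lt (continuous_apply 0) continuous_const).inter
      ((isOpen_lt continuous_const (continuous_apply 1)).inter
      ((isOpen_lt (continuous_apply 1) continuous_const).inter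
      (isOpen_lt (continuous_apply 2).abs continuous_const))))
  have hVnot : ∀ x ∈ V, ∀ k, Ad (N 0) k → x ∉ CB (ε 0) k := by
    intro x hx k _ hc
    obtain ⟨_, _, h3, _, _⟩ := hx
    have h5 := hc.2.1
    have := le_abs_self (x 1)
    rw [hcf] at h5
    linarith
  have hVdis : Disjoint V (KK ε N 0) := by
    rw [Set.disjoint_left]
    intro x hx hk
    have h2 : x ∈ Cset ε N 0 1 := Set.mem_iInter.1 hk 1
    obtain ⟨k, hk1, hk2, _⟩ := h2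
    exact hVnot x hx k hk1 hk2
  refine partA ρ hρ (U 0) hUc hUo hUd (KK ε N 0) (KK_compact ε N hN4 h0 h1 0) hUK
    (KK_pos ε N h0 h1 hsum hN8) hUl α β _ rfl hKB V hVopen
    ⟨![1, 1 - wd (ε 0), 0], by show (1 : ℝ) / 2 < 1; norm_num, by show (1 : ℝ) < 3 / 2; norm_num, ?_, ?_, by show |(0 : ℝ)| < 1 / 2; norm_num⟩ ?_ hVdis ?_ ?_
  · show 1 - 3 * wd (ε 0) < 1 - wd (ε 0)
    linarith
  · show 1 - wd (ε 0) < 1
    linarith
  · intro x hx i _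
    obtain ⟨a, b, c, d, e⟩ := hx
    have e' := abs_lt.1 e
    fin_cases i
    · exact ⟨by show (-1 : ℝ) < x 0; linarith, by show x 0 < (N 0 : ℝ) + 2; linarith⟩
    · exact ⟨by show (-1 : ℝ) < x 1; linarith, d⟩
    · exact ⟨by show (-1 : ℝ) < x 2; linarith, by show x 2 < 1; linarith⟩
  · intro x hx
    obtain ⟨a, b, c, d, e⟩ := hx
    rw [hUD x (hVnot x ⟨a, b, c, d, e⟩)]
    have hab : |x 1| = x 1 := abs_of_pos (by linarith)
    exact DD_refl (ε 0) (ε 1) (ε 2) (h0 0) (h1 0) (h0 _) (h1 _) (h0 _) (h1 _) (N 0) (N 1)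
      (by have := hN4 0; omega) x a.le b.le (by rw [hab]; exact c.le)
      (by have := h1 0; linarith)
  · intro i j
    refine lt_of_le_of_lt (lintegral_mono_set ?_) (hen i j)
    intro x hx
    refine ⟨?_, hx.2⟩
    have h3 := hx.1
    have e0 := h3 0 (mem_univ _)
    have e1 := h3 1 (mem_univ _)
    have e2 := h3 2 (mem_univ _)
    exact ⟨e0.1.le, e0.2.le, abs_le.2 ⟨e1.1.le, e1.2.le⟩, abs_le.2 ⟨e2.1.le, e2.2.le⟩⟩

end Pool.Agent.ZZ
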