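import Mathlib
import Pool.Agent.ZZ.Defs2
import Pool.Agent.Helper15.Jac.Topo

set_option autoImplicit false
open Set Filter Topology MeasureTheory
open scoped NNReal

namespace Pool.Agent.ZZ

/-! ## values of `qq` on the closed first quadrant -/

theorem qq_A {y z : ℝ} (hz : 0 ≤ z) (h : z ≤ y / 2) : qq y z = y ∧ qq z y = -z := by
  unfold qq
  constructor
  · rw [min_eq_left (by linarith : y ≤ 7 * y - 8 * z)]
    exact max_eq_left ((min_le_left _ _).trans (by linarith))
  · rw [min_eq_right (by linarith : 7 * z - 8 * y ≤ z),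
      max_eq_right (by linarith : -y ≤ y / 2 - 2 * z),
      min_eq_left (by linarith : -z ≤ y / 2 - 2 * z)]
    exact max_eq_right (by linarith)

theorem qq_B {y z : ℝ} (hy : 0 ≤ y) (h : y / 2 ≤ z) (h' : z ≤ 3 * y / 4) :
    qq y z = y ∧ qq z y = y / 2 - 2 * z := by
  unfold qq
  constructor
  · rw [min_eq_left (by linarith : y ≤ 7 * y - 8 * z)]
    exact max_eq_left ((min_le_left _ _).trans (by linarith))
  · rw [min_eq_right (by linarith : 7 * z - 8 * y ≤ z),
      max_eq_right (by linarith : -y ≤ y / 2 - 2 * z),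
      min_eq_right (by linarith : y / 2 - 2 * z ≤ -z)]
    exact max_eq_right (by linarith)

theorem qq_C {y z : ℝ} (hy : 0 ≤ y) (h : 3 * y / 4 ≤ z) (h' : z ≤ y) :
    qq y z = 7 * y - 8 * z ∧ qq z y = -y := by
  unfold qq
  constructor
  · rw [min_eq_right (by linarith : 7 * y - 8 * z ≤ y)]
    exact max_eq_left ((min_le_left _ _).trans (by linarith))
  · rw [min_eq_right (by linarith : 7 * z - 8 * y ≤ z),
      max_eq_left (by linarith : y / 2 - 2 * z ≤ -y),
      min_eq_right (by linarith : -y ≤ -z)]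
    exact max_eq_right (by linarith)

/-- the six sectors of the closed first quadrant -/
theorem qq_cases {y z : ℝ} (hy : 0 ≤ y) (hz : 0 ≤ z) :
    (z ≤ y / 2 ∧ qq y z = y ∧ qq z y = -z) ∨
    (y / 2 ≤ z ∧ z ≤ 3 * y / 4 ∧ qq y z = y ∧ qq z y = y / 2 - 2 * z) ∨
    (3 * y / 4 ≤ z ∧ z ≤ y ∧ qq y z = 7 * y - 8 * z ∧ qq z y = -y) ∨
    (y ≤ z / 2 ∧ qq z y = z ∧ qq y z = -y) ∨
    (z / 2 ≤ y ∧ y ≤ 3 * z / 4 ∧ qq z y = z ∧ qq y z = z / 2 - 2 * y) ∨
    (3 * z / 4 ≤ y ∧ y ≤ z ∧ qq z y = 7 * z - 8 * y ∧ qq y z = -z) := by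
  rcases le_total z y with h | h
  · rcases le_total z (y / 2) with h1 | h1
    · exact Or.inl ⟨h1, qq_A hz h1⟩
    · rcases le_total z (3 * y / 4) with h2 | h2
      · exact Or.inr (Or.inl ⟨h1, h2, qq_B hy h1 h2⟩)
      · exact Or.inr (Or.inr (Or.inl ⟨h2, h, qq_C hy h2 h⟩))
  · rcases le_total y (z / 2) with h1 | h1
    · exact Or.inr (Or.inr (Or.inr (Or.inl ⟨h1, qq_A hy h1⟩)))
    · rcases le_total y (3 * z / 4) with h2 | h2
      · exact Or.inr (Or.inr (Or.inr (Or.inr (Or.inl ⟨h1, h2, qq_B hz h1 h2⟩))))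
      · exact Or.inr (Or.inr (Or.inr (Or.inr (Or.inr ⟨h2, h, qq_C hz h2 h⟩))))

theorem qq_inj {y z y' z' : ℝ} (hy : 0 ≤ y) (hz : 0 ≤ z) (hy' : 0 ≤ y') (hz' : 0 ≤ z')
    (h1 : qq y z = qq y' z') (h2 : qq z y = qq z' y') : y = y' ∧ z = z' := by
  rcases qq_cases hy hz with h | h | h | h | h | h <;>
  rcases qq_cases hy' hz' with k | k | k | k | k | k <;>
  constructor <;> linarith

theorem qq_surj (a b : ℝ) (h : ¬ (0 < a ∧ 0 < b)) :
    ∃ y z, 0 ≤ y ∧ 0 ≤ z ∧ qq y z = a ∧ qq z y = b := by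
  rcases le_or_gt a 0 with ha | ha
  · rcases le_or_gt b 0 with hb | hb
    · rcases le_total b a with hba | hba
      · -- |a| ≤ -b : sector C
        have := qq_C (y := -b) (z := (-7 * b - a) / 8) (by linarith) (by linarith) (by linarith)
        exact ⟨-b, (-7 * b - a) / 8, by linarith, by linarith, by rw [this.1]; ring,
          by rw [this.2]; ring⟩
      · have := qq_C (y := -a) (z := (-7 * a - b) / 8) (by linarith) (by linarith) (by linarith)
        exact ⟨(-7 * a - b) / 8, -a, by linarith, by linarith, by rw [this.2]; ring,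
          by rw [this.1]; ring⟩
    · -- a ≤ 0 < b
      rcases le_total (-a) (b / 2) with h1 | h1
      · have := qq_A (y := b) (z := -a) (by linarith) (by linarith)
        exact ⟨-a, b, by linarith, by linarith, by rw [this.2]; ring, this.1⟩
      · rcases le_total (-a) b with h2 | h2
        · have := qq_B (y := b) (z := b / 4 - a / 2) (by linarith) (by linarith) (by linarith)
          exact ⟨b / 4 - a / 2, b, by linarith, by linarith, by rw [this.2]; ring, this.1⟩
        · have := qq_C (y := -a) (z := (-7 * a - b) / 8) (by linarith) (by linarith) (by linarith)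
          exact ⟨(-7 * a - b) / 8, -a, by linarith, by linarith, by rw [this.2]; ring,
            by rw [this.1]; ring⟩
  · have hb : b ≤ 0 := by
      by_contra hb
      push Not at hb
      exact h ⟨ha, hb⟩
    rcases le_total (-b) (a / 2) with h1 | h1
    · have := qq_A (y := a) (z := -b) (by linarith) (by linarith)
      exact ⟨a, -b, by linarith, by linarith, this.1, by rw [this.2]; ring⟩
    · rcases le_total (-b) a with h2 | h2
      · have := qq_B (y := a) (z := a / 4 - b / 2) (by linarith) (by linarith) (by linarith)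
        exact ⟨a, a / 4 - b / 2, by linarith, by linarith, this.1, by rw [this.2]; ring⟩
      · have := qq_C (y := -b) (z := (-7 * b - a) / 8) (by linarith) (by linarith) (by linarith)
        exact ⟨-b, (-7 * b - a) / 8, by linarith, by linarith, by rw [this.1]; ring,
          by rw [this.2]; ring⟩

theorem qq_not_pos {y z : ℝ} (hy : 0 ≤ y) (hz : 0 ≤ z) : ¬ (0 < qq y z ∧ 0 < qq z y) := by
  rintro ⟨h1, h2⟩
  rcases qq_cases hy hz with h | h | h | h | h | h <;> linarith

theorem qq_not_nonneg {y z : ℝ} (hy : 0 < y) (hz : 0 < z) : ¬ (0 ≤ qq y z ∧ 0 ≤ qq z y) := by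
  rintro ⟨h1, h2⟩
  rcases qq_cases hy.le hz.le with h | h | h | h | h | h <;> linarith

theorem qq_max {y z : ℝ} (hy : 0 ≤ y) (hz : 0 ≤ z) :
    max |qq y z| |qq z y| = max y z := by
  rcases qq_cases hy hz with h | h | h | h | h | h
  · obtain ⟨h1, h2, h3⟩ := h
    rw [h2, h3, abs_neg, abs_of_nonneg hy, abs_of_nonneg hz]
  · obtain ⟨h0, h1, h2, h3⟩ := h
    rw [h2, h3, abs_of_nonneg hy, abs_of_nonpos (by linarith), max_eq_left (by linarith),
      max_eq_left (by linarith)]
  · obtain ⟨h0, h1, h2, h3⟩ := h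
    rw [h2, h3, abs_neg, abs_of_nonneg hy, max_eq_right (abs_le.2 ⟨by linarith, by linarith⟩),
      max_eq_left (by linarith)]
  · obtain ⟨h1, h2, h3⟩ := h
    rw [h2, h3, abs_neg, abs_of_nonneg hy, abs_of_nonneg hz]
  · obtain ⟨h0, h1, h2, h3⟩ := h
    rw [h2, h3, abs_of_nonneg hz, abs_of_nonpos (by linarith), max_eq_right (by linarith),
      max_eq_right (by linarith)]
  · obtain ⟨h0, h1, h2, h3⟩ := h
    rw [h2, h3, abs_neg, abs_of_nonneg hz, max_eq_left (abs_le.2 ⟨by linarith, by linarith⟩),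
      max_eq_right (by linarith)]

theorem qq_zero_left {z : ℝ} (hz : 0 ≤ z) : qq 0 z = 0 := by
  have := (qq_A (y := z) (z := 0) le_rfl (by linarith)).2
  simpa using this

/-! ## `cc` and sign changes -/

theorem cc_of_nonneg {y z : ℝ} (hy : 0 ≤ y) : cc y z = qq y |z| := by simp [cc, hy]

theorem cc_zero (z : ℝ) : cc 0 z = 0 := by
  rw [cc_of_nonneg le_rfl, qq_zero_left (abs_nonneg _)]

theorem cc_neg_left (y z : ℝ) : cc (-y) z = - cc y z := by
  rcases lt_trichotomy y 0 with h | h | h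
  · rw [cc_of_nonneg (by linarith)]
    simp [cc, not_le.2 h]
  · subst h; simp [cc_zero]
  · rw [cc_of_nonneg h.le]
    have : ¬ (0 ≤ -y) := by linarith
    simp [cc, this]

theorem cc_neg_right (y z : ℝ) : cc y (-z) = cc y z := by simp [cc]

theorem cc_sign {s t : ℝ} (hs : s = 1 ∨ s = -1) (ht : t = 1 ∨ t = -1) (y z : ℝ) :
    cc (s * y) (t * z) = s * cc y z := by
  rcases hs with rfl | rfl <;> rcases ht with rfl | rfl <;> simp [cc_neg_left, cc_neg_right]

theorem cc_abs (y z : ℝ) : |cc y z| = |qq (|y|) (|z|)| := by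
  rcases le_total 0 y with h | h
  · rw [cc_of_nonneg h, abs_of_nonneg h]
  · have h1 : cc y z = - cc (-y) z := by rw [cc_neg_left]; ring
    rw [h1, abs_neg, cc_of_nonneg (by linarith), abs_of_nonpos h]

theorem cc_max (y z : ℝ) : max |cc y z| |cc z y| = max |y| |z| := by
  rw [cc_abs, cc_abs]
  exact qq_max (abs_nonneg _) (abs_nonneg _)

/-- the closed quadrants -/
def Qd (s t : ℝ) : Set E := {x | 0 ≤ s * x 1 ∧ 0 ≤ t * x 2}
/-- complement of the open quadrants -/
def Cd (s t : ℝ) : Set E := {x | ¬ (0 < s * x 1 ∧ 0 < t * x 2)}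

theorem isClosed_Qd (s t : ℝ) : IsClosed (Qd s t) := by
  have h1 : Continuous fun x : E => s * x 1 := continuous_const.mul (continuous_apply 1)
  have h2 : Continuous fun x : E => t * x 2 := continuous_const.mul (continuous_apply 2)
  exact (isClosed_le continuous_const h1).inter (isClosed_le continuous_const h2)

theorem sg_mul_self {s : ℝ} (hs : s = 1 ∨ s = -1) : s * s = 1 := by
  rcases hs with rfl | rfl <;> norm_num

theorem cc_Qd {s t : ℝ} (hs : s = 1 ∨ s = -1) (ht : t = 1 ∨ t = -1) {y z : ℝ}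
    (h1 : 0 ≤ s * y) (h2 : 0 ≤ t * z) : s * cc y z = qq (s * y) (t * z) ∧
      t * cc z y = qq (t * z) (s * y) := by
  constructor
  · rw [← cc_sign hs ht, cc_of_nonneg h1, abs_of_nonneg h2]
  · rw [← cc_sign ht hs, cc_of_nonneg h2, abs_of_nonneg h1]

theorem CC_injOn {s t : ℝ} (hs : s = 1 ∨ s = -1) (ht : t = 1 ∨ t = -1) :
    Set.InjOn CC (Qd s t) := by
  rintro x ⟨h1, h2⟩ y ⟨k1, k2⟩ hxy
  have e0 : x 0 = y 0 := congrFun hxy 0
  have e1 : cc (x 1) (x 2) = cc (y 1) (y 2) := congrFun hxy 1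
  have e2 : cc (x 2) (x 1) = cc (y 2) (y 1) := congrFun hxy 2
  obtain ⟨a1, a2⟩ := cc_Qd hs ht h1 h2
  obtain ⟨b1, b2⟩ := cc_Qd hs ht k1 k2
  have := qq_inj h1 h2 k1 k2 (by rw [← a1, ← b1, e1]) (by rw [← a2, ← b2, e2])
  have hs0 : s ≠ 0 := by rcases hs with rfl | rfl <;> norm_num
  have ht0 : t ≠ 0 := by rcases ht with rfl | rfl <;> norm_num
  funext i
  fin_cases i
  · exact e0
  · exact mul_left_cancel₀ hs0 this.1
  · exact mul_left_cancel₀ ht0 this.2

theorem CC_image {s t : ℝ} (hs : s = 1 ∨ s = -1) (ht : t = 1 ∨ t = -1) :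
    CC '' Qd s t = Cd s t := by
  ext y
  constructor
  · rintro ⟨x, ⟨h1, h2⟩, rfl⟩
    obtain ⟨a1, a2⟩ := cc_Qd hs ht h1 h2
    show ¬ (0 < s * cc (x 1) (x 2) ∧ 0 < t * cc (x 2) (x 1))
    rw [a1, a2]
    exact qq_not_pos h1 h2
  · intro hy
    obtain ⟨a, b, ha, hb, e1, e2⟩ := qq_surj (s * y 1) (t * y 2) hy
    have hss := sg_mul_self hs
    have htt := sg_mul_self ht
    have ha' : s * (s * a) = a := by rw [← mul_assoc, hss, one_mul]
    have hb' : t * (t * b) = b := by rw [← mul_assoc, htt, one_mul]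
    refine ⟨![y 0, s * a, t * b], ⟨by simpa [ha'] using ha, by simpa [hb'] using hb⟩, ?_⟩
    have e3 : cc (s * a) (t * b) = y 1 := by
      rw [cc_sign hs ht, cc_of_nonneg ha, abs_of_nonneg hb, e1, ← mul_assoc, hss, one_mul]
    have e4 : cc (t * b) (s * a) = y 2 := by
      rw [cc_sign ht hs, cc_of_nonneg hb, abs_of_nonneg ha, e2, ← mul_assoc, htt, one_mul]
    funext i
    fin_cases i
    · simp [CC]
    · simpa [CC] using e3
    · simpa [CC] using e4


/-! ## norm, Lipschitz -/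

theorem norm_CC (x : E) : ‖CC x‖ = ‖x‖ := by
  have h : ∀ z : E, ‖z‖ = max |z 0| (max |z 1| |z 2|) := by
    intro z
    apply le_antisymm
    · refine (pi_norm_le_iff_of_nonneg (by positivity)).2 fun i => ?_
      fin_cases i
      · exact le_max_left _ _
      · exact (le_max_left _ _).trans (le_max_right _ _)
      · exact (le_max_right _ _).trans (le_max_right _ _)
    · exact max_le (norm_le_pi_norm z 0) (max_le (norm_le_pi_norm z 1) (norm_le_pi_norm z 2))
  rw [h, h]
  show max |x 0| (max |cc (x 1) (x 2)| |cc (x 2) (x 1)|) = _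
  rw [cc_max]

theorem abs_max_sub_max_le' {a b c d K : ℝ} (h1 : |a - c| ≤ K) (h2 : |b - d| ≤ K) :
    |max a b - max c d| ≤ K :=
  (abs_max_sub_max_le_max a b c d).trans (max_le h1 h2)

theorem abs_min_sub_min_le' {a b c d K : ℝ} (h1 : |a - c| ≤ K) (h2 : |b - d| ≤ K) :
    |min a b - min c d| ≤ K :=
  (abs_min_sub_min_le_max a b c d).trans (max_le h1 h2)

theorem qq_lip (y z y' z' : ℝ) : |qq y z - qq y' z'| ≤ 7 * |y - y'| + 8 * |z - z'| := by
  have hy := abs_nonneg (y - y')
  have hz := abs_nonneg (z - z')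
  have a1 := neg_abs_le (y - y')
  have a2 := le_abs_self (y - y')
  have a3 := neg_abs_le (z - z')
  have a4 := le_abs_self (z - z')
  unfold qq
  refine abs_max_sub_max_le' (abs_min_sub_min_le' ?_ ?_) (abs_min_sub_min_le' ?_
    (abs_max_sub_max_le' ?_ ?_)) <;> rw [abs_le] <;> constructor <;> linarith

theorem cc_lip (y z y' z' : ℝ) : |cc y z - cc y' z'| ≤ 7 * |y - y'| + 8 * |z - z'| := by
  have hzz : |(|z| - |z'|)| ≤ |z - z'| := abs_abs_sub_abs_le_abs_sub z z'
  -- reduce to y ≥ 0 or opposite signs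
  have key : ∀ y z y' z' : ℝ, 0 ≤ y → |cc y z - cc y' z'| ≤ 7 * |y - y'| + 8 * |z - z'| := by
    intro y z y' z' hy
    have hzz : |(|z| - |z'|)| ≤ |z - z'| := abs_abs_sub_abs_le_abs_sub z z'
    rcases le_total 0 y' with hy' | hy'
    · rw [cc_of_nonneg hy, cc_of_nonneg hy']
      exact (qq_lip _ _ _ _).trans (by linarith)
    · have h1 : |cc y z| ≤ 7 * y := by
        rw [cc_of_nonneg hy]
        have := qq_lip y |z| 0 |z|
        rw [qq_zero_left (abs_nonneg _), sub_zero, sub_zero, sub_self, abs_zero,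
          abs_of_nonneg hy] at this
        linarith
      have h2 : |cc y' z'| ≤ 7 * (-y') := by
        have e : cc y' z' = - cc (-y') z' := by rw [cc_neg_left]; ring
        rw [e, abs_neg, cc_of_nonneg (by linarith)]
        have := qq_lip (-y') |z'| 0 |z'|
        rw [qq_zero_left (abs_nonneg _), sub_zero, sub_zero, sub_self, abs_zero,
          abs_of_nonneg (by linarith : 0 ≤ -y')] at this
        linarith
      have h3 : |y - y'| = y - y' := abs_of_nonneg (by linarith)
      have h4 := abs_sub (cc y z) (cc y' z')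
      have h5 := abs_nonneg (z - z')
      rw [h3]
      linarith
  rcases le_total 0 y with h | h
  · exact key y z y' z' h
  · have := key (-y) z (-y') z' (by linarith)
    rw [cc_neg_left, cc_neg_left] at this
    have e1 : -cc y z - -cc y' z' = -(cc y z - cc y' z') := by ring
    have e2 : -y - -y' = -(y - y') := by ring
    rwa [e1, e2, abs_neg, abs_neg] at this

theorem CC_lip : LipschitzWith 15 CC := by
  refine LipschitzWith.of_dist_le_mul fun x y => ?_
  refine (dist_pi_le_iff (by positivity)).2 fun i => ?_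
  have h0 := dist_le_pi_dist x y 0
  have h1 := dist_le_pi_dist x y 1
  have h2 := dist_le_pi_dist x y 2
  rw [Real.dist_eq] at h0 h1 h2
  have hd : (0 : ℝ) ≤ dist x y := dist_nonneg
  have h15 : ((15 : ℝ≥0) : ℝ) = 15 := by norm_num
  rw [h15]
  fin_cases i
  · show dist (x 0) (y 0) ≤ _
    rw [Real.dist_eq]
    linarith
  · show dist (cc (x 1) (x 2)) (cc (y 1) (y 2)) ≤ _
    rw [Real.dist_eq]
    have := cc_lip (x 1) (x 2) (y 1) (y 2)
    linarith
  · show dist (cc (x 2) (x 1)) (cc (y 2) (y 1)) ≤ _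
    rw [Real.dist_eq]
    have := cc_lip (x 2) (x 1) (y 2) (y 1)
    linarith

theorem CC_continuous : Continuous CC := CC_lip.continuous

theorem CC_isClosedMap : IsClosedMap CC := by
  have h : Tendsto CC (cocompact E) (cocompact E) := by
    rw [← Metric.cobounded_eq_cocompact, ← tendsto_norm_atTop_iff_cobounded]
    simp only [norm_CC]
    exact tendsto_norm_cobounded_atTop
  exact (isProperMap_iff_tendsto_cocompact.2 ⟨CC_continuous, h⟩).isClosedMap

/-- relative openness on a closed piece on which the map is injective -/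
theorem nhdsWithin_le_map_of_injOn {X Y : Type*} [TopologicalSpace X] [TopologicalSpace Y]
    {f : X → Y} (hf : IsClosedMap f) {P : Set X} (hP : IsClosed P) (hinj : InjOn f P)
    {x : X} (hx : x ∈ P) : 𝓝[f '' P] (f x) ≤ map f (𝓝[P] x) := by
  intro S hS
  rw [mem_map, mem_nhdsWithin] at hS
  obtain ⟨U, hU, hxU, hUS⟩ := hS
  rw [mem_nhdsWithin]
  refine ⟨(f '' (P \ U))ᶜ, (hf _ (hP.sdiff hU)).isOpen_compl, ?_, ?_⟩
  · rintro ⟨y, ⟨hyP, hyU⟩, hyx⟩
    exact hyU (hinj hyP hx hyx ▸ hxU)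
  · rintro _ ⟨h1, ⟨y, hy, rfl⟩⟩
    by_cases hyU : y ∈ U
    · exact hUS ⟨hyU, hy⟩
    · exact absurd ⟨y, ⟨hy, hyU⟩, rfl⟩ h1

theorem CC_openAt (x : E) : 𝓝 (CC x) ≤ map CC (𝓝 x) := by
  -- one of the quadrants containing `x`
  obtain ⟨s, hs, hs1⟩ : ∃ s : ℝ, (s = 1 ∨ s = -1) ∧ 0 ≤ s * x 1 := by
    rcases le_total 0 (x 1) with h | h
    · exact ⟨1, Or.inl rfl, by linarith⟩
    · exact ⟨-1, Or.inr rfl, by linarith⟩
  obtain ⟨t, ht, ht1⟩ : ∃ t : ℝ, (t = 1 ∨ t = -1) ∧ 0 ≤ t * x 2 := by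
    rcases le_total 0 (x 2) with h | h
    · exact ⟨1, Or.inl rfl, by linarith⟩
    · exact ⟨-1, Or.inr rfl, by linarith⟩
  have hx : x ∈ Qd s t := ⟨hs1, ht1⟩
  have main : ∀ {s t : ℝ}, (s = 1 ∨ s = -1) → (t = 1 ∨ t = -1) → x ∈ Qd s t →
      𝓝[Cd s t] (CC x) ≤ map CC (𝓝[Qd s t] x) := by
    intro s t hs ht hx
    rw [← CC_image hs ht]
    exact nhdsWithin_le_map_of_injOn CC_isClosedMap (isClosed_Qd s t) (CC_injOn hs ht) hx
  by_cases h1 : x 1 = 0
  · -- quadrants (s,t), (-s,t)
    have hs' : -s = 1 ∨ -s = -1 := by rcases hs with rfl | rfl <;> norm_num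
    have hx' : x ∈ Qd (-s) t := ⟨by rw [h1]; simp, ht1⟩
    refine Helper15.Jac.nhds_le_map_of_pieces CC x (fun b : Bool => if b then Qd s t else Qd (-s) t)
      (fun b : Bool => if b then Cd s t else Cd (-s) t) ?_ ?_
    · refine Filter.mem_of_superset univ_mem fun y _ => ?_
      rw [mem_iUnion]
      by_cases h : 0 < s * y 1
      · refine ⟨false, ?_⟩
        simp only [Bool.false_eq_true, if_false]
        rintro ⟨k1, -⟩
        linarith
      · exact ⟨true, fun k => h k.1⟩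
    · rintro (_ | _)
      · simpa using main hs' ht hx'
      · simpa using main hs ht hx
  by_cases h2 : x 2 = 0
  · have ht' : -t = 1 ∨ -t = -1 := by rcases ht with rfl | rfl <;> norm_num
    have hx' : x ∈ Qd s (-t) := ⟨hs1, by rw [h2]; simp⟩
    refine Helper15.Jac.nhds_le_map_of_pieces CC x (fun b : Bool => if b then Qd s t else Qd s (-t))
      (fun b : Bool => if b then Cd s t else Cd s (-t)) ?_ ?_
    · refine Filter.mem_of_superset univ_mem fun y _ => ?_
      rw [mem_iUnion]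
      by_cases h : 0 < t * y 2
      · refine ⟨false, ?_⟩
        simp only [Bool.false_eq_true, if_false]
        rintro ⟨-, k1⟩
        linarith
      · exact ⟨true, fun k => h k.2⟩
    · rintro (_ | _)
      · simpa using main hs ht' hx'
      · simpa using main hs ht hx
  · -- interior of the quadrant
    have p1 : 0 < s * x 1 := by
      rcases hs1.lt_or_eq with h | h
      · exact h
      · exfalso
        rcases hs with rfl | rfl
        · exact h1 (by linarith)
        · exact h1 (by linarith)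
    have p2 : 0 < t * x 2 := by
      rcases ht1.lt_or_eq with h | h
      · exact h
      · exfalso
        rcases ht with rfl | rfl
        · exact h2 (by linarith)
        · exact h2 (by linarith)
    have hC : Cd s t ∈ 𝓝 (CC x) := by
      have hsub : (Qd s t)ᶜ ⊆ Cd s t := fun y hy k => hy ⟨k.1.le, k.2.le⟩
      refine Filter.mem_of_superset ((isClosed_Qd s t).isOpen_compl.mem_nhds ?_) hsub
      rintro ⟨k1, k2⟩
      obtain ⟨a1, a2⟩ := cc_Qd hs ht p1.le p2.le
      have k1' : 0 ≤ s * cc (x 1) (x 2) := k1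
      have k2' : 0 ≤ t * cc (x 2) (x 1) := k2
      rw [a1] at k1'
      rw [a2] at k2'
      exact qq_not_nonneg p1 p2 ⟨k1', k2'⟩
    rw [← nhdsWithin_eq_nhds.2 hC]
    exact (main hs ht hx).trans (Filter.map_mono nhdsWithin_le_nhds)

theorem CC_isOpenMap : IsOpenMap CC := isOpenMap_iff_nhds_le.2 CC_openAt

theorem exists_Qd (x : E) : ∃ s t : ℝ, (s = 1 ∨ s = -1) ∧ (t = 1 ∨ t = -1) ∧ x ∈ Qd s t := by
  rcases le_total 0 (x 1) with h | h <;> rcases le_total 0 (x 2) with k | k
  · exact ⟨1, 1, Or.inl rfl, Or.inl rfl, by simpa using h, by simpa using k⟩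
  · exact ⟨1, -1, Or.inl rfl, Or.inr rfl, by simpa using h, by simpa using k⟩
  · exact ⟨-1, 1, Or.inr rfl, Or.inl rfl, by simpa using h, by simpa using k⟩
  · exact ⟨-1, -1, Or.inr rfl, Or.inr rfl, by simpa using h, by simpa using k⟩

theorem CC_surjective : Function.Surjective CC := by
  intro y
  by_cases h : 0 < 1 * y 1
  · have : y ∈ Cd (-1) 1 := fun k => by have := k.1; linarith
    rw [← CC_image (Or.inr rfl) (Or.inl rfl)] at this
    obtain ⟨x, -, hx⟩ := this
    exact ⟨x, hx⟩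
  · have : y ∈ Cd 1 1 := fun k => h k.1
    rw [← CC_image (Or.inl rfl) (Or.inl rfl)] at this
    obtain ⟨x, -, hx⟩ := this
    exact ⟨x, hx⟩

theorem CC_fibre_finite (y : E) : (CC ⁻¹' {y}).Finite := by
  have h : CC ⁻¹' {y} ⊆ ((CC ⁻¹' {y} ∩ Qd 1 1) ∪ (CC ⁻¹' {y} ∩ Qd 1 (-1))) ∪
      ((CC ⁻¹' {y} ∩ Qd (-1) 1) ∪ (CC ⁻¹' {y} ∩ Qd (-1) (-1))) := by
    intro x hx
    obtain ⟨s, t, hs, ht, hst⟩ := exists_Qd x
    rcases hs with rfl | rfl <;> rcases ht with rfl | rfl
    · exact Or.inl (Or.inl ⟨hx, hst⟩)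
    · exact Or.inl (Or.inr ⟨hx, hst⟩)
    · exact Or.inr (Or.inl ⟨hx, hst⟩)
    · exact Or.inr (Or.inr ⟨hx, hst⟩)
  have fin : ∀ {s t : ℝ}, (s = 1 ∨ s = -1) → (t = 1 ∨ t = -1) →
      (CC ⁻¹' {y} ∩ Qd s t).Finite := by
    intro s t hs ht
    apply Set.Subsingleton.finite
    rintro a ⟨ha, ha'⟩ b ⟨hb, hb'⟩
    exact CC_injOn hs ht ha' hb' (ha.trans hb.symm)
  exact (((fin (Or.inl rfl) (Or.inl rfl)).union (fin (Or.inl rfl) (Or.inr rfl))).union
    ((fin (Or.inr rfl) (Or.inl rfl)).union (fin (Or.inr rfl) (Or.inr rfl)))).subset h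

/-! ## explicit values -/

theorem cc_flat (y z : ℝ) (h : |z| ≤ |y| / 2) : cc y z = y ∧ cc z y = -z := by
  have key : ∀ y z : ℝ, 0 ≤ y → 0 ≤ z → z ≤ y / 2 → cc y z = y ∧ cc z y = -z := by
    intro y z hy hz h
    have := qq_A hz h
    rw [cc_of_nonneg hy, cc_of_nonneg hz, abs_of_nonneg hy, abs_of_nonneg hz]
    exact this
  rcases le_total 0 y with hy | hy <;> rcases le_total 0 z with hz | hz
  · rw [abs_of_nonneg hy, abs_of_nonneg hz] at h
    exact key y z hy hz h
  · rw [abs_of_nonneg hy, abs_of_nonpos hz] at h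
    have := key y (-z) hy (by linarith) h
    rw [cc_neg_right, cc_neg_left] at this
    exact ⟨this.1, by linarith [this.2]⟩
  · rw [abs_of_nonpos hy, abs_of_nonneg hz] at h
    have := key (-y) z (by linarith) hz h
    rw [cc_neg_right, cc_neg_left] at this
    exact ⟨by linarith [this.1], this.2⟩
  · rw [abs_of_nonpos hy, abs_of_nonpos hz] at h
    have := key (-y) (-z) (by linarith) (by linarith) h
    rw [cc_neg_right, cc_neg_left, cc_neg_left, cc_neg_right] at this
    exact ⟨by linarith [this.1], by linarith [this.2]⟩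

/-- `C = (x0, x1, -x2)` for `|x2| ≤ |x1|/2` -/
theorem CC_flat1 (x : E) (h : |x 2| ≤ |x 1| / 2) : CC x = ![x 0, x 1, -x 2] := by
  obtain ⟨h1, h2⟩ := cc_flat (x 1) (x 2) h
  funext i
  fin_cases i
  · rfl
  · exact h1
  · exact h2

/-- `C = (x0, -x1, x2)` for `|x1| ≤ |x2|/2` -/
theorem CC_flat2 (x : E) (h : |x 1| ≤ |x 2| / 2) : CC x = ![x 0, -x 1, x 2] := by
  obtain ⟨h1, h2⟩ := cc_flat (x 2) (x 1) h
  funext i
  fin_cases i
  · rfl
  · exact h2
  · exact h1

theorem CC_ng1 (x : E) : CC (ng1 x) = ng1 (CC x) := by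
  funext i
  fin_cases i
  · rfl
  · exact cc_neg_left (x 1) (x 2)
  · exact cc_neg_right (x 2) (x 1)

theorem CC_ng2 (x : E) : CC (ng2 x) = ng2 (CC x) := by
  funext i
  fin_cases i
  · rfl
  · exact cc_neg_right (x 1) (x 2)
  · exact cc_neg_left (x 2) (x 1)

theorem cc_smul {r : ℝ} (hr : 0 ≤ r) (y z : ℝ) : cc (r * y) (r * z) = r * cc y z := by
  have hq : ∀ y z : ℝ, qq (r * y) (r * z) = r * qq y z := by
    intro y z
    unfold qq
    rw [mul_max_of_nonneg _ _ hr, mul_min_of_nonneg _ _ hr, mul_min_of_nonneg _ _ hr,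
      mul_max_of_nonneg _ _ hr]
    congr 1
    · congr 1; ring
    · congr 1
      · ring
      · congr 1
        · ring
        · ring
  rcases le_total 0 y with h | h
  · rw [cc_of_nonneg h, cc_of_nonneg (mul_nonneg hr h), abs_mul, abs_of_nonneg hr, hq]
  · have e : cc y z = - cc (-y) z := by rw [cc_neg_left]; ring
    have e' : cc (r * y) (r * z) = - cc (r * (-y)) (r * z) := by
      rw [mul_neg, cc_neg_left]; ring
    have h' : 0 ≤ -y := by linarith
    rw [e, e', cc_of_nonneg h', cc_of_nonneg (mul_nonneg hr h'), abs_mul,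
      abs_of_nonneg hr, hq]
    ring

theorem CC_abs_max (x : E) : max |CC x 1| |CC x 2| = max |x 1| |x 2| := cc_max (x 1) (x 2)

theorem CC_zero_coord (x : E) : CC x 0 = x 0 := rfl

/-- conjugates of `CC` by homeomorphisms -/
theorem conj_isOpenMap (H : E ≃ₜ E) : IsOpenMap (fun x => H (CC (H.symm x))) :=
  H.isOpenMap.comp (CC_isOpenMap.comp H.symm.isOpenMap)

theorem conj_surjective (H : E ≃ₜ E) : Function.Surjective (fun x => H (CC (H.symm x))) :=
  H.surjective.comp (CC_surjective.comp H.symm.surjective)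

theorem conj_fibre_finite (H : E ≃ₜ E) (y : E) : ((fun x => H (CC (H.symm x))) ⁻¹' {y}).Finite := by
  have : (fun x => H (CC (H.symm x))) ⁻¹' {y} = H '' (CC ⁻¹' {H.symm y}) := by
    ext x
    simp only [mem_preimage, mem_singleton_iff, mem_image]
    constructor
    · intro h
      refine ⟨H.symm x, ?_, H.apply_symm_apply x⟩
      rw [← h, H.symm_apply_apply]
    · rintro ⟨z, hz, rfl⟩
      rw [H.symm_apply_apply, hz, H.apply_symm_apply]
  rw [this]
  exact (CC_fibre_finite _).image _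

theorem GG_isOpenMap (ε ε' : ℝ) (N : ℕ) : IsOpenMap (GG ε ε' N) := conj_isOpenMap _
theorem GG_surjective (ε ε' : ℝ) (N : ℕ) : Function.Surjective (GG ε ε' N) := conj_surjective _
theorem GG_fibre_finite (ε ε' : ℝ) (N : ℕ) (y : E) : (GG ε ε' N ⁻¹' {y}).Finite :=
  conj_fibre_finite _ y
theorem BB_isOpenMap (ε : ℝ) : IsOpenMap (BB ε) := conj_isOpenMap _
theorem BB_surjective (ε : ℝ) : Function.Surjective (BB ε) := conj_surjective _
theorem BB_fibre_finite (ε : ℝ) (y : E) : (BB ε ⁻¹' {y}).Finite := conj_fibre_finite _ y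

end Pool.Agent.ZZ
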