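import Mathlib

/-!
# Zigzag construction for MP_3b5712_an : definitions.
Everything happens in `E = Fin 3 → ℝ` (sup norm), in NORMALISED coordinates of a stage:
coordinate 0 = long, 1 = mid, 2 = short.  See the doc on MP_3b5712_an by helper634.
-/

set_option autoImplicit false
open Set Filter Topology MeasureTheory
open scoped NNReal

namespace Pool.Agent.ZZ

abbrev E := Fin 3 → ℝ

/-! ## scalar helpers -/

/-- clamp to `[-a,a]` -/
noncomputable def clR (a x : ℝ) : ℝ := max (-a) (min a x)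

/-- odd bump: `x` for `|x| ≤ a`, back to `0` at `|x| = 2a`, `0` beyond -/
noncomputable def bmp (a x : ℝ) : ℝ := 2 * clR a x - clR (2 * a) x

/-- sign of an integer parity -/
noncomputable def sg (j : ℤ) : ℝ := if Even j then 1 else -1

/-- periodised bump on the branches `a..b` -/
noncomputable def pz (a b : ℤ) (g : ℝ → ℝ) (x : ℝ) : ℝ :=
  if (a : ℝ) - 1 / 2 ≤ x ∧ x ≤ b + 1 / 2 then g (x - round x) else 0

/-- alternating periodised bump on the branches `a..b` -/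
noncomputable def pzs (a b : ℤ) (g : ℝ → ℝ) (x : ℝ) : ℝ :=
  if (a : ℝ) - 1 / 2 ≤ x ∧ x ≤ b + 1 / 2 then sg (round x) * g (x - round x) else 0

/-! ## parameters (all depend on `ε` only; standing assumption `0 < ε ≤ 1/4`) -/

/-- rod half-thickness -/
noncomputable def wd (ε : ℝ) : ℝ := ε / 64
/-- amplitude of the zigzag -/
noncomputable def am (ε : ℝ) : ℝ := 1 - 8 * wd ε
/-- slope of the zigzag -/
noncomputable def sl (ε : ℝ) : ℝ := 2 * am ε
/-- half-width of a layer -/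
noncomputable def fh (ε : ℝ) : ℝ := (1 - ε) / 2
/-- half-length of a child cell in the mid direction -/
noncomputable def cf (ε : ℝ) : ℝ := 1 - 32 * wd ε

/-! ## fibrewise monotone homeomorphisms -/

/-- `x ↦ update x i (φ x)` as a homeomorphism (junk if it is not one) -/
noncomputable def fibE (i : Fin 3) (φ : E → ℝ) : E ≃ₜ E :=
  open Classical in
  if h : ∃ F : E ≃ₜ E, ∀ x, F x = Function.update x i (φ x) then h.choose else Homeomorph.refl E

/-! ## the base map `C = id × c` -/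

noncomputable def qq (y z : ℝ) : ℝ :=
  max (min y (7 * y - 8 * z)) (min (-y) (max (-z) (z / 2 - 2 * y)))

noncomputable def cc (y z : ℝ) : ℝ := if 0 ≤ y then qq y |z| else - qq (-y) |z|

/-- the base map: degree `-3` in the plane (mid, short); preserves every square -/
noncomputable def CC (x : E) : E := ![x 0, cc (x 1) (x 2), cc (x 2) (x 1)]

/-! ## the fold -/

noncomputable def bs (ε ξ : ℝ) : ℝ := min 1 ((1 / 2 - |ξ|) / (4 * wd ε))
noncomputable def bW (ε ξ : ℝ) : ℝ := min 1 ((1 / 2 - |ξ|) / (ε / 2))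
/-- `ξ - O ξ`, where `O ξ = (r/f) ξ` on `|ξ| ≤ f`, `O (±1/2) = ±1/2`, `r = wd/sl`, `f = fh` -/
noncomputable def bO (ε ξ : ℝ) : ℝ :=
  ((1 - wd ε / sl ε / fh ε) / ε) * clR (fh ε) ξ
    - ((1 - ε) * ((1 - wd ε / sl ε / fh ε) / ε)) * clR (1 / 2) ξ
noncomputable def tent (ξ : ℝ) : ℝ := 1 - 2 * |ξ|
/-- the zigzag: `hh x = (-1)^j * sl * (x - j)` for `|x-j| ≤ 1/2`, `1 ≤ j ≤ N`; `0` for `x ≤ 0`, `x ≥ N+1` -/
noncomputable def hh (ε : ℝ) (N : ℕ) (x : ℝ) : ℝ := am ε * pzs 0 N tent (x - 1 / 2)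
noncomputable def kap (ε y : ℝ) : ℝ := max 0 (min 1 ((1 - |y|) / (1 - 4 * wd ε)))
noncomputable def mu (ε y : ℝ) : ℝ := max 0 (min 1 ((1 - |y|) / (10 * wd ε)))

noncomputable def phH (ε : ℝ) (N : ℕ) (amp : ℝ → ℝ) (x : E) : ℝ :=
  x 0 - amp (x 2) * pzs 1 N (bs ε) (x 0) * bmp (2 * wd ε) (x 1) / sl ε
noncomputable def phV (ε : ℝ) (N : ℕ) (amp : ℝ → ℝ) (x : E) : ℝ :=
  x 1 + amp (x 2) * hh ε N (x 0) * kap ε (x 1)
noncomputable def phK (ε : ℝ) (N : ℕ) (amp : ℝ → ℝ) (x : E) : ℝ :=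
  x 0 + amp (x 2) * mu ε (x 1) *
    (clR (am ε - 2 * wd ε) (x 1) / sl ε * pzs 1 N (bW ε) (x 0) - pz 1 N (bO ε) (x 0))

/-- the fold `K⁻¹ ∘ V ∘ H` -/
noncomputable def fold (ε : ℝ) (N : ℕ) (amp : ℝ → ℝ) : E ≃ₜ E :=
  ((fibE 0 (phH ε N amp)).trans (fibE 1 (phV ε N amp))).trans (fibE 0 (phK ε N amp)).symm

/-! ## the cross-section homeomorphisms -/

noncomputable def lam (N : ℕ) (t : ℝ) : ℝ := max 0 (min 1 (min (t + 1) (N + 2 - t)))
noncomputable def nu (ε z : ℝ) : ℝ := max 0 (min 1 ((1 - |z|) / (1 - 2 * wd ε)))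
/-- three-slope odd function: `(0,0), (e,1-ε), (1,1)`, slope `2ε` beyond `1` -/
noncomputable def Zf (ε e z : ℝ) : ℝ :=
  ((1 - ε) / e - ε / (1 - e)) * clR e z + ε / (1 - e) * clR 1 z + 2 * ε * (z - clR 1 z)
noncomputable def ef (ε : ℝ) (N : ℕ) (t y : ℝ) : ℝ :=
  (1 - lam N t) / 2 + lam N t * max (2 * wd ε) (min 1 |y|) / 2
noncomputable def phS (ε ε' : ℝ) (N : ℕ) (x : E) : ℝ :=
  x 1 + lam N (x 0) * nu ε (x 2) * ((1 - 2 * ε') * bmp (wd ε / 2) (x 1))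
noncomputable def phZ (ε : ℝ) (N : ℕ) (x : E) : ℝ := Zf ε (ef ε N (x 0) (x 1)) (x 2)
noncomputable def phB (ε : ℝ) (x : E) : ℝ := Zf ε (1 / 2) (x 2)

/-- model → real (normalised), base version -/
noncomputable def M0 (ε : ℝ) : E ≃ₜ E := fibE 2 (phB ε)
/-- model → real (normalised), with the thin rod prepared -/
noncomputable def MM (ε ε' : ℝ) (N : ℕ) : E ≃ₜ E := (fibE 1 (phS ε ε' N)).trans (fibE 2 (phZ ε N))

/-- base map of a cell -/
noncomputable def BB (ε : ℝ) (x : E) : E := M0 ε (CC ((M0 ε).symm x))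
/-- the layered standard map of a cell -/
noncomputable def GG (ε ε' : ℝ) (N : ℕ) (x : E) : E :=
  ((MM ε ε' N).trans (fold ε N 1)) (CC (((MM ε ε' N).trans (fold ε N 1)).symm x))

/-! ## boxes and frames -/

def PB (N : ℕ) : Set E := {x | -1 ≤ x 0 ∧ x 0 ≤ N + 2 ∧ |x 1| ≤ 1 ∧ |x 2| ≤ 1}
def CB (ε : ℝ) (k : ℕ) : Set E := {x | |x 0 - k| ≤ fh ε ∧ |x 1| ≤ cf ε ∧ |x 2| ≤ 1 - ε}

/-- frame change parent → child without recentring the short coordinate -/
noncomputable def fr (ε : ℝ) (N' : ℕ) (x : E) : E :=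
  ![x 1 * ((N' + 3) / (2 * cf ε)) + (N' + 1) / 2, x 2 / (1 - ε), x 0]
noncomputable def fri (ε : ℝ) (N' : ℕ) (x : E) : E :=
  ![x 2, (x 0 - (N' + 1) / 2) / ((N' + 3) / (2 * cf ε)), (1 - ε) * x 1]
/-- child frame: maps `CB ε k` onto `PB N'` -/
noncomputable def Ak (ε : ℝ) (N' k : ℕ) (x : E) : E :=
  ![x 1 * ((N' + 3) / (2 * cf ε)) + (N' + 1) / 2, x 2 / (1 - ε), (x 0 - k) / fh ε]
noncomputable def Aki (ε : ℝ) (N' k : ℕ) (x : E) : E :=
  ![fh ε * x 2 + k, (x 0 - (N' + 1) / 2) / ((N' + 3) / (2 * cf ε)), (1 - ε) * x 1]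

noncomputable def Lam (N : ℕ) (t : ℝ) : ℝ := max 0 (min 1 (min (t - 1 / 2) (N + 1 / 2 - t)))

/-- homeomorphism given by mutually inverse maps (junk otherwise) -/
noncomputable def mkH (F : E → E) : E ≃ₜ E :=
  open Classical in if h : ∃ G : E ≃ₜ E, ∀ x, G x = F x then h.choose else Homeomorph.refl E

/-- the inner preparation, glued over the child cells `k = 2..N-1` -/
noncomputable def RRf (ε ε' ε'' : ℝ) (N N' : ℕ) (x : E) : E :=
  open Classical in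
  if h : ∃ k : ℕ, 2 ≤ k ∧ k + 1 ≤ N ∧ x ∈ CB ε k then
    Aki ε N' h.choose (MM ε' ε'' N' ((M0 ε').symm (Ak ε N' h.choose x))) else x

noncomputable def QQ (ε ε' ε'' : ℝ) (N N' : ℕ) : E ≃ₜ E :=
  (mkH (RRf ε ε' ε'' N N')).trans
    (mkH (fun x => fri ε N' (fold ε' N' (Lam N) (fr ε N' x))))

/-- the refined map of a cell -/
noncomputable def DD (ε ε' ε'' : ℝ) (N N' : ℕ) (x : E) : E :=
  QQ ε ε' ε'' N N' (GG ε ε' N ((QQ ε ε' ε'' N N').symm x))

end Pool.Agent.ZZ
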