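import Pool.Agent.ZZ.Defs2

set_option autoImplicit false
open Set Filter Topology MeasureTheory
open scoped NNReal

namespace Pool.Agent.ZZ

noncomputable def Ph (ε ε' : ℝ) (N : ℕ) : E ≃ₜ E := (MM ε ε' N).trans (fold ε N 1)

end Pool.Agent.ZZ
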