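import Pool.Agent.ZZ.StageE

set_option autoImplicit false
open Set Filter Topology MeasureTheory
open scoped NNReal ENNReal

namespace Pool.Agent.ZZ

/-- cyclic affine frame: coordinate `j` of the child is coordinate `j+1` of the parent -/
noncomputable def cyc (m b : Fin 3 → ℝ) (v : E) : E :=
  ![m 2 * v 2 + b 2, m 0 * v 0 + b 0, m 1 * v 1 + b 1]

noncomputable def mfr (ε : ℝ) (N' : ℕ) : Fin 3 → ℝ := ![2 * cf ε / (N' + 3), 1 - ε, fh ε]
noncomputable def bfr (ε : ℝ) (N' k : ℕ) : Fin 3 → ℝ :=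
  ![-((N' + 1) / 2) * (2 * cf ε / (N' + 3)), 0, k]

theorem mfr_pos {ε : ℝ} (h0 : 0 < ε) (h1 : ε ≤ 1 / 4) (N' : ℕ) (j : Fin 3) : 0 < mfr ε N' j := by
  have := (cf_pos h0 h1).1
  have := (fh_pos h0 h1).1
  fin_cases j
  · show 0 < 2 * cf ε / (N' + 3); positivity
  · show 0 < 1 - ε; linarith
  · show 0 < fh ε; assumption

theorem Aki_eq_cyc {ε : ℝ} (h0 : 0 < ε) (h1 : ε ≤ 1 / 4) (N' k : ℕ) (v : E) :
    Aki ε N' k v = cyc (mfr ε N') (bfr ε N' k) v := by
  have hc := (cf_pos h0 h1).1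
  have hN : (N' : ℝ) + 3 ≠ 0 := by positivity
  ext i
  fin_cases i
  · show fh ε * v 2 + k = fh ε * v 2 + k; rfl
  · show (v 0 - (N' + 1) / 2) / ((N' + 3) / (2 * cf ε)) =
      2 * cf ε / (N' + 3) * v 0 + -((N' + 1) / 2) * (2 * cf ε / (N' + 3))
    field_simp
    ring
  · show (1 - ε) * v 1 = (1 - ε) * v 1 + 0; ring

/-- pulled back densities -/
def pull (m b : Fin 3 → ℝ) (ρ : Fin 3 → ℝ → ℝ) : Fin 3 → ℝ → ℝ :=
  fun j t => ρ (j + 1) (m j * t + b j)

theorem cyc_apply (m b : Fin 3 → ℝ) (v : E) (j : Fin 3) :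
    cyc m b v (j + 1) = m j * v j + b j := by
  fin_cases j <;> rfl

theorem XX_affine {ρ : ℝ → ℝ} (hm : Measurable ρ) (hp : ∀ x, 0 < ρ x) (h1 : ∀ x, ρ x ≤ 1)
    {m b : ℝ} (hm0 : m ≠ 0) (y : ℝ) :
    XX ρ (m * y + b) = XX ρ b + m * XX (fun t => ρ (m * t + b)) y := by
  have hi : ∀ c d : ℝ, IntervalIntegrable ρ volume c d := by
    intro c d
    apply IntervalIntegrable.mono_fun (g := ρ) (f := fun _ => (1 : ℝ)) intervalIntegrable_const
    · exact hm.aestronglyMeasurable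
    · exact Eventually.of_forall fun t => by
        simp only [Real.norm_eq_abs, abs_one]
        rw [abs_of_pos (hp t)]; exact h1 t
  unfold XX
  rw [intervalIntegral.integral_comp_mul_add (f := ρ) hm0 b, smul_eq_mul, ← mul_assoc,
    mul_inv_cancel₀ hm0, one_mul, mul_zero, zero_add]
  rw [intervalIntegral.integral_add_adjacent_intervals (hi _ _) (hi _ _)]

theorem cyc_add_single (m b : Fin 3 → ℝ) (v : E) (t : ℝ) (j : Fin 3) :
    cyc m b (v + t • (Pi.single j (1 : ℝ) : E)) =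
      cyc m b v + (m j * t) • (Pi.single (j + 1) (1 : ℝ) : E) := by
  ext i
  obtain ⟨i', rfl⟩ : ∃ i', i = i' + 1 := ⟨i - 1, by fin_cases i <;> rfl⟩
  rw [cyc_apply, single_apply_add, single_apply_add, cyc_apply]
  by_cases h : i' = j
  · subst h; simp; ring
  · have : ¬ i' + 1 = j + 1 := fun hh => h (by simpa using hh)
    simp [h]

/-- transformation of the energy density under a frame -/
theorem en_frame {m b : Fin 3 → ℝ} (hm : ∀ j, 0 < m j) {ρ : Fin 3 → ℝ → ℝ} (hρ : Dens ρ)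
    {U U1 : E → E} {v : E}
    (hU : ∀ᶠ w in 𝓝 v, U (cyc m b w) = cyc m b (U1 w)) (i j : Fin 3) :
    en ρ U (i + 1) (j + 1) (cyc m b v) =
      ENNReal.ofReal (m i / m j) * en (pull m b ρ) U1 i j v := by
  have hmj := hm j
  have hmi := hm i
  have hprod : ∏ k ∈ Finset.univ.erase (j + 1), ρ k (cyc m b v k) =
      ∏ k ∈ Finset.univ.erase j, pull m b ρ k (v k) := by
    symm
    apply Finset.prod_equiv (Equiv.addRight (1 : Fin 3))
    · intro k
      simp
    · intro k _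
      simp only [Equiv.coe_addRight]
      rw [cyc_apply]; rfl
  have hd : lineDeriv ℝ (fun u => XX (ρ (i + 1)) (U u (i + 1))) (cyc m b v) (Pi.single (j + 1) 1) =
      m i / m j * lineDeriv ℝ (fun u => XX (pull m b ρ i) (U1 u i)) v (Pi.single j 1) := by
    unfold lineDeriv
    have hc : ∀ᶠ t in 𝓝 (0 : ℝ), (fun t : ℝ => XX (ρ (i + 1))
        (U (cyc m b v + t • (Pi.single (j + 1) (1 : ℝ) : E)) (i + 1))) t =
        (fun t : ℝ => XX (ρ (i + 1)) (b i) + m i * (fun s : ℝ => XX (pull m b ρ i)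
          (U1 (v + s • (Pi.single j (1 : ℝ) : E)) i)) ((m j)⁻¹ * t)) t := by
      have htend : Tendsto (fun t : ℝ => v + ((m j)⁻¹ * t) • (Pi.single j (1 : ℝ) : E)) (𝓝 0) (𝓝 v) := by
        have : Continuous (fun t : ℝ => v + ((m j)⁻¹ * t) • (Pi.single j (1 : ℝ) : E)) := by
          fun_prop
        have h2 := this.tendsto 0
        simpa using h2
      filter_upwards [htend.eventually hU] with t ht
      have hw : cyc m b v + t • (Pi.single (j + 1) (1 : ℝ) : E) =
          cyc m b (v + ((m j)⁻¹ * t) • (Pi.single j (1 : ℝ) : E)) := by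
        rw [cyc_add_single, ← mul_assoc, mul_inv_cancel₀ hmj.ne', one_mul]
      show XX (ρ (i + 1)) (U (cyc m b v + t • (Pi.single (j + 1) (1 : ℝ) : E)) (i + 1)) = _
      rw [hw, ht, cyc_apply, XX_affine (hρ.1 _) (hρ.2.1 _) (hρ.2.2.1 _) hmi.ne']
      rfl
    rw [Filter.EventuallyEq.deriv_eq hc, deriv_const_add, deriv_const_mul_field]
    have hcm := deriv_comp_mul_left (m j)⁻¹ (fun s : ℝ => XX (pull m b ρ i)
          (U1 (v + s • (Pi.single j (1 : ℝ) : E)) i)) 0
    rw [mul_zero, smul_eq_mul] at hcm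
    refine (congrArg (fun z => m i * z) hcm).trans ?_
    show m i * ((m j)⁻¹ * _) = m i / m j * _
    rw [div_eq_mul_inv, mul_assoc]
  unfold en
  rw [hprod, hd, ← ENNReal.ofReal_mul (by positivity), abs_mul, abs_of_pos (by positivity : 0 < m i / m j)]
  congr 1
  ring

/-- change of variables for a frame -/
theorem lintegral_cyc {m b : Fin 3 → ℝ} (hm : ∀ j, 0 < m j) (g : E → ℝ≥0∞) {S : Set E}
    (hS : MeasurableSet S) :
    ∫⁻ x in cyc m b '' S, g x = ENNReal.ofReal (m 0 * m 1 * m 2) * ∫⁻ v in S, g (cyc m b v) := by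
  let M : Matrix (Fin 3) (Fin 3) ℝ := !![0, 0, m 2; m 0, 0, 0; 0, m 1, 0]
  let Lf : E →L[ℝ] E := LinearMap.toContinuousLinearMap (Matrix.toLin' M)
  have hLf : ∀ v : E, cyc m b v = Lf v + ![b 2, b 0, b 1] := by
    intro v
    ext i
    fin_cases i <;> simp [cyc, Lf, M, dotProduct, Fin.sum_univ_three]
  have hfd : ∀ v ∈ S, HasFDerivWithinAt (cyc m b) Lf S v := by
    intro v _
    have : cyc m b = fun v => Lf v + ![b 2, b 0, b 1] := funext hLf
    rw [this]
    exact (Lf.hasFDerivAt.add_const _).hasFDerivWithinAt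
  have hinj : InjOn (cyc m b) S := by
    intro v _ w _ hvw
    ext j
    have := congrFun hvw (j + 1)
    rw [cyc_apply, cyc_apply] at this
    have := add_right_cancel this
    exact mul_left_cancel₀ (hm j).ne' this
  rw [lintegral_image_eq_lintegral_abs_det_fderiv_mul volume hS hfd hinj]
  have hdet : |Lf.det| = m 0 * m 1 * m 2 := by
    have h1 : Lf.det = M.det := by
      show LinearMap.det (Matrix.toLin' M) = M.det
      exact LinearMap.det_toLin' M
    rw [h1]
    have h2 : M.det = m 0 * m 1 * m 2 := by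
      simp [M, Matrix.det_fin_three]
      ring
    rw [h2, abs_of_pos]
    exact mul_pos (mul_pos (hm 0) (hm 1)) (hm 2)
  rw [hdet]
  rw [lintegral_const_mul' _ _ ENNReal.ofReal_ne_top]

end Pool.Agent.ZZ
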