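import Pool.Agent.ZZ.Defs3
import Pool.Agent.ZZ.T25

/-! job 27921, proof by helper899 -/

set_option autoImplicit false
open Set Filter Topology MeasureTheory
open scoped NNReal

namespace Pool.Agent.ZZ

namespace J27921
theorem DD_B3 (ε ε' ε'' : ℝ) (h0 : 0 < ε) (h1 : ε ≤ 1 / 4) (h0' : 0 < ε') (h1' : ε' ≤ 1 / 4)
    (h0'' : 0 < ε'') (h1'' : ε'' ≤ 1 / 4) (N N' : ℕ) (x : E) (hz : 1 - ε < |x 2|) (k : ℕ) (hk : Ad N k)
    (hx : |x 0 - k| ≤ (1 - ε') * fh ε) (hy : |x 1| ≤ cf ε) :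
    DD ε ε' ε'' N N' x = ![2 * k - x 0, x 1, x 2] := by
  have hk1 : 1 ≤ k := by have := hk.1; omega
  have hk2 : k ≤ N := by have := hk.2; omega
  unfold DD
  rw [(QQ_out ε ε' ε'' h0 h1 h0' h1' h0'' h1'' N N' x (Or.inr (Or.inr (Or.inr hz.le)))).2,
    GG_short ε ε' h0 h1 h0' h1' N k hk1 hk2 x hx hy hz.le]
  exact (QQ_out ε ε' ε'' h0 h1 h0' h1' h0'' h1'' N N' ![2 * k - x 0, x 1, x 2]
    (Or.inr (Or.inr (Or.inr hz.le)))).1

theorem DD_B1a_sg (j : ℤ) : sg j * sg j = 1 ∧ |sg j| = 1 := by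
  unfold sg
  split_ifs <;> norm_num

theorem DD_B1a (ε ε' ε'' : ℝ) (h0 : 0 < ε) (h1 : ε ≤ 1 / 4) (h0' : 0 < ε') (h1' : ε' ≤ 1 / 4)
    (h0'' : 0 < ε'') (h1'' : ε'' ≤ 1 / 4) (N N' : ℕ) (x : E) (ha : 3 / 2 ≤ x 0) (hb : x 0 ≤ N - 1 / 2)
    (hx : ∀ k : ℕ, Ad N k → fh ε ≤ |x 0 - k|) (k' : ℕ) (hk' : Ad N' k')
    (hy : |(Ak ε N' 0 x) 0 - k'| ≤ fh ε') (hz : |x 2| ≤ (1 - ε) * cf ε') :
    DD ε ε' ε'' N N' x =
      ![x 0, (2 * k' - (Ak ε N' 0 x) 0 - (N' + 1) / 2) / ((N' + 3) / (2 * cf ε)), x 2] := by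
  obtain ⟨X, hX⟩ : ∃ X : ℝ, X = (Ak ε N' 0 x) 0 := ⟨_, rfl⟩
  have hX' : x 1 * ((N' + 3) / (2 * cf ε)) + (N' + 1) / 2 = X := by rw [hX]; rfl
  rw [← hX] at hy ⊢
  have hk1 : 1 ≤ k' := by have := hk'.1; omega
  have hk2 : k' ≤ N' := by have := hk'.2; omega
  have hk1r : (2 : ℝ) ≤ k' := by exact_mod_cast hk'.1
  have hk2r : (k' : ℝ) + 1 ≤ N' := by exact_mod_cast hk'.2
  have hcf : 0 < cf ε := by unfold cf wd; linarith
  have hw' : 0 < wd ε' := by unfold wd; linarith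
  have hw'1 : wd ε' ≤ 1 / 256 := by unfold wd; linarith
  have hfh' : 0 < fh ε' := by unfold fh; linarith
  have hfh : fh ε ≤ 1 / 2 := by unfold fh; linarith
  have hsl : sl ε' = 2 * (1 - 8 * wd ε') := rfl
  have hsl0 : 0 < sl ε' := by rw [hsl]; linarith
  have hcf' : cf ε' = 1 - 32 * wd ε' := rfl
  have h1e : (0 : ℝ) < 1 - ε := by linarith
  obtain ⟨g, hg⟩ : ∃ g : ℝ, g = sg (k' : ℤ) := ⟨_, rfl⟩
  obtain ⟨hsg, hsgabs⟩ := DD_B1a_sg (k' : ℤ)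
  rw [← hg] at hsg hsgabs
  have hLam : Lam N (x 0) = 1 := by
    unfold Lam
    rw [min_eq_left (le_min (by linarith) (by linarith)), max_eq_right (by norm_num)]
  -- the point q
  obtain ⟨q0, hq0⟩ : ∃ q0 : ℝ, q0 = k' + g * (x 2 / (1 - ε)) / sl ε' := ⟨_, rfl⟩
  obtain ⟨q1, hq1⟩ : ∃ q1 : ℝ, q1 = -(g * (wd ε' / fh ε') * (X - k')) := ⟨_, rfl⟩
  have hx2 : |x 2 / (1 - ε)| ≤ cf ε' := by
    rw [abs_div, abs_of_pos h1e, div_le_iff₀ h1e]
    linarith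
  have hq0a : |q0 - k'| ≤ 1 / 2 - 4 * wd ε' := by
    rw [hq0, add_sub_cancel_left, abs_div, abs_mul, hsgabs, one_mul, abs_of_pos hsl0,
      div_le_iff₀ hsl0]
    refine hx2.trans ?_
    rw [hcf', hsl]
    nlinarith [sq_nonneg (wd ε')]
  have hq1a : |q1| ≤ wd ε' := by
    rw [hq1, abs_neg, abs_mul, abs_mul, hsgabs, one_mul, abs_of_pos (div_pos hw' hfh'),
      div_mul_eq_mul_div, div_le_iff₀ hfh']
    exact mul_le_mul_of_nonneg_left hy hw'.le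
  have hfold1 : fold ε' N' (Lam N) ![q0, q1, x 0] = ![X, x 2 / (1 - ε), x 0] := by
    rw [fold_rod ε' h0' h1' N' (Lam N) (Lam_amp N) ![q0, q1, x 0] hLam k' hk1 hk2 hq0a hq1a, ← hg]
    have e0 : (k' : ℝ) - g * (fh ε' / wd ε') * q1 = X := by
      rw [hq1]
      have : (fh ε' / wd ε') * (wd ε' / fh ε') = 1 := by field_simp
      linear_combination (X - k') * (fh ε' / wd ε') * (wd ε' / fh ε') * hsg + (X - k') * this
    have e1 : g * sl ε' * (q0 - k') = x 2 / (1 - ε) := by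
      rw [hq0, add_sub_cancel_left]
      have : sl ε' * (g * (x 2 / (1 - ε)) / sl ε') = g * (x 2 / (1 - ε)) := by field_simp
      rw [mul_assoc, this, ← mul_assoc, hsg, one_mul]
    show ![(k' : ℝ) - g * (fh ε' / wd ε') * q1, g * sl ε' * (q0 - k'), x 0] = _
    rw [e0, e1]
  have hfold2 : fold ε' N' (Lam N) ![q0, -q1, x 0] = ![2 * k' - X, x 2 / (1 - ε), x 0] := by
    have hq1b : |(-q1)| ≤ wd ε' := by rw [abs_neg]; exact hq1a
    rw [fold_rod ε' h0' h1' N' (Lam N) (Lam_amp N) ![q0, -q1, x 0] hLam k' hk1 hk2 hq0a hq1b, ← hg]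
    have e0 : (k' : ℝ) - g * (fh ε' / wd ε') * (-q1) = 2 * k' - X := by
      rw [hq1]
      have : (fh ε' / wd ε') * (wd ε' / fh ε') = 1 := by field_simp
      linear_combination -(X - k') * (fh ε' / wd ε') * (wd ε' / fh ε') * hsg - (X - k') * this
    have e1 : g * sl ε' * (q0 - k') = x 2 / (1 - ε) := by
      rw [hq0, add_sub_cancel_left]
      have : sl ε' * (g * (x 2 / (1 - ε)) / sl ε') = g * (x 2 / (1 - ε)) := by field_simp
      rw [mul_assoc, this, ← mul_assoc, hsg, one_mul]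
    show ![(k' : ℝ) - g * (fh ε' / wd ε') * (-q1), g * sl ε' * (q0 - k'), x 0] = _
    rw [e0, e1]
  have hN'0 : (0 : ℝ) < (N' : ℝ) + 3 := by positivity
  have hN3 : (0 : ℝ) < ((N' : ℝ) + 3) / (2 * cf ε) := by positivity
  obtain ⟨y1, hy1⟩ : ∃ y1 : ℝ, y1 = (q0 - (N' + 1) / 2) / ((N' + 3) / (2 * cf ε)) := ⟨_, rfl⟩
  have hQs : (QQ ε ε' ε'' N N').symm x = ![x 0, y1, (1 - ε) * q1] := by
    rw [(QQ_gap ε ε' ε'' h0 h1 h0' h1' h0'' h1'' N N' x hx).2]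
    have : fr ε N' x = ![X, x 2 / (1 - ε), x 0] := by
      unfold fr
      rw [hX']
    rw [this, ← hfold1, Homeomorph.symm_apply_apply]
    unfold fri
    rw [hy1]
    rfl
  have hy1a : |y1| ≤ cf ε := by
    rw [hy1, abs_div, abs_of_pos hN3, div_le_iff₀ hN3]
    have e : cf ε * ((N' + 3) / (2 * cf ε)) = (N' + 3) / 2 := by field_simp
    rw [e, abs_le]
    have := abs_le.1 hq0a
    constructor <;> linarith [this.1, this.2]
  have hy2a : |(1 - ε) * q1| ≤ (1 - ε) / 2 := by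
    rw [abs_mul, abs_of_pos h1e]
    have : |q1| ≤ 1 / 2 := by linarith
    nlinarith
  have hGG : GG ε ε' N ![x 0, y1, (1 - ε) * q1] = ![x 0, y1, -((1 - ε) * q1)] := by
    refine GG_wall ε ε' h0 h1 h0' h1' N ![x 0, y1, (1 - ε) * q1] ?_ ?_ ?_ hy1a hy2a
    · show (1 : ℝ) / 2 ≤ x 0
      linarith
    · show x 0 ≤ (N : ℝ) + 1 / 2
      linarith
    · intro k hka hkb
      show fh ε ≤ |x 0 - k|
      by_cases hAd : Ad N k
      · exact hx k hAd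
      · have hcase : k = 1 ∨ k = N := by
          unfold Ad at hAd
          omega
        rcases hcase with rfl | rfl
        · have : (1 : ℝ) / 2 ≤ x 0 - ((1 : ℕ) : ℝ) := by push_cast; linarith
          exact hfh.trans (this.trans (le_abs_self _))
        · have : (1 : ℝ) / 2 ≤ -(x 0 - (k : ℝ)) := by linarith
          exact hfh.trans (this.trans (neg_le_abs _))
  unfold DD
  rw [hQs, hGG, (QQ_gap ε ε' ε'' h0 h1 h0' h1' h0'' h1'' N N' ![x 0, y1, -((1 - ε) * q1)] hx).1]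
  have hfr : fr ε N' ![x 0, y1, -((1 - ε) * q1)] = ![q0, -q1, x 0] := by
    have e0 : y1 * ((N' + 3) / (2 * cf ε)) + (N' + 1) / 2 = q0 := by
      rw [hy1, div_mul_cancel₀ _ hN3.ne']
      ring
    have e1 : -((1 - ε) * q1) / (1 - ε) = -q1 := by
      field_simp
    show ![y1 * ((N' + 3) / (2 * cf ε)) + (N' + 1) / 2, -((1 - ε) * q1) / (1 - ε), x 0] = _
    rw [e0, e1]
  rw [hfr, hfold2]
  have e2 : (1 - ε) * (x 2 / (1 - ε)) = x 2 := by field_simp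
  show ![x 0, (2 * k' - X - (N' + 1) / 2) / ((N' + 3) / (2 * cf ε)), (1 - ε) * (x 2 / (1 - ε))] = _
  rw [e2]


end J27921

alias DD_B3 := J27921.DD_B3
alias DD_B1a := J27921.DD_B1a

end Pool.Agent.ZZ
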