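import Pool.Agent.ZZ.Defs3
import Pool.Agent.ZZ.T26

/-! job 27923, proof by helper422 -/

set_option autoImplicit false
open Set Filter Topology MeasureTheory
open scoped NNReal

namespace Pool.Agent.ZZ

namespace J27923

theorem w923_glue {F : ℝ → E} {C m : ℝ} {P Q : ℝ → Prop}
    (hA : ∀ s s', P s → P s' → dist (F s) (F s') ≤ C * |s - s'|)
    (hB : ∀ s s', Q s → Q s' → dist (F s) (F s') ≤ C * |s - s'|)
    (hC : 0 ≤ C) (hPm : P m) (hQm : Q m)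
    (hPQ : ∀ s s', P s → Q s' → |s - m| + |m - s'| ≤ |s - s'|) :
    ∀ s s', (P s ∨ Q s) → (P s' ∨ Q s') → dist (F s) (F s') ≤ C * |s - s'| := by
  have key : ∀ s s', P s → Q s' → dist (F s) (F s') ≤ C * |s - s'| := by
    intro s s' hs hs'
    have h1 := hA s m hs hPm
    have h2 := hB m s' hQm hs'
    have h3 := dist_triangle (F s) (F m) (F s')
    have h4 := mul_le_mul_of_nonneg_left (hPQ s s' hs hs') hC
    rw [mul_add] at h4
    linarith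
  intro s s' hs hs'
  rcases hs with hs | hs <;> rcases hs' with hs' | hs'
  · exact hA _ _ hs hs'
  · exact key _ _ hs hs'
  · rw [dist_comm, abs_sub_comm]
    exact key _ _ hs' hs
  · exact hB _ _ hs hs'

theorem w923_a (ε : ℝ) (h0 : 0 < ε) (h1 : ε ≤ 1 / 4) (N' : ℕ) :
    1 ≤ ((N' : ℝ) + 3) / (2 * cf ε) := by
  have hc0 : 0 < cf ε := by unfold cf wd; linarith
  have hc1 : cf ε ≤ 1 := by unfold cf wd; linarith
  rw [le_div_iff₀ (by positivity)]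
  have : (0 : ℝ) ≤ N' := Nat.cast_nonneg _
  linarith

theorem w923_fri (ε : ℝ) (h0 : 0 < ε) (h1 : ε ≤ 1 / 4) (N' : ℕ) (p q : E) :
    dist (fri ε N' p) (fri ε N' q) ≤ dist p q := by
  have ha := w923_a ε h0 h1 N'
  set a := ((N' : ℝ) + 3) / (2 * cf ε) with had
  have d0 := dist_le_pi_dist p q 0
  have d1 := dist_le_pi_dist p q 1
  have d2 := dist_le_pi_dist p q 2
  rw [Real.dist_eq] at d0 d1 d2
  rw [dist_pi_le_iff dist_nonneg]
  intro i
  rw [Real.dist_eq]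
  fin_cases i
  · exact d2
  · show |(p 0 - (N' + 1) / 2) / a - (q 0 - (N' + 1) / 2) / a| ≤ dist p q
    have e : (p 0 - (N' + 1) / 2) / a - (q 0 - (N' + 1) / 2) / a = (p 0 - q 0) / a := by ring
    rw [e, abs_div, abs_of_pos (by linarith : (0 : ℝ) < a)]
    exact (div_le_self (abs_nonneg _) ha).trans d0
  · show |(1 - ε) * p 1 - (1 - ε) * q 1| ≤ dist p q
    rw [← mul_sub, abs_mul, abs_of_pos (by linarith : (0 : ℝ) < 1 - ε)]
    have := abs_nonneg (p 1 - q 1)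
    nlinarith

theorem w923_fr (ε : ℝ) (h0 : 0 < ε) (h1 : ε ≤ 1 / 4) (N' : ℕ) (z z' : E) (D : ℝ) (hD : 0 ≤ D)
    (g1 : |z 1 * (((N' : ℝ) + 3) / (2 * cf ε)) - z' 1 * (((N' : ℝ) + 3) / (2 * cf ε))| ≤ D)
    (g2 : |z 2 - z' 2| ≤ 3 / 4 * D) (g0 : |z 0 - z' 0| ≤ D) :
    dist (fr ε N' z) (fr ε N' z') ≤ D := by
  rw [dist_pi_le_iff hD]
  intro i
  rw [Real.dist_eq]
  fin_cases i
  · show |(z 1 * (((N' : ℝ) + 3) / (2 * cf ε)) + (N' + 1) / 2) -
      (z' 1 * (((N' : ℝ) + 3) / (2 * cf ε)) + (N' + 1) / 2)| ≤ D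
    rw [add_sub_add_right_eq_sub]
    exact g1
  · show |z 2 / (1 - ε) - z' 2 / (1 - ε)| ≤ D
    rw [← sub_div, abs_div, abs_of_pos (by linarith : (0 : ℝ) < 1 - ε),
      div_le_iff₀ (by linarith)]
    nlinarith
  · exact g0

theorem w923_box (ε ε' : ℝ) (h0 : 0 < ε) (h1 : ε ≤ 1 / 4) (h0' : 0 < ε') (h1' : ε' ≤ 1 / 4)
    (N N' : ℕ) (x : E) (hx1 : |x 1| ≤ cf ε) (hx2 : |x 2| ≤ 1 - ε) :
    |fri ε N' ((fold ε' N' (Lam N)).symm (fr ε N' x)) 1| ≤ cf ε ∧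
    |fri ε N' ((fold ε' N' (Lam N)).symm (fr ε N' x)) 2| ≤ 1 - ε ∧
    fri ε N' ((fold ε' N' (Lam N)).symm (fr ε N' x)) 0 = x 0 := by
  have hc0 : 0 < cf ε := by unfold cf wd; linarith
  have ha := w923_a ε h0 h1 N'
  set a := ((N' : ℝ) + 3) / (2 * cf ε) with had
  have ha0 : 0 < a := by linarith
  have hac : a * cf ε = (N' + 3) / 2 := by
    rw [had]
    field_simp
  set p := fr ε N' x with hp
  set q := (fold ε' N' (Lam N)).symm p with hq
  have hp0 : p 0 = x 1 * a + (N' + 1) / 2 := rfl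
  have hp1 : p 1 = x 2 / (1 - ε) := rfl
  have hp2 : p 2 = x 0 := rfl
  have hfq : fold ε' N' (Lam N) q = p := (fold ε' N' (Lam N)).apply_symm_apply p
  have b0 : -1 ≤ p 0 ∧ p 0 ≤ N' + 2 := by
    rw [hp0]
    have h3 := abs_le.1 hx1
    constructor
    · nlinarith
    · nlinarith
  have b1 : |p 1| ≤ 1 := by
    rw [hp1, abs_div, abs_of_pos (by linarith : (0 : ℝ) < 1 - ε), div_le_one (by linarith)]
    exact hx2
  have hqb : (-1 ≤ q 0 ∧ q 0 ≤ N' + 2) ∧ |q 1| ≤ 1 := by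
    by_contra hcon
    have hout : q 0 ≤ 0 ∨ (N' : ℝ) + 1 ≤ q 0 ∨ 1 ≤ |q 1| ∨ Lam N (q 2) = 0 := by
      by_contra hcc
      push Not at hcc
      exact hcon ⟨⟨by linarith [hcc.1], by linarith [hcc.2.1]⟩, hcc.2.2.1.le⟩
    have h5 := (fold_out ε' h0' h1' N' (Lam N) (Lam_amp N) q hout).1
    rw [hfq] at h5
    rw [← h5] at hcon
    exact hcon ⟨b0, b1⟩
  have hq2 : q 2 = x 0 := by
    rw [← hp2]
    exact (fold_two ε' h0' h1' N' (Lam N) (Lam_amp N) p).2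
  refine ⟨?_, ?_, ?_⟩
  · show |(q 0 - (N' + 1) / 2) / a| ≤ cf ε
    rw [abs_div, abs_of_pos ha0, div_le_iff₀ ha0, mul_comm, hac, abs_le]
    constructor
    · linarith [hqb.1.1]
    · linarith [hqb.1.2]
  · show |(1 - ε) * q 1| ≤ 1 - ε
    rw [abs_mul, abs_of_pos (by linarith : (0 : ℝ) < 1 - ε)]
    have := hqb.2
    have := abs_nonneg (q 1)
    nlinarith
  · exact hq2

theorem w923_B (ε ε' ε'' : ℝ) (h0 : 0 < ε) (h1 : ε ≤ 1 / 4) (h0' : 0 < ε') (h1' : ε' ≤ 1 / 4)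
    (h0'' : 0 < ε'') (h1'' : ε'' ≤ 1 / 4) (N N' : ℕ) (KG KF : ℝ≥0)
    (hG : LipschitzWith KG (GG ε ε' N))
    (hF : LipschitzWith KF (fold ε' N' (Lam N))) (hF' : LipschitzWith KF (fold ε' N' (Lam N)).symm)
    (j : ℕ) (hj1 : 1 ≤ j) (hjN : j ≤ N) (hj : j = 1 ∨ j = N) (x x' : E)
    (e1 : x 1 = x' 1) (e2 : x 2 = x' 2) (hx1 : |x 1| ≤ cf ε) (hx2 : |x 2| ≤ 1 - ε)
    (hx : |x 0 - j| ≤ 1 / 2) (hx' : |x' 0 - j| ≤ 1 / 2) :
    dist (DD ε ε' ε'' N N' x) (DD ε ε' ε'' N N' x') ≤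
      KF * ((1 + 2 * KG) * (KF * |x 0 - x' 0|)) := by
  have hfh : fh ε ≤ 1 / 2 := by unfold fh; linarith
  have hgap : ∀ r : ℝ, |r - j| ≤ 1 / 2 → ∀ k, Ad N k → fh ε ≤ |r - k| := by
    intro r hr k hk
    refine hfh.trans ?_
    obtain ⟨hk1, hk2⟩ := hk
    have hr' := abs_le.1 hr
    rcases hj with rfl | rfl
    · have : (2 : ℝ) ≤ k := by exact_mod_cast hk1
      rw [abs_sub_comm]
      refine le_trans ?_ (le_abs_self _)
      push_cast at hr'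
      linarith [hr'.2]
    · have : (k : ℝ) + 1 ≤ j := by exact_mod_cast hk2
      refine le_trans ?_ (le_abs_self _)
      linarith [hr'.1]
  -- structure of DD
  have hDD : ∀ u : E, |u 1| ≤ cf ε → |u 2| ≤ 1 - ε → |u 0 - j| ≤ 1 / 2 →
      DD ε ε' ε'' N N' u = fri ε N' (fold ε' N' (Lam N) (fr ε N'
        (GG ε ε' N (fri ε N' ((fold ε' N' (Lam N)).symm (fr ε N' u)))))) ∧
      GG ε ε' N (fri ε N' ((fold ε' N' (Lam N)).symm (fr ε N' u))) 1 =
        fri ε N' ((fold ε' N' (Lam N)).symm (fr ε N' u)) 1 := by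
    intro u hu1 hu2 hu0
    obtain ⟨c1, c2, c0⟩ := w923_box ε ε' h0 h1 h0' h1' N N' u hu1 hu2
    have hq := (QQ_gap ε ε' ε'' h0 h1 h0' h1' h0'' h1'' N N' u (hgap _ hu0)).2
    set y := fri ε N' ((fold ε' N' (Lam N)).symm (fr ε N' u)) with hy
    have hy0 : |y 0 - j| ≤ 1 / 2 := by rw [c0]; exact hu0
    have hg0 := (GG_side ε ε' h0 h1 h0' h1' N y).2 j hj1 hjN hy0
    constructor
    · unfold DD
      rw [hq]
      exact (QQ_gap ε ε' ε'' h0 h1 h0' h1' h0'' h1'' N N' _ (hgap _ hg0)).1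
    · have hjN' : (j : ℝ) ≤ N := by exact_mod_cast hjN
      have hj1' : (1 : ℝ) ≤ j := by exact_mod_cast hj1
      have := abs_le.1 hy0
      apply GG_fat ε ε' h0 h1 h0' h1' N y
      · linarith
      · linarith
      · refine c1.trans ?_
        unfold cf wd
        linarith
      · exact c2
  obtain ⟨hDx, hGx⟩ := hDD x hx1 hx2 hx
  obtain ⟨hDx', hGx'⟩ := hDD x' (by rw [← e1]; exact hx1) (by rw [← e2]; exact hx2) hx'
  rw [hDx, hDx']
  have ha := w923_a ε h0 h1 N'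
  set a := ((N' : ℝ) + 3) / (2 * cf ε) with had
  have ha0 : a ≠ 0 := by intro h; rw [h] at ha; linarith
  set q := (fold ε' N' (Lam N)).symm (fr ε N' x) with hq
  set q' := (fold ε' N' (Lam N)).symm (fr ε N' x') with hq'
  have s1 : dist q q' ≤ KF * |x 0 - x' 0| := by
    refine (hF'.dist_le_mul _ _).trans ?_
    refine mul_le_mul_of_nonneg_left ?_ KF.2
    refine w923_fr ε h0 h1 N' x x' _ (abs_nonneg _) ?_ ?_ le_rfl
    · rw [e1]; simp
    · rw [e2]; simp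
  have s2 : dist (GG ε ε' N (fri ε N' q)) (GG ε ε' N (fri ε N' q')) ≤ KG * dist q q' := by
    refine (hG.dist_le_mul _ _).trans ?_
    exact mul_le_mul_of_nonneg_left (w923_fri ε h0 h1 N' q q') KG.2
  set z := GG ε ε' N (fri ε N' q) with hz
  set z' := GG ε ε' N (fri ε N' q') with hz'
  have dz0 := dist_le_pi_dist z z' 0
  have dz2 := dist_le_pi_dist z z' 2
  have dq0 := dist_le_pi_dist q q' 0
  rw [Real.dist_eq] at dz0 dz2 dq0
  have hKG : (0 : ℝ) ≤ KG := KG.2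
  have hKF : (0 : ℝ) ≤ KF := KF.2
  have hdq : 0 ≤ dist q q' := dist_nonneg
  have hKd : 0 ≤ KG * dist q q' := mul_nonneg hKG hdq
  have s3 : dist (fr ε N' z) (fr ε N' z') ≤ (1 + 2 * KG) * dist q q' := by
    refine w923_fr ε h0 h1 N' z z' _ (by positivity) ?_ ?_ ?_
    · have t1 : z 1 * a = q 0 - (N' + 1) / 2 := by
        rw [hGx]
        show (q 0 - (N' + 1) / 2) / a * a = q 0 - (N' + 1) / 2
        rw [div_mul_cancel₀ _ ha0]
      have t2 : z' 1 * a = q' 0 - (N' + 1) / 2 := by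
        rw [hGx']
        show (q' 0 - (N' + 1) / 2) / a * a = q' 0 - (N' + 1) / 2
        rw [div_mul_cancel₀ _ ha0]
      rw [t1, t2, sub_sub_sub_cancel_right]
      nlinarith
    · nlinarith
    · nlinarith
  refine (w923_fri ε h0 h1 N' _ _).trans ((hF.dist_le_mul _ _).trans ?_)
  refine mul_le_mul_of_nonneg_left ?_ hKF
  refine s3.trans ?_
  exact mul_le_mul_of_nonneg_left s1 (by positivity)

theorem w923_A (ε ε' ε'' : ℝ) (h0 : 0 < ε) (h1 : ε ≤ 1 / 4) (h0' : 0 < ε') (h1' : ε' ≤ 1 / 4)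
    (h0'' : 0 < ε'') (h1'' : ε'' ≤ 1 / 4) (N N' : ℕ) (x : E)
    (hx : x 0 ≤ 1 / 2 ∨ (N : ℝ) + 1 / 2 ≤ x 0) :
    DD ε ε' ε'' N N' x = GG ε ε' N x := by
  have q1 := (QQ_out ε ε' ε'' h0 h1 h0' h1' h0'' h1'' N N' x
    (hx.elim (fun h => Or.inl h) (fun h => Or.inr (Or.inl h)))).2
  unfold DD
  rw [q1]
  have h2 := (GG_side ε ε' h0 h1 h0' h1' N x).1 hx
  apply (QQ_out ε ε' ε'' h0 h1 h0' h1' h0'' h1'' N N' _ _).1
  rw [h2]
  exact hx.elim (fun h => Or.inl h) (fun h => Or.inr (Or.inl h))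

theorem DD_B1b (ε ε' ε'' : ℝ) (h0 : 0 < ε) (h1 : ε ≤ 1 / 4) (h0' : 0 < ε') (h1' : ε' ≤ 1 / 4)
    (h0'' : 0 < ε'') (h1'' : ε'' ≤ 1 / 4) : ∃ C : ℝ, 1 ≤ C ∧ ∀ N N' : ℕ, 4 ≤ N → ∀ x ∈ PB N,
    (x 0 < 3 / 2 ∨ (N : ℝ) - 1 / 2 < x 0) → |x 1| < cf ε → |x 2| < 1 - ε →
    ∀ᶠ t in 𝓝 (0 : ℝ), dist (DD ε ε' ε'' N N' (x + t • Pi.single 0 1)) (DD ε ε' ε'' N N' x) ≤ C * |t| := by
  obtain ⟨KG, hKG⟩ := GG_lip ε ε' h0 h1 h0' h1'
  obtain ⟨KF, hKF⟩ := fold_lip ε' h0' h1'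
  have hG0 : (0 : ℝ) ≤ KG := KG.2
  have hF0 : (0 : ℝ) ≤ KF := KF.2
  have hP0 : (0 : ℝ) ≤ KF * ((1 + 2 * KG) * KF) := by positivity
  refine ⟨1 + KG + KF * ((1 + 2 * KG) * KF), by linarith, ?_⟩
  intro N N' hN x hxP hx hx1 hx2
  set C : ℝ := 1 + KG + KF * ((1 + 2 * KG) * KF) with hC
  have hC0 : 0 ≤ C := by linarith
  have hNr : (4 : ℝ) ≤ N := by exact_mod_cast hN
  let X : ℝ → E := fun s => ![s, x 1, x 2]
  let F : ℝ → E := fun s => DD ε ε' ε'' N N' (X s)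
  have hXd : ∀ s s', dist (X s) (X s') ≤ |s - s'| := by
    intro s s'
    rw [dist_pi_le_iff (abs_nonneg _)]
    intro i
    rw [Real.dist_eq]
    fin_cases i
    · exact le_rfl
    · show |x 1 - x 1| ≤ _
      rw [sub_self, abs_zero]
      exact abs_nonneg _
    · show |x 2 - x 2| ≤ _
      rw [sub_self, abs_zero]
      exact abs_nonneg _
  have hA : ∀ s s', (s ≤ 1 / 2 ∨ (N : ℝ) + 1 / 2 ≤ s) → (s' ≤ 1 / 2 ∨ (N : ℝ) + 1 / 2 ≤ s') →
      dist (F s) (F s') ≤ C * |s - s'| := by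
    intro s s' hs hs'
    show dist (DD ε ε' ε'' N N' (X s)) (DD ε ε' ε'' N N' (X s')) ≤ _
    rw [w923_A ε ε' ε'' h0 h1 h0' h1' h0'' h1'' N N' (X s) hs,
      w923_A ε ε' ε'' h0 h1 h0' h1' h0'' h1'' N N' (X s') hs']
    refine ((hKG N).dist_le_mul _ _).trans ?_
    have h3 := hXd s s'
    have h4 := abs_nonneg (s - s')
    calc (KG : ℝ) * dist (X s) (X s') ≤ KG * |s - s'| := mul_le_mul_of_nonneg_left h3 hG0
      _ ≤ C * |s - s'| := mul_le_mul_of_nonneg_right (by linarith) h4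
  have hB : ∀ j : ℕ, 1 ≤ j → j ≤ N → (j = 1 ∨ j = N) → ∀ s s' : ℝ, |s - j| ≤ 1 / 2 →
      |s' - j| ≤ 1 / 2 → dist (F s) (F s') ≤ C * |s - s'| := by
    intro j hj1 hjN hj s s' hs hs'
    have h5 := w923_B ε ε' ε'' h0 h1 h0' h1' h0'' h1'' N N' KG KF (hKG N)
      (hKF N' (Lam N) (Lam_amp N)).1 (hKF N' (Lam N) (Lam_amp N)).2 j hj1 hjN hj (X s) (X s')
      rfl rfl hx1.le hx2.le hs hs'
    refine h5.trans ?_
    show (KF : ℝ) * ((1 + 2 * KG) * (KF * |s - s'|)) ≤ C * |s - s'|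
    have h4 := abs_nonneg (s - s')
    have e : (KF : ℝ) * ((1 + 2 * KG) * (KF * |s - s'|)) =
      (KF * ((1 + 2 * KG) * KF)) * |s - s'| := by ring
    rw [e]
    exact mul_le_mul_of_nonneg_right (by linarith) h4
  have hXx : X (x 0) = x := by
    funext i
    fin_cases i <;> rfl
  have hXt : ∀ t : ℝ, x + t • Pi.single 0 1 = X (x 0 + t) := by
    intro t
    funext i
    fin_cases i <;> simp [X]
  have hlim : Tendsto (fun t : ℝ => x 0 + t) (𝓝 0) (𝓝 (x 0)) := by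
    have : Continuous (fun t : ℝ => x 0 + t) := by fun_prop
    simpa using this.tendsto 0
  have hfin : ∀ t : ℝ, dist (F (x 0 + t)) (F (x 0)) ≤ C * |x 0 + t - x 0| →
      dist (DD ε ε' ε'' N N' (x + t • Pi.single 0 1)) (DD ε ε' ε'' N N' x) ≤ C * |t| := by
    intro t ht
    rw [hXt]
    have h6 : F (x 0) = DD ε ε' ε'' N N' x := by
      show DD ε ε' ε'' N N' (X (x 0)) = _
      rw [hXx]
    rw [h6, add_sub_cancel_left] at ht
    exact ht
  rcases hx with hx | hx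
  · filter_upwards [hlim.eventually (gt_mem_nhds hx)] with t ht
    apply hfin
    have key := w923_glue (F := F) (C := C) (m := 1 / 2) (P := fun s => s ≤ 1 / 2)
      (Q := fun s => 1 / 2 ≤ s ∧ s ≤ 3 / 2)
      (fun s s' hs hs' => hA s s' (Or.inl hs) (Or.inl hs'))
      (fun s s' hs hs' => hB 1 le_rfl (by omega) (Or.inl rfl) s s' (by
        rw [abs_le]; push_cast; constructor <;> linarith [hs.1, hs.2]) (by
        rw [abs_le]; push_cast; constructor <;> linarith [hs'.1, hs'.2]))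
      hC0 le_rfl ⟨le_rfl, by norm_num⟩ (by
        intro s s' hs hs'
        rw [abs_of_nonpos (by linarith : s - 1 / 2 ≤ 0), abs_of_nonpos (by linarith [hs'.1]),
          abs_of_nonpos (by linarith [hs'.1])]
        linarith)
    have split : ∀ s : ℝ, s < 3 / 2 → (s ≤ 1 / 2 ∨ (1 / 2 ≤ s ∧ s ≤ 3 / 2)) := by
      intro s hs
      rcases le_total s (1 / 2) with h | h
      · exact Or.inl h
      · exact Or.inr ⟨h, hs.le⟩
    exact key _ _ (split _ ht) (split _ hx)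
  · filter_upwards [hlim.eventually (lt_mem_nhds hx)] with t ht
    apply hfin
    have key := w923_glue (F := F) (C := C) (m := N + 1 / 2) (P := fun s => (N : ℝ) + 1 / 2 ≤ s)
      (Q := fun s => (N : ℝ) - 1 / 2 ≤ s ∧ s ≤ N + 1 / 2)
      (fun s s' hs hs' => hA s s' (Or.inr hs) (Or.inr hs'))
      (fun s s' hs hs' => hB N (by omega) le_rfl (Or.inr rfl) s s' (by
        rw [abs_le]; constructor <;> linarith [hs.1, hs.2]) (by
        rw [abs_le]; constructor <;> linarith [hs'.1, hs'.2]))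
      hC0 le_rfl ⟨by linarith, le_rfl⟩ (by
        intro s s' hs hs'
        rw [abs_of_nonneg (by linarith : 0 ≤ s - (N + 1 / 2)), abs_of_nonneg (by linarith [hs'.2]),
          abs_of_nonneg (by linarith [hs'.2])]
        linarith)
    have split : ∀ s : ℝ, (N : ℝ) - 1 / 2 < s → ((N : ℝ) + 1 / 2 ≤ s ∨
        ((N : ℝ) - 1 / 2 ≤ s ∧ s ≤ N + 1 / 2)) := by
      intro s hs
      rcases le_total s ((N : ℝ) + 1 / 2) with h | h
      · exact Or.inr ⟨hs.le, h⟩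
      · exact Or.inl h
    exact key _ _ (split _ ht) (split _ hx)


end J27923

alias DD_B1b := J27923.DD_B1b

end Pool.Agent.ZZ
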