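import Pool.Agent.ZZ.Defs3
import Pool.Agent.ZZ.T26

/-! job 27927, proof by helper895 -/

set_option autoImplicit false
open Set Filter Topology MeasureTheory
open scoped NNReal

namespace Pool.Agent.ZZ

namespace J27927
theorem DD_B2 (ε ε' ε'' : ℝ) (h0 : 0 < ε) (h1 : ε ≤ 1 / 4) (h0' : 0 < ε') (h1' : ε' ≤ 1 / 4)
    (h0'' : 0 < ε'') (h1'' : ε'' ≤ 1 / 4) : ∃ C : ℝ, 1 ≤ C ∧ ∀ N N' : ℕ, 4 ≤ N → ∀ x ∈ PB N,
    1 / 2 < x 0 → x 0 < N + 1 / 2 → cf ε < |x 1| → |x 2| < 1 - ε →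
    cf ε ≤ |DD ε ε' ε'' N N' x 1| ∧ |DD ε ε' ε'' N N' x 1| ≤ 1 ∧
    ∀ᶠ t in 𝓝 (0 : ℝ), dist (DD ε ε' ε'' N N' (x + t • Pi.single 1 1)) (DD ε ε' ε'' N N' x) ≤ C * |t| := by
  obtain ⟨K, hK⟩ := GG_lip ε ε' h0 h1 h0' h1'
  refine ⟨max 1 K, le_max_left _ _, ?_⟩
  intro N N' hN x hxP ha hb hy hz
  have A : ∀ y : E, 1 / 2 < y 0 → y 0 < N + 1 / 2 → cf ε < |y 1| → |y 2| < 1 - ε →
      cf ε ≤ |GG ε ε' N y 1| ∧ DD ε ε' ε'' N N' y = GG ε ε' N y := by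
    intro y ha hb hy hz
    have h2 : cf ε ≤ |GG ε ε' N y 1| := by
      rcases le_total |y 1| (1 - 20 * wd ε) with h | h
      · rw [GG_fat ε ε' h0 h1 h0' h1' N y ha.le hb.le h hz.le]
        exact hy.le
      · exact GG_mid ε ε' h0 h1 h0' h1' N y ha.le hb.le h hz.le
    refine ⟨h2, ?_⟩
    unfold DD
    rw [(QQ_out ε ε' ε'' h0 h1 h0' h1' h0'' h1'' N N' y (Or.inr (Or.inr (Or.inl hy.le)))).2]
    exact (QQ_out ε ε' ε'' h0 h1 h0' h1' h0'' h1'' N N' (GG ε ε' N y)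
      (Or.inr (Or.inr (Or.inl h2)))).1
  obtain ⟨hx1, hx2⟩ := A x ha hb hy hz
  refine ⟨?_, ?_, ?_⟩
  · rw [hx2]; exact hx1
  · exact (DD_PB ε ε' ε'' h0 h1 h0' h1' h0'' h1'' N N' x hxP).2.2.1
  · have hc : ContinuousAt (fun t : ℝ => |x 1 + t|) 0 := by fun_prop
    have hev : ∀ᶠ t in 𝓝 (0 : ℝ), cf ε < |x 1 + t| := by
      refine hc.eventually (lt_mem_nhds ?_)
      simpa using hy
    filter_upwards [hev] with t ht
    have e0 : (x + t • (Pi.single 1 1 : E)) 0 = x 0 := by simp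
    have e1 : (x + t • (Pi.single 1 1 : E)) 1 = x 1 + t := by simp
    have e2 : (x + t • (Pi.single 1 1 : E)) 2 = x 2 := by simp
    have h3 := (A (x + t • (Pi.single 1 1 : E)) (by rw [e0]; exact ha) (by rw [e0]; exact hb)
      (by rw [e1]; exact ht) (by rw [e2]; exact hz)).2
    rw [h3, hx2]
    have h4 := (hK N).dist_le_mul (x + t • (Pi.single 1 1 : E)) x
    have h5 : dist (x + t • (Pi.single 1 1 : E)) x ≤ |t| := by
      rw [dist_eq_norm, add_sub_cancel_left]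
      refine (pi_norm_le_iff_of_nonneg (abs_nonneg t)).mpr (fun i => ?_)
      fin_cases i <;> simp
    calc dist (GG ε ε' N (x + t • (Pi.single 1 1 : E))) (GG ε ε' N x)
        ≤ K * dist (x + t • (Pi.single 1 1 : E)) x := h4
      _ ≤ K * |t| := mul_le_mul_of_nonneg_left h5 K.2
      _ ≤ max 1 K * |t| := mul_le_mul_of_nonneg_right (le_max_right _ _) (abs_nonneg t)

end J27927

alias DD_B2 := J27927.DD_B2

end Pool.Agent.ZZ
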