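import Pool.Agent.ZZ.Defs3
import Pool.Agent.ZZ.T27
import Pool.Agent.ZZ.T28

/-! job 27937, proof by helper762 -/

set_option autoImplicit false
open Set Filter Topology MeasureTheory
open scoped NNReal

namespace Pool.Agent.ZZ

namespace J27937
theorem DD_StageE (ε ε' ε'' : ℝ) (h0 : 0 < ε) (h1 : ε ≤ 1 / 4) (h0' : 0 < ε') (h1' : ε' ≤ 1 / 4)
    (h0'' : 0 < ε'') (h1'' : ε'' ≤ 1 / 4) : ∃ C : ℝ, 1 ≤ C ∧ ∀ N N' : ℕ, 4 ≤ N → 4 ≤ N' → ∃ L : ℝ, 1 ≤ L ∧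
      StageE ε ε' N N' (DD ε ε' ε'' N N') C L := by
  obtain ⟨C1, hC1, hB1⟩ := DD_B1b ε ε' ε'' h0 h1 h0' h1' h0'' h1''
  obtain ⟨C2, hC2, hB2⟩ := DD_B2 ε ε' ε'' h0 h1 h0' h1' h0'' h1''
  refine ⟨max C1 C2, hC1.trans (le_max_left _ _), fun N N' hN hN' => ?_⟩
  obtain ⟨K, hK⟩ := DD_lip ε ε' ε'' h0 h1 h0' h1' h0'' h1'' N N'
  refine ⟨max 1 (K : ℝ), le_max_left _ _, ⟨?_, ?_, ?_, ?_, ?_⟩⟩
  · intro x y
    exact (hK.dist_le_mul x y).trans (mul_le_mul_of_nonneg_right (le_max_right _ _) dist_nonneg)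
  · intro x _ hz k hk hx hy
    exact DD_B3 ε ε' ε'' h0 h1 h0' h1' h0'' h1'' N N' x hz k hk hx hy
  · intro x _ ha hb hx k' hk' hy hz
    exact DD_B1a ε ε' ε'' h0 h1 h0' h1' h0'' h1'' N N' x ha hb hx k' hk' hy hz
  · intro x hx ha hy hz
    have h := hB1 N N' hN x hx ha hy hz
    filter_upwards [h] with t ht
    exact ht.trans (mul_le_mul_of_nonneg_right (le_max_left _ _) (abs_nonneg t))
  · intro x hx ha hb hy hz
    obtain ⟨e1, e2, e3⟩ := hB2 N N' hN x hx ha hb hy hz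
    refine ⟨e1, e2, ?_⟩
    filter_upwards [e3] with t ht
    exact ht.trans (mul_le_mul_of_nonneg_right (le_max_right _ _) (abs_nonneg t))
theorem DD_StageT (ε : ℕ → ℝ) (N : ℕ → ℕ) (h0 : ∀ s, 0 < ε s) (h1 : ∀ s, ε s ≤ 1 / 4) (hN : ∀ s, 4 ≤ N s) :
    StageT ε N (fun s => GG (ε s) (ε (s + 1)) (N s))
      (fun s => DD (ε s) (ε (s + 1)) (ε (s + 2)) (N s) (N (s + 1))) := by
  refine ⟨hN, h0, h1, ?_, ?_, ?_, ?_, ?_, ?_, ?_, ?_, ?_, ?_⟩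
  · intro s
    exact GG_open _ _ _
  · intro s y
    exact GG_fin _ _ _ y
  · intro s
    exact GG_surj _ _ _
  · intro s
    obtain ⟨K, hK⟩ := GG_lip (ε s) (ε (s + 1)) (h0 s) (h1 s) (h0 (s + 1)) (h1 (s + 1))
    exact ⟨K, hK (N s)⟩
  · intro s
    exact DD_lip _ _ _ (h0 s) (h1 s) (h0 (s + 1)) (h1 (s + 1)) (h0 (s + 2)) (h1 (s + 2)) _ _
  · intro s
    exact (GG_PB (ε s) (ε (s + 1)) (h0 s) (h1 s) (h0 (s + 1)) (h1 (s + 1)) (N s)).1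
  · intro s
    refine ⟨QQ (ε s) (ε (s + 1)) (ε (s + 2)) (N s) (N (s + 1)), ?_, fun x => rfl⟩
    intro x hx
    refine (QQ_out _ _ _ (h0 s) (h1 s) (h0 (s + 1)) (h1 (s + 1)) (h0 (s + 2)) (h1 (s + 2))
      (N s) (N (s + 1)) x ?_).1
    by_contra hcon
    push Not at hcon
    obtain ⟨c1, c2, c3, c4⟩ := hcon
    apply hx
    have hcf : cf (ε s) ≤ 1 := by
      unfold cf wd
      have := h0 s
      linarith
    refine ⟨by linarith, by linarith, by linarith, ?_⟩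
    have := h0 s
    linarith
  · intro s x hx
    exact DD_out _ _ _ (h0 s) (h1 s) (h0 (s + 1)) (h1 (s + 1)) (h0 (s + 2)) (h1 (s + 2)) _ _ x hx
  · intro s k x hk hx
    exact DD_child _ _ _ (h0 s) (h1 s) (h0 (s + 1)) (h1 (s + 1)) (h0 (s + 2)) (h1 (s + 2)) _ _ k
      hk x hx
  · intro s k hk
    exact DD_CB _ _ _ (h0 s) (h1 s) (h0 (s + 1)) (h1 (s + 1)) (h0 (s + 2)) (h1 (s + 2)) _ _ k hk


end J27937

alias DD_StageE := J27937.DD_StageE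
alias DD_StageT := J27937.DD_StageT

end Pool.Agent.ZZ
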